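import Pool.Agent.Lib.MP_a51368_pr.Neg.Spec1
import Pool.Agent.Lib.MP_a51368_pr.Meas

/-!
# Adapted injections preserve the i.i.d. structure
-/

open MeasureTheory ProbabilityTheory Set

namespace CausalPerc.Neg

namespace Adapted

theorem nd_prob {α : ℝ} (h0 : 0 ≤ α) (h1 : α < 1) : IsProbabilityMeasure (ndLaw α) := by
  have := geo_prob h0 h1
  unfold ndLaw
  infer_instance

theorem row_prob {α : ℝ} (h0 : 0 ≤ α) (h1 : α < 1) : IsProbabilityMeasure (rowLaw α) := by
  have := nd_prob h0 h1
  unfold rowLaw
  infer_instance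

theorem arr_prob {α : ℝ} (h0 : 0 ≤ α) (h1 : α < 1) : IsProbabilityMeasure (arrLaw α) := by
  have := row_prob h0 h1
  unfold arrLaw
  infer_instance

/-- Rows `≥ n` are replaced by a fixed row. -/
def trunc (n : ℕ) (ω : Arr) : Arr := fun t => if t < n then ω t else fun _ => (0, fun _ => 0)

theorem measurable_trunc (n : ℕ) : Measurable (trunc n) := by
  rw [measurable_pi_iff]
  intro t
  unfold trunc
  by_cases h : t < n
  · simp only [h, if_true]
    exact measurable_pi_apply t
  · simp only [h, if_false]
    exact measurable_const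

theorem trunc_agree (n : ℕ) (ω : Arr) : ∀ t < n, trunc n ω t = ω t := by
  intro t ht
  simp [trunc, ht]

/-- The row `n` is independent of the rows `< n`. -/
theorem indep_row {α : ℝ} (h0 : 0 ≤ α) (h1 : α < 1) (n : ℕ) :
    IndepFun (trunc n) (fun ω : Arr => ω n) (arrLaw α) := by
  classical
  have := row_prob h0 h1
  have hI : iIndepFun (fun (t : ℕ) (ω : Arr) => ω t) (arrLaw α) := by
    unfold arrLaw
    exact iIndepFun_infinitePi (P := fun _ : ℕ => rowLaw α) (X := fun _ ω => ω)
      (fun _ => measurable_id)
  have h2 := hI.indepFun_finset (Finset.range n) {n} (by simp) (fun t => measurable_pi_apply t)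
  let g : ((t : Finset.range n) → Row) → Arr := fun u t =>
    if h : t ∈ Finset.range n then u ⟨t, h⟩ else fun _ => (0, fun _ => 0)
  have hg : Measurable g := by
    rw [measurable_pi_iff]
    intro t
    by_cases h : t ∈ Finset.range n
    · simp only [g, h, dif_pos]
      exact measurable_pi_apply _
    · simp only [g, h, dif_neg, not_false_eq_true]
      exact measurable_const
  let g' : ((t : ({n} : Finset ℕ)) → Row) → Row := fun u => u ⟨n, Finset.mem_singleton_self n⟩
  have hg' : Measurable g' := measurable_pi_apply _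
  have h3 := h2.comp hg hg'
  have h4 : g ∘ (fun (a : Arr) (i : Finset.range n) => a i) = trunc n := by
    funext ω t
    simp only [g, Function.comp, trunc, Finset.mem_range]
    split_ifs <;> rfl
  have h5 : g' ∘ (fun (a : Arr) (i : ({n} : Finset ℕ)) => a i) = fun ω : Arr => ω n := rfl
  rw [h4, h5] at h3
  exact h3

theorem split_row {α : ℝ} (h0 : 0 ≤ α) (h1 : α < 1) (n : ℕ) (f : Arr → Row → ENNReal)
    (hf : Measurable (Function.uncurry f))
    (hdep : ∀ (ω ω' : Arr) (r : Row), (∀ t < n, ω t = ω' t) → f ω r = f ω' r) :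
    ∫⁻ ω, f ω (ω n) ∂arrLaw α = ∫⁻ ω, ∫⁻ r, f ω r ∂rowLaw α ∂arrLaw α := by
  have := row_prob h0 h1
  have := arr_prob h0 h1
  have hm : (arrLaw α).map (fun ω => (trunc n ω, ω n)) =
      ((arrLaw α).map (trunc n)).prod (rowLaw α) := by
    rw [(indep_row h0 h1 n).map_prod_eq_prod_map_map (measurable_trunc n).aemeasurable
      (measurable_pi_apply n).aemeasurable]
    congr 1
    exact Measure.infinitePi_map_eval (fun _ : ℕ => rowLaw α) n
  have hmeas : Measurable (fun ω : Arr => (trunc n ω, ω n)) :=
    (measurable_trunc n).prodMk (measurable_pi_apply n)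
  have h2 : ∫⁻ ω, f ω (ω n) ∂arrLaw α = ∫⁻ ω, f (trunc n ω) (ω n) ∂arrLaw α :=
    lintegral_congr fun ω => hdep _ _ _ fun t ht => (trunc_agree n ω t ht).symm
  have h3 : ∫⁻ ω, f (trunc n ω) (ω n) ∂arrLaw α =
      ∫⁻ z, Function.uncurry f z ∂(arrLaw α).map (fun ω => (trunc n ω, ω n)) := by
    rw [lintegral_map hf hmeas]
    rfl
  have : SFinite ((arrLaw α).map (trunc n)) := by
    have : IsProbabilityMeasure ((arrLaw α).map (trunc n)) :=
      Measure.isProbabilityMeasure_map (measurable_trunc n).aemeasurable
    infer_instance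
  rw [h2, h3, hm, lintegral_prod _ hf.aemeasurable,
    lintegral_map hf.lintegral_prod_right' (measurable_trunc n)]
  refine lintegral_congr fun ω => lintegral_congr fun r => ?_
  exact hdep _ _ _ (trunc_agree n ω)

theorem measurable_eval_row {X : Type} [MeasurableSpace X] {r : X → Row} {k : X → ℤ}
    (hr : Measurable r) (hk : Measurable k) : Measurable fun x => r x (k x) := by
  have h : Measurable (fun z : Row × ℤ => z.1 z.2) :=
    measurable_from_prod_countable_left fun y => measurable_pi_apply y
  exact h.comp (hr.prodMk hk)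

theorem finite_rows {α : ℝ} (h0 : 0 ≤ α) (h1 : α < 1) (ι : Type) [Countable ι]
    (φ : ℕ → Arr → ι → ℤ) (hinj : ∀ t ω, Function.Injective (φ t ω))
    (hdep : ∀ t (ω ω' : Arr), (∀ s < t, ω s = ω' s) → φ t ω = φ t ω')
    (hmeas : ∀ t i, Measurable fun ω => φ t ω i) (A : ℕ → Set (ι → Nd))
    (hA : ∀ t, MeasurableSet (A t)) (n : ℕ) :
    arrLaw α {ω | ∀ k < n, (fun i => ω k (φ k ω i)) ∈ A k} =
      ∏ k ∈ Finset.range n, (Measure.infinitePi fun _ : ι => ndLaw α) (A k) := by
  have := nd_prob h0 h1
  have := row_prob h0 h1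
  have := arr_prob h0 h1
  have hG : ∀ k, Measurable (fun ω : Arr => (fun i => ω k (φ k ω i))) := by
    intro k
    rw [measurable_pi_iff]
    intro i
    exact measurable_eval_row (measurable_pi_apply k) (hmeas k i)
  induction n with
  | zero => simp
  | succ n ih =>
    set H : Set Arr := {ω | ∀ k < n, (fun i => ω k (φ k ω i)) ∈ A k} with hH
    have hHm : MeasurableSet H := by
      have : H = ⋂ k ∈ Finset.range n, (fun ω : Arr => (fun i => ω k (φ k ω i))) ⁻¹' A k := by
        ext ω
        simp [hH]
      rw [this]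
      exact Finset.measurableSet_biInter _ fun k _ => hG k (hA k)
    set f : Arr → Row → ENNReal := fun ω r =>
      H.indicator 1 ω * (A n).indicator 1 (fun i => r (φ n ω i)) with hf
    have hfm : Measurable (Function.uncurry f) := by
      have h2 : Measurable (fun z : Arr × Row => (fun i => z.2 (φ n z.1 i))) := by
        rw [measurable_pi_iff]
        intro i
        exact measurable_eval_row measurable_snd ((hmeas n i).comp measurable_fst)
      have h3 : Measurable (H.indicator (1 : Arr → ENNReal)) := measurable_one.indicator hHm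
      have h4 : Measurable ((A n).indicator (1 : (ι → Nd) → ENNReal)) :=
        measurable_one.indicator (hA n)
      exact (h3.comp measurable_fst).mul (h4.comp h2)
    have hfd : ∀ (ω ω' : Arr) (r : Row), (∀ t < n, ω t = ω' t) → f ω r = f ω' r := by
      intro ω ω' r h
      have h2 : φ n ω = φ n ω' := hdep n ω ω' h
      have h3 : ω ∈ H ↔ ω' ∈ H := by
        simp only [hH, mem_ofPred_eq]
        refine forall₂_congr fun k hk => ?_
        rw [h k hk, hdep k ω ω' fun s hs => h s (hs.trans hk)]
      simp only [hf]
      rw [h2]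
      congr 1
      by_cases h4 : ω ∈ H
      · rw [indicator_of_mem h4, indicator_of_mem (h3.1 h4)]
        rfl
      · rw [indicator_of_notMem h4, indicator_of_notMem (fun h5 => h4 (h3.2 h5))]
    have hset : {ω : Arr | ∀ k < n + 1, (fun i => ω k (φ k ω i)) ∈ A k} =
        H ∩ (fun ω : Arr => (fun i => ω n (φ n ω i))) ⁻¹' A n := by
      ext ω
      simp only [hH, mem_ofPred_eq, mem_inter_iff, mem_preimage]
      constructor
      · intro h
        exact ⟨fun k hk => h k (by omega), h n (by omega)⟩
      · rintro ⟨h2, h3⟩ k hk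
        rcases Nat.lt_succ_iff_lt_or_eq.1 hk with h | rfl
        · exact h2 k h
        · exact h3
    have hsm : MeasurableSet {ω : Arr | ∀ k < n + 1, (fun i => ω k (φ k ω i)) ∈ A k} := by
      rw [hset]
      exact hHm.inter (hG n (hA n))
    rw [Finset.prod_range_succ, ← ih, ← lintegral_indicator_one hsm]
    have h5 : ∀ ω : Arr, {ω : Arr | ∀ k < n + 1, (fun i => ω k (φ k ω i)) ∈ A k}.indicator
        (1 : Arr → ENNReal) ω = f ω (ω n) := by
      intro ω
      rw [hset]
      simp only [hf]
      by_cases h6 : ω ∈ H <;> by_cases h7 : (fun i => ω n (φ n ω i)) ∈ A n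
      · have h8 : ω ∈ H ∩ (fun ω : Arr => (fun i => ω n (φ n ω i))) ⁻¹' A n := ⟨h6, h7⟩
        rw [indicator_of_mem h8, indicator_of_mem h6, indicator_of_mem h7]
        simp
      · rw [indicator_of_notMem (fun h => h7 h.2), indicator_of_notMem h7, mul_zero]
      · rw [indicator_of_notMem (fun h => h6 h.1), indicator_of_notMem h6, zero_mul]
      · rw [indicator_of_notMem (fun h => h6 h.1), indicator_of_notMem h6, zero_mul]
    rw [lintegral_congr h5, split_row h0 h1 n f hfm hfd]
    have h6 : ∀ ω : Arr, ∫⁻ r, f ω r ∂rowLaw α =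
        H.indicator 1 ω * (Measure.infinitePi fun _ : ι => ndLaw α) (A n) := by
      intro ω
      have h7 : Measurable (fun r : Row => (fun i => r (φ n ω i))) := by
        rw [measurable_pi_iff]
        intro i
        exact measurable_pi_apply _
      have h8 : Measurable (fun r : Row => (A n).indicator (1 : (ι → Nd) → ENNReal)
          (fun i => r (φ n ω i))) := (measurable_one.indicator (hA n)).comp h7
      simp only [hf]
      rw [lintegral_const_mul _ h8]
      congr 1
      have h9 : (rowLaw α).map (fun r : Row => (fun i => r (φ n ω i))) =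
          Measure.infinitePi fun _ : ι => ndLaw α := by
        unfold rowLaw
        exact Measure.map_infinitePi_infinitePi_of_inj (P := fun _ : ℤ => ndLaw α) (hinj n ω)
      rw [← h9, Measure.map_apply h7 (hA n), ← lintegral_indicator_one (h7 (hA n))]
      rfl
    rw [lintegral_congr h6, lintegral_mul_const _ (measurable_one.indicator hHm),
      lintegral_indicator_one hHm]

end Adapted

open Adapted in
theorem adapted : AdaptedStmt := by
  classical
  intro α h0 h1 ι _ φ hinj hdep hmeas
  have := nd_prob h0 h1
  have := arr_prob h0 h1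
  have hG : Measurable (fun (ω : Arr) (t : ℕ) (i : ι) => ω t (φ t ω i)) := by
    rw [measurable_pi_iff]
    intro k
    rw [measurable_pi_iff]
    intro i
    exact measurable_eval_row (measurable_pi_apply k) (hmeas k i)
  refine Measure.eq_infinitePi (fun _ : ℕ => Measure.infinitePi fun _ : ι => ndLaw α)
    fun s A hA => ?_
  obtain ⟨n, hn⟩ := s.exists_nat_subset_range
  have h2 := finite_rows h0 h1 ι φ hinj hdep hmeas (fun k => if k ∈ s then A k else univ)
    (fun k => by
      split_ifs
      · exact hA k
      · exact MeasurableSet.univ) n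
  rw [Measure.map_apply hG (MeasurableSet.pi s.countable_toSet fun k _ => hA k)]
  have h3 : (fun (ω : Arr) (t : ℕ) (i : ι) => ω t (φ t ω i)) ⁻¹' (s : Set ℕ).pi A =
      {ω | ∀ k < n, (fun i => ω k (φ k ω i)) ∈ (fun k => if k ∈ s then A k else univ) k} := by
    ext ω
    simp only [mem_preimage, Set.mem_pi, mem_ofPred_eq, Finset.mem_coe]
    constructor
    · intro h k _
      split_ifs with hk
      · exact h k hk
      · exact mem_univ _
    · intro h k hk
      have := h k (Finset.mem_range.1 (hn hk))
      rw [if_pos hk] at this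
      exact this
  rw [h3, h2]
  have h4 : ∏ k ∈ s, (Measure.infinitePi fun _ : ι => ndLaw α) (A k) =
      ∏ k ∈ s, (Measure.infinitePi fun _ : ι => ndLaw α) (if k ∈ s then A k else univ) :=
    Finset.prod_congr rfl fun k hk => by rw [if_pos hk]
  rw [h4]
  symm
  refine Finset.prod_subset hn fun k _ hk => ?_
  rw [if_neg hk]
  exact measure_univ

end CausalPerc.Neg
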