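import Pool.Agent.Lib.MP_a51368_pr.Neg.Spec1

/-!
# Blocking, confinement and separation of closed dual paths by open walks
-/

open Set Relation

namespace CausalPerc.Neg

namespace BlockAux

variable {E : Strip} {n : ℕ} {R : Set (ℕ × ℤ)}

/-- Triangles on a closed dual path. -/
theorem dstep_inv {q r : Strip.Tri} (hs : E.DStep n R q r) (h1 : q.1 < n)
    (h2 : E.IsV q.1 q.2.1 q.2.2) : r.1 < n ∧ E.IsV r.1 r.2.1 r.2.2 := by
  obtain ⟨_, _, h3 | h3⟩ := hs
  · cases h3 with
    | side t x y ht hV hvo => exact ⟨ht, E.isV_nx hV⟩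
    | up t x y ht hV hy hho => exact ⟨ht, E.isV_B (t + 1) y⟩
  · cases h3 with
    | side t x y ht hV hvo => exact ⟨ht, hV⟩
    | up t x y ht hV hy hho => exact ⟨by simp only; omega, hV⟩

theorem dconn_inv {q r : Strip.Tri} (hs : E.DConn n R q r) (h1 : q.1 < n)
    (h2 : E.IsV q.1 q.2.1 q.2.2) : r.1 < n ∧ E.IsV r.1 r.2.1 r.2.2 := by
  induction hs with
  | refl => exact ⟨h1, h2⟩
  | tail _ hbc ih => exact dstep_inv hbc ih.1 ih.2

/-- A function with the first two parity properties is constant along closed dual paths. -/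
theorem const_along {φ : ℕ → ℤ → ℤ → ZMod 2} {x₀ y₀ : ℤ}
    (p1 : ∀ t x y, t < n → E.IsV t x y → ¬ E.vo t (E.nx t (x, y)).1 (E.nx t (x, y)).2 →
        φ t x y = φ t (E.nx t (x, y)).1 (E.nx t (x, y)).2)
    (p2 : ∀ t x y, E.IsV t x y → y < E.S t (x + 1) → (t + 1 < n → ¬ E.ho (t + 1) y) →
        φ t x y = φ (t + 1) y (E.S (t + 1) (y + 1)) + ind (0, x₀) (t + 1) y +
          ind (n, y₀) (t + 1) y)
    {q r : Strip.Tri} (hs : E.DConn n R q r) : φ q.1 q.2.1 q.2.2 = φ r.1 r.2.1 r.2.2 := by
  induction hs with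
  | refl => rfl
  | tail _ hbc ih =>
    rw [ih]
    obtain ⟨_, _, h3 | h3⟩ := hbc
    · cases h3 with
      | side t x y ht hV hvo => exact p1 t x y ht hV hvo
      | up t x y ht hV hy hho =>
        have h4 := p2 t x y hV hy (fun _ => hho)
        have h5 : ind (0, x₀) (t + 1) y = 0 := by simp [ind]
        have h6 : ind (n, y₀) (t + 1) y = 0 := by
          have : ¬ n = t + 1 := by omega
          simp [ind, this]
        rw [h5, h6, add_zero, add_zero] at h4
        exact h4
    · cases h3 with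
      | side t x y ht hV hvo => exact (p1 t x y ht hV hvo).symm
      | up t x y ht hV hy hho =>
        have h4 := p2 t x y hV hy (fun _ => hho)
        have h5 : ind (0, x₀) (t + 1) y = 0 := by simp [ind]
        have h6 : ind (n, y₀) (t + 1) y = 0 := by
          have : ¬ n = t + 1 := by omega
          simp [ind, this]
        rw [h5, h6, add_zero, add_zero] at h4
        exact h4.symm

theorem conn_right {t : ℕ} (ht : t < n) (a : ℤ) (k : ℕ)
    (h : ∀ i, a ≤ i → i < a + k → E.ho t i) : E.Conn n univ (t, a) (t, a + k) := by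
  induction k with
  | zero => simp only [Nat.cast_zero, add_zero]; exact .refl
  | succ k ih =>
    refine (ih fun i h1 h2 => h i h1 (by push_cast; omega)).tail ?_
    refine ⟨mem_univ _, mem_univ _, Or.inr (Or.inr (Or.inl ?_))⟩
    push_cast
    rw [← add_assoc]
    exact .mk t (a + k) ht (h _ (by omega) (by push_cast; omega))

theorem conn_H {t : ℕ} (ht : t < n) {A : Set ℤ} {x : ℤ} (hx : x ∈ E.H t A) :
    ∃ a ∈ A, E.Conn n univ (t, a) (t, x) := by
  obtain ⟨a, ha, h1, h2⟩ := hx
  refine ⟨a, ha, ?_⟩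
  rcases le_total a x with h | h
  · obtain ⟨k, rfl⟩ := Int.le.dest h
    exact conn_right ht a k h1
  · obtain ⟨k, rfl⟩ := Int.le.dest h
    exact (conn_right ht x k h2).symm

theorem conn_vert {t : ℕ} (ht : t < n) {x y : ℤ} (hV : E.IsV t x y) (hvo : E.vo t x y) :
    E.Conn n univ (t, x) (t + 1, y) :=
  ReflTransGen.single ⟨mem_univ _, mem_univ _, Or.inl (.mk t x y ht hV hvo)⟩

theorem conn_ES (A : Set ℤ) (n : ℕ) : ∀ z ∈ E.ES A n, ∃ a ∈ A, E.Conn n univ (0, a) (n, z) := by
  induction n with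
  | zero => exact fun z hz => ⟨z, hz, .refl⟩
  | succ n ih =>
    intro z hz
    obtain ⟨x, hx, hV, hvo⟩ := hz
    have h1 : E.Conn (n + 1) univ (n, x) (n + 1, z) := conn_vert (Nat.lt_succ_self n) hV hvo
    have key : ∀ w ∈ E.H n (E.ES A n), ∃ a ∈ A, E.Conn (n + 1) univ (0, a) (n, w) := by
      intro w hw
      obtain ⟨b, hb, h2⟩ := conn_H (Nat.lt_succ_self n) hw
      obtain ⟨a, ha, h3⟩ := ih b hb
      exact ⟨a, ha, (h3.mono (Nat.le_succ n) (subset_refl _)).trans h2⟩
    rcases hx with hx | hx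
    · obtain ⟨a, ha, h2⟩ := key x hx
      exact ⟨a, ha, h2.trans h1⟩
    · obtain ⟨y', hy', hV', hvo'⟩ := hx
      obtain ⟨x'', hx'', hV'', hvo''⟩ := hy'
      obtain ⟨a, ha, h2⟩ := key x'' hx''
      exact ⟨a, ha, ((h2.trans (conn_vert (Nat.lt_succ_self n) hV'' hvo'')).trans
        (conn_vert (Nat.lt_succ_self n) hV' hvo').symm).trans h1⟩

end BlockAux

open BlockAux

theorem block (hP : ParityStmt) : BlockStmt := by
  intro E n a b e q hC hd hq hho
  obtain ⟨x, y, _, hax, hxb, hw⟩ := hC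
  obtain ⟨φ, p1, p2, p3, p4, p5, p6⟩ := hP E n (E.col a b) (0, x) (n, y) hw (Nat.zero_le n)
  have hn : 0 < n := by omega
  have hinv := dconn_inv hd hn (E.isV_B 0 e)
  have hc := const_along p1 p2 hd
  simp only at hc
  rw [p3 e (fun _ => hho)] at hc
  have h6 : ind (n, y) 0 e = 0 := by
    have : ¬ n = 0 := by omega
    simp [ind, this]
  rw [h6, add_zero] at hc
  constructor
  · intro hea
    have h5 : ind (0, x) 0 e = 0 := by
      have : ¬ x ≤ e := by omega
      simp [ind, this]
    rw [h5] at hc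
    have htot : tot (0, x) (n, y) q.1 = 1 := by
      have : ¬ n ≤ q.1 := by omega
      simp [tot, this]
    obtain ⟨x', y', h1, _, _, h3, _⟩ := p6 q.1 q.2.1 q.2.2 hinv.1 hinv.2 (by
      rw [← hc, htot]; decide)
    exact lt_of_le_of_lt h3 h1.2
  · intro hbe
    have h5 : ind (0, x) 0 e = 1 := by
      have : x ≤ e := by omega
      simp [ind, this]
    rw [h5] at hc
    obtain ⟨x', y', h1, _, _, h3, _⟩ := p5 q.1 q.2.1 q.2.2 (by rw [← hc]; decide)
    exact le_trans h1.1 h3

theorem confine (hP : ParityStmt) : ConfineStmt := by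
  intro E n a' a b c e hae heb hC1 hC2 hD
  obtain ⟨hho, _, t, x', y', htn, hV, hy', hd⟩ := hD
  have hn : 0 < n := by omega
  have hmem : ∀ q : Strip.Tri, E.DConn n univ (0, e, E.S 0 (e + 1)) q →
      (q.1, q.2.1) ∈ E.col a' c := by
    intro q hq
    have hq1 := (dconn_inv hq hn (E.isV_B 0 e)).1
    exact ⟨(block hP E n a' a e q hC1 hq hq1 hho).2 hae,
      (block hP E n b c e q hC2 hq hq1 hho).1 heb⟩
  have hpath : ∀ q : Strip.Tri, E.DConn n univ (0, e, E.S 0 (e + 1)) q →
      E.DConn n (E.col a' c) (0, e, E.S 0 (e + 1)) q := by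
    intro q hq
    induction hq with
    | refl => exact .refl
    | tail hab hbc ih =>
      exact ih.tail ⟨hmem _ hab, hmem _ (hab.tail hbc), hbc.2.2⟩
  exact ⟨hho, hmem _ .refl, t, x', y', htn, hV, hy', hpath _ hd⟩

theorem separate (hP : ParityStmt) : SeparateStmt := by
  intro E n e hD
  obtain ⟨hho, _, t, x', y', htn, hV, hy', hd⟩ := hD
  have hn : 0 < n := by omega
  have key : ∀ a z : ℤ, E.Conn n univ (0, a) (n, z) → ind (0, a) 0 e = ind (n, z) n y' := by
    intro a z hw
    obtain ⟨φ, p1, p2, p3, p4, p5, p6⟩ := hP E n univ (0, a) (n, z) hw (Nat.zero_le n)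
    have hc := const_along p1 p2 hd
    simp only at hc
    rw [p3 e (fun _ => hho), p2 t x' y' hV hy' (fun h => by omega), p4 (t + 1) _ _ (by omega),
      htn] at hc
    have h6 : ind (n, z) 0 e = 0 := by
      have : ¬ n = 0 := by omega
      simp [ind, this]
    have h7 : ind (0, a) n y' = 0 := by
      have : ¬ 0 = n := by omega
      simp [ind, this]
    rw [h6, h7, add_zero, add_zero, zero_add] at hc
    exact hc
  refine ⟨y', ?_, ?_⟩
  · intro z hz
    obtain ⟨a, ha, hw⟩ := conn_ES (Iic e) n z hz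
    have h1 := key a z hw
    have h2 : a ≤ e := ha
    simp only [ind, true_and, h2, if_true] at h1
    by_contra hcon
    simp only [hcon, if_false] at h1
    exact absurd h1 (by decide)
  · intro z hz
    obtain ⟨a, ha, hw⟩ := conn_ES (Ioi e) n z hz
    have h1 := key a z hw
    have h2 : ¬ a ≤ e := not_le.mpr ha
    simp only [ind, true_and, h2, if_false] at h1
    by_contra hcon
    have h3 : z ≤ y' := not_lt.mp hcon
    simp only [h3, if_true] at h1
    exact absurd h1 (by decide)

end CausalPerc.Neg
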