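import Pool.Agent.Lib.MP_a51368_pr.Neg.Spec1

/-!
# Crossings of overlapping slabs are connected
-/

open Set Relation

namespace CausalPerc.Neg

open Strip

/-- CHAIN. -/
theorem chain (hdual : DualityStmt) : ChainStmt := by
  intro E h I a b x y hh hcr hno
  -- consecutive slabs
  have key : ∀ i, i + 1 ≤ I → E.Conn ((I + 2) * h) (E.col a b) (i * h, x i)
      ((i + 1) * h, x (i + 1)) := by
    intro i hi
    obtain ⟨ha1, hb1, hc1⟩ := hcr i (by omega)
    obtain ⟨ha2, hb2, hc2⟩ := hcr (i + 1) hi
    have hlev : i * h + h = (i + 1) * h := by ring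
    obtain ⟨x', y', hw1, -, hx1, hx2, hw2⟩ := Conn.subslab (s := h) (m := h) hc1
      (Nat.zero_le _) (by show h + h ≤ 2 * h; omega) ⟨ha1, hb1⟩
    rw [shift_shift, D_shift, D_shift, hlev] at hw2
    rw [D_shift, hlev] at hx1 hx2
    obtain ⟨y'', hw3, -⟩ := hc2.first_hit (s := h) (Nat.zero_le _) (by show h ≤ 2 * h; omega)
    -- connection at level `(i+1) h`
    have hconn : (E.shift ((i + 1) * h)).Conn h ((E.shift ((i + 1) * h)).col (E.D ((i + 1) * h) a)
        (E.D ((i + 1) * h) b)) (0, x') (0, x (i + 1)) := by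
      rcases lt_trichotomy x' (x (i + 1)) with hlt | heq | hgt
      · by_contra hcon
        obtain ⟨z, -, -, hz⟩ := hdual (E.shift ((i + 1) * h)) h
          (fun t => (E.shift ((i + 1) * h)).D t (E.D ((i + 1) * h) a))
          (fun t => (E.shift ((i + 1) * h)).D t (E.D ((i + 1) * h) b)) x' y' (x (i + 1)) y'' hh hlt
          hx1 hb2 hw2 hw3 hcon
        exact hno (i + 1) (by omega) hi z hz
      · rw [heq]
        exact .refl
      · by_contra hcon
        obtain ⟨z, -, -, hz⟩ := hdual (E.shift ((i + 1) * h)) h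
          (fun t => (E.shift ((i + 1) * h)).D t (E.D ((i + 1) * h) a))
          (fun t => (E.shift ((i + 1) * h)).D t (E.D ((i + 1) * h) b)) (x (i + 1)) y'' x' y' hh hgt
          ha2 hx2 hw3 hw2 (fun h' => hcon h'.symm)
        exact hno (i + 1) (by omega) hi z hz
    have hcol : ∀ s : ℕ, ∀ v ∈ (E.shift s).col (E.D s a) (E.D s b), (s + v.1, v.2) ∈ E.col a b :=
      fun s v hv => (E.mem_col_shift (x := v.2)).1 hv
    have h1 := Conn.of_shift (R := E.col a b) (hcol (i * h)) hw1
    have h2 := Conn.of_shift (R := E.col a b) (hcol ((i + 1) * h)) hconn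
    have hle1 : i * h + 2 * h ≤ (I + 2) * h := by
      rw [← add_mul]
      exact Nat.mul_le_mul_right h (by omega)
    have hle2 : (i + 1) * h + h ≤ (I + 2) * h := by
      have : (i + 1) * h + h = (i + 1 + 1) * h := by ring
      rw [this]
      exact Nat.mul_le_mul_right h (by omega)
    have h3 := h1.mono hle1 subset_rfl
    have h4 := h2.mono hle2 subset_rfl
    simp only [add_zero, hlev] at h3 h4
    exact h3.trans h4
  -- all slabs
  have key2 : ∀ j, j ≤ I → E.Conn ((I + 2) * h) (E.col a b) (0 * h, x 0) (j * h, x j) := by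
    intro j
    induction j with
    | zero => intro _; exact .refl
    | succ j ih =>
      intro hj
      exact (ih (by omega)).trans (key j hj)
  intro i hi j hj
  exact (key2 i hi).symm.trans (key2 j hj)

end CausalPerc.Neg
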