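import Pool.Agent.Lib.MP_a51368_pr.Neg.Spec1

/-!
# Module N7: events of a column depend only on the nodes of this column
-/

open MeasureTheory Set Relation

namespace CausalPerc.Neg

/-- Two strips agree on the part of the region `R` at levels `< n`. -/
structure Agr (n : ℕ) (R : Set (ℕ × ℤ)) (E E' : Strip) : Prop where
  S0 : ∀ t x, t < n → (t, x) ∈ R → E.S t x = E'.S t x
  S1 : ∀ t x, t < n → (t, x) ∈ R → E.S t (x + 1) = E'.S t (x + 1)
  vo : ∀ t x y, t < n → (t, x) ∈ R → (E.vo t x y ↔ E'.vo t x y)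
  ho : ∀ t x, t < n → (t, x) ∈ R → (E.ho t x ↔ E'.ho t x)

namespace Agr

variable {n : ℕ} {R R' : Set (ℕ × ℤ)} {E E' : Strip}

theorem isV (h : Agr n R E E') {t : ℕ} {x y : ℤ} (ht : t < n) (hx : (t, x) ∈ R) :
    E.IsV t x y ↔ E'.IsV t x y := by
  unfold Strip.IsV
  rw [h.S0 t x ht hx, h.S1 t x ht hx]

theorem up1 (h : Agr n R E E') {u v : ℕ × ℤ} (hu : u ∈ R) (hs : E.Up1 n u v) : E'.Up1 n u v := by
  cases hs with
  | mk t x y h1 h2 h3 => exact .mk t x y h1 ((h.isV h1 hu).1 h2) ((h.vo t x y h1 hu).1 h3)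

theorem hor1 (h : Agr n R E E') {u v : ℕ × ℤ} (hu : u ∈ R) (hs : E.Hor1 n u v) :
    E'.Hor1 n u v := by
  cases hs with
  | mk t x h1 h2 => exact .mk t x h1 ((h.ho t x h1 hu).1 h2)

theorem step (h : Agr n R E E') (hR : ∀ v ∈ R, v.1 ≤ n → v ∈ R') {u v : ℕ × ℤ}
    (hs : E.Step n R u v) : E'.Step n R' u v := by
  have hl := hs.levels
  obtain ⟨h1, h2, h3⟩ := hs
  refine ⟨hR _ h1 hl.1, hR _ h2 hl.2.1, ?_⟩
  rcases h3 with h3 | h3 | h3 | h3
  · exact Or.inl (h.up1 h1 h3)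
  · exact Or.inr (Or.inl (h.up1 h2 h3))
  · exact Or.inr (Or.inr (Or.inl (h.hor1 h1 h3)))
  · exact Or.inr (Or.inr (Or.inr (h.hor1 h2 h3)))

theorem ostep (h : Agr n R E E') (hR : ∀ v ∈ R, v.1 ≤ n → v ∈ R') {u v : ℕ × ℤ}
    (hs : E.OStep n R u v) : E'.OStep n R' u v := by
  have hl := hs.step.levels
  obtain ⟨h1, h2, h3⟩ := hs
  refine ⟨hR _ h1 hl.1, hR _ h2 hl.2.1, ?_⟩
  rcases h3 with h3 | h3 | h3
  · exact Or.inl (h.up1 h1 h3)
  · exact Or.inr (Or.inl (h.hor1 h1 h3))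
  · exact Or.inr (Or.inr (h.hor1 h2 h3))

theorem conn (h : Agr n R E E') (hR : ∀ v ∈ R, v.1 ≤ n → v ∈ R') {u v : ℕ × ℤ}
    (hs : E.Conn n R u v) : E'.Conn n R' u v :=
  ReflTransGen.mono (fun _ _ hab => h.step hR hab) u v hs

theorem oconn (h : Agr n R E E') (hR : ∀ v ∈ R, v.1 ≤ n → v ∈ R') {u v : ℕ × ℤ}
    (hs : E.OConn n R u v) : E'.OConn n R' u v :=
  ReflTransGen.mono (fun _ _ hab => h.ostep hR hab) u v hs

theorem nx (h : Agr n R E E') {t : ℕ} {x y : ℤ} (ht : t < n) (hx : (t, x) ∈ R) :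
    E.nx t (x, y) = E'.nx t (x, y) := by
  unfold Strip.nx
  simp only
  rw [h.S1 t x ht hx]

theorem dstep1 (h : Agr n R E E') {q r : Strip.Tri} (hq : (q.1, q.2.1) ∈ R)
    (hr : (r.1, r.2.1) ∈ R) (hs : E.DStep1 n q r) :
    E'.DStep1 n q r ∧ q.1 ≤ n ∧ r.1 ≤ n := by
  cases hs with
  | side t x y h1 h2 h3 =>
    simp only at hq hr
    refine ⟨?_, h1.le, h1.le⟩
    rw [h.nx h1 hq] at h3 hr ⊢
    exact .side t x y h1 ((h.isV h1 hq).1 h2) (fun h4 => h3 ((h.vo t _ _ h1 hr).2 h4))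
  | up t x y h1 h2 h3 h4 =>
    simp only at hq hr
    refine ⟨?_, by simp only; omega, h1.le⟩
    rw [h.S1 (t + 1) y h1 hr]
    exact .up t x y h1 ((h.isV (by omega) hq).1 h2) (by rw [← h.S1 t x (by omega) hq]; exact h3)
      (fun h5 => h4 ((h.ho (t + 1) y h1 hr).2 h5))

theorem dstep (h : Agr n R E E') (hR : ∀ v ∈ R, v.1 ≤ n → v ∈ R') {q r : Strip.Tri}
    (hs : E.DStep n R q r) : E'.DStep n R' q r := by
  obtain ⟨h1, h2, h3⟩ := hs
  rcases h3 with h3 | h3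
  · obtain ⟨h4, h5, h6⟩ := h.dstep1 h1 h2 h3
    exact ⟨hR _ h1 h5, hR _ h2 h6, Or.inl h4⟩
  · obtain ⟨h4, h5, h6⟩ := h.dstep1 h2 h1 h3
    exact ⟨hR _ h1 h6, hR _ h2 h5, Or.inr h4⟩

theorem dconn (h : Agr n R E E') (hR : ∀ v ∈ R, v.1 ≤ n → v ∈ R') {q r : Strip.Tri}
    (hs : E.DConn n R q r) : E'.DConn n R' q r :=
  ReflTransGen.mono (fun _ _ hab => h.dstep hR hab) q r hs

theorem dup (h : Agr n R E E') (hR : ∀ v ∈ R, v.1 ≤ n → v ∈ R') {e : ℤ}
    (hs : E.DUp R n e) : E'.DUp R' n e := by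
  obtain ⟨h1, h2, t, x, y, h3, h4, h5, h6⟩ := hs
  have hn : 0 < n := by omega
  have htn : t < n := by omega
  have hx : (t, x) ∈ R := by
    rcases ReflTransGen.cases_tail h6 with h7 | ⟨c, _, h7⟩
    · have h8 : (t, x, y) = (0, e, E.S 0 (e + 1)) := h7
      simp only [Prod.mk.injEq] at h8
      rw [h8.1, h8.2.1]
      exact h2
    · exact h7.2.1
  refine ⟨fun h7 => h1 ((h.ho 0 e hn h2).2 h7), hR _ h2 (Nat.zero_le n), t, x, y, h3,
    (h.isV htn hx).1 h4, by rw [← h.S1 t x htn hx]; exact h5, ?_⟩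
  rw [← h.S1 0 e hn h2]
  exact h.dconn hR h6

end Agr

/-! ### Partial sums -/

theorem ps_congr {f g : ℤ → ℕ} {x : ℤ} (hx : 0 ≤ x) (h : ∀ i, 0 ≤ i → i < x → f i = g i) :
    ps f x = ps g x := by
  unfold ps
  have h2 : Finset.Ico x 0 = ∅ := Finset.Ico_eq_empty (by omega)
  rw [h2]
  simp only [Finset.sum_empty, sub_zero]
  apply Finset.sum_congr rfl
  intro i hi
  rw [Finset.mem_Ico] at hi
  rw [h i hi.1 hi.2]

theorem DD_zero (ω : Arr) (t : ℕ) : DD ω t 0 = 0 := by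
  induction t with
  | zero => rfl
  | succ t ih =>
    show ps (xi ω t) (DD ω t 0) = 0
    rw [ih, ps_zero]

theorem DD_mono (ω : Arr) (t : ℕ) {a b : ℤ} (h : a ≤ b) : DD ω t a ≤ DD ω t b := by
  rw [← strip_D 0 ω t a, ← strip_D 0 ω t b]
  exact (strip 0 ω).D_mono t h

section Col

variable {n : ℕ} {b : ℤ} {ω ω' : Arr}

/-- Agreement on the column. -/
def AgrC (b : ℤ) (n : ℕ) (ω ω' : Arr) : Prop :=
  ∀ t < n, ∀ x, 0 ≤ x → x < DD ω t b → ω t x = ω' t x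

theorem AgrC.S (h : AgrC b n ω ω') {t : ℕ} (ht : t < n) {x : ℤ} (h0 : 0 ≤ x)
    (h1 : x ≤ DD ω t b) : ps (xi ω t) x = ps (xi ω' t) x := by
  apply ps_congr h0
  intro i hi hix
  unfold xi
  rw [h t ht i hi (by omega)]

theorem AgrC.D (h : AgrC b n ω ω') {t : ℕ} (ht : t ≤ n) {a : ℤ} (h0 : 0 ≤ a) (h1 : a ≤ b) :
    DD ω t a = DD ω' t a := by
  induction t with
  | zero => rfl
  | succ t ih =>
    show ps (xi ω t) (DD ω t a) = ps (xi ω' t) (DD ω' t a)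
    rw [← ih (by omega)]
    refine h.S (by omega) ?_ (DD_mono ω t h1)
    rw [← DD_zero ω t]
    exact DD_mono ω t h0

theorem AgrC.agr (h : AgrC b n ω ω') (p : ℝ) {a c : ℤ} (ha : 0 ≤ a) (hc : c ≤ b) :
    Agr n ((strip p ω).col a c) (strip p ω) (strip p ω') := by
  have key : ∀ t x, (t, x) ∈ (strip p ω).col a c → 0 ≤ x ∧ x < DD ω t b := by
    intro t x hx
    rw [Strip.mem_col, strip_D, strip_D] at hx
    obtain ⟨h1, h2⟩ := hx
    simp only at h1 h2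
    have h3 : 0 ≤ DD ω t a := by
      rw [← DD_zero ω t]
      exact DD_mono ω t ha
    have h4 := DD_mono ω t hc
    exact ⟨by omega, by omega⟩
  refine ⟨?_, ?_, ?_, ?_⟩
  · intro t x ht hx
    obtain ⟨h1, h2⟩ := key t x hx
    exact h.S ht h1 h2.le
  · intro t x ht hx
    obtain ⟨h1, h2⟩ := key t x hx
    exact h.S ht (by omega) (by omega)
  · intro t x y ht hx
    obtain ⟨h1, h2⟩ := key t x hx
    have h3 := h.S ht h1 h2.le
    show (((ω t x).2 ((y - ps (xi ω t) x).toNat + 1) : unitInterval) : ℝ) ≤ p ↔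
      (((ω' t x).2 ((y - ps (xi ω' t) x).toNat + 1) : unitInterval) : ℝ) ≤ p
    rw [h3, h t ht x h1 h2]
  · intro t x ht hx
    obtain ⟨h1, h2⟩ := key t x hx
    show (((ω t x).2 0 : unitInterval) : ℝ) ≤ p ↔ (((ω' t x).2 0 : unitInterval) : ℝ) ≤ p
    rw [h t ht x h1 h2]

theorem AgrC.col (h : AgrC b n ω ω') (p : ℝ) {a c : ℤ} (ha : 0 ≤ a) (hab : a ≤ b) (hc0 : 0 ≤ c)
    (hc : c ≤ b) : ∀ v ∈ (strip p ω).col a c, v.1 ≤ n → v ∈ (strip p ω').col a c := by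
  intro v hv hn
  rw [Strip.mem_col, strip_D, strip_D] at hv ⊢
  rw [← h.D hn ha hab, ← h.D hn hc0 hc]
  exact hv

end Col

section Row

variable {n : ℕ} {ω ω' : Arr}

theorem row_agr (h : ∀ t < n, ω t = ω' t) (p : ℝ) :
    Agr n univ (strip p ω) (strip p ω') := by
  have hS : ∀ t x, t < n → ps (xi ω t) x = ps (xi ω' t) x := by
    intro t x ht
    unfold xi
    rw [h t ht]
  refine ⟨fun t x ht _ => hS t x ht, fun t x ht _ => hS t (x + 1) ht, ?_, ?_⟩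
  · intro t x y ht _
    show (((ω t x).2 ((y - ps (xi ω t) x).toNat + 1) : unitInterval) : ℝ) ≤ p ↔
      (((ω' t x).2 ((y - ps (xi ω' t) x).toNat + 1) : unitInterval) : ℝ) ≤ p
    rw [hS t x ht, h t ht]
  · intro t x ht _
    show (((ω t x).2 0 : unitInterval) : ℝ) ≤ p ↔ (((ω' t x).2 0 : unitInterval) : ℝ) ≤ p
    rw [h t ht]

variable {E E' : Strip}

theorem Agr.V_eq (h : Agr n univ E E') {t : ℕ} (ht : t < n) (A : Set ℤ) : E.V t A = E'.V t A := by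
  ext y
  unfold Strip.V
  simp only [mem_ofPred_eq]
  constructor
  · rintro ⟨x, h1, h2, h3⟩
    exact ⟨x, h1, (h.isV ht (mem_univ _)).1 h2, (h.vo t x y ht (mem_univ _)).1 h3⟩
  · rintro ⟨x, h1, h2, h3⟩
    exact ⟨x, h1, (h.isV ht (mem_univ _)).2 h2, (h.vo t x y ht (mem_univ _)).2 h3⟩

theorem Agr.W_eq (h : Agr n univ E E') {t : ℕ} (ht : t < n) (A : Set ℤ) : E.W t A = E'.W t A := by
  ext x
  unfold Strip.W
  simp only [mem_ofPred_eq]
  constructor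
  · rintro ⟨y, h1, h2, h3⟩
    exact ⟨y, h1, (h.isV ht (mem_univ _)).1 h2, (h.vo t x y ht (mem_univ _)).1 h3⟩
  · rintro ⟨y, h1, h2, h3⟩
    exact ⟨y, h1, (h.isV ht (mem_univ _)).2 h2, (h.vo t x y ht (mem_univ _)).2 h3⟩

theorem Agr.H_eq (h : Agr n univ E E') {t : ℕ} (ht : t < n) (A : Set ℤ) : E.H t A = E'.H t A := by
  ext x
  unfold Strip.H
  simp only [mem_ofPred_eq]
  constructor
  · rintro ⟨a, h1, h2, h3⟩
    exact ⟨a, h1, fun i g1 g2 => (h.ho t i ht (mem_univ _)).1 (h2 i g1 g2),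
      fun i g1 g2 => (h.ho t i ht (mem_univ _)).1 (h3 i g1 g2)⟩
  · rintro ⟨a, h1, h2, h3⟩
    exact ⟨a, h1, fun i g1 g2 => (h.ho t i ht (mem_univ _)).2 (h2 i g1 g2),
      fun i g1 g2 => (h.ho t i ht (mem_univ _)).2 (h3 i g1 g2)⟩

theorem Agr.OS_eq (h : Agr n univ E E') (A : Set ℤ) {m : ℕ} (hm : m ≤ n) :
    E.OS A m = E'.OS A m := by
  induction m with
  | zero => rfl
  | succ m ih =>
    show E.V m (E.H m (E.OS A m)) = E'.V m (E'.H m (E'.OS A m))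
    rw [ih (by omega), h.H_eq (by omega), h.V_eq (by omega)]

theorem Agr.ES_eq (h : Agr n univ E E') (A : Set ℤ) {m : ℕ} (hm : m ≤ n) :
    E.ES A m = E'.ES A m := by
  induction m with
  | zero => rfl
  | succ m ih =>
    show E.V m (E.H m (E.ES A m) ∪ E.W m (E.V m (E.H m (E.ES A m)))) =
      E'.V m (E'.H m (E'.ES A m) ∪ E'.W m (E'.V m (E'.H m (E'.ES A m))))
    rw [ih (by omega), h.H_eq (by omega), h.V_eq (by omega), h.W_eq (by omega),
      h.V_eq (by omega)]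

end Row

theorem colDep : ColDepStmt := by
  intro p n b hb
  have hcross : ∀ a c : ℤ, 0 ≤ a → c ≤ b → ∀ A,
      ColDep b n {ω | (strip p ω).CrossFrom A a c n} := by
    intro a c ha hc A ω ω' hag hω
    have hag' : AgrC b n ω ω' := hag
    obtain ⟨x, y, h1, h2, h3, h4⟩ := hω
    refine ⟨x, y, h1, h2, h3, ?_⟩
    exact (hag'.agr p ha hc).conn (hag'.col p ha (by omega) (by omega) hc) h4
  refine ⟨?_, hcross 0 b le_rfl le_rfl, ?_, ?_, hcross, ?_, ?_, ?_, ?_, ?_, ?_⟩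
  · intro u v ω ω' hag hω
    have hag' : AgrC b n ω ω' := hag
    exact (hag'.agr p le_rfl le_rfl).conn (hag'.col p le_rfl hb hb le_rfl) hω
  · intro ω ω' hag hω
    have hag' : AgrC b n ω ω' := hag
    obtain ⟨x, y, h1, h2, h3⟩ := hω
    exact ⟨x, y, h1, h2, (hag'.agr p le_rfl le_rfl).oconn (hag'.col p le_rfl hb hb le_rfl) h3⟩
  · intro e ω ω' hag hω
    have hag' : AgrC b n ω ω' := hag
    exact (hag'.agr p le_rfl le_rfl).dup (hag'.col p le_rfl hb hb le_rfl) hω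
  · intro z ω ω' hag hω
    have hag' : AgrC b n ω ω' := hag
    have h1 : DD ω n b = z := hω
    show DD ω' n b = z
    rw [← hag'.D le_rfl hb le_rfl]
    exact h1
  · intro u v ω ω' hag hω
    exact (row_agr hag p).conn (fun _ _ _ => mem_univ _) hω
  · intro u v ω ω' hag hω
    exact (row_agr hag p).oconn (fun _ _ _ => mem_univ _) hω
  · intro e ω ω' hag hω
    exact (row_agr hag p).dup (fun _ _ _ => mem_univ _) hω
  · intro A z ω ω' hag hω
    show z ∈ (strip p ω').OS A n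
    rw [← (row_agr hag p).OS_eq A le_rfl]
    exact hω
  · intro A z ω ω' hag hω
    show z ∈ (strip p ω').ES A n
    rw [← (row_agr hag p).ES_eq A le_rfl]
    exact hω

end CausalPerc.Neg
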