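import Pool.Agent.Lib.MP_a51368_pr.Neg.R1

/-!
# Continuity in `p` from the left
-/

open MeasureTheory Set Relation Filter Topology

noncomputable section

namespace CausalPerc.Neg

namespace Cont

open Strip

variable {α : ℝ}

/-! ### One label -/

theorem label_mp (h0 : 0 ≤ α) (h1 : α < 1) (t : ℕ) (x : ℤ) (j : ℕ) :
    MeasurePreserving (fun ω : Arr => (ω t x).2 j) (arrLaw α) (volume : Measure unitInterval) := by
  have hg := geo_prob h0 h1
  have hn := Adapted.nd_prob h0 h1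
  have hr := Adapted.row_prob h0 h1
  have a1 : MeasurePreserving (Function.eval t : Arr → Row) (arrLaw α) (rowLaw α) :=
    measurePreserving_eval_infinitePi _ t
  have a2 : MeasurePreserving (Function.eval x : Row → Nd) (rowLaw α) (ndLaw α) :=
    measurePreserving_eval_infinitePi _ x
  have a3 : MeasurePreserving (Prod.snd : Nd → (ℕ → unitInterval)) (ndLaw α)
      (Measure.infinitePi fun _ : ℕ => (volume : Measure unitInterval)) :=
    measurePreserving_snd
  have a4 : MeasurePreserving (Function.eval j : (ℕ → unitInterval) → unitInterval)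
      (Measure.infinitePi fun _ : ℕ => (volume : Measure unitInterval)) volume :=
    measurePreserving_eval_infinitePi _ j
  exact a4.comp (a3.comp (a2.comp a1))

theorem ae_label (h0 : 0 ≤ α) (h1 : α < 1) (p : ℝ) :
    ∀ᵐ ω ∂arrLaw α, ∀ (t : ℕ) (x : ℤ) (j : ℕ), (((ω t x).2 j : unitInterval) : ℝ) ≠ p := by
  have hu : ∀ᵐ u : unitInterval, (u : ℝ) ≠ p := by
    have hs : ({u : unitInterval | (u : ℝ) = p}).Subsingleton := by
      intro u hu v hv
      exact Subtype.ext (hu.trans hv.symm)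
    rw [ae_iff]
    simpa using hs.measure_zero volume
  rw [ae_all_iff]
  intro t
  rw [ae_all_iff]
  intro x
  rw [ae_all_iff]
  intro j
  exact (label_mp h0 h1 t x j).quasiMeasurePreserving.ae hu

/-! ### Columns of width one are crossed with positive probability -/

theorem det_cross {p : ℝ} {ω : Arr} {n : ℕ}
    (h : ∀ t < n, 1 ≤ (ω t 0).1 ∧ (((ω t 0).2 1 : unitInterval) : ℝ) ≤ p) :
    (strip p ω).Cross 0 1 n := by
  have hD : ∀ m, m ≤ n → 1 ≤ DD ω m 1 := by
    intro m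
    induction m with
    | zero => intro _; exact le_refl (1 : ℤ)
    | succ m ih =>
      intro hm
      have h1 := ih (by omega)
      have h2 := (h m (by omega)).1
      have h3 : ps (xi ω m) 1 ≤ ps (xi ω m) (DD ω m 1) := (strip p ω).S_mono m h1
      have h4 : ps (xi ω m) 1 = xi ω m 0 := by
        have := ps_succ (xi ω m) 0
        rw [ps_zero, zero_add, zero_add] at this
        exact this
      show 1 ≤ ps (xi ω m) (DD ω m 1)
      have h5 : (1 : ℤ) ≤ xi ω m 0 := by
        unfold xi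
        exact_mod_cast h2
      omega
  have hmem : ∀ m, m ≤ n → (m, (0 : ℤ)) ∈ (strip p ω).col 0 1 := by
    intro m hm
    rw [mem_col, strip_D, strip_D, DD_zero]
    exact ⟨le_rfl, by have := hD m hm; simp only; omega⟩
  have hconn : ∀ m, m ≤ n → (strip p ω).Conn n ((strip p ω).col 0 1) (0, 0) (m, 0) := by
    intro m
    induction m with
    | zero => intro _; exact .refl
    | succ m ih =>
      intro hm
      refine (ih (by omega)).tail ⟨hmem m (by omega), hmem (m + 1) hm, Or.inl ?_⟩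
      have h4 : ps (xi ω m) 1 = xi ω m 0 := by
        have := ps_succ (xi ω m) 0
        rw [ps_zero, zero_add, zero_add] at this
        exact this
      refine .mk m 0 0 (by omega) ⟨?_, ?_⟩ ?_
      · show ps (xi ω m) 0 ≤ 0
        rw [ps_zero]
      · show (0 : ℤ) ≤ ps (xi ω m) (0 + 1)
        rw [zero_add, h4]
        positivity
      · show (((ω m 0).2 (((0 : ℤ) - ps (xi ω m) 0).toNat + 1) : unitInterval) : ℝ) ≤ p
        rw [ps_zero]
        exact (h m (by omega)).2
  exact ⟨0, 0, mem_univ _, le_rfl, one_pos, hconn n le_rfl⟩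

theorem cross_pos (h0 : 0 < α) (h1 : α < 1) {p : ℝ} (hp : 0 < p) (n : ℕ) :
    arrLaw α {ω | (strip p ω).Cross 0 1 n} ≠ 0 := by
  have hg := geo_prob h0.le h1
  have hn := Adapted.nd_prob h0.le h1
  have hr := Adapted.row_prob h0.le h1
  set C : Set Nd := {k : ℕ | 1 ≤ k} ×ˢ {f : ℕ → unitInterval | ((f 1 : unitInterval) : ℝ) ≤ p}
    with hC
  have hCm : MeasurableSet {f : ℕ → unitInterval | ((f 1 : unitInterval) : ℝ) ≤ p} :=
    measurableSet_le (measurable_subtype_coe.comp (measurable_pi_apply 1)) measurable_const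
  have hCm' : MeasurableSet C := (MeasurableSet.of_discrete).prod hCm
  have c1 : geo α {k : ℕ | 1 ≤ k} ≠ 0 := by
    unfold geo
    rw [Measure.sum_apply _ MeasurableSet.of_discrete]
    intro hz
    rw [ENNReal.tsum_eq_zero] at hz
    have := hz 1
    rw [Measure.smul_apply, Measure.dirac_apply' _ MeasurableSet.of_discrete,
      indicator_of_mem (by simp), pow_one, smul_eq_mul, Pi.one_apply, mul_one,
      ENNReal.ofReal_eq_zero] at this
    nlinarith
  have c2 : (Measure.infinitePi fun _ : ℕ => (volume : Measure unitInterval))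
      {f : ℕ → unitInterval | ((f 1 : unitInterval) : ℝ) ≤ p} ≠ 0 := by
    have a4 : MeasurePreserving (Function.eval 1 : (ℕ → unitInterval) → unitInterval)
        (Measure.infinitePi fun _ : ℕ => (volume : Measure unitInterval)) volume :=
      measurePreserving_eval_infinitePi _ 1
    have hm : MeasurableSet {u : unitInterval | (u : ℝ) ≤ p} :=
      measurableSet_le measurable_subtype_coe measurable_const
    have e := a4.measure_preimage hm.nullMeasurableSet
    have e' : (Function.eval 1 : (ℕ → unitInterval) → unitInterval) ⁻¹'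
      {u : unitInterval | (u : ℝ) ≤ p} =
        {f : ℕ → unitInterval | ((f 1 : unitInterval) : ℝ) ≤ p} := rfl
    rw [← e', e]
    intro hz
    have h2 : 0 ≤ min p 1 := le_min hp.le zero_le_one
    have h3 : Iic (⟨min p 1, h2, min_le_right _ _⟩ : unitInterval) ⊆
        {u : unitInterval | (u : ℝ) ≤ p} := by
      intro u hu
      have : (u : ℝ) ≤ min p 1 := hu
      exact this.trans (min_le_left _ _)
    have h4 := measure_mono_null h3 hz
    rw [unitInterval.volume_Iic, ENNReal.ofReal_eq_zero] at h4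
    have h5 : 0 < min p 1 := lt_min hp one_pos
    exact absurd h4 (not_le.2 h5)
  have c3 : ndLaw α C ≠ 0 := by
    unfold ndLaw
    rw [hC, Measure.prod_prod]
    exact mul_ne_zero c1 c2
  set B : Set Row := {r | r 0 ∈ C} with hB
  have hBm : MeasurableSet B := (measurable_pi_apply 0) hCm'
  have c4 : rowLaw α B ≠ 0 := by
    have a2 : MeasurePreserving (Function.eval 0 : Row → Nd) (rowLaw α) (ndLaw α) :=
      measurePreserving_eval_infinitePi _ 0
    have e := a2.measure_preimage hCm'.nullMeasurableSet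
    have e' : (Function.eval 0 : Row → Nd) ⁻¹' C = B := rfl
    rw [← e', e]
    exact c3
  have c5 : arrLaw α ((Finset.range n : Set ℕ).pi fun _ => B) ≠ 0 := by
    unfold arrLaw
    rw [Measure.infinitePi_pi _ (fun _ _ => hBm)]
    exact Finset.prod_ne_zero_iff.2 fun _ _ => c4
  intro hz
  refine c5 (measure_mono_null ?_ hz)
  intro ω hω
  refine det_cross fun t ht => ?_
  have := hω t (by simpa using ht)
  exact ⟨this.1, this.2⟩

/-! ### Crossings on both sides -/

theorem cross_cshift (p : ℝ) (ω : Arr) (a x y : ℤ) (n : ℕ) :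
    (strip p (cshift a ω)).Cross x y n ↔ (strip p ω).Cross (x + a) (y + a) n := by
  rw [stripShift.1 p a ω]
  have := (recentreS (strip p ω) a).2.2.2.2.1 n univ x y
  unfold Strip.Cross
  rw [this]
  have e : {z : ℤ | z - a ∈ (univ : Set ℤ)} = univ := by
    ext z
    simp
  rw [e]

theorem cols_shift (h0 : 0 ≤ α) (h1 : α < 1) (p : ℝ) (a : ℤ) (K n : ℕ) :
    (arrLaw α).real {ω | ∀ j : ℕ, j < K → ¬ (strip p ω).Cross (a + j) (a + j + 1) n} =
      vv α p 1 n ^ K := by
  have h := R1.cols_real h0 h1 p 1 K n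
  have hmA : MeasurableSet {ω | ∀ j : ℕ, j < K →
      ¬ (strip p ω).Cross (j * (1 : ℕ)) ((j + 1) * (1 : ℕ)) n} := by
    have e : {ω | ∀ j : ℕ, j < K → ¬ (strip p ω).Cross (j * (1 : ℕ)) ((j + 1) * (1 : ℕ)) n} =
        ⋂ j : ℕ, ⋂ _ : j < K,
          {ω | (strip p ω).CrossFrom univ (j * (1 : ℕ)) ((j + 1) * (1 : ℕ)) n}ᶜ := by
      ext ω
      simp only [mem_ofPred_eq, mem_iInter, mem_compl_iff]
      rfl
    rw [e]
    exact MeasurableSet.iInter fun j => MeasurableSet.iInter fun _ =>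
      ((meas.2.2.2 p n (j * (1 : ℕ)) ((j + 1) * (1 : ℕ))).2.2.2.2.1 univ).compl
  rw [← R1.cshift_real h0 h1 a hmA] at h
  rw [Nat.cast_one] at h
  rw [← h]
  congr 1
  ext ω
  simp only [mem_ofPred_eq]
  refine forall_congr' fun j => imp_congr_right fun _ => not_congr ?_
  rw [cross_cshift]
  have e1 : (j : ℤ) * 1 + a = a + j := by ring
  have e2 : ((j : ℤ) + 1) * 1 + a = a + j + 1 := by ring
  rw [e1, e2]

theorem null_of (h0 : 0 < α) (h1 : α < 1) {p : ℝ} (hp : 0 < p) (n : ℕ) (F : Set Arr)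
    (a : ℕ → ℤ)
    (hF : ∀ K : ℕ, F ⊆ {ω | ∀ j : ℕ, j < K → ¬ (strip p ω).Cross (a K + j) (a K + j + 1) n}) :
    arrLaw α F = 0 := by
  have hprob : IsProbabilityMeasure (arrLaw α) := Adapted.arr_prob h0.le h1
  have hv : vv α p 1 n < 1 := by
    have h2 := cross_pos h0 h1 hp n
    have hm : MeasurableSet {ω | (strip p ω).Cross 0 1 n} :=
      (meas.2.2.2 p n 0 1).2.2.2.2.1 univ
    have h3 : vv α p 1 n = 1 - (arrLaw α).real {ω | (strip p ω).Cross 0 1 n} := by
      unfold vv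
      rw [← probReal_compl_eq_one_sub hm]
      rfl
    rw [h3]
    have h4 : 0 < (arrLaw α).real {ω | (strip p ω).Cross 0 1 n} :=
      ENNReal.toReal_pos h2 (measure_ne_top _ _)
    linarith
  have hv0 : 0 ≤ vv α p 1 n := measureReal_nonneg
  have h4 : ∀ K, (arrLaw α).real F ≤ vv α p 1 n ^ K := by
    intro K
    rw [← cols_shift h0.le h1 p (a K) K n]
    exact measureReal_mono (hF K) (measure_ne_top _ _)
  have h5 : Tendsto (fun K : ℕ => vv α p 1 n ^ K) atTop (𝓝 0) :=
    tendsto_pow_atTop_nhds_zero_of_lt_one hv0 hv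
  have h6 : (arrLaw α).real F ≤ 0 := ge_of_tendsto' h5 h4
  have h7 : (arrLaw α).real F = 0 := le_antisymm h6 measureReal_nonneg
  rwa [measureReal_eq_zero_iff] at h7

theorem ae_both (h0 : 0 < α) (h1 : α < 1) {p : ℝ} (hp : 0 < p) (n : ℕ) :
    ∀ᵐ ω ∂arrLaw α, (∃ a : ℤ, a + 1 ≤ 0 ∧ (strip p ω).Cross a (a + 1) n) ∧
      (∃ b : ℤ, 1 ≤ b ∧ (strip p ω).Cross b (b + 1) n) := by
  refine Filter.Eventually.and ?_ ?_
  · rw [ae_iff]
    refine null_of h0 h1 hp n _ (fun K => -(K : ℤ)) fun K ω hω j hj hc => hω ⟨_, ?_, hc⟩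
    have : (j : ℤ) < K := by exact_mod_cast hj
    omega
  · rw [ae_iff]
    refine null_of h0 h1 hp n _ (fun K => 1) fun K ω hω j hj hc => hω ⟨_, ?_, hc⟩
    omega

/-! ### Monotonicity in `p` -/

section monop

variable {p p' : ℝ} (hp : p ≤ p') {ω : Arr} {n : ℕ} {R : Set (ℕ × ℤ)}

include hp

theorem up1_p {u v : ℕ × ℤ} (h : (strip p ω).Up1 n u v) : (strip p' ω).Up1 n u v := by
  cases h with
  | mk t x y h1 h2 h3 => exact .mk t x y h1 h2 (le_trans h3 hp)

theorem hor1_p {u v : ℕ × ℤ} (h : (strip p ω).Hor1 n u v) : (strip p' ω).Hor1 n u v := by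
  cases h with
  | mk t x h1 h2 => exact .mk t x h1 (le_trans h2 hp)

theorem conn_p {u v : ℕ × ℤ} (h : (strip p ω).Conn n R u v) : (strip p' ω).Conn n R u v := by
  refine ReflTransGen.mono (fun a b hab => ?_) u v h
  obtain ⟨h1, h2, h3⟩ := hab
  refine ⟨h1, h2, ?_⟩
  rcases h3 with h3 | h3 | h3 | h3
  · exact Or.inl (up1_p hp h3)
  · exact Or.inr (Or.inl (up1_p hp h3))
  · exact Or.inr (Or.inr (Or.inl (hor1_p hp h3)))
  · exact Or.inr (Or.inr (Or.inr (hor1_p hp h3)))

omit hp in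
theorem col_p (p p' : ℝ) (a b : ℤ) (ω : Arr) : (strip p ω).col a b = (strip p' ω).col a b := by
  ext v
  rw [mem_col, mem_col, strip_D, strip_D, strip_D, strip_D]

theorem cross_p {a b : ℤ} (h : (strip p ω).Cross a b n) : (strip p' ω).Cross a b n := by
  obtain ⟨x, y, h1, h2, h3, h4⟩ := h
  refine ⟨x, y, h1, h2, h3, ?_⟩
  rw [← col_p p p']
  exact conn_p hp h4

theorem dstep1_p {q r : Tri} (h : (strip p' ω).DStep1 n q r) : (strip p ω).DStep1 n q r := by
  cases h with
  | side t x y h1 h2 h3 => exact DStep1.side (E := strip p ω) t x y h1 h2 (fun h4 => h3 (le_trans h4 hp))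
  | up t x y h1 h2 h3 h4 =>
    exact DStep1.up (E := strip p ω) t x y h1 h2 h3 (fun h5 => h4 (le_trans h5 hp))

theorem dup_p {e : ℤ} (h : (strip p' ω).DUp R n e) : (strip p ω).DUp R n e := by
  obtain ⟨h1, h2, t, x, y, h3, h4, h5, h6⟩ := h
  refine ⟨fun h7 => h1 (le_trans h7 hp), h2, t, x, y, h3, h4, h5, ?_⟩
  refine ReflTransGen.mono (fun a b hab => ?_) _ _ h6
  obtain ⟨g1, g2, g3⟩ := hab
  exact ⟨g1, g2, g3.imp (dstep1_p hp) (dstep1_p hp)⟩

end monop

/-! ### Finite regions -/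

/-- The configurations at `p'` and at `p` agree on the column (open at `p` implies open at `p'`). -/
def Good (p p' : ℝ) (ω : Arr) (n : ℕ) (R : Set (ℕ × ℤ)) : Prop :=
  ∀ t < n, ∀ x, (t, x) ∈ R → ((strip p ω).ho t x → (strip p' ω).ho t x) ∧
    ∀ y, (strip p ω).IsV t x y → (strip p ω).vo t x y → (strip p' ω).vo t x y

section good

variable {p p' : ℝ} {ω : Arr} {n : ℕ} {R : Set (ℕ × ℤ)} (hG : Good p p' ω n R)

include hG

theorem up1_g {u v : ℕ × ℤ} (hu : u ∈ R) (h : (strip p ω).Up1 n u v) :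
    (strip p' ω).Up1 n u v := by
  cases h with
  | mk t x y h1 h2 h3 => exact .mk t x y h1 h2 ((hG t h1 x hu).2 y h2 h3)

theorem hor1_g {u v : ℕ × ℤ} (hu : u ∈ R) (h : (strip p ω).Hor1 n u v) :
    (strip p' ω).Hor1 n u v := by
  cases h with
  | mk t x h1 h2 => exact .mk t x h1 ((hG t h1 x hu).1 h2)

theorem conn_g {u v : ℕ × ℤ} (h : (strip p ω).Conn n R u v) : (strip p' ω).Conn n R u v := by
  refine ReflTransGen.mono (fun a b hab => ?_) u v h
  obtain ⟨h1, h2, h3⟩ := hab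
  refine ⟨h1, h2, ?_⟩
  rcases h3 with h3 | h3 | h3 | h3
  · exact Or.inl (up1_g hG h1 h3)
  · exact Or.inr (Or.inl (up1_g hG h2 h3))
  · exact Or.inr (Or.inr (Or.inl (hor1_g hG h1 h3)))
  · exact Or.inr (Or.inr (Or.inr (hor1_g hG h2 h3)))

theorem dstep1_g {q r : Tri} (hr : (r.1, r.2.1) ∈ R)
    (h : (strip p' ω).DStep1 n q r) : (strip p ω).DStep1 n q r := by
  cases h with
  | side t x y h1 h2 h3 =>
    exact DStep1.side (E := strip p ω) t x y h1 h2 (fun h4 =>
      h3 ((hG t h1 _ hr).2 _ ((strip p ω).isV_nx h2) h4))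
  | up t x y h1 h2 h3 h4 =>
    exact DStep1.up (E := strip p ω) t x y h1 h2 h3 (fun h5 => h4 ((hG (t + 1) h1 y hr).1 h5))

theorem dup_g {e : ℤ} (h : (strip p' ω).DUp R n e) : (strip p ω).DUp R n e := by
  obtain ⟨h1, h2, t, x, y, h3, h4, h5, h6⟩ := h
  refine ⟨fun h7 => h1 ((hG 0 (by omega) e h2).1 h7), h2, t, x, y, h3, h4, h5, ?_⟩
  refine ReflTransGen.mono (fun a b hab => ?_) _ _ h6
  obtain ⟨g1, g2, g3⟩ := hab
  exact ⟨g1, g2, g3.imp (dstep1_g hG g2) (dstep1_g hG g1)⟩

end good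

/-- The parameters `p_k ↑ p`. -/
def pk (p : ℝ) (k : ℕ) : ℝ := p - p / (k + 2)

theorem pk_lt {p : ℝ} (hp : 0 < p) (k : ℕ) : pk p k < p := by
  unfold pk
  have : 0 < p / ((k : ℝ) + 2) := by positivity
  linarith

theorem pk_ge {p : ℝ} (hp : 0 < p) (k : ℕ) : p / 2 ≤ pk p k := by
  unfold pk
  have : p / ((k : ℝ) + 2) ≤ p / 2 := by
    apply div_le_div_of_nonneg_left hp.le two_pos
    have : (0 : ℝ) ≤ k := Nat.cast_nonneg k
    linarith
  linarith

theorem pk_mono {p : ℝ} (hp : 0 < p) {k l : ℕ} (h : k ≤ l) : pk p k ≤ pk p l := by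
  unfold pk
  have : p / ((l : ℝ) + 2) ≤ p / ((k : ℝ) + 2) := by
    apply div_le_div_of_nonneg_left hp.le (by positivity)
    have : (k : ℝ) ≤ l := by exact_mod_cast h
    linarith
  linarith

theorem pk_tendsto (p : ℝ) : Tendsto (pk p) atTop (𝓝 p) := by
  have h1 : Tendsto (fun k : ℕ => (k : ℝ) + 2) atTop atTop :=
    tendsto_atTop_add_const_right _ _ tendsto_natCast_atTop_atTop
  have h2 : Tendsto (fun k : ℕ => p / ((k : ℝ) + 2)) atTop (𝓝 0) := h1.const_div_atTop p
  have h3 := (tendsto_const_nhds (x := p)).sub h2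
  rw [sub_zero] at h3
  exact h3

theorem ev_good {p : ℝ} {ω : Arr}
    (hω : ∀ (t : ℕ) (x : ℤ) (j : ℕ), (((ω t x).2 j : unitInterval) : ℝ) ≠ p) (n : ℕ) (a b : ℤ) :
    ∀ᶠ k in atTop, Good p (pk p k) ω n ((strip p ω).col a b) := by
  have hone : ∀ (t : ℕ) (x : ℤ) (j : ℕ), ∀ᶠ k in atTop,
      ((((ω t x).2 j : unitInterval) : ℝ) ≤ p → (((ω t x).2 j : unitInterval) : ℝ) ≤ pk p k) := by
    intro t x j
    by_cases h : (((ω t x).2 j : unitInterval) : ℝ) ≤ p
    · have hlt := lt_of_le_of_ne h (hω t x j)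
      filter_upwards [(pk_tendsto p).eventually_const_lt hlt] with k hk _
      exact hk.le
    · exact Eventually.of_forall fun k h' => absurd h' h
  have h1 : ∀ᶠ k in atTop, ∀ t ∈ Finset.range n, ∀ x ∈ Finset.Ico (DD ω t a) (DD ω t b),
      ((strip p ω).ho t x → (strip (pk p k) ω).ho t x) ∧
        ∀ y ∈ Finset.Icc ((strip p ω).S t x) ((strip p ω).S t (x + 1)),
          (strip p ω).vo t x y → (strip (pk p k) ω).vo t x y := by
    rw [Filter.eventually_all_finset]
    intro t _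
    rw [Filter.eventually_all_finset]
    intro x _
    refine Eventually.and (hone t x 0) ?_
    rw [Filter.eventually_all_finset]
    intro y _
    exact hone t x _
  filter_upwards [h1] with k hk t ht x hx
  rw [mem_col, strip_D, strip_D] at hx
  obtain ⟨g1, g2⟩ := hk t (Finset.mem_range.2 ht) x (Finset.mem_Ico.2 hx)
  exact ⟨g1, fun y hy => g2 y (Finset.mem_Icc.2 hy)⟩

theorem lim_lemma {μ : Measure Arr} [IsFiniteMeasure μ] (F : ℕ → Set Arr) (G : Set Arr)
    (hm : ∀ k, MeasurableSet (F k)) (hanti : Antitone F)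
    (hae : ∀ᵐ ω ∂μ, (∀ k, ω ∈ F k) → ω ∈ G) {η : ℝ} (hη : 0 < η) :
    ∃ K, ∀ k ≥ K, μ.real (F k) ≤ μ.real G + η := by
  have h1 := tendsto_measure_iInter_atTop (μ := μ) (fun k => (hm k).nullMeasurableSet) hanti
    ⟨0, measure_ne_top _ _⟩
  have h2 : Tendsto (fun k => μ.real (F k)) atTop (𝓝 (μ.real (⋂ k, F k))) :=
    (ENNReal.tendsto_toReal (measure_ne_top _ _)).comp h1
  have h3 : μ.real (⋂ k, F k) ≤ μ.real G := by
    refine ENNReal.toReal_mono (measure_ne_top _ _) (measure_mono_ae ?_)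
    filter_upwards [hae] with ω hω hω2
    exact hω (mem_iInter.1 hω2)
  have h4 := h2.eventually_lt_const (show μ.real (⋂ k, F k) < μ.real G + η by linarith)
  obtain ⟨K, hK⟩ := eventually_atTop.1 h4
  exact ⟨K, fun k hk => (hK k hk).le⟩

end Cont

open Cont Strip

/-- Continuity in `p` from the left. -/
theorem cont (hC : ConfineStmt) : ContStmt := by
  intro p n b η hp hp1 hη
  have h0 : (0 : ℝ) ≤ 1 / 2 := by norm_num
  have h1 : (1 / 2 : ℝ) < 1 := by norm_num
  have hprob : IsProbabilityMeasure (arrLaw (1 / 2)) := Adapted.arr_prob h0 h1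
  obtain ⟨K₁, hK₁⟩ := lim_lemma (μ := arrLaw (1 / 2))
    (fun k => {ω | (strip (pk p k) ω).DUp univ n 0}) {ω | (strip p ω).DUp univ n 0}
    (fun k => (meas.2.2.2 (pk p k) n 0 0).2.2.2.2.2.2.1 0)
    (fun k l hkl ω hω => dup_p (pk_mono hp hkl) hω)
    (by
      filter_upwards [ae_label h0 h1 p, ae_both (α := 1 / 2) (by norm_num) h1
        (show 0 < p / 2 by linarith) n] with ω hω1 hω2 hF
      obtain ⟨⟨a, ha1, ha2⟩, ⟨c, hc1, hc2⟩⟩ := hω2
      obtain ⟨k, hk⟩ := (ev_good hω1 n a (c + 1)).exists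
      have h2 := hC (strip (pk p k) ω) n a (a + 1) c (c + 1) 0 ha1 (by omega)
        (cross_p (pk_ge hp k) ha2) (cross_p (pk_ge hp k) hc2) (hF k)
      rw [col_p (pk p k) p] at h2
      exact R1.DUp_mono (subset_univ _) (dup_g hk h2)) hη
  obtain ⟨K₂, hK₂⟩ := lim_lemma (μ := arrLaw (1 / 2))
    (fun k => {ω | ¬ (strip (pk p k) ω).Cross 0 b n}) {ω | ¬ (strip p ω).Cross 0 b n}
    (fun k => ((meas.2.2.2 (pk p k) n 0 b).2.2.2.2.1 univ).compl)
    (fun k l hkl ω hω hcr => hω (cross_p (pk_mono hp hkl) hcr))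
    (by
      filter_upwards [ae_label h0 h1 p] with ω hω1 hF hcr
      obtain ⟨k, hk⟩ := (ev_good hω1 n 0 b).exists
      refine hF k ?_
      obtain ⟨x, y, g1, g2, g3, g4⟩ := hcr
      refine ⟨x, y, g1, g2, g3, ?_⟩
      rw [col_p (pk p k) p]
      exact conn_g hk g4) hη
  set k := max K₁ K₂ with hk
  refine ⟨p - pk p k, by have := pk_lt hp k; linarith, fun p' hp' => ?_⟩
  have hle : pk p k ≤ p' := by linarith
  constructor
  · refine le_trans ?_ (hK₁ k (le_max_left _ _))
    exact measureReal_mono (fun ω hω => dup_p hle hω) (measure_ne_top _ _)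
  · refine le_trans ?_ (hK₂ k (le_max_right _ _))
    exact measureReal_mono (fun ω hω hcr => hω (cross_p hle hcr)) (measure_ne_top _ _)

end CausalPerc.Neg
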