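import Pool.Agent.Lib.MP_a51368_pr.Neg.Meas
import Pool.Agent.Lib.MP_a51368_pr.Meas

/-!
# Module N10: translation invariance, independence of columns, splitting into rows
-/

open MeasureTheory Set ProbabilityTheory

noncomputable section

namespace CausalPerc.Neg

namespace IndepAux

theorem nd_prob {α : ℝ} (h0 : 0 ≤ α) (h1 : α < 1) : IsProbabilityMeasure (ndLaw α) := by
  have := geo_prob h0 h1
  unfold ndLaw
  infer_instance

theorem ps_shift (f : ℤ → ℕ) (c y : ℤ) :
    ps (fun x => f (x + c)) y = ps f (y + c) - ps f c := by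
  induction y using Int.induction_on with
  | zero => simp [ps_zero]
  | succ k ih =>
    rw [ps_succ, ih]
    have h := ps_succ f ((k : ℤ) + c)
    have h2 : (k : ℤ) + 1 + c = k + c + 1 := by ring
    rw [h2, h]
    ring
  | pred k ih =>
    have h := ps_succ (fun x => f (x + c)) (-(k : ℤ) - 1)
    have h2 := ps_succ f (-(k : ℤ) - 1 + c)
    have h3 : -(k : ℤ) - 1 + 1 = -(k : ℤ) := by ring
    have h4 : -(k : ℤ) - 1 + c + 1 = -(k : ℤ) + c := by ring
    rw [h3, ih] at h
    rw [h4] at h2
    have h5 : -(k : ℤ) + c = -(k : ℤ) + c := rfl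
    linarith

theorem DD_cshift (a : ℤ) (ω : Arr) (t : ℕ) (b : ℤ) :
    DD (cshift a ω) t b = DD ω t (b + a) - DD ω t a := by
  induction t with
  | zero => simp [DD]
  | succ t ih =>
    show ps (xi (cshift a ω) t) (DD (cshift a ω) t b) =
      ps (xi ω t) (DD ω t (b + a)) - ps (xi ω t) (DD ω t a)
    have h : xi (cshift a ω) t = fun x => xi ω t (x + DD ω t a) := rfl
    rw [h, ps_shift, ih]
    simp

theorem DD_mono (ω : Arr) (t : ℕ) {a b : ℤ} (h : a ≤ b) : DD ω t a ≤ DD ω t b := by
  rw [← strip_D 0, ← strip_D 0]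
  exact (strip 0 ω).D_mono t h

theorem DD_congr {ω ω' : Arr} {t : ℕ} (h : ∀ s < t, ω s = ω' s) (a : ℤ) :
    DD ω t a = DD ω' t a := by
  induction t with
  | zero => rfl
  | succ t ih =>
    have h1 : xi ω t = xi ω' t := by
      funext x
      unfold xi
      rw [h t (Nat.lt_succ_self t)]
    show ps (xi ω t) (DD ω t a) = ps (xi ω' t) (DD ω' t a)
    rw [h1, ih fun s hs => h s (Nat.lt_succ_of_lt hs)]

/-- Product formula for functions of disjoint families of coordinates. -/
theorem prod_lemma {J X : Type*} [Fintype J] [MeasurableSpace X] (μ : Measure X)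
    [IsProbabilityMeasure μ] (g : J → (ℕ → ℕ → X) → ENNReal) (hg : ∀ j, Measurable (g j)) :
    ∫⁻ η, ∏ j, g j (fun t i => η t (j, i))
        ∂(Measure.infinitePi fun _ : ℕ => Measure.infinitePi fun _ : J × ℕ => μ) =
      ∏ j, ∫⁻ ζ, g j ζ ∂(Measure.infinitePi fun _ : ℕ => Measure.infinitePi fun _ : ℕ => μ) := by
  have m1 : Measurable fun η : ℕ → J × ℕ → X => ∏ j, g j (fun t i => η t (j, i)) :=
    Finset.measurable_fun_prod _ fun j _ => (hg j).comp (by fun_prop)
  rw [← Measure.infinitePi_map_curry (fun (_ : ℕ) (_ : J × ℕ) => μ),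
    lintegral_map m1 (by fun_prop)]
  set e : J × (ℕ × ℕ) → ℕ × (J × ℕ) := fun q => (q.2.1, (q.1, q.2.2)) with he
  have he1 : Function.Injective e := by
    rintro ⟨j, t, i⟩ ⟨j', t', i'⟩ h
    simp only [he, Prod.mk.injEq] at h
    obtain ⟨h1, h2, h3⟩ := h
    rw [h1, h2, h3]
  have m2 : Measurable fun ξ : J × (ℕ × ℕ) → X => ∏ j, g j (fun t i => ξ (j, (t, i))) :=
    Finset.measurable_fun_prod _ fun j _ => (hg j).comp (by fun_prop)
  have h1 : ∫⁻ ζ : ℕ × (J × ℕ) → X, ∏ j, g j (fun t i =>
        (MeasurableEquiv.curry ℕ (J × ℕ) X) ζ t (j, i))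
        ∂(Measure.infinitePi fun _ : ℕ × (J × ℕ) => μ) =
      ∫⁻ ξ : J × (ℕ × ℕ) → X, ∏ j, g j (fun t i => ξ (j, (t, i)))
        ∂(Measure.infinitePi fun _ : J × (ℕ × ℕ) => μ) := by
    rw [← Measure.map_infinitePi_infinitePi_of_inj (P := fun _ : ℕ × (J × ℕ) => μ) he1,
      lintegral_map m2 (by fun_prop)]
    rfl
  rw [h1, ← Measure.infinitePi_map_curry_symm (fun (_ : J) (_ : ℕ × ℕ) => μ),
    lintegral_map m2 (by fun_prop)]
  have h2 : ∀ ω : J → ℕ × ℕ → X,
      (∏ j, g j (fun t i => (MeasurableEquiv.curry J (ℕ × ℕ) X).symm ω (j, (t, i)))) =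
      ∏ j, g j (fun t i => ω j (t, i)) := fun _ => rfl
  simp only [h2]
  have m3 : ∀ j, Measurable fun v : ℕ × ℕ → X => g j (fun t i => v (t, i)) := fun j =>
    (hg j).comp (by fun_prop)
  have h3 := lintegral_prod_eq_prod_lintegral_of_indepFun
    (μ := Measure.infinitePi fun _ : J => Measure.infinitePi fun _ : ℕ × ℕ => μ)
    Finset.univ (fun j ω => g j (fun t i => ω j (t, i)))
    (iIndepFun_infinitePi (X := fun j (v : ℕ × ℕ → X) => g j (fun t i => v (t, i))) m3)
    (fun j => (m3 j).comp (measurable_pi_apply j))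
  rw [h3]
  refine Finset.prod_congr rfl fun j _ => ?_
  have h4 : ∫⁻ ω : J → ℕ × ℕ → X, g j (fun t i => ω j (t, i))
        ∂(Measure.infinitePi fun _ : J => Measure.infinitePi fun _ : ℕ × ℕ => μ) =
      ∫⁻ v : ℕ × ℕ → X, g j (fun t i => v (t, i)) ∂(Measure.infinitePi fun _ : ℕ × ℕ => μ) := by
    have h5 := lintegral_map
      (μ := Measure.infinitePi fun _ : J => Measure.infinitePi fun _ : ℕ × ℕ => μ)
      (m3 j) (measurable_pi_apply j)
    rw [Measure.infinitePi_map_eval] at h5
    exact h5.symm
  rw [h4, ← Measure.infinitePi_map_curry (fun (_ : ℕ) (_ : ℕ) => μ),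
    lintegral_map (hg j) (by fun_prop)]
  rfl

/-- Extension by a constant to negative positions. -/
def pad (ζ : ℕ → ℕ → Nd) : Arr := fun t x => if 0 ≤ x then ζ t x.toNat else (0, fun _ => 0)

theorem meas_pad : Measurable pad := by
  refine measurable_pi_iff.2 fun t => measurable_pi_iff.2 fun x => ?_
  unfold pad
  split_ifs with h
  · exact (measurable_pi_apply _).comp (measurable_pi_apply t)
  · exact measurable_const

/-- Gluing the first `s` rows of `ω` and the array `η`. -/
def join (s : ℕ) (q : Arr × Arr) : Arr := fun t => if t < s then q.1 t else q.2 (t - s)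

theorem meas_join (s : ℕ) : Measurable (join s) := by
  refine measurable_pi_iff.2 fun t => ?_
  unfold join
  split_ifs with h
  · exact (measurable_pi_apply t).comp measurable_fst
  · exact (measurable_pi_apply _).comp measurable_snd

theorem join_law {α : ℝ} (h0 : 0 ≤ α) (h1 : α < 1) (s : ℕ) :
    ((arrLaw α).prod (arrLaw α)).map (join s) = arrLaw α := by
  have := nd_prob h0 h1
  have h2 : IsProbabilityMeasure (rowLaw α) := by unfold rowLaw; infer_instance
  have h3 : IsProbabilityMeasure (arrLaw α) := by unfold arrLaw; infer_instance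
  refine Measure.eq_infinitePi _ fun S A hA => ?_
  have hS : MeasurableSet ((S : Set ℕ).pi A) := MeasurableSet.pi S.countable_toSet fun i _ => hA i
  rw [Measure.map_apply (meas_join s) hS]
  classical
  set S1 := S.filter (· < s) with hS1
  set S2' := S.filter (fun t => ¬ t < s) with hS2'
  set S2 := S2'.image (fun t => t - s) with hS2
  have h4 : join s ⁻¹' ((S : Set ℕ).pi A) =
      ((S1 : Set ℕ).pi A) ×ˢ ((S2 : Set ℕ).pi fun k => A (s + k)) := by
    ext ⟨ω, η⟩
    simp only [mem_preimage, mem_pi, mem_prod, Finset.mem_coe, hS1, hS2, hS2', Finset.mem_filter,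
      Finset.mem_image, join]
    constructor
    · intro h
      constructor
      · rintro t ⟨ht, hts⟩
        have := h t ht
        rwa [if_pos hts] at this
      · rintro k ⟨t, ⟨ht, hts⟩, rfl⟩
        have := h t ht
        rw [if_neg hts] at this
        have h5 : s + (t - s) = t := by omega
        rw [h5]
        exact this
    · rintro ⟨h5, h6⟩ t ht
      split_ifs with hts
      · exact h5 t ⟨ht, hts⟩
      · have := h6 (t - s) ⟨t, ⟨ht, hts⟩, rfl⟩
        have h7 : s + (t - s) = t := by omega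
        rwa [h7] at this
  rw [h4, Measure.prod_prod]
  have h5 : arrLaw α ((S1 : Set ℕ).pi A) = ∏ t ∈ S1, rowLaw α (A t) :=
    Measure.infinitePi_pi _ fun t _ => hA t
  have h6 : arrLaw α ((S2 : Set ℕ).pi fun k => A (s + k)) = ∏ k ∈ S2, rowLaw α (A (s + k)) :=
    Measure.infinitePi_pi _ fun t _ => hA (s + t)
  rw [h5, h6, hS2, Finset.prod_image]
  · have h7 : ∏ t ∈ S2', rowLaw α (A (s + (t - s))) = ∏ t ∈ S2', rowLaw α (A t) := by
      refine Finset.prod_congr rfl fun t ht => ?_
      have : s ≤ t := by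
        have := (Finset.mem_filter.1 ht).2
        omega
      rw [Nat.add_sub_cancel' this]
    rw [h7]
    exact Finset.prod_filter_mul_prod_filter_not S (fun t => t < s) _
  · intro t ht t' ht' h
    have h8 := (Finset.mem_filter.1 (Finset.mem_coe.1 ht)).2
    have h9 := (Finset.mem_filter.1 (Finset.mem_coe.1 ht')).2
    have h10 : t - s = t' - s := h
    omega

end IndepAux

open IndepAux MeasAux

theorem cshift_law (h : AdaptedStmt) : CshiftStmt := by
  intro α h0 h1 a
  refine h α h0 h1 ℤ (fun t ω x => x + DD ω t a) ?_ ?_ ?_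
  · intro t ω x y hxy
    simpa using hxy
  · intro t ω ω' hω
    funext x
    rw [DD_congr hω]
  · intro t i
    exact measurable_const.add (meas_DD t a)

theorem colIndep (h : AdaptedStmt) : ColIndepStmt := by
  intro α h0 h1 J _ a b n f hab hdis hf hdep
  have hp := nd_prob h0 h1
  obtain ⟨enc, henc⟩ := exists_injective_nat (J × ℕ)
  set M : ℕ → Arr → ℤ := fun t ω => ∑ j, |DD ω t (b j)| with hM
  have hMle : ∀ t ω j, DD ω t (b j) ≤ M t ω := fun t ω j =>
    (le_abs_self _).trans (Finset.single_le_sum (f := fun j => |DD ω t (b j)|)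
      (fun _ _ => abs_nonneg _) (Finset.mem_univ j))
  set φ : ℕ → Arr → J × ℕ → ℤ := fun t ω q =>
    if (q.2 : ℤ) < DD ω t (b q.1) - DD ω t (a q.1) then DD ω t (a q.1) + q.2
    else M t ω + enc q with hφ
  have hinj : ∀ t ω, Function.Injective (φ t ω) := by
    rintro t ω ⟨j, i⟩ ⟨j', i'⟩ hq
    simp only [hφ] at hq
    have hM1 := hMle t ω j
    have hM2 := hMle t ω j'
    split_ifs at hq with h2 h3 h3
    · by_cases hj : j = j'
      · subst hj
        have : i = i' := by omega
        rw [this]
      · exfalso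
        rcases hdis hj with h4 | h4
        · have := DD_mono ω t h4
          omega
        · have := DD_mono ω t h4
          omega
    · exfalso
      have : (0 : ℤ) ≤ enc (j', i') := Int.natCast_nonneg _
      omega
    · exfalso
      have : (0 : ℤ) ≤ enc (j, i) := Int.natCast_nonneg _
      omega
    · exact henc (by omega)
  have hM0 : ∀ t ω ω', (∀ s < t, ω s = ω' s) → M t ω = M t ω' := fun t ω ω' hω => by
    simp only [hM]
    exact Finset.sum_congr rfl fun j _ => by rw [DD_congr hω]
  have hMm : ∀ t, Measurable (M t) := fun t =>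
    Finset.measurable_fun_sum _ fun j _ =>
      (measurable_of_countable (fun z : ℤ => |z|)).comp (meas_DD t (b j))
  have hlaw := h α h0 h1 (J × ℕ) φ hinj ?_ ?_
  · set Ψ : Arr → ℕ → J × ℕ → Nd := fun ω t i => ω t (φ t ω i) with hΨ
    have hφm : ∀ t q, Measurable fun ω => φ t ω q := fun t q =>
      Measurable.ite (measurableSet_lt measurable_const ((meas_DD t _).sub (meas_DD t _)))
        ((meas_DD t _).add measurable_const) ((hMm t).add measurable_const)
    have hΨm : Measurable Ψ := measurable_pi_iff.2 fun t => measurable_pi_iff.2 fun q =>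
      comp_int (f := fun z (ω : Arr) => ω t z) (fun z => meas_node t z) (hφm t q)
    -- the factors are functions of `Ψ`
    have e1 : ∀ ω j, f j (cshift (a j) ω) = f j (pad fun t i => Ψ ω t (j, i)) := by
      intro ω j
      refine hdep j _ _ fun t _ x hx0 hx1 => ?_
      rw [DD_cshift] at hx1
      have hx2 : b j - a j + a j = b j := by ring
      rw [hx2] at hx1
      have hx3 : ((x.toNat : ℕ) : ℤ) = x := Int.toNat_of_nonneg hx0
      show ω t (x + DD ω t (a j)) = pad (fun t i => Ψ ω t (j, i)) t x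
      simp only [pad, if_pos hx0, hΨ, hφ, hx3, if_pos hx1]
      rw [add_comm]
    have m1 : ∀ j, Measurable fun ζ : ℕ → ℕ → Nd => f j (pad ζ) := fun j =>
      (hf j).comp meas_pad
    have m2 : Measurable fun η : ℕ → J × ℕ → Nd => ∏ j, f j (pad fun t i => η t (j, i)) :=
      Finset.measurable_fun_prod _ fun j _ => (m1 j).comp (by fun_prop)
    have e2 : ∫⁻ ω, ∏ j, f j (cshift (a j) ω) ∂arrLaw α =
        ∏ j, ∫⁻ ζ, f j (pad ζ)
          ∂(Measure.infinitePi fun _ : ℕ => Measure.infinitePi fun _ : ℕ => ndLaw α) := by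
      rw [← prod_lemma (ndLaw α) (fun j ζ => f j (pad ζ)) m1, ← hlaw, lintegral_map m2 hΨm]
      exact lintegral_congr fun ω => Finset.prod_congr rfl fun j _ => e1 ω j
    rw [e2]
    refine Finset.prod_congr rfl fun j _ => ?_
    have hlaw2 := h α h0 h1 ℕ (fun _ _ i => (i : ℤ)) (fun _ _ => Nat.cast_injective)
      (fun _ _ _ _ => rfl) (fun _ _ => measurable_const)
    rw [← hlaw2, lintegral_map (m1 j)
      (measurable_pi_iff.2 fun t => measurable_pi_iff.2 fun q => meas_node t _)]
    refine lintegral_congr fun ω => ?_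
    refine (hdep j _ _ fun t _ x hx0 _ => ?_).symm
    simp only [pad, if_pos hx0, Int.toNat_of_nonneg hx0]
  · intro t ω ω' hω
    funext q
    simp only [hφ]
    rw [DD_congr hω, DD_congr hω, hM0 t ω ω' hω]
  · intro t q
    exact Measurable.ite (measurableSet_lt measurable_const ((meas_DD t _).sub (meas_DD t _)))
      ((meas_DD t _).add measurable_const) ((hMm t).add measurable_const)

theorem split : SplitStmt := by
  intro α h0 h1 s f hf hdep
  have := nd_prob h0 h1
  have h2 : IsProbabilityMeasure (rowLaw α) := by unfold rowLaw; infer_instance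
  have h3 : IsProbabilityMeasure (arrLaw α) := by unfold arrLaw; infer_instance
  have m1 : Measurable fun ω : Arr => f ω (post s ω) :=
    hf.comp (measurable_id.prodMk (meas_post s))
  conv_lhs => rw [← join_law h0 h1 s]
  rw [lintegral_map m1 (meas_join s)]
  have e1 : ∀ q : Arr × Arr, f (join s q) (post s (join s q)) = f q.1 q.2 := by
    rintro ⟨ω, η⟩
    have h4 : post s (join s (ω, η)) = η := by
      funext t
      show (if s + t < s then ω (s + t) else η (s + t - s)) = η t
      rw [if_neg (by omega), Nat.add_sub_cancel_left]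
    rw [h4]
    refine hdep _ _ _ fun t ht => ?_
    show (if t < s then ω t else η (t - s)) = ω t
    rw [if_pos ht]
  simp only [e1]
  exact lintegral_prod _ hf.aemeasurable

end CausalPerc.Neg
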