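import Pool.Agent.Lib.MP_a51368_pr.Neg.Spec2
import Pool.Agent.Lib.MP_a51368_pr.Neg.Indep

/-!
# Module P10: negative drift gives a finite criterion for extinction
-/

open MeasureTheory Set Filter Topology

noncomputable section

namespace CausalPerc.Neg

namespace FC

open MeasAux IndepAux

section Det

variable (E : Strip)

theorem H_mono {t : ℕ} {A B : Set ℤ} (h : A ⊆ B) : E.H t A ⊆ E.H t B :=
  fun _ ⟨a, ha, h1, h2⟩ => ⟨a, h ha, h1, h2⟩

theorem V_mono {t : ℕ} {A B : Set ℤ} (h : A ⊆ B) : E.V t A ⊆ E.V t B :=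
  fun _ ⟨x, hx, h1⟩ => ⟨x, h hx, h1⟩

theorem ostep_mono {t : ℕ} {A B : Set ℤ} (h : A ⊆ B) : E.ostep t A ⊆ E.ostep t B :=
  V_mono E (H_mono E h)

theorem OS_mono (n : ℕ) {A B : Set ℤ} (h : A ⊆ B) : E.OS A n ⊆ E.OS B n := by
  induction n with
  | zero => exact h
  | succ n ih => exact ostep_mono E ih

theorem mem_ostep_iff {t : ℕ} {A : Set ℤ} {y : ℤ} :
    y ∈ E.ostep t A ↔ ∃ a ∈ A, y ∈ E.ostep t {a} := by
  constructor
  · rintro ⟨x, ⟨a, ha, h1, h2⟩, h3⟩
    exact ⟨a, ha, x, ⟨a, rfl, h1, h2⟩, h3⟩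
  · rintro ⟨a, ha, h⟩
    exact ostep_mono E (singleton_subset_iff.2 ha) h

theorem mem_OS_iff {n : ℕ} {A : Set ℤ} {y : ℤ} :
    y ∈ E.OS A n ↔ ∃ a ∈ A, y ∈ E.OS {a} n := by
  induction n generalizing y with
  | zero => simp [Strip.OS]
  | succ n ih =>
    constructor
    · intro h
      obtain ⟨b, hb, hy⟩ := (mem_ostep_iff E).1 h
      obtain ⟨a, ha, hb'⟩ := ih.1 hb
      exact ⟨a, ha, ostep_mono E (singleton_subset_iff.2 hb') hy⟩
    · rintro ⟨a, ha, h⟩
      exact OS_mono E _ (singleton_subset_iff.2 ha) h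

theorem OS_empty (n : ℕ) : E.OS ∅ n = ∅ := by
  ext y
  rw [mem_OS_iff]
  simp

theorem OS_shift (s n : ℕ) (A : Set ℤ) : E.OS A (s + n) = (E.shift s).OS (E.OS A s) n := by
  induction n with
  | zero => rfl
  | succ n ih =>
    show E.ostep (s + n) (E.OS A (s + n)) = (E.shift s).ostep n ((E.shift s).OS (E.OS A s) n)
    rw [ih]
    rfl

end Det

/-! ### Measurability of suprema -/

section Sup

variable {Ω : Type*} [MeasurableSpace Ω] {Y : Ω → Set ℤ}

theorem sSup_eq_iff (Y : Set ℤ) (k : ℤ) : sSup Y = k ↔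
    (k ∈ Y ∧ ∀ j, j ∈ Y → j ≤ k) ∨ (k = 0 ∧ ¬ (Y.Nonempty ∧ BddAbove Y)) := by
  have key : ¬ (Y.Nonempty ∧ BddAbove Y) → sSup Y = 0 := by
    intro h
    by_cases h1 : Y.Nonempty
    · exact Int.csSup_of_not_bddAbove fun h2 => h ⟨h1, h2⟩
    · rw [not_nonempty_iff_eq_empty.1 h1, Int.csSup_empty]
  constructor
  · rintro rfl
    by_cases h : Y.Nonempty ∧ BddAbove Y
    · exact Or.inl ⟨Int.csSup_mem h.1 h.2, fun j hj => le_csSup h.2 hj⟩
    · exact Or.inr ⟨key h, h⟩
  · rintro (⟨h1, h2⟩ | ⟨rfl, h⟩)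
    · exact IsGreatest.csSup_eq ⟨h1, h2⟩
    · exact key h

theorem sInf_eq_iff (Y : Set ℤ) (k : ℤ) : sInf Y = k ↔
    (k ∈ Y ∧ ∀ j, j ∈ Y → k ≤ j) ∨ (k = 0 ∧ ¬ (Y.Nonempty ∧ BddBelow Y)) := by
  have key : ¬ (Y.Nonempty ∧ BddBelow Y) → sInf Y = 0 := by
    intro h
    by_cases h1 : Y.Nonempty
    · exact Int.csInf_of_not_bddBelow fun h2 => h ⟨h1, h2⟩
    · rw [not_nonempty_iff_eq_empty.1 h1, Int.csInf_empty]
  constructor
  · rintro rfl
    by_cases h : Y.Nonempty ∧ BddBelow Y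
    · exact Or.inl ⟨Int.csInf_mem h.1 h.2, fun j hj => csInf_le h.2 hj⟩
    · exact Or.inr ⟨key h, h⟩
  · rintro (⟨h1, h2⟩ | ⟨rfl, h⟩)
    · exact IsLeast.csInf_eq ⟨h1, h2⟩
    · exact key h

theorem m_nonempty (h : ∀ z, Measurable fun ω => z ∈ Y ω) :
    Measurable fun ω => (Y ω).Nonempty := Measurable.exists h

theorem m_bddAbove (h : ∀ z, Measurable fun ω => z ∈ Y ω) :
    Measurable fun ω => BddAbove (Y ω) := by
  show Measurable fun ω => ∃ b : ℤ, ∀ z, z ∈ Y ω → z ≤ b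
  exact Measurable.exists fun b => Measurable.forall fun z => (h z).imp measurable_const

theorem m_bddBelow (h : ∀ z, Measurable fun ω => z ∈ Y ω) :
    Measurable fun ω => BddBelow (Y ω) := by
  show Measurable fun ω => ∃ b : ℤ, ∀ z, z ∈ Y ω → b ≤ z
  exact Measurable.exists fun b => Measurable.forall fun z => (h z).imp measurable_const

theorem m_sSup (h : ∀ z, Measurable fun ω => z ∈ Y ω) : Measurable fun ω => sSup (Y ω) := by
  refine measurable_to_countable' fun k => ?_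
  have : (fun ω => sSup (Y ω)) ⁻¹' {k} = {ω | (k ∈ Y ω ∧ ∀ j, j ∈ Y ω → j ≤ k) ∨
      (k = 0 ∧ ¬ ((Y ω).Nonempty ∧ BddAbove (Y ω)))} := by
    ext ω
    exact sSup_eq_iff _ _
  rw [this]
  exact measurableSet_setOfPred.2 (((h k).and (Measurable.forall fun j =>
    (h j).imp measurable_const)).or (measurable_const.and ((m_nonempty h).and (m_bddAbove h)).not))

theorem m_sInf (h : ∀ z, Measurable fun ω => z ∈ Y ω) : Measurable fun ω => sInf (Y ω) := by
  refine measurable_to_countable' fun k => ?_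
  have : (fun ω => sInf (Y ω)) ⁻¹' {k} = {ω | (k ∈ Y ω ∧ ∀ j, j ∈ Y ω → k ≤ j) ∨
      (k = 0 ∧ ¬ ((Y ω).Nonempty ∧ BddBelow (Y ω)))} := by
    ext ω
    exact sInf_eq_iff _ _
  rw [this]
  exact measurableSet_setOfPred.2 (((h k).and (Measurable.forall fun j =>
    (h j).imp measurable_const)).or (measurable_const.and ((m_nonempty h).and (m_bddBelow h)).not))

end Sup

/-! ### Laws -/

theorem arr_prob : IsProbabilityMeasure (arrLaw (1 / 2)) := by
  have := nd_prob (α := 1 / 2) (by norm_num) (by norm_num)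
  have h2 : IsProbabilityMeasure (rowLaw (1 / 2)) := by unfold rowLaw; infer_instance
  unfold arrLaw
  infer_instance

theorem post_law (hS : SplitStmt) (s : ℕ) :
    (arrLaw (1 / 2)).map (post s) = arrLaw (1 / 2) := by
  have hP := arr_prob
  ext A hA
  rw [Measure.map_apply (meas_post s) hA]
  have h := hS (1 / 2) (by norm_num) (by norm_num) s (fun _ η => A.indicator 1 η)
    ((measurable_one.indicator hA).comp measurable_snd) (fun _ _ _ _ => rfl)
  simp only [lintegral_const, measure_univ, mul_one] at h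
  rw [lintegral_indicator_one hA] at h
  rw [← h, ← lintegral_indicator_one (meas_post s hA)]
  rfl

/-- Good arrays: all the edges at level `n` exist. -/
def Good (p : ℝ) (n : ℕ) (η : Arr) : Prop := ∀ a : ℤ,
  ((strip p η).OS (Iic a) n).Nonempty ∧ BddAbove ((strip p η).OS (Iic a) n) ∧
  ((strip p η).OS (Ici a) n).Nonempty ∧ BddBelow ((strip p η).OS (Ici a) n)

variable {p : ℝ} {n : ℕ}

theorem good_ae (hE : EdgeStmt) (h0 : 0 < p) (h1 : p < 1) (n : ℕ) :
    ∀ᵐ η ∂arrLaw (1 / 2), Good p n η := by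
  filter_upwards [(hE p h0 h1 n).1] with η h a
  exact ⟨(h a).1, (h a).2.1, (h a).2.2.1, (h a).2.2.2.1⟩

theorem good_post_ae (hE : EdgeStmt) (hS : SplitStmt) (h0 : 0 < p) (h1 : p < 1) (n s : ℕ) :
    ∀ᵐ ω ∂arrLaw (1 / 2), Good p n (post s ω) := by
  have h := good_ae hE h0 h1 n
  rw [← post_law hS s] at h
  exact ae_of_ae_map (meas_post s).aemeasurable h

theorem cshift_mp (hC : CshiftStmt) (a : ℤ) :
    MeasurePreserving (cshift a) (arrLaw (1 / 2)) (arrLaw (1 / 2)) :=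
  ⟨meas_cshift a, hC (1 / 2) (by norm_num) (by norm_num) a⟩

theorem OS_cshift (hR : RecentreStmt) (hSS : StripShiftStmt) (l : ℤ) (A : Set ℤ) (η : Arr) :
    (strip p (cshift l η)).OS A n =
      {z | z + DD η n l ∈ (strip p η).OS {x | x - l ∈ A} n} := by
  ext z
  rw [hSS.1 p l η]
  have h := (hR (strip p η) l).2.2.2.2.2.2.2.2.1 n A z
  rw [strip_D] at h
  exact h

theorem sup_cshift (hR : RecentreStmt) (hSS : StripShiftStmt) {η : Arr} (hG : Good p n η)
    (l r : ℤ) : sSup ((strip p η).OS (Iic r) n) =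
      DD η n l + sSup ((strip p (cshift l η)).OS (Iic (r - l)) n) := by
  rw [OS_cshift hR hSS]
  have h1 : {x : ℤ | x - l ∈ Iic (r - l)} = Iic r := by
    ext x
    simp
  rw [h1]
  obtain ⟨h2, h3, _⟩ := hG r
  have h4 : IsGreatest {z | z + DD η n l ∈ (strip p η).OS (Iic r) n}
      (sSup ((strip p η).OS (Iic r) n) - DD η n l) := by
    refine ⟨?_, ?_⟩
    · show sSup ((strip p η).OS (Iic r) n) - DD η n l + DD η n l ∈ (strip p η).OS (Iic r) n
      rw [sub_add_cancel]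
      exact Int.csSup_mem h2 h3
    · intro z hz
      have := le_csSup h3 hz
      linarith
  rw [h4.csSup_eq]
  ring

theorem inf_cshift (hR : RecentreStmt) (hSS : StripShiftStmt) {η : Arr} (hG : Good p n η)
    (l r : ℤ) : sInf ((strip p η).OS (Ici r) n) =
      DD η n l + sInf ((strip p (cshift l η)).OS (Ici (r - l)) n) := by
  rw [OS_cshift hR hSS]
  have h1 : {x : ℤ | x - l ∈ Ici (r - l)} = Ici r := by
    ext x
    simp
  rw [h1]
  obtain ⟨_, _, h2, h3⟩ := hG r
  have h4 : IsLeast {z | z + DD η n l ∈ (strip p η).OS (Ici r) n}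
      (sInf ((strip p η).OS (Ici r) n) - DD η n l) := by
    refine ⟨?_, ?_⟩
    · show sInf ((strip p η).OS (Ici r) n) - DD η n l + DD η n l ∈ (strip p η).OS (Ici r) n
      rw [sub_add_cancel]
      exact Int.csInf_mem h2 h3
    · intro z hz
      have := csInf_le h3 hz
      linarith
  rw [h4.csInf_eq]
  ring

/-- Width of the hull after `n` rows, both edges started from full half lines. -/
def XX (p : ℝ) (n : ℕ) (l r : ℤ) (η : Arr) : ℤ :=
  sSup ((strip p η).OS (Iic r) n) - sInf ((strip p η).OS (Ici l) n)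

theorem m_XX (l r : ℤ) : Measurable (XX p n l r) :=
  (m_sSup fun z => m_OS p (Iic r) n z).sub (m_sInf fun z => m_OS p (Ici l) n z)

theorem XX_shift (hR : RecentreStmt) (hSS : StripShiftStmt) {η : Arr} (hG : Good p n η)
    (l r : ℤ) : XX p n l r η = XX p n 0 (r - l) (cshift l η) := by
  unfold XX
  rw [sup_cshift hR hSS hG l r, inf_cshift hR hSS hG l l, sub_self]
  ring

theorem XX_mono {η : Arr} (hG : Good p n η) (l : ℤ) {r r' : ℤ} (h : r ≤ r') :
    XX p n l r η ≤ XX p n l r' η := by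
  unfold XX
  have := csSup_le_csSup (hG r').2.1 (hG r).1
    (OS_mono (strip p η) n (Iic_subset_Iic.2 h))
  linarith

theorem XX_eventually {η : Arr} (hG : Good p n η) (l : ℤ) :
    ∃ w₀ : ℕ, ∀ w : ℕ, w₀ ≤ w → 0 ≤ XX p n l w η := by
  obtain ⟨y, hy⟩ := (hG l).2.2.1
  obtain ⟨a, _, ha⟩ := (mem_OS_iff (strip p η)).1 hy
  refine ⟨a.toNat, fun w hw => ?_⟩
  have h1 : y ∈ (strip p η).OS (Iic w) n := by
    refine (mem_OS_iff (strip p η)).2 ⟨a, ?_, ha⟩
    show a ≤ (w : ℤ)
    omega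
  have h2 := le_csSup (hG w).2.1 h1
  have h3 := csInf_le (hG l).2.2.2 hy
  unfold XX
  linarith

/-! ### Expectations -/

section Exp

variable (hE : EdgeStmt) (hC : CshiftStmt) (hR : RecentreStmt) (hSS : StripShiftStmt)
  (hW : WidthMomStmt) (h0 : 0 < p) (h1 : p < 1)

include hE hC hR hSS hW h0 h1

theorem int_XX (w : ℤ) : Integrable (fun η => (XX p n 0 w η : ℝ)) (arrLaw (1 / 2)) := by
  have hP := arr_prob
  have hRR : Integrable (fun ω => (RR p n ω : ℝ)) (arrLaw (1 / 2)) :=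
    (hE p h0 h1 n).2.1.integrable (by norm_num)
  have hLL : Integrable (fun ω => (LL p n ω : ℝ)) (arrLaw (1 / 2)) :=
    (hE p h0 h1 n).2.2.1.integrable (by norm_num)
  have hD : Integrable (fun ω => ((DD ω n w : ℤ) : ℝ)) (arrLaw (1 / 2)) :=
    ((hW (1 / 2) (by norm_num) (by norm_num) n).1 w).1
  have h2 : Integrable (fun ω => (RR p n (cshift w ω) : ℝ)) (arrLaw (1 / 2)) :=
    (cshift_mp hC w).integrable_comp_of_integrable hRR
  refine ((hD.add h2).sub hLL).congr ?_
  filter_upwards [good_ae hE h0 h1 n] with η hG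
  have h3 := sup_cshift hR hSS hG w w
  rw [sub_self] at h3
  simp only [Pi.add_apply, Pi.sub_apply, XX, h3, RR, LL]
  push_cast
  ring

theorem exp_XX (w : ℤ) : ∫ η, (XX p n 0 w η : ℝ) ∂arrLaw (1 / 2) = w + kap p n := by
  have hP := arr_prob
  have hRR : Integrable (fun ω => (RR p n ω : ℝ)) (arrLaw (1 / 2)) :=
    (hE p h0 h1 n).2.1.integrable (by norm_num)
  have hLL : Integrable (fun ω => (LL p n ω : ℝ)) (arrLaw (1 / 2)) :=
    (hE p h0 h1 n).2.2.1.integrable (by norm_num)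
  have h2 := int_XX (n := n) hE hC hR hSS hW h0 h1 w
  have h3 : Integrable (fun η => ((sSup ((strip p η).OS (Iic w) n) : ℤ) : ℝ))
      (arrLaw (1 / 2)) := by
    refine (h2.add hLL).congr (Eventually.of_forall fun η => ?_)
    simp only [Pi.add_apply, XX, LL]
    push_cast
    ring
  have h4 := (hE p h0 h1 n).2.2.2.2.2.1 w
  have h5 : ∫ η, (XX p n 0 w η : ℝ) ∂arrLaw (1 / 2) =
      ∫ η, (((sSup ((strip p η).OS (Iic w) n) : ℤ) : ℝ) - (LL p n η : ℝ)) ∂arrLaw (1 / 2) := by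
    refine integral_congr_ae (Eventually.of_forall fun η => ?_)
    simp only [XX, LL]
    push_cast
    ring
  rw [h5, integral_sub h3 hLL, h4]
  unfold kap
  rw [integral_sub hRR hLL]
  ring

/-- Negative part. -/
theorem neg_tendsto : Tendsto (fun w : ℕ => ∫ η, max (-(XX p n 0 w η : ℝ)) 0 ∂arrLaw (1 / 2))
    atTop (𝓝 0) := by
  have hP := arr_prob
  have h2 : Tendsto (fun w : ℕ => ∫ η, max (-(XX p n 0 w η : ℝ)) 0 ∂arrLaw (1 / 2))
      atTop (𝓝 (∫ _, (0 : ℝ) ∂arrLaw (1 / 2))) := by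
    refine tendsto_integral_of_dominated_convergence
      (fun η => max (-(XX p n 0 0 η : ℝ)) 0) (fun w => ?_) ?_ (fun w => ?_) ?_
    · exact (((measurable_of_countable (fun z : ℤ => (z : ℝ))).comp
        (m_XX 0 (w : ℤ))).neg.max measurable_const).aestronglyMeasurable
    · exact (int_XX hE hC hR hSS hW h0 h1 0).neg.sup (integrable_const 0)
    · filter_upwards [good_ae hE h0 h1 n] with η hG
      rw [Real.norm_eq_abs, abs_of_nonneg (le_max_right _ _)]
      have : (XX p n 0 0 η : ℝ) ≤ XX p n 0 w η := by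
        exact_mod_cast XX_mono hG 0 (Int.natCast_nonneg w)
      exact max_le_max (by linarith) le_rfl
    · filter_upwards [good_ae hE h0 h1 n] with η hG
      obtain ⟨w₀, hw⟩ := XX_eventually hG 0
      refine tendsto_const_nhds.congr' ?_
      filter_upwards [eventually_ge_atTop w₀] with w h3
      have : (0 : ℝ) ≤ XX p n 0 w η := by exact_mod_cast hw w h3
      rw [max_eq_right (by linarith)]
  simpa using h2

theorem exists_B {c : ℝ} (hc : 0 < c) : ∃ B : ℝ, 0 ≤ B ∧ ∀ w : ℕ,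
    ∫ η, max (-(XX p n 0 w η : ℝ)) 0 ∂arrLaw (1 / 2) ≤
      c + B * (arrLaw (1 / 2)).real {η | XX p n 0 w η < 0} := by
  have hP := arr_prob
  have ht := (neg_tendsto (n := n) hE hC hR hSS hW h0 h1).eventually_lt_const hc
  obtain ⟨w₀, hw₀⟩ := eventually_atTop.1 ht
  set f : ℕ → ℝ := fun w => ∫ η, max (-(XX p n 0 w η : ℝ)) 0 ∂arrLaw (1 / 2) with hf
  set q : ℕ → ℝ := fun w => (arrLaw (1 / 2)).real {η | XX p n 0 w η < 0} with hq
  have hf0 : ∀ w, 0 ≤ f w := fun w => integral_nonneg fun η => le_max_right _ _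
  have hq0 : ∀ w, 0 ≤ q w := fun w => measureReal_nonneg
  refine ⟨∑ w ∈ Finset.range w₀, f w / q w, Finset.sum_nonneg fun w _ =>
    div_nonneg (hf0 w) (hq0 w), fun w => ?_⟩
  show f w ≤ c + (∑ w ∈ Finset.range w₀, f w / q w) * q w
  have hB : 0 ≤ (∑ w ∈ Finset.range w₀, f w / q w) * q w :=
    mul_nonneg (Finset.sum_nonneg fun w _ => div_nonneg (hf0 w) (hq0 w)) (hq0 w)
  rcases lt_or_ge w w₀ with hw | hw
  · rcases (hq0 w).eq_or_lt with h3 | h3
    · have h4 : f w = 0 := by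
        have h5 : (arrLaw (1 / 2)) {η | XX p n 0 w η < 0} = 0 :=
          (measureReal_eq_zero_iff).1 h3.symm
        have h6 : (fun η => max (-(XX p n 0 w η : ℝ)) 0) =ᵐ[arrLaw (1 / 2)] 0 := by
          have h7 : ∀ᵐ η ∂arrLaw (1 / 2), ¬ XX p n 0 w η < 0 := by
            rw [ae_iff]
            simpa using h5
          filter_upwards [h7] with η h8
          have : (0 : ℝ) ≤ XX p n 0 w η := by exact_mod_cast not_lt.1 h8
          exact max_eq_right (by linarith)
        show ∫ η, max (-(XX p n 0 w η : ℝ)) 0 ∂arrLaw (1 / 2) = 0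
        rw [integral_congr_ae h6]
        simp
      rw [h4]
      linarith
    · have h4 : f w / q w ≤ ∑ w ∈ Finset.range w₀, f w / q w :=
        Finset.single_le_sum (f := fun w => f w / q w)
          (fun w _ => div_nonneg (hf0 w) (hq0 w)) (Finset.mem_range.2 hw)
      have h5 := mul_le_mul_of_nonneg_right h4 h3.le
      rw [div_mul_cancel₀ _ h3.ne'] at h5
      linarith
  · have := hw₀ w hw
    show f w ≤ _
    have h6 : f w < c := this
    linarith

theorem main_ineq {c B : ℝ} (hk : kap p n = -(2 * c)) (w : ℕ)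
    (hB : ∫ η, max (-(XX p n 0 w η : ℝ)) 0 ∂arrLaw (1 / 2) ≤
      c + B * (arrLaw (1 / 2)).real {η | XX p n 0 w η < 0}) :
    Integrable (fun η => if 0 ≤ XX p n 0 w η then (XX p n 0 w η : ℝ) + B else 0)
      (arrLaw (1 / 2)) ∧
    ∫ η, (if 0 ≤ XX p n 0 w η then (XX p n 0 w η : ℝ) + B else 0) ∂arrLaw (1 / 2) + c ≤
      w + B := by
  have hP := arr_prob
  have hX := int_XX (n := n) hE hC hR hSS hW h0 h1 (w : ℤ)
  have hm : Integrable (fun η => max (-(XX p n 0 w η : ℝ)) 0) (arrLaw (1 / 2)) :=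
    hX.neg.sup (integrable_const 0)
  have hs : MeasurableSet {η | XX p n 0 (w : ℤ) η < 0} :=
    measurableSet_lt (m_XX 0 (w : ℤ)) measurable_const
  have hi : Integrable (fun η => B * {η | XX p n 0 (w : ℤ) η < 0}.indicator (1 : Arr → ℝ) η)
      (arrLaw (1 / 2)) := ((integrable_const (1 : ℝ)).indicator hs).const_mul B
  have e1 : (fun η => if 0 ≤ XX p n 0 w η then (XX p n 0 w η : ℝ) + B else 0) =
      fun η => ((XX p n 0 w η : ℝ) + B) + max (-(XX p n 0 w η : ℝ)) 0 -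
        B * {η | XX p n 0 (w : ℤ) η < 0}.indicator (1 : Arr → ℝ) η := by
    funext η
    by_cases h : 0 ≤ XX p n 0 w η
    · have h2 : (0 : ℝ) ≤ XX p n 0 w η := by exact_mod_cast h
      rw [if_pos h, max_eq_right (by linarith), indicator_of_notMem (by simpa using h)]
      ring
    · have h2 : (XX p n 0 w η : ℝ) < 0 := by exact_mod_cast not_le.1 h
      rw [if_neg h, max_eq_left (by linarith), indicator_of_mem (by simpa using h)]
      simp
  have hXB : Integrable (fun η => (XX p n 0 w η : ℝ) + B) (arrLaw (1 / 2)) :=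
    hX.add (integrable_const B)
  have hXm : Integrable (fun η => ((XX p n 0 w η : ℝ) + B) + max (-(XX p n 0 w η : ℝ)) 0)
      (arrLaw (1 / 2)) := hXB.add hm
  rw [e1]
  refine ⟨hXm.sub hi, ?_⟩
  have e2 : ∫ η, (((XX p n 0 w η : ℝ) + B) + max (-(XX p n 0 w η : ℝ)) 0 -
        B * {η | XX p n 0 (w : ℤ) η < 0}.indicator (1 : Arr → ℝ) η) ∂arrLaw (1 / 2) =
      (w + kap p n + B) + ∫ η, max (-(XX p n 0 w η : ℝ)) 0 ∂arrLaw (1 / 2) -
        B * (arrLaw (1 / 2)).real {η | XX p n 0 w η < 0} := by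
    rw [integral_sub hXm hi, integral_add hXB hm, integral_add hX (integrable_const B),
      exp_XX hE hC hR hSS hW h0 h1, integral_const_mul, integral_indicator_one hs,
      integral_const, probReal_univ, one_smul, Int.cast_natCast]
  rw [e2, hk]
  linarith

end Exp

/-! ### The process -/

def HH (p : ℝ) (n : ℕ) (B : ℝ) (l r : ℤ) (η : Arr) : ENNReal :=
  ENNReal.ofReal (if 0 ≤ XX p n l r η then (XX p n l r η : ℝ) + B else 0)

theorem m_HH (B : ℝ) (l r : ℤ) : Measurable (HH p n B l r) :=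
  (measurable_of_countable (fun z : ℤ => ENNReal.ofReal (if 0 ≤ z then (z : ℝ) + B else 0))).comp
    (m_XX l r)

/-- Hull width plus `B`, on nonempty sets. -/
def gw (B : ℝ) (A : Set ℤ) : ENNReal :=
  open Classical in if A.Nonempty then ENNReal.ofReal (((sSup A - sInf A : ℤ) : ℝ) + B) else 0

def AA (p : ℝ) (n z j : ℕ) (ω : Arr) : Set ℤ := (strip p ω).OS (Ico 0 (z : ℤ)) (j * n)

theorem m_AA (z j : ℕ) : MI (AA p n z j) := fun y => m_OS p _ _ y

theorem m_gw (B : ℝ) (z j : ℕ) : Measurable fun ω => gw B (AA p n z j ω) := by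
  unfold gw
  refine Measurable.ite (measurableSet_setOfPred.2 (m_nonempty (m_AA z j))) ?_ measurable_const
  exact (measurable_of_countable (fun k : ℤ => ENNReal.ofReal ((k : ℝ) + B))).comp
    ((m_sSup (m_AA z j)).sub (m_sInf (m_AA z j)))

theorem AA_succ (hSS : StripShiftStmt) (z j : ℕ) (ω : Arr) :
    AA p n z (j + 1) ω = (strip p (post (j * n) ω)).OS (AA p n z j ω) n := by
  unfold AA
  rw [Nat.succ_mul, OS_shift, hSS.2.1]

theorem AA_bdd {z j : ℕ} {ω : Arr} (hG : Good p (j * n) ω) :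
    BddAbove (AA p n z j ω) ∧ BddBelow (AA p n z j ω) :=
  ⟨(hG z).2.1.mono (OS_mono _ _ fun _ hx => hx.2.le), (hG 0).2.2.2.mono
    (OS_mono _ _ fun _ hx => hx.1)⟩

theorem step_pt (hSS : StripShiftStmt) {B : ℝ} {z j : ℕ} {ω : Arr}
    (hG : Good p (j * n) ω) (hG' : Good p n (post (j * n) ω)) :
    open Classical in gw B (AA p n z (j + 1) ω) ≤ if (AA p n z j ω).Nonempty then
      HH p n B (sInf (AA p n z j ω)) (sSup (AA p n z j ω)) (post (j * n) ω) else 0 := by
  classical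
  unfold gw
  split_ifs with h1 h2 h2
  · set A := AA p n z j ω with hA
    set η := post (j * n) ω with hη
    rw [AA_succ hSS] at h1 ⊢
    rw [← hA, ← hη] at h1 ⊢
    obtain ⟨hb1, hb2⟩ := AA_bdd (n := n) (z := z) hG
    rw [← hA] at hb1 hb2
    have hr : (strip p η).OS A n ⊆ (strip p η).OS (Iic (sSup A)) n :=
      OS_mono _ _ fun x hx => le_csSup hb1 hx
    have hl : (strip p η).OS A n ⊆ (strip p η).OS (Ici (sInf A)) n :=
      OS_mono _ _ fun x hx => csInf_le hb2 hx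
    have h3 := csSup_le_csSup (hG' (sSup A)).2.1 h1 hr
    have h4 := csInf_le_csInf (hG' (sInf A)).2.2.2 h1 hl
    have h5 : sInf ((strip p η).OS A n) ≤ sSup ((strip p η).OS A n) :=
      csInf_le_csSup h1 ((hG' (sInf A)).2.2.2.mono hl) ((hG' (sSup A)).2.1.mono hr)
    have h6 : sSup ((strip p η).OS A n) - sInf ((strip p η).OS A n) ≤
        XX p n (sInf A) (sSup A) η := by
      unfold XX
      linarith
    have h7 : 0 ≤ XX p n (sInf A) (sSup A) η := by linarith
    unfold HH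
    rw [if_pos h7]
    refine ENNReal.ofReal_le_ofReal ?_
    have h8 : ((sSup ((strip p η).OS A n) - sInf ((strip p η).OS A n) : ℤ) : ℝ) ≤
        XX p n (sInf A) (sSup A) η := by exact_mod_cast h6
    linarith
  · exfalso
    rw [AA_succ hSS, not_nonempty_iff_eq_empty.1 h2, OS_empty] at h1
    exact not_nonempty_empty h1
  · exact bot_le
  · exact le_rfl

section Main

variable (hE : EdgeStmt) (hC : CshiftStmt) (hR : RecentreStmt) (hSS : StripShiftStmt)
  (hW : WidthMomStmt) (h0 : 0 < p) (h1 : p < 1)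

include hE hC hR hSS hW h0 h1

theorem HH_int {c B : ℝ} (hc : 0 ≤ c) (hk : kap p n = -(2 * c)) (hB0 : 0 ≤ B)
    (hB : ∀ w : ℕ, ∫ η, max (-(XX p n 0 w η : ℝ)) 0 ∂arrLaw (1 / 2) ≤
      c + B * (arrLaw (1 / 2)).real {η | XX p n 0 w η < 0}) {l r : ℤ} (hlr : l ≤ r) :
    ∫⁻ η, HH p n B l r η ∂arrLaw (1 / 2) + ENNReal.ofReal c ≤
      ENNReal.ofReal (((r - l : ℤ) : ℝ) + B) := by
  have e1 : ∫⁻ η, HH p n B l r η ∂arrLaw (1 / 2) =
      ∫⁻ η, HH p n B 0 (r - l) η ∂arrLaw (1 / 2) := by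
    rw [← (cshift_mp hC l).lintegral_comp (m_HH B 0 (r - l))]
    refine lintegral_congr_ae ?_
    filter_upwards [good_ae hE h0 h1 n] with η hG
    unfold HH
    rw [XX_shift hR hSS hG l r]
  rw [e1]
  obtain ⟨w, hw⟩ := Int.le.dest hlr
  have hw' : r - l = w := by omega
  rw [hw']
  obtain ⟨h2, h3⟩ := main_ineq (n := n) (c := c) (B := B) hE hC hR hSS hW h0 h1 hk w (hB w)
  have hnn : 0 ≤ᵐ[arrLaw (1 / 2)] fun η =>
      if 0 ≤ XX p n 0 (w : ℤ) η then (XX p n 0 (w : ℤ) η : ℝ) + B else 0 := by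
    refine Eventually.of_forall fun η => ?_
    show 0 ≤ if 0 ≤ XX p n 0 (w : ℤ) η then (XX p n 0 (w : ℤ) η : ℝ) + B else 0
    split_ifs with h
    · have : (0 : ℝ) ≤ XX p n 0 (w : ℤ) η := by exact_mod_cast h
      linarith
    · exact le_rfl
  unfold HH
  rw [← ofReal_integral_eq_lintegral_ofReal h2 hnn,
    ← ENNReal.ofReal_add (integral_nonneg_of_ae hnn) hc]
  refine ENNReal.ofReal_le_ofReal ?_
  push_cast
  exact h3

variable (hS : SplitStmt) (hCD : ColDepStmt)

include hS hCD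

theorem step_ineq {c B : ℝ} (hc : 0 ≤ c) (hk : kap p n = -(2 * c)) (hB0 : 0 ≤ B)
    (hB : ∀ w : ℕ, ∫ η, max (-(XX p n 0 w η : ℝ)) 0 ∂arrLaw (1 / 2) ≤
      c + B * (arrLaw (1 / 2)).real {η | XX p n 0 w η < 0}) (z j : ℕ) :
    ∫⁻ ω, gw B (AA p n z (j + 1) ω) ∂arrLaw (1 / 2) +
      ENNReal.ofReal c * arrLaw (1 / 2) {ω | (AA p n z j ω).Nonempty} ≤
      ∫⁻ ω, gw B (AA p n z j ω) ∂arrLaw (1 / 2) := by
  classical
  have hP := arr_prob
  set F : Arr → Arr → ENNReal := fun ω η => if (AA p n z j ω).Nonempty then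
      HH p n B (sInf (AA p n z j ω)) (sSup (AA p n z j ω)) η else 0 with hF
  have hne : MeasurableSet {ω | (AA p n z j ω).Nonempty} :=
    measurableSet_setOfPred.2 (m_nonempty (m_AA z j))
  have hFm : Measurable (Function.uncurry F) := by
    have e : Function.uncurry F = fun q : Arr × Arr => if (AA p n z j q.1).Nonempty then
      HH p n B (sInf (AA p n z j q.1)) (sSup (AA p n z j q.1)) q.2 else 0 := rfl
    rw [e]
    refine Measurable.ite (measurable_fst hne) ?_ measurable_const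
    refine comp_int (f := fun l (q : Arr × Arr) => HH p n B l (sSup (AA p n z j q.1)) q.2)
      (fun l => ?_) ((m_sInf (m_AA z j)).comp measurable_fst)
    exact comp_int (f := fun r (q : Arr × Arr) => HH p n B l r q.2)
      (fun r => (m_HH B l r).comp measurable_snd) ((m_sSup (m_AA z j)).comp measurable_fst)
  have hdep : ∀ ω ω' η : Arr, (∀ t < j * n, ω t = ω' t) → F ω η = F ω' η := by
    intro ω ω' η h
    have h2 : AA p n z j ω = AA p n z j ω' := by
      ext y
      have h3 := (hCD p (j * n) 0 le_rfl).2.2.2.2.2.2.2.2.2.1 (Ico 0 (z : ℤ)) y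
      exact ⟨fun h4 => h3 ω ω' h h4, fun h4 => h3 ω' ω (fun t ht => (h t ht).symm) h4⟩
    simp only [hF, h2]
  have h2 : ∫⁻ ω, gw B (AA p n z (j + 1) ω) ∂arrLaw (1 / 2) ≤
      ∫⁻ ω, ∫⁻ η, F ω η ∂arrLaw (1 / 2) ∂arrLaw (1 / 2) := by
    rw [← hS (1 / 2) (by norm_num) (by norm_num) (j * n) F hFm hdep]
    refine lintegral_mono_ae ?_
    filter_upwards [good_ae hE h0 h1 (j * n), good_post_ae hE hS h0 h1 n (j * n)] with ω hG hG'
    exact step_pt hSS hG hG'
  have h3 : ENNReal.ofReal c * arrLaw (1 / 2) {ω | (AA p n z j ω).Nonempty} =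
      ∫⁻ ω, {ω | (AA p n z j ω).Nonempty}.indicator (fun _ => ENNReal.ofReal c) ω
        ∂arrLaw (1 / 2) := by
    rw [lintegral_indicator_const hne]
  rw [h3]
  refine (add_le_add_left h2 _).trans ?_
  rw [← lintegral_add_right _ (measurable_const.indicator hne)]
  refine lintegral_mono_ae ?_
  filter_upwards [good_ae hE h0 h1 (j * n)] with ω hG
  by_cases h4 : (AA p n z j ω).Nonempty
  · have hm : ω ∈ {ω | (AA p n z j ω).Nonempty} := h4
    rw [indicator_of_mem hm]
    simp only [hF, if_pos h4, gw]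
    obtain ⟨hb1, hb2⟩ := AA_bdd (n := n) (z := z) hG
    exact HH_int hE hC hR hSS hW h0 h1 hc hk hB0 hB (csInf_le_csSup h4 hb2 hb1)
  · have hm : ω ∉ {ω | (AA p n z j ω).Nonempty} := h4
    rw [indicator_of_notMem hm]
    simp only [hF, if_neg h4, gw]
    simp

theorem sum_ineq {c B : ℝ} (hc : 0 ≤ c) (hk : kap p n = -(2 * c)) (hB0 : 0 ≤ B)
    (hB : ∀ w : ℕ, ∫ η, max (-(XX p n 0 w η : ℝ)) 0 ∂arrLaw (1 / 2) ≤
      c + B * (arrLaw (1 / 2)).real {η | XX p n 0 w η < 0}) (z K : ℕ) :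
    ∫⁻ ω, gw B (AA p n z K ω) ∂arrLaw (1 / 2) +
      ENNReal.ofReal c * ∑ j ∈ Finset.range K,
        arrLaw (1 / 2) {ω | (AA p n z j ω).Nonempty} ≤
      ∫⁻ ω, gw B (AA p n z 0 ω) ∂arrLaw (1 / 2) := by
  induction K with
  | zero => simp
  | succ K ih =>
    have h2 := step_ineq hE hC hR hSS hW h0 h1 hS hCD hc hk hB0 hB z K
    rw [Finset.sum_range_succ, mul_add, add_comm (ENNReal.ofReal c * _) _, ← add_assoc]
    exact (add_le_add_left h2 _).trans ih

end Main

theorem gw_zero {B : ℝ} {z : ℕ} (hz : 1 ≤ z) (ω : Arr) :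
    gw B (AA p n z 0 ω) = ENNReal.ofReal ((z : ℝ) - 1 + B) := by
  have h1 : AA p n z 0 ω = Ico 0 (z : ℤ) := by
    unfold AA
    rw [zero_mul]
    rfl
  have hne : (Ico 0 (z : ℤ)).Nonempty := ⟨0, by simp; omega⟩
  have h2 : IsGreatest (Ico 0 (z : ℤ)) (z - 1) := by
    refine ⟨⟨by omega, by omega⟩, fun x hx => ?_⟩
    have := hx.2
    omega
  have h3 : IsLeast (Ico 0 (z : ℤ)) 0 := ⟨⟨le_rfl, by omega⟩, fun x hx => hx.1⟩
  unfold gw
  rw [h1, if_pos hne, h2.csSup_eq, h3.csInf_eq]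
  push_cast
  ring_nf

theorem SS_tendsto (hE : EdgeStmt) (h0 : 0 < p) (h1 : p < 1) (j : ℕ) :
    Tendsto (fun z : ℕ => arrLaw (1 / 2) {ω | (AA p n z j ω).Nonempty}) atTop (𝓝 1) := by
  have hP := arr_prob
  have hmono : Monotone fun z : ℕ => {ω | (AA p n z j ω).Nonempty} := by
    intro z z' h ω hω
    exact hω.mono (OS_mono _ _ (Ico_subset_Ico_right (by exact_mod_cast h)))
  have h2 := tendsto_measure_iUnion_atTop (μ := arrLaw (1 / 2)) hmono
  have h3 : arrLaw (1 / 2) (⋃ z : ℕ, {ω | (AA p n z j ω).Nonempty}) = 1 := by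
    refine (mem_ae_iff_prob_eq_one (MeasurableSet.iUnion fun z =>
      measurableSet_setOfPred.2 (m_nonempty (m_AA z j)))).1 ?_
    filter_upwards [good_ae hE h0 h1 (j * n)] with ω hG
    obtain ⟨y, hy⟩ := (hG 0).2.2.1
    obtain ⟨a, ha, hy'⟩ := (mem_OS_iff _).1 hy
    refine mem_iUnion.2 ⟨a.toNat + 1, y, (mem_OS_iff _).2 ⟨a, ⟨ha, ?_⟩, hy'⟩⟩
    push_cast
    have : a ≤ a.toNat := Int.self_le_toNat a
    omega
  rw [h3] at h2
  exact h2

theorem cov_le {B : ℝ} (hB0 : 0 ≤ B) {z : ℕ} (hz : 1 ≤ z) {A : Set ℤ} (h1 : BddAbove A)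
    (h2 : BddBelow A) :
    open Classical in (cov z A : ENNReal) ≤ (z : ENNReal)⁻¹ * gw B A +
      (if A.Nonempty then 1 else 0) := by
  classical
  unfold cov gw
  split_ifs with hne
  · have hw : 0 ≤ sSup A - sInf A := sub_nonneg.2 (csInf_le_csSup hne h2 h1)
    set w := sSup A - sInf A with hwd
    have hz0 : (0 : ℝ) < z := by exact_mod_cast hz
    have h3 : ((w.toNat / z : ℕ) : ℝ) ≤ (z : ℝ)⁻¹ * ((w : ℝ) + B) := by
      refine Nat.cast_div_le.trans ?_
      have h4 : ((w.toNat : ℕ) : ℝ) = (w : ℝ) := by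
        exact_mod_cast congrArg (fun k : ℤ => (k : ℝ)) (Int.toNat_of_nonneg hw)
      rw [h4, div_eq_inv_mul]
      have : (0 : ℝ) ≤ (z : ℝ)⁻¹ := by positivity
      nlinarith
    push_cast
    refine add_le_add ?_ le_rfl
    rw [← ENNReal.ofReal_natCast (w.toNat / z)]
    refine (ENNReal.ofReal_le_ofReal h3).trans ?_
    rw [ENNReal.ofReal_mul (by positivity), ENNReal.ofReal_inv_of_pos hz0,
      ENNReal.ofReal_natCast]
  · simp

end FC

open FC MeasAux

theorem finiteCrit (hE : EdgeStmt) (hC : CshiftStmt) (hR : RecentreStmt)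
    (hSS : StripShiftStmt) (hW : WidthMomStmt) (hS : SplitStmt) (hCD : ColDepStmt) :
    FiniteCritStmt := by
  classical
  intro p h0 h1 n hn hk
  have hP := arr_prob
  set c : ℝ := -(kap p n) / 2 with hc
  have hc0 : 0 < c := by rw [hc]; linarith
  have hkc : kap p n = -(2 * c) := by rw [hc]; ring
  obtain ⟨B, hB0, hB⟩ := exists_B (n := n) hE hC hR hSS hW h0 h1 hc0
  obtain ⟨J, hJ⟩ := exists_nat_gt (4 * B / c)
  have hJ' : 4 * B < J * c := by rwa [div_lt_iff₀ hc0] at hJ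
  have hz : ∀ᶠ z : ℕ in atTop, ∀ j ∈ Finset.range J,
      (1 / 2 : ENNReal) < arrLaw (1 / 2) {ω | (AA p n z j ω).Nonempty} := by
    rw [Finset.eventually_all]
    intro j _
    exact (SS_tendsto hE h0 h1 j).eventually_const_lt (by
      rw [one_div]
      exact ENNReal.inv_lt_one.2 (by norm_num))
  obtain ⟨z, hz1, hz2⟩ := (hz.and (eventually_ge_atTop 1)).exists
  obtain ⟨K₀, hK₀⟩ := exists_nat_ge (2 * z / c)
  set K := K₀ + J + 1 with hK
  have hKc : 2 * (z : ℝ) ≤ K * c := by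
    rw [div_le_iff₀ hc0] at hK₀
    have : (K₀ : ℝ) ≤ K := by
      rw [hK]
      push_cast
      linarith [Nat.cast_nonneg (α := ℝ) J]
    nlinarith
  refine ⟨z, K * n, hz2, Nat.mul_pos (by omega) hn, ?_⟩
  have hsum := sum_ineq hE hC hR hSS hW h0 h1 hS hCD hc0.le hkc hB0 hB z K
  rw [lintegral_congr (gw_zero hz2), lintegral_const, measure_univ, mul_one] at hsum
  set U := ∫⁻ ω, gw B (AA p n z K ω) ∂arrLaw (1 / 2) with hU
  have hUt : U ≠ ⊤ := ne_top_of_le_ne_top ENNReal.ofReal_ne_top (le_self_add.trans hsum)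
  set s : ℕ → ℝ := fun j => (arrLaw (1 / 2)).real {ω | (AA p n z j ω).Nonempty} with hs
  have hzr : (1 : ℝ) ≤ z := by exact_mod_cast hz2
  have hreal : U.toReal + c * ∑ j ∈ Finset.range K, s j ≤ z - 1 + B := by
    have h2 := ENNReal.toReal_mono ENNReal.ofReal_ne_top hsum
    rw [ENNReal.toReal_ofReal (by linarith), ENNReal.toReal_add hUt, ENNReal.toReal_mul,
      ENNReal.toReal_ofReal hc0.le, ENNReal.toReal_sum (fun j _ => measure_ne_top _ _)] at h2
    · exact h2
    · exact ENNReal.mul_ne_top ENNReal.ofReal_ne_top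
        (ENNReal.sum_ne_top.2 fun j _ => measure_ne_top _ _)
  -- monotonicity of `s`
  have hsa : Antitone s := by
    refine antitone_nat_of_succ_le fun j => ?_
    refine measureReal_mono ?_ (measure_ne_top _ _)
    intro ω hω
    by_contra h3
    have h4 : AA p n z j ω = ∅ := not_nonempty_iff_eq_empty.1 h3
    have h5 : (AA p n z (j + 1) ω).Nonempty := hω
    rw [AA_succ hSS, h4, OS_empty] at h5
    exact not_nonempty_empty h5
  have hs0 : ∀ j, 0 ≤ s j := fun j => measureReal_nonneg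
  have hs1 : (K : ℝ) * s K ≤ ∑ j ∈ Finset.range K, s j := by
    have h2 := Finset.card_nsmul_le_sum (Finset.range K) s (s K)
      (fun j hj => hsa (Finset.mem_range.1 hj).le)
    rwa [Finset.card_range, nsmul_eq_mul] at h2
  have hs2 : (J : ℝ) * (1 / 2) ≤ ∑ j ∈ Finset.range K, s j := by
    have h2 := Finset.card_nsmul_le_sum (Finset.range J) s (1 / 2) (fun j hj => by
      have h3 := (ENNReal.toReal_lt_toReal (by simp) (measure_ne_top _ _)).2 (hz1 j hj)
      have h4 : ((1 / 2 : ENNReal)).toReal = 1 / 2 := by simp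
      rw [h4] at h3
      exact h3.le)
    rw [Finset.card_range, nsmul_eq_mul] at h2
    exact h2.trans (Finset.sum_le_sum_of_subset_of_nonneg
      (Finset.range_subset_range.2 (by omega)) fun j _ _ => hs0 j)
  -- the bound
  have hcov : covE (1 / 2) p z (K * n) ≤ (z : ENNReal)⁻¹ * U +
      arrLaw (1 / 2) {ω | (AA p n z K ω).Nonempty} := by
    have hne : MeasurableSet {ω | (AA p n z K ω).Nonempty} :=
      measurableSet_setOfPred.2 (m_nonempty (m_AA z K))
    rw [hU, ← lintegral_const_mul _ (m_gw B z K), ← lintegral_indicator_one hne,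
      ← lintegral_add_right _ (measurable_one.indicator hne)]
    unfold covE
    refine lintegral_mono_ae ?_
    filter_upwards [good_ae hE h0 h1 (K * n)] with ω hG
    obtain ⟨hb1, hb2⟩ := AA_bdd (n := n) (z := z) hG
    refine (cov_le hB0 hz2 hb1 hb2).trans ?_
    refine add_le_add le_rfl ?_
    by_cases h3 : (AA p n z K ω).Nonempty
    · rw [if_pos h3, indicator_of_mem (show ω ∈ {ω | (AA p n z K ω).Nonempty} from h3)]
      simp
    · rw [if_neg h3]
      exact bot_le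
  refine hcov.trans_lt ?_
  have e1 : (z : ENNReal)⁻¹ * U + arrLaw (1 / 2) {ω | (AA p n z K ω).Nonempty} =
      ENNReal.ofReal ((z : ℝ)⁻¹ * U.toReal + s K) := by
    rw [ENNReal.ofReal_add (by positivity) (hs0 K), ENNReal.ofReal_mul (by positivity),
      ENNReal.ofReal_toReal hUt, ENNReal.ofReal_inv_of_pos (by linarith),
      ENNReal.ofReal_natCast, ofReal_measureReal]
  rw [e1, ENNReal.ofReal_lt_one]
  have hz0 : (0 : ℝ) < z := by linarith
  have h5 : (z : ℝ) * s K ≤ c / 2 * ∑ j ∈ Finset.range K, s j := by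
    have h6 : (z : ℝ) * s K ≤ (K * c / 2) * s K :=
      mul_le_mul_of_nonneg_right (by linarith) (hs0 K)
    nlinarith
  have h7 : U.toReal + z * s K < z := by nlinarith
  have h8 : (z : ℝ)⁻¹ * U.toReal + s K = (U.toReal + z * s K) / z := by
    field_simp
  rw [h8, div_lt_one hz0]
  exact h7

end CausalPerc.Neg
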