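import Pool.Agent.Lib.MP_a51368_pr.Neg.Spec2
import Pool.Agent.Lib.MP_a51368_pr.Neg.Adapted
import Pool.Agent.Lib.MP_a51368_pr.Neg.FiniteCrit

/-!
# Module P12: the finite criterion implies extinction of the oriented process
-/

open MeasureTheory ProbabilityTheory Set Filter Topology

noncomputable section

namespace CausalPerc.Neg

namespace CEx

open MeasAux IndepAux FC

/-- Data with an open horizontal edge. -/
def opn (p : ℝ) : Set Nd := {d | ((d.2 0 : unitInterval) : ℝ) ≤ p}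

theorem meas_opn (p : ℝ) : MeasurableSet (opn p) :=
  measurableSet_le (measurable_subtype_coe.comp ((measurable_pi_apply 0).comp measurable_snd))
    measurable_const

theorem opn_lt {α p : ℝ} (h0 : 0 ≤ α) (h1 : α < 1) (hp : p < 1) : ndLaw α (opn p) < 1 := by
  have := geo_prob h0 h1
  have h2 : opn p = univ ×ˢ {g : ℕ → unitInterval | ((g 0 : unitInterval) : ℝ) ≤ p} := by
    ext d
    simp [opn]
  unfold ndLaw
  rw [h2, Measure.prod_prod, measure_univ, one_mul]
  have h3 : MeasurableSet {x : unitInterval | (x : ℝ) ≤ p} :=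
    measurableSet_le measurable_subtype_coe measurable_const
  have h4 : (Measure.infinitePi fun _ : ℕ => (volume : Measure unitInterval))
      {g : ℕ → unitInterval | ((g 0 : unitInterval) : ℝ) ≤ p} =
      volume {x : unitInterval | (x : ℝ) ≤ p} := by
    have h5 := Measure.infinitePi_map_eval (fun _ : ℕ => (volume : Measure unitInterval)) 0
    rw [← h5, Measure.map_apply (measurable_pi_apply 0) h3, h5]
    rfl
  rw [h4]
  rcases lt_or_ge p 0 with h | h
  · have h5 : {x : unitInterval | (x : ℝ) ≤ p} = ∅ := by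
      ext x
      have := x.2.1
      simp only [mem_ofPred_eq, mem_empty_iff_false, iff_false, not_le]
      linarith
    rw [h5, measure_empty]
    exact zero_lt_one
  · have h5 : {x : unitInterval | (x : ℝ) ≤ p} = Iic ⟨p, h, hp.le⟩ := by
      ext x
      rfl
    rw [h5, unitInterval.volume_Iic]
    simpa using hp

/-- Almost surely there are closed horizontal edges arbitrarily far. -/
theorem row_closed {α p : ℝ} (h0 : 0 ≤ α) (h1 : α < 1) (hp : p < 1) {σ : ℕ → ℤ}
    (hσ : Function.Injective σ) : rowLaw α {r | ∀ i, r (σ i) ∈ opn p} = 0 := by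
  classical
  have := Adapted.nd_prob h0 h1
  have h2 : ∀ K : ℕ, rowLaw α {r | ∀ i, r (σ i) ∈ opn p} ≤ ndLaw α (opn p) ^ K := by
    intro K
    have h3 : rowLaw α (Set.pi ((Finset.range K).image σ : Finset ℤ) fun _ => opn p) =
        ∏ _i ∈ (Finset.range K).image σ, ndLaw α (opn p) := by
      unfold rowLaw
      exact Measure.infinitePi_pi (fun _ : ℤ => ndLaw α) fun _ _ => meas_opn p
    rw [Finset.prod_const, Finset.card_image_of_injective _ hσ, Finset.card_range] at h3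
    rw [← h3]
    refine measure_mono fun r hr => ?_
    intro x hx
    rw [Finset.mem_coe, Finset.mem_image] at hx
    obtain ⟨i, _, rfl⟩ := hx
    exact hr i
  have h3 := ENNReal.tendsto_pow_atTop_nhds_zero_of_lt_one (opn_lt h0 h1 hp)
  exact le_antisymm (ge_of_tendsto' h3 h2) bot_le

theorem closed_ae {α p : ℝ} (h0 : 0 ≤ α) (h1 : α < 1) (hp : p < 1) :
    ∀ᵐ ω ∂arrLaw α, ∀ (t : ℕ) (b : ℤ),
      (∃ x, b ≤ x ∧ ¬ (strip p ω).ho t x) ∧ (∃ x, x ≤ b ∧ ¬ (strip p ω).ho t x) := by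
  have := Adapted.row_prob h0 h1
  rw [ae_all_iff]
  intro t
  rw [ae_all_iff]
  intro b
  have key : ∀ σ : ℕ → ℤ, Function.Injective σ →
      ∀ᵐ ω ∂arrLaw α, ∃ i, ¬ (strip p ω).ho t (σ i) := by
    intro σ hσ
    have h2 : arrLaw α {ω | ω t ∈ {r : Row | ∀ i, r (σ i) ∈ opn p}} = 0 := by
      have h3 := Measure.infinitePi_map_eval (fun _ : ℕ => rowLaw α) t
      have h4 : MeasurableSet {r : Row | ∀ i, r (σ i) ∈ opn p} := by
        have : {r : Row | ∀ i, r (σ i) ∈ opn p} = ⋂ i, (fun r : Row => r (σ i)) ⁻¹' opn p := by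
          ext r
          simp
        rw [this]
        exact MeasurableSet.iInter fun i => measurable_pi_apply _ (meas_opn p)
      have h5 := row_closed h0 h1 hp hσ
      rw [← h3, Measure.map_apply (measurable_pi_apply t) h4] at h5
      exact h5
    rw [ae_iff]
    convert h2 using 2
    ext ω
    simp only [not_exists, not_not, mem_ofPred_eq]
    rfl
  have h2 := key (fun i => b + i) (fun i j h => by simpa using h)
  have h3 := key (fun i => b - i) (fun i j h => by simpa using h)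
  filter_upwards [h2, h3] with ω hω1 hω2
  obtain ⟨i, hi⟩ := hω1
  obtain ⟨j, hj⟩ := hω2
  exact ⟨⟨b + i, by omega, hi⟩, ⟨b - j, by omega, hj⟩⟩

section Det

variable (E : Strip)

theorem H_upper {t : ℕ} {A : Set ℤ} {b x₀ : ℤ} (hA : ∀ a ∈ A, a ≤ b) (hb : b ≤ x₀)
    (hx : ¬ E.ho t x₀) : ∀ x ∈ E.H t A, x ≤ x₀ := by
  rintro x ⟨a, ha, h1, _⟩
  by_contra hcon
  exact hx (h1 x₀ ((hA a ha).trans hb) (not_le.1 hcon))

theorem H_lower {t : ℕ} {A : Set ℤ} {b x₀ : ℤ} (hA : ∀ a ∈ A, b ≤ a) (hb : x₀ < b)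
    (hx : ¬ E.ho t x₀) : ∀ x ∈ E.H t A, x₀ + 1 ≤ x := by
  rintro x ⟨a, ha, _, h1⟩
  by_contra hcon
  exact hx (h1 x₀ (by omega) (hb.trans_le (hA a ha)))

theorem V_upper {t : ℕ} {B : Set ℤ} {b : ℤ} (hB : ∀ x ∈ B, x ≤ b) :
    ∀ y ∈ E.V t B, y ≤ E.S t (b + 1) := by
  rintro y ⟨x, hx, h1, _⟩
  exact h1.2.trans (E.S_mono t (by have := hB x hx; omega))

theorem V_lower {t : ℕ} {B : Set ℤ} {b : ℤ} (hB : ∀ x ∈ B, b ≤ x) :
    ∀ y ∈ E.V t B, E.S t b ≤ y := by
  rintro y ⟨x, hx, h1, _⟩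
  exact (E.S_mono t (hB x hx)).trans h1.1

theorem OS_bdd (hcl : ∀ (t : ℕ) (b : ℤ), (∃ x, b ≤ x ∧ ¬ E.ho t x) ∧ (∃ x, x ≤ b ∧ ¬ E.ho t x))
    {A : Set ℤ} (hA : BddAbove A) (hA' : BddBelow A) (n : ℕ) :
    BddAbove (E.OS A n) ∧ BddBelow (E.OS A n) := by
  induction n with
  | zero => exact ⟨hA, hA'⟩
  | succ n ih =>
    obtain ⟨⟨b, hb⟩, ⟨b', hb'⟩⟩ := ih
    obtain ⟨x, hx1, hx2⟩ := (hcl n b).1
    obtain ⟨x', hx3, hx4⟩ := (hcl n (b' - 1)).2
    constructor
    · refine ⟨E.S n (x + 1), ?_⟩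
      intro y hy
      exact V_upper E (H_upper E (fun a ha => hb ha) hx1 hx2) y hy
    · refine ⟨E.S n (x' + 1), ?_⟩
      intro y hy
      exact V_lower E (H_lower E (fun a ha => hb' ha) (by omega) hx4) y hy

/-- Oriented walks from `A` end in `OS A n`. -/
theorem OS_of_OConn {R : Set (ℕ × ℤ)} {n : ℕ} {A : Set ℤ} {x : ℤ} (hx : x ∈ A) {v : ℕ × ℤ}
    (h : E.OConn n R (0, x) v) :
    v.1 ≤ n ∧ (v.1 < n → v.2 ∈ E.H v.1 (E.OS A v.1)) ∧ (v.1 = n → v.2 ∈ E.OS A n) := by
  have hsub : ∀ (t : ℕ) (B : Set ℤ), B ⊆ E.H t B := by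
    intro t B b hb
    exact ⟨b, hb, fun i h1 h2 => absurd h1 (not_le.2 h2), fun i h1 h2 => absurd h1 (not_le.2 h2)⟩
  induction h with
  | refl =>
    refine ⟨Nat.zero_le _, fun _ => hsub 0 _ hx, fun h => ?_⟩
    simp only at h
    subst h
    exact hx
  | tail _ hbc ih =>
    obtain ⟨_, _, h3⟩ := hbc
    rcases h3 with h | h | h
    · cases h with
      | mk t x y ht hv ho =>
        have h4 : y ∈ E.OS A (t + 1) := ⟨x, ih.2.1 ht, hv, ho⟩
        refine ⟨ht, fun _ => hsub _ _ h4, fun h5 => ?_⟩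
        simp only at h5
        rw [← h5]
        exact h4
    · cases h with
      | mk t x ht ho =>
        refine ⟨ht.le, fun _ => ?_, fun h5 => absurd h5 (by simp only; omega)⟩
        obtain ⟨a, ha, h6, h7⟩ := ih.2.1 ht
        simp only at h6 h7 ha ⊢
        refine ⟨a, ha, fun i hi1 hi2 => ?_, fun i hi1 hi2 => h7 i (by omega) hi2⟩
        rcases (show i < x ∨ i = x by omega) with h8 | rfl
        · exact h6 i hi1 h8
        · exact ho
    · cases h with
      | mk t x ht ho =>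
        refine ⟨ht.le, fun _ => ?_, fun h5 => absurd h5 (by simp only; omega)⟩
        obtain ⟨a, ha, h6, h7⟩ := ih.2.1 ht
        simp only at h6 h7 ha ⊢
        refine ⟨a, ha, fun i hi1 hi2 => h6 i hi1 (by omega), fun i hi1 hi2 => ?_⟩
        rcases (show x + 1 ≤ i ∨ i = x by omega) with h8 | rfl
        · exact h7 i h8 hi2
        · exact ho

theorem OCross_OS {n h : ℕ} (hc : E.OCross 0 h n) : (E.OS (Ico 0 (h : ℤ)) n).Nonempty := by
  obtain ⟨x, y, h1, h2, h3⟩ := hc
  exact ⟨y, (OS_of_OConn E (A := Ico 0 (h : ℤ)) ⟨h1, h2⟩ h3).2.2 rfl⟩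

end Det

/-- Probability that the oriented process from `A` is alive at level `n`. -/
def g (α p : ℝ) (n : ℕ) (A : Set ℤ) : ENNReal :=
  arrLaw α {η | ((strip p η).OS A n).Nonempty}

theorem g_trans (hC : CshiftStmt) (hR : RecentreStmt) (hSS : StripShiftStmt) {α : ℝ}
    (h0 : 0 ≤ α) (h1 : α < 1) (p : ℝ) (n z : ℕ) (a : ℤ) :
    g α p n (Ico a (a + z)) = g α p n (Ico 0 (z : ℤ)) := by
  unfold g
  conv_rhs => rw [← hC α h0 h1 a]
  rw [Measure.map_apply (meas_cshift a) (measurableSet_setOfPred.2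
    (m_nonempty (m_OS p (Ico 0 (z : ℤ)) n)))]
  congr 1
  ext η
  simp only [mem_preimage, mem_ofPred_eq]
  rw [OS_cshift hR hSS]
  have h2 : {x : ℤ | x - a ∈ Ico 0 (z : ℤ)} = Ico a (a + z) := by
    ext x
    simp only [mem_Ico, mem_ofPred_eq]
    omega
  rw [h2]
  constructor
  · rintro ⟨y, hy⟩
    exact ⟨y - DD η n a, by
      show y - DD η n a + DD η n a ∈ (strip p η).OS (Ico a (a + z)) n
      rw [sub_add_cancel]
      exact hy⟩
  · rintro ⟨y, hy⟩
    exact ⟨y + DD η n a, hy⟩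

theorem g_union {α p : ℝ} {n z K : ℕ} {a : ℕ → ℤ} {A : Set ℤ}
    (hC : CshiftStmt) (hR : RecentreStmt) (hSS : StripShiftStmt)
    (h0 : 0 ≤ α) (h1 : α < 1) (hA : ∀ x ∈ A, ∃ i < K, x ∈ Ico (a i) (a i + z)) :
    g α p n A ≤ K * g α p n (Ico 0 (z : ℤ)) := by
  calc g α p n A ≤ arrLaw α (⋃ i ∈ Finset.range K,
        {η | ((strip p η).OS (Ico (a i) (a i + z)) n).Nonempty}) := by
        refine measure_mono fun η hη => ?_
        obtain ⟨y, hy⟩ := hη
        obtain ⟨x, hx, hy'⟩ := (mem_OS_iff _).1 hy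
        obtain ⟨i, hi, hxi⟩ := hA x hx
        simp only [mem_iUnion, Finset.mem_range]
        exact ⟨i, hi, y, (mem_OS_iff _).2 ⟨x, hxi, hy'⟩⟩
    _ ≤ ∑ i ∈ Finset.range K, g α p n (Ico (a i) (a i + z)) := measure_biUnion_finset_le _ _
    _ = K * g α p n (Ico 0 (z : ℤ)) := by
        rw [Finset.sum_congr rfl fun i _ => g_trans hC hR hSS h0 h1 p n z (a i)]
        simp

theorem g_cov (hC : CshiftStmt) (hR : RecentreStmt) (hSS : StripShiftStmt) {α : ℝ}
    (h0 : 0 ≤ α) (h1 : α < 1) (p : ℝ) (n : ℕ) {z : ℕ} (hz : 1 ≤ z) {A : Set ℤ}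
    (hA : BddAbove A) (hA' : BddBelow A) :
    g α p n A ≤ cov z A * g α p n (Ico 0 (z : ℤ)) := by
  classical
  unfold cov
  split_ifs with hne
  · refine g_union (a := fun i => sInf A + i * z) hC hR hSS h0 h1 ?_
    intro x hx
    have h2 : sInf A ≤ x := csInf_le hA' hx
    have h3 : x ≤ sSup A := le_csSup hA hx
    refine ⟨(x - sInf A).toNat / z, ?_, ?_⟩
    · refine Nat.lt_succ_of_le (Nat.div_le_div_right ?_)
      exact Int.toNat_le_toNat (by linarith)
    · have h4 := Nat.div_mul_le_self (x - sInf A).toNat z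
      have h5 : (x - sInf A).toNat < (x - sInf A).toNat / z * z + z := by
        have := Nat.lt_div_mul_add (a := (x - sInf A).toNat) (b := z) (by omega)
        exact this
      have h6 : (((x - sInf A).toNat : ℕ) : ℤ) = x - sInf A :=
        Int.toNat_of_nonneg (by linarith)
      zify at h4 h5
      rw [h6] at h4 h5
      push_cast
      rw [h6]
      rw [mem_Ico]
      constructor
      · linarith
      · linarith
  · rw [not_nonempty_iff_eq_empty] at hne
    unfold g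
    have : {η | ((strip p η).OS A n).Nonempty} = ∅ := by
      ext η
      simp [hne, OS_empty]
    rw [this, measure_empty]
    exact bot_le

theorem g_step (hC : CshiftStmt) (hR : RecentreStmt) (hSS : StripShiftStmt) (hS : SplitStmt)
    (hCD : ColDepStmt) {α p : ℝ} (h0 : 0 ≤ α) (h1 : α < 1) (hp : p < 1) {z : ℕ} (hz : 1 ≤ z)
    (T n : ℕ) : g α p (T + n) (Ico 0 (z : ℤ)) ≤ covE α p z T * g α p n (Ico 0 (z : ℤ)) := by
  classical
  have hP := Adapted.arr_prob h0 h1
  set A : Arr → Set ℤ := fun ω => (strip p ω).OS (Ico 0 (z : ℤ)) T with hA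
  set F : Arr → Arr → ENNReal := fun ω η =>
    {q : Arr × Arr | ((strip p q.2).OS (A q.1) n).Nonempty}.indicator 1 (ω, η) with hF
  have hms : MeasurableSet {q : Arr × Arr | ((strip p q.2).OS (A q.1) n).Nonempty} := by
    have h2 : {q : Arr × Arr | ((strip p q.2).OS (A q.1) n).Nonempty} =
        ⋃ x : ℤ, ⋃ y : ℤ, {q : Arr × Arr | x ∈ A q.1 ∧ y ∈ (strip p q.2).OS {x} n} := by
      ext q
      simp only [mem_ofPred_eq, mem_iUnion]
      constructor
      · rintro ⟨y, hy⟩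
        obtain ⟨x, hx, hy'⟩ := (mem_OS_iff _).1 hy
        exact ⟨x, y, hx, hy'⟩
      · rintro ⟨x, y, hx, hy'⟩
        exact ⟨y, (mem_OS_iff _).2 ⟨x, hx, hy'⟩⟩
    rw [h2]
    refine MeasurableSet.iUnion fun x => MeasurableSet.iUnion fun y => ?_
    refine MeasurableSet.inter ?_ ?_
    · exact measurable_fst (measurableSet_setOfPred.2 (m_OS p (Ico 0 (z : ℤ)) T x))
    · exact measurable_snd (measurableSet_setOfPred.2 (m_OS p {x} n y))
  have hFm : Measurable (Function.uncurry F) := measurable_one.indicator hms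
  have hdep : ∀ ω ω' η : Arr, (∀ t < T, ω t = ω' t) → F ω η = F ω' η := by
    intro ω ω' η h
    have h2 : A ω = A ω' := by
      ext y
      have h3 := (hCD p T 0 le_rfl).2.2.2.2.2.2.2.2.2.1 (Ico 0 (z : ℤ)) y
      exact ⟨fun h4 => h3 ω ω' h h4, fun h4 => h3 ω' ω (fun t ht => (h t ht).symm) h4⟩
    simp only [hF]
    by_cases h3 : (ω, η) ∈ {q : Arr × Arr | ((strip p q.2).OS (A q.1) n).Nonempty}
    · have h4 : (ω', η) ∈ {q : Arr × Arr | ((strip p q.2).OS (A q.1) n).Nonempty} := by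
        simp only [mem_ofPred_eq] at h3 ⊢
        rw [← h2]
        exact h3
      rw [indicator_of_mem h3, indicator_of_mem h4]
      rfl
    · have h4 : (ω', η) ∉ {q : Arr × Arr | ((strip p q.2).OS (A q.1) n).Nonempty} := by
        simp only [mem_ofPred_eq] at h3 ⊢
        rw [← h2]
        exact h3
      rw [indicator_of_notMem h3, indicator_of_notMem h4]
  have e1 : g α p (T + n) (Ico 0 (z : ℤ)) = ∫⁻ ω, F ω (post T ω) ∂arrLaw α := by
    unfold g
    rw [← lintegral_indicator_one (measurableSet_setOfPred.2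
      (m_nonempty (m_OS p (Ico 0 (z : ℤ)) (T + n))))]
    refine lintegral_congr fun ω => ?_
    have h2 : (strip p ω).OS (Ico 0 (z : ℤ)) (T + n) = (strip p (post T ω)).OS (A ω) n := by
      rw [OS_shift, hSS.2.1]
    simp only [hF]
    by_cases h3 : ((strip p (post T ω)).OS (A ω) n).Nonempty
    · have h4 : ω ∈ {ω | ((strip p ω).OS (Ico 0 (z : ℤ)) (T + n)).Nonempty} := by
        simp only [mem_ofPred_eq]
        rw [h2]
        exact h3
      have h5 : (ω, post T ω) ∈ {q : Arr × Arr | ((strip p q.2).OS (A q.1) n).Nonempty} := h3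
      rw [indicator_of_mem h4, indicator_of_mem h5]
      rfl
    · have h4 : ω ∉ {ω | ((strip p ω).OS (Ico 0 (z : ℤ)) (T + n)).Nonempty} := by
        simp only [mem_ofPred_eq]
        rw [h2]
        exact h3
      have h5 : (ω, post T ω) ∉ {q : Arr × Arr | ((strip p q.2).OS (A q.1) n).Nonempty} := h3
      rw [indicator_of_notMem h4, indicator_of_notMem h5]
  rw [e1, hS α h0 h1 T F hFm hdep]
  have hg1 : g α p n (Ico 0 (z : ℤ)) ≠ ⊤ := measure_ne_top _ _
  unfold covE
  rw [← lintegral_mul_const' _ _ hg1]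
  refine lintegral_mono_ae ?_
  filter_upwards [closed_ae h0 h1 hp] with ω hω
  have hb : BddAbove (A ω) ∧ BddBelow (A ω) :=
    OS_bdd (strip p ω) hω ⟨z, fun x hx => hx.2.le⟩ ⟨0, fun x hx => hx.1⟩ T
  refine le_trans (le_of_eq ?_) (g_cov hC hR hSS h0 h1 p n hz hb.1 hb.2)
  unfold g
  rw [← lintegral_indicator_one]
  · refine lintegral_congr fun η => ?_
    rfl
  · have : {η | ((strip p η).OS (A ω) n).Nonempty} = (fun η => (ω, η)) ⁻¹'
      {q : Arr × Arr | ((strip p q.2).OS (A q.1) n).Nonempty} := rfl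
    rw [this]
    exact measurable_prodMk_left hms

theorem p_lt_one {α p : ℝ} {z T : ℕ} (h0 : 0 ≤ α) (h1 : α < 1) (hz : 1 ≤ z)
    (hc : covE α p z T < 1) : p < 1 := by
  classical
  by_contra hp
  rw [not_lt] at hp
  have hP := Adapted.arr_prob h0 h1
  have hne : ∀ (ω : Arr) (n : ℕ), ((strip p ω).OS (Ico 0 (z : ℤ)) n).Nonempty := by
    intro ω n
    induction n with
    | zero => exact ⟨0, ⟨le_rfl, by omega⟩⟩
    | succ n ih =>
      obtain ⟨x, hx⟩ := ih
      refine ⟨(strip p ω).S n (x + 1), x, ⟨x, hx, fun i h2 h3 => absurd h2 (not_le.2 h3),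
        fun i h2 h3 => absurd h2 (not_le.2 h3)⟩, (strip p ω).isV_B n x, ?_⟩
      exact le_trans (unitInterval.le_one _) hp
  have h2 : ∀ ω, (1 : ENNReal) ≤ (cov z ((strip p ω).OS (Ico 0 (z : ℤ)) T) : ENNReal) := by
    intro ω
    unfold cov
    rw [if_pos (hne ω T)]
    push_cast
    exact le_add_self
  have h3 : (1 : ENNReal) ≤ covE α p z T := by
    unfold covE
    calc (1 : ENNReal) = ∫⁻ _, 1 ∂arrLaw α := by simp
      _ ≤ _ := lintegral_mono h2
  exact absurd hc (not_lt.2 h3)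

end CEx

open CEx in
theorem critExtinct (hC : CshiftStmt) (hR : RecentreStmt) (hSS : StripShiftStmt)
    (hS : SplitStmt) (hCD : ColDepStmt) : CritExtinctStmt := by
  intro α p z T h0 h1 hz hT hc
  have hP := Adapted.arr_prob h0 h1
  have hp := p_lt_one h0 h1 hz hc
  rintro ⟨h, hh⟩
  have h2 : ∀ k : ℕ, g α p (k * T) (Ico 0 (z : ℤ)) ≤ covE α p z T ^ k := by
    intro k
    induction k with
    | zero =>
      rw [pow_zero]
      exact prob_le_one
    | succ k ih =>
      have h3 := g_step hC hR hSS hS hCD h0 h1 hp hz T (k * T)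
      have h4 : (k + 1) * T = T + k * T := by ring
      rw [h4, pow_succ, mul_comm (covE α p z T ^ k)]
      exact h3.trans (mul_le_mul_right ih _)
  have h3 : ∀ k : ℕ, arrLaw α {ω | ∀ n, (strip p ω).OCross 0 h n} ≤ h * covE α p z T ^ k := by
    intro k
    have h4 : arrLaw α {ω | ∀ n, (strip p ω).OCross 0 h n} ≤ g α p (k * T) (Ico 0 (h : ℤ)) :=
      measure_mono fun ω hω => OCross_OS _ (hω (k * T))
    refine h4.trans ((g_union (K := h) (a := fun i => (i : ℤ)) hC hR hSS h0 h1 ?_).trans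
      (mul_le_mul_right (h2 k) _))
    intro x hx
    refine ⟨x.toNat, ?_, ?_⟩
    · have := hx.1
      have := hx.2
      omega
    · have := hx.1
      rw [Int.toNat_of_nonneg hx.1]
      exact ⟨le_rfl, by omega⟩
  have h4 : Tendsto (fun k : ℕ => (h : ENNReal) * covE α p z T ^ k) atTop (𝓝 (h * 0)) :=
    ENNReal.Tendsto.const_mul (ENNReal.tendsto_pow_atTop_nhds_zero_of_lt_one hc)
      (Or.inr (ENNReal.natCast_ne_top h))
  rw [mul_zero] at h4
  exact absurd (ge_of_tendsto' h4 h3) (not_le.2 hh)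

end CausalPerc.Neg
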