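import Pool.Agent.Lib.MP_a51368_pr.Neg.CritExtinct

/-!
# Module P11: the finite criterion is an open condition in `α`

Coupling of the arrays for all `α` by the quantile functions of the geometric laws.
-/

open MeasureTheory ProbabilityTheory Set Filter Topology

noncomputable section

namespace CausalPerc.Neg

namespace CO

open MeasAux IndepAux FC CEx

/-! ### Quantile function of the geometric law -/

/-- Quantile function. -/
def gq (α : ℝ) (u : unitInterval) : ℕ := sSup {k : ℕ | (u : ℝ) ≤ α ^ k}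

theorem gq_eq {α : ℝ} (h0 : 0 < α) (h1 : α < 1) {u : unitInterval} {k : ℕ}
    (hk : α ^ (k + 1) < u) (hk' : (u : ℝ) ≤ α ^ k) : gq α u = k := by
  have h : IsGreatest {k : ℕ | (u : ℝ) ≤ α ^ k} k := by
    refine ⟨hk', fun j hj => ?_⟩
    by_contra hcon
    have h2 : α ^ j ≤ α ^ (k + 1) := pow_le_pow_of_le_one h0.le h1.le (by omega)
    have h3 : (u : ℝ) ≤ α ^ j := hj
    linarith
  exact h.csSup_eq

theorem gq_spec {α : ℝ} (h0 : 0 < α) (h1 : α < 1) {u : unitInterval} (hu : 0 < (u : ℝ)) :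
    α ^ (gq α u + 1) < u ∧ (u : ℝ) ≤ α ^ gq α u := by
  obtain ⟨k, hk, hk'⟩ := exists_nat_pow_near_of_lt_one hu u.2.2 h0 h1
  rw [gq_eq h0 h1 hk hk']
  exact ⟨hk, hk'⟩

theorem gq_zero {α : ℝ} (h0 : 0 < α) {u : unitInterval} (hu : (u : ℝ) = 0) : gq α u = 0 := by
  have h : {k : ℕ | (u : ℝ) ≤ α ^ k} = univ := by
    ext k
    simp only [mem_ofPred_eq, mem_univ, iff_true, hu]
    positivity
  unfold gq
  rw [h]
  exact Nat.sSup_of_not_bddAbove not_bddAbove_univ

theorem gq_mono {α β : ℝ} (h0 : 0 < α) (hab : α ≤ β) (h1 : β < 1) {u : unitInterval}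
    (hu : 0 < (u : ℝ)) : gq α u ≤ gq β u := by
  obtain ⟨h2, h3⟩ := gq_spec h0 (hab.trans_lt h1) hu
  obtain ⟨h4, _⟩ := gq_spec (h0.trans_le hab) h1 hu
  by_contra hcon
  have h5 : β ^ gq α u ≤ β ^ (gq β u + 1) :=
    pow_le_pow_of_le_one (h0.le.trans hab) h1.le (by omega)
  have h6 : α ^ gq α u ≤ β ^ gq α u := pow_le_pow_left₀ h0.le hab _
  linarith

theorem gq_cont {u : unitInterval} (hu : 0 < (u : ℝ)) :
    ∀ᶠ α : ℝ in 𝓝[≥] (1 / 2 : ℝ), gq α u = gq (1 / 2) u := by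
  obtain ⟨h2, h3⟩ := gq_spec (α := 1 / 2) (by norm_num) (by norm_num) hu
  have h4 : ∀ᶠ α : ℝ in 𝓝[≥] (1 / 2 : ℝ), α ^ (gq (1 / 2) u + 1) < (u : ℝ) := by
    have h5 : Tendsto (fun α : ℝ => α ^ (gq (1 / 2) u + 1)) (𝓝[≥] (1 / 2 : ℝ))
        (𝓝 ((1 / 2) ^ (gq (1 / 2) u + 1))) :=
      ((continuous_pow _).tendsto _).mono_left nhdsWithin_le_nhds
    exact h5.eventually_lt_const h2
  have h6 : ∀ᶠ α in 𝓝[≥] (1 / 2 : ℝ), α < 1 :=
    nhdsWithin_le_nhds (gt_mem_nhds (by norm_num))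
  filter_upwards [h4, h6, self_mem_nhdsWithin] with α h7 h8 h9
  have h10 : (1 / 2 : ℝ) ≤ α := h9
  refine gq_eq (by linarith) h8 h7 (h3.trans ?_)
  exact pow_le_pow_left₀ (by norm_num) h10 _

theorem gq_pre {α : ℝ} (h0 : 0 < α) (h1 : α < 1) (k : ℕ) :
    ∃ a b : unitInterval, (b : ℝ) - a = α ^ k * (1 - α) ∧ (a : ℝ) ≤ b ∧
      gq α ⁻¹' {k} = Ioc a b ∪ (if k = 0 then {0} else ∅) := by
  have hp : ∀ j : ℕ, α ^ j ∈ unitInterval := fun j =>
    ⟨by positivity, pow_le_one₀ h0.le h1.le⟩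
  refine ⟨⟨α ^ (k + 1), hp _⟩, ⟨α ^ k, hp _⟩, ?_, ?_, ?_⟩
  · show α ^ k - α ^ (k + 1) = _
    ring
  · exact pow_le_pow_of_le_one h0.le h1.le (by omega)
  · ext u
    rcases u.2.1.eq_or_lt with hu | hu
    · have h2 : u = 0 := Subtype.ext hu.symm
      subst h2
      have h3 : gq α 0 = 0 := gq_zero h0 rfl
      have h4 : (0 : unitInterval) ∉ Ioc (⟨α ^ (k + 1), hp _⟩ : unitInterval) ⟨α ^ k, hp _⟩ := by
        intro h5
        have h6 : α ^ (k + 1) < (0 : ℝ) := h5.1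
        have h7 : 0 < α ^ (k + 1) := by positivity
        linarith
      rw [mem_union, mem_preimage, mem_singleton_iff, h3]
      constructor
      · intro h5
        rw [if_pos h5.symm]
        exact Or.inr rfl
      · rintro (h5 | h5)
        · exact absurd h5 h4
        · by_contra h6
          rw [if_neg (fun h7 => h6 h7.symm)] at h5
          exact h5
    · rw [mem_union, mem_preimage, mem_singleton_iff]
      constructor
      · intro h2
        obtain ⟨h3, h4⟩ := gq_spec h0 h1 hu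
        rw [h2] at h3 h4
        exact Or.inl ⟨h3, h4⟩
      · rintro (h2 | h2)
        · exact gq_eq h0 h1 h2.1 h2.2
        · exfalso
          split_ifs at h2
          · rw [mem_singleton_iff] at h2
            rw [h2] at hu
            exact lt_irrefl _ hu
          · exact h2

theorem meas_gq {α : ℝ} (h0 : 0 < α) (h1 : α < 1) : Measurable (gq α) := by
  refine measurable_to_countable' fun k => ?_
  obtain ⟨a, b, _, _, h⟩ := gq_pre h0 h1 k
  rw [h]
  refine measurableSet_Ioc.union ?_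
  split_ifs
  · exact MeasurableSet.singleton 0
  · exact MeasurableSet.empty

theorem map_gq {α : ℝ} (h0 : 0 < α) (h1 : α < 1) :
    (volume : Measure unitInterval).map (gq α) = geo α := by
  refine Measure.ext_of_singleton fun k => ?_
  rw [Measure.map_apply (meas_gq h0 h1) (MeasurableSet.singleton k), geo_apply,
    tsum_eq_single k]
  · simp only [indicator_of_mem (mem_singleton k), Pi.one_apply, mul_one]
    obtain ⟨a, b, h2, _, h3⟩ := gq_pre h0 h1 k
    rw [h3, ← h2, ← unitInterval.volume_Ioc]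
    refine le_antisymm ((measure_union_le _ _).trans ?_) (measure_mono subset_union_left)
    have h4 : volume (if k = 0 then ({0} : Set unitInterval) else ∅) = 0 := by
      split_ifs
      · exact measure_singleton _
      · exact measure_empty
    rw [h4, add_zero]
  · intro j hj
    rw [indicator_of_notMem (by simpa using hj), mul_zero]

/-! ### The coupling -/

abbrev Nx := unitInterval × (ℕ → unitInterval)

abbrev Xx := ℕ → ℤ → Nx

def nxLaw : Measure Nx :=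
  (volume : Measure unitInterval).prod (Measure.infinitePi fun _ : ℕ => volume)

def xLaw : Measure Xx := Measure.infinitePi fun _ : ℕ => Measure.infinitePi fun _ : ℤ => nxLaw

instance : IsProbabilityMeasure nxLaw := by
  unfold nxLaw
  infer_instance

instance : IsProbabilityMeasure xLaw := by
  unfold xLaw
  infer_instance

/-- The coupling. -/
def Ph (α : ℝ) (x : Xx) : Arr := fun t i => (gq α (x t i).1, (x t i).2)

theorem map_nx {α : ℝ} (h0 : 0 < α) (h1 : α < 1) :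
    nxLaw.map (Prod.map (gq α) id) = ndLaw α := by
  unfold nxLaw ndLaw
  rw [← map_gq h0 h1]
  have h2 := Measure.map_prod_map (volume : Measure unitInterval)
    (Measure.infinitePi fun _ : ℕ => (volume : Measure unitInterval)) (meas_gq h0 h1)
    measurable_id
  rw [Measure.map_id] at h2
  exact h2.symm

theorem meas_Ph {α : ℝ} (h0 : 0 < α) (h1 : α < 1) : Measurable (Ph α) := by
  refine measurable_pi_iff.2 fun t => measurable_pi_iff.2 fun i => ?_
  have h2 : Measurable fun x : Xx => x t i := (measurable_pi_apply i).comp (measurable_pi_apply t)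
  exact ((meas_gq h0 h1).comp (measurable_fst.comp h2)).prodMk (measurable_snd.comp h2)

theorem map_Ph {α : ℝ} (h0 : 0 < α) (h1 : α < 1) : xLaw.map (Ph α) = arrLaw α := by
  have hm : Measurable (Prod.map (gq α) (id : (ℕ → unitInterval) → ℕ → unitInterval)) :=
    (meas_gq h0 h1).prodMap measurable_id
  have h2 := Measure.infinitePi_map_pi (fun _ : ℤ => nxLaw) (fun _ : ℤ => hm)
  have hm2 : Measurable fun (r : ℤ → Nx) (i : ℤ) => Prod.map (gq α)
      (id : (ℕ → unitInterval) → ℕ → unitInterval) (r i) :=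
    measurable_pi_iff.2 fun i => hm.comp (measurable_pi_apply i)
  have h3 := Measure.infinitePi_map_pi (fun _ : ℕ => Measure.infinitePi fun _ : ℤ => nxLaw)
    (fun _ : ℕ => hm2)
  unfold arrLaw rowLaw
  simp only [h2, map_nx h0 h1] at h3
  exact h3

/-- All uniform variables are positive. -/
theorem pos_ae : ∀ᵐ x ∂xLaw, ∀ (t : ℕ) (i : ℤ), 0 < ((x t i).1 : ℝ) := by
  rw [ae_all_iff]
  intro t
  rw [ae_all_iff]
  intro i
  have h2 : xLaw.map (fun x : Xx => (x t i).1) = (volume : Measure unitInterval) := by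
    have e : (fun x : Xx => (x t i).1) = Prod.fst ∘ (fun r : ℤ → Nx => r i) ∘ fun x => x t := rfl
    have m1 : Measurable fun x : Xx => x t := measurable_pi_apply t
    have m2 : Measurable fun r : ℤ → Nx => r i := measurable_pi_apply i
    rw [e, ← Measure.map_map measurable_fst (m2.comp m1), ← Measure.map_map m2 m1]
    have h3 : xLaw.map (fun x : Xx => x t) = Measure.infinitePi fun _ : ℤ => nxLaw :=
      Measure.infinitePi_map_eval (fun _ : ℕ => Measure.infinitePi fun _ : ℤ => nxLaw) t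
    have h4 : (Measure.infinitePi fun _ : ℤ => nxLaw).map (fun r : ℤ → Nx => r i) = nxLaw :=
      Measure.infinitePi_map_eval (fun _ : ℤ => nxLaw) i
    rw [h3, h4]
    unfold nxLaw
    rw [← Measure.fst, Measure.fst_prod]
  have h3 : ∀ᵐ u : unitInterval ∂volume, 0 < (u : ℝ) := by
    rw [ae_iff]
    refine measure_mono_null (t := {0}) ?_ (measure_singleton _)
    intro u hu
    simp only [mem_ofPred_eq, not_lt] at hu
    exact Subtype.ext (le_antisymm hu u.2.1)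
  rw [← h2] at h3
  exact ae_of_ae_map (measurable_fst.comp
    ((measurable_pi_apply i).comp (measurable_pi_apply t))).aemeasurable h3

/-! ### Dominating edges -/

/-- First closed edge. -/
def nc (p : ℝ) (σ : ℕ → ℤ) (r : Row) (b : ℕ) : ℕ := sInf {x : ℕ | b ≤ x ∧ r (σ x) ∉ opn p}

/-- One step of the dominating edge. -/
def GG (p : ℝ) (σ : ℕ → ℤ) (r : Row) (b : ℕ) : ℕ :=
  ∑ i ∈ Finset.range (nc p σ r b + 1), ((r (σ i)).1 + 1)

/-- The dominating edge. -/
def Rb (p : ℝ) (σ : ℕ → ℤ) (b₀ : ℕ) (ω : Arr) : ℕ → ℕ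
  | 0 => b₀
  | t + 1 => GG p σ (ω t) (Rb p σ b₀ ω t)

theorem comp_cnt {β γ κ : Type*} [MeasurableSpace β] [MeasurableSpace γ] [Countable κ]
    [MeasurableSpace κ] [MeasurableSingletonClass κ] {f : κ → γ → β}
    (hf : ∀ z, Measurable (f z)) {g : γ → κ} (hg : Measurable g) :
    Measurable fun ω => f (g ω) ω := by
  intro s hs
  have : (fun ω => f (g ω) ω) ⁻¹' s = ⋃ z : κ, (g ⁻¹' {z}) ∩ (f z) ⁻¹' s := by
    ext ω
    simp
  rw [this]
  exact MeasurableSet.iUnion fun z => (hg (measurableSet_singleton z)).inter (hf z hs)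

theorem nat_sInf_eq (S : Set ℕ) (k : ℕ) : sInf S = k ↔
    (k ∈ S ∧ ∀ j, j ∈ S → k ≤ j) ∨ (k = 0 ∧ ∀ j, j ∉ S) := by
  constructor
  · rintro rfl
    by_cases h : S.Nonempty
    · exact Or.inl ⟨Nat.sInf_mem h, fun j hj => Nat.sInf_le hj⟩
    · rw [not_nonempty_iff_eq_empty] at h
      subst h
      exact Or.inr ⟨Nat.sInf_empty, fun j hj => hj⟩
  · rintro (⟨h1, h2⟩ | ⟨rfl, h⟩)
    · exact le_antisymm (Nat.sInf_le h1) (h2 _ (Nat.sInf_mem ⟨k, h1⟩))
    · rw [eq_empty_of_forall_notMem h]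
      exact Nat.sInf_empty

theorem meas_nc (p : ℝ) (σ : ℕ → ℤ) (b : ℕ) : Measurable fun r : Row => nc p σ r b := by
  refine measurable_to_countable' fun k => ?_
  have h2 : ∀ x : ℕ, Measurable fun r : Row => (b ≤ x ∧ r (σ x) ∉ opn p) := by
    intro x
    refine measurable_const.and ?_
    exact (measurableSet_setOfPred.1 (measurable_pi_apply (σ x) (meas_opn p))).not
  have : (fun r : Row => nc p σ r b) ⁻¹' {k} = {r | ((b ≤ k ∧ r (σ k) ∉ opn p) ∧
      ∀ j, (b ≤ j ∧ r (σ j) ∉ opn p) → k ≤ j) ∨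
      (k = 0 ∧ ∀ j, ¬ (b ≤ j ∧ r (σ j) ∉ opn p))} := by
    ext r
    exact nat_sInf_eq _ _
  rw [this]
  exact measurableSet_setOfPred.2 (((h2 k).and (Measurable.forall fun j =>
    (h2 j).imp measurable_const)).or (measurable_const.and (Measurable.forall fun j => (h2 j).not)))

theorem meas_GG (p : ℝ) (σ : ℕ → ℤ) (b : ℕ) : Measurable fun r : Row => GG p σ r b := by
  refine comp_cnt (f := fun k (r : Row) => ∑ i ∈ Finset.range (k + 1), ((r (σ i)).1 + 1))
    (fun k => ?_) (meas_nc p σ b)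
  exact Finset.measurable_fun_sum _ fun i _ =>
    (measurable_of_countable (fun j : ℕ => j + 1)).comp
      (measurable_fst.comp (measurable_pi_apply (σ i)))

theorem meas_Rb (p : ℝ) (σ : ℕ → ℤ) (b₀ t : ℕ) : Measurable fun ω : Arr => Rb p σ b₀ ω t := by
  induction t with
  | zero => exact measurable_const
  | succ t ih =>
    exact comp_cnt (f := fun k (ω : Arr) => GG p σ (ω t) k)
      (fun k => (meas_GG p σ k).comp (measurable_pi_apply t)) ih

theorem Rb_dep {p : ℝ} {σ : ℕ → ℤ} {b₀ t : ℕ} {ω ω' : Arr} (h : ∀ s < t, ω s = ω' s) :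
    Rb p σ b₀ ω t = Rb p σ b₀ ω' t := by
  induction t with
  | zero => rfl
  | succ t ih =>
    show GG p σ (ω t) (Rb p σ b₀ ω t) = GG p σ (ω' t) (Rb p σ b₀ ω' t)
    rw [ih fun s hs => h s (by omega), h t (by omega)]

/-- Mean of one plus the number of children. -/
def cc (α : ℝ) : ENNReal := ∫⁻ d, ((d.1 + 1 : ℕ) : ENNReal) ∂ndLaw α

theorem cc_lt {α : ℝ} (h0 : 0 ≤ α) (h1 : α < 1) : cc α < ⊤ := by
  have := geo_prob h0 h1
  have h2 : cc α = ∫⁻ k, ((k + 1 : ℕ) : ENNReal) ∂geo α := by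
    unfold cc ndLaw
    have h3 := lintegral_map (μ := (geo α).prod
      (Measure.infinitePi fun _ : ℕ => (volume : Measure unitInterval)))
      (measurable_of_countable (fun k : ℕ => ((k + 1 : ℕ) : ENNReal))) measurable_fst
    rw [← Measure.fst, Measure.fst_prod] at h3
    exact h3.symm
  have hw : ∀ k : ℕ, 0 ≤ α ^ k * (1 - α) := fun k => mul_nonneg (pow_nonneg h0 k) (by linarith)
  have hs : Summable fun k : ℕ => α ^ k * (1 - α) * ((k : ℝ) + 1) := by
    have hn : ‖α‖ < 1 := by rw [Real.norm_of_nonneg h0]; exact h1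
    have h := ((hasSum_coe_mul_geometric_of_norm_lt_one hn).summable.mul_right (1 - α)).add
      ((summable_geometric_of_lt_one h0 h1).mul_right (1 - α))
    refine h.congr fun k => ?_
    ring
  rw [h2]
  unfold geo
  rw [lintegral_sum_measure]
  have : ∀ k : ℕ, ∫⁻ a, ((a + 1 : ℕ) : ENNReal) ∂(ENNReal.ofReal (α ^ k * (1 - α)) •
      Measure.dirac k) = ENNReal.ofReal (α ^ k * (1 - α) * ((k : ℝ) + 1)) := by
    intro k
    rw [lintegral_smul_measure, lintegral_dirac, smul_eq_mul, ENNReal.ofReal_mul (hw k)]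
    congr 1
    have h5 : (k : ℝ) + 1 = ((k + 1 : ℕ) : ℝ) := by push_cast; rfl
    rw [h5, ENNReal.ofReal_natCast]
  simp only [this]
  rw [← ENNReal.ofReal_tsum_of_nonneg (fun k => mul_nonneg (hw k) (by positivity)) hs]
  exact ENNReal.ofReal_lt_top

theorem GG_le (p : ℝ) (σ : ℕ → ℤ) (r : Row) (b : ℕ) : (GG p σ r b : ENNReal) ≤
    ∑' i : ℕ, ∏ j ∈ insert i (Finset.Ico b i), (if j = i then (((r (σ j)).1 + 1 : ℕ) : ENNReal)
      else (opn p).indicator 1 (r (σ j))) := by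
  classical
  unfold GG
  rw [Nat.cast_sum]
  refine le_trans ?_ (ENNReal.sum_le_tsum (Finset.range (nc p σ r b + 1)))
  refine Finset.sum_le_sum fun i hi => ?_
  rw [Finset.mem_range] at hi
  rw [Finset.prod_insert (by simp), if_pos rfl]
  have h2 : ∏ j ∈ Finset.Ico b i, (if j = i then (((r (σ j)).1 + 1 : ℕ) : ENNReal)
      else (opn p).indicator 1 (r (σ j))) = 1 := by
    refine Finset.prod_eq_one fun j hj => ?_
    rw [Finset.mem_Ico] at hj
    rw [if_neg (by omega), indicator_of_mem]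
    · rfl
    · by_contra hcon
      have h3 : nc p σ r b ≤ j := Nat.sInf_le ⟨hj.1, hcon⟩
      omega
  rw [h2, mul_one]

theorem row_int {α p : ℝ} (h0 : 0 ≤ α) (h1 : α < 1) {σ : ℕ → ℤ}
    (hσ : Function.Injective σ) (b : ℕ) : ∫⁻ r, (GG p σ r b : ENNReal) ∂rowLaw α ≤
      cc α * (b + (1 - ndLaw α (opn p))⁻¹) := by
  classical
  have hP := Adapted.nd_prob h0 h1
  have hP2 := Adapted.row_prob h0 h1
  set h : ℕ → ℕ → Nd → ENNReal := fun i j d => if j = i then ((d.1 + 1 : ℕ) : ENNReal)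
      else (opn p).indicator 1 d with hh
  have hm : ∀ i j, Measurable (h i j) := by
    intro i j
    simp only [hh]
    split_ifs
    · exact (measurable_of_countable (fun k : ℕ => ((k + 1 : ℕ) : ENNReal))).comp measurable_fst
    · exact measurable_one.indicator (meas_opn p)
  have hI : iIndepFun (fun (i : ℤ) (r : Row) => r i) (rowLaw α) := by
    unfold rowLaw
    exact iIndepFun_infinitePi (P := fun _ : ℤ => ndLaw α) (X := fun _ d => d)
      (fun _ => measurable_id)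
  have hI2 : iIndepFun (fun (j : ℕ) (r : Row) => r (σ j)) (rowLaw α) := hI.precomp hσ
  have e1 : ∀ i : ℕ, ∫⁻ r, ∏ j ∈ insert i (Finset.Ico b i), h i j (r (σ j)) ∂rowLaw α =
      cc α * ndLaw α (opn p) ^ (i - b) := by
    intro i
    have hI3 : iIndepFun (fun (j : ℕ) (r : Row) => h i j (r (σ j))) (rowLaw α) :=
      hI2.comp (fun j => h i j) (fun j => hm i j)
    rw [lintegral_prod_eq_prod_lintegral_of_indepFun (insert i (Finset.Ico b i)) _ hI3
      (fun j => (hm i j).comp (measurable_pi_apply (σ j))),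
      Finset.prod_insert (by simp)]
    have e2 : ∀ j, ∫⁻ r, h i j (r (σ j)) ∂rowLaw α = ∫⁻ d, h i j d ∂ndLaw α := by
      intro j
      have h2 : (rowLaw α).map (fun r : Row => r (σ j)) = ndLaw α := by
        unfold rowLaw
        exact Measure.infinitePi_map_eval (fun _ : ℤ => ndLaw α) (σ j)
      conv_rhs => rw [← h2]
      rw [lintegral_map (hm i j) (measurable_pi_apply (σ j))]
    rw [e2]
    congr 1
    · unfold cc
      refine lintegral_congr fun d => ?_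
      simp only [hh, if_pos rfl]
    · rw [Finset.prod_congr rfl (g := fun _ => ndLaw α (opn p))]
      · rw [Finset.prod_const, Nat.card_Ico]
      · intro j hj
        rw [Finset.mem_Ico] at hj
        rw [e2, ← lintegral_indicator_one (meas_opn p)]
        refine lintegral_congr fun d => ?_
        simp only [hh, if_neg (show ¬ j = i by omega)]
  calc ∫⁻ r, (GG p σ r b : ENNReal) ∂rowLaw α
      ≤ ∫⁻ r, ∑' i : ℕ, ∏ j ∈ insert i (Finset.Ico b i), h i j (r (σ j)) ∂rowLaw α :=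
        lintegral_mono fun r => GG_le p σ r b
    _ = ∑' i : ℕ, cc α * ndLaw α (opn p) ^ (i - b) := by
        rw [lintegral_tsum fun i => ?_]
        · exact tsum_congr e1
        · exact (Finset.measurable_fun_prod _ fun j _ =>
            (hm i j).comp (measurable_pi_apply (σ j))).aemeasurable
    _ = cc α * (b + (1 - ndLaw α (opn p))⁻¹) := by
        rw [ENNReal.tsum_mul_left]
        congr 1
        rw [← ENNReal.summable.sum_add_tsum_nat_add' (k := b) (f := fun i =>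
          ndLaw α (opn p) ^ (i - b)), ← ENNReal.tsum_geometric]
        congr 1
        · rw [Finset.sum_congr rfl (g := fun _ => (1 : ENNReal))]
          · simp
          · intro i hi
            rw [Finset.mem_range] at hi
            rw [Nat.sub_eq_zero_of_le hi.le, pow_zero]
        · exact tsum_congr fun i => by rw [Nat.add_sub_cancel]
    _ ≤ _ := le_rfl

theorem Rb_int {α p : ℝ} (h0 : 0 ≤ α) (h1 : α < 1) (hp : p < 1) {σ : ℕ → ℤ}
    (hσ : Function.Injective σ) (b₀ t : ℕ) :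
    ∫⁻ ω, (Rb p σ b₀ ω t : ENNReal) ∂arrLaw α < ⊤ := by
  have hP := Adapted.arr_prob h0 h1
  induction t with
  | zero =>
    simp only [Rb, lintegral_const, measure_univ, mul_one]
    exact ENNReal.natCast_lt_top b₀
  | succ t ih =>
    have hf : Measurable (Function.uncurry fun (ω : Arr) (r : Row) =>
        (GG p σ r (Rb p σ b₀ ω t) : ENNReal)) := by
      have : (Function.uncurry fun (ω : Arr) (r : Row) =>
        (GG p σ r (Rb p σ b₀ ω t) : ENNReal)) = fun q : Arr × Row =>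
          (GG p σ q.2 (Rb p σ b₀ q.1 t) : ENNReal) := rfl
      rw [this]
      exact comp_cnt (f := fun k (q : Arr × Row) => (GG p σ q.2 k : ENNReal))
        (fun k => (measurable_of_countable (fun n : ℕ => (n : ENNReal))).comp
          ((meas_GG p σ k).comp measurable_snd)) ((meas_Rb p σ b₀ t).comp measurable_fst)
    have h2 := Adapted.split_row h0 h1 t (fun (ω : Arr) (r : Row) =>
        (GG p σ r (Rb p σ b₀ ω t) : ENNReal)) hf
      (fun ω ω' r h => by rw [Rb_dep h])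
    have h3 : ∫⁻ ω, (Rb p σ b₀ ω (t + 1) : ENNReal) ∂arrLaw α =
        ∫⁻ ω, (GG p σ (ω t) (Rb p σ b₀ ω t) : ENNReal) ∂arrLaw α := rfl
    rw [h3, h2]
    have h4 : (1 - ndLaw α (opn p))⁻¹ < ⊤ := by
      rw [ENNReal.inv_lt_top]
      exact tsub_pos_of_lt (opn_lt h0 h1 hp)
    calc ∫⁻ ω, ∫⁻ r, (GG p σ r (Rb p σ b₀ ω t) : ENNReal) ∂rowLaw α ∂arrLaw α
        ≤ ∫⁻ ω, cc α * ((Rb p σ b₀ ω t : ENNReal) + (1 - ndLaw α (opn p))⁻¹) ∂arrLaw α :=
          lintegral_mono fun ω => row_int h0 h1 hσ _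
      _ = cc α * (∫⁻ ω, (Rb p σ b₀ ω t : ENNReal) ∂arrLaw α + (1 - ndLaw α (opn p))⁻¹) := by
          rw [lintegral_const_mul' _ _ (cc_lt h0 h1).ne, lintegral_add_right _ measurable_const]
          simp
      _ < ⊤ := ENNReal.mul_lt_top (cc_lt h0 h1) (ENNReal.add_lt_top.2 ⟨ih, h4⟩)

/-- Closed edges in both directions (in terms of the labels). -/
def Cl (p : ℝ) (ω : Arr) : Prop := ∀ (t : ℕ) (b : ℤ),
  (∃ x, b ≤ x ∧ ¬ (strip p ω).ho t x) ∧ (∃ x, x ≤ b ∧ ¬ (strip p ω).ho t x)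

def sR : ℕ → ℤ := fun i => i

def sL : ℕ → ℤ := fun i => -1 - i

theorem sR_inj : Function.Injective sR := fun i j h => by simpa [sR] using h

theorem sL_inj : Function.Injective sL := fun i j h => by simpa [sL] using h

theorem nc_R {p : ℝ} {ω : Arr} (h : Cl p ω) (t b : ℕ) :
    b ≤ nc p sR (ω t) b ∧ ¬ (strip p ω).ho t (nc p sR (ω t) b : ℕ) := by
  obtain ⟨x, hx1, hx2⟩ := (h t b).1
  have h2 : x.toNat ∈ {x : ℕ | b ≤ x ∧ ω t (sR x) ∉ opn p} := by
    refine ⟨by omega, ?_⟩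
    have h3 : sR x.toNat = x := by
      unfold sR
      omega
    rw [h3]
    exact hx2
  exact Nat.sInf_mem ⟨_, h2⟩

theorem nc_L {p : ℝ} {ω : Arr} (h : Cl p ω) (t b : ℕ) :
    b ≤ nc p sL (ω t) b ∧ ¬ (strip p ω).ho t (-1 - (nc p sL (ω t) b : ℕ)) := by
  obtain ⟨x, hx1, hx2⟩ := (h t (-1 - b)).2
  have h2 : (-1 - x).toNat ∈ {x : ℕ | b ≤ x ∧ ω t (sL x) ∉ opn p} := by
    refine ⟨by omega, ?_⟩
    have h3 : sL (-1 - x).toNat = x := by
      unfold sL
      omega
    rw [h3]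
    exact hx2
  exact Nat.sInf_mem ⟨_, h2⟩

theorem nc_mono {p : ℝ} {ω : Arr} {σ : ℕ → ℤ} (t : ℕ) {b b' : ℕ} (hb : b ≤ b')
    (h : ∃ x : ℕ, b' ≤ x ∧ ω t (σ x) ∉ opn p) : nc p σ (ω t) b ≤ nc p σ (ω t) b' := by
  have h2 : nc p σ (ω t) b' ∈ {x : ℕ | b' ≤ x ∧ ω t (σ x) ∉ opn p} := Nat.sInf_mem h
  exact Nat.sInf_le ⟨hb.trans h2.1, h2.2⟩

theorem dom_R {p : ℝ} {ω : Arr} (h : Cl p ω) {A : Set ℤ} {b₀ : ℕ} (hA : ∀ x ∈ A, x ≤ b₀)
    (t : ℕ) : ∀ x ∈ (strip p ω).OS A t, x ≤ (Rb p sR b₀ ω t : ℕ) := by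
  induction t with
  | zero => exact hA
  | succ t ih =>
    intro y hy
    obtain ⟨h2, h3⟩ := nc_R h t (Rb p sR b₀ ω t)
    have h4 := V_upper (strip p ω) (H_upper (strip p ω) ih (by exact_mod_cast h2) h3) y hy
    refine h4.trans ?_
    show ps (xi ω t) (((nc p sR (ω t) (Rb p sR b₀ ω t) : ℕ) : ℤ) + 1) ≤
      ((GG p sR (ω t) (Rb p sR b₀ ω t) : ℕ) : ℤ)
    unfold GG
    generalize nc p sR (ω t) (Rb p sR b₀ ω t) = n
    induction n with
    | zero =>
      rw [ps_succ]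
      simp [ps_zero, sR, xi]
    | succ n ih2 =>
      rw [ps_succ, Finset.sum_range_succ]
      push_cast at ih2 ⊢
      have h5 : (xi ω t (((n : ℤ)) + 1) : ℤ) = ((ω t (sR (n + 1))).1 : ℤ) := by
        simp [sR, xi]
      rw [h5]
      linarith

theorem ps_neg (f : ℤ → ℕ) (n : ℕ) :
    ps f (-(n : ℤ)) = -((∑ i ∈ Finset.range n, f (-1 - (i : ℤ)) : ℕ) : ℤ) := by
  induction n with
  | zero => simp [ps_zero]
  | succ n ih =>
    have h := ps_succ f (-((n + 1 : ℕ) : ℤ))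
    have h2 : -((n + 1 : ℕ) : ℤ) + 1 = -(n : ℤ) := by push_cast; ring
    have h3 : -((n + 1 : ℕ) : ℤ) = -1 - (n : ℤ) := by push_cast; ring
    rw [h2, ih] at h
    have h4 : ((∑ i ∈ Finset.range (n + 1), f (-1 - (i : ℤ)) : ℕ) : ℤ) =
        ((∑ i ∈ Finset.range n, f (-1 - (i : ℤ)) : ℕ) : ℤ) + (f (-((n + 1 : ℕ) : ℤ)) : ℤ) := by
      rw [Finset.sum_range_succ, Nat.cast_add, h3]
    rw [h4]
    linarith

theorem dom_L {p : ℝ} {ω : Arr} (h : Cl p ω) {A : Set ℤ} {b₀ : ℕ} (hA : ∀ x ∈ A, -(b₀ : ℤ) ≤ x)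
    (t : ℕ) : ∀ x ∈ (strip p ω).OS A t, -((Rb p sL b₀ ω t : ℕ) : ℤ) ≤ x := by
  induction t with
  | zero => exact hA
  | succ t ih =>
    intro y hy
    obtain ⟨h2, h3⟩ := nc_L h t (Rb p sL b₀ ω t)
    have h4 := V_lower (strip p ω) (H_lower (strip p ω) ih (by
      have : ((Rb p sL b₀ ω t : ℕ) : ℤ) ≤ ((nc p sL (ω t) (Rb p sL b₀ ω t) : ℕ) : ℤ) := by
        exact_mod_cast h2
      omega) h3) y hy
    refine le_trans ?_ h4
    show -((GG p sL (ω t) (Rb p sL b₀ ω t) : ℕ) : ℤ) ≤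
      ps (xi ω t) (-1 - ((nc p sL (ω t) (Rb p sL b₀ ω t) : ℕ) : ℤ) + 1)
    unfold GG
    generalize nc p sL (ω t) (Rb p sL b₀ ω t) = n
    have h5 : -1 - (n : ℤ) + 1 = -(n : ℤ) := by ring
    rw [h5, ps_neg, neg_le_neg_iff]
    have h6 : ∑ i ∈ Finset.range n, xi ω t (-1 - (i : ℤ)) ≤
        ∑ i ∈ Finset.range (n + 1), ((ω t (sL i)).1 + 1) := by
      rw [Finset.sum_range_succ]
      refine le_trans (Finset.sum_le_sum fun i _ => ?_) (Nat.le_add_right _ _)
      exact Nat.le_succ _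
    exact_mod_cast h6

/-! ### Monotonicity in the coupling -/

theorem ho_Ph (p : ℝ) (α β : ℝ) (x : Xx) (t : ℕ) (i : ℤ) :
    (strip p (Ph α x)).ho t i ↔ (strip p (Ph β x)).ho t i := Iff.rfl

theorem Cl_Ph {p α : ℝ} (β : ℝ) {x : Xx} (h : Cl p (Ph α x)) : Cl p (Ph β x) := h

theorem nc_Ph (p : ℝ) (α β : ℝ) (σ : ℕ → ℤ) (x : Xx) (t b : ℕ) :
    nc p σ (Ph α x t) b = nc p σ (Ph β x t) b := rfl

theorem Rb_mono {p α β : ℝ} (h0 : 0 < α) (hab : α ≤ β) (h1 : β < 1) {σ : ℕ → ℤ} {x : Xx}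
    (hx : ∀ (t : ℕ) (i : ℤ), 0 < ((x t i).1 : ℝ))
    (hcl : ∀ t b : ℕ, ∃ j : ℕ, b ≤ j ∧ Ph β x t (σ j) ∉ opn p) (b₀ t : ℕ) :
    Rb p σ b₀ (Ph α x) t ≤ Rb p σ b₀ (Ph β x) t := by
  induction t with
  | zero => exact le_rfl
  | succ t ih =>
    show GG p σ (Ph α x t) (Rb p σ b₀ (Ph α x) t) ≤ GG p σ (Ph β x t) (Rb p σ b₀ (Ph β x) t)
    unfold GG
    rw [nc_Ph p α β]
    have h2 := nc_mono (p := p) (ω := Ph β x) (σ := σ) t ih (hcl t _)
    calc ∑ i ∈ Finset.range (nc p σ (Ph β x t) (Rb p σ b₀ (Ph α x) t) + 1),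
          ((Ph α x t (σ i)).1 + 1)
        ≤ ∑ i ∈ Finset.range (nc p σ (Ph β x t) (Rb p σ b₀ (Ph α x) t) + 1),
          ((Ph β x t (σ i)).1 + 1) :=
          Finset.sum_le_sum fun i _ => Nat.succ_le_succ (gq_mono h0 hab h1 (hx t (σ i)))
      _ ≤ ∑ i ∈ Finset.range (nc p σ (Ph β x t) (Rb p σ b₀ (Ph β x) t) + 1),
          ((Ph β x t (σ i)).1 + 1) :=
          Finset.sum_le_sum_of_subset (Finset.range_subset_range.2 (by omega))

/-- The quantity of the criterion. -/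
def FF (p : ℝ) (z T : ℕ) (ω : Arr) : ENNReal :=
  (cov z ((strip p ω).OS (Ico 0 (z : ℤ)) T) : ENNReal)

theorem meas_FF (p : ℝ) (z T : ℕ) : Measurable (FF p z T) := by
  have hm := m_OS p (Ico 0 (z : ℤ)) T
  have h2 : Measurable fun ω : Arr => cov z ((strip p ω).OS (Ico 0 (z : ℤ)) T) := by
    unfold cov
    refine Measurable.ite (measurableSet_setOfPred.2 (m_nonempty hm)) ?_ measurable_const
    exact (measurable_of_countable (fun k : ℤ => k.toNat / z + 1)).comp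
      ((m_sSup hm).sub (m_sInf hm))
  exact (measurable_of_countable (fun n : ℕ => (n : ENNReal))).comp h2

theorem FF_le {p : ℝ} {z T : ℕ} {ω : Arr} (h : Cl p ω) :
    FF p z T ω ≤ (Rb p sR z ω T : ENNReal) + (Rb p sL 0 ω T : ENNReal) + 1 := by
  classical
  have hR := dom_R h (A := Ico 0 (z : ℤ)) (b₀ := z) (fun x hx => hx.2.le) T
  have hL := dom_L h (A := Ico 0 (z : ℤ)) (b₀ := 0) (fun x hx => by simpa using hx.1) T
  unfold FF cov
  split_ifs with hne
  · have h2 : sSup ((strip p ω).OS (Ico 0 (z : ℤ)) T) ≤ (Rb p sR z ω T : ℕ) := csSup_le hne hR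
    have h3 : -((Rb p sL 0 ω T : ℕ) : ℤ) ≤ sInf ((strip p ω).OS (Ico 0 (z : ℤ)) T) :=
      le_csInf hne hL
    have h4 : (sSup ((strip p ω).OS (Ico 0 (z : ℤ)) T) -
        sInf ((strip p ω).OS (Ico 0 (z : ℤ)) T)).toNat / z + 1 ≤
        Rb p sR z ω T + Rb p sL 0 ω T + 1 := by
      have := Nat.div_le_self (sSup ((strip p ω).OS (Ico 0 (z : ℤ)) T) -
        sInf ((strip p ω).OS (Ico 0 (z : ℤ)) T)).toNat z
      omega
    exact_mod_cast h4
  · simp

/-! ### Locality -/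

theorem OS_local {E E' : Strip} {T : ℕ} {Q : ℤ} {A : Set ℤ} (hho : ∀ t i, E.ho t i ↔ E'.ho t i)
    (hS : ∀ t < T, ∀ i, -Q ≤ i → i ≤ Q + 1 → E.S t i = E'.S t i)
    (hv : ∀ t < T, ∀ i y, -Q ≤ i → i ≤ Q → (E.vo t i y ↔ E'.vo t i y))
    (hH : ∀ t < T, ∀ x ∈ E.H t (E.OS A t), -Q ≤ x ∧ x ≤ Q) {t : ℕ} (ht : t ≤ T) :
    E.OS A t = E'.OS A t := by
  induction t with
  | zero => rfl
  | succ t ih =>
    have h1 : E.H t (E.OS A t) = E'.H t (E'.OS A t) := by
      rw [← ih (by omega)]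
      ext x
      unfold Strip.H
      simp only [mem_ofPred_eq, hho]
    show E.V t (E.H t (E.OS A t)) = E'.V t (E'.H t (E'.OS A t))
    rw [← h1]
    ext y
    constructor
    · rintro ⟨x, hx, hx1, hx2⟩
      obtain ⟨h2, h3⟩ := hH t (by omega) x hx
      refine ⟨x, hx, ?_, (hv t (by omega) x y h2 h3).1 hx2⟩
      unfold Strip.IsV at hx1 ⊢
      rw [← hS t (by omega) x h2 (by omega), ← hS t (by omega) (x + 1) (by omega) (by omega)]
      exact hx1
    · rintro ⟨x, hx, hx1, hx2⟩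
      obtain ⟨h2, h3⟩ := hH t (by omega) x hx
      refine ⟨x, hx, ?_, (hv t (by omega) x y h2 h3).2 hx2⟩
      unfold Strip.IsV at hx1 ⊢
      rw [hS t (by omega) x h2 (by omega), hS t (by omega) (x + 1) (by omega) (by omega)]
      exact hx1

theorem H_bdd {E : Strip}
    (hcl : ∀ (t : ℕ) (b : ℤ), (∃ x, b ≤ x ∧ ¬ E.ho t x) ∧ (∃ x, x ≤ b ∧ ¬ E.ho t x))
    {A : Set ℤ} (hA : BddAbove A) (hA' : BddBelow A) (T : ℕ) :
    ∃ Q : ℕ, ∀ t < T, ∀ x ∈ E.H t (E.OS A t), -(Q : ℤ) ≤ x ∧ x ≤ Q := by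
  induction T with
  | zero => exact ⟨0, fun t ht => absurd ht (Nat.not_lt_zero t)⟩
  | succ T ih =>
    obtain ⟨Q, hQ⟩ := ih
    obtain ⟨⟨b, hb⟩, ⟨b', hb'⟩⟩ := OS_bdd E hcl hA hA' T
    obtain ⟨x, hx1, hx2⟩ := (hcl T b).1
    obtain ⟨x', hx3, hx4⟩ := (hcl T (b' - 1)).2
    refine ⟨Q + x.natAbs + (x' + 1).natAbs, fun t ht y hy => ?_⟩
    rcases Nat.lt_succ_iff_lt_or_eq.1 ht with h | rfl
    · obtain ⟨h2, h3⟩ := hQ t h y hy
      constructor <;> omega
    · have h2 := H_upper E (fun a ha => hb ha) hx1 hx2 y hy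
      have h3 := H_lower E (fun a ha => hb' ha) (by omega : x' < b') hx4 y hy
      constructor <;> omega

theorem ps_congr {f g : ℤ → ℕ} {Q x : ℤ} (h : ∀ i, -Q ≤ i → i ≤ Q → f i = g i)
    (h1 : -Q ≤ x) (h2 : x ≤ Q + 1) : ps f x = ps g x := by
  unfold ps
  congr 1
  · refine Finset.sum_congr rfl fun i hi => ?_
    rw [Finset.mem_Ico] at hi
    rw [h i (by omega) (by omega)]
  · refine Finset.sum_congr rfl fun i hi => ?_
    rw [Finset.mem_Ico] at hi
    rw [h i (by omega) (by omega)]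

theorem FF_eventually {p : ℝ} {z T : ℕ} {x : Xx} (hx : ∀ (t : ℕ) (i : ℤ), 0 < ((x t i).1 : ℝ))
    (hcl : Cl p (Ph (1 / 2) x)) :
    ∀ᶠ α : ℝ in 𝓝[≥] (1 / 2 : ℝ), FF p z T (Ph α x) = FF p z T (Ph (1 / 2) x) := by
  obtain ⟨Q, hQ⟩ := H_bdd (E := strip p (Ph (1 / 2) x)) hcl (A := Ico 0 (z : ℤ))
    ⟨z, fun x hx => hx.2.le⟩ ⟨0, fun x hx => hx.1⟩ T
  have h2 : ∀ᶠ α : ℝ in 𝓝[≥] (1 / 2 : ℝ), ∀ t ∈ Finset.range T, ∀ i ∈ Finset.Icc (-(Q : ℤ)) Q,
      gq α (x t i).1 = gq (1 / 2) (x t i).1 := by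
    rw [Finset.eventually_all]
    intro t _
    rw [Finset.eventually_all]
    intro i _
    exact gq_cont (hx t i)
  filter_upwards [h2] with α hα
  have hxi : ∀ t < T, ∀ i, -(Q : ℤ) ≤ i → i ≤ Q → xi (Ph (1 / 2) x) t i = xi (Ph α x) t i := by
    intro t ht i hi1 hi2
    exact (hα t (Finset.mem_range.2 ht) i (Finset.mem_Icc.2 ⟨hi1, hi2⟩)).symm
  have h3 : (strip p (Ph (1 / 2) x)).OS (Ico 0 (z : ℤ)) T =
      (strip p (Ph α x)).OS (Ico 0 (z : ℤ)) T := by
    refine OS_local (Q := (Q : ℤ)) (fun t i => ho_Ph p _ _ x t i) ?_ ?_ hQ le_rfl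
    · intro t ht i hi1 hi2
      exact ps_congr (hxi t ht) hi1 hi2
    · intro t ht i y hi1 hi2
      show ((((Ph (1 / 2) x) t i).2 ((y - ps (xi (Ph (1 / 2) x) t) i).toNat + 1) :
        unitInterval) : ℝ) ≤ p ↔ ((((Ph α x) t i).2 ((y - ps (xi (Ph α x) t) i).toNat + 1) :
        unitInterval) : ℝ) ≤ p
      rw [ps_congr (hxi t ht) hi1 (by omega)]
      exact Iff.rfl
  unfold FF
  rw [h3]

end CO

open CO CEx in
theorem critOpen : CritOpenStmt := by
  intro p z T _ hp _ hc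
  have e1 : ∀ α : ℝ, 0 < α → α < 1 → covE α p z T = ∫⁻ x, FF p z T (Ph α x) ∂xLaw := by
    intro α h0 h1
    show ∫⁻ ω, FF p z T ω ∂arrLaw α = ∫⁻ x, FF p z T (Ph α x) ∂xLaw
    rw [← map_Ph h0 h1, lintegral_map (meas_FF p z T) (meas_Ph h0 h1)]
  have hcl : ∀ᵐ x ∂xLaw, Cl p (Ph (1 / 2) x) := by
    have h2 := closed_ae (α := 1 / 2) (p := p) (by norm_num) (by norm_num) hp
    rw [← map_Ph (by norm_num) (by norm_num)] at h2
    exact ae_of_ae_map (meas_Ph (by norm_num) (by norm_num)).aemeasurable h2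
  have hnear : ∀ᶠ α : ℝ in 𝓝[≥] (1 / 2 : ℝ), 1 / 2 ≤ α ∧ α ≤ 3 / 5 := by
    have h2 : ∀ᶠ α : ℝ in 𝓝[≥] (1 / 2 : ℝ), α ≤ 3 / 5 :=
      nhdsWithin_le_nhds (Iic_mem_nhds (by norm_num))
    filter_upwards [h2, self_mem_nhdsWithin] with α h3 h4
    exact ⟨h4, h3⟩
  have hlim : Tendsto (fun α : ℝ => ∫⁻ x, FF p z T (Ph α x) ∂xLaw) (𝓝[≥] (1 / 2 : ℝ))
      (𝓝 (∫⁻ x, FF p z T (Ph (1 / 2) x) ∂xLaw)) := by
    refine tendsto_lintegral_filter_of_dominated_convergence
      (fun x => (Rb p sR z (Ph (3 / 5) x) T : ENNReal) + (Rb p sL 0 (Ph (3 / 5) x) T : ENNReal) + 1)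
      ?_ ?_ ?_ ?_
    · filter_upwards [hnear] with α hα
      exact (meas_FF p z T).comp (meas_Ph (by linarith) (by linarith))
    · filter_upwards [hnear] with α hα
      filter_upwards [pos_ae, hcl] with x hx hc1
      refine (FF_le (Cl_Ph α hc1)).trans ?_
      have h3 : Rb p sR z (Ph α x) T ≤ Rb p sR z (Ph (3 / 5) x) T := by
        refine Rb_mono (by linarith) hα.2 (by norm_num) hx (fun t b => ?_) z T
        obtain ⟨y, hy1, hy2⟩ := (hc1 t b).1
        refine ⟨y.toNat, by omega, ?_⟩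
        have h4 : sR y.toNat = y := by
          unfold sR
          omega
        rw [h4]
        exact hy2
      have h4 : Rb p sL 0 (Ph α x) T ≤ Rb p sL 0 (Ph (3 / 5) x) T := by
        refine Rb_mono (by linarith) hα.2 (by norm_num) hx (fun t b => ?_) 0 T
        obtain ⟨y, hy1, hy2⟩ := (hc1 t (-1 - b)).2
        refine ⟨(-1 - y).toNat, by omega, ?_⟩
        have h4 : sL (-1 - y).toNat = y := by
          unfold sL
          omega
        rw [h4]
        exact hy2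
      exact add_le_add (add_le_add (by exact_mod_cast h3) (by exact_mod_cast h4)) le_rfl
    · have hmR : ∀ (σ : ℕ → ℤ) (b : ℕ), Measurable fun ω : Arr => (Rb p σ b ω T : ENNReal) :=
        fun σ b => (measurable_of_countable (fun n : ℕ => (n : ENNReal))).comp (meas_Rb p σ b T)
      have hmP : Measurable (Ph (3 / 5)) := meas_Ph (by norm_num) (by norm_num)
      have h3 : ∀ (σ : ℕ → ℤ) (b : ℕ), Function.Injective σ →
          ∫⁻ x, (Rb p σ b (Ph (3 / 5) x) T : ENNReal) ∂xLaw < ⊤ := by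
        intro σ b hσ
        have h4 := Rb_int (α := 3 / 5) (by norm_num) (by norm_num) hp hσ b T
        rw [← map_Ph (by norm_num) (by norm_num), lintegral_map (hmR σ b) hmP] at h4
        exact h4
      have hmL : Measurable fun x : Xx => (Rb p sL 0 (Ph (3 / 5) x) T : ENNReal) :=
        (hmR sL 0).comp hmP
      rw [lintegral_add_right _ measurable_const, lintegral_add_right _ hmL]
      simp only [lintegral_const, measure_univ, mul_one]
      exact (ENNReal.add_lt_top.2 ⟨ENNReal.add_lt_top.2 ⟨h3 _ _ sR_inj, h3 _ _ sL_inj⟩,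
        ENNReal.one_lt_top⟩).ne
    · filter_upwards [pos_ae, hcl] with x hx hc1
      exact tendsto_const_nhds.congr' ((FF_eventually hx hc1).mono fun α hα => hα.symm)
  rw [← e1 (1 / 2) (by norm_num) (by norm_num)] at hlim
  have h2 := (hlim.eventually_lt_const hc).and hnear
  rw [eventually_nhdsWithin_iff, Metric.eventually_nhds_iff] at h2
  obtain ⟨ε, hε, h3⟩ := h2
  refine ⟨ε, hε, fun α ha1 ha2 => ?_⟩
  have h4 : dist α (1 / 2) < ε := by
    rw [Real.dist_eq, abs_of_nonneg (by linarith)]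
    linarith
  obtain ⟨h5, h6⟩ := h3 h4 ha1
  rw [e1 α (by linarith) (by linarith)]
  exact h5

end CausalPerc.Neg
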