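import Pool.Agent.Lib.MP_a51368_pr.Neg.Defs

/-!
# The random strip
-/

open MeasureTheory Set

noncomputable section

namespace CausalPerc.Neg

/-- The data of a vertex `(t,x)`: number of children; labels: `0` for the horizontal edge
`(t,x) - (t,x+1)`, `j+1` for the vertical edge `(t,x) - (t+1, S t x + j)`. -/
abbrev Nd := ℕ × (ℕ → unitInterval)

abbrev Row := ℤ → Nd

abbrev Arr := ℕ → Row

/-- `ps f x = f 0 + ⋯ + f (x-1)` for `x ≥ 0` and `-(f x + ⋯ + f (-1))` for `x < 0`. -/
def ps (f : ℤ → ℕ) (x : ℤ) : ℤ :=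
  ∑ i ∈ Finset.Ico 0 x, (f i : ℤ) - ∑ i ∈ Finset.Ico x 0, (f i : ℤ)

theorem ps_zero (f : ℤ → ℕ) : ps f 0 = 0 := by simp [ps]

theorem ps_succ (f : ℤ → ℕ) (x : ℤ) : ps f (x + 1) = ps f x + f x := by
  unfold ps
  rcases lt_or_ge x 0 with h | h
  · have h1 : Finset.Ico 0 (x + 1) = ∅ := Finset.Ico_eq_empty (by omega)
    have h2 : Finset.Ico 0 x = ∅ := Finset.Ico_eq_empty (by omega)
    have h3 : Finset.Ico x 0 = insert x (Finset.Ico (x + 1) 0) := by
      ext i
      simp only [Finset.mem_Ico, Finset.mem_insert]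
      omega
    rw [h1, h2, h3, Finset.sum_insert (by simp)]
    simp
  · have h1 : Finset.Ico (x + 1) 0 = ∅ := Finset.Ico_eq_empty (by omega)
    have h2 : Finset.Ico x 0 = ∅ := Finset.Ico_eq_empty (by omega)
    have h3 : Finset.Ico 0 (x + 1) = insert x (Finset.Ico 0 x) := by
      ext i
      simp only [Finset.mem_Ico, Finset.mem_insert]
      omega
    rw [h1, h2, h3, Finset.sum_insert (by simp)]
    simp [add_comm]

/-- Number of children of `(t,x)`. -/
def xi (ω : Arr) (t : ℕ) (x : ℤ) : ℕ := (ω t x).1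

/-- The strip coded by the array `ω`, at level `p`. -/
def strip (p : ℝ) (ω : Arr) : Strip where
  S t x := ps (xi ω t) x
  vo t x y := (((ω t x).2 ((y - ps (xi ω t) x).toNat + 1) : unitInterval) : ℝ) ≤ p
  ho t x := (((ω t x).2 0 : unitInterval) : ℝ) ≤ p
  mono' t x := by rw [ps_succ]; simp

/-- The lines of descent (they do not depend on the labels). -/
def DD (ω : Arr) : ℕ → ℤ → ℤ
  | 0, a => a
  | t + 1, a => ps (xi ω t) (DD ω t a)

theorem strip_D (p : ℝ) (ω : Arr) (t : ℕ) (a : ℤ) : (strip p ω).D t a = DD ω t a := by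
  induction t with
  | zero => rfl
  | succ t ih =>
    show ps (xi ω t) ((strip p ω).D t a) = ps (xi ω t) (DD ω t a)
    rw [ih]

/-- Forget the first `s` rows. -/
def post (s : ℕ) (ω : Arr) : Arr := fun t => ω (s + t)

/-- The array seen from the line of `a`. -/
def cshift (a : ℤ) (ω : Arr) : Arr := fun t x => ω t (x + DD ω t a)

/-- `F` depends only on the first `n` rows. -/
def RowDep (n : ℕ) (F : Set Arr) : Prop :=
  ∀ ω ω' : Arr, (∀ t < n, ω t = ω' t) → ω ∈ F → ω' ∈ F

/-- `F` depends only on the first `n` rows of the column of `[0,b)`. -/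
def ColDep (b : ℤ) (n : ℕ) (F : Set Arr) : Prop :=
  ∀ ω ω' : Arr, (∀ t < n, ∀ x, 0 ≤ x → x < DD ω t b → ω t x = ω' t x) → ω ∈ F → ω' ∈ F

/-- The law of the data of one vertex. -/
def ndLaw (α : ℝ) : Measure Nd :=
  (geo α).prod (Measure.infinitePi fun _ : ℕ => (volume : Measure unitInterval))

/-- The law of one row. -/
def rowLaw (α : ℝ) : Measure Row := Measure.infinitePi fun _ : ℤ => ndLaw α

/-- The law of the array. -/
def arrLaw (α : ℝ) : Measure Arr := Measure.infinitePi fun _ : ℕ => rowLaw α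

/-- Probability that there is no open crossing of height `n` in the column of `[0,b)`. -/
def vv (α p : ℝ) (b : ℤ) (n : ℕ) : ℝ :=
  (arrLaw α).real {ω | ¬ (strip p ω).Cross 0 b n}

/-- Probability that a horizontal edge has a closed dual path of height `n`. -/
def uu (α p : ℝ) (n : ℕ) : ℝ :=
  (arrLaw α).real {ω | (strip p ω).DUp univ n 0}

/-- Positive probability of an infinite oriented cluster inside a finite column. -/
def ColInf (α p : ℝ) : Prop :=
  ∃ h : ℕ, 0 < arrLaw α {ω | ∀ n, (strip p ω).OCross 0 h n}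

end CausalPerc.Neg
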