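import Pool.Agent.Lib.MP_a51368_pr.Neg.Basic
import Pool.Agent.Lib.MP_a51368_pr.Neg.Arr

/-!
# Module statements, part 1: deterministic geometry of strips, basic facts on the random strip
-/

open MeasureTheory Set

namespace CausalPerc.Neg

/-! ## Deterministic modules -/

/-- `1` if the vertex `u` is at level `t` and its position is `≤ y`. -/
def ind (u : ℕ × ℤ) (t : ℕ) (y : ℤ) : ZMod 2 := if u.1 = t ∧ u.2 ≤ y then 1 else 0

/-- Parity of the number of vertical steps in layer `t` of a walk from `u` to `v`. -/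
def tot (u v : ℕ × ℤ) (t : ℕ) : ZMod 2 :=
  (if u.1 ≤ t then 1 else 0) + (if v.1 ≤ t then 1 else 0)

/-- PARITY FUNCTION of an open walk `P` from `u` to `v` in `R` (slab of height `n`):
`φ t x y` is the number mod 2 of vertical steps `(t,x') - (t+1,y')` of `P` with `x' ≤ x`, `y' ≤ y`.
Proof: induction over the steps of the walk. -/
def ParityStmt : Prop :=
  ∀ (E : Strip) (n : ℕ) (R : Set (ℕ × ℤ)) (u v : ℕ × ℤ), E.Conn n R u v → u.1 ≤ n →
    ∃ φ : ℕ → ℤ → ℤ → ZMod 2,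
      (∀ t x y, t < n → E.IsV t x y → ¬ E.vo t (E.nx t (x, y)).1 (E.nx t (x, y)).2 →
        φ t x y = φ t (E.nx t (x, y)).1 (E.nx t (x, y)).2) ∧
      (∀ t x y, E.IsV t x y → y < E.S t (x + 1) → (t + 1 < n → ¬ E.ho (t + 1) y) →
        φ t x y = φ (t + 1) y (E.S (t + 1) (y + 1)) + ind u (t + 1) y + ind v (t + 1) y) ∧
      (∀ x, (0 < n → ¬ E.ho 0 x) → φ 0 x (E.S 0 (x + 1)) = ind u 0 x + ind v 0 x) ∧
      (∀ t x y, n ≤ t → φ t x y = 0) ∧
      (∀ t x y, φ t x y ≠ 0 →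
        ∃ x' y', (t, x') ∈ R ∧ (t + 1, y') ∈ R ∧ E.IsV t x' y' ∧ x' ≤ x ∧ y' ≤ y) ∧
      (∀ t x y, t < n → E.IsV t x y → φ t x y ≠ tot u v t →
        ∃ x' y', (t, x') ∈ R ∧ (t + 1, y') ∈ R ∧ E.IsV t x' y' ∧ x ≤ x' ∧ y ≤ y' ∧
          x + y < x' + y')

/-- BLOCKING: a closed dual path from the horizontal edge `(0,e)` cannot pass a column which has an
open crossing of the whole slab.  (from ParityStmt) -/
def BlockStmt : Prop :=
  ∀ (E : Strip) (n : ℕ) (a b e : ℤ) (q : Strip.Tri), E.Cross a b n →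
    E.DConn n univ (0, e, E.S 0 (e + 1)) q → q.1 < n → ¬ E.ho 0 e →
    (e < a → q.2.1 < E.D q.1 b) ∧ (b ≤ e → E.D q.1 a ≤ q.2.1)

/-- CONFINEMENT: consequence of blocking on both sides. -/
def ConfineStmt : Prop :=
  ∀ (E : Strip) (n : ℕ) (a' a b c e : ℤ), a ≤ e → e < b → E.Cross a' a n → E.Cross b c n →
    E.DUp univ n e → E.DUp (E.col a' c) n e

/-- SEPARATION: if the edge `(0,e)` has a closed dual path of height `n`, then the enhanced sets
started from the left and from the right of this edge are separated at level `n`.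
(Every point of `ES A n` is `Conn n univ`-connected to a point of `A`; then ParityStmt.) -/
def SeparateStmt : Prop :=
  ∀ (E : Strip) (n : ℕ) (e : ℤ), E.DUp univ n e →
    ∃ y, (∀ z ∈ E.ES (Iic e) n, z ≤ y) ∧ (∀ z ∈ E.ES (Ioi e) n, y < z)

/-- First visit of level `n` by a closed dual path. -/
def DFirstStmt : Prop :=
  ∀ (E : Strip) (R : Set (ℕ × ℤ)) (n m : ℕ) (e : ℤ), 1 ≤ n → n ≤ m → E.DUp R m e → E.DUp R n e

/-- Last crossing of level `s` by a closed dual path: the edge `(s,y)`. -/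
def DLastStmt : Prop :=
  ∀ (E : Strip) (R : Set (ℕ × ℤ)) (s m : ℕ) (e : ℤ), 1 ≤ m → E.DUp R (s + m) e →
    ∃ y, (s, y) ∈ R ∧ (E.shift s).DUp {v | (s + v.1, v.2) ∈ R} m y ∧
      E.DConn (s + m) R (0, e, E.S 0 (e + 1)) (s, y, E.S s (y + 1))

/-- DUALITY: two open crossings of a region which are not connected inside the region are separated
by a closed dual path.  (colouring + ParityStmt, finite count mod 2) -/
def DualityStmt : Prop :=
  ∀ (E : Strip) (n : ℕ) (lo hi : ℕ → ℤ) (x₁ y₁ x₂ y₂ : ℤ), 1 ≤ n → x₁ < x₂ →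
    lo 0 ≤ x₁ → x₂ < hi 0 →
    E.Conn n {v | lo v.1 ≤ v.2 ∧ v.2 < hi v.1} (0, x₁) (n, y₁) →
    E.Conn n {v | lo v.1 ≤ v.2 ∧ v.2 < hi v.1} (0, x₂) (n, y₂) →
    ¬ E.Conn n {v | lo v.1 ≤ v.2 ∧ v.2 < hi v.1} (0, x₁) (0, x₂) →
    ∃ x, x₁ ≤ x ∧ x < x₂ ∧ E.DUp {v | lo v.1 ≤ v.2 ∧ v.2 < hi v.1} n x

/-- CHAIN: open crossings of the overlapping slabs `[ih, ih+2h)` of a column are connected to each
other, if no horizontal edge of the column at a level `ih`, `i ≥ 1`, has a closed dual path of height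
`h` inside the column.  (from DualityStmt and `Conn.subslab`) -/
def ChainStmt : Prop :=
  ∀ (E : Strip) (h I : ℕ) (a b : ℤ) (x y : ℕ → ℤ), 1 ≤ h →
    (∀ i ≤ I, E.D (i * h) a ≤ x i ∧ x i < E.D (i * h) b ∧
      (E.shift (i * h)).Conn (2 * h) ((E.shift (i * h)).col (E.D (i * h) a) (E.D (i * h) b))
        (0, x i) (2 * h, y i)) →
    (∀ i, 1 ≤ i → i ≤ I → ∀ z,
      ¬ (E.shift (i * h)).DUp ((E.shift (i * h)).col (E.D (i * h) a) (E.D (i * h) b)) h z) →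
    ∀ i ≤ I, ∀ j ≤ I, E.Conn ((I + 2) * h) (E.col a b) (i * h, x i) (j * h, x j)

/-- RECENTRING: all notions seen from the line of `a`. -/
def RecentreStmt : Prop :=
  ∀ (E : Strip) (a : ℤ),
    (∀ t x, (E.recentre a).D t x = E.D t (x + a) - E.D t a) ∧
    (∀ n x y u v, (E.recentre a).Conn n ((E.recentre a).col x y) u v ↔
      E.Conn n (E.col (x + a) (y + a)) (u.1, u.2 + E.D u.1 a) (v.1, v.2 + E.D v.1 a)) ∧
    (∀ n x y u v, (E.recentre a).OConn n ((E.recentre a).col x y) u v ↔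
      E.OConn n (E.col (x + a) (y + a)) (u.1, u.2 + E.D u.1 a) (v.1, v.2 + E.D v.1 a)) ∧
    (∀ n u v, (E.recentre a).OConn n univ u v ↔
      E.OConn n univ (u.1, u.2 + E.D u.1 a) (v.1, v.2 + E.D v.1 a)) ∧
    (∀ n A x y, (E.recentre a).CrossFrom A x y n ↔
      E.CrossFrom {z | z - a ∈ A} (x + a) (y + a) n) ∧
    (∀ n x y, (E.recentre a).OCross x y n ↔ E.OCross (x + a) (y + a) n) ∧
    (∀ n e, (E.recentre a).DUp univ n e ↔ E.DUp univ n (e + a)) ∧
    (∀ n x y e, (E.recentre a).DUp ((E.recentre a).col x y) n e ↔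
      E.DUp (E.col (x + a) (y + a)) n (e + a)) ∧
    (∀ n A z, z ∈ (E.recentre a).OS A n ↔ z + E.D n a ∈ E.OS {x | x - a ∈ A} n) ∧
    (∀ n A z, z ∈ (E.recentre a).ES A n ↔ z + E.D n a ∈ E.ES {x | x - a ∈ A} n)

/-! ## The random strip -/

/-- `strip` commutes with `cshift`/`recentre` and with `post`/`shift`. -/
def StripShiftStmt : Prop :=
  (∀ (p : ℝ) (a : ℤ) (ω : Arr), strip p (cshift a ω) = (strip p ω).recentre a) ∧
  (∀ (p : ℝ) (s : ℕ) (ω : Arr), strip p (post s ω) = (strip p ω).shift s) ∧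
  (∀ (a b : ℤ) (t : ℕ) (ω : Arr), DD (cshift a ω) t b = DD ω t (b + a) - DD ω t a) ∧
  (∀ (a : ℤ) (s t : ℕ) (ω : Arr), DD (post s ω) t (DD ω s a) = DD ω (s + t) a)

/-- Events of the column `[0,b)` of height `n` depend only on this column. -/
def ColDepStmt : Prop :=
  ∀ (p : ℝ) (n : ℕ) (b : ℤ), 0 ≤ b →
    (∀ u v, ColDep b n {ω | (strip p ω).Conn n ((strip p ω).col 0 b) u v}) ∧
    (∀ A, ColDep b n {ω | (strip p ω).CrossFrom A 0 b n}) ∧
    ColDep b n {ω | (strip p ω).OCross 0 b n} ∧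
    (∀ e, ColDep b n {ω | (strip p ω).DUp ((strip p ω).col 0 b) n e}) ∧
    (∀ a c : ℤ, 0 ≤ a → c ≤ b → ∀ A, ColDep b n {ω | (strip p ω).CrossFrom A a c n}) ∧
    (∀ z : ℤ, ColDep b n {ω | DD ω n b = z}) ∧
    (∀ u v, RowDep n {ω | (strip p ω).Conn n univ u v}) ∧
    (∀ u v, RowDep n {ω | (strip p ω).OConn n univ u v}) ∧
    (∀ e, RowDep n {ω | (strip p ω).DUp univ n e}) ∧
    (∀ A z, RowDep n {ω | z ∈ (strip p ω).OS A n}) ∧
    (∀ A z, RowDep n {ω | z ∈ (strip p ω).ES A n})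

/-- Measurability of the basic events. -/
def MeasStmt : Prop :=
  (∀ t x, Measurable fun ω : Arr => DD ω t x) ∧
  (∀ a, Measurable (cshift a)) ∧ (∀ s, Measurable (post s)) ∧
  ∀ (p : ℝ) (n : ℕ) (a b : ℤ),
    (∀ u v, MeasurableSet {ω | (strip p ω).Conn n ((strip p ω).col a b) u v}) ∧
    (∀ u v, MeasurableSet {ω | (strip p ω).Conn n univ u v}) ∧
    (∀ u v, MeasurableSet {ω | (strip p ω).OConn n ((strip p ω).col a b) u v}) ∧
    (∀ u v, MeasurableSet {ω | (strip p ω).OConn n univ u v}) ∧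
    (∀ A, MeasurableSet {ω | (strip p ω).CrossFrom A a b n}) ∧
    MeasurableSet {ω | (strip p ω).OCross a b n} ∧
    (∀ e, MeasurableSet {ω | (strip p ω).DUp univ n e}) ∧
    (∀ e, MeasurableSet {ω | (strip p ω).DUp ((strip p ω).col a b) n e}) ∧
    (∀ u v, MeasurableSet {ω | (strip p ω).DConn n univ u v}) ∧
    (∀ A z, MeasurableSet {ω | z ∈ (strip p ω).OS A n}) ∧
    (∀ A z, MeasurableSet {ω | z ∈ (strip p ω).ES A n})

/-- ADAPTED INJECTIONS preserve the i.i.d. structure. -/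
def AdaptedStmt : Prop :=
  ∀ (α : ℝ), 0 ≤ α → α < 1 → ∀ (ι : Type) [Countable ι] (φ : ℕ → Arr → ι → ℤ),
    (∀ t ω, Function.Injective (φ t ω)) →
    (∀ t (ω ω' : Arr), (∀ s < t, ω s = ω' s) → φ t ω = φ t ω') →
    (∀ t i, Measurable fun ω => φ t ω i) →
    (arrLaw α).map (fun (ω : Arr) (t : ℕ) (i : ι) => ω t (φ t ω i)) =
      Measure.infinitePi fun _ : ℕ => Measure.infinitePi fun _ : ι => ndLaw α

/-- Translation invariance along the line of `a`. -/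
def CshiftStmt : Prop :=
  ∀ (α : ℝ), 0 ≤ α → α < 1 → ∀ a : ℤ, (arrLaw α).map (cshift a) = arrLaw α

/-- Disjoint columns are independent. -/
def ColIndepStmt : Prop :=
  ∀ (α : ℝ), 0 ≤ α → α < 1 → ∀ (J : Type) [Fintype J] (a b : J → ℤ) (n : ℕ)
    (f : J → Arr → ENNReal), (∀ j, a j ≤ b j) → (Pairwise fun i j => b i ≤ a j ∨ b j ≤ a i) →
    (∀ j, Measurable (f j)) →
    (∀ j (ω ω' : Arr), (∀ t < n, ∀ x, 0 ≤ x → x < DD ω t (b j - a j) → ω t x = ω' t x) →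
      f j ω = f j ω') →
    ∫⁻ ω, ∏ j, f j (cshift (a j) ω) ∂arrLaw α = ∏ j, ∫⁻ ω, f j ω ∂arrLaw α

/-- The rows `≥ s` are independent of the rows `< s`, and have the same law as the array. -/
def SplitStmt : Prop :=
  ∀ (α : ℝ), 0 ≤ α → α < 1 → ∀ (s : ℕ) (f : Arr → Arr → ENNReal),
    Measurable (Function.uncurry f) →
    (∀ (ω ω' : Arr) (η : Arr), (∀ t < s, ω t = ω' t) → f ω η = f ω' η) →
    ∫⁻ ω, f ω (post s ω) ∂arrLaw α = ∫⁻ ω, ∫⁻ η, f ω η ∂arrLaw α ∂arrLaw α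

end CausalPerc.Neg
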