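import Pool.Agent.Lib.MP_a51368_pr.Neg.Basic
import Pool.Agent.Lib.MP_a51368_pr.Neg.Spec1

open Set Relation

namespace CausalPerc.Neg

namespace Strip

variable {E : Strip}

theorem DStep1.levels' {n : ℕ} {q r : Tri} (h : E.DStep1 n q r) :
    q.1 < n ∧ r.1 < n ∧ q.1 ≤ r.1 ∧ r.1 ≤ q.1 + 1 := by
  cases h with
  | side t x y ht hv ho => exact ⟨ht, ht, le_rfl, Nat.le_succ _⟩
  | up t x y ht hv hy ho => exact ⟨by simp only; omega, ht, Nat.le_succ _, le_rfl⟩

/-- A dual path from a layer `< n` to a layer `≥ n` visits a triangle of layer `n-1` with a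
horizontal edge at level `n`. -/
theorem DConn.first_aux {n m : ℕ} {R : Set (ℕ × ℤ)} {q r : Tri} (hs : E.DConn m R q r)
    (h1 : q.1 < n) (h2 : n ≤ r.1) :
    ∃ t x' y', t + 1 = n ∧ E.IsV t x' y' ∧ y' < E.S t (x' + 1) ∧ E.DConn n R q (t, x', y') := by
  induction hs using ReflTransGen.head_induction_on with
  | refl => omega
  | head hab hbc ih =>
    rename_i a c
    obtain ⟨ha, hc, hstep⟩ := hab
    rcases hstep with hstep | hstep
    · cases hstep with
      | side t x y ht hv ho =>
        obtain ⟨t', x', y', e1, e2, e3, e4⟩ := ih h1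
        exact ⟨t', x', y', e1, e2, e3,
          ReflTransGen.head ⟨ha, hc, Or.inl (.side t x y h1 hv ho)⟩ e4⟩
      | up t x y ht hv hy ho =>
        by_cases h3 : t + 1 < n
        · obtain ⟨t', x', y', e1, e2, e3, e4⟩ := ih h3
          exact ⟨t', x', y', e1, e2, e3,
            ReflTransGen.head ⟨ha, hc, Or.inl (.up t x y h3 hv hy ho)⟩ e4⟩
        · simp only at h1
          exact ⟨t, x, y, by omega, hv, hy, .refl⟩
    · cases hstep with
      | side t x y ht hv ho =>
        obtain ⟨t', x', y', e1, e2, e3, e4⟩ := ih h1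
        exact ⟨t', x', y', e1, e2, e3,
          ReflTransGen.head ⟨ha, hc, Or.inr (.side t x y h1 hv ho)⟩ e4⟩
      | up t x y ht hv hy ho =>
        simp only at h1
        obtain ⟨t', x', y', e1, e2, e3, e4⟩ := ih (by simp only; omega)
        exact ⟨t', x', y', e1, e2, e3,
          ReflTransGen.head ⟨ha, hc, Or.inr (.up t x y h1 hv hy ho)⟩ e4⟩

/-- Last crossing of level `s`. -/
theorem DConn.last_aux {s m : ℕ} {R : Set (ℕ × ℤ)} {e : ℤ} {r : Tri}
    (hs : E.DConn (s + m) R (0, e, E.S 0 (e + 1)) r) (h0 : ¬ E.ho 0 e) (hR : (0, e) ∈ R)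
    (h2 : s ≤ r.1) :
    ∃ y, (s, y) ∈ R ∧ ¬ E.ho s y ∧
      E.DConn (s + m) R (0, e, E.S 0 (e + 1)) (s, y, E.S s (y + 1)) ∧
      (E.shift s).DConn m {v | (s + v.1, v.2) ∈ R} (0, y, E.S s (y + 1))
        (r.1 - s, r.2.1, r.2.2) := by
  induction hs with
  | refl =>
    simp only at h2
    obtain rfl : s = 0 := by omega
    exact ⟨e, hR, h0, .refl, .refl⟩
  | tail hab hbc ih =>
    rename_i b c
    obtain ⟨hb, hc, hstep⟩ := hbc
    by_cases h3 : s ≤ b.1
    · obtain ⟨y, e1, e2, e3, e4⟩ := ih h3
      refine ⟨y, e1, e2, e3, e4.tail ?_⟩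
      have hb' : ((b.1 - s, b.2.1) : ℕ × ℤ) ∈ {v : ℕ × ℤ | (s + v.1, v.2) ∈ R} := by
        show (s + (b.1 - s), b.2.1) ∈ R
        rw [Nat.add_sub_cancel' h3]; exact hb
      have hc' : ((c.1 - s, c.2.1) : ℕ × ℤ) ∈ {v : ℕ × ℤ | (s + v.1, v.2) ∈ R} := by
        show (s + (c.1 - s), c.2.1) ∈ R
        rw [Nat.add_sub_cancel' h2]; exact hc
      refine ⟨hb', hc', ?_⟩
      rcases hstep with hstep | hstep
      · left
        cases hstep with
        | side t x y ht hv ho =>
          simp only at h3
          obtain ⟨k, rfl⟩ := Nat.exists_eq_add_of_le h3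
          have h5 : s + k - s = k := by omega
          simp only [h5]
          exact .side k x y (by omega) hv ho
        | up t x y ht hv hy ho =>
          simp only at h3
          obtain ⟨k, rfl⟩ := Nat.exists_eq_add_of_le h3
          have h5 : s + k - s = k := by omega
          have h6 : s + k + 1 - s = k + 1 := by omega
          simp only [h5, h6]
          exact .up k x y (by omega) hv hy ho
      · right
        cases hstep with
        | side t x y ht hv ho =>
          simp only at h2
          obtain ⟨k, rfl⟩ := Nat.exists_eq_add_of_le h2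
          have h5 : s + k - s = k := by omega
          simp only [h5]
          exact .side k x y (by omega) hv ho
        | up t x y ht hv hy ho =>
          simp only at h2
          obtain ⟨k, rfl⟩ := Nat.exists_eq_add_of_le h2
          have h5 : s + k - s = k := by omega
          have h6 : s + k + 1 - s = k + 1 := by omega
          simp only [h5, h6]
          exact .up k x y (by omega) hv hy ho
    · rcases hstep with hstep | hstep
      · cases hstep with
        | side t x y ht hv ho => exact absurd h2 h3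
        | up t x y ht hv hy ho =>
          simp only at h2 h3
          obtain rfl : s = t + 1 := by omega
          have hpath : E.DConn (t + 1 + m) R (0, e, E.S 0 (e + 1))
              (t + 1, y, E.S (t + 1) (y + 1)) :=
            ReflTransGen.tail hab ⟨hb, hc, Or.inl (.up t x y ht hv hy ho)⟩
          refine ⟨y, hc, ho, hpath, ?_⟩
          simp only [Nat.sub_self]
          exact .refl
      · cases hstep with
        | side t x y ht hv ho => exact absurd h2 h3
        | up t x y ht hv hy ho =>
          simp only at h2 h3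
          omega

end Strip

theorem dfirst : DFirstStmt := by
  intro E R n m e hn hnm h
  rcases hnm.eq_or_lt with rfl | hlt
  · exact h
  obtain ⟨h1, h2, t, x', y', h3, h4, h5, h6⟩ := h
  obtain ⟨t', x'', y'', e1, e2, e3, e4⟩ :=
    Strip.DConn.first_aux (n := n) h6 (by simp only; omega) (by simp only; omega)
  exact ⟨h1, h2, t', x'', y'', e1, e2, e3, e4⟩

theorem dlast : DLastStmt := by
  intro E R s m e hm h
  obtain ⟨h1, h2, t, x', y', h3, h4, h5, h6⟩ := h
  obtain ⟨y, e1, e2, e3, e4⟩ := Strip.DConn.last_aux h6 h1 h2 (by simp only; omega)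
  obtain ⟨k, rfl⟩ : ∃ k, t = s + k := ⟨t - s, by omega⟩
  have h7 : s + k - s = k := by omega
  simp only [h7] at e4
  refine ⟨y, e1, ⟨e2, e1, k, x', y', by omega, h4, h5, e4⟩, e3⟩

end CausalPerc.Neg
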