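import Pool.Agent.Lib.MP_a51368_pr.Neg.Spec1

/-!
# Duality: two open crossings which are not connected are separated by a closed dual path
-/

open Set Relation

namespace CausalPerc.Neg

namespace Dual

/-! ### Counting modulo 2 -/

section count

variable (F : Strip) (c : ℕ × ℤ → ZMod 2)

/-- Colour difference across the left vertical edge. -/
def lf (q : Strip.Tri) : ZMod 2 := c (q.1, q.2.1) + c (q.1 + 1, q.2.2)

/-- Colour difference across the right vertical edge. -/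
def rf (q : Strip.Tri) : ZMod 2 := lf c (q.1, F.nx q.1 q.2)

/-- Colour difference across the top edge of a triangle of type T. -/
def tf (q : Strip.Tri) : ZMod 2 :=
  if q.2.2 < F.S q.1 (q.2.1 + 1) then c (q.1 + 1, q.2.2) + c (q.1 + 1, q.2.2 + 1) else 0

/-- Colour difference across the bottom edge of a triangle of type B at a positive level. -/
def bf (q : Strip.Tri) : ZMod 2 :=
  if q.2.2 < F.S q.1 (q.2.1 + 1) then 0 else if q.1 = 0 then 0 else
    c (q.1, q.2.1) + c (q.1, q.2.1 + 1)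

/-- Colour difference across the bottom edge of a triangle of type B at level `0`. -/
def zf (q : Strip.Tri) : ZMod 2 :=
  if q.2.2 < F.S q.1 (q.2.1 + 1) then 0 else if q.1 = 0 then
    c (q.1, q.2.1) + c (q.1, q.2.1 + 1) else 0

theorem two_zero : ∀ a : ZMod 2, a + a = 0 := by decide

theorem add_ne_zero_iff' : ∀ a b : ZMod 2, a + b ≠ 0 ↔ a ≠ b := by decide

theorem sum_tri (q : Strip.Tri) : lf c q + rf F c q + (tf F c q + bf F c q + zf F c q) = 0 := by
  obtain ⟨t, x, y⟩ := q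
  unfold rf lf tf bf zf Strip.nx
  simp only
  have key : ∀ a b d : ZMod 2, (a + b) + (a + d) + (b + d) = 0 := by decide
  have key2 : ∀ a b d : ZMod 2, (a + b) + (d + b) + (a + d) = 0 := by decide
  split_ifs with h1 h2
  · simpa using key _ _ _
  · simpa using key2 _ _ _
  · simpa using key2 _ _ _

theorem nx_inj {t : ℕ} {x y x' y' : ℤ} (h : F.IsV t x y) (h' : F.IsV t x' y')
    (he : F.nx t (x, y) = F.nx t (x', y')) : x = x' ∧ y = y' := by
  unfold Strip.nx at he
  simp only at he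
  obtain ⟨h1, h2⟩ := h
  obtain ⟨h1', h2'⟩ := h'
  split_ifs at he with h3 h4 h4
  · simp only [Prod.mk.injEq] at he
    omega
  · simp only [Prod.mk.injEq] at he
    obtain ⟨he1, he2⟩ := he
    rw [he1] at h1
    omega
  · simp only [Prod.mk.injEq] at he
    obtain ⟨he1, he2⟩ := he
    rw [← he1] at h1'
    omega
  · simp only [Prod.mk.injEq] at he
    omega

theorem exists_prev {t : ℕ} {a b : ℤ} (h : F.IsV t a b) :
    ∃ x y, F.IsV t x y ∧ F.nx t (x, y) = (a, b) := by
  obtain ⟨h1, h2⟩ := h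
  rcases h1.eq_or_lt with h3 | h3
  · refine ⟨a - 1, b, ⟨?_, ?_⟩, ?_⟩
    · have := F.mono' t (a - 1)
      rw [sub_add_cancel] at this
      omega
    · rw [sub_add_cancel]
      omega
    · unfold Strip.nx
      simp only [sub_add_cancel]
      rw [if_neg (by omega)]
  · refine ⟨a, b - 1, ⟨by omega, by omega⟩, ?_⟩
    unfold Strip.nx
    simp only
    rw [if_pos (by omega), sub_add_cancel]

theorem T_unique {t : ℕ} {x x' y : ℤ} (h1 : F.S t x ≤ y) (h2 : y < F.S t (x + 1))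
    (h1' : F.S t x' ≤ y) (h2' : y < F.S t (x' + 1)) : x = x' := by
  by_contra hne
  rcases lt_or_gt_of_ne hne with h | h
  · have := F.S_mono t (show x + 1 ≤ x' by omega)
    omega
  · have := F.S_mono t (show x' + 1 ≤ x by omega)
    omega

theorem tele (f : ℤ → ZMod 2) (a : ℤ) (k : ℕ) :
    ∑ i ∈ Finset.range k, (f (a + i) + f (a + i + 1)) = f a + f (a + k) := by
  induction k with
  | zero =>
    rw [Finset.sum_range_zero, Nat.cast_zero, add_zero, two_zero]
  | succ k ih =>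
    rw [Finset.sum_range_succ, ih]
    push_cast
    have key : ∀ a b d : ZMod 2, a + b + (b + d) = a + d := by decide
    rw [key, add_assoc a]

theorem count {n : ℕ} (hF : ∀ t y, ∃ x, F.S t x ≤ y ∧ y < F.S t (x + 1)) (X : Finset Strip.Tri)
    (hX : ∀ q ∈ X, q.1 < n ∧ F.IsV q.1 q.2.1 q.2.2)
    (hside : ∀ t x y, t < n → F.IsV t x y →
      c (t, (F.nx t (x, y)).1) ≠ c (t + 1, (F.nx t (x, y)).2) →
      ((t, x, y) ∈ X ↔ (t, F.nx t (x, y)) ∈ X))
    (hup : ∀ t x y, t + 1 < n → F.IsV t x y → y < F.S t (x + 1) →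
      c (t + 1, y) ≠ c (t + 1, y + 1) → ((t, x, y) ∈ X ↔ (t + 1, y, F.S (t + 1) (y + 1)) ∈ X))
    (htop : ∀ t x y, t + 1 = n → (t, x, y) ∈ X → ¬ y < F.S t (x + 1))
    (x₁ : ℤ) (k : ℕ)
    (hbot : ∀ x, c (0, x) ≠ c (0, x + 1) →
      ((0, x, F.S 0 (x + 1)) ∈ X ↔ x₁ ≤ x ∧ x < x₁ + k)) :
    c (0, x₁) + c (0, x₁ + k) = 0 := by
  classical
  have h1 : ∑ q ∈ X, rf F c q = ∑ q ∈ X, lf c q := by
    refine Finset.sum_bij_ne_zero (fun q _ _ => (q.1, F.nx q.1 q.2)) ?_ ?_ ?_ ?_
    · rintro ⟨t, x, y⟩ hq hne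
      obtain ⟨h1, h2⟩ := hX _ hq
      exact (hside t x y h1 h2 ((add_ne_zero_iff' _ _).1 hne)).1 hq
    · rintro ⟨t, x, y⟩ hq _ ⟨t', x', y'⟩ hq' _ he
      simp only [Prod.mk.injEq] at he
      obtain ⟨rfl, he⟩ := he
      have h0 : x = x' ∧ y = y' := nx_inj F (hX _ hq).2 (hX _ hq').2 he
      rw [h0.1, h0.2]
    · rintro ⟨t, a, b⟩ hq hne
      obtain ⟨h1, h2⟩ := hX _ hq
      obtain ⟨x, y, h3, h4⟩ := exists_prev F h2
      have h5 : c (t, (F.nx t (x, y)).1) ≠ c (t + 1, (F.nx t (x, y)).2) := by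
        rw [h4]
        exact (add_ne_zero_iff' _ _).1 hne
      refine ⟨(t, x, y), (hside t x y h1 h3 h5).2 (by rw [h4]; exact hq), ?_, ?_⟩
      · exact (add_ne_zero_iff' _ _).2 h5
      · simp only [h4]
    · rintro ⟨t, x, y⟩ _ _
      rfl
  have h2 : ∑ q ∈ X, tf F c q = ∑ q ∈ X, bf F c q := by
    refine Finset.sum_bij_ne_zero (fun q _ _ => (q.1 + 1, q.2.2, F.S (q.1 + 1) (q.2.2 + 1))) ?_ ?_ ?_ ?_
    · rintro ⟨t, x, y⟩ hq hne
      obtain ⟨h1, h2⟩ := hX _ hq
      unfold tf at hne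
      simp only at hne
      split_ifs at hne with h3
      · have h4 : t + 1 < n := by
          by_contra h4
          exact htop t x y (by simp only at h1; omega) hq h3
        exact (hup t x y h4 h2 h3 ((add_ne_zero_iff' _ _).1 hne)).1 hq
      · exact absurd rfl hne
    · rintro ⟨t, x, y⟩ hq hne ⟨t', x', y'⟩ hq' hne' he
      simp only [Prod.mk.injEq] at he
      obtain ⟨he1, rfl, -⟩ := he
      obtain rfl : t = t' := by omega
      unfold tf at hne hne'
      simp only at hne hne'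
      split_ifs at hne with h3
      · split_ifs at hne' with h3'
        · have h0 : x = x' := T_unique F (hX _ hq).2.1 h3 (hX _ hq').2.1 h3'
          rw [h0]
        · exact absurd rfl hne'
      · exact absurd rfl hne
    · rintro ⟨t, y, z⟩ hq hne
      obtain ⟨h1, h2⟩ := hX _ hq
      unfold bf at hne
      simp only at hne h1 h2
      split_ifs at hne with h3 h4
      · exact absurd rfl hne
      · exact absurd rfl hne
      · obtain ⟨t, rfl⟩ := Nat.exists_eq_succ_of_ne_zero h4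
        have h5 : z = F.S (t + 1) (y + 1) := le_antisymm h2.2 (not_lt.1 h3)
        obtain ⟨x, hx1, hx2⟩ := hF t y
        have h6 : F.IsV t x y := ⟨hx1, hx2.le⟩
        have h7 : c (t + 1, y) ≠ c (t + 1, y + 1) := (add_ne_zero_iff' _ _).1 hne
        refine ⟨(t, x, y), (hup t x y h1 h6 hx2 h7).2 (by rw [← h5]; exact hq), ?_, ?_⟩
        · unfold tf
          simp only
          rw [if_pos hx2]
          exact (add_ne_zero_iff' _ _).2 h7
        · simp only [h5]
    · rintro ⟨t, x, y⟩ hq hne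
      unfold tf at hne ⊢
      unfold bf
      simp only at hne ⊢
      split_ifs at hne with h3
      · rw [if_pos h3, if_neg (lt_irrefl _), if_neg (Nat.succ_ne_zero t)]
      · exact absurd rfl hne
  have h3 : ∑ i ∈ Finset.range k, (c (0, x₁ + i) + c (0, x₁ + i + 1)) = ∑ q ∈ X, zf F c q := by
    refine Finset.sum_bij_ne_zero (fun i _ _ => (0, x₁ + i, F.S 0 (x₁ + i + 1))) ?_ ?_ ?_ ?_
    · intro i hi hne
      rw [Finset.mem_range] at hi
      exact (hbot _ ((add_ne_zero_iff' _ _).1 hne)).2 ⟨by omega, by omega⟩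
    · intro i _ _ j _ _ he
      simp only [Prod.mk.injEq] at he
      omega
    · rintro ⟨t, x, y⟩ hq hne
      obtain ⟨h1, h2⟩ := hX _ hq
      unfold zf at hne
      simp only at hne h1 h2
      split_ifs at hne with h3 h4
      · exact absurd rfl hne
      · subst h4
        have h5 : y = F.S 0 (x + 1) := le_antisymm h2.2 (not_lt.1 h3)
        have h6 := (add_ne_zero_iff' _ _).1 hne
        obtain ⟨h7, h8⟩ := (hbot x h6).1 (by rw [← h5]; exact hq)
        have h9 : x₁ + ((x - x₁).toNat : ℤ) = x := by omega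
        refine ⟨(x - x₁).toNat, by rw [Finset.mem_range]; omega, ?_, ?_⟩
        · rw [h9]
          exact hne
        · simp only [h9, h5]
      · exact absurd rfl hne
    · intro i _ _
      unfold zf
      simp only
      rw [if_neg (lt_irrefl _), if_pos trivial]
  have h4 : ∑ q ∈ X, (lf c q + rf F c q + (tf F c q + bf F c q + zf F c q)) = 0 :=
    Finset.sum_eq_zero fun q _ => sum_tri F c q
  rw [Finset.sum_add_distrib, Finset.sum_add_distrib, Finset.sum_add_distrib,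
    Finset.sum_add_distrib, h1, h2, two_zero, two_zero, zero_add, zero_add, ← h3] at h4
  rw [← tele (fun x => c (0, x)) x₁ k]
  exact h4

end count

/-! ### Extension of the strip outside the region -/

section ext

/-- The region. -/
def reg (lo hi : ℕ → ℤ) : Set (ℕ × ℤ) := {v | lo v.1 ≤ v.2 ∧ v.2 < hi v.1}

variable (E : Strip) (lo hi : ℕ → ℤ) (X : ℕ)

/-- The maps `S`, made unbounded. -/
def extS (t : ℕ) (x : ℤ) : ℤ :=
  if x < -X then E.S t (-X) + (x + X) else if (X : ℤ) < x then E.S t X + (x - X) else E.S t x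

/-- The strip with unbounded `S`, all edges which are not in the region being closed. -/
def ext : Strip where
  S := extS E X
  vo t x y := E.vo t x y ∧ E.IsV t x y ∧ (t, x) ∈ reg lo hi ∧ (t + 1, y) ∈ reg lo hi
  ho t x := E.ho t x ∧ (t, x) ∈ reg lo hi ∧ (t, x + 1) ∈ reg lo hi
  mono' t x := by
    unfold extS
    have h0 := E.mono' t x
    split_ifs with h1 h2 h3 h4 h5 h6 h7
    all_goals try omega
    · have : x + 1 = -X := by omega
      rw [this]
      omega
    · have : x = X := by omega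
      rw [this]
      omega

theorem extS_eq {t : ℕ} {x : ℤ} (h1 : -(X : ℤ) ≤ x) (h2 : x ≤ X) : (ext E lo hi X).S t x = E.S t x := by
  show extS E X t x = E.S t x
  unfold extS
  rw [if_neg (by omega), if_neg (by omega)]

theorem ext_unbounded (t : ℕ) (y : ℤ) :
    ∃ x, (ext E lo hi X).S t x ≤ y ∧ y < (ext E lo hi X).S t (x + 1) := by
  have h1 : ∃ b : ℤ, ∀ z : ℤ, (ext E lo hi X).S t z ≤ y → z ≤ b := by
    refine ⟨X + |y - E.S t X|, fun z hz => ?_⟩
    by_contra hlt
    push Not at hlt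
    have h2 : (X : ℤ) < z := by
      have := abs_nonneg (y - E.S t X)
      omega
    have h3 : (ext E lo hi X).S t z = E.S t X + (z - X) := by
      show extS E X t z = _
      unfold extS
      rw [if_neg (by omega), if_pos h2]
    rw [h3] at hz
    have := le_abs_self (y - E.S t X)
    omega
  have h2 : ∃ z : ℤ, (ext E lo hi X).S t z ≤ y := by
    refine ⟨-X - 1 - |y - E.S t (-X)|, ?_⟩
    have h4 := abs_nonneg (y - E.S t (-X))
    have h5 := neg_abs_le (y - E.S t (-X))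
    have h3 : (ext E lo hi X).S t (-X - 1 - |y - E.S t (-X)|) =
        E.S t (-X) + ((-X - 1 - |y - E.S t (-X)|) + X) := by
      show extS E X t _ = _
      unfold extS
      rw [if_pos (by omega)]
    rw [h3]
    omega
  obtain ⟨x, hx, hmax⟩ := Int.exists_greatest_of_bdd h1 h2
  refine ⟨x, hx, ?_⟩
  by_contra h
  push Not at h
  have := hmax (x + 1) h
  omega

variable {E lo hi X}
variable {n : ℕ}

theorem step_ext (hX : ∀ t ≤ n, ∀ x, (t, x) ∈ reg lo hi → -(X : ℤ) ≤ x ∧ x < X) {u v : ℕ × ℤ}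
    (h : E.Step n (reg lo hi) u v) : (ext E lo hi X).Step n (reg lo hi) u v := by
  have hup : ∀ u v : ℕ × ℤ, u ∈ reg lo hi → v ∈ reg lo hi → E.Up1 n u v →
      (ext E lo hi X).Up1 n u v := by
    rintro _ _ hu hv ⟨t, x, y, ht, h1, h2⟩
    obtain ⟨h3, h4⟩ := hX t ht.le x hu
    refine .mk t x y ht ⟨?_, ?_⟩ ⟨h2, h1, hu, hv⟩
    · rw [extS_eq E lo hi X h3 h4.le]
      exact h1.1
    · rw [extS_eq E lo hi X (by omega) (by omega)]
      exact h1.2
  have hho : ∀ u v : ℕ × ℤ, u ∈ reg lo hi → v ∈ reg lo hi → E.Hor1 n u v →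
      (ext E lo hi X).Hor1 n u v := by
    rintro _ _ hu hv ⟨t, x, ht, h1⟩
    exact .mk t x ht ⟨h1, hu, hv⟩
  obtain ⟨hu, hv, h | h | h | h⟩ := h
  · exact ⟨hu, hv, Or.inl (hup _ _ hu hv h)⟩
  · exact ⟨hu, hv, Or.inr (Or.inl (hup _ _ hv hu h))⟩
  · exact ⟨hu, hv, Or.inr (Or.inr (Or.inl (hho _ _ hu hv h)))⟩
  · exact ⟨hu, hv, Or.inr (Or.inr (Or.inr (hho _ _ hv hu h)))⟩

theorem conn_ext (hX : ∀ t ≤ n, ∀ x, (t, x) ∈ reg lo hi → -(X : ℤ) ≤ x ∧ x < X) {u v : ℕ × ℤ}
    (h : E.Conn n (reg lo hi) u v) : (ext E lo hi X).Conn n (reg lo hi) u v :=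
  ReflTransGen.mono (fun _ _ hab => step_ext hX hab) u v h

/-- Edges between different colours are closed. -/
theorem closed_v {x₁ : ℤ} {t : ℕ} {x y : ℤ} (ht : t < n)
    (h : ¬ (E.Conn n (reg lo hi) (0, x₁) (t, x) ↔ E.Conn n (reg lo hi) (0, x₁) (t + 1, y))) :
    ¬ (ext E lo hi X).vo t x y := by
  rintro ⟨h1, h2, h3, h4⟩
  apply h
  have hs : E.Step n (reg lo hi) (t, x) (t + 1, y) := ⟨h3, h4, Or.inl (.mk t x y ht h2 h1)⟩
  exact ⟨fun h => h.tail hs, fun h => h.tail hs.symm⟩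

theorem closed_h {x₁ : ℤ} {t : ℕ} {x : ℤ} (ht : t < n)
    (h : ¬ (E.Conn n (reg lo hi) (0, x₁) (t, x) ↔ E.Conn n (reg lo hi) (0, x₁) (t, x + 1))) :
    ¬ (ext E lo hi X).ho t x := by
  rintro ⟨h1, h3, h4⟩
  apply h
  have hs : E.Step n (reg lo hi) (t, x) (t, x + 1) :=
    ⟨h3, h4, Or.inr (Or.inr (Or.inl (.mk t x ht h1)))⟩
  exact ⟨fun h => h.tail hs, fun h => h.tail hs.symm⟩

/-- A triangle between two vertical edges of the region is in the region. -/
theorem confined {F : Strip} {t : ℕ} {x y x' y' x'' y'' : ℤ}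
    (h1 : (t, x') ∈ reg lo hi) (h2 : (t + 1, y') ∈ reg lo hi) (h3 : x' ≤ x) (h4 : y' ≤ y)
    (h5 : (t, x'') ∈ reg lo hi) (h6 : (t + 1, y'') ∈ reg lo hi) (h7 : F.IsV t x'' y'')
    (h8 : x ≤ x'') (h9 : y ≤ y'') (h10 : x + y < x'' + y'') :
    (t, x) ∈ reg lo hi ∧ (t + 1, y) ∈ reg lo hi ∧ (t, (F.nx t (x, y)).1) ∈ reg lo hi ∧
      (t + 1, (F.nx t (x, y)).2) ∈ reg lo hi := by
  obtain ⟨a1, a2⟩ := h1
  obtain ⟨a3, a4⟩ := h2
  obtain ⟨a5, a6⟩ := h5
  obtain ⟨a7, a8⟩ := h6
  simp only at a1 a2 a3 a4 a5 a6 a7 a8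
  have hn : (F.nx t (x, y)).1 ≤ x'' ∧ (F.nx t (x, y)).2 ≤ y'' := by
    unfold Strip.nx
    simp only
    split_ifs with hlt
    · simp only
      refine ⟨h8, ?_⟩
      by_contra hne
      have hy : y'' = y := by omega
      have hx : x + 1 ≤ x'' := by omega
      have := F.S_mono t hx
      have := h7.1
      omega
    · simp only
      refine ⟨?_, h9⟩
      by_contra hne
      have hx : x'' = x := by omega
      have h11 := h7.2
      rw [hx] at h11
      omega
  have hl := F.nx_le t (x, y)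
  simp only at hl
  exact ⟨⟨by simp only; omega, by simp only; omega⟩, ⟨by simp only; omega, by simp only; omega⟩,
    ⟨by simp only; omega, by simp only; omega⟩, ⟨by simp only; omega, by simp only; omega⟩⟩

end ext

end Dual

open _root_.CausalPerc.Neg.Dual in
theorem duality (hP : ParityStmt) : DualityStmt := by
  intro E n lo hi x₁ y₁ x₂ y₂ hn hx hlo hhi hc1 hc2 hc12
  classical
  by_contra hno
  change E.Conn n (reg lo hi) (0, x₁) (n, y₁) at hc1
  change E.Conn n (reg lo hi) (0, x₂) (n, y₂) at hc2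
  change ¬ E.Conn n (reg lo hi) (0, x₁) (0, x₂) at hc12
  change ¬ ∃ x, x₁ ≤ x ∧ x < x₂ ∧ E.DUp (reg lo hi) n x at hno
  obtain ⟨X, hX⟩ : ∃ X : ℕ, ∀ t ≤ n, ∀ x, (t, x) ∈ reg lo hi → -(X : ℤ) ≤ x ∧ x < X := by
    refine ⟨∑ t ∈ Finset.range (n + 1), ((lo t).natAbs + (hi t).natAbs), fun t ht x hx => ?_⟩
    have h1 := Finset.single_le_sum (f := fun t => (lo t).natAbs + (hi t).natAbs)
      (fun _ _ => Nat.zero_le _) (Finset.mem_range.2 (show t < n + 1 by omega))
    obtain ⟨h2, h3⟩ := hx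
    simp only at h1 h2 h3
    omega
  set F := ext E lo hi X with hF
  have hS : ∀ t x, -(X : ℤ) ≤ x → x ≤ X → F.S t x = E.S t x := fun t x => extS_eq E lo hi X
  obtain ⟨φ, p1, p2, p3, p4, p5, p6⟩ := hP F n (reg lo hi) (0, x₁) (n, y₁) (conn_ext hX hc1)
    (Nat.zero_le n)
  obtain ⟨ψ, r1, r2, r3, r4, r5, r6⟩ := hP F n (reg lo hi) (0, x₂) (n, y₂) (conn_ext hX hc2)
    (Nat.zero_le n)
  have conf : ∀ t x y, t < n → F.IsV t x y → φ t x y = 1 → ψ t x y = 0 →
      (t, x) ∈ reg lo hi ∧ (t + 1, y) ∈ reg lo hi ∧ (t, (F.nx t (x, y)).1) ∈ reg lo hi ∧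
      (t + 1, (F.nx t (x, y)).2) ∈ reg lo hi := by
    intro t x y ht hV hφ hψ
    obtain ⟨x', y', h1, h2, h3, h4, h5⟩ := p5 t x y (by rw [hφ]; decide)
    obtain ⟨x'', y'', h6, h7, h8, h9, h10, h11⟩ := r6 t x y ht hV (by
      rw [hψ]
      unfold tot
      rw [if_pos (Nat.zero_le t), if_neg (by simp only; omega)]
      decide)
    exact confined h1 h2 h4 h5 h6 h7 h8 h9 h10 h11
  have hEV : ∀ t x y, t < n → F.IsV t x y → (t, x) ∈ reg lo hi → E.IsV t x y := by
    intro t x y ht hV hR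
    obtain ⟨h1, h2⟩ := hX t ht.le x hR
    refine ⟨?_, ?_⟩
    · rw [← hS t x h1 h2.le]
      exact hV.1
    · rw [← hS t (x + 1) (by omega) (by omega)]
      exact hV.2
  have hnx : ∀ t x y, t < n → (t, x) ∈ reg lo hi → F.nx t (x, y) = E.nx t (x, y) := by
    intro t x y ht hR
    obtain ⟨h1, h2⟩ := hX t ht.le x hR
    unfold Strip.nx
    rw [hS t (x + 1) (by omega) (by omega)]
  let c : ℕ × ℤ → ZMod 2 := fun v => if E.Conn n (reg lo hi) (0, x₁) v then 1 else 0
  have hc : ∀ u v : ℕ × ℤ, c u ≠ c v →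
      ¬ (E.Conn n (reg lo hi) (0, x₁) u ↔ E.Conn n (reg lo hi) (0, x₁) v) := by
    intro u v h h'
    apply h
    simp only [c, h']
  let T : Set Strip.Tri := {q | q.1 < n ∧ F.IsV q.1 q.2.1 q.2.2 ∧ φ q.1 q.2.1 q.2.2 = 1 ∧
    ψ q.1 q.2.1 q.2.2 = 0 ∧ ∃ x, x₁ ≤ x ∧ x < x₂ ∧ ¬ E.ho 0 x ∧
      E.DConn n (reg lo hi) (0, x, E.S 0 (x + 1)) q}
  have hTfin : T.Finite := by
    refine Set.Finite.subset (((Finset.range n) ×ˢ (Finset.Icc (-(X : ℤ)) X) ×ˢ
      (Finset.Icc (-(X : ℤ)) X)) : Finset Strip.Tri).finite_toSet ?_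
    rintro ⟨t, x, y⟩ ⟨h1, h2, h3, h4, -⟩
    obtain ⟨h5, h6, -⟩ := conf t x y h1 h2 h3 h4
    have h7 := hX t h1.le x h5
    have h8 := hX (t + 1) h1 y h6
    simp only [Finset.coe_product, Set.mem_prod, Finset.mem_coe, Finset.mem_range,
      Finset.mem_Icc]
    exact ⟨h1, ⟨h7.1, h7.2.le⟩, ⟨h8.1, h8.2.le⟩⟩
  have key := count F c (n := n) (ext_unbounded E lo hi X) hTfin.toFinset ?_ ?_ ?_ ?_ x₁
    (x₂ - x₁).toNat ?_
  · have h1 : x₁ + ((x₂ - x₁).toNat : ℤ) = x₂ := by omega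
    rw [h1] at key
    have h2 : c (0, x₁) = 1 := if_pos .refl
    have h3 : c (0, x₂) = 0 := if_neg hc12
    rw [h2, h3] at key
    exact absurd key (by decide)
  · intro q hq
    rw [Set.Finite.mem_toFinset] at hq
    exact ⟨hq.1, hq.2.1⟩
  · intro t x y ht hV hne
    rw [Set.Finite.mem_toFinset, Set.Finite.mem_toFinset]
    have hcl : ¬ F.vo t (F.nx t (x, y)).1 (F.nx t (x, y)).2 := closed_v ht (hc _ _ hne)
    have e1 := p1 t x y ht hV hcl
    have e2 := r1 t x y ht hV hcl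
    have hV' := F.isV_nx hV
    have hstep : φ t x y = 1 → ψ t x y = 0 →
        E.DStep n (reg lo hi) (t, x, y) (t, F.nx t (x, y)) := by
      intro hφ hψ
      obtain ⟨h1, h2, h3, h4⟩ := conf t x y ht hV hφ hψ
      refine ⟨h1, h3, Or.inl ?_⟩
      have h5 := hEV t x y ht hV h1
      have h6 := hEV t _ _ ht hV' h3
      rw [hnx t x y ht h1] at hcl h3 h4 h6 ⊢
      exact .side t x y ht h5 fun h7 => hcl ⟨h7, h6, h3, h4⟩
    constructor
    · rintro ⟨_, _, h3, h4, x₀, h5, h6, h7, h8⟩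
      exact ⟨ht, hV', by rw [← e1]; exact h3, by rw [← e2]; exact h4, x₀, h5, h6, h7,
        h8.tail (hstep h3 h4)⟩
    · rintro ⟨_, _, h3, h4, x₀, h5, h6, h7, h8⟩
      simp only at h3 h4
      rw [← e1] at h3
      rw [← e2] at h4
      refine ⟨ht, hV, h3, h4, x₀, h5, h6, h7, h8.tail ?_⟩
      obtain ⟨g1, g2, g3 | g3⟩ := hstep h3 h4
      · exact ⟨g2, g1, Or.inr g3⟩
      · exact ⟨g2, g1, Or.inl g3⟩
  · intro t x y ht hV hy hne
    rw [Set.Finite.mem_toFinset, Set.Finite.mem_toFinset]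
    have hcl : ¬ F.ho (t + 1) y := closed_h ht (hc _ _ hne)
    have e1 := p2 t x y hV hy fun _ => hcl
    have e2 := r2 t x y hV hy fun _ => hcl
    have i1 : ∀ z, ind (0, z) (t + 1) y = 0 := by
      intro z
      unfold ind
      rw [if_neg]
      rintro ⟨h1, -⟩
      simp at h1
    have i2 : ∀ z, ind (n, z) (t + 1) y = 0 := by
      intro z
      unfold ind
      rw [if_neg]
      rintro ⟨h1, -⟩
      simp only at h1
      omega
    rw [i1, i2, add_zero, add_zero] at e1 e2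
    have hV' : F.IsV (t + 1) y (F.S (t + 1) (y + 1)) := F.isV_B _ _
    have hnxT : F.nx t (x, y) = (x, y + 1) := by
      unfold Strip.nx
      rw [if_pos hy]
    have hstep : φ t x y = 1 → ψ t x y = 0 →
        E.DStep n (reg lo hi) (t, x, y) (t + 1, y, F.S (t + 1) (y + 1)) := by
      intro hφ hψ
      obtain ⟨h1, h2, h3, h4⟩ := conf t x y (by omega) hV hφ hψ
      rw [hnxT] at h4
      refine ⟨h1, h2, Or.inl ?_⟩
      have h5 := hEV t x y (by omega) hV h1
      have h6 := hX t (by omega) x h1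
      have h7 := hX (t + 1) ht.le y h2
      rw [hS (t + 1) (y + 1) (by omega) (by omega)]
      refine .up t x y ht h5 ?_ fun h8 => hcl ⟨h8, h2, h4⟩
      rw [← hS t (x + 1) (by omega) (by omega)]
      exact hy
    constructor
    · rintro ⟨_, _, h3, h4, x₀, h5, h6, h7, h8⟩
      exact ⟨ht, hV', by rw [← e1]; exact h3, by rw [← e2]; exact h4, x₀, h5, h6, h7,
        h8.tail (hstep h3 h4)⟩
    · rintro ⟨_, _, h3, h4, x₀, h5, h6, h7, h8⟩
      simp only at h3 h4
      rw [← e1] at h3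
      rw [← e2] at h4
      refine ⟨by omega, hV, h3, h4, x₀, h5, h6, h7, h8.tail ?_⟩
      obtain ⟨g1, g2, g3 | g3⟩ := hstep h3 h4
      · exact ⟨g2, g1, Or.inr g3⟩
      · exact ⟨g2, g1, Or.inl g3⟩
  · intro t x y ht hq hy
    rw [Set.Finite.mem_toFinset] at hq
    obtain ⟨h1, h2, h3, h4, x₀, h5, h6, h7, h8⟩ := hq
    apply hno
    simp only at h1 h2 h3 h4
    obtain ⟨g1, -⟩ := conf t x y h1 h2 h3 h4
    have g2 := hX t h1.le x g1
    refine ⟨x₀, h5, h6, h7, ⟨by simp only; omega, by simp only; omega⟩, t, x, y, ht,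
      hEV t x y h1 h2 g1, ?_, h8⟩
    rw [← hS t (x + 1) (by omega) (by omega)]
    exact hy
  · intro x hne
    rw [Set.Finite.mem_toFinset]
    have hcl : ¬ F.ho 0 x := closed_h (by omega) (hc _ _ hne)
    have e1 := p3 x fun _ => hcl
    have e2 := r3 x fun _ => hcl
    have i1 : ∀ z, ind (n, z) 0 x = 0 := by
      intro z
      unfold ind
      rw [if_neg]
      rintro ⟨h1, -⟩
      simp only at h1
      omega
    rw [i1, add_zero] at e1 e2
    unfold ind at e1 e2
    simp only [true_and] at e1 e2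
    constructor
    · rintro ⟨_, _, h3, h4, -⟩
      simp only at h3 h4
      rw [e1] at h3
      rw [e2] at h4
      split_ifs at h3 with h5
      · split_ifs at h4 with h6
        · exact absurd h4 (by decide)
        · exact ⟨h5, by omega⟩
      · exact absurd h3 (by decide)
    · rintro ⟨h5, h6⟩
      have h7 : x < x₂ := by omega
      have g1 : (0, x) ∈ reg lo hi := ⟨by simp only; omega, by simp only; omega⟩
      have g2 : (0, x + 1) ∈ reg lo hi := ⟨by simp only; omega, by simp only; omega⟩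
      have g3 := hX 0 (by omega) x g1
      refine ⟨by simp only; omega, F.isV_B _ _, ?_, ?_, x, h5, h7, fun h8 => hcl ⟨h8, g1, g2⟩, ?_⟩
      · simp only
        rw [e1, if_pos h5]
      · simp only
        rw [e2, if_neg (by omega)]
      · rw [hS 0 (x + 1) (by omega) (by omega)]
        exact .refl

end CausalPerc.Neg
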