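import Pool.Agent.Lib.MP_a51368_pr.Neg.EdgeMean

/-!
# Module Edge: mean of the oriented edges, and the statement `EdgeStmt`
-/

open MeasureTheory Set Filter Topology ProbabilityTheory

noncomputable section

namespace CausalPerc.Neg

namespace EdgeAux

/-- First closed horizontal edge along the sequence `c` of level `0`. -/
def mc (p : ℝ) (c : ℕ → ℤ) (ω : Arr) : ℕ := sInf {k : ℕ | ¬ (strip p ω).ho 0 (c k)}

/-- Number of children of the vertices of the sequence up to the first closed edge. -/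
def XX (p : ℝ) (c : ℕ → ℤ) (ω : Arr) : ℕ := ∑ i ∈ Finset.range (mc p c ω + 1), xi ω 0 (c i)

theorem mc_eq_iff (S : Set ℕ) (k : ℕ) :
    sInf S = k ↔ (k ∈ S ∧ ∀ j, j < k → j ∉ S) ∨ (k = 0 ∧ ¬ ∃ j, j ∈ S) := by
  rcases S.eq_empty_or_nonempty with rfl | h
  · simp [eq_comm]
  · constructor
    · rintro rfl
      exact Or.inl ⟨Nat.sInf_mem h, fun j hj => Nat.notMem_of_lt_sInf hj⟩
    · rintro (⟨h1, h2⟩ | ⟨_, h2⟩)
      · refine le_antisymm (Nat.sInf_le h1) ?_
        by_contra h3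
        exact h2 _ (not_le.1 h3) (Nat.sInf_mem h)
      · exact absurd h h2

open MeasAux in
theorem meas_mc (p : ℝ) (c : ℕ → ℤ) : Measurable (mc p c) := by
  refine measurable_to_countable' fun k => ?_
  have h1 : (mc p c) ⁻¹' {k} = {ω | (¬ (strip p ω).ho 0 (c k) ∧
      ∀ j : ℕ, j < k → ¬ ¬ (strip p ω).ho 0 (c j)) ∨
      (k = 0 ∧ ¬ ∃ j : ℕ, ¬ (strip p ω).ho 0 (c j))} := by
    ext ω
    exact mc_eq_iff {k : ℕ | ¬ (strip p ω).ho 0 (c k)} k
  rw [h1]
  refine measurableSet_setOfPred.2 ?_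
  refine ((m_ho p 0 (c k)).not.and (Measurable.forall fun j => ?_)).or (MeasAux.mc.and ?_)
  · exact MeasAux.mc.imp (m_ho p 0 (c j)).not.not
  · exact (Measurable.exists fun j => (m_ho p 0 (c j)).not).not

theorem comp_nat {β γ : Type*} [MeasurableSpace β] [MeasurableSpace γ] {f : ℕ → γ → β}
    (hf : ∀ z, Measurable (f z)) {g : γ → ℕ} (hg : Measurable g) :
    Measurable fun ω => f (g ω) ω := by
  intro s hs
  have : (fun ω => f (g ω) ω) ⁻¹' s = ⋃ z : ℕ, (g ⁻¹' {z}) ∩ (f z) ⁻¹' s := by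
    ext ω
    simp
  rw [this]
  exact MeasurableSet.iUnion fun z => (hg (measurableSet_singleton z)).inter (hf z hs)

theorem meas_XX (p : ℝ) (c : ℕ → ℤ) : Measurable (XX p c) :=
  comp_nat (f := fun k ω => ∑ i ∈ Finset.range (k + 1), xi ω 0 (c i))
    (fun _ => Finset.measurable_sum _ fun i _ => MeasAux.meas_xi 0 (c i)) (meas_mc p c)

theorem XX_congr (p : ℝ) (c : ℕ → ℤ) {ω ω' : Arr} (h : ω 0 = ω' 0) : XX p c ω = XX p c ω' := by
  have h1 : ∀ x, (strip p ω).ho 0 x ↔ (strip p ω').ho 0 x := by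
    intro x
    show (((ω 0 x).2 0 : unitInterval) : ℝ) ≤ p ↔ (((ω' 0 x).2 0 : unitInterval) : ℝ) ≤ p
    rw [h]
  have h2 : mc p c ω = mc p c ω' := by
    unfold mc
    simp only [h1]
  unfold XX
  rw [h2]
  refine Finset.sum_congr rfl fun i _ => ?_
  show (ω 0 (c i)).1 = (ω' 0 (c i)).1
  rw [h]

/-! ### The mean of `XX` -/

theorem ho_prob {p : ℝ} (hp0 : 0 ≤ p) (hp1 : p ≤ 1) :
    arrLaw (1 / 2) {ω : Arr | (((ω 0 0).2 0 : unitInterval) : ℝ) ≤ p} = ENNReal.ofReal p := by
  have := geo_prob (α := 1 / 2) (by norm_num) (by norm_num)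
  have hN : MeasurableSet {z : Nd | ((z.2 0 : unitInterval) : ℝ) ≤ p} := by
    have h : Measurable fun z : Nd => z.2 0 := (measurable_pi_apply 0).comp measurable_snd
    exact h (meas_le p)
  have h1 : {ω : Arr | (((ω 0 0).2 0 : unitInterval) : ℝ) ≤ p} =
      EV {z : Nd | ((z.2 0 : unitInterval) : ℝ) ≤ p} 1 := by
    ext ω
    simp [EV]
  rw [h1, EV_prob (by norm_num) (by norm_num) hN, pow_one]
  have h2 : {z : Nd | ((z.2 0 : unitInterval) : ℝ) ≤ p} = (univ : Set ℕ) ×ˢ
      ((({0} : Finset ℕ) : Set ℕ).pi fun _ => {x : unitInterval | (x : ℝ) ≤ p}) := by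
    ext z
    simp
  rw [h2]
  unfold ndLaw
  rw [Measure.prod_prod, Measure.infinitePi_pi _ fun _ _ => meas_le p, vol_le hp0 hp1,
    Finset.prod_const, measure_univ, one_mul, Finset.card_singleton, pow_one]

theorem xi_mean (hWM : WidthMomStmt) :
    ∫⁻ ω, ((xi ω 0 0 : ℕ) : ENNReal) ∂arrLaw (1 / 2) = 1 := by
  obtain ⟨h1, h2⟩ := DD_mean hWM 1 1
  have h3 : ∀ ω : Arr, ((DD ω 1 1 : ℤ) : ℝ) = ((xi ω 0 0 : ℕ) : ℝ) := by
    intro ω
    have h4 := ps_succ (xi ω 0) 0
    rw [ps_zero, zero_add, zero_add] at h4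
    have h5 : DD ω 1 1 = ps (xi ω 0) 1 := rfl
    rw [h5, h4]
    push_cast
    rfl
  simp only [h3] at h1 h2
  have h4 := ofReal_integral_eq_lintegral_ofReal h1 (ae_of_all _ fun ω => Nat.cast_nonneg _)
  rw [h2] at h4
  simp only [ENNReal.ofReal_natCast] at h4
  rw [← h4]
  norm_num

theorem indep_term (hCI : ColIndepStmt) (hWM : WidthMomStmt) {p : ℝ}
    (hp0 : 0 ≤ p) (hp1 : p ≤ 1) (c : ℕ → ℤ) (hc : Function.Injective c) (i : ℕ) :
    ∫⁻ ω, ((xi ω 0 (c i) : ℕ) : ENNReal) *
      {ω : Arr | ∀ j < i, (strip p ω).ho 0 (c j)}.indicator 1 ω ∂arrLaw (1 / 2) =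
      ENNReal.ofReal p ^ i := by
  set G : Set Arr := {ω : Arr | (((ω 0 0).2 0 : unitInterval) : ℝ) ≤ p} with hG
  have hGm : MeasurableSet G := measurableSet_le (MeasAux.meas_lab 0 0 0) measurable_const
  have hxm : Measurable fun ω : Arr => ((xi ω 0 0 : ℕ) : ENNReal) :=
    (measurable_of_countable _).comp (MeasAux.meas_xi 0 0)
  have h1 := hCI (1 / 2) (by norm_num) (by norm_num) (Fin (i + 1)) (fun j => c j)
    (fun j => c j + 1) 1
    (fun j ω => if (j : ℕ) < i then G.indicator 1 ω else ((xi ω 0 0 : ℕ) : ENNReal))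
    (fun j => by omega) (by
      intro j k hjk
      have h3 : c j ≠ c k := fun h => hjk (Fin.ext (hc h))
      omega)
    (fun j => by
      split_ifs
      · exact measurable_one.indicator hGm
      · exact hxm)
    (by
      intro j ω ω' h
      have h4 : ω 0 0 = ω' 0 0 := h 0 (by norm_num) 0 le_rfl (by
        show (0 : ℤ) < c j + 1 - c j
        omega)
      have h5 : ω ∈ G ↔ ω' ∈ G := by
        simp only [hG, mem_ofPred_eq]
        rw [h4]
      have h6 : xi ω 0 0 = xi ω' 0 0 := by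
        show (ω 0 0).1 = (ω' 0 0).1
        rw [h4]
      simp only [h6]
      congr 1
      by_cases h7 : ω ∈ G
      · rw [indicator_of_mem h7, indicator_of_mem (h5.1 h7)]
        rfl
      · rw [indicator_of_notMem h7, indicator_of_notMem fun h8 => h7 (h5.2 h8)])
  rw [Fin.prod_univ_castSucc] at h1
  simp only [Fin.val_castSucc, Fin.is_lt, if_true, Fin.val_last, lt_irrefl, if_false] at h1
  rw [lintegral_indicator_one hGm, ho_prob hp0 hp1, xi_mean hWM, Finset.prod_const,
    Finset.card_univ, Fintype.card_fin, mul_one] at h1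
  rw [← h1]
  refine lintegral_congr fun ω => ?_
  rw [Fin.prod_univ_castSucc, mul_comm]
  simp only [Fin.val_castSucc, Fin.is_lt, if_true, Fin.val_last, lt_irrefl, if_false]
  have hx : ∀ z : ℤ, cshift z ω 0 0 = ω 0 z := by
    intro z
    show ω 0 (0 + z) = ω 0 z
    rw [zero_add]
  congr 1
  · by_cases h3 : ω ∈ {ω : Arr | ∀ j < i, (strip p ω).ho 0 (c j)}
    · rw [indicator_of_mem h3]
      symm
      refine Finset.prod_eq_one fun j _ => ?_
      have h4 : cshift (c j) ω ∈ G := by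
        show (((cshift (c j) ω 0 0).2 0 : unitInterval) : ℝ) ≤ p
        rw [hx]
        exact h3 j j.2
      rw [indicator_of_mem h4]
      rfl
    · rw [indicator_of_notMem h3]
      symm
      simp only [mem_ofPred_eq, not_forall] at h3
      obtain ⟨j, hj, h4⟩ := h3
      refine Finset.prod_eq_zero (Finset.mem_univ (⟨j, hj⟩ : Fin i)) ?_
      have h5 : cshift (c j) ω ∉ G := by
        intro h6
        have h7 : (((cshift (c j) ω 0 0).2 0 : unitInterval) : ℝ) ≤ p := h6
        rw [hx] at h7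
        exact h4 h7
      exact indicator_of_notMem h5 _
  · show ((ω 0 (c i)).1 : ENNReal) = ((cshift (c i) ω 0 0).1 : ENNReal)
    rw [hx]

theorem XX_mean (hCI : ColIndepStmt) (hWM : WidthMomStmt) {p : ℝ}
    (hp0 : 0 ≤ p) (hp1 : p < 1) (c : ℕ → ℤ) (hc : Function.Injective c) :
    ∫⁻ ω, ((XX p c ω : ℕ) : ENNReal) ∂arrLaw (1 / 2) ≤ ENNReal.ofReal (1 / (1 - p)) := by
  have h1 : ∀ ω, ((XX p c ω : ℕ) : ENNReal) ≤ ∑' i : ℕ, ((xi ω 0 (c i) : ℕ) : ENNReal) *
      {ω : Arr | ∀ j < i, (strip p ω).ho 0 (c j)}.indicator 1 ω := by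
    intro ω
    unfold XX
    rw [Nat.cast_sum]
    refine le_trans (Finset.sum_le_sum fun i hi => ?_) (ENNReal.sum_le_tsum _)
    have h2 : ω ∈ {ω : Arr | ∀ j < i, (strip p ω).ho 0 (c j)} := by
      intro j hj
      have h3 : j < mc p c ω := by
        have := Finset.mem_range.1 hi
        omega
      have h4 : j ∉ {k : ℕ | ¬ (strip p ω).ho 0 (c k)} := Nat.notMem_of_lt_sInf h3
      simpa using h4
    rw [indicator_of_mem h2, Pi.one_apply, mul_one]
  refine (lintegral_mono h1).trans ?_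
  rw [lintegral_tsum]
  · simp_rw [indep_term hCI hWM hp0 hp1.le c hc]
    rw [ENNReal.tsum_geometric]
    have h3 : 1 - ENNReal.ofReal p = ENNReal.ofReal (1 - p) := by
      rw [ENNReal.ofReal_sub _ hp0, ENNReal.ofReal_one]
    rw [h3, one_div, ENNReal.ofReal_inv_of_pos (by linarith)]
  · intro i
    refine Measurable.aemeasurable (Measurable.mul ?_ ?_)
    · exact (measurable_of_countable _).comp (MeasAux.meas_xi 0 (c i))
    · refine measurable_one.indicator ?_
      have : {ω : Arr | ∀ j < i, (strip p ω).ho 0 (c j)} =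
          ⋂ j ∈ Finset.range i, {ω : Arr | (strip p ω).ho 0 (c j)} := by
        ext ω
        simp
      rw [this]
      exact Finset.measurableSet_biInter _ fun j _ => measurableSet_setOfPred.2 (MeasAux.m_ho p 0 _)

/-! ### Restart after the first row -/

variable (hM : MeasStmt) (hCs : CshiftStmt) (hSp : SplitStmt)

/-- Restart from the line of `X ω` after the first row. -/
def TT (X : Arr → ℤ) (ω : Arr) : Arr := cshift (X ω) (post 1 ω)

include hM in
theorem meas_pair {X : Arr → ℤ} (hX : Measurable X) :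
    Measurable fun z : Arr × Arr => cshift (X z.1) z.2 :=
  MeasAux.comp_int (f := fun x (z : Arr × Arr) => cshift x z.2)
    (fun x => (hM.2.1 x).comp measurable_snd) (hX.comp measurable_fst)

include hM in
theorem meas_TT {X : Arr → ℤ} (hX : Measurable X) : Measurable (TT X) :=
  (meas_pair hM hX).comp (measurable_id.prodMk (hM.2.2.1 1))

include hM hCs hSp in
theorem map_TT {X : Arr → ℤ} (hX : Measurable X) (hd : ∀ ω ω' : Arr, ω 0 = ω' 0 → X ω = X ω') :
    (arrLaw (1 / 2)).map (TT X) = arrLaw (1 / 2) := by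
  have := Adapted.arr_prob (α := 1 / 2) (by norm_num) (by norm_num)
  ext F hF
  rw [Measure.map_apply (meas_TT hM hX) hF, ← lintegral_indicator_one (meas_TT hM hX hF)]
  have h1 := hSp (1 / 2) (by norm_num) (by norm_num) 1
    (fun ω η => F.indicator 1 (cshift (X ω) η))
    ((measurable_one.indicator hF).comp (meas_pair hM hX)) (by
      intro ω ω' η h
      rw [hd ω ω' (h 0 (by norm_num))])
  have h2 : ∀ a : ℤ, ∫⁻ η, F.indicator (1 : Arr → ENNReal) (cshift a η) ∂arrLaw (1 / 2) =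
      arrLaw (1 / 2) F := by
    intro a
    rw [← lintegral_map (measurable_one.indicator hF) (hM.2.1 a),
      hCs (1 / 2) (by norm_num) (by norm_num), lintegral_indicator_one hF]
  simp only [h2, lintegral_const, measure_univ, mul_one] at h1
  rw [← h1]
  rfl

include hM hSp in
theorem map_post : (arrLaw (1 / 2)).map (post 1) = arrLaw (1 / 2) := by
  have := Adapted.arr_prob (α := 1 / 2) (by norm_num) (by norm_num)
  ext F hF
  rw [Measure.map_apply (hM.2.2.1 1) hF, ← lintegral_indicator_one (hM.2.2.1 1 hF)]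
  have h1 := hSp (1 / 2) (by norm_num) (by norm_num) 1
    (fun _ η => F.indicator 1 η)
    ((measurable_one.indicator hF).comp measurable_snd) (by
      intro ω ω' η h
      rfl)
  simp only [lintegral_indicator_one hF, lintegral_const, measure_univ, mul_one] at h1
  rw [← h1]
  rfl

include hM hSp in
theorem DD_restart (hWM : WidthMomStmt) (s : ℤ) (hs : s = 1 ∨ s = -1) (n : ℕ) {X : Arr → ℕ}
    (hX : Measurable X) (hd : ∀ ω ω' : Arr, ω 0 = ω' 0 → X ω = X ω') :
    ∫⁻ ω, ENNReal.ofReal ((s * DD (post 1 ω) n (s * X ω) : ℤ) : ℝ) ∂arrLaw (1 / 2) =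
      ∫⁻ ω, ((X ω : ℕ) : ENNReal) ∂arrLaw (1 / 2) := by
  have hm : Measurable fun z : Arr × Arr =>
      ENNReal.ofReal ((s * DD z.2 n (s * X z.1) : ℤ) : ℝ) := by
    refine ENNReal.measurable_ofReal.comp ?_
    refine (measurable_of_countable (fun z : ℤ => ((s * z : ℤ) : ℝ))).comp ?_
    exact comp_nat (f := fun x (z : Arr × Arr) => DD z.2 n (s * (x : ℕ)))
      (fun x => (hM.1 n _).comp measurable_snd) (hX.comp measurable_fst)
  have h1 := hSp (1 / 2) (by norm_num) (by norm_num) 1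
    (fun ω η => ENNReal.ofReal ((s * DD η n (s * X ω) : ℤ) : ℝ)) hm (by
      intro ω ω' η h
      rw [hd ω ω' (h 0 (by norm_num))])
  rw [h1]
  refine lintegral_congr fun ω => ?_
  obtain ⟨h2, h3⟩ := DD_mean hWM n (s * X ω)
  have h4 : Integrable (fun η => ((s * DD η n (s * X ω) : ℤ) : ℝ)) (arrLaw (1 / 2)) := by
    have h5 := h2.const_mul (s : ℝ)
    simpa only [Int.cast_mul] using h5
  have h5 : ∀ η : Arr, 0 ≤ ((s * DD η n (s * X ω) : ℤ) : ℝ) := by
    intro η
    have : 0 ≤ s * DD η n (s * X ω) := by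
      rcases hs with rfl | rfl
      · rw [one_mul, one_mul]
        exact DD_nonneg η n (Int.natCast_nonneg _)
      · have := DD_nonpos η n (a := -1 * (X ω : ℤ)) (by omega)
        omega
    exact_mod_cast this
  rw [← ofReal_integral_eq_lintegral_ofReal h4 (ae_of_all _ h5)]
  have h6 : ∫ η, ((s * DD η n (s * X ω) : ℤ) : ℝ) ∂arrLaw (1 / 2) = (X ω : ℝ) := by
    simp only [Int.cast_mul]
    rw [integral_const_mul, h3]
    rcases hs with rfl | rfl <;> push_cast <;> ring
  rw [h6, ENNReal.ofReal_natCast]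

/-- Abstract induction step. -/
theorem mean_step {μ : Measure Arr} {T : Arr → Arr} (hT : Measurable T)
    (hmap : μ.map T = μ) {Z Z' W : Arr → ℝ} {C : ℝ} (hC : 0 ≤ C)
    (hZ : Integrable Z μ) (hZ' : Integrable Z' μ) (hZm : Measurable Z)
    (hWm : Measurable W) (hW0 : ∀ ω, 0 ≤ W ω) (hW : ∫⁻ ω, ENNReal.ofReal (W ω) ∂μ ≤ ENNReal.ofReal C)
    (h : ∀ᵐ ω ∂μ, Z' ω ≤ W ω + Z (T ω)) : ∫ ω, Z' ω ∂μ ≤ C + ∫ ω, Z ω ∂μ := by
  have h1 : Integrable W μ := by
    refine ⟨hWm.aestronglyMeasurable, ?_⟩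
    rw [hasFiniteIntegral_iff_ofReal (ae_of_all _ hW0)]
    exact hW.trans_lt ENNReal.ofReal_lt_top
  have h2 : ∫ ω, W ω ∂μ ≤ C := by
    rw [integral_eq_lintegral_of_nonneg_ae (ae_of_all _ hW0) hWm.aestronglyMeasurable]
    exact ENNReal.toReal_le_of_le_ofReal hC hW
  have h3 : Integrable (fun ω => Z (T ω)) μ := by
    have h4 : Integrable Z (μ.map T) := by rwa [hmap]
    exact h4.comp_measurable hT
  have h5 : ∫ ω, Z (T ω) ∂μ = ∫ ω, Z ω ∂μ := by
    conv_rhs => rw [← hmap]
    rw [integral_map hT.aemeasurable hZm.aestronglyMeasurable]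
  calc ∫ ω, Z' ω ∂μ ≤ ∫ ω, (W ω + Z (T ω)) ∂μ := integral_mono_ae hZ' (h1.add h3) h
    _ = ∫ ω, W ω ∂μ + ∫ ω, Z (T ω) ∂μ := integral_add h1 h3
    _ ≤ _ := by rw [h5]; linarith

theorem cc_right (f : ℤ → ℕ) (m : ℕ) :
    ps f ((m : ℤ) + 1) = ((∑ i ∈ Finset.range (m + 1), f (i : ℤ) : ℕ) : ℤ) := by
  have := ps_nat f (m + 1)
  push_cast at this ⊢
  exact this

theorem cc_left (f : ℤ → ℕ) (m : ℕ) :
    ps f (-((m : ℤ) + 1)) = -((∑ i ∈ Finset.range (m + 1), f (-((i : ℤ) + 1)) : ℕ) : ℤ) := by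
  have := ps_neg f (m + 1)
  push_cast at this ⊢
  exact this

end EdgeAux

open EdgeAux in
theorem edge (hM : MeasStmt) (hSh : StripShiftStmt) (hRec : RecentreStmt) (hCs : CshiftStmt)
    (hCI : ColIndepStmt) (hSp : SplitStmt) (hWM : WidthMomStmt) (hW : WidthStmt) : EdgeStmt := by
  have hP := Adapted.arr_prob (α := 1 / 2) (by norm_num) (by norm_num)
  intro p hp0 hp1 n
  have mRR : ∀ n, MemLp (fun ω => (RR p n ω : ℝ)) 2 (arrLaw (1 / 2)) := fun n =>
    memLp_right hCI hM hW hCs hSh hp0 hp1 n _ (meas_RR p n) fun ω h => ⟨le_rfl, h⟩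
  have mRE : ∀ n, MemLp (fun ω => (RE p n ω : ℝ)) 2 (arrLaw (1 / 2)) := fun n =>
    memLp_right hCI hM hW hCs hSh hp0 hp1 n _ (meas_RE p n) fun ω h => ⟨h, le_rfl⟩
  have mLL : ∀ n, MemLp (fun ω => (LL p n ω : ℝ)) 2 (arrLaw (1 / 2)) := fun n =>
    memLp_left hCI hM hW hCs hSh hp0 hp1 n _ (meas_LL p n) fun ω h => ⟨h, le_rfl⟩
  have mLE : ∀ n, MemLp (fun ω => (LE p n ω : ℝ)) 2 (arrLaw (1 / 2)) := fun n =>
    memLp_left hCI hM hW hCs hSh hp0 hp1 n _ (meas_LE p n) fun ω h => ⟨le_rfl, h⟩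
  have hInt : ∀ {f : Arr → ℝ}, MemLp f 2 (arrLaw (1 / 2)) → Integrable f (arrLaw (1 / 2)) :=
    fun h => h.integrable (by norm_num)
  refine ⟨?_, mRR n, mLL n, mRE n, mLE n, ?_, ?_, ?_, ?_, ?_, ?_⟩
  · filter_upwards [ae_nice hCI hM hp0 hp1 n] with ω h a
    exact h a
  · intro a
    refine shift_integral hM hCs hWM n a _ _ (meas_RR p n) (hInt (mRR n)) ?_
    filter_upwards [ae_nice hCI hM hp0 hp1 n] with ω h
    exact RR_shift hSh hRec h a
  · intro a
    refine shift_integral hM hCs hWM n a _ _ (meas_LL p n) (hInt (mLL n)) ?_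
    filter_upwards [ae_nice hCI hM hp0 hp1 n] with ω h
    exact LL_shift hSh hRec h a
  · intro a
    refine shift_integral hM hCs hWM n a _ _ (meas_RE p n) (hInt (mRE n)) ?_
    filter_upwards [ae_nice hCI hM hp0 hp1 n] with ω h
    exact RE_shift hSh hRec h a
  · intro a
    refine shift_integral hM hCs hWM n a _ _ (meas_LE p n) (hInt (mLE n)) ?_
    filter_upwards [ae_nice hCI hM hp0 hp1 n] with ω h
    exact LE_shift hSh hRec h a
  · have hC : 0 ≤ 1 / (1 - p) := by
      have : 0 < 1 - p := by linarith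
      positivity
    induction n with
    | zero =>
      have h0 : ∀ ω, RR p 0 ω = 0 := fun ω => by
        show sSup (Iic (0 : ℤ)) = 0
        exact csSup_Iic
      simp [h0]
    | succ n ih =>
      set X : Arr → ℕ := XX p (fun j => (j : ℤ)) with hX
      have hXm : Measurable X := meas_XX p _
      have hXd : ∀ ω ω' : Arr, ω 0 = ω' 0 → X ω = X ω' := fun ω ω' h => XX_congr p _ h
      have hXz : Measurable fun ω => (X ω : ℤ) := (measurable_of_countable _).comp hXm
      have hNpost : ∀ᵐ ω ∂arrLaw (1 / 2), Nice p n (post 1 ω) := by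
        have h1 := ae_nice hCI hM hp0 hp1 n
        rw [← map_post hM hSp] at h1
        exact ae_of_ae_map (hM.2.2.1 1).aemeasurable h1
      have hcl : ∀ᵐ ω ∂arrLaw (1 / 2), ∃ j : ℕ, ¬ (strip p ω).ho 0 (j : ℤ) := by
        filter_upwards [trials_ae hCI hM (by norm_num) (by norm_num) (NB_meas p) (NB_one p) 1
          (fun j => (j : ℤ)) inj_pos (EV_ne_zero (NB_meas p) (NBp hp0 hp1) 1)] with ω h
        obtain ⟨j, hj⟩ := h
        exact ⟨j, ((blk_of hj) 0 (by norm_num)).2.1⟩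
      have hstep : ∀ᵐ ω ∂arrLaw (1 / 2), (RR p (n + 1) ω : ℝ) ≤
          ((1 * DD (post 1 ω) n (1 * X ω) : ℤ) : ℝ) + (RR p n (TT (fun ω => (X ω : ℤ)) ω) : ℝ) := by
        filter_upwards [hNpost, hcl, ae_nice hCI hM hp0 hp1 (n + 1)] with ω h1 h2 h3
        have h4 : ¬ (strip p ω).ho 0 ((mc p (fun j => (j : ℤ)) ω : ℕ) : ℤ) :=
          Nat.sInf_mem (s := {k : ℕ | ¬ (strip p ω).ho 0 (k : ℤ)}) h2
        have h5 : (strip p ω).OS (Iic 0) 1 ⊆ Iic (X ω : ℤ) := by
          have h6 := step_right (strip p ω) (Int.natCast_nonneg _) h4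
          have h7 : (strip p ω).S 0 (((mc p (fun j => (j : ℤ)) ω : ℕ) : ℤ) + 1) = (X ω : ℤ) :=
            cc_right (xi ω 0) _
          rwa [h7] at h6
        have h6 : (strip p ω).OS (Iic 0) (n + 1) ⊆
            (strip p (post 1 ω)).OS (Iic (X ω : ℤ)) n := by
          rw [add_comm n 1, OS_add, ← hSh.2.1 p 1 ω]
          exact OS_mono _ n h5
        have h7 : RR p (n + 1) ω ≤ sSup ((strip p (post 1 ω)).OS (Iic (X ω : ℤ)) n) :=
          csSup_le_csSup (h1 (X ω)).2.1 (h3 0).1 h6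
        rw [RR_shift hSh hRec h1 (X ω)] at h7
        have h8 : RR p (n + 1) ω ≤ 1 * DD (post 1 ω) n (1 * X ω) +
            RR p n (TT (fun ω => (X ω : ℤ)) ω) := by
          rw [one_mul, one_mul]
          exact h7
        exact_mod_cast h8
      have hWm : Measurable fun ω : Arr => ((1 * DD (post 1 ω) n (1 * X ω) : ℤ) : ℝ) := by
        refine (measurable_of_countable (fun z : ℤ => ((1 * z : ℤ) : ℝ))).comp ?_
        exact comp_nat (f := fun x (ω : Arr) => DD (post 1 ω) n (1 * (x : ℕ)))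
          (fun x => (hM.1 n _).comp (hM.2.2.1 1)) hXm
      have h9 := mean_step (meas_TT hM hXz) (map_TT hM hCs hSp hXz fun ω ω' h => by
          rw [hXd ω ω' h]) hC (hInt (mRR n)) (hInt (mRR (n + 1)))
        ((measurable_of_countable _).comp (meas_RR p n)) hWm (fun ω => by
          have := DD_nonneg (post 1 ω) n (a := (X ω : ℤ)) (Int.natCast_nonneg _)
          rw [one_mul, one_mul]
          exact_mod_cast this)
        (by
          rw [DD_restart hM hSp hWM 1 (Or.inl rfl) n hXm hXd]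
          exact XX_mean hCI hWM hp0.le hp1 _ inj_pos) hstep
      refine h9.trans ?_
      have h10 : ((n + 1 : ℕ) : ℝ) / (1 - p) = 1 / (1 - p) + n / (1 - p) := by
        push_cast
        ring
      rw [h10]
      linarith
  · have hC : 0 ≤ 1 / (1 - p) := by
      have : 0 < 1 - p := by linarith
      positivity
    have key : ∫ ω, (-(LL p n ω : ℝ)) ∂arrLaw (1 / 2) ≤ n / (1 - p) := by
      induction n with
      | zero =>
        have h0 : ∀ ω, LL p 0 ω = 0 := fun ω => by
          show sInf (Ici (0 : ℤ)) = 0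
          exact csInf_Ici
        simp [h0]
      | succ n ih =>
        set X : Arr → ℕ := XX p (fun j => -((j : ℤ) + 1)) with hX
        have hXm : Measurable X := meas_XX p _
        have hXd : ∀ ω ω' : Arr, ω 0 = ω' 0 → X ω = X ω' := fun ω ω' h => XX_congr p _ h
        have hXz : Measurable fun ω => -(X ω : ℤ) :=
          (measurable_of_countable (fun n : ℕ => -(n : ℤ))).comp hXm
        have hNpost : ∀ᵐ ω ∂arrLaw (1 / 2), Nice p n (post 1 ω) := by
          have h1 := ae_nice hCI hM hp0 hp1 n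
          rw [← map_post hM hSp] at h1
          exact ae_of_ae_map (hM.2.2.1 1).aemeasurable h1
        have hcl : ∀ᵐ ω ∂arrLaw (1 / 2), ∃ j : ℕ, ¬ (strip p ω).ho 0 (-((j : ℤ) + 1)) := by
          filter_upwards [trials_ae hCI hM (by norm_num) (by norm_num) (NB_meas p) (NB_one p) 1
            (fun j => -((j : ℤ) + 1)) inj_neg
            (EV_ne_zero (NB_meas p) (NBp hp0 hp1) 1)] with ω h
          obtain ⟨j, hj⟩ := h
          exact ⟨j, ((blk_of hj) 0 (by norm_num)).2.1⟩
        have hstep : ∀ᵐ ω ∂arrLaw (1 / 2), (-(LL p (n + 1) ω : ℝ)) ≤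
            ((-1 * DD (post 1 ω) n (-1 * X ω) : ℤ) : ℝ) +
              (-(LL p n (TT (fun ω => -(X ω : ℤ)) ω) : ℝ)) := by
          filter_upwards [hNpost, hcl, ae_nice hCI hM hp0 hp1 (n + 1)] with ω h1 h2 h3
          have h4 : ¬ (strip p ω).ho 0 (-(((mc p (fun j => -((j : ℤ) + 1)) ω : ℕ) : ℤ) + 1)) :=
            Nat.sInf_mem (s := {k : ℕ | ¬ (strip p ω).ho 0 (-((k : ℤ) + 1))}) h2
          have h5 : (strip p ω).OS (Ici 0) 1 ⊆ Ici (-(X ω : ℤ)) := by
            have h6 := step_left (strip p ω) (by omega) h4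
            have h7 : (strip p ω).S 0 (-(((mc p (fun j => -((j : ℤ) + 1)) ω : ℕ) : ℤ) + 1)) =
                -(X ω : ℤ) := cc_left (xi ω 0) _
            rwa [h7] at h6
          have h6 : (strip p ω).OS (Ici 0) (n + 1) ⊆
              (strip p (post 1 ω)).OS (Ici (-(X ω : ℤ))) n := by
            rw [add_comm n 1, OS_add, ← hSh.2.1 p 1 ω]
            exact OS_mono _ n h5
          have h7 : sInf ((strip p (post 1 ω)).OS (Ici (-(X ω : ℤ))) n) ≤ LL p (n + 1) ω :=
            csInf_le_csInf (h1 (-(X ω : ℤ))).2.2.2.1 (h3 0).2.2.1 h6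
          rw [LL_shift hSh hRec h1 (-(X ω : ℤ))] at h7
          have h8 : -(LL p (n + 1) ω) ≤ -1 * DD (post 1 ω) n (-1 * X ω) +
              -(LL p n (TT (fun ω => -(X ω : ℤ)) ω)) := by
            have h9 : (-1 * (X ω : ℤ)) = -(X ω : ℤ) := by ring
            rw [h9]
            have h10 : LL p n (TT (fun ω => -(X ω : ℤ)) ω) =
              LL p n (cshift (-(X ω : ℤ)) (post 1 ω)) := rfl
            rw [h10]
            linarith
          exact_mod_cast h8
        have hWm : Measurable fun ω : Arr => ((-1 * DD (post 1 ω) n (-1 * X ω) : ℤ) : ℝ) := by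
          refine (measurable_of_countable (fun z : ℤ => ((-1 * z : ℤ) : ℝ))).comp ?_
          exact comp_nat (f := fun x (ω : Arr) => DD (post 1 ω) n (-1 * (x : ℕ)))
            (fun x => (hM.1 n _).comp (hM.2.2.1 1)) hXm
        have h9 := mean_step (meas_TT hM hXz) (map_TT hM hCs hSp hXz fun ω ω' h => by
            rw [hXd ω ω' h]) hC (hInt (mLL n)).neg (hInt (mLL (n + 1))).neg
          (((measurable_of_countable _).comp (meas_LL p n)).neg) hWm (fun ω => by
            have := DD_nonpos (post 1 ω) n (a := -1 * (X ω : ℤ)) (by omega)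
            have h10 : 0 ≤ -1 * DD (post 1 ω) n (-1 * X ω) := by omega
            exact_mod_cast h10)
          (by
            rw [DD_restart hM hSp hWM (-1) (Or.inr rfl) n hXm hXd]
            exact XX_mean hCI hWM hp0.le hp1 _ inj_neg) hstep
        refine h9.trans ?_
        have h10 : ((n + 1 : ℕ) : ℝ) / (1 - p) = 1 / (1 - p) + n / (1 - p) := by
          push_cast
          ring
        rw [h10]
        have h11 : ∫ ω, (-fun ω => (LL p n ω : ℝ)) ω ∂arrLaw (1 / 2) =
          ∫ ω, (-(LL p n ω : ℝ)) ∂arrLaw (1 / 2) := rfl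
        rw [h11]
        linarith
    rw [integral_neg] at key
    have h12 : -(n : ℝ) / (1 - p) = -((n : ℝ) / (1 - p)) := by ring
    rw [h12]
    linarith

end CausalPerc.Neg
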