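import Pool.Agent.Lib.MP_a51368_pr.Neg.Spec2
import Pool.Agent.Lib.MP_a51368_pr.Neg.Adapted

/-!
# Barriers
-/

open MeasureTheory Set Filter Topology

noncomputable section

namespace CausalPerc.Neg

/-- Domination of the right edge by a nonnegative variable with linear mean. -/
def EdgeDomStmt : Prop :=
  ∀ p : ℝ, 0 < p → p < 1 → ∀ n : ℕ, ∃ Rb : Arr → ℝ,
    Integrable Rb (arrLaw (1 / 2)) ∧ (∀ ω, 0 ≤ Rb ω) ∧
    (∀ᵐ ω ∂arrLaw (1 / 2), (RR p n ω : ℝ) ≤ Rb ω) ∧
    ∫ ω, Rb ω ∂arrLaw (1 / 2) ≤ n / (1 - p)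

namespace BarrierAux

variable {E : Strip}

theorem mem_H {t : ℕ} {A : Set ℤ} {x : ℤ} (h : x ∈ E.H t A) : ∃ a ∈ A, x ∈ E.H t {a} := by
  obtain ⟨a, ha, h1, h2⟩ := h
  exact ⟨a, ha, a, rfl, h1, h2⟩

theorem H_mono {t : ℕ} {A B : Set ℤ} (h : A ⊆ B) : E.H t A ⊆ E.H t B := by
  rintro x ⟨a, ha, h1, h2⟩
  exact ⟨a, h ha, h1, h2⟩

theorem V_mono {t : ℕ} {A B : Set ℤ} (h : A ⊆ B) : E.V t A ⊆ E.V t B := by
  rintro y ⟨x, hx, h1, h2⟩
  exact ⟨x, h hx, h1, h2⟩

theorem OS_mono {A B : Set ℤ} (h : A ⊆ B) (n : ℕ) : E.OS A n ⊆ E.OS B n := by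
  induction n with
  | zero => exact h
  | succ n ih => exact V_mono (H_mono ih)

theorem mem_OS {A : Set ℤ} {n : ℕ} {z : ℤ} (h : z ∈ E.OS A n) : ∃ a ∈ A, z ∈ E.OS {a} n := by
  induction n generalizing z with
  | zero => exact ⟨z, h, rfl⟩
  | succ n ih =>
    obtain ⟨x, hx, h1, h2⟩ := h
    obtain ⟨y, hy, h3, h4⟩ := hx
    obtain ⟨a, ha, h5⟩ := ih hy
    exact ⟨a, ha, x, ⟨y, h5, h3, h4⟩, h1, h2⟩

/-- horizontal walks to the right -/
theorem oconn_right {t n : ℕ} (ht : t < n) (a : ℤ) (k : ℕ) (h : ∀ i, a ≤ i → i < a + k → E.ho t i) :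
    E.OConn n univ (t, a) (t, a + k) := by
  induction k with
  | zero =>
    rw [Nat.cast_zero, add_zero]
    exact .refl
  | succ k ih =>
    refine Relation.ReflTransGen.tail (ih fun i h1 h2 => h i h1 (by push_cast; omega)) ?_
    refine ⟨mem_univ _, mem_univ _, Or.inr (Or.inl ?_)⟩
    have h3 := h (a + k) (by omega) (by push_cast; omega)
    have h4 : a + ((k + 1 : ℕ) : ℤ) = a + k + 1 := by push_cast; ring
    rw [h4]
    exact .mk t (a + k) ht h3

/-- horizontal walks to the left -/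
theorem oconn_left {t n : ℕ} (ht : t < n) (a : ℤ) (k : ℕ) (h : ∀ i, a - k ≤ i → i < a → E.ho t i) :
    E.OConn n univ (t, a) (t, a - k) := by
  induction k with
  | zero =>
    rw [Nat.cast_zero, sub_zero]
    exact .refl
  | succ k ih =>
    refine Relation.ReflTransGen.tail (ih fun i h1 h2 => h i (by push_cast; omega) h2) ?_
    refine ⟨mem_univ _, mem_univ _, Or.inr (Or.inr ?_)⟩
    have h3 := h (a - k - 1) (by push_cast; omega) (by omega)
    have h4 : a - ((k + 1 : ℕ) : ℤ) = a - k - 1 := by push_cast; ring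
    rw [h4]
    have h5 := Strip.Hor1.mk (E := E) (n := n) t (a - k - 1) ht h3
    have h6 : a - k - 1 + 1 = a - k := by ring
    rw [h6] at h5
    exact h5

theorem OS_conn {A : Set ℤ} {n : ℕ} {z : ℤ} (h : z ∈ E.OS A n) :
    ∃ a ∈ A, E.OConn n univ (0, a) (n, z) := by
  induction n generalizing z with
  | zero => exact ⟨z, h, .refl⟩
  | succ n ih =>
    obtain ⟨x, ⟨y, hy, h3, h4⟩, h1, h2⟩ := h
    obtain ⟨a, ha, h5⟩ := ih hy
    refine ⟨a, ha, ?_⟩
    have h6 : E.OConn (n + 1) univ (0, a) (n, y) := h5.mono (Nat.le_succ n) le_rfl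
    have h7 : E.OConn (n + 1) univ (n, y) (n, x) := by
      rcases le_total y x with hyx | hyx
      · obtain ⟨k, rfl⟩ := Int.le.dest hyx
        exact oconn_right (Nat.lt_succ_self n) y k h3
      · obtain ⟨k, hk⟩ := Int.le.dest hyx
        have hx : x = y - k := by omega
        subst hx
        exact oconn_left (Nat.lt_succ_self n) y k h4
    exact (Relation.ReflTransGen.trans h6 h7).tail
      ⟨mem_univ _, mem_univ _, Or.inl (.mk n x z (Nat.lt_succ_self n) h1 h2)⟩

/-- a walk all of whose reachable vertices are in `R` is a walk in `R` -/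
theorem oconn_region {n : ℕ} {R : Set (ℕ × ℤ)} {u v : ℕ × ℤ}
    (hR : ∀ w, E.OConn n univ u w → w ∈ R) (h : E.OConn n univ u v) : E.OConn n R u v := by
  induction h with
  | refl => exact .refl
  | tail hab hbc ih =>
    exact ih.tail ⟨hR _ hab, hR _ (hab.tail hbc), hbc.2.2⟩

theorem oconn_level {n : ℕ} {R : Set (ℕ × ℤ)} {u v : ℕ × ℤ} (h : E.OConn n R u v)
    (hu : u.1 ≤ n) : v.1 ≤ n := h.conn.level_le hu

end BarrierAux

open BarrierAux in
theorem barrier (hE : EdgeStmt) (hD : EdgeDomStmt) (hX : ExitStmt) (hW : WidthStmt)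
    (hCs : CshiftStmt) (hRc : RecentreStmt) (hSS : StripShiftStmt) (hMe : MeasStmt) :
    BarrierStmt := by
  intro p hp0 hp1 hkap
  have hprob : IsProbabilityMeasure (arrLaw (1 / 2)) :=
    Adapted.arr_prob (by norm_num) (by norm_num)
  obtain ⟨C, hC, hXC⟩ := hX.1 p hp0.le hp1
  have h1p : 0 < 1 - p := by linarith
  obtain ⟨K, hK⟩ := exists_nat_gt (24 / (1 - p))
  have hK0 : (0 : ℝ) < K := lt_trans (by positivity) hK
  -- choice of the width
  obtain ⟨C', hC'1, hC'2, hC'3, hC'4⟩ : ∃ C' : ℕ, 1 ≤ C' ∧ 4 * K < C' ∧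
      Real.exp (-(C' : ℝ) / 200) ≤ 1 / 8 ∧ C * Real.exp (-(C' : ℝ) / C) ≤ 1 / 16 := by
    have h2 : Tendsto (fun x : ℕ => Real.exp (-(x : ℝ) / 200)) atTop (𝓝 0) := by
      have : Tendsto (fun x : ℕ => -(x : ℝ) / 200) atTop atBot := by
        have h3 : (fun x : ℕ => -(x : ℝ) / 200) = fun x : ℕ => -((x : ℝ) / 200) := by
          ext x; ring
        rw [h3]
        exact tendsto_neg_atTop_atBot.comp (tendsto_natCast_atTop_atTop.atTop_div_const (by norm_num))
      exact Real.tendsto_exp_atBot.comp this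
    have h3 : Tendsto (fun x : ℕ => C * Real.exp (-(x : ℝ) / C)) atTop (𝓝 0) := by
      have : Tendsto (fun x : ℕ => -(x : ℝ) / C) atTop atBot := by
        have h3 : (fun x : ℕ => -(x : ℝ) / C) = fun x : ℕ => -((x : ℝ) / C) := by
          ext x; ring
        rw [h3]
        exact tendsto_neg_atTop_atBot.comp (tendsto_natCast_atTop_atTop.atTop_div_const hC)
      have h4 := (Real.tendsto_exp_atBot.comp this).const_mul C
      simpa using h4
    have h4 := h2.eventually (ge_mem_nhds (by norm_num : (0 : ℝ) < 1 / 8))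
    have h5 := h3.eventually (ge_mem_nhds (by norm_num : (0 : ℝ) < 1 / 16))
    obtain ⟨C', h6⟩ := (h4.and (h5.and ((eventually_ge_atTop 1).and
      (eventually_gt_atTop (4 * K))))).exists
    exact ⟨C', h6.2.2.1, h6.2.2.2, h6.1, h6.2.1⟩
  refine ⟨3 * C', by omega, fun n hn => ?_⟩
  have hn0 : (0 : ℝ) < n := by exact_mod_cast hn
  set b : ℕ := C' * n with hb
  set μ := arrLaw (1 / 2) with hμ
  -- transport of events along `cshift`
  have hmap : ∀ (a : ℤ) (F : Set Arr), μ.real {ω | cshift a ω ∈ F} ≤ μ.real F := by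
    intro a F
    have h2 : μ {ω | cshift a ω ∈ F} ≤ μ.map (cshift a) F :=
      Measure.le_map_apply (hMe.2.1 a).aemeasurable F
    rw [hCs (1 / 2) (by norm_num) (by norm_num) a] at h2
    exact ENNReal.toReal_mono (measure_ne_top _ _) h2
  obtain ⟨hae, hRR2, hLL2, _, _, _, _, _, _, _, hLLm⟩ := hE p hp0 hp1 n
  obtain ⟨Rb, hRbi, hRb0, hRbd, hRbm⟩ := hD p hp0 hp1 n
  have hRRi : Integrable (fun ω => (RR p n ω : ℝ)) μ := hRR2.integrable (by norm_num)
  have hLLi : Integrable (fun ω => (LL p n ω : ℝ)) μ := hLL2.integrable (by norm_num)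
  have hRRm : -(n : ℝ) / (1 - p) ≤ ∫ ω, (RR p n ω : ℝ) ∂μ := by
    have h2 := hkap n
    unfold kap at h2
    rw [integral_sub hRRi hLLi] at h2
    linarith
  -- bad events
  set G : Set Arr := {ω | ¬ (∀ a : ℤ,
      ((strip p ω).OS (Iic a) n).Nonempty ∧ BddAbove ((strip p ω).OS (Iic a) n) ∧
      ((strip p ω).OS (Ici a) n).Nonempty ∧ BddBelow ((strip p ω).OS (Ici a) n) ∧
      ((strip p ω).ES (Iic a) n).Nonempty ∧ BddAbove ((strip p ω).ES (Iic a) n) ∧
      ((strip p ω).ES (Ici a) n).Nonempty ∧ BddBelow ((strip p ω).ES (Ici a) n))} with hG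
  have hG0 : μ.real G = 0 := by
    have : μ G = 0 := hae
    simp [Measure.real, this]
  set B₁ : Set Arr := {ω | (RR p n ω : ℝ) < -(K * n : ℝ)} with hB₁
  set B₂ : Set Arr := {ω | (K * n : ℝ) < (RR p n ω : ℝ)} with hB₂
  set B₃ : Set Arr := {ω | 4 * ((DD ω n b : ℤ) : ℝ) ≤ 3 * b} with hB₃
  have hP2 : μ.real B₂ ≤ 1 / ((1 - p) * K) := by
    have h2 : μ.real B₂ ≤ μ.real {ω | (K * n : ℝ) ≤ Rb ω} := by
      refine ENNReal.toReal_mono (measure_ne_top _ _) (measure_mono_ae ?_)
      filter_upwards [hRbd] with ω hω h3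
      exact (le_of_lt h3).trans hω
    have h3 := mul_meas_ge_le_integral_of_nonneg (μ := μ) (f := Rb)
      (Eventually.of_forall hRb0) hRbi (K * n)
    have h4 : (K * n : ℝ) * μ.real {ω | (K * n : ℝ) ≤ Rb ω} ≤ n / (1 - p) := h3.trans hRbm
    have h5 : μ.real {ω | (K * n : ℝ) ≤ Rb ω} ≤ 1 / ((1 - p) * K) := by
      rw [le_div_iff₀ (by positivity)]
      rw [le_div_iff₀ h1p] at h4
      have : (n : ℝ) * (μ.real {ω | (K * n : ℝ) ≤ Rb ω} * ((1 - p) * K)) ≤ n * 1 := by
        nlinarith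
      exact le_of_mul_le_mul_left this hn0
    exact h2.trans h5
  have hP1 : μ.real B₁ ≤ 2 / ((1 - p) * K) := by
    have h2 : μ.real B₁ ≤ μ.real {ω | (K * n : ℝ) ≤ Rb ω - RR p n ω} := by
      refine measureReal_mono (fun ω hω => ?_)
      simp only [hB₁, mem_ofPred_eq] at hω ⊢
      have := hRb0 ω
      linarith
    have h3 := mul_meas_ge_le_integral_of_nonneg (μ := μ) (f := fun ω => Rb ω - RR p n ω)
      (by filter_upwards [hRbd] with ω hω; simpa using hω) (hRbi.sub hRRi) (K * n)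
    have h4 : ∫ ω, (Rb ω - RR p n ω) ∂μ ≤ 2 * n / (1 - p) := by
      rw [integral_sub hRbi hRRi]
      have h5 : 2 * (n : ℝ) / (1 - p) = n / (1 - p) + n / (1 - p) := by ring
      have h6 : -(n : ℝ) / (1 - p) = -(n / (1 - p)) := by ring
      linarith
    have h4' : (K * n : ℝ) * μ.real {ω | (K * n : ℝ) ≤ Rb ω - RR p n ω} ≤ 2 * n / (1 - p) :=
      h3.trans h4
    have h5 : μ.real {ω | (K * n : ℝ) ≤ Rb ω - RR p n ω} ≤ 2 / ((1 - p) * K) := by
      rw [le_div_iff₀ (by positivity)]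
      rw [le_div_iff₀ h1p] at h4'
      have : (n : ℝ) * (μ.real {ω | (K * n : ℝ) ≤ Rb ω - RR p n ω} * ((1 - p) * K)) ≤ n * 2 := by
        nlinarith
      exact le_of_mul_le_mul_left this hn0
    exact h2.trans h5
  have hP3 : μ.real B₃ ≤ 1 / 8 := by
    have h2 := (hW (1 / 2) le_rfl (by norm_num) n b hn).2.1
    refine h2.trans (le_trans (le_of_eq ?_) hC'3)
    congr 1
    rw [hb]
    push_cast
    field_simp
  have hexit : ∀ F : Set Arr, μ.real F ≤ C * Real.exp (-(b : ℝ) / (C * n)) → μ.real F ≤ 1 / 16 := by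
    intro F hF
    refine hF.trans (le_trans (le_of_eq ?_) hC'4)
    congr 2
    rw [hb]
    push_cast
    field_simp
  have hP4 : μ.real (exitR p n b) ≤ 1 / 16 := hexit _ (hXC n b hn).1
  have hP5 : μ.real (exitL p n b) ≤ 1 / 16 := hexit _ (hXC n b hn).2
  -- inclusion
  have hincl : {ω | ¬ (strip p ω).Cross 0 (3 * C' * n : ℕ) n} ⊆
      (({ω | cshift (2 * b) ω ∈ G} ∪ {ω | cshift b ω ∈ G}) ∪
        ({ω | cshift (2 * b) ω ∈ B₁} ∪ {ω | cshift b ω ∈ B₂})) ∪
      ({ω | cshift b ω ∈ B₃} ∪ ({ω | cshift (2 * b) ω ∈ exitR p n b} ∪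
        {ω | cshift b ω ∈ exitL p n b})) := by
    intro ω hω
    by_contra hcon
    simp only [mem_union, mem_ofPred_eq, not_or] at hcon hω
    obtain ⟨⟨⟨hg1, hg2⟩, hb1, hb2⟩, hb3, hb4, hb5⟩ := hcon
    apply hω
    simp only [hG, mem_ofPred_eq, not_not] at hg1 hg2
    have hg1' := hg1 0
    have hg2' := hg2 0
    -- the right edge from `Iic (2b)`
    have hs2 := hSS.1 p (2 * b) ω
    have hs1 := hSS.1 p b ω
    obtain ⟨z, hz⟩ : ∃ z, z = RR p n (cshift (2 * b) ω) := ⟨_, rfl⟩
    have hzmem : z ∈ (strip p (cshift (2 * b) ω)).OS (Iic 0) n := by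
      rw [hz]
      exact Int.csSup_mem hg1'.1 hg1'.2.1
    have hzK : -(K * n : ℝ) ≤ z := by
      rw [hz]
      simp only [hB₁, mem_ofPred_eq, not_lt] at hb1
      exact hb1
    -- back to the strip of ω
    have hz2 : z + (strip p ω).D n (2 * b) ∈ (strip p ω).OS (Iic (2 * b)) n := by
      rw [hs2] at hzmem
      have h3 := ((hRc (strip p ω) (2 * b)).2.2.2.2.2.2.2.2.1 n (Iic 0) z).1 hzmem
      refine OS_mono ?_ n h3
      intro y hy
      simp only [mem_ofPred_eq, mem_Iic] at hy ⊢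
      linarith
    obtain ⟨x, hx, hx2⟩ := mem_OS hz2
    have hDD := hSS.2.2.1 b b n ω
    -- width between the lines of `b` and `2b`
    have hwid : (2 * K * n : ℝ) < ((DD ω n (2 * b) : ℤ) : ℝ) - ((DD ω n b : ℤ) : ℝ) := by
      simp only [hB₃, mem_ofPred_eq, not_le] at hb3
      rw [hDD] at hb3
      have h3 : ((b : ℤ) + b) = 2 * b := by ring
      rw [h3] at hb3
      push_cast at hb3
      have h4 : (4 * K : ℝ) * n < b := by
        rw [hb]
        push_cast
        have : ((4 * K : ℕ) : ℝ) < C' := by exact_mod_cast hC'2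
        push_cast at this
        exact mul_lt_mul_of_pos_right this hn0
      have h5 : (0 : ℝ) ≤ K * n := by positivity
      linarith
    -- `x > b`
    have hxb : (b : ℤ) < x := by
      by_contra hle
      push Not at hle
      have h3 : z + (strip p ω).D n (2 * b) ∈ (strip p ω).OS (Iic b) n :=
        OS_mono (by simpa using hle) n hx2
      have h4 : z + (strip p ω).D n (2 * b) - (strip p ω).D n b ∈
          (strip p (cshift b ω)).OS (Iic 0) n := by
        rw [hs1]
        refine ((hRc (strip p ω) b).2.2.2.2.2.2.2.2.1 n (Iic 0) _).2 ?_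
        rw [sub_add_cancel]
        refine OS_mono ?_ n h3
        intro y hy
        simp only [mem_ofPred_eq, mem_Iic] at hy ⊢
        linarith
      have h5 : z + (strip p ω).D n (2 * b) - (strip p ω).D n b ≤ RR p n (cshift b ω) :=
        le_csSup hg2'.2.1 h4
      simp only [hB₂, mem_ofPred_eq, not_lt] at hb2
      rw [strip_D, strip_D] at h5
      have h6 : ((z + DD ω n (2 * b) - DD ω n b : ℤ) : ℝ) ≤ RR p n (cshift b ω) := by
        exact_mod_cast h5
      push_cast at h6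
      linarith
    have hx2b : x ≤ 2 * b := hx
    obtain ⟨x', hx', hconn⟩ := OS_conn hx2
    simp only [mem_singleton_iff] at hx'
    subst hx'
    -- confinement
    have hcol : ∀ w, (strip p ω).OConn n univ (0, x') w → w ∈ (strip p ω).col 0 (3 * C' * n : ℕ) := by
      rintro ⟨t, y⟩ hw
      have ht : t ≤ n := oconn_level hw (Nat.zero_le _)
      have h3b : ((3 * C' * n : ℕ) : ℤ) = b + 2 * b := by rw [hb]; push_cast; ring
      constructor
      · -- left
        by_contra hlt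
        apply hb5
        refine ⟨x' - b, by linarith, t, ht, y - (strip p ω).D t b, ?_, ?_⟩
        · rw [hs1]
          refine ((hRc (strip p ω) b).2.2.2.1 n _ _).2 ?_
          simpa [Strip.D] using hw
        · rw [hSS.2.2.1, strip_D]
          simp only [neg_add_cancel]
          simp only [not_le, strip_D] at hlt
          linarith
      · by_contra hlt
        apply hb4
        refine ⟨x' - 2 * b, by linarith, t, ht, y - (strip p ω).D t (2 * b), ?_, ?_⟩
        · rw [hs2]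
          refine ((hRc (strip p ω) (2 * b)).2.2.2.1 n _ _).2 ?_
          simpa [Strip.D] using hw
        · rw [hSS.2.2.1, strip_D, ← h3b]
          simp only [not_lt, strip_D] at hlt
          linarith
    have h3b : ((3 * C' * n : ℕ) : ℤ) = 3 * b := by rw [hb]; push_cast; ring
    refine ⟨x', z + (strip p ω).D n (2 * b), mem_univ _, by linarith, ?_, ?_⟩
    · rw [h3b]
      have : (0 : ℤ) < b := by
        have : 0 < b := by rw [hb]; positivity
        exact_mod_cast this
      linarith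
    · exact (oconn_region hcol hconn).conn
  have hfin : vv (1 / 2) p (3 * C' * n : ℕ) n ≤
      ((μ.real G + μ.real G) + (μ.real B₁ + μ.real B₂)) +
      (μ.real B₃ + (μ.real (exitR p n b) + μ.real (exitL p n b))) := by
    refine (measureReal_mono hincl).trans ((measureReal_union_le _ _).trans ?_)
    refine add_le_add ?_ ?_
    · refine (measureReal_union_le _ _).trans (add_le_add ?_ ?_)
      · exact (measureReal_union_le _ _).trans (add_le_add (hmap _ _) (hmap _ _))
      · exact (measureReal_union_le _ _).trans (add_le_add (hmap _ _) (hmap _ _))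
    · refine (measureReal_union_le _ _).trans (add_le_add (hmap _ _) ?_)
      exact (measureReal_union_le _ _).trans (add_le_add (hmap _ _) (hmap _ _))
  have hK3 : 3 / ((1 - p) * K) ≤ 1 / 8 := by
    rw [div_le_div_iff₀ (by positivity) (by norm_num)]
    rw [div_lt_iff₀ h1p] at hK
    linarith
  have hsum : 1 / ((1 - p) * K) + 2 / ((1 - p) * K) = 3 / ((1 - p) * K) := by ring
  linarith

end CausalPerc.Neg
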