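import Pool.Agent.Lib.MP_a51368_pr.Neg.Edge
import Pool.Agent.Lib.MP_a51368_pr.Neg.Barrier

/-!
# Domination of the right edge by a nonnegative variable
-/

open MeasureTheory Set Filter Topology ProbabilityTheory

noncomputable section

namespace CausalPerc.Neg

open EdgeAux in
theorem edgeDom (hM : MeasStmt) (hSh : StripShiftStmt) (hRec : RecentreStmt) (hCs : CshiftStmt)
    (hCI : ColIndepStmt) (hSp : SplitStmt) (hWM : WidthMomStmt) : EdgeDomStmt := by
  have hP := Adapted.arr_prob (α := 1 / 2) (by norm_num) (by norm_num)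
  intro p hp0 hp1 n
  have hC : 0 ≤ 1 / (1 - p) := by
    have : 0 < 1 - p := by linarith
    positivity
  suffices h : ∃ Rb : Arr → ℝ, Measurable Rb ∧
      Integrable Rb (arrLaw (1 / 2)) ∧ (∀ ω, 0 ≤ Rb ω) ∧
      (∀ᵐ ω ∂arrLaw (1 / 2), (RR p n ω : ℝ) ≤ Rb ω) ∧
      ∫ ω, Rb ω ∂arrLaw (1 / 2) ≤ n / (1 - p) by
    obtain ⟨Rb, _, h⟩ := h
    exact ⟨Rb, h⟩
  induction n with
  | zero =>
    have h0 : ∀ ω, RR p 0 ω = 0 := fun ω => by
      show sSup (Iic (0 : ℤ)) = 0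
      exact csSup_Iic
    exact ⟨fun _ => 0, measurable_const, integrable_zero _ _ _, fun _ => le_rfl,
      ae_of_all _ fun ω => by simp [h0], by simp⟩
  | succ n ih =>
    obtain ⟨Rb, hRm, hRi, hR0, hRd, hRI⟩ := ih
    set X : Arr → ℕ := XX p (fun j => (j : ℤ)) with hX
    have hXm : Measurable X := meas_XX p _
    have hXd : ∀ ω ω' : Arr, ω 0 = ω' 0 → X ω = X ω' := fun ω ω' h => XX_congr p _ h
    have hXz : Measurable fun ω => (X ω : ℤ) := (measurable_of_countable _).comp hXm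
    have hTm := meas_TT hM hXz
    have hTmap := map_TT hM hCs hSp hXz fun ω ω' h => by rw [hXd ω ω' h]
    have hNpost : ∀ᵐ ω ∂arrLaw (1 / 2), Nice p n (post 1 ω) := by
      have h1 := ae_nice hCI hM hp0 hp1 n
      rw [← map_post hM hSp] at h1
      exact ae_of_ae_map (hM.2.2.1 1).aemeasurable h1
    have hRd' : ∀ᵐ ω ∂arrLaw (1 / 2), (RR p n (TT (fun ω => (X ω : ℤ)) ω) : ℝ) ≤
        Rb (TT (fun ω => (X ω : ℤ)) ω) := by
      rw [← hTmap] at hRd
      exact ae_of_ae_map hTm.aemeasurable hRd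
    have hcl : ∀ᵐ ω ∂arrLaw (1 / 2), ∃ j : ℕ, ¬ (strip p ω).ho 0 (j : ℤ) := by
      filter_upwards [trials_ae hCI hM (by norm_num) (by norm_num) (NB_meas p) (NB_one p) 1
        (fun j => (j : ℤ)) inj_pos (EV_ne_zero (NB_meas p) (NBp hp0 hp1) 1)] with ω h
      obtain ⟨j, hj⟩ := h
      exact ⟨j, ((blk_of hj) 0 (by norm_num)).2.1⟩
    have hstep : ∀ᵐ ω ∂arrLaw (1 / 2), (RR p (n + 1) ω : ℝ) ≤
        ((1 * DD (post 1 ω) n (1 * X ω) : ℤ) : ℝ) + (RR p n (TT (fun ω => (X ω : ℤ)) ω) : ℝ) := by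
      filter_upwards [hNpost, hcl, ae_nice hCI hM hp0 hp1 (n + 1)] with ω h1 h2 h3
      have h4 : ¬ (strip p ω).ho 0 ((mc p (fun j => (j : ℤ)) ω : ℕ) : ℤ) :=
        Nat.sInf_mem (s := {k : ℕ | ¬ (strip p ω).ho 0 (k : ℤ)}) h2
      have h5 : (strip p ω).OS (Iic 0) 1 ⊆ Iic (X ω : ℤ) := by
        have h6 := step_right (strip p ω) (Int.natCast_nonneg _) h4
        have h7 : (strip p ω).S 0 (((mc p (fun j => (j : ℤ)) ω : ℕ) : ℤ) + 1) = (X ω : ℤ) :=
          cc_right (xi ω 0) _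
        rwa [h7] at h6
      have h6 : (strip p ω).OS (Iic 0) (n + 1) ⊆
          (strip p (post 1 ω)).OS (Iic (X ω : ℤ)) n := by
        rw [add_comm n 1, OS_add, ← hSh.2.1 p 1 ω]
        exact OS_mono _ n h5
      have h7 : RR p (n + 1) ω ≤ sSup ((strip p (post 1 ω)).OS (Iic (X ω : ℤ)) n) :=
        csSup_le_csSup (h1 (X ω)).2.1 (h3 0).1 h6
      rw [RR_shift hSh hRec h1 (X ω)] at h7
      have h8 : RR p (n + 1) ω ≤ 1 * DD (post 1 ω) n (1 * X ω) +
          RR p n (TT (fun ω => (X ω : ℤ)) ω) := by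
        rw [one_mul, one_mul]
        exact h7
      exact_mod_cast h8
    have hWm : Measurable fun ω : Arr => ((1 * DD (post 1 ω) n (1 * X ω) : ℤ) : ℝ) := by
      refine (measurable_of_countable (fun z : ℤ => ((1 * z : ℤ) : ℝ))).comp ?_
      exact comp_nat (f := fun x (ω : Arr) => DD (post 1 ω) n (1 * (x : ℕ)))
        (fun x => (hM.1 n _).comp (hM.2.2.1 1)) hXm
    have hW0 : ∀ ω : Arr, (0 : ℝ) ≤ ((1 * DD (post 1 ω) n (1 * X ω) : ℤ) : ℝ) := fun ω => by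
      have := DD_nonneg (post 1 ω) n (a := (X ω : ℤ)) (Int.natCast_nonneg _)
      rw [one_mul, one_mul]
      exact_mod_cast this
    have hWI : ∫⁻ ω, ENNReal.ofReal ((1 * DD (post 1 ω) n (1 * X ω) : ℤ) : ℝ) ∂arrLaw (1 / 2) ≤
        ENNReal.ofReal (1 / (1 - p)) := by
      rw [DD_restart hM hSp hWM 1 (Or.inl rfl) n hXm hXd]
      exact XX_mean hCI hWM hp0.le hp1 _ inj_pos
    have hWi : Integrable (fun ω : Arr => ((1 * DD (post 1 ω) n (1 * X ω) : ℤ) : ℝ))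
        (arrLaw (1 / 2)) := by
      refine ⟨hWm.aestronglyMeasurable, ?_⟩
      rw [hasFiniteIntegral_iff_ofReal (ae_of_all _ hW0)]
      exact hWI.trans_lt ENNReal.ofReal_lt_top
    have hRTi : Integrable (fun ω => Rb (TT (fun ω => (X ω : ℤ)) ω)) (arrLaw (1 / 2)) := by
      have h4 : Integrable Rb ((arrLaw (1 / 2)).map (TT fun ω => (X ω : ℤ))) := by rwa [hTmap]
      exact h4.comp_measurable hTm
    refine ⟨fun ω => ((1 * DD (post 1 ω) n (1 * X ω) : ℤ) : ℝ) +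
      Rb (TT (fun ω => (X ω : ℤ)) ω), hWm.add (hRm.comp hTm), hWi.add hRTi,
      fun ω => add_nonneg (hW0 ω) (hR0 _), ?_, ?_⟩
    · filter_upwards [hstep, hRd'] with ω h1 h2
      linarith
    · have h9 := mean_step hTm hTmap hC hRi (hWi.add hRTi) hRm hWm hW0 hWI
        (ae_of_all _ fun ω => le_rfl)
      refine h9.trans ?_
      have h10 : ((n + 1 : ℕ) : ℝ) / (1 - p) = 1 / (1 - p) + n / (1 - p) := by
        push_cast
        ring
      rw [h10]
      linarith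

end CausalPerc.Neg
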