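import Pool.Agent.Lib.MP_a51368_pr.Neg.ExitB

/-!
# Exits of the oriented process: exponential bounds
-/

open MeasureTheory ProbabilityTheory Set Relation

noncomputable section

namespace CausalPerc.Neg

namespace ExitAux

theorem ps_diff_right (f : ℤ → ℕ) (k r : ℕ) :
    ps f ((k + 1 + r : ℕ) : ℤ) - ps f ((k : ℤ) + 1) =
      ((∑ j ∈ Finset.range r, f ((k + 1 + j : ℕ) : ℤ) : ℕ) : ℤ) := by
  induction r with
  | zero => simp
  | succ r ih =>
    rw [Finset.sum_range_succ]
    have h1 : ((k + 1 + (r + 1) : ℕ) : ℤ) = ((k + 1 + r : ℕ) : ℤ) + 1 := by push_cast; ring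
    rw [h1, ps_succ]
    push_cast at ih ⊢
    linarith

theorem ps_diff_left (f : ℤ → ℕ) (k r : ℕ) :
    ps f (-(k : ℤ)) - ps f (-((k + 1 + r : ℕ) : ℤ)) =
      ((f (-1 - (k : ℤ)) + ∑ j ∈ Finset.range r, f (-1 - ((k + 1 + j : ℕ) : ℤ)) : ℕ) : ℤ) := by
  induction r with
  | zero =>
    have h1 : -(k : ℤ) = -((k + 1 + 0 : ℕ) : ℤ) + 1 := by push_cast; ring
    have h2 : -1 - (k : ℤ) = -((k + 1 + 0 : ℕ) : ℤ) := by push_cast; ring
    conv_lhs => rw [h1, ps_succ]
    rw [h2]
    simp
  | succ r ih =>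
    rw [Finset.sum_range_succ]
    have h1 : -((k + 1 + r : ℕ) : ℤ) = -((k + 1 + (r + 1) : ℕ) : ℤ) + 1 := by push_cast; ring
    have h2 : -1 - ((k + 1 + r : ℕ) : ℤ) = -((k + 1 + (r + 1) : ℕ) : ℤ) := by push_cast; ring
    rw [h1, ps_succ] at ih
    rw [h2]
    push_cast at ih ⊢
    linarith

theorem oconn_zero {E : Strip} {u v : ℕ × ℤ} (h : E.OConn 0 univ u v) : u = v := by
  induction h with
  | refl => rfl
  | tail _ hbc _ =>
    obtain ⟨-, -, h3⟩ := hbc
    exfalso
    rcases h3 with h | h | h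
    · cases h with
      | mk t x y ht _ _ => exact absurd ht (by omega)
    · cases h with
      | mk t x ht _ => exact absurd ht (by omega)
    · cases h with
      | mk t x ht _ => exact absurd ht (by omega)

theorem factor_bound {q T : ℝ} (hq : 0 < q) (hT : 2 / q ≤ T) :
    0 < q - 1 / T ∧ q / (q - 1 / T) ≤ Real.exp (2 / (q * T)) := by
  have hT0 : 0 < T := lt_of_lt_of_le (by positivity) hT
  have hqT : 2 ≤ q * T := by
    rw [div_le_iff₀ hq] at hT
    linarith
  have hqT0 : 0 < q * T := by positivity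
  set u := 1 / (q * T) with hu
  have hu0 : 0 < u := by positivity
  have hu1 : u ≤ 1 / 2 := by
    rw [hu]
    exact one_div_le_one_div_of_le (by norm_num) hqT
  have h1 : q - 1 / T = q * (1 - u) := by
    rw [hu]
    field_simp
  have h2 : 0 < 1 - u := by linarith
  refine ⟨by rw [h1]; positivity, ?_⟩
  have h3 : q / (q - 1 / T) = 1 / (1 - u) := by
    rw [h1]
    field_simp
  have h4 : 2 / (q * T) = 2 * u := by rw [hu]; ring
  rw [h3, h4, div_le_iff₀ h2]
  have h5 := Real.add_one_le_exp (2 * u)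
  have h6 : (2 * u + 1) * (1 - u) ≤ Real.exp (2 * u) * (1 - u) :=
    mul_le_mul_of_nonneg_right h5 h2.le
  nlinarith

/-- Common part of the induction. -/
theorem gen_identity {α T0 T1 : ℝ} (ha0 : 0 ≤ α) (ha1 : α < 1) (ha : 0 < α) (hT0 : 1 < T0)
    (h : T1 = α / (1 - α) * (T0 - 1)) :
    (1 - α) / (1 - α * (1 - 1 / T1)) = 1 - 1 / T0 := by
  have h1 : 0 < 1 - α := by linarith
  have h2 : 0 < T0 - 1 := by linarith
  have h3 : 0 < T1 := by rw [h]; positivity
  have h4 : 1 / T1 = (1 - α) / (α * (T0 - 1)) := by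
    rw [h]
    field_simp
  have h5 : 1 - α * (1 - 1 / T1) = (1 - α) * T0 / (T0 - 1) := by
    rw [h4]
    field_simp
    ring
  have hT : 0 < T0 := by linarith
  rw [h5]
  field_simp

theorem boundR (hS : SplitStmt) (hC : CshiftStmt) {α p : ℝ} (ha0 : 0 < α) (ha1 : α < 1)
    (h0 : 0 ≤ p) (h1 : p < 1) (n : ℕ) : ∀ T : ℕ → ℝ,
    (∀ k < n, T (k + 1) = α / (1 - α) * (T k - 1)) → (∀ k ≤ n, 1 ≤ T k) →
    (∀ k < n, 2 / (1 - p) ≤ T k) → ∀ g : ℕ,
      arrLaw α (eR p n 0 g) ≤ ENNReal.ofReal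
        (Real.exp (∑ k ∈ Finset.range n, 2 / ((1 - p) * T k)) * (1 - 1 / T 0) ^ g) := by
  have := Adapted.arr_prob ha0.le ha1
  induction n with
  | zero =>
    intro T _ hT1 _ g
    have hT0 := hT1 0 le_rfl
    rcases Nat.eq_zero_or_pos g with rfl | hg
    · simp only [Finset.range_zero, Finset.sum_empty, Real.exp_zero, pow_zero, mul_one,
        ENNReal.ofReal_one]
      exact prob_le_one
    · have : eR p 0 0 (g : ℤ) = ∅ := by
        rw [eq_empty_iff_forall_notMem]
        rintro ω ⟨x, hx, t, ht, z, h3, h4⟩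
        have h5 := oconn_zero h3
        simp only [Prod.mk.injEq] at h5
        obtain ⟨rfl, rfl⟩ := h5
        have h6 : DD ω 0 (g : ℤ) = g := rfl
        omega
      rw [this, measure_empty]
      exact zero_le
  | succ n ih =>
    intro T hT hT1 hT2 g
    have hq : 0 < 1 - p := by linarith
    have hT0 : 2 / (1 - p) ≤ T 0 := hT2 0 (Nat.succ_pos n)
    have h2q : 2 ≤ 2 / (1 - p) := by
      rw [le_div_iff₀ hq]
      linarith
    obtain ⟨hfb1, hfb2⟩ := factor_bound hq hT0
    have hid := gen_identity ha0.le ha1 ha0 (by linarith : 1 < T 0) (hT 0 (Nat.succ_pos n))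
    have hT1' : 1 ≤ T 1 := hT1 1 (by omega)
    have hs0 : 0 ≤ 1 - 1 / T 1 := by
      have : 1 / T 1 ≤ 1 := by
        rw [div_le_one (by linarith)]
        exact hT1'
      linarith
    have hs1 : 1 - 1 / T 1 ≤ 1 := by
      have : 0 ≤ 1 / T 1 := by positivity
      linarith
    set c := Real.exp (∑ k ∈ Finset.range n, 2 / ((1 - p) * T (k + 1))) with hc
    have hc1 : 1 ≤ c := by
      rw [hc]
      apply Real.one_le_exp
      refine Finset.sum_nonneg fun k hk => ?_
      have := hT1 (k + 1) (by have := Finset.mem_range.1 hk; omega)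
      positivity
    have hIH := ih (fun k => T (k + 1)) (fun k hk => hT (k + 1) (by omega))
      (fun k hk => hT1 (k + 1) (by omega)) (fun k hk => hT2 (k + 1) (by omega))
    have hrec := recur hS ha0.le ha1 h0 h1 hs0 hs1 hc1 (by rw [hid]; linarith)
      (fun j : ℕ => (j : ℤ)) Nat.cast_injective g (eR p (n + 1) 0 g)
      (fun k ω => eR p n (ps (xi ω 0) ((k : ℤ) + 1)) (ps (xi ω 0) g)) ?_ ?_ ?_ ?_
    · refine hrec.trans (ENNReal.ofReal_le_ofReal ?_)
      rw [hid, Finset.sum_range_succ', Real.exp_add]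
      have h5 : 0 ≤ (1 - 1 / T 0) ^ g := pow_nonneg (by linarith) g
      apply mul_le_mul_of_nonneg_right _ h5
      rw [← hc]
      apply mul_le_mul_of_nonneg_left _ (by linarith)
      have h6 : 1 - 1 / T 0 - p = 1 - p - 1 / T 0 := by ring
      rw [h6]
      exact hfb2
    · intro k hk ω hω hfc
      exact stepR p n k g (by omega) (by exact_mod_cast hk) ω hfc.2 hω
    · intro k _ ω ω' h
      have : xi ω 0 = xi ω' 0 := by
        funext x
        change (ω 0 x).1 = (ω' 0 x).1
        rw [h]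
      simp only [this]
    · intro k _
      have : {q : Arr × Arr | q.2 ∈ eR p n (ps (xi q.1 0) ((k : ℤ) + 1)) (ps (xi q.1 0) g)} =
          ⋃ a : ℤ, ⋃ b : ℤ, {q : Arr × Arr | ps (xi q.1 0) ((k : ℤ) + 1) = a} ∩
            {q | ps (xi q.1 0) g = b} ∩ {q | q.2 ∈ eR p n a b} := by
        ext q
        simp
      rw [this]
      refine MeasurableSet.iUnion fun a => MeasurableSet.iUnion fun b => ?_
      refine ((MeasurableSet.inter ?_ ?_).inter ?_)
      · exact ((MeasAux.meas_ps 0 ((k : ℤ) + 1)).comp measurable_fst) (measurableSet_singleton a)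
      · exact ((MeasAux.meas_ps 0 (g : ℤ)).comp measurable_fst) (measurableSet_singleton b)
      · exact (meas_eR p n a b).preimage measurable_snd
    · intro k hk ω
      obtain ⟨r, rfl⟩ : ∃ r, g = k + 1 + r := ⟨g - (k + 1), by omega⟩
      have hr : k + 1 + r - k - 1 = r := by omega
      rw [hr, law_eR hC ha0.le ha1, ps_diff_right]
      exact hIH _

theorem boundL (hS : SplitStmt) (hC : CshiftStmt) {α p : ℝ} (ha0 : 0 < α) (ha1 : α < 1)
    (h0 : 0 ≤ p) (h1 : p < 1) (n : ℕ) : ∀ T : ℕ → ℝ,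
    (∀ k < n, T (k + 1) = α / (1 - α) * (T k - 1)) → (∀ k ≤ n, 1 ≤ T k) →
    (∀ k < n, 2 / (1 - p) ≤ T k) → ∀ g : ℕ,
      arrLaw α (eL p n 0 (-(g : ℤ))) ≤ ENNReal.ofReal
        (Real.exp (∑ k ∈ Finset.range n, 2 / ((1 - p) * T k)) * (1 - 1 / T 0) ^ g) := by
  have := Adapted.arr_prob ha0.le ha1
  induction n with
  | zero =>
    intro T _ hT1 _ g
    have hT0 := hT1 0 le_rfl
    rcases Nat.eq_zero_or_pos g with rfl | hg
    · simp only [Finset.range_zero, Finset.sum_empty, Real.exp_zero, pow_zero, mul_one,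
        ENNReal.ofReal_one]
      exact prob_le_one
    · have : eL p 0 0 (-(g : ℤ)) = ∅ := by
        rw [eq_empty_iff_forall_notMem]
        rintro ω ⟨x, hx, t, ht, z, h3, h4⟩
        have h5 := oconn_zero h3
        simp only [Prod.mk.injEq] at h5
        obtain ⟨rfl, rfl⟩ := h5
        have h6 : DD ω 0 (-(g : ℤ)) = -g := rfl
        omega
      rw [this, measure_empty]
      exact zero_le
  | succ n ih =>
    intro T hT hT1 hT2 g
    have hq : 0 < 1 - p := by linarith
    have hT0 : 2 / (1 - p) ≤ T 0 := hT2 0 (Nat.succ_pos n)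
    have h2q : 2 ≤ 2 / (1 - p) := by
      rw [le_div_iff₀ hq]
      linarith
    obtain ⟨hfb1, hfb2⟩ := factor_bound hq hT0
    have hid := gen_identity ha0.le ha1 ha0 (by linarith : 1 < T 0) (hT 0 (Nat.succ_pos n))
    have hT1' : 1 ≤ T 1 := hT1 1 (by omega)
    have hs0 : 0 ≤ 1 - 1 / T 1 := by
      have : 1 / T 1 ≤ 1 := by
        rw [div_le_one (by linarith)]
        exact hT1'
      linarith
    have hs1 : 1 - 1 / T 1 ≤ 1 := by
      have : 0 ≤ 1 / T 1 := by positivity
      linarith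
    set c := Real.exp (∑ k ∈ Finset.range n, 2 / ((1 - p) * T (k + 1))) with hc
    have hc1 : 1 ≤ c := by
      rw [hc]
      apply Real.one_le_exp
      refine Finset.sum_nonneg fun k hk => ?_
      have := hT1 (k + 1) (by have := Finset.mem_range.1 hk; omega)
      positivity
    have hIH := ih (fun k => T (k + 1)) (fun k hk => hT (k + 1) (by omega))
      (fun k hk => hT1 (k + 1) (by omega)) (fun k hk => hT2 (k + 1) (by omega))
    have hrec := recur hS ha0.le ha1 h0 h1 hs0 hs1 hc1 (by rw [hid]; linarith)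
      (fun j : ℕ => -1 - (j : ℤ)) (fun a b hab => by simp only at hab; omega) g
      (eL p (n + 1) 0 (-(g : ℤ)))
      (fun k ω => eL p n (ps (xi ω 0) (-(k : ℤ))) (ps (xi ω 0) (-(g : ℤ)))) ?_ ?_ ?_ ?_
    · refine hrec.trans (ENNReal.ofReal_le_ofReal ?_)
      rw [hid, Finset.sum_range_succ', Real.exp_add]
      have h5 : 0 ≤ (1 - 1 / T 0) ^ g := pow_nonneg (by linarith) g
      apply mul_le_mul_of_nonneg_right _ h5
      rw [← hc]
      apply mul_le_mul_of_nonneg_left _ (by linarith)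
      have h6 : 1 - 1 / T 0 - p = 1 - p - 1 / T 0 := by ring
      rw [h6]
      exact hfb2
    · intro k hk ω hω hfc
      refine stepL p n (-(k : ℤ)) (-(g : ℤ)) (by omega) (by omega) ω ?_ hω
      have h7 : -(k : ℤ) - 1 = -1 - (k : ℤ) := by ring
      rw [h7]
      exact hfc.2
    · intro k _ ω ω' h
      have : xi ω 0 = xi ω' 0 := by
        funext x
        change (ω 0 x).1 = (ω' 0 x).1
        rw [h]
      simp only [this]
    · intro k _
      have : {q : Arr × Arr | q.2 ∈ eL p n (ps (xi q.1 0) (-(k : ℤ)))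
            (ps (xi q.1 0) (-(g : ℤ)))} =
          ⋃ a : ℤ, ⋃ b : ℤ, {q : Arr × Arr | ps (xi q.1 0) (-(k : ℤ)) = a} ∩
            {q | ps (xi q.1 0) (-(g : ℤ)) = b} ∩ {q | q.2 ∈ eL p n a b} := by
        ext q
        simp
      rw [this]
      refine MeasurableSet.iUnion fun a => MeasurableSet.iUnion fun b => ?_
      refine ((MeasurableSet.inter ?_ ?_).inter ?_)
      · exact ((MeasAux.meas_ps 0 (-(k : ℤ))).comp measurable_fst) (measurableSet_singleton a)
      · exact ((MeasAux.meas_ps 0 (-(g : ℤ))).comp measurable_fst) (measurableSet_singleton b)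
      · exact (meas_eL p n a b).preimage measurable_snd
    · intro k hk ω
      obtain ⟨r, rfl⟩ : ∃ r, g = k + 1 + r := ⟨g - (k + 1), by omega⟩
      have hr : k + 1 + r - k - 1 = r := by omega
      have h8 : ps (xi ω 0) (-((k + 1 + r : ℕ) : ℤ)) - ps (xi ω 0) (-(k : ℤ)) =
          -((xi ω 0 (-1 - (k : ℤ)) +
            ∑ j ∈ Finset.range r, xi ω 0 (-1 - ((k + 1 + j : ℕ) : ℤ)) : ℕ) : ℤ) := by
        rw [← ps_diff_left]
        ring
      rw [hr, law_eL hC ha0.le ha1, h8]
      refine (hIH _).trans (ENNReal.ofReal_le_ofReal ?_)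
      apply mul_le_mul_of_nonneg_left _ (by linarith)
      rw [pow_add]
      exact mul_le_of_le_one_left (pow_nonneg hs0 _) (pow_le_one₀ hs0 hs1)

/-- The critical case. -/
theorem crit_numerics {p : ℝ} (h0 : 0 ≤ p) (h1 : p < 1) :
    ∃ C : ℝ, 0 < C ∧ ∀ n b : ℕ, 1 ≤ n → ∃ T : ℕ → ℝ,
      (∀ k < n, T (k + 1) = (1 / 2 : ℝ) / (1 - 1 / 2) * (T k - 1)) ∧ (∀ k ≤ n, 1 ≤ T k) ∧
      (∀ k < n, 2 / (1 - p) ≤ T k) ∧
      Real.exp (∑ k ∈ Finset.range n, 2 / ((1 - p) * T k)) * (1 - 1 / T 0) ^ b ≤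
        C * Real.exp (-(b : ℝ) / (C * n)) := by
  have hq : 0 < 1 - p := by linarith
  set A := 2 / (1 - p) with hA
  have hA2 : 2 ≤ A := by
    rw [hA, le_div_iff₀ hq]
    linarith
  refine ⟨max (Real.exp A) (2 + A), lt_of_lt_of_le (Real.exp_pos A) (le_max_left _ _), ?_⟩
  intro n b hn
  have hn' : (1 : ℝ) ≤ n := by exact_mod_cast hn
  have hTk : ∀ k : ℕ, k ≤ n → (n : ℝ) + A ≤ 2 * n + A - k := by
    intro k hk
    have : (k : ℝ) ≤ n := by exact_mod_cast hk
    linarith
  refine ⟨fun k => 2 * n + A - k, ?_, ?_, ?_, ?_⟩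
  · intro k _
    push_cast
    ring
  · intro k hk
    have := hTk k hk
    linarith
  · intro k hk
    have := hTk k hk.le
    linarith
  · set C := max (Real.exp A) (2 + A) with hCdef
    have hC0 : 0 < C := lt_of_lt_of_le (Real.exp_pos A) (le_max_left _ _)
    have h3 : Real.exp (∑ k ∈ Finset.range n, 2 / ((1 - p) * (2 * n + A - k))) ≤ C := by
      refine le_trans (Real.exp_le_exp.2 ?_) (le_max_left _ _)
      have h4 : ∀ k ∈ Finset.range n, 2 / ((1 - p) * (2 * (n : ℝ) + A - k)) ≤ A / n := by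
        intro k hk
        have h5 := hTk k (Finset.mem_range.1 hk).le
        rw [hA, div_div]
        apply div_le_div_of_nonneg_left (by norm_num) (by positivity)
        apply mul_le_mul_of_nonneg_left _ hq.le
        linarith
      refine (Finset.sum_le_sum h4).trans ?_
      rw [Finset.sum_const, Finset.card_range, nsmul_eq_mul, mul_div_cancel₀]
      linarith
    have hT0 : (0 : ℝ) < 2 * n + A - (0 : ℕ) := by push_cast; linarith
    have h5 : (1 - 1 / (2 * (n : ℝ) + A - (0 : ℕ))) ^ b ≤ Real.exp (-(b : ℝ) / (C * n)) := by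
      have h6 : 0 ≤ 1 - 1 / (2 * (n : ℝ) + A - (0 : ℕ)) := by
        have : 1 / (2 * (n : ℝ) + A - (0 : ℕ)) ≤ 1 := by
          rw [div_le_one hT0]
          push_cast
          linarith
        linarith
      have h7 : 1 - 1 / (2 * (n : ℝ) + A - (0 : ℕ)) ≤
          Real.exp (-(1 / (2 * (n : ℝ) + A - (0 : ℕ)))) := by
        have := Real.add_one_le_exp (-(1 / (2 * (n : ℝ) + A - (0 : ℕ))))
        linarith
      refine (pow_le_pow_left₀ h6 h7 b).trans ?_
      rw [← Real.exp_nat_mul]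
      apply Real.exp_le_exp.2
      have h8 : 1 / (C * n) ≤ 1 / (2 * (n : ℝ) + A - (0 : ℕ)) := by
        apply one_div_le_one_div_of_le hT0
        have h9 : 2 + A ≤ C := le_max_right _ _
        push_cast
        nlinarith
      have h10 : (0 : ℝ) ≤ b := Nat.cast_nonneg b
      have h11 := mul_le_mul_of_nonneg_left h8 h10
      have h12 : -(b : ℝ) / (C * n) = -(b * (1 / (C * n))) := by ring
      rw [h12]
      linarith
    exact mul_le_mul h3 h5 (pow_nonneg (by
      have : 1 / (2 * (n : ℝ) + A - (0 : ℕ)) ≤ 1 := by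
        rw [div_le_one hT0]
        push_cast
        linarith
      linarith) b) hC0.le

/-- The supercritical case. -/
theorem super_numerics {α p : ℝ} (ha : 1 / 2 < α) (ha1 : α < 1) (h0 : 0 ≤ p) (h1 : p < 1) :
    ∃ C : ℝ, 0 < C ∧ ∀ n b : ℕ, ∃ T : ℕ → ℝ,
      (∀ k < n, T (k + 1) = α / (1 - α) * (T k - 1)) ∧ (∀ k ≤ n, 1 ≤ T k) ∧
      (∀ k < n, 2 / (1 - p) ≤ T k) ∧
      Real.exp (∑ k ∈ Finset.range n, 2 / ((1 - p) * T k)) * (1 - 1 / T 0) ^ b ≤
        C * Real.exp (-(b : ℝ) / C) := by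
  have hq : 0 < 1 - p := by linarith
  have ha2 : 0 < 1 - α := by linarith
  set m := α / (1 - α) with hm
  have hm1 : 1 < m := by
    rw [hm, lt_div_iff₀ ha2]
    linarith
  set A := 2 / (1 - p) with hA
  have hA2 : 2 ≤ A := by
    rw [hA, le_div_iff₀ hq]
    linarith
  set τ := m / (m - 1) with hτ
  have hm10 : 0 < m - 1 := by linarith
  have hτ0 : 0 < τ := by positivity
  have hτm : m * (τ - 1) = τ := by
    rw [hτ]
    field_simp
    ring
  set C := max (Real.exp τ) (τ + A) with hCdef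
  have hC0 : 0 < C := lt_of_lt_of_le (Real.exp_pos τ) (le_max_left _ _)
  refine ⟨C, hC0, fun n b => ?_⟩
  have hmk : ∀ k : ℕ, 1 ≤ m ^ k := fun k => one_le_pow₀ hm1.le
  refine ⟨fun k => τ + m ^ k * A, ?_, ?_, ?_, ?_⟩
  · intro k _
    simp only
    have : m * (τ + m ^ k * A - 1) = m * (τ - 1) + m ^ (k + 1) * A := by ring
    rw [this, hτm]
  · intro k _
    have := hmk k
    simp only
    nlinarith
  · intro k _
    have := hmk k
    simp only
    nlinarith
  · have h3 : Real.exp (∑ k ∈ Finset.range n, 2 / ((1 - p) * (τ + m ^ k * A))) ≤ C := by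
      refine le_trans (Real.exp_le_exp.2 ?_) (le_max_left _ _)
      have h4 : ∀ k ∈ Finset.range n, 2 / ((1 - p) * (τ + m ^ k * A)) ≤ (1 / m) ^ k := by
        intro k _
        have h5 := hmk k
        have h6 : (1 - p) * A = 2 := by
          rw [hA]
          field_simp
        have h7 : 2 / ((1 - p) * (τ + m ^ k * A)) ≤ 2 / ((1 - p) * (m ^ k * A)) := by
          apply div_le_div_of_nonneg_left (by norm_num) (by positivity)
          apply mul_le_mul_of_nonneg_left _ hq.le
          linarith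
        refine h7.trans (le_of_eq ?_)
        have h8 : (1 - p) * (m ^ k * A) = 2 * m ^ k := by
          rw [← h6]; ring
        rw [h8, one_div, inv_pow]
        have : (m ^ k) ≠ 0 := by positivity
        field_simp
      refine (Finset.sum_le_sum h4).trans ?_
      have h9 : (1 : ℝ) / m < 1 := by
        rw [div_lt_one (by linarith)]
        exact hm1
      have h10 : (0 : ℝ) ≤ 1 / m := by positivity
      have h11 : ∑ k ∈ Finset.range n, (1 / m) ^ k ≤ ∑' k : ℕ, (1 / m) ^ k :=
        (summable_geometric_of_lt_one h10 h9).sum_le_tsum _ (fun k _ => pow_nonneg h10 k)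
      refine h11.trans (le_of_eq ?_)
      rw [tsum_geometric_of_lt_one h10 h9, hτ]
      field_simp
    simp only [pow_zero, one_mul]
    have hT0 : 0 < τ + A := by linarith
    have hinv : 1 / (τ + A) ≤ 1 := by
      rw [div_le_one hT0]
      linarith
    have h6 : 0 ≤ 1 - 1 / (τ + A) := by linarith
    have h5 : (1 - 1 / (τ + A)) ^ b ≤ Real.exp (-(b : ℝ) / C) := by
      have h7 : 1 - 1 / (τ + A) ≤ Real.exp (-(1 / (τ + A))) := by
        have := Real.add_one_le_exp (-(1 / (τ + A)))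
        linarith
      refine (pow_le_pow_left₀ h6 h7 b).trans ?_
      rw [← Real.exp_nat_mul]
      apply Real.exp_le_exp.2
      have h8 : 1 / C ≤ 1 / (τ + A) := one_div_le_one_div_of_le hT0 (le_max_right _ _)
      have h10 : (0 : ℝ) ≤ b := Nat.cast_nonneg b
      have h11 := mul_le_mul_of_nonneg_left h8 h10
      have h12 : -(b : ℝ) / C = -(b * (1 / C)) := by ring
      rw [h12]
      linarith
    exact mul_le_mul h3 h5 (pow_nonneg h6 b) hC0.le

end ExitAux

open ExitAux

theorem exitB (hS : SplitStmt) (hC : CshiftStmt) : ExitStmt := by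
  refine ⟨?_, ?_⟩
  · intro p h0 h1
    obtain ⟨C, hC0, hnum⟩ := crit_numerics h0 h1
    refine ⟨C, hC0, fun n b hn => ?_⟩
    obtain ⟨T, hT1, hT2, hT3, hT4⟩ := hnum n b hn
    have hnn : 0 ≤ C * Real.exp (-(b : ℝ) / (C * n)) := by positivity
    constructor
    · refine ENNReal.toReal_le_of_le_ofReal hnn ?_
      exact (boundR hS hC (by norm_num) (by norm_num) h0 h1 n T hT1 hT2 hT3 b).trans
        (ENNReal.ofReal_le_ofReal hT4)
    · refine ENNReal.toReal_le_of_le_ofReal hnn ?_
      exact (boundL hS hC (by norm_num) (by norm_num) h0 h1 n T hT1 hT2 hT3 b).trans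
        (ENNReal.ofReal_le_ofReal hT4)
  · intro α p ha ha1 h0 h1
    obtain ⟨C, hC0, hnum⟩ := super_numerics ha ha1 h0 h1
    refine ⟨C, hC0, fun n b => ?_⟩
    obtain ⟨T, hT1, hT2, hT3, hT4⟩ := hnum n b
    have hnn : 0 ≤ C * Real.exp (-(b : ℝ) / C) := by positivity
    constructor
    · refine ENNReal.toReal_le_of_le_ofReal hnn ?_
      exact (boundR hS hC (by linarith) ha1 h0 h1 n T hT1 hT2 hT3 b).trans
        (ENNReal.ofReal_le_ofReal hT4)
    · refine ENNReal.toReal_le_of_le_ofReal hnn ?_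
      exact (boundL hS hC (by linarith) ha1 h0 h1 n T hT1 hT2 hT3 b).trans
        (ENNReal.ofReal_le_ofReal hT4)

end CausalPerc.Neg
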