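import Pool.Agent.Lib.MP_a51368_pr.Neg.GainProb

/-!
# Module P6: the enhanced process gains `p³/2` per level and side
-/

open MeasureTheory Set Filter Topology

noncomputable section

namespace CausalPerc.Neg

namespace Gain

open MeasAux IndepAux FC

variable {p : ℝ}

/-! ### Deterministic part -/

section Det

variable (E : Strip)

theorem estep_mono {t : ℕ} {A B : Set ℤ} (h : A ⊆ B) : E.estep t A ⊆ E.estep t B := by
  refine V_mono E (union_subset_union (H_mono E h) ?_)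
  rintro x ⟨y, hy, h2⟩
  exact ⟨y, V_mono E (H_mono E h) hy, h2⟩

theorem ostep_subset_estep (t : ℕ) (A : Set ℤ) : E.ostep t A ⊆ E.estep t A :=
  V_mono E subset_union_left

theorem OS_subset_ES (A : Set ℤ) (n : ℕ) : E.OS A n ⊆ E.ES A n := by
  induction n with
  | zero => exact subset_rfl
  | succ n ih => exact (ostep_mono E ih).trans (ostep_subset_estep E n _)

theorem OS_succ' (n : ℕ) (A : Set ℤ) : E.OS A (n + 1) = (E.shift 1).OS (E.ostep 0 A) n := by
  rw [add_comm, OS_shift]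
  rfl

end Det

/-- The first closed horizontal edge to the right of `a`. -/
def aR (p : ℝ) (a : ℤ) (ρ : Row) : ℤ := sInf {x | a ≤ x ∧ ρ x ∉ T1 p}

/-- The first vertex to the left of `a` whose left horizontal edge is closed. -/
def aL (p : ℝ) (a : ℤ) (ρ : Row) : ℤ := sSup {x | x ≤ a ∧ ρ (x - 1) ∉ T1 p}

def UR (p : ℝ) (a : ℤ) (ρ : Row) : ℤ := ps (fun i => (ρ i).1) (aR p a ρ + 1)

def UL (p : ℝ) (a : ℤ) (ρ : Row) : ℤ := ps (fun i => (ρ i).1) (aL p a ρ)

theorem aR_eq {a : ℤ} {r : ℕ} {ρ : Row} (h : ρ ∈ CR p a r) : aR p a ρ = a + r := by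
  refine IsLeast.csInf_eq ⟨⟨by omega, fun h2 => h.2.1.1 h2⟩, ?_⟩
  rintro x ⟨hx, hx2⟩
  by_contra h3
  exact hx2 (h.1 x hx (not_le.1 h3))

theorem aL_eq {a : ℤ} {r : ℕ} {ρ : Row} (h : ρ ∈ CLf p a r) : aL p a ρ = a - r := by
  refine IsGreatest.csSup_eq ⟨⟨by omega, fun h2 => h.2.2.2.1 h2⟩, ?_⟩
  rintro x ⟨hx, hx2⟩
  by_contra h3
  exact hx2 (h.1 (x - 1) (by have := not_le.1 h3; omega) (by omega))

/-- On the right event: the oriented image lies below `u`, the enhanced image contains `u+1`. -/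
theorem det_R {η : Arr} {A : Set ℤ} {a : ℤ} (ha : a ∈ A) (hA : ∀ x ∈ A, x ≤ a)
    (hE : η 0 ∈ EvR p a) :
    (strip p η).ostep 0 A ⊆ Iic (UR p a (η 0)) ∧ UR p a (η 0) + 1 ∈ (strip p η).estep 0 A := by
  obtain ⟨r, hr⟩ := mem_iUnion.1 hE
  have ha2 := aR_eq hr
  obtain ⟨h1, ⟨h2, h3⟩, h4, h5, h6⟩ := hr
  set x := a + r with hx
  have hU : UR p a (η 0) = ps (xi η 0) (x + 1) := by
    unfold UR
    rw [ha2]
    rfl
  have hs1 : ps (xi η 0) (x + 1) = ps (xi η 0) x + (η 0 x).1 := ps_succ _ _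
  have hs2 : ps (xi η 0) (x + 1 + 1) = ps (xi η 0) (x + 1) + (η 0 (x + 1)).1 := ps_succ _ _
  have hH : ∀ y ∈ (strip p η).H 0 A, y ≤ x := by
    rintro y ⟨b, hb, h7, _⟩
    by_contra h8
    have h9 := hA b hb
    exact h2 (h7 x (by omega) (by omega))
  have hxH : x ∈ (strip p η).H 0 A :=
    ⟨a, ha, fun i h7 h8 => h1 i h7 h8, fun i h7 h8 => by omega⟩
  rw [hU]
  constructor
  · rintro y ⟨z, hz, h7, _⟩
    show y ≤ ps (xi η 0) (x + 1)
    exact h7.2.trans ((strip p η).S_mono 0 (by have := hH z hz; omega))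
  · have hu : ps (xi η 0) (x + 1) ∈ (strip p η).V 0 ((strip p η).H 0 A) := by
      refine ⟨x, hxH, ⟨?_, le_rfl⟩, ?_⟩
      · show ps (xi η 0) x ≤ _
        omega
      · show (((η 0 x).2 ((ps (xi η 0) (x + 1) - ps (xi η 0) x).toNat + 1) : unitInterval) : ℝ) ≤ p
        have : (ps (xi η 0) (x + 1) - ps (xi η 0) x).toNat = (η 0 x).1 := by omega
        rw [this]
        exact h3
    refine ⟨x + 1, Or.inr ⟨ps (xi η 0) (x + 1), hu, ⟨le_rfl, ?_⟩, ?_⟩, ⟨?_, ?_⟩, ?_⟩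
    · show _ ≤ ps (xi η 0) (x + 1 + 1)
      omega
    · show (((η 0 (x + 1)).2 ((ps (xi η 0) (x + 1) - ps (xi η 0) (x + 1)).toNat + 1) :
        unitInterval) : ℝ) ≤ p
      rw [sub_self]
      exact h5
    · show ps (xi η 0) (x + 1) ≤ _
      omega
    · show _ ≤ ps (xi η 0) (x + 1 + 1)
      omega
    · show (((η 0 (x + 1)).2 ((ps (xi η 0) (x + 1) + 1 - ps (xi η 0) (x + 1)).toNat + 1) :
        unitInterval) : ℝ) ≤ p
      have : (ps (xi η 0) (x + 1) + 1 - ps (xi η 0) (x + 1)).toNat = 1 := by omega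
      rw [this]
      exact h6

/-- On the left event. -/
theorem det_L {η : Arr} {A : Set ℤ} {a : ℤ} (ha : a ∈ A) (hA : ∀ x ∈ A, a ≤ x)
    (hE : η 0 ∈ EvL p a) :
    (strip p η).ostep 0 A ⊆ Ici (UL p a (η 0)) ∧ UL p a (η 0) - 1 ∈ (strip p η).estep 0 A := by
  obtain ⟨r, hr⟩ := mem_iUnion.1 hE
  have ha2 := aL_eq hr
  obtain ⟨h1, h2, h3, h4, h5, h6⟩ := hr
  set x := a - r with hx
  have hU : UL p a (η 0) = ps (xi η 0) x := by
    unfold UL
    rw [ha2]
    rfl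
  have hs1 : ps (xi η 0) x = ps (xi η 0) (x - 1) + (η 0 (x - 1)).1 := by
    have := ps_succ (xi η 0) (x - 1)
    rw [sub_add_cancel] at this
    exact this
  have hs2 : ps (xi η 0) (x + 1) = ps (xi η 0) x + (η 0 x).1 := ps_succ _ _
  have hH : ∀ y ∈ (strip p η).H 0 A, x ≤ y := by
    rintro y ⟨b, hb, _, h7⟩
    by_contra h8
    have h9 := hA b hb
    exact h4 (h7 (x - 1) (by omega) (by omega))
  have hxH : x ∈ (strip p η).H 0 A :=
    ⟨a, ha, fun i h7 h8 => by omega, fun i h7 h8 => h1 i h7 h8⟩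
  rw [hU]
  constructor
  · rintro y ⟨z, hz, h7, _⟩
    show ps (xi η 0) x ≤ y
    exact ((strip p η).S_mono 0 (hH z hz)).trans h7.1
  · have hu : ps (xi η 0) x ∈ (strip p η).V 0 ((strip p η).H 0 A) := by
      refine ⟨x, hxH, ⟨le_rfl, ?_⟩, ?_⟩
      · show _ ≤ ps (xi η 0) (x + 1)
        omega
      · show (((η 0 x).2 ((ps (xi η 0) x - ps (xi η 0) x).toNat + 1) : unitInterval) : ℝ) ≤ p
        rw [sub_self]
        exact h2
    refine ⟨x - 1, Or.inr ⟨ps (xi η 0) x, hu, ⟨?_, ?_⟩, ?_⟩, ⟨?_, ?_⟩, ?_⟩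
    · show ps (xi η 0) (x - 1) ≤ _
      omega
    · show _ ≤ ps (xi η 0) (x - 1 + 1)
      rw [sub_add_cancel]
    · show (((η 0 (x - 1)).2 ((ps (xi η 0) x - ps (xi η 0) (x - 1)).toNat + 1) :
        unitInterval) : ℝ) ≤ p
      have : (ps (xi η 0) x - ps (xi η 0) (x - 1)).toNat = (η 0 (x - 1)).1 := by omega
      rw [this]
      exact h6
    · show ps (xi η 0) (x - 1) ≤ _
      omega
    · show _ ≤ ps (xi η 0) (x - 1 + 1)
      rw [sub_add_cancel]
      omega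
    · show (((η 0 (x - 1)).2 ((ps (xi η 0) x - 1 - ps (xi η 0) (x - 1)).toNat + 1) :
        unitInterval) : ℝ) ≤ p
      have : (ps (xi η 0) x - 1 - ps (xi η 0) (x - 1)).toNat + 1 = (η 0 (x - 1)).1 := by omega
      rw [this]
      exact h5

/-! ### Pointwise gain -/

def DR (p : ℝ) (k : ℕ) (u : ℤ) (η : Arr) : ℤ :=
  sSup ((strip p η).OS (Iic (u + 1)) k) - sSup ((strip p η).OS (Iic u) k)

def DL (p : ℝ) (k : ℕ) (u : ℤ) (η : Arr) : ℤ :=
  sInf ((strip p η).OS (Ici u) k) - sInf ((strip p η).OS (Ici (u - 1)) k)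

theorem key_R {k : ℕ} {η : Arr} (hG : Good p k η) {B B' : Set ℤ} {u : ℤ} (hBB : B ⊆ B')
    (hu : B ⊆ Iic u) (hu' : u + 1 ∈ B') (hne : ((strip p η).OS B k).Nonempty)
    (hb : BddAbove ((strip p η).OS B' k)) :
    DR p k u η ≤ sSup ((strip p η).OS B' k) - sSup ((strip p η).OS B k) := by
  unfold DR
  have h1 := csSup_le_csSup hb hne (OS_mono (strip p η) k hBB)
  have h2 := csSup_le_csSup (hG u).2.1 hne (OS_mono (strip p η) k hu)
  have h3 := Int.csSup_mem (hG (u + 1)).1 (hG (u + 1)).2.1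
  obtain ⟨b, hb1, hb2⟩ := (mem_OS_iff _).1 h3
  rcases (show b ≤ u + 1 from hb1).eq_or_lt with h4 | h4
  · have h5 : sSup ((strip p η).OS (Iic (u + 1)) k) ∈ (strip p η).OS B' k :=
      (mem_OS_iff _).2 ⟨b, by rw [h4]; exact hu', hb2⟩
    have h6 := le_csSup hb h5
    linarith
  · have h5 : sSup ((strip p η).OS (Iic (u + 1)) k) ∈ (strip p η).OS (Iic u) k :=
      (mem_OS_iff _).2 ⟨b, by show b ≤ u; omega, hb2⟩
    have h6 := le_csSup (hG u).2.1 h5
    linarith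

theorem key_L {k : ℕ} {η : Arr} (hG : Good p k η) {B B' : Set ℤ} {u : ℤ} (hBB : B ⊆ B')
    (hu : B ⊆ Ici u) (hu' : u - 1 ∈ B') (hne : ((strip p η).OS B k).Nonempty)
    (hb : BddBelow ((strip p η).OS B' k)) :
    DL p k u η ≤ sInf ((strip p η).OS B k) - sInf ((strip p η).OS B' k) := by
  unfold DL
  have h1 := csInf_le_csInf hb hne (OS_mono (strip p η) k hBB)
  have h2 := csInf_le_csInf (hG u).2.2.2 hne (OS_mono (strip p η) k hu)
  have h3 := Int.csInf_mem (hG (u - 1)).2.2.1 (hG (u - 1)).2.2.2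
  obtain ⟨b, hb1, hb2⟩ := (mem_OS_iff _).1 h3
  rcases (show u - 1 ≤ b from hb1).eq_or_lt with h4 | h4
  · have h5 : sInf ((strip p η).OS (Ici (u - 1)) k) ∈ (strip p η).OS B' k :=
      (mem_OS_iff _).2 ⟨b, by rw [← h4]; exact hu', hb2⟩
    have h6 := csInf_le hb h5
    linarith
  · have h5 : sInf ((strip p η).OS (Ici (u - 1)) k) ∈ (strip p η).OS (Ici u) k :=
      (mem_OS_iff _).2 ⟨b, by show u ≤ b; omega, hb2⟩
    have h6 := csInf_le (hG u).2.2.2 h5
    linarith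

/-- The enhanced edges exist. -/
def GoodE (p : ℝ) (n : ℕ) (η : Arr) : Prop :=
  ((strip p η).ES (Iic 0) n).Nonempty ∧ BddAbove ((strip p η).ES (Iic 0) n) ∧
  ((strip p η).ES (Ici 0) n).Nonempty ∧ BddBelow ((strip p η).ES (Ici 0) n)

theorem goodE_ae (hE : EdgeStmt) (h0 : 0 < p) (h1 : p < 1) (n : ℕ) :
    ∀ᵐ η ∂arrLaw (1 / 2), GoodE p n η := by
  filter_upwards [(hE p h0 h1 n).1] with η h
  exact ⟨(h 0).2.2.2.2.1, (h 0).2.2.2.2.2.1, (h 0).2.2.2.2.2.2.1, (h 0).2.2.2.2.2.2.2⟩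

theorem post_one_post (j : ℕ) (ω : Arr) : post 1 (post j ω) = post (j + 1) ω := by
  funext t
  show ω (j + (1 + t)) = ω (j + 1 + t)
  rw [add_assoc]

theorem post_zero (ω : Arr) : post 0 ω = ω := by
  funext t
  show ω (0 + t) = ω t
  rw [zero_add]

section Step

variable (hSS : StripShiftStmt)

include hSS

theorem OS_step (j k : ℕ) (ω : Arr) (A : Set ℤ) :
    (strip p (post j ω)).OS A (k + 1) =
      (strip p (post (j + 1) ω)).OS ((strip p (post j ω)).ostep 0 A) k := by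
  rw [OS_succ', ← hSS.2.1, post_one_post]

theorem ES_step (j : ℕ) (ω : Arr) (A : Set ℤ) :
    (strip p ω).ES A (j + 1) = (strip p (post j ω)).estep 0 ((strip p ω).ES A j) := by
  rw [hSS.2.1]
  rfl

theorem step_R {j k : ℕ} {ω : Arr} (hG : Good p k (post (j + 1) ω)) (hGE : GoodE p j ω)
    (hGE' : GoodE p (j + 1) ω) (hGn : Good p (j + 1 + k) ω) :
    sSup ((strip p (post j ω)).OS ((strip p ω).ES (Iic 0) j) (k + 1)) ≤
      sSup ((strip p (post (j + 1) ω)).OS ((strip p ω).ES (Iic 0) (j + 1)) k) ∧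
    (ω j ∈ EvR p (sSup ((strip p ω).ES (Iic 0) j)) →
      DR p k (UR p (sSup ((strip p ω).ES (Iic 0) j)) (ω j)) (post (j + 1) ω) ≤
      sSup ((strip p (post (j + 1) ω)).OS ((strip p ω).ES (Iic 0) (j + 1)) k) -
      sSup ((strip p (post j ω)).OS ((strip p ω).ES (Iic 0) j) (k + 1))) := by
  set A := (strip p ω).ES (Iic 0) j with hA
  rw [OS_step hSS, ES_step hSS, ← hA]
  have hsub := ostep_subset_estep (strip p (post j ω)) 0 A
  have hb : BddAbove ((strip p (post (j + 1) ω)).OS ((strip p (post j ω)).estep 0 A) k) := by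
    rw [hA, ← ES_step hSS]
    obtain ⟨b, hb⟩ := hGE'.2.1
    exact (hG b).2.1.mono (OS_mono _ _ fun x hx => hb hx)
  have hne : ((strip p (post (j + 1) ω)).OS ((strip p (post j ω)).ostep 0 A) k).Nonempty := by
    have h1 := (hGn 0).1
    rw [OS_shift, ← hSS.2.1] at h1
    refine h1.mono (OS_mono _ _ ?_)
    show (strip p ω).ostep j ((strip p ω).OS (Iic 0) j) ⊆ _
    rw [hSS.2.1]
    exact ostep_mono (strip p ω) (OS_subset_ES _ _ _)
  refine ⟨csSup_le_csSup hb hne (OS_mono _ _ hsub), fun hEv => ?_⟩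
  obtain ⟨h2, h3⟩ := det_R (p := p) (η := post j ω) (A := A) (a := sSup A)
    (Int.csSup_mem hGE.1 hGE.2.1) (fun x hx => le_csSup hGE.2.1 hx) hEv
  exact key_R hG hsub h2 h3 hne hb

theorem step_L {j k : ℕ} {ω : Arr} (hG : Good p k (post (j + 1) ω)) (hGE : GoodE p j ω)
    (hGE' : GoodE p (j + 1) ω) (hGn : Good p (j + 1 + k) ω) :
    sInf ((strip p (post (j + 1) ω)).OS ((strip p ω).ES (Ici 0) (j + 1)) k) ≤
      sInf ((strip p (post j ω)).OS ((strip p ω).ES (Ici 0) j) (k + 1)) ∧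
    (ω j ∈ EvL p (sInf ((strip p ω).ES (Ici 0) j)) →
      DL p k (UL p (sInf ((strip p ω).ES (Ici 0) j)) (ω j)) (post (j + 1) ω) ≤
      sInf ((strip p (post j ω)).OS ((strip p ω).ES (Ici 0) j) (k + 1)) -
      sInf ((strip p (post (j + 1) ω)).OS ((strip p ω).ES (Ici 0) (j + 1)) k)) := by
  set A := (strip p ω).ES (Ici 0) j with hA
  rw [OS_step hSS, ES_step hSS, ← hA]
  have hsub := ostep_subset_estep (strip p (post j ω)) 0 A
  have hb : BddBelow ((strip p (post (j + 1) ω)).OS ((strip p (post j ω)).estep 0 A) k) := by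
    rw [hA, ← ES_step hSS]
    obtain ⟨b, hb⟩ := hGE'.2.2.2
    exact (hG b).2.2.2.mono (OS_mono _ _ fun x hx => hb hx)
  have hne : ((strip p (post (j + 1) ω)).OS ((strip p (post j ω)).ostep 0 A) k).Nonempty := by
    have h1 := (hGn 0).2.2.1
    rw [OS_shift, ← hSS.2.1] at h1
    refine h1.mono (OS_mono _ _ ?_)
    show (strip p ω).ostep j ((strip p ω).OS (Ici 0) j) ⊆ _
    rw [hSS.2.1]
    exact ostep_mono (strip p ω) (OS_subset_ES _ _ _)
  refine ⟨csInf_le_csInf hb hne (OS_mono _ _ hsub), fun hEv => ?_⟩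
  obtain ⟨h2, h3⟩ := det_L (p := p) (η := post j ω) (A := A) (a := sInf A)
    (Int.csInf_mem hGE.2.2.1 hGE.2.2.2) (fun x hx => csInf_le hGE.2.2.2 hx) hEv
  exact key_L hG hsub h2 h3 hne hb

end Step

/-! ### Measurability -/

theorem m_DR (k : ℕ) (u : ℤ) : Measurable (DR p k u) :=
  (m_sSup fun z => m_OS p _ k z).sub (m_sSup fun z => m_OS p _ k z)

theorem m_DL (k : ℕ) (u : ℤ) : Measurable (DL p k u) :=
  (m_sInf fun z => m_OS p _ k z).sub (m_sInf fun z => m_OS p _ k z)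

theorem m_aR (a : ℤ) (j : ℕ) : Measurable fun ω : Arr => aR p a (ω j) := by
  refine m_sInf (Y := fun ω : Arr => {x | a ≤ x ∧ ω j x ∉ T1 p}) fun z => ?_
  show Measurable fun ω : Arr => a ≤ z ∧ ω j z ∉ T1 p
  exact mc.and (measurableSet_setOfPred.1 ((meas_node j z) (mT1 p))).not

theorem m_aL (a : ℤ) (j : ℕ) : Measurable fun ω : Arr => aL p a (ω j) := by
  refine m_sSup (Y := fun ω : Arr => {x | x ≤ a ∧ ω j (x - 1) ∉ T1 p}) fun z => ?_
  show Measurable fun ω : Arr => z ≤ a ∧ ω j (z - 1) ∉ T1 p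
  exact mc.and (measurableSet_setOfPred.1 ((meas_node j (z - 1)) (mT1 p))).not

theorem m_UR (a : ℤ) (j : ℕ) : Measurable fun ω : Arr => UR p a (ω j) :=
  comp_int (f := fun x (ω : Arr) => ps (xi ω j) (x + 1)) (fun x => meas_ps j (x + 1)) (m_aR a j)

theorem m_UL (a : ℤ) (j : ℕ) : Measurable fun ω : Arr => UL p a (ω j) :=
  comp_int (f := fun x (ω : Arr) => ps (xi ω j) x) (fun x => meas_ps j x) (m_aL a j)

/-! ### Expectations -/

section Exp

variable (hE : EdgeStmt) (hC : CshiftStmt) (hR : RecentreStmt) (hSS : StripShiftStmt)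
  (hW : WidthMomStmt) (h0 : 0 < p) (h1 : p < 1)

include hE hC hR hSS hW h0 h1

theorem int_sup (k : ℕ) (w : ℤ) :
    Integrable (fun η => ((sSup ((strip p η).OS (Iic w) k) : ℤ) : ℝ)) (arrLaw (1 / 2)) := by
  have hP := arr_prob
  have hRR : Integrable (fun ω => (RR p k ω : ℝ)) (arrLaw (1 / 2)) :=
    (hE p h0 h1 k).2.1.integrable (by norm_num)
  have hD : Integrable (fun ω => ((DD ω k w : ℤ) : ℝ)) (arrLaw (1 / 2)) :=
    ((hW (1 / 2) (by norm_num) (by norm_num) k).1 w).1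
  have h2 : Integrable (fun ω => (RR p k (cshift w ω) : ℝ)) (arrLaw (1 / 2)) :=
    (cshift_mp hC w).integrable_comp_of_integrable hRR
  refine (hD.add h2).congr ?_
  filter_upwards [good_ae hE h0 h1 k] with η hG
  have h3 := sup_cshift hR hSS hG w w
  rw [sub_self] at h3
  simp only [Pi.add_apply, h3, RR]
  push_cast
  ring

theorem int_inf (k : ℕ) (w : ℤ) :
    Integrable (fun η => ((sInf ((strip p η).OS (Ici w) k) : ℤ) : ℝ)) (arrLaw (1 / 2)) := by
  have hP := arr_prob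
  have hLL : Integrable (fun ω => (LL p k ω : ℝ)) (arrLaw (1 / 2)) :=
    (hE p h0 h1 k).2.2.1.integrable (by norm_num)
  have hD : Integrable (fun ω => ((DD ω k w : ℤ) : ℝ)) (arrLaw (1 / 2)) :=
    ((hW (1 / 2) (by norm_num) (by norm_num) k).1 w).1
  have h2 : Integrable (fun ω => (LL p k (cshift w ω) : ℝ)) (arrLaw (1 / 2)) :=
    (cshift_mp hC w).integrable_comp_of_integrable hLL
  refine (hD.add h2).congr ?_
  filter_upwards [good_ae hE h0 h1 k] with η hG
  have h3 := inf_cshift hR hSS hG w w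
  rw [sub_self] at h3
  simp only [Pi.add_apply, h3, LL]
  push_cast
  ring

theorem lint_DR (k : ℕ) (u : ℤ) :
    ∫⁻ η, ENNReal.ofReal (DR p k u η : ℝ) ∂arrLaw (1 / 2) = 1 := by
  have hi1 := int_sup hE hC hR hSS hW h0 h1 k (u + 1)
  have hi2 := int_sup hE hC hR hSS hW h0 h1 k u
  have e1 : (fun η => (DR p k u η : ℝ)) = fun η =>
      ((sSup ((strip p η).OS (Iic (u + 1)) k) : ℤ) : ℝ) -
      ((sSup ((strip p η).OS (Iic u) k) : ℤ) : ℝ) := by
    funext η
    unfold DR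
    push_cast
    ring
  have hi : Integrable (fun η => (DR p k u η : ℝ)) (arrLaw (1 / 2)) := by
    rw [e1]
    exact hi1.sub hi2
  have hnn : 0 ≤ᵐ[arrLaw (1 / 2)] fun η => (DR p k u η : ℝ) := by
    filter_upwards [good_ae hE h0 h1 k] with η hG
    have := csSup_le_csSup (hG (u + 1)).2.1 (hG u).1
      (OS_mono (strip p η) k (Iic_subset_Iic.2 (by omega : u ≤ u + 1)))
    show (0 : ℝ) ≤ (DR p k u η : ℝ)
    have h2 : 0 ≤ DR p k u η := by
      unfold DR
      linarith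
    exact_mod_cast h2
  rw [← ofReal_integral_eq_lintegral_ofReal hi hnn, e1, integral_sub hi1 hi2,
    (hE p h0 h1 k).2.2.2.2.2.1 (u + 1), (hE p h0 h1 k).2.2.2.2.2.1 u]
  push_cast
  ring_nf
  simp

theorem lint_DL (k : ℕ) (u : ℤ) :
    ∫⁻ η, ENNReal.ofReal (DL p k u η : ℝ) ∂arrLaw (1 / 2) = 1 := by
  have hi1 := int_inf hE hC hR hSS hW h0 h1 k u
  have hi2 := int_inf hE hC hR hSS hW h0 h1 k (u - 1)
  have e1 : (fun η => (DL p k u η : ℝ)) = fun η =>
      ((sInf ((strip p η).OS (Ici u) k) : ℤ) : ℝ) -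
      ((sInf ((strip p η).OS (Ici (u - 1)) k) : ℤ) : ℝ) := by
    funext η
    unfold DL
    push_cast
    ring
  have hi : Integrable (fun η => (DL p k u η : ℝ)) (arrLaw (1 / 2)) := by
    rw [e1]
    exact hi1.sub hi2
  have hnn : 0 ≤ᵐ[arrLaw (1 / 2)] fun η => (DL p k u η : ℝ) := by
    filter_upwards [good_ae hE h0 h1 k] with η hG
    have := csInf_le_csInf (hG (u - 1)).2.2.2 (hG u).2.2.1
      (OS_mono (strip p η) k (Ici_subset_Ici.2 (by omega : u - 1 ≤ u)))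
    show (0 : ℝ) ≤ (DL p k u η : ℝ)
    have h2 : 0 ≤ DL p k u η := by
      unfold DL
      linarith
    exact_mod_cast h2
  rw [← ofReal_integral_eq_lintegral_ofReal hi hnn, e1, integral_sub hi1 hi2,
    (hE p h0 h1 k).2.2.2.2.2.2.1 u, (hE p h0 h1 k).2.2.2.2.2.2.1 (u - 1)]
  push_cast
  ring_nf
  simp

end Exp

theorem arr_row {S : Set Row} (hS : MeasurableSet S) :
    ∫⁻ η : Arr, S.indicator 1 (η 0) ∂arrLaw (1 / 2) = rowLaw (1 / 2) S := by
  have := nd_prob (α := 1 / 2) (by norm_num) (by norm_num)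
  have h2 : IsProbabilityMeasure (rowLaw (1 / 2)) := by unfold rowLaw; infer_instance
  have h3 : (arrLaw (1 / 2)).map (fun η : Arr => η 0) = rowLaw (1 / 2) :=
    Measure.infinitePi_map_eval (fun _ : ℕ => rowLaw (1 / 2)) 0
  rw [← h3, ← lintegral_indicator_one hS,
    lintegral_map (measurable_one.indicator hS) (measurable_pi_apply 0)]

/-- Expectation of a gain term. -/
theorem gain_term (hS : SplitStmt) (j : ℕ) (a : Arr → ℤ) (ha : Measurable a)
    (hadep : ∀ ω ω' : Arr, (∀ t < j, ω t = ω' t) → a ω = a ω') (Ev : ℤ → Set Row)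
    (hEv : ∀ z, MeasurableSet (Ev z)) {c : ENNReal} (hc : ∀ z, rowLaw (1 / 2) (Ev z) = c)
    (U : ℤ → Row → ℤ) (hU : ∀ z, Measurable fun ω : Arr => U z (ω j)) (D : ℤ → Arr → ℤ)
    (hD : ∀ u, Measurable (D u))
    (hD1 : ∀ u, ∫⁻ η, ENNReal.ofReal (D u η : ℝ) ∂arrLaw (1 / 2) = 1) :
    ∫⁻ ω, (Ev (a ω)).indicator 1 (ω j) *
      ENNReal.ofReal (D (U (a ω) (ω j)) (post (j + 1) ω) : ℝ) ∂arrLaw (1 / 2) = c := by
  have hP := arr_prob
  have m1 : Measurable fun ω : Arr => (Ev (a ω)).indicator (1 : Row → ENNReal) (ω j) :=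
    comp_int (f := fun z (ω : Arr) => (Ev z).indicator (1 : Row → ENNReal) (ω j))
      (fun z => (measurable_one.indicator (hEv z)).comp (measurable_pi_apply j)) ha
  have m2 : Measurable fun ω : Arr => U (a ω) (ω j) :=
    comp_int (f := fun z (ω : Arr) => U z (ω j)) hU ha
  have m3 : Measurable fun q : Arr × Arr => ENNReal.ofReal (D (U (a q.1) (q.1 j)) q.2 : ℝ) :=
    comp_int (f := fun u (q : Arr × Arr) => ENNReal.ofReal (D u q.2 : ℝ))
      (fun u => (measurable_of_countable (fun z : ℤ => ENNReal.ofReal (z : ℝ))).comp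
        ((hD u).comp measurable_snd)) (m2.comp measurable_fst)
  rw [hS (1 / 2) (by norm_num) (by norm_num) (j + 1)
    (fun ω η => (Ev (a ω)).indicator 1 (ω j) * ENNReal.ofReal (D (U (a ω) (ω j)) η : ℝ))
    ((m1.comp measurable_fst).mul m3)]
  · have e1 : ∀ ω : Arr, ∫⁻ η, (Ev (a ω)).indicator (1 : Row → ENNReal) (ω j) *
        ENNReal.ofReal (D (U (a ω) (ω j)) η : ℝ) ∂arrLaw (1 / 2) =
        (Ev (a ω)).indicator (1 : Row → ENNReal) (ω j) := by
      intro ω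
      rw [lintegral_const_mul, hD1, mul_one]
      exact (measurable_of_countable (fun z : ℤ => ENNReal.ofReal (z : ℝ))).comp (hD _)
    simp only [e1]
    have h2 := hS (1 / 2) (by norm_num) (by norm_num) j
      (fun ω η => (Ev (a ω)).indicator (1 : Row → ENNReal) (η 0))
      (comp_int (f := fun z (q : Arr × Arr) => (Ev z).indicator (1 : Row → ENNReal) (q.2 0))
        (fun z => (measurable_one.indicator (hEv z)).comp
          ((measurable_pi_apply 0).comp measurable_snd)) (ha.comp measurable_fst))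
      (fun ω ω' η h => by
        show (Ev (a ω)).indicator (1 : Row → ENNReal) (η 0) =
          (Ev (a ω')).indicator (1 : Row → ENNReal) (η 0)
        rw [hadep ω ω' h])
    have e2 : ∀ ω : Arr, ∫⁻ η : Arr, (Ev (a ω)).indicator (1 : Row → ENNReal) (η 0)
        ∂arrLaw (1 / 2) = c := fun ω => by rw [arr_row (hEv _), hc]
    simp only [e2, lintegral_const, measure_univ, mul_one] at h2
    exact h2
  · intro ω ω' η h
    have h3 : a ω = a ω' := hadep ω ω' fun t ht => h t (Nat.lt_succ_of_lt ht)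
    have h4 : ω j = ω' j := h j (Nat.lt_succ_self j)
    rw [h3, h4]

theorem m_term (j : ℕ) (a : Arr → ℤ) (ha : Measurable a) (Ev : ℤ → Set Row)
    (hEv : ∀ z, MeasurableSet (Ev z)) (U : ℤ → Row → ℤ)
    (hU : ∀ z, Measurable fun ω : Arr => U z (ω j)) (D : ℤ → Arr → ℤ)
    (hD : ∀ u, Measurable (D u)) :
    Measurable fun ω : Arr => (Ev (a ω)).indicator (1 : Row → ENNReal) (ω j) *
      ENNReal.ofReal (D (U (a ω) (ω j)) (post (j + 1) ω) : ℝ) := by
  have m1 : Measurable fun ω : Arr => (Ev (a ω)).indicator (1 : Row → ENNReal) (ω j) :=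
    comp_int (f := fun z (ω : Arr) => (Ev z).indicator (1 : Row → ENNReal) (ω j))
      (fun z => (measurable_one.indicator (hEv z)).comp (measurable_pi_apply j)) ha
  have m2 : Measurable fun ω : Arr => U (a ω) (ω j) :=
    comp_int (f := fun z (ω : Arr) => U z (ω j)) hU ha
  have m3 : Measurable fun ω : Arr =>
      ENNReal.ofReal (D (U (a ω) (ω j)) (post (j + 1) ω) : ℝ) :=
    comp_int (f := fun u (ω : Arr) => ENNReal.ofReal (D u (post (j + 1) ω) : ℝ))
      (fun u => (measurable_of_countable (fun z : ℤ => ENNReal.ofReal (z : ℝ))).comp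
        ((hD u).comp (meas_post (j + 1)))) m2
  exact m1.mul m3

section Main

variable (hE : EdgeStmt) (hC : CshiftStmt) (hR : RecentreStmt) (hSS : StripShiftStmt)
  (hW : WidthMomStmt) (hS : SplitStmt) (hCD : ColDepStmt) (h0 : 0 < p) (h1 : p < 1)

include hE hC hR hSS hW hS hCD h0 h1

theorem gain_R (n : ℕ) : ∫ ω, (RR p n ω : ℝ) ∂arrLaw (1 / 2) + n * (p ^ 3 / 2) ≤
    ∫ ω, (RE p n ω : ℝ) ∂arrLaw (1 / 2) := by
  have hP := arr_prob
  have hRR : Integrable (fun ω => (RR p n ω : ℝ)) (arrLaw (1 / 2)) :=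
    (hE p h0 h1 n).2.1.integrable (by norm_num)
  have hRE : Integrable (fun ω => (RE p n ω : ℝ)) (arrLaw (1 / 2)) :=
    (hE p h0 h1 n).2.2.2.1.integrable (by norm_num)
  set a : ℕ → Arr → ℤ := fun j ω => sSup ((strip p ω).ES (Iic 0) j) with ha
  set Y : ℕ → Arr → ℤ := fun j ω =>
    sSup ((strip p (post j ω)).OS ((strip p ω).ES (Iic 0) j) (n - j)) with hY
  have ham : ∀ j, Measurable (a j) := fun j => m_sSup fun z => m_ES p _ j z
  have hadep : ∀ j (ω ω' : Arr), (∀ t < j, ω t = ω' t) → a j ω = a j ω' := by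
    intro j ω ω' h
    have h2 : (strip p ω).ES (Iic 0) j = (strip p ω').ES (Iic 0) j := by
      ext y
      have h3 := (hCD p j 0 le_rfl).2.2.2.2.2.2.2.2.2.2 (Iic 0) y
      exact ⟨fun h4 => h3 ω ω' h h4, fun h4 => h3 ω' ω (fun t ht => (h t ht).symm) h4⟩
    simp only [ha, h2]
  have hY0 : ∀ ω, Y 0 ω = RR p n ω := by
    intro ω
    show sSup ((strip p (post 0 ω)).OS (Iic 0) n) = _
    rw [post_zero]
    rfl
  have hYn : ∀ ω, Y n ω = RE p n ω := by
    intro ω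
    simp only [hY, Nat.sub_self]
    rfl
  -- pointwise
  have hpt : ∀ᵐ ω ∂arrLaw (1 / 2), 0 ≤ RE p n ω - RR p n ω ∧
      ∑ j ∈ Finset.range n, (EvR p (a j ω)).indicator (1 : Row → ENNReal) (ω j) *
        ENNReal.ofReal (DR p (n - (j + 1)) (UR p (a j ω) (ω j)) (post (j + 1) ω) : ℝ) ≤
      ENNReal.ofReal ((RE p n ω : ℝ) - (RR p n ω : ℝ)) := by
    have hae1 : ∀ᵐ ω ∂arrLaw (1 / 2), ∀ j : ℕ, Good p (n - (j + 1)) (post (j + 1) ω) :=
      ae_all_iff.2 fun j => good_post_ae hE hS h0 h1 _ _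
    have hae2 : ∀ᵐ ω ∂arrLaw (1 / 2), ∀ j : ℕ, GoodE p j ω :=
      ae_all_iff.2 fun j => goodE_ae hE h0 h1 j
    filter_upwards [hae1, hae2, good_ae hE h0 h1 n] with ω hg1 hg2 hg3
    have hst : ∀ j ∈ Finset.range n, 0 ≤ ((Y (j + 1) ω - Y j ω : ℤ) : ℝ) ∧
        (EvR p (a j ω)).indicator (1 : Row → ENNReal) (ω j) *
        ENNReal.ofReal (DR p (n - (j + 1)) (UR p (a j ω) (ω j)) (post (j + 1) ω) : ℝ) ≤
        ENNReal.ofReal ((Y (j + 1) ω - Y j ω : ℤ) : ℝ) := by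
      intro j hj
      rw [Finset.mem_range] at hj
      obtain ⟨k, hk⟩ : ∃ k, n = j + 1 + k := ⟨n - (j + 1), by omega⟩
      have hk1 : n - (j + 1) = k := by omega
      have hk2 : n - j = k + 1 := by omega
      have hg1' := hg1 j
      rw [hk1] at hg1'
      have h2 := step_R hSS hg1' (hg2 j) (hg2 (j + 1)) (by rw [← hk]; exact hg3)
      have e1 : Y j ω = sSup ((strip p (post j ω)).OS ((strip p ω).ES (Iic 0) j) (k + 1)) := by
        simp only [hY, hk2]
      have e2 : Y (j + 1) ω =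
          sSup ((strip p (post (j + 1) ω)).OS ((strip p ω).ES (Iic 0) (j + 1)) k) := by
        simp only [hY, hk1]
      rw [← e1, ← e2] at h2
      refine ⟨by exact_mod_cast sub_nonneg.2 h2.1, ?_⟩
      rw [hk1]
      by_cases hev : ω j ∈ EvR p (a j ω)
      · rw [indicator_of_mem hev, Pi.one_apply, one_mul]
        refine ENNReal.ofReal_le_ofReal ?_
        exact_mod_cast h2.2 hev
      · rw [indicator_of_notMem hev, zero_mul]
        exact bot_le
    have htel : ((RE p n ω : ℝ) - (RR p n ω : ℝ)) =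
        ∑ j ∈ Finset.range n, ((Y (j + 1) ω - Y j ω : ℤ) : ℝ) := by
      rw [← Int.cast_sum, Finset.sum_range_sub (fun j => Y j ω) n, hY0, hYn]
      push_cast
      ring
    refine ⟨?_, ?_⟩
    · have h3 : (0 : ℝ) ≤ (RE p n ω : ℝ) - (RR p n ω : ℝ) := by
        rw [htel]
        exact Finset.sum_nonneg fun j hj => (hst j hj).1
      exact_mod_cast h3
    · rw [htel, ENNReal.ofReal_sum_of_nonneg fun j hj => (hst j hj).1]
      exact Finset.sum_le_sum fun j hj => (hst j hj).2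
  have hmt : ∀ j, Measurable fun ω : Arr =>
      (EvR p (a j ω)).indicator (1 : Row → ENNReal) (ω j) *
        ENNReal.ofReal (DR p (n - (j + 1)) (UR p (a j ω) (ω j)) (post (j + 1) ω) : ℝ) := fun j =>
    m_term j (a j) (ham j) (EvR p) (mEvR p) (UR p) (fun z => m_UR z j) (DR p (n - (j + 1)))
      (m_DR _)
  have hlow : (n : ENNReal) * ENNReal.ofReal (p ^ 3 / 2) ≤
      ∫⁻ ω, ENNReal.ofReal ((RE p n ω : ℝ) - (RR p n ω : ℝ)) ∂arrLaw (1 / 2) := by
    have h2 := lintegral_mono_ae (hpt.mono fun ω h => h.2)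
    rw [lintegral_finsetSum _ fun j _ => hmt j] at h2
    refine le_trans (le_of_eq ?_) h2
    rw [Finset.sum_congr rfl (g := fun _ => ENNReal.ofReal (p ^ 3 / 2))]
    · simp
    · intro j _
      exact gain_term hS j (a j) (ham j) (hadep j) (EvR p) (mEvR p) (pEvR h0 h1) (UR p)
        (fun z => m_UR z j) (DR p (n - (j + 1))) (m_DR _)
        (lint_DR hE hC hR hSS hW h0 h1 _)
  have hnn : 0 ≤ᵐ[arrLaw (1 / 2)] fun ω => (RE p n ω : ℝ) - (RR p n ω : ℝ) :=
    hpt.mono fun ω h => by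
      show (0 : ℝ) ≤ (RE p n ω : ℝ) - (RR p n ω : ℝ)
      exact_mod_cast h.1
  have hsub : Integrable (fun ω => (RE p n ω : ℝ) - (RR p n ω : ℝ)) (arrLaw (1 / 2)) :=
    hRE.sub hRR
  rw [← ofReal_integral_eq_lintegral_ofReal hsub hnn, ← ENNReal.ofReal_natCast,
    ← ENNReal.ofReal_mul (by positivity),
    ENNReal.ofReal_le_ofReal_iff (integral_nonneg_of_ae hnn)] at hlow
  have h3 : ∫ ω, ((RE p n ω : ℝ) - (RR p n ω : ℝ)) ∂arrLaw (1 / 2) =
      ∫ ω, (RE p n ω : ℝ) ∂arrLaw (1 / 2) - ∫ ω, (RR p n ω : ℝ) ∂arrLaw (1 / 2) :=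
    integral_sub hRE hRR
  linarith

theorem gain_L (n : ℕ) : ∫ ω, (LE p n ω : ℝ) ∂arrLaw (1 / 2) + n * (p ^ 3 / 2) ≤
    ∫ ω, (LL p n ω : ℝ) ∂arrLaw (1 / 2) := by
  have hP := arr_prob
  have hLL : Integrable (fun ω => (LL p n ω : ℝ)) (arrLaw (1 / 2)) :=
    (hE p h0 h1 n).2.2.1.integrable (by norm_num)
  have hLE : Integrable (fun ω => (LE p n ω : ℝ)) (arrLaw (1 / 2)) :=
    (hE p h0 h1 n).2.2.2.2.1.integrable (by norm_num)
  set a : ℕ → Arr → ℤ := fun j ω => sInf ((strip p ω).ES (Ici 0) j) with ha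
  set Y : ℕ → Arr → ℤ := fun j ω =>
    sInf ((strip p (post j ω)).OS ((strip p ω).ES (Ici 0) j) (n - j)) with hY
  have ham : ∀ j, Measurable (a j) := fun j => m_sInf fun z => m_ES p _ j z
  have hadep : ∀ j (ω ω' : Arr), (∀ t < j, ω t = ω' t) → a j ω = a j ω' := by
    intro j ω ω' h
    have h2 : (strip p ω).ES (Ici 0) j = (strip p ω').ES (Ici 0) j := by
      ext y
      have h3 := (hCD p j 0 le_rfl).2.2.2.2.2.2.2.2.2.2 (Ici 0) y
      exact ⟨fun h4 => h3 ω ω' h h4, fun h4 => h3 ω' ω (fun t ht => (h t ht).symm) h4⟩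
    simp only [ha, h2]
  have hY0 : ∀ ω, Y 0 ω = LL p n ω := by
    intro ω
    show sInf ((strip p (post 0 ω)).OS (Ici 0) n) = _
    rw [post_zero]
    rfl
  have hYn : ∀ ω, Y n ω = LE p n ω := by
    intro ω
    simp only [hY, Nat.sub_self]
    rfl
  -- pointwise
  have hpt : ∀ᵐ ω ∂arrLaw (1 / 2), 0 ≤ LL p n ω - LE p n ω ∧
      ∑ j ∈ Finset.range n, (EvL p (a j ω)).indicator (1 : Row → ENNReal) (ω j) *
        ENNReal.ofReal (DL p (n - (j + 1)) (UL p (a j ω) (ω j)) (post (j + 1) ω) : ℝ) ≤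
      ENNReal.ofReal ((LL p n ω : ℝ) - (LE p n ω : ℝ)) := by
    have hae1 : ∀ᵐ ω ∂arrLaw (1 / 2), ∀ j : ℕ, Good p (n - (j + 1)) (post (j + 1) ω) :=
      ae_all_iff.2 fun j => good_post_ae hE hS h0 h1 _ _
    have hae2 : ∀ᵐ ω ∂arrLaw (1 / 2), ∀ j : ℕ, GoodE p j ω :=
      ae_all_iff.2 fun j => goodE_ae hE h0 h1 j
    filter_upwards [hae1, hae2, good_ae hE h0 h1 n] with ω hg1 hg2 hg3
    have hst : ∀ j ∈ Finset.range n, 0 ≤ ((Y j ω - Y (j + 1) ω : ℤ) : ℝ) ∧
        (EvL p (a j ω)).indicator (1 : Row → ENNReal) (ω j) *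
        ENNReal.ofReal (DL p (n - (j + 1)) (UL p (a j ω) (ω j)) (post (j + 1) ω) : ℝ) ≤
        ENNReal.ofReal ((Y j ω - Y (j + 1) ω : ℤ) : ℝ) := by
      intro j hj
      rw [Finset.mem_range] at hj
      obtain ⟨k, hk⟩ : ∃ k, n = j + 1 + k := ⟨n - (j + 1), by omega⟩
      have hk1 : n - (j + 1) = k := by omega
      have hk2 : n - j = k + 1 := by omega
      have hg1' := hg1 j
      rw [hk1] at hg1'
      have h2 := step_L hSS hg1' (hg2 j) (hg2 (j + 1)) (by rw [← hk]; exact hg3)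
      have e1 : Y j ω = sInf ((strip p (post j ω)).OS ((strip p ω).ES (Ici 0) j) (k + 1)) := by
        simp only [hY, hk2]
      have e2 : Y (j + 1) ω =
          sInf ((strip p (post (j + 1) ω)).OS ((strip p ω).ES (Ici 0) (j + 1)) k) := by
        simp only [hY, hk1]
      rw [← e1, ← e2] at h2
      refine ⟨by exact_mod_cast sub_nonneg.2 h2.1, ?_⟩
      rw [hk1]
      by_cases hev : ω j ∈ EvL p (a j ω)
      · rw [indicator_of_mem hev, Pi.one_apply, one_mul]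
        refine ENNReal.ofReal_le_ofReal ?_
        exact_mod_cast h2.2 hev
      · rw [indicator_of_notMem hev, zero_mul]
        exact bot_le
    have htel : ((LL p n ω : ℝ) - (LE p n ω : ℝ)) =
        ∑ j ∈ Finset.range n, ((Y j ω - Y (j + 1) ω : ℤ) : ℝ) := by
      rw [← Int.cast_sum, Finset.sum_range_sub' (fun j => Y j ω) n, hY0, hYn]
      push_cast
      ring
    refine ⟨?_, ?_⟩
    · have h3 : (0 : ℝ) ≤ (LL p n ω : ℝ) - (LE p n ω : ℝ) := by
        rw [htel]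
        exact Finset.sum_nonneg fun j hj => (hst j hj).1
      exact_mod_cast h3
    · rw [htel, ENNReal.ofReal_sum_of_nonneg fun j hj => (hst j hj).1]
      exact Finset.sum_le_sum fun j hj => (hst j hj).2
  have hmt : ∀ j, Measurable fun ω : Arr =>
      (EvL p (a j ω)).indicator (1 : Row → ENNReal) (ω j) *
        ENNReal.ofReal (DL p (n - (j + 1)) (UL p (a j ω) (ω j)) (post (j + 1) ω) : ℝ) := fun j =>
    m_term j (a j) (ham j) (EvL p) (mEvL p) (UL p) (fun z => m_UL z j) (DL p (n - (j + 1)))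
      (m_DL _)
  have hlow : (n : ENNReal) * ENNReal.ofReal (p ^ 3 / 2) ≤
      ∫⁻ ω, ENNReal.ofReal ((LL p n ω : ℝ) - (LE p n ω : ℝ)) ∂arrLaw (1 / 2) := by
    have h2 := lintegral_mono_ae (hpt.mono fun ω h => h.2)
    rw [lintegral_finsetSum _ fun j _ => hmt j] at h2
    refine le_trans (le_of_eq ?_) h2
    rw [Finset.sum_congr rfl (g := fun _ => ENNReal.ofReal (p ^ 3 / 2))]
    · simp
    · intro j _
      exact gain_term hS j (a j) (ham j) (hadep j) (EvL p) (mEvL p) (pEvL h0 h1) (UL p)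
        (fun z => m_UL z j) (DL p (n - (j + 1))) (m_DL _)
        (lint_DL hE hC hR hSS hW h0 h1 _)
  have hnn : 0 ≤ᵐ[arrLaw (1 / 2)] fun ω => (LL p n ω : ℝ) - (LE p n ω : ℝ) :=
    hpt.mono fun ω h => by
      show (0 : ℝ) ≤ (LL p n ω : ℝ) - (LE p n ω : ℝ)
      exact_mod_cast h.1
  have hsub : Integrable (fun ω => (LL p n ω : ℝ) - (LE p n ω : ℝ)) (arrLaw (1 / 2)) :=
    hLL.sub hLE
  rw [← ofReal_integral_eq_lintegral_ofReal hsub hnn, ← ENNReal.ofReal_natCast,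
    ← ENNReal.ofReal_mul (by positivity),
    ENNReal.ofReal_le_ofReal_iff (integral_nonneg_of_ae hnn)] at hlow
  have h3 : ∫ ω, ((LL p n ω : ℝ) - (LE p n ω : ℝ)) ∂arrLaw (1 / 2) =
      ∫ ω, (LL p n ω : ℝ) ∂arrLaw (1 / 2) - ∫ ω, (LE p n ω : ℝ) ∂arrLaw (1 / 2) :=
    integral_sub hLL hLE
  linarith

end Main

end Gain

theorem gain (hE : EdgeStmt) (hC : CshiftStmt) (hR : RecentreStmt) (hSS : StripShiftStmt)
    (hW : WidthMomStmt) (hS : SplitStmt) (hCD : ColDepStmt) : GainStmt := by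
  intro p h0 h1 n
  have hP := FC.arr_prob
  have hRR : Integrable (fun ω => (RR p n ω : ℝ)) (arrLaw (1 / 2)) :=
    (hE p h0 h1 n).2.1.integrable (by norm_num)
  have hLL : Integrable (fun ω => (LL p n ω : ℝ)) (arrLaw (1 / 2)) :=
    (hE p h0 h1 n).2.2.1.integrable (by norm_num)
  have hRE : Integrable (fun ω => (RE p n ω : ℝ)) (arrLaw (1 / 2)) :=
    (hE p h0 h1 n).2.2.2.1.integrable (by norm_num)
  have hLE : Integrable (fun ω => (LE p n ω : ℝ)) (arrLaw (1 / 2)) :=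
    (hE p h0 h1 n).2.2.2.2.1.integrable (by norm_num)
  unfold kap kapE
  rw [integral_sub hRR hLL, integral_sub hRE hLE]
  have h2 := Gain.gain_R hE hC hR hSS hW hS hCD h0 h1 n
  have h3 := Gain.gain_L hE hC hR hSS hW hS hCD h0 h1 n
  linarith

end CausalPerc.Neg
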