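import Pool.Agent.Lib.MP_a51368_pr.Neg.Spec3
import Pool.Agent.Lib.MP_a51368_pr.Meas

/-!
# Supercritical Galton-Watson trees: small nonempty generations are unlikely
-/

open MeasureTheory ProbabilityTheory Set Measure Filter Topology

namespace CausalPerc.Neg

/-- The size of a generation. -/
def gZ (r : ℕ) (ω : Conf) : ℕ := (level (kids ω) r).length

theorem level_cone (t : Vert → ℕ) (r : ℕ) :
    level t (r + 1) = (List.range (t [])).flatMap
      (fun i => (level (fun u => t (u ++ [i])) r).map (fun v => v ++ [i])) := by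
  induction r with
  | zero => simp [level, List.map_eq_flatMap]
  | succ r ih =>
    rw [level_succ, ih, List.flatMap_assoc]
    congr 1
    funext i
    rw [level_succ, List.flatMap_map, List.map_flatMap]
    congr 1
    funext v
    simp [children]

theorem gZ_succ (r : ℕ) (ω : Conf) :
    gZ (r + 1) ω = ∑ i ∈ Finset.range (ω []).1, gZ r (cones ω i) := by
  unfold gZ
  rw [level_cone, List.length_flatMap]
  simp only [List.length_map]
  rw [Finset.sum_eq_multiset_sum]
  rfl

theorem measurable_sumc {f : Conf → ℕ} (hf : Measurable f) :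
    Measurable (fun p : Node × (ℕ → Conf) => ∑ i ∈ Finset.range p.1.1, f (p.2 i)) := by
  have h1 : Measurable (fun q : ℕ × (ℕ → Conf) => ∑ i ∈ Finset.range q.1, f (q.2 i)) := by
    apply measurable_from_prod_countable_right
    intro n
    show Measurable fun y : ℕ → Conf => ∑ i ∈ Finset.range n, f (y i)
    exact Finset.measurable_sum (Finset.range n) fun i _ => hf.comp (measurable_pi_apply i)
  exact h1.comp ((measurable_fst.comp measurable_fst).prodMk measurable_snd)

theorem measurable_gZ (r : ℕ) : Measurable (gZ r) := by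
  induction r with
  | zero =>
    have : gZ 0 = fun _ => 1 := by funext ω; rfl
    rw [this]; exact measurable_const
  | succ r ih =>
    have : gZ (r + 1) = (fun p : Node × (ℕ → Conf) => ∑ i ∈ Finset.range p.1.1, gZ r (p.2 i)) ∘
        (fun ω : Conf => (ω [], cones ω)) := by
      funext ω; exact gZ_succ r ω
    rw [this]
    exact (measurable_sumc ih).comp measurable_split

/-- The generating function. -/
noncomputable def gG (α : ℝ) (s : ℝ) : ℕ → ℝ
  | 0 => s
  | r + 1 => (1 - α) / (1 - α * gG α s r)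

theorem gG_mem {α s : ℝ} (h0 : 0 ≤ α) (h1 : α < 1) (hs0 : 0 ≤ s) (hs1 : s ≤ 1) (r : ℕ) :
    0 ≤ gG α s r ∧ gG α s r ≤ 1 := by
  induction r with
  | zero => exact ⟨hs0, hs1⟩
  | succ r ih =>
    have h2 : α * gG α s r ≤ α := by nlinarith [ih.2]
    have h3 : 0 < 1 - α * gG α s r := by linarith
    refine ⟨div_nonneg (by linarith) h3.le, ?_⟩
    show (1 - α) / (1 - α * gG α s r) ≤ 1
    rw [div_le_one h3]
    linarith

theorem gen_fun (α : ℝ) [GoodParam α] {s : ℝ} (hs0 : 0 ≤ s) (hs1 : s ≤ 1) (r : ℕ) :
    ∫⁻ ω, ENNReal.ofReal s ^ gZ r ω ∂(law α) = ENNReal.ofReal (gG α s r) := by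
  have h0 : 0 ≤ α := (GoodParam.pos (α := α)).le
  have h1 : α < 1 := GoodParam.lt_one
  induction r with
  | zero =>
    have : ∀ ω, ENNReal.ofReal s ^ gZ 0 ω = ENNReal.ofReal s := by
      intro ω
      show ENNReal.ofReal s ^ 1 = _
      rw [pow_one]
    simp only [this, lintegral_const, measure_univ, mul_one]
    rfl
  | succ r ih =>
    have hm : Measurable (fun ω : Conf => ENNReal.ofReal s ^ gZ r ω) :=
      (measurable_from_nat (f := fun n => ENNReal.ofReal s ^ n)).comp (measurable_gZ r)
    have hm2 : Measurable (fun p : Node × (ℕ → Conf) =>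
        ENNReal.ofReal s ^ (∑ i ∈ Finset.range p.1.1, gZ r (p.2 i))) :=
      (measurable_from_nat (f := fun n => ENNReal.ofReal s ^ n)).comp
        (measurable_sumc (measurable_gZ r))
    have e1 : ∫⁻ ω, ENNReal.ofReal s ^ gZ (r + 1) ω ∂(law α) =
        ∫⁻ p : Node × (ℕ → Conf), ENNReal.ofReal s ^ (∑ i ∈ Finset.range p.1.1, gZ r (p.2 i))
          ∂((nodeLaw α).prod (Measure.infinitePi fun _ : ℕ => law α)) := by
      rw [← map_split, lintegral_map hm2 measurable_split]
      simp only [gZ_succ]
    rw [e1, lintegral_prod _ hm2.aemeasurable]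
    have e2 : ∀ x : Node, ∫⁻ c : ℕ → Conf,
        ENNReal.ofReal s ^ (∑ i ∈ Finset.range x.1, gZ r (c i))
          ∂(Measure.infinitePi fun _ : ℕ => law α) = ENNReal.ofReal (gG α s r) ^ x.1 := by
      intro x
      simp only [← Finset.prod_pow_eq_pow_sum]
      rw [lintegral_prod_eq_prod_lintegral_of_indepFun (Finset.range x.1)
        (fun i (c : ℕ → Conf) => ENNReal.ofReal s ^ gZ r (c i))
        (iIndepFun_infinitePi (X := fun _ ω => ENNReal.ofReal s ^ gZ r ω) (fun _ => hm))
        (fun i => hm.comp (measurable_pi_apply i))]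
      have e3 : ∀ i : ℕ, ∫⁻ c : ℕ → Conf, ENNReal.ofReal s ^ gZ r (c i)
          ∂(Measure.infinitePi fun _ : ℕ => law α) = ENNReal.ofReal (gG α s r) := by
        intro i
        have h5 := lintegral_map (μ := Measure.infinitePi fun _ : ℕ => law α) hm
          (measurable_pi_apply i)
        rw [Measure.infinitePi_map_eval] at h5
        rw [← h5, ih]
      rw [Finset.prod_congr rfl (fun i _ => e3 i), Finset.prod_const, Finset.card_range]
    simp only [e2]
    have hg := gG_mem h0 h1 hs0 hs1 r
    have e4 : ∫⁻ x : Node, ENNReal.ofReal (gG α s r) ^ x.1 ∂(nodeLaw α) =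
        ∫⁻ k, ENNReal.ofReal (gG α s r) ^ k ∂(geo α) := by
      unfold nodeLaw
      have h6 := lintegral_map (μ := (geo α).prod
        (Measure.infinitePi fun _ : Slot => (volume : Measure unitInterval)))
        (measurable_from_nat (f := fun n => ENNReal.ofReal (gG α s r) ^ n)) measurable_fst
      rw [← h6, Measure.map_fst_prod]
      simp
    rw [e4]
    unfold geo
    rw [lintegral_sum_measure]
    have e5 : ∀ k : ℕ, ∫⁻ a, ENNReal.ofReal (gG α s r) ^ a
        ∂(ENNReal.ofReal (α ^ k * (1 - α)) • Measure.dirac k) =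
        ENNReal.ofReal ((α * gG α s r) ^ k * (1 - α)) := by
      intro k
      rw [lintegral_smul_measure, lintegral_dirac, smul_eq_mul,
        ← ENNReal.ofReal_pow hg.1, ← ENNReal.ofReal_mul (by
          have := pow_nonneg h0 k; nlinarith)]
      congr 1
      rw [mul_pow]; ring
    simp only [e5]
    have hq0 : 0 ≤ α * gG α s r := mul_nonneg h0 hg.1
    have hq1 : α * gG α s r < 1 := by nlinarith [hg.2]
    rw [← ENNReal.ofReal_tsum_of_nonneg, tsum_mul_right, tsum_geometric_of_lt_one hq0 hq1]
    · congr 1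
      show (1 - α * gG α s r)⁻¹ * (1 - α) = (1 - α) / (1 - α * gG α s r)
      rw [div_eq_mul_inv, mul_comm]
    · intro n
      have := pow_nonneg hq0 n
      nlinarith
    · exact (summable_geometric_of_lt_one hq0 hq1).mul_right _

/-- The generating function converges to the extinction probability. -/
theorem gG_tendsto {α s : ℝ} (h0 : 1 / 2 < α) (h1 : α < 1) (hs0 : 0 ≤ s) (hs1 : s < 1) :
    Tendsto (gG α s) atTop (𝓝 ((1 - α) / α)) := by
  have hα : 0 < α := by linarith
  set q := (1 - α) / α with hq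
  have hq0 : 0 < q := div_pos (by linarith) hα
  have hq1 : q < 1 := by rw [hq, div_lt_one hα]; linarith
  have hlt : ∀ r, gG α s r < 1 := by
    intro r
    induction r with
    | zero => exact hs1
    | succ r ih =>
      have h3 : 0 < 1 - α * gG α s r := by nlinarith
      show (1 - α) / (1 - α * gG α s r) < 1
      rw [div_lt_one h3]
      nlinarith
  have hrec : ∀ r, (gG α s r - q) = q ^ r * ((s - q) / (s - 1)) * (gG α s r - 1) := by
    intro r
    induction r with
    | zero =>
      show s - q = q ^ 0 * ((s - q) / (s - 1)) * (s - 1)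
      have : s - 1 ≠ 0 := by linarith
      field_simp
    | succ r ih =>
      have hg := hlt r
      have h3 : 0 < 1 - α * gG α s r := by nlinarith
      have e1 : gG α s (r + 1) - 1 = α * (gG α s r - 1) / (1 - α * gG α s r) := by
        show (1 - α) / (1 - α * gG α s r) - 1 = _
        field_simp
        ring
      have e2 : gG α s (r + 1) - q = (1 - α) * (gG α s r - q) / (1 - α * gG α s r) := by
        show (1 - α) / (1 - α * gG α s r) - q = _
        rw [hq]
        field_simp
        ring
      rw [e2, e1, ih]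
      have e3 : (1 - α) = q * α := by rw [hq]; field_simp
      rw [e3, pow_succ]
      field_simp
  have hb : ∀ r, |gG α s r - q| ≤ q ^ r * |(s - q) / (s - 1)| := by
    intro r
    have hm := gG_mem hα.le h1 hs0 hs1.le r
    rw [hrec r, abs_mul, abs_mul, abs_of_nonneg (by positivity : (0 : ℝ) ≤ q ^ r)]
    have h5 : |gG α s r - 1| ≤ 1 := by rw [abs_le]; constructor <;> linarith [hm.1, hm.2]
    have h6 : 0 ≤ q ^ r * |(s - q) / (s - 1)| := by positivity
    nlinarith
  rw [tendsto_iff_norm_sub_tendsto_zero]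
  refine squeeze_zero (fun _ => norm_nonneg _) (fun r => hb r) ?_
  have := (tendsto_pow_atTop_nhds_zero_of_lt_one hq0.le hq1).mul_const |(s - q) / (s - 1)|
  simpa using this

theorem growth : GrowthStmt := by
  intro α h0 h1 K
  have : GoodParam α := ⟨by linarith, h1⟩
  have hhalf : (0 : ℝ) ≤ 1 / 2 := by norm_num
  have key : ∀ r, law α {ω | level (kids ω) r ≠ [] ∧ (level (kids ω) r).length < K} ≤
      ENNReal.ofReal ((gG α (1 / 2) r - gG α 0 r) * 2 ^ K) := by
    intro r
    set A := {ω : Conf | level (kids ω) r ≠ [] ∧ (level (kids ω) r).length < K} with hA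
    have hAm : MeasurableSet A := by
      have : A = gZ r ⁻¹' {n | n ≠ 0 ∧ n < K} := by
        ext ω
        simp [hA, gZ]
      rw [this]
      exact measurable_gZ r (MeasurableSet.of_discrete)
    have hm0 : Measurable (fun ω : Conf => ENNReal.ofReal 0 ^ gZ r ω) :=
      (measurable_from_nat (f := fun n => ENNReal.ofReal 0 ^ n)).comp (measurable_gZ r)
    have h2 : ∫⁻ ω, (ENNReal.ofReal ((1 / 2 : ℝ) ^ K) * A.indicator 1 ω +
        ENNReal.ofReal 0 ^ gZ r ω) ∂(law α) ≤
        ∫⁻ ω, ENNReal.ofReal (1 / 2) ^ gZ r ω ∂(law α) := by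
      refine lintegral_mono fun ω => ?_
      by_cases hω : ω ∈ A
      · have h3 : gZ r ω ≠ 0 ∧ gZ r ω < K := by
          simpa [hA, gZ] using hω
        rw [indicator_of_mem hω, Pi.one_apply, mul_one, ENNReal.ofReal_zero, zero_pow h3.1,
          add_zero, ← ENNReal.ofReal_pow hhalf]
        exact ENNReal.ofReal_le_ofReal
          (pow_le_pow_of_le_one (by norm_num) (by norm_num) h3.2.le)
      · rw [indicator_of_notMem hω, mul_zero, zero_add]
        exact pow_le_pow_left₀ (by simp) (ENNReal.ofReal_le_ofReal (by norm_num)) _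
    rw [lintegral_add_right _ hm0, lintegral_const_mul _ (measurable_one.indicator hAm),
      lintegral_indicator_one hAm, gen_fun α hhalf (by norm_num) r,
      gen_fun α le_rfl (by norm_num) r] at h2
    have hg0 := gG_mem (s := 0) (by linarith : (0:ℝ) ≤ α) h1 le_rfl (by norm_num) r
    have hg1 := gG_mem (s := 1 / 2) (by linarith : (0:ℝ) ≤ α) h1 hhalf (by norm_num) r
    have hfin : law α A ≠ ⊤ := measure_ne_top _ _
    obtain ⟨x, hx0, hx⟩ : ∃ x : ℝ, 0 ≤ x ∧ law α A = ENNReal.ofReal x :=
      ⟨(law α A).toReal, ENNReal.toReal_nonneg, (ENNReal.ofReal_toReal hfin).symm⟩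
    rw [hx] at h2 ⊢
    rw [← ENNReal.ofReal_mul (by positivity), ← ENNReal.ofReal_add (by positivity) hg0.1,
      ENNReal.ofReal_le_ofReal_iff hg1.1] at h2
    apply ENNReal.ofReal_le_ofReal
    have h4 : (1 / 2 : ℝ) ^ K * x ≤ gG α (1 / 2) r - gG α 0 r := by linarith
    have h5 : x = ((1 / 2 : ℝ) ^ K * x) * 2 ^ K := by
      have h6 : (1 / 2 : ℝ) ^ K * 2 ^ K = 1 := by rw [← mul_pow]; norm_num
      calc x = x * ((1 / 2 : ℝ) ^ K * 2 ^ K) := by rw [h6, mul_one]
        _ = _ := by ring
    rw [h5]
    exact mul_le_mul_of_nonneg_right h4 (by positivity)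
  have hlim : Tendsto (fun r => ENNReal.ofReal ((gG α (1 / 2) r - gG α 0 r) * 2 ^ K)) atTop
      (𝓝 0) := by
    have h2 := (gG_tendsto h0 h1 hhalf (by norm_num : (1 / 2 : ℝ) < 1)).sub
      (gG_tendsto h0 h1 le_rfl (by norm_num : (0 : ℝ) < 1))
    rw [sub_self] at h2
    have h3 := h2.mul_const ((2 : ℝ) ^ K)
    rw [zero_mul] at h3
    have h4 := ENNReal.tendsto_ofReal h3
    rwa [ENNReal.ofReal_zero] at h4
  exact tendsto_of_tendsto_of_tendsto_of_le_of_le tendsto_const_nhds hlim
    (fun _ => zero_le) key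

end CausalPerc.Neg
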