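import Pool.Agent.Lib.MP_a51368_pr.Neg.Spec3
import Pool.Agent.Lib.MP_a51368_pr.Neg.Adapted
import Pool.Agent.Lib.MP_a51368_pr.Neg.ColDep

/-!
# Existence of infinite clusters
-/

open MeasureTheory Set Filter Topology

noncomputable section

namespace CausalPerc.Neg

namespace HasInfX

/-- no oriented crossing of height `n` in any of the columns `[ih,(i+1)h)`, `i < j` -/
def FF (p : ℝ) (h j n : ℕ) : Set Arr :=
  {ω | ∀ i : Fin j, ¬ (strip p ω).OCross (((i : ℕ) : ℤ) * h) ((((i : ℕ) : ℤ) + 1) * h) n}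

theorem ocross_anti {E : Strip} {a b : ℤ} {m n : ℕ} (hm : m ≤ n) (h : E.OCross a b n) :
    E.OCross a b m := by
  obtain ⟨x, y, h1, h2, h3⟩ := h
  -- first visit of level `m`
  have key : ∀ u v : ℕ × ℤ, E.OConn n (E.col a b) u v → u.1 ≤ m → m ≤ v.1 →
      ∃ z, E.OConn m (E.col a b) u (m, z) := by
    intro u v huv
    induction huv using Relation.ReflTransGen.head_induction_on with
    | refl =>
      intro h4 h5
      have h6 : v.1 = m := le_antisymm h4 h5
      exact ⟨v.2, by rw [← h6]; exact .refl⟩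
    | head hab hbc ih =>
      rename_i a' b'
      intro h4 h5
      rcases h4.eq_or_lt with h6 | h6
      · exact ⟨a'.2, by rw [← h6]; exact .refl⟩
      · have h7 := (Strip.OStep.step hab).levels
        obtain ⟨z, hz⟩ := ih (by omega) h5
        refine ⟨z, Relation.ReflTransGen.head ?_ hz⟩
        obtain ⟨h8, h9, h10⟩ := hab
        refine ⟨h8, h9, ?_⟩
        rcases h10 with h | h | h
        · cases h with
          | mk t x y ht hv ho => exact Or.inl (.mk t x y (by simpa using h6) hv ho)
        · cases h with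
          | mk t x ht ho => exact Or.inr (Or.inl (.mk t x (by simpa using h6) ho))
        · cases h with
          | mk t x ht ho => exact Or.inr (Or.inr (.mk t x (by simpa using h6) ho))
  obtain ⟨z, hz⟩ := key _ _ h3 (Nat.zero_le _) hm
  exact ⟨x, z, h1, h2, hz⟩

theorem FF_mono {p : ℝ} {h j m n : ℕ} (hm : m ≤ n) : FF p h j m ⊆ FF p h j n :=
  fun _ hω i hc => hω i (ocross_anti hm hc)

theorem measurable_FF (hM : MeasStmt) (p : ℝ) (h j n : ℕ) : MeasurableSet (FF p h j n) := by
  have : FF p h j n = ⋂ i : Fin j, {ω | (strip p ω).OCross (((i : ℕ) : ℤ) * h)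
      ((((i : ℕ) : ℤ) + 1) * h) n}ᶜ := by
    ext ω; simp [FF]
  rw [this]
  exact MeasurableSet.iInter fun i => ((hM.2.2.2 p n _ _).2.2.2.2.2.1).compl

theorem colDep_FF (p : ℝ) (h j n : ℕ) : ColDep ((j * h : ℕ) : ℤ) n (FF p h j n) := by
  intro ω ω' hag hω i hc
  apply hω i
  -- symmetric agreement
  have hag1 : AgrC ((j * h : ℕ) : ℤ) n ω ω' := hag
  have hb : (0 : ℤ) ≤ ((j * h : ℕ) : ℤ) := Nat.cast_nonneg _
  have hag2 : AgrC ((j * h : ℕ) : ℤ) n ω' ω := by
    intro t ht x hx0 hx1
    rw [← hag1.D ht.le hb le_rfl] at hx1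
    exact (hag t ht x hx0 hx1).symm
  have hi : ((i : ℕ) : ℤ) + 1 ≤ j := by exact_mod_cast i.2
  have hh : (0 : ℤ) ≤ h := Nat.cast_nonneg _
  have h0 : (0 : ℤ) ≤ ((i : ℕ) : ℤ) * h := by positivity
  have h1 : (((i : ℕ) : ℤ) + 1) * h ≤ ((j * h : ℕ) : ℤ) := by
    push_cast
    exact mul_le_mul_of_nonneg_right hi hh
  have h2 : ((i : ℕ) : ℤ) * h ≤ ((j * h : ℕ) : ℤ) := by linarith
  obtain ⟨x, y, h3, h4, h5⟩ := hc
  exact ⟨x, y, h3, h4, (hag2.agr p h0 h1).oconn (hag2.col p h0 h2 (by positivity) h1) h5⟩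

theorem law_FF (hM : MeasStmt) (hSS : StripShiftStmt) (hRc : RecentreStmt) (hCI : ColIndepStmt)
    (hCD : ColDepStmt) {α : ℝ} (h0 : 0 ≤ α) (h1 : α < 1) (p : ℝ) (h j n : ℕ) :
    arrLaw α (FF p h j n) = (arrLaw α {ω | ¬ (strip p ω).OCross 0 h n}) ^ j := by
  classical
  have hms : MeasurableSet {ω | ¬ (strip p ω).OCross 0 h n} :=
    ((hM.2.2.2 p n 0 h).2.2.2.2.2.1).compl
  have hh : (0 : ℤ) ≤ h := Nat.cast_nonneg _
  have key := hCI α h0 h1 (Fin j) (fun i => ((i : ℕ) : ℤ) * h)
    (fun i => (((i : ℕ) : ℤ) + 1) * h) n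
    (fun _ => Set.indicator {ω | ¬ (strip p ω).OCross 0 h n} (fun _ => (1 : ENNReal)))
    (fun i => by nlinarith)
    (by
      intro i k hik
      have h3 : (i : ℕ) ≠ k := fun h => hik (Fin.ext h)
      rcases lt_or_gt_of_ne h3 with h4 | h4
      · left
        have h5 : ((i : ℕ) : ℤ) + 1 ≤ ((k : ℕ) : ℤ) := by exact_mod_cast h4
        exact mul_le_mul_of_nonneg_right h5 hh
      · right
        have h5 : ((k : ℕ) : ℤ) + 1 ≤ ((i : ℕ) : ℤ) := by exact_mod_cast h4
        exact mul_le_mul_of_nonneg_right h5 hh)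
    (fun i => measurable_const.indicator hms)
    (by
      intro i ω ω' hag
      have hb : (((i : ℕ) : ℤ) + 1) * h - ((i : ℕ) : ℤ) * h = (h : ℤ) := by ring
      simp only [hb] at hag
      have hag1 : AgrC (h : ℤ) n ω ω' := hag
      have hag2 : AgrC (h : ℤ) n ω' ω := by
        intro t ht x hx0 hx1
        rw [← hag1.D ht.le hh le_rfl] at hx1
        exact (hag t ht x hx0 hx1).symm
      have hdep := (hCD p n h hh).2.2.1
      have h5 : (strip p ω).OCross 0 h n ↔ (strip p ω').OCross 0 h n :=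
        ⟨fun h => hdep ω ω' hag h, fun h => hdep ω' ω hag2 h⟩
      by_cases h6 : (strip p ω).OCross 0 h n
      · rw [Set.indicator_of_notMem (by simpa using h6),
          Set.indicator_of_notMem (by simpa using h5.1 h6)]
      · rw [Set.indicator_of_mem (by simpa using h6),
          Set.indicator_of_mem (by simpa using fun h => h6 (h5.2 h))])
  have hr : ∏ _i : Fin j, ∫⁻ ω, Set.indicator {ω | ¬ (strip p ω).OCross 0 h n}
      (fun _ => (1 : ENNReal)) ω ∂arrLaw α = (arrLaw α {ω | ¬ (strip p ω).OCross 0 h n}) ^ j := by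
    rw [Finset.prod_const, Finset.card_univ, Fintype.card_fin, lintegral_indicator hms]
    simp
  rw [hr] at key
  rw [← key]
  have hfun : (fun ω => ∏ i : Fin j, Set.indicator {ω | ¬ (strip p ω).OCross 0 h n}
      (fun _ => (1 : ENNReal)) (cshift (((i : ℕ) : ℤ) * h) ω)) =
      Set.indicator (FF p h j n) (fun _ => 1) := by
    funext ω
    have h7 : ∀ i : Fin j, Set.indicator {ω | ¬ (strip p ω).OCross 0 h n}
        (fun _ => (1 : ENNReal)) (cshift (((i : ℕ) : ℤ) * h) ω) =
        if ¬ (strip p ω).OCross (((i : ℕ) : ℤ) * h) ((((i : ℕ) : ℤ) + 1) * h) n then 1 else 0 := by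
      intro i
      rw [Set.indicator_apply]
      have h8 : (strip p (cshift (((i : ℕ) : ℤ) * h) ω)).OCross 0 h n ↔
          (strip p ω).OCross (0 + ((i : ℕ) : ℤ) * h) (h + ((i : ℕ) : ℤ) * h) n := by
        rw [hSS.1]
        exact (hRc (strip p ω) _).2.2.2.2.2.1 n 0 h
      have h9 : (0 : ℤ) + ((i : ℕ) : ℤ) * h = ((i : ℕ) : ℤ) * h := by ring
      have h10 : (h : ℤ) + ((i : ℕ) : ℤ) * h = (((i : ℕ) : ℤ) + 1) * h := by ring
      rw [h9, h10] at h8
      simp only [mem_ofPred_eq, h8]
    rw [Finset.prod_congr rfl (fun i _ => h7 i), Finset.prod_ite_zero, Set.indicator_apply]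
    simp [FF]
  rw [hfun, lintegral_indicator (measurable_FF hM p h j n)]
  simp

/-- Deterministic part. -/
theorem exists_mem_FF (hU : UnrollStmt) (hRc : RecentreStmt) {p : ℝ} {ω : Conf} {r h j : ℕ}
    (hr : 1 ≤ r) (hs : Survives ω) (hinf : ¬ HasInf p ω) : ∃ n, uarr ω r 0 ∈ FF p h j n := by
  obtain ⟨E, _, _, hproj, _, harr, _, hlev, _, _⟩ := hU p ω r hr hs
  by_contra hcon
  push Not at hcon
  -- a column with crossings of all heights
  have h1 : ∃ i : Fin j, ∀ n, (strip p (uarr ω r 0)).OCross (((i : ℕ) : ℤ) * h)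
      ((((i : ℕ) : ℤ) + 1) * h) n := by
    by_contra h2
    push Not at h2
    choose N hN using h2
    refine hcon (Finset.univ.sup N) fun i hc => hN i (ocross_anti ?_ hc)
    exact Finset.le_sup (f := N) (Finset.mem_univ i)
  obtain ⟨i, hi⟩ := h1
  set a : ℤ := ((i : ℕ) : ℤ) * h with ha
  set b : ℤ := (((i : ℕ) : ℤ) + 1) * h with hb
  -- a starting point
  have h3 : ∃ x : ℤ, ∀ n, ∃ y, (strip p (uarr ω r 0)).OConn n ((strip p (uarr ω r 0)).col a b)
      (0, x) (n, y) := by
    by_contra h4
    push Not at h4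
    choose N hN using h4
    set M := (Finset.Ico a b).sup N with hM
    obtain ⟨x, y, h5, h6, h7⟩ := hi M
    have h8 : N x ≤ M := Finset.le_sup (f := N) (Finset.mem_Ico.2 ⟨h5, h6⟩)
    have h9 : (strip p (uarr ω r 0)).OConn (N x) ((strip p (uarr ω r 0)).col a b) (0, x) (N x, y) ∨
        ∃ z, (strip p (uarr ω r 0)).OConn (N x) ((strip p (uarr ω r 0)).col a b) (0, x) (N x, z) := by
      right
      -- reuse the argument of `ocross_anti`
      have key : ∀ u v : ℕ × ℤ, (strip p (uarr ω r 0)).OConn M ((strip p (uarr ω r 0)).col a b) u v →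
          u.1 ≤ N x → N x ≤ v.1 →
          ∃ z, (strip p (uarr ω r 0)).OConn (N x) ((strip p (uarr ω r 0)).col a b) u (N x, z) := by
        intro u v huv
        induction huv using Relation.ReflTransGen.head_induction_on with
        | refl =>
          intro h4 h5
          have h6 : v.1 = N x := le_antisymm h4 h5
          exact ⟨v.2, by rw [← h6]; exact .refl⟩
        | head hab hbc ih =>
          rename_i a' b'
          intro h4 h5
          rcases h4.eq_or_lt with h6 | h6
          · exact ⟨a'.2, by rw [← h6]; exact .refl⟩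
          · have h7 := (Strip.OStep.step hab).levels
            obtain ⟨z, hz⟩ := ih (by omega) h5
            refine ⟨z, Relation.ReflTransGen.head ?_ hz⟩
            obtain ⟨h8, h9, h10⟩ := hab
            refine ⟨h8, h9, ?_⟩
            rcases h10 with h | h | h
            · cases h with
              | mk t x y ht hv ho => exact Or.inl (.mk t x y (by simpa using h6) hv ho)
            · cases h with
              | mk t x ht ho => exact Or.inr (Or.inl (.mk t x (by simpa using h6) ho))
            · cases h with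
              | mk t x ht ho => exact Or.inr (Or.inr (.mk t x (by simpa using h6) ho))
      exact key _ _ h7 (Nat.zero_le _) h8
    rcases h9 with h9 | ⟨z, h9⟩
    · exact hN x y h9
    · exact hN x z h9
  obtain ⟨x, hx⟩ := h3
  apply hinf
  refine ⟨uvert ω r (0, x + E.D 0 0), infinite_of_lengths fun n => ?_⟩
  obtain ⟨y, hy⟩ := hx n
  rw [harr 0] at hy
  have h4 := ((hRc E 0).2.2.1 n a b (0, x) (n, y)).1 hy
  have h5 : ∀ u v : ℕ × ℤ, E.OConn n (E.col (a + 0) (b + 0)) u v →
      Relation.ReflTransGen (CausalPerc.Step p ω) (uvert ω r u) (uvert ω r v) := by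
    intro u v huv
    induction huv with
    | refl => exact .refl
    | tail _ hbc ih => exact ih.tail (hproj n _ _ ⟨mem_univ _, mem_univ _, hbc.2.2⟩)
  refine ⟨uvert ω r (n, y + E.D n 0), h5 _ _ h4, ?_⟩
  have h6 := length_of_mem_level (hlev n (y + E.D n 0))
  omega

end HasInfX

open HasInfX in
theorem hasInfN (hU : UnrollStmt) (hWL : WindowLawStmt) (hG : GrowthStmt) (hM : MeasStmt)
    (hSS : StripShiftStmt) (hRc : RecentreStmt) (hCI : ColIndepStmt) (hCD : ColDepStmt) :
    HasInfStmt := by
  intro α p ha1 ha2 ⟨h, hpos⟩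
  have hgp : GoodParam α := ⟨by linarith, ha2⟩
  have hprob : IsProbabilityMeasure (arrLaw α) := Adapted.arr_prob (by linarith) ha2
  set c := arrLaw α {ω | ∀ n, (strip p ω).OCross 0 h n} with hc
  -- bound for the windows
  have hq : ∀ n, arrLaw α {ω | ¬ (strip p ω).OCross 0 h n} ≤ 1 - c := by
    intro n
    have hms : MeasurableSet {ω | (strip p ω).OCross 0 h n} := (hM.2.2.2 p n 0 h).2.2.2.2.2.1
    have h2 : {ω : Arr | ¬ (strip p ω).OCross 0 h n} = {ω | (strip p ω).OCross 0 h n}ᶜ := rfl
    rw [h2, prob_compl_eq_one_sub hms]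
    have h3 : c ≤ arrLaw α {ω | (strip p ω).OCross 0 h n} := by
      rw [hc]
      refine measure_mono ?_
      intro ω (hω : ∀ n, (strip p ω).OCross 0 h n)
      exact hω n
    exact tsub_le_tsub_left h3 1
  have hbad : ∀ (r j : ℕ), 1 ≤ r → law α {ω | Survives ω ∧ ¬ HasInf p ω} ≤
      law α {ω | level (kids ω) r ≠ [] ∧ (level (kids ω) r).length < j * h} + (1 - c) ^ j := by
    intro r j hr
    set S : ℕ → Set Conf := fun n => {ω | j * h ≤ (level (kids ω) r).length ∧
      uarr ω r 0 ∈ FF p h j n} with hS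
    have hincl : {ω | Survives ω ∧ ¬ HasInf p ω} ⊆
        {ω | level (kids ω) r ≠ [] ∧ (level (kids ω) r).length < j * h} ∪ ⋃ n, S n := by
      rintro ω ⟨h1, h2⟩
      rcases lt_or_ge (level (kids ω) r).length (j * h) with h3 | h3
      · exact Or.inl ⟨h1 r, h3⟩
      · right
        obtain ⟨n, hn⟩ := exists_mem_FF (h := h) (j := j) hU hRc hr h1 h2
        exact mem_iUnion.2 ⟨n, h3, hn⟩
    have hSn : ∀ n, law α (S n) ≤ (1 - c) ^ j := by
      intro n
      have h1 : S n ⊆ ⋃ L : List Vert, {ω | level (kids ω) r = L ∧ j * h ≤ L.length ∧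
          uarr ω r 0 ∈ FF p h j n} := by
        intro ω hω
        exact mem_iUnion.2 ⟨level (kids ω) r, rfl, hω.1, hω.2⟩
      have h2 : ∀ L : List Vert, law α {ω | level (kids ω) r = L ∧ j * h ≤ L.length ∧
          uarr ω r 0 ∈ FF p h j n} ≤ law α {ω | level (kids ω) r = L} * (1 - c) ^ j := by
        intro L
        by_cases hL : j * h ≤ L.length
        · have h3 := hWL α (by linarith) ha2 r L 0 (j * h) n (FF p h j n) hr hL
            (measurable_FF hM p h j n) (colDep_FF p h j n)
          have h4 : {ω | level (kids ω) r = L ∧ j * h ≤ L.length ∧ uarr ω r 0 ∈ FF p h j n} =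
              {ω | level (kids ω) r = L ∧ uarr ω r 0 ∈ FF p h j n} := by
            ext ω; simp [hL]
          rw [h4, h3, law_FF hM hSS hRc hCI hCD (by linarith) ha2]
          gcongr
          exact hq n
        · have h4 : {ω | level (kids ω) r = L ∧ j * h ≤ L.length ∧ uarr ω r 0 ∈ FF p h j n} = ∅ := by
            ext ω; simp [hL]
          rw [h4]; simp
      calc law α (S n) ≤ ∑' L : List Vert, law α {ω | level (kids ω) r = L ∧ j * h ≤ L.length ∧
              uarr ω r 0 ∈ FF p h j n} := (measure_mono h1).trans (measure_iUnion_le _)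
        _ ≤ ∑' L : List Vert, law α {ω | level (kids ω) r = L} * (1 - c) ^ j :=
            ENNReal.tsum_le_tsum h2
        _ = (∑' L : List Vert, law α {ω | level (kids ω) r = L}) * (1 - c) ^ j :=
            ENNReal.tsum_mul_right
        _ ≤ 1 * (1 - c) ^ j := by
            gcongr
            have h5 : ∑' L : List Vert, law α {ω | level (kids ω) r = L} =
                law α (⋃ L : List Vert, {ω | level (kids ω) r = L}) := by
              rw [measure_iUnion]
              · intro L L' hne
                rw [Function.onFun, Set.disjoint_left]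
                intro ω h6 h7
                exact hne (h6.symm.trans h7)
              · intro L
                exact measurable_level r (MeasurableSet.of_discrete (s := {L}))
            rw [h5]
            exact prob_le_one
        _ = (1 - c) ^ j := one_mul _
    have hmono : Monotone S := fun m n hmn ω hω => ⟨hω.1, FF_mono hmn hω.2⟩
    calc law α {ω | Survives ω ∧ ¬ HasInf p ω} ≤ _ := (measure_mono hincl).trans (measure_union_le _ _)
      _ ≤ _ := by
        gcongr
        rw [hmono.measure_iUnion]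
        exact iSup_le hSn
  have hlim : ∀ j : ℕ, law α {ω | Survives ω ∧ ¬ HasInf p ω} ≤ (1 - c) ^ j := by
    intro j
    have h1 := (hG α ha1 ha2 (j * h)).add_const ((1 - c) ^ j)
    rw [zero_add] at h1
    exact ge_of_tendsto h1 ((eventually_ge_atTop 1).mono fun r hr => hbad r j hr)
  have hc1 : 1 - c < 1 := by
    refine ENNReal.sub_lt_self ENNReal.one_ne_top one_ne_zero hpos.ne'
  have h2 := ENNReal.tendsto_pow_atTop_nhds_zero_of_lt_one hc1
  exact le_antisymm (ge_of_tendsto' h2 hlim) bot_le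

end CausalPerc.Neg
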