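import Pool.Agent.Lib.MP_a51368_pr.Neg.Spec2
import Pool.Agent.Lib.MP_a51368_pr.Meas

/-!
# Monotonicity and right continuity of `κ_n(p)`, and its sign for small `p`
-/

open MeasureTheory ProbabilityTheory Set Measure Filter Topology

namespace CausalPerc.Neg

namespace KapAux

theorem OS_mono {p p' : ℝ} (h : p ≤ p') (ω : Arr) (A : Set ℤ) (n : ℕ) :
    (strip p ω).OS A n ⊆ (strip p' ω).OS A n := by
  induction n with
  | zero => exact subset_rfl
  | succ n ih =>
    rintro z ⟨x, ⟨a, ha, h1, h2⟩, h3, h4⟩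
    exact ⟨x, ⟨a, ih ha, fun i hi hi' => (h1 i hi hi').trans h, fun i hi hi' =>
      (h2 i hi hi').trans h⟩, h3, h4.trans h⟩

/-- The almost sure properties used. -/
def Good (p₀ : ℝ) (ω : Arr) : Prop :=
  (∀ t x, ∃ i, x ≤ i ∧ ¬ (strip p₀ ω).ho t i) ∧ (∀ t x, ∃ i, i < x ∧ ¬ (strip p₀ ω).ho t i) ∧
  (∀ t x, ∃ i, x ≤ i ∧ 1 ≤ xi ω t i) ∧ (∀ t x, ∃ i, i < x ∧ 1 ≤ xi ω t i)

theorem ps_mono (f : ℤ → ℕ) : Monotone (ps f) := by
  apply monotone_int_of_le_succ
  intro x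
  rw [ps_succ]
  simp

theorem ps_large {f : ℤ → ℕ} (h : ∀ x, ∃ i, x ≤ i ∧ 1 ≤ f i) (z : ℕ) : ∃ x, (z : ℤ) ≤ ps f x := by
  induction z with
  | zero => exact ⟨0, by rw [ps_zero]; simp⟩
  | succ z ih =>
    obtain ⟨x, hx⟩ := ih
    obtain ⟨i, hi, hi'⟩ := h x
    refine ⟨i + 1, ?_⟩
    have h1 := ps_mono f hi
    rw [ps_succ]
    push_cast
    omega

theorem ps_small {f : ℤ → ℕ} (h : ∀ x, ∃ i, i < x ∧ 1 ≤ f i) (z : ℕ) :
    ∃ x, ps f x ≤ -(z : ℤ) := by
  induction z with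
  | zero => exact ⟨0, by rw [ps_zero]; simp⟩
  | succ z ih =>
    obtain ⟨x, hx⟩ := ih
    obtain ⟨i, hi, hi'⟩ := h x
    refine ⟨i, ?_⟩
    have h1 := ps_mono f (show i + 1 ≤ x by omega)
    rw [ps_succ] at h1
    push_cast
    omega

theorem finite_isV {p₀ p : ℝ} {ω : Arr} (hω : Good p₀ ω) (t : ℕ) (z : ℤ) :
    {x | (strip p ω).IsV t x z}.Finite := by
  obtain ⟨x₁, h1⟩ := ps_large (hω.2.2.1 t) (z.natAbs + 1)
  obtain ⟨x₂, h2⟩ := ps_small (hω.2.2.2 t) (z.natAbs + 1)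
  refine (Set.finite_Icc (x₂ - 1) x₁).subset ?_
  rintro x ⟨hx1, hx2⟩
  have hx1' : ps (xi ω t) x ≤ z := hx1
  have hx2' : z ≤ ps (xi ω t) (x + 1) := hx2
  constructor
  · by_contra hcon
    have h3 := ps_mono (xi ω t) (show x + 1 ≤ x₂ by omega)
    omega
  · by_contra hcon
    have h3 := ps_mono (xi ω t) (show x₁ ≤ x by omega)
    omega

theorem ev_le {q : ℕ → ℝ} {p : ℝ} (hq : Antitone q) (hl : Tendsto q atTop (𝓝 p)) (u : ℝ) :
    ∀ᶠ k in atTop, (u ≤ q k ↔ u ≤ p) := by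
  by_cases h : u ≤ p
  · exact Eventually.of_forall fun k => ⟨fun _ => h, fun _ => h.trans (hq.le_of_tendsto hl k)⟩
  · push Not at h
    filter_upwards [hl.eventually_lt_const h] with k hk
    exact ⟨fun h1 => absurd h1 (not_le.mpr hk), fun h1 => absurd h1 (not_le.mpr h)⟩

theorem ev_OS {q : ℕ → ℝ} {p : ℝ} (hq : Antitone q) (hl : Tendsto q atTop (𝓝 p)) {ω : Arr}
    (hω : Good (q 0) ω) (A : Set ℤ) (n : ℕ) :
    ∀ z, ∀ᶠ k in atTop, (z ∈ (strip (q k) ω).OS A n ↔ z ∈ (strip p ω).OS A n) := by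
  induction n with
  | zero => exact fun z => Eventually.of_forall fun k => Iff.rfl
  | succ n ih =>
    intro z
    have hfin := finite_isV (p := p) hω n z
    have h1 : ∀ x ∈ {x | (strip p ω).IsV n x z}, ∀ᶠ k in atTop,
        (((strip (q k) ω).vo n x z ↔ (strip p ω).vo n x z) ∧
        (x ∈ (strip (q k) ω).H n ((strip (q k) ω).OS A n) ↔
          x ∈ (strip p ω).H n ((strip p ω).OS A n))) := by
      intro x _
      obtain ⟨i₁, hi₁, hi₁'⟩ := hω.2.1 n x
      obtain ⟨i₂, hi₂, hi₂'⟩ := hω.1 n x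
      have h2 : ∀ a ∈ Icc i₁ i₂, ∀ᶠ k in atTop,
          ((a ∈ (strip (q k) ω).OS A n ↔ a ∈ (strip p ω).OS A n) ∧
            ((strip (q k) ω).ho n a ↔ (strip p ω).ho n a)) := by
        intro a _
        exact (ih a).and (ev_le hq hl _)
      have h3 := (Filter.eventually_all_finite (Set.finite_Icc i₁ i₂)).mpr h2
      filter_upwards [ev_le hq hl
        (((ω n x).2 ((z - ps (xi ω n) x).toNat + 1) : unitInterval) : ℝ), h3] with k hk1 hk2
      refine ⟨hk1, ?_⟩
      have hk0 : q k ≤ q 0 := hq (Nat.zero_le k)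
      have hp0 : p ≤ q 0 := hq.le_of_tendsto hl 0
      have key : ∀ p' : ℝ, p' ≤ q 0 → ∀ a : ℤ,
          (∀ i, a ≤ i → i < x → (strip p' ω).ho n i) →
          (∀ i, x ≤ i → i < a → (strip p' ω).ho n i) → i₁ < a ∧ a ≤ i₂ := by
        intro p' hp' a ha1 ha2
        constructor
        · by_contra hcon
          exact hi₁' ((ha1 i₁ (by omega) hi₁).trans hp')
        · by_contra hcon
          exact hi₂' ((ha2 i₂ hi₂ (by omega)).trans hp')
      constructor
      · rintro ⟨a, ha, ha1, ha2⟩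
        obtain ⟨b1, b2⟩ := key (q k) hk0 a ha1 ha2
        refine ⟨a, ((hk2 a ⟨b1.le, b2⟩).1).1 ha, ?_, ?_⟩
        · intro i hi hi'
          exact ((hk2 i ⟨by omega, by omega⟩).2).1 (ha1 i hi hi')
        · intro i hi hi'
          exact ((hk2 i ⟨by omega, by omega⟩).2).1 (ha2 i hi hi')
      · rintro ⟨a, ha, ha1, ha2⟩
        obtain ⟨b1, b2⟩ := key p hp0 a ha1 ha2
        refine ⟨a, ((hk2 a ⟨b1.le, b2⟩).1).2 ha, ?_, ?_⟩
        · intro i hi hi'
          exact ((hk2 i ⟨by omega, by omega⟩).2).2 (ha1 i hi hi')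
        · intro i hi hi'
          exact ((hk2 i ⟨by omega, by omega⟩).2).2 (ha2 i hi hi')
    have h4 := (Filter.eventually_all_finite hfin).mpr h1
    filter_upwards [h4] with k hk
    constructor
    · rintro ⟨x, hx, hx1, hx2⟩
      exact ⟨x, ((hk x hx1).2).1 hx, hx1, ((hk x hx1).1).1 hx2⟩
    · rintro ⟨x, hx, hx1, hx2⟩
      exact ⟨x, ((hk x hx1).2).2 hx, hx1, ((hk x hx1).1).2 hx2⟩

/-! ### The almost sure properties -/

theorem nd_prob' {α : ℝ} (h0 : 0 ≤ α) (h1 : α < 1) : IsProbabilityMeasure (ndLaw α) := by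
  have := geo_prob h0 h1
  unfold ndLaw
  infer_instance

/-- In every row a set of positive probability is hit infinitely often in both directions. -/
theorem ae_hit {α : ℝ} (h0 : 0 ≤ α) (h1 : α < 1) {B : Set Nd} (hB : MeasurableSet B)
    (hpos : 0 < ndLaw α B) :
    ∀ᵐ ω ∂arrLaw α, ∀ (t : ℕ) (x : ℤ), (∃ i, x ≤ i ∧ ω t i ∈ B) ∧ (∃ i, i < x ∧ ω t i ∈ B) := by
  have := nd_prob' h0 h1
  have hrow : IsProbabilityMeasure (rowLaw α) := by unfold rowLaw; infer_instance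
  have hlt : ndLaw α Bᶜ < 1 := by
    rw [prob_compl_eq_one_sub hB]
    exact ENNReal.sub_lt_self ENNReal.one_ne_top one_ne_zero hpos.ne'
  have key : ∀ (t : ℕ) (x : ℤ) (s : ℕ → ℤ), Function.Injective s →
      arrLaw α {ω | ∀ j : ℕ, ω t (s j) ∉ B} = 0 := by
    intro t x s hs
    have h2 : ∀ m : ℕ, arrLaw α {ω | ∀ j : ℕ, ω t (s j) ∉ B} ≤ ndLaw α Bᶜ ^ m := by
      intro m
      have e1 : {ω : Arr | ∀ j : ℕ, ω t (s j) ∉ B} ⊆
          (fun ω : Arr => ω t) ⁻¹' (Set.pi ((Finset.range m).image s : Set ℤ) fun _ => Bᶜ) := by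
        intro ω hω
        simp only [mem_preimage, Set.mem_pi]
        intro i hi
        rw [Finset.mem_coe, Finset.mem_image] at hi
        obtain ⟨j, _, rfl⟩ := hi
        exact hω j
      refine (measure_mono e1).trans ?_
      have hm : MeasurableSet (Set.pi ((Finset.range m).image s : Set ℤ)
          (fun _ : ℤ => (Bᶜ : Set Nd))) :=
        MeasurableSet.pi (Finset.countable_toSet _) fun _ _ => hB.compl
      rw [← Measure.map_apply (measurable_pi_apply t) hm]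
      unfold arrLaw
      rw [Measure.infinitePi_map_eval]
      unfold rowLaw
      rw [Measure.infinitePi_pi _ fun _ _ => hB.compl, Finset.prod_const,
        Finset.card_image_of_injective _ hs, Finset.card_range]
    have h3 : Tendsto (fun m => ndLaw α Bᶜ ^ m) atTop (𝓝 0) :=
      ENNReal.tendsto_pow_atTop_nhds_zero_of_lt_one hlt
    exact le_antisymm (ge_of_tendsto' h3 h2) zero_le
  rw [ae_all_iff]
  intro t
  rw [ae_all_iff]
  intro x
  have ha : ∀ᵐ ω ∂arrLaw α, ¬ ∀ j : ℕ, ω t (x + j) ∉ B := by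
    rw [ae_iff]
    simpa using key t x (fun j => x + j) (fun a b h => by simpa using h)
  have hb : ∀ᵐ ω ∂arrLaw α, ¬ ∀ j : ℕ, ω t (x - 1 - j) ∉ B := by
    rw [ae_iff]
    simpa using key t x (fun j => x - 1 - j) (fun a b h => by simpa using h)
  filter_upwards [ha, hb] with ω h2 h3
  push Not at h2 h3
  obtain ⟨j, hj⟩ := h2
  obtain ⟨k, hk⟩ := h3
  exact ⟨⟨x + j, by omega, hj⟩, ⟨x - 1 - k, by omega, hk⟩⟩

theorem geo_one {α : ℝ} (h0 : 0 < α) (h1 : α < 1) : 0 < geo α {1} := by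
  have h2 : ENNReal.ofReal (α ^ 1 * (1 - α)) ≤ geo α {1} := by
    rw [geo_apply]
    refine le_trans (le_of_eq ?_) (ENNReal.le_tsum 1)
    simp
  refine lt_of_lt_of_le ?_ h2
  rw [ENNReal.ofReal_pos]
  have : 0 < 1 - α := by linarith
  positivity

theorem ae_good {p₀ : ℝ} (hp : p₀ < 1) : ∀ᵐ ω ∂arrLaw (1 / 2), Good p₀ ω := by
  have hg : IsProbabilityMeasure (geo (1 / 2)) := geo_prob (by norm_num) (by norm_num)
  -- closed horizontal edges
  have hB1m : MeasurableSet {u : unitInterval | p₀ < (u : ℝ)} :=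
    measurableSet_lt measurable_const measurable_subtype_coe
  have hB1 : 0 < ndLaw (1 / 2) {v : Nd | p₀ < ((v.2 0 : unitInterval) : ℝ)} := by
    have e1 : {v : Nd | p₀ < ((v.2 0 : unitInterval) : ℝ)} =
        univ ×ˢ ((fun l : ℕ → unitInterval => l 0) ⁻¹' {u : unitInterval | p₀ < (u : ℝ)}) := by
      ext v; simp
    rw [e1]
    unfold ndLaw
    rw [Measure.prod_prod, measure_univ, one_mul,
      ← Measure.map_apply (measurable_pi_apply 0) hB1m, Measure.infinitePi_map_eval]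
    have hx : max p₀ 0 < 1 := max_lt hp one_pos
    have hsub : Ioi (⟨max p₀ 0, le_max_right _ _, hx.le⟩ : unitInterval) ⊆
        {u : unitInterval | p₀ < (u : ℝ)} := by
      intro u hu
      have hu' : max p₀ 0 < (u : ℝ) := hu
      exact lt_of_le_of_lt (le_max_left _ _) hu'
    refine lt_of_lt_of_le ?_ (measure_mono hsub)
    rw [unitInterval.volume_Ioi, ENNReal.ofReal_pos]
    show 0 < 1 - max p₀ 0
    linarith
  have hB2 : 0 < ndLaw (1 / 2) {v : Nd | v.1 = 1} := by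
    have e1 : {v : Nd | v.1 = 1} = {1} ×ˢ univ := by ext v; simp
    rw [e1]
    unfold ndLaw
    rw [Measure.prod_prod, measure_univ, mul_one]
    exact geo_one (by norm_num) (by norm_num)
  have m1 : MeasurableSet {v : Nd | p₀ < ((v.2 0 : unitInterval) : ℝ)} := by
    have : Measurable (fun v : Nd => v.2 0) := (measurable_pi_apply 0).comp measurable_snd
    exact this hB1m
  have m2 : MeasurableSet {v : Nd | v.1 = 1} := measurable_fst (MeasurableSet.singleton 1)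
  filter_upwards [ae_hit (by norm_num) (by norm_num) m1 hB1,
    ae_hit (by norm_num) (by norm_num) m2 hB2] with ω h1 h2
  refine ⟨fun t x => ?_, fun t x => ?_, fun t x => ?_, fun t x => ?_⟩
  · obtain ⟨i, hi, hi'⟩ := (h1 t x).1
    exact ⟨i, hi, not_le.mpr hi'⟩
  · obtain ⟨i, hi, hi'⟩ := (h1 t x).2
    exact ⟨i, hi, not_le.mpr hi'⟩
  · obtain ⟨i, hi, hi'⟩ := (h2 t x).1
    exact ⟨i, hi, le_of_eq (Eq.symm hi')⟩
  · obtain ⟨i, hi, hi'⟩ := (h2 t x).2
    exact ⟨i, hi, le_of_eq (Eq.symm hi')⟩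

theorem sSup_ev {q : ℕ → ℝ} {p : ℝ} (hq : Antitone q) (hl : Tendsto q atTop (𝓝 p)) {ω : Arr}
    (hω : Good (q 0) ω) (n : ℕ) (h1 : ((strip p ω).OS (Iic 0) n).Nonempty)
    (h2 : ∀ k, BddAbove ((strip (q k) ω).OS (Iic 0) n)) :
    ∀ᶠ k in atTop, RR (q k) n ω = RR p n ω := by
  have hp : ∀ k, p ≤ q k := fun k => hq.le_of_tendsto hl k
  have h3 := (Filter.eventually_all_finite (Set.finite_Icc (RR p n ω) (RR (q 0) n ω))).mpr
    fun z _ => ev_OS hq hl hω (Iic 0) n z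
  filter_upwards [h3] with k hk
  have hne : ((strip (q k) ω).OS (Iic 0) n).Nonempty := h1.mono (OS_mono (hp k) ω _ n)
  have h4 : RR (q k) n ω ∈ (strip (q k) ω).OS (Iic 0) n := Int.csSup_mem hne (h2 k)
  have h5 : RR p n ω ≤ RR (q k) n ω := csSup_le_csSup (h2 k) h1 (OS_mono (hp k) ω _ n)
  have h6 : RR (q k) n ω ≤ RR (q 0) n ω :=
    csSup_le_csSup (h2 0) hne (OS_mono (hq (Nat.zero_le k)) ω _ n)
  have h7 := (hk _ ⟨h5, h6⟩).1 h4
  have h8 : RR (q k) n ω ≤ RR p n ω := le_csSup ((h2 0).mono (OS_mono (hp 0) ω _ n)) h7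
  exact le_antisymm h8 h5

theorem sInf_ev {q : ℕ → ℝ} {p : ℝ} (hq : Antitone q) (hl : Tendsto q atTop (𝓝 p)) {ω : Arr}
    (hω : Good (q 0) ω) (n : ℕ) (h1 : ((strip p ω).OS (Ici 0) n).Nonempty)
    (h2 : ∀ k, BddBelow ((strip (q k) ω).OS (Ici 0) n)) :
    ∀ᶠ k in atTop, LL (q k) n ω = LL p n ω := by
  have hp : ∀ k, p ≤ q k := fun k => hq.le_of_tendsto hl k
  have h3 := (Filter.eventually_all_finite (Set.finite_Icc (LL (q 0) n ω) (LL p n ω))).mpr
    fun z _ => ev_OS hq hl hω (Ici 0) n z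
  filter_upwards [h3] with k hk
  have hne : ((strip (q k) ω).OS (Ici 0) n).Nonempty := h1.mono (OS_mono (hp k) ω _ n)
  have h4 : LL (q k) n ω ∈ (strip (q k) ω).OS (Ici 0) n := Int.csInf_mem hne (h2 k)
  have h5 : LL (q k) n ω ≤ LL p n ω := csInf_le_csInf (h2 k) h1 (OS_mono (hp k) ω _ n)
  have h6 : LL (q 0) n ω ≤ LL (q k) n ω :=
    csInf_le_csInf (h2 0) hne (OS_mono (hq (Nat.zero_le k)) ω _ n)
  have h7 := (hk _ ⟨h6, h5⟩).1 h4
  have h8 : LL p n ω ≤ LL (q k) n ω := csInf_le ((h2 0).mono (OS_mono (hp 0) ω _ n)) h7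
  exact le_antisymm h5 h8

theorem arr_prob {α : ℝ} (h0 : 0 ≤ α) (h1 : α < 1) : IsProbabilityMeasure (arrLaw α) := by
  have := nd_prob' h0 h1
  have hrow : IsProbabilityMeasure (rowLaw α) := by unfold rowLaw; infer_instance
  unfold arrLaw
  infer_instance

/-- All vertical labels are positive. -/
theorem ae_pos : ∀ᵐ ω ∂arrLaw (1 / 2), ∀ (t : ℕ) (x : ℤ) (j : ℕ), (ω t x).2 j ≠ 0 := by
  have h0 : (0 : ℝ) ≤ 1 / 2 := by norm_num
  have h1 : (1 / 2 : ℝ) < 1 := by norm_num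
  have hg : IsProbabilityMeasure (geo (1 / 2)) := geo_prob h0 h1
  have := nd_prob' h0 h1
  have hrow : IsProbabilityMeasure (rowLaw (1 / 2)) := by unfold rowLaw; infer_instance
  rw [ae_all_iff]
  intro t
  rw [ae_all_iff]
  intro x
  rw [ae_all_iff]
  intro j
  rw [ae_iff]
  have hm : MeasurableSet {v : Nd | v.2 j = 0} := by
    have h2 : Measurable (fun v : Nd => v.2 j) := (measurable_pi_apply j).comp measurable_snd
    exact h2 (MeasurableSet.singleton 0)
  have hm2 : MeasurableSet {r : Row | (r x).2 j = 0} := by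
    have h2 : Measurable (fun r : Row => r x) := measurable_pi_apply x
    exact h2 hm
  have e1 : {ω : Arr | ¬ (ω t x).2 j ≠ 0} = (fun ω : Arr => ω t) ⁻¹' {r : Row | (r x).2 j = 0} := by
    ext ω; simp
  rw [e1, ← Measure.map_apply (measurable_pi_apply t) hm2]
  unfold arrLaw
  rw [Measure.infinitePi_map_eval]
  have e2 : {r : Row | (r x).2 j = 0} = (fun r : Row => r x) ⁻¹' {v : Nd | v.2 j = 0} := rfl
  rw [e2, ← Measure.map_apply (measurable_pi_apply x) hm]
  unfold rowLaw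
  rw [Measure.infinitePi_map_eval]
  have e3 : {v : Nd | v.2 j = 0} =
      univ ×ˢ ((fun l : ℕ → unitInterval => l j) ⁻¹' {0}) := by
    ext v; simp
  rw [e3]
  unfold ndLaw
  rw [Measure.prod_prod, ← Measure.map_apply (measurable_pi_apply j) (MeasurableSet.singleton 0),
    Measure.infinitePi_map_eval]
  simp

theorem OS_zero {ω : Arr} (h : ∀ (t : ℕ) (x : ℤ) (j : ℕ), (ω t x).2 j ≠ 0) (A : Set ℤ) :
    (strip 0 ω).OS A 1 = ∅ := by
  rw [Set.eq_empty_iff_forall_notMem]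
  rintro z ⟨x, _, _, hx⟩
  have hx' : (((ω 0 x).2 ((z - ps (xi ω 0) x).toNat + 1) : unitInterval) : ℝ) ≤ 0 := hx
  apply h 0 x ((z - ps (xi ω 0) x).toNat + 1)
  apply Subtype.ext
  exact le_antisymm hx' ((ω 0 x).2 ((z - ps (xi ω 0) x).toNat + 1)).2.1

end KapAux

open KapAux

theorem kapS (h : EdgeStmt) : KapStmt := by
  have hprob := arr_prob (α := 1 / 2) (by norm_num) (by norm_num)
  have hint : ∀ p : ℝ, 0 < p → p < 1 → ∀ n : ℕ,
      Integrable (fun ω => (RR p n ω : ℝ)) (arrLaw (1 / 2)) ∧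
      Integrable (fun ω => (LL p n ω : ℝ)) (arrLaw (1 / 2)) := by
    intro p h0 h1 n
    obtain ⟨-, h2, h3, -⟩ := h p h0 h1 n
    exact ⟨h2.integrable one_le_two, h3.integrable one_le_two⟩
  have hae : ∀ p : ℝ, 0 < p → p < 1 → ∀ n : ℕ, ∀ᵐ ω ∂arrLaw (1 / 2),
      ((strip p ω).OS (Iic 0) n).Nonempty ∧ BddAbove ((strip p ω).OS (Iic 0) n) ∧
      ((strip p ω).OS (Ici 0) n).Nonempty ∧ BddBelow ((strip p ω).OS (Ici 0) n) := by
    intro p h0 h1 n
    filter_upwards [(h p h0 h1 n).1] with ω hω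
    exact ⟨(hω 0).1, (hω 0).2.1, (hω 0).2.2.1, (hω 0).2.2.2.1⟩
  refine ⟨?_, ?_, ?_⟩
  · intro p p' h0 hpp h1 n
    obtain ⟨a1, a2⟩ := hint p h0 (by linarith) n
    obtain ⟨b1, b2⟩ := hint p' (by linarith) h1 n
    refine integral_mono_ae (a1.sub a2) (b1.sub b2) ?_
    filter_upwards [hae p h0 (by linarith) n, hae p' (by linarith) h1 n] with ω h2 h3
    have h4 : RR p n ω ≤ RR p' n ω := csSup_le_csSup h3.2.1 h2.1 (OS_mono hpp ω _ n)
    have h5 : LL p' n ω ≤ LL p n ω := csInf_le_csInf h3.2.2.2 h2.2.2.1 (OS_mono hpp ω _ n)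
    have h4' : (RR p n ω : ℝ) ≤ RR p' n ω := by exact_mod_cast h4
    have h5' : (LL p' n ω : ℝ) ≤ LL p n ω := by exact_mod_cast h5
    show (RR p n ω : ℝ) - LL p n ω ≤ RR p' n ω - LL p' n ω
    linarith
  · intro p h0 h1 n hneg
    obtain ⟨q, hq⟩ : ∃ q : ℕ → ℝ, q = fun k : ℕ => p + (1 - p) / ((k : ℝ) + 2) := ⟨_, rfl⟩
    have hqp : ∀ k, p < q k := by
      intro k
      rw [hq]
      have : 0 < (1 - p) / ((k : ℝ) + 2) := div_pos (by linarith) (by positivity)
      simpa using this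
    have hq1 : ∀ k, q k < 1 := by
      intro k
      rw [hq]
      have h2 : (1 - p) / ((k : ℝ) + 2) < 1 - p := by
        rw [div_lt_iff₀ (by positivity)]
        have : (0 : ℝ) ≤ k := Nat.cast_nonneg k
        nlinarith
      show p + (1 - p) / ((k : ℝ) + 2) < 1
      linarith
    have hanti : Antitone q := by
      intro a b hab
      rw [hq]
      have h2 : (1 - p) / ((b : ℝ) + 2) ≤ (1 - p) / ((a : ℝ) + 2) := by
        apply div_le_div_of_nonneg_left (by linarith) (by positivity)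
        have : (a : ℝ) ≤ b := by exact_mod_cast hab
        linarith
      show p + (1 - p) / ((b : ℝ) + 2) ≤ p + (1 - p) / ((a : ℝ) + 2)
      linarith
    have hlim : Tendsto q atTop (𝓝 p) := by
      rw [hq]
      have h2 : Tendsto (fun k : ℕ => (1 - p) / ((k : ℝ) + 2)) atTop (𝓝 0) := by
        apply Tendsto.div_atTop tendsto_const_nhds
        exact tendsto_atTop_add_const_right _ _ tendsto_natCast_atTop_atTop
      simpa using tendsto_const_nhds.add h2
    have hae' : ∀ᵐ ω ∂arrLaw (1 / 2), ∀ k,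
        ((strip (q k) ω).OS (Iic 0) n).Nonempty ∧ BddAbove ((strip (q k) ω).OS (Iic 0) n) ∧
        ((strip (q k) ω).OS (Ici 0) n).Nonempty ∧ BddBelow ((strip (q k) ω).OS (Ici 0) n) := by
      rw [ae_all_iff]
      intro k
      exact hae (q k) (by linarith [hqp k]) (hq1 k) n
    obtain ⟨a1, a2⟩ := hint p h0 h1 n
    obtain ⟨b1, b2⟩ := hint (q 0) (by linarith [hqp 0]) (hq1 0) n
    have hconv : Tendsto (fun k => kap (q k) n) atTop (𝓝 (kap p n)) := by
      unfold kap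
      refine tendsto_integral_of_dominated_convergence
        (fun ω => (|(RR p n ω : ℝ)| + |(RR (q 0) n ω : ℝ)|) +
          (|(LL p n ω : ℝ)| + |(LL (q 0) n ω : ℝ)|)) ?_ ?_ ?_ ?_
      · intro k
        obtain ⟨c1, c2⟩ := hint (q k) (by linarith [hqp k]) (hq1 k) n
        exact (c1.sub c2).aestronglyMeasurable
      · exact (a1.abs.add b1.abs).add (a2.abs.add b2.abs)
      · intro k
        filter_upwards [hae p h0 h1 n, hae'] with ω h2 h3
        have h4 : RR p n ω ≤ RR (q k) n ω :=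
          csSup_le_csSup (h3 k).2.1 h2.1 (OS_mono (hqp k).le ω _ n)
        have h5 : RR (q k) n ω ≤ RR (q 0) n ω :=
          csSup_le_csSup (h3 0).2.1 (h3 k).1 (OS_mono (hanti (Nat.zero_le k)) ω _ n)
        have h6 : LL (q k) n ω ≤ LL p n ω :=
          csInf_le_csInf (h3 k).2.2.2 h2.2.2.1 (OS_mono (hqp k).le ω _ n)
        have h7 : LL (q 0) n ω ≤ LL (q k) n ω :=
          csInf_le_csInf (h3 0).2.2.2 (h3 k).2.2.1 (OS_mono (hanti (Nat.zero_le k)) ω _ n)
        have h4' : (RR p n ω : ℝ) ≤ RR (q k) n ω := by exact_mod_cast h4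
        have h5' : (RR (q k) n ω : ℝ) ≤ RR (q 0) n ω := by exact_mod_cast h5
        have h6' : (LL (q k) n ω : ℝ) ≤ LL p n ω := by exact_mod_cast h6
        have h7' : (LL (q 0) n ω : ℝ) ≤ LL (q k) n ω := by exact_mod_cast h7
        have e1 : |(RR (q k) n ω : ℝ)| ≤ |(RR p n ω : ℝ)| + |(RR (q 0) n ω : ℝ)| := by
          rw [abs_le]
          constructor
          · have := neg_abs_le (RR p n ω : ℝ)
            have := abs_nonneg (RR (q 0) n ω : ℝ)
            linarith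
          · have := le_abs_self (RR (q 0) n ω : ℝ)
            have := abs_nonneg (RR p n ω : ℝ)
            linarith
        have e2 : |(LL (q k) n ω : ℝ)| ≤ |(LL p n ω : ℝ)| + |(LL (q 0) n ω : ℝ)| := by
          rw [abs_le]
          constructor
          · have := neg_abs_le (LL (q 0) n ω : ℝ)
            have := abs_nonneg (LL p n ω : ℝ)
            linarith
          · have := le_abs_self (LL p n ω : ℝ)
            have := abs_nonneg (LL (q 0) n ω : ℝ)
            linarith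
        rw [Real.norm_eq_abs]
        exact (abs_sub _ _).trans (add_le_add e1 e2)
      · filter_upwards [hae p h0 h1 n, hae', ae_good (hq1 0)] with ω h2 h3 h4
        have h5 := sSup_ev hanti hlim h4 n h2.1 fun k => (h3 k).2.1
        have h6 := sInf_ev hanti hlim h4 n h2.2.2.1 fun k => (h3 k).2.2.2
        refine tendsto_const_nhds.congr' ?_
        filter_upwards [h5, h6] with k hk1 hk2
        rw [hk1, hk2]
    obtain ⟨k, hk⟩ := (hconv.eventually_lt_const hneg).exists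
    exact ⟨q k, hqp k, hq1 k, hk⟩
  · obtain ⟨q, hq⟩ : ∃ q : ℕ → ℝ, q = fun k : ℕ => 1 / ((k : ℝ) + 3) := ⟨_, rfl⟩
    have hqp : ∀ k, 0 < q k := by intro k; rw [hq]; positivity
    have hq1 : ∀ k, q k < 1 / 2 := by
      intro k
      rw [hq]
      show 1 / ((k : ℝ) + 3) < 1 / 2
      apply one_div_lt_one_div_of_lt (by norm_num)
      have : (0 : ℝ) ≤ k := Nat.cast_nonneg k
      linarith
    have hanti : Antitone q := by
      intro a b hab
      rw [hq]
      apply one_div_le_one_div_of_le (by positivity)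
      have : (a : ℝ) ≤ b := by exact_mod_cast hab
      linarith
    have hlim : Tendsto q atTop (𝓝 0) := by
      rw [hq]
      apply Tendsto.div_atTop tendsto_const_nhds
      exact tendsto_atTop_add_const_right _ _ tendsto_natCast_atTop_atTop
    by_contra hcon
    push Not at hcon
    have hk0 : ∀ k, 0 ≤ kap (q k) 1 := fun k => hcon (q k) (hqp k) (hq1 k)
    have hae' : ∀ᵐ ω ∂arrLaw (1 / 2), ∀ k,
        ((strip (q k) ω).OS (Iic 0) 1).Nonempty ∧ BddAbove ((strip (q k) ω).OS (Iic 0) 1) ∧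
        ((strip (q k) ω).OS (Ici 0) 1).Nonempty ∧ BddBelow ((strip (q k) ω).OS (Ici 0) 1) := by
      rw [ae_all_iff]
      intro k
      exact hae (q k) (hqp k) (by linarith [hq1 k]) 1
    obtain ⟨D, hD⟩ : ∃ D : ℕ → Arr → ℝ, D = fun k ω => (RR (q k) 1 ω : ℝ) - (LL (q k) 1 ω : ℝ) :=
      ⟨_, rfl⟩
    have hDint : ∀ k, Integrable (D k) (arrLaw (1 / 2)) := by
      intro k
      obtain ⟨c1, c2⟩ := hint (q k) (hqp k) (by linarith [hq1 k]) 1
      rw [hD]
      exact c1.sub c2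
    have hgood := ae_good (p₀ := q 0) (by linarith [hq1 0])
    -- `D k → -∞`
    have hlimD : ∀ᵐ ω ∂arrLaw (1 / 2), ∀ M : ℕ, ∀ᶠ k in atTop, D k ω ≤ -(M : ℝ) := by
      filter_upwards [hae', hgood, ae_pos] with ω h3 h4 h5 M
      have e1 := (Filter.eventually_all_finite
        (Set.finite_Icc (-(M : ℤ)) (RR (q 0) 1 ω))).mpr
        fun z _ => ev_OS hanti hlim h4 (Iic 0) 1 z
      have e2 := (Filter.eventually_all_finite
        (Set.finite_Icc (LL (q 0) 1 ω) 0)).mpr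
        fun z _ => ev_OS hanti hlim h4 (Ici 0) 1 z
      filter_upwards [e1, e2] with k hk1 hk2
      have h6 : RR (q k) 1 ω ∈ (strip (q k) ω).OS (Iic 0) 1 := Int.csSup_mem (h3 k).1 (h3 k).2.1
      have h7 : LL (q k) 1 ω ∈ (strip (q k) ω).OS (Ici 0) 1 :=
        Int.csInf_mem (h3 k).2.2.1 (h3 k).2.2.2
      have h8 : RR (q k) 1 ω ≤ RR (q 0) 1 ω :=
        csSup_le_csSup (h3 0).2.1 (h3 k).1 (OS_mono (hanti (Nat.zero_le k)) ω _ 1)
      have h9 : LL (q 0) 1 ω ≤ LL (q k) 1 ω :=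
        csInf_le_csInf (h3 0).2.2.2 (h3 k).2.2.1 (OS_mono (hanti (Nat.zero_le k)) ω _ 1)
      have h10 : RR (q k) 1 ω < -(M : ℤ) := by
        by_contra hc
        have := (hk1 _ ⟨by omega, h8⟩).1 h6
        rw [OS_zero h5] at this
        exact this
      have h11 : 0 < LL (q k) 1 ω := by
        by_contra hc
        have := (hk2 _ ⟨h9, by omega⟩).1 h7
        rw [OS_zero h5] at this
        exact this
      rw [hD]
      have h10' : (RR (q k) 1 ω : ℝ) ≤ -(M : ℝ) := by exact_mod_cast h10.le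
      have h11' : (0 : ℝ) ≤ (LL (q k) 1 ω : ℝ) := by exact_mod_cast h11.le
      show (RR (q k) 1 ω : ℝ) - (LL (q k) 1 ω : ℝ) ≤ -(M : ℝ)
      linarith
    have hmonoD : ∀ᵐ ω ∂arrLaw (1 / 2), ∀ k, D k ω ≤ D 0 ω := by
      filter_upwards [hae'] with ω h3 k
      have h8 : RR (q k) 1 ω ≤ RR (q 0) 1 ω :=
        csSup_le_csSup (h3 0).2.1 (h3 k).1 (OS_mono (hanti (Nat.zero_le k)) ω _ 1)
      have h9 : LL (q 0) 1 ω ≤ LL (q k) 1 ω :=
        csInf_le_csInf (h3 0).2.2.2 (h3 k).2.2.1 (OS_mono (hanti (Nat.zero_le k)) ω _ 1)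
      rw [hD]
      have h8' : (RR (q k) 1 ω : ℝ) ≤ RR (q 0) 1 ω := by exact_mod_cast h8
      have h9' : (LL (q 0) 1 ω : ℝ) ≤ LL (q k) 1 ω := by exact_mod_cast h9
      show (RR (q k) 1 ω : ℝ) - (LL (q k) 1 ω : ℝ) ≤ (RR (q 0) 1 ω : ℝ) - (LL (q 0) 1 ω : ℝ)
      linarith
    have hbound : ∀ k, ∫⁻ ω, ENNReal.ofReal (D 0 ω - D k ω) ∂arrLaw (1 / 2) ≤
        ENNReal.ofReal (∫ ω, D 0 ω ∂arrLaw (1 / 2)) := by
      intro k
      have hz := ofReal_integral_eq_lintegral_ofReal ((hDint 0).sub (hDint k)) (by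
        filter_upwards [hmonoD] with ω hω
        exact sub_nonneg.mpr (hω k))
      refine (le_of_eq hz.symm).trans ?_
      apply ENNReal.ofReal_le_ofReal
      have h12 : ∫ ω, (D 0 ω - D k ω) ∂arrLaw (1 / 2) =
          ∫ ω, D 0 ω ∂arrLaw (1 / 2) - ∫ ω, D k ω ∂arrLaw (1 / 2) :=
        integral_sub (hDint 0) (hDint k)
      have h13 : ∫ ω, D k ω ∂arrLaw (1 / 2) = kap (q k) 1 := by rw [hD]; rfl
      show ∫ ω, (D 0 ω - D k ω) ∂arrLaw (1 / 2) ≤ _
      rw [h12, h13]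
      linarith [hk0 k]
    have hF : ∫⁻ ω, liminf (fun k => ENNReal.ofReal (D 0 ω - D k ω)) atTop ∂arrLaw (1 / 2) ≤
        ENNReal.ofReal (∫ ω, D 0 ω ∂arrLaw (1 / 2)) := by
      refine (lintegral_liminf_le' fun k => ?_).trans ?_
      · exact ((hDint 0).sub (hDint k)).aestronglyMeasurable.aemeasurable.ennreal_ofReal
      · refine Filter.liminf_le_of_frequently_le' ?_
        exact (Eventually.of_forall hbound).frequently
    have htop : ∀ᵐ ω ∂arrLaw (1 / 2),
        liminf (fun k => ENNReal.ofReal (D 0 ω - D k ω)) atTop = ⊤ := by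
      filter_upwards [hlimD] with ω hω
      apply Tendsto.liminf_eq
      rw [ENNReal.tendsto_nhds_top_iff_nat]
      intro n
      obtain ⟨M, hM⟩ := exists_nat_gt ((n : ℝ) + |D 0 ω|)
      filter_upwards [hω M] with k hk
      rw [← ENNReal.ofReal_natCast, ENNReal.ofReal_lt_ofReal_iff_of_nonneg (Nat.cast_nonneg n)]
      have := neg_abs_le (D 0 ω)
      linarith
    rw [lintegral_congr_ae htop, lintegral_const, measure_univ, mul_one] at hF
    exact absurd (lt_of_le_of_lt hF ENNReal.ofReal_lt_top) (lt_irrefl _)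

end CausalPerc.Neg
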