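import Pool.Agent.Lib.MP_a51368_pr.Neg.Spec1

/-!
# Module N8: measurability of the basic events of the random strip
-/

open MeasureTheory Set Relation

noncomputable section

namespace CausalPerc.Neg

namespace MeasAux

/-- Composition with an integer-valued measurable function. -/
theorem comp_int {β γ : Type*} [MeasurableSpace β] [MeasurableSpace γ] {f : ℤ → γ → β}
    (hf : ∀ z, Measurable (f z)) {g : γ → ℤ} (hg : Measurable g) :
    Measurable fun ω => f (g ω) ω := by
  intro s hs
  have : (fun ω => f (g ω) ω) ⁻¹' s = ⋃ z : ℤ, (g ⁻¹' {z}) ∩ (f z) ⁻¹' s := by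
    ext ω
    simp
  rw [this]
  exact MeasurableSet.iUnion fun z => (hg (measurableSet_singleton z)).inter (hf z hs)

theorem meas_node (t : ℕ) (x : ℤ) : Measurable fun ω : Arr => ω t x :=
  (measurable_pi_apply x).comp (measurable_pi_apply t)

theorem meas_xi (t : ℕ) (x : ℤ) : Measurable fun ω : Arr => xi ω t x :=
  measurable_fst.comp (meas_node t x)

theorem meas_lab (t : ℕ) (x : ℤ) (j : ℕ) :
    Measurable fun ω : Arr => (((ω t x).2 j : unitInterval) : ℝ) :=
  measurable_subtype_coe.comp ((measurable_pi_apply j).comp (measurable_snd.comp (meas_node t x)))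

theorem meas_ps (t : ℕ) (x : ℤ) : Measurable fun ω : Arr => ps (xi ω t) x := by
  unfold ps
  refine Measurable.sub ?_ ?_
  · exact Finset.measurable_sum _ fun i _ => (measurable_of_countable _).comp (meas_xi t i)
  · exact Finset.measurable_sum _ fun i _ => (measurable_of_countable _).comp (meas_xi t i)

theorem meas_DD (t : ℕ) (x : ℤ) : Measurable fun ω : Arr => DD ω t x := by
  induction t with
  | zero => exact measurable_const
  | succ t ih => exact comp_int (fun z => meas_ps t z) ih

theorem meas_cshift (a : ℤ) : Measurable (cshift a) := by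
  refine measurable_pi_iff.2 fun t => measurable_pi_iff.2 fun x => ?_
  exact comp_int (f := fun z (ω : Arr) => ω t (x + z)) (fun z => meas_node t (x + z))
    (meas_DD t a)

theorem meas_post (s : ℕ) : Measurable (post s) :=
  measurable_pi_iff.2 fun t => measurable_pi_apply (s + t)

/-! ### Prop-valued measurable functions -/

theorem mle {f g : Arr → ℤ} (hf : Measurable f) (hg : Measurable g) :
    Measurable fun ω => f ω ≤ g ω := measurableSet_setOfPred.1 (measurableSet_le hf hg)

theorem mlt {f g : Arr → ℤ} (hf : Measurable f) (hg : Measurable g) :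
    Measurable fun ω => f ω < g ω := measurableSet_setOfPred.1 (measurableSet_lt hf hg)

theorem meq {f g : Arr → ℤ} (hf : Measurable f) (hg : Measurable g) :
    Measurable fun ω => f ω = g ω := measurableSet_setOfPred.1 (measurableSet_eq_fun hf hg)

theorem mc {P : Prop} : Measurable fun _ : Arr => P := measurable_const

variable (p : ℝ)

theorem m_ho (t : ℕ) (x : ℤ) : Measurable fun ω : Arr => (strip p ω).ho t x :=
  measurableSet_setOfPred.1 (measurableSet_le (meas_lab t x 0) measurable_const)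

theorem m_vo (t : ℕ) (x y : ℤ) : Measurable fun ω : Arr => (strip p ω).vo t x y := by
  have h : Measurable fun ω : Arr =>
      (((ω t x).2 ((y - ps (xi ω t) x).toNat + 1) : unitInterval) : ℝ) :=
    comp_int (f := fun z (ω : Arr) => (((ω t x).2 ((y - z).toNat + 1) : unitInterval) : ℝ))
      (fun z => meas_lab t x _) (meas_ps t x)
  exact measurableSet_setOfPred.1 (measurableSet_le h measurable_const)

theorem m_S (t : ℕ) (x : ℤ) : Measurable fun ω : Arr => (strip p ω).S t x := meas_ps t x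

theorem m_D (t : ℕ) (x : ℤ) : Measurable fun ω : Arr => (strip p ω).D t x := by
  simp only [strip_D]
  exact meas_DD t x

theorem m_IsV (t : ℕ) (x y : ℤ) : Measurable fun ω : Arr => (strip p ω).IsV t x y :=
  (mle (m_S p t x) measurable_const).and (mle measurable_const (m_S p t (x + 1)))

theorem up1_iff (E : Strip) (n : ℕ) (u v : ℕ × ℤ) :
    E.Up1 n u v ↔ u.1 < n ∧ v.1 = u.1 + 1 ∧ E.IsV u.1 u.2 v.2 ∧ E.vo u.1 u.2 v.2 := by
  constructor
  · rintro ⟨t, x, y, h1, h2, h3⟩
    exact ⟨h1, rfl, h2, h3⟩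
  · obtain ⟨t, x⟩ := u
    obtain ⟨s, y⟩ := v
    rintro ⟨h1, h2, h3, h4⟩
    simp only at h1 h2 h3 h4
    subst h2
    exact .mk t x y h1 h3 h4

theorem hor1_iff (E : Strip) (n : ℕ) (u v : ℕ × ℤ) :
    E.Hor1 n u v ↔ u.1 < n ∧ v.1 = u.1 ∧ v.2 = u.2 + 1 ∧ E.ho u.1 u.2 := by
  constructor
  · rintro ⟨t, x, h1, h2⟩
    exact ⟨h1, rfl, rfl, h2⟩
  · obtain ⟨t, x⟩ := u
    obtain ⟨s, y⟩ := v
    rintro ⟨h1, h2, h3, h4⟩
    simp only at h1 h2 h3 h4
    subst h2 h3
    exact .mk _ x h1 h4

theorem m_Up1 (n : ℕ) (u v : ℕ × ℤ) : Measurable fun ω : Arr => (strip p ω).Up1 n u v := by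
  simp only [up1_iff]
  exact mc.and (mc.and ((m_IsV p _ _ _).and (m_vo p _ _ _)))

theorem m_Hor1 (n : ℕ) (u v : ℕ × ℤ) : Measurable fun ω : Arr => (strip p ω).Hor1 n u v := by
  simp only [hor1_iff]
  exact mc.and (mc.and (mc.and (m_ho p _ _)))

/-- A random region. -/
def MR (R : Arr → Set (ℕ × ℤ)) : Prop := ∀ v, Measurable fun ω => v ∈ R ω

theorem m_col (a b : ℤ) : MR fun ω => (strip p ω).col a b := fun v =>
  (mle (m_D p _ _) measurable_const).and (mlt measurable_const (m_D p _ _))

theorem m_univ : MR fun _ => univ := fun _ => by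
  simp only [mem_univ]
  exact mc

variable {R : Arr → Set (ℕ × ℤ)}

theorem m_Step (hR : MR R) (n : ℕ) (u v : ℕ × ℤ) :
    Measurable fun ω : Arr => (strip p ω).Step n (R ω) u v :=
  (hR u).and ((hR v).and ((m_Up1 p n u v).or ((m_Up1 p n v u).or
    ((m_Hor1 p n u v).or (m_Hor1 p n v u)))))

theorem m_OStep (hR : MR R) (n : ℕ) (u v : ℕ × ℤ) :
    Measurable fun ω : Arr => (strip p ω).OStep n (R ω) u v :=
  (hR u).and ((hR v).and ((m_Up1 p n u v).or
    ((m_Hor1 p n u v).or (m_Hor1 p n v u))))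

/-- Reachability in exactly `k` steps. -/
def reach {V : Type*} (r : V → V → Prop) (u : V) : ℕ → V → Prop
  | 0, v => u = v
  | k + 1, v => ∃ w, reach r u k w ∧ r w v

theorem rtg_iff {V : Type*} (r : V → V → Prop) (u v : V) :
    ReflTransGen r u v ↔ ∃ k, reach r u k v := by
  constructor
  · intro h
    induction h with
    | refl => exact ⟨0, rfl⟩
    | tail _ hbc ih =>
      obtain ⟨k, hk⟩ := ih
      exact ⟨k + 1, _, hk, hbc⟩
  · rintro ⟨k, hk⟩
    induction k generalizing v with
    | zero => rw [show u = v from hk]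
    | succ k ih =>
      obtain ⟨w, h1, h2⟩ := hk
      exact (ih w h1).tail h2

theorem m_rtg {V : Type*} [Countable V] {r : Arr → V → V → Prop}
    (hr : ∀ u v, Measurable fun ω => r ω u v) (u v : V) :
    Measurable fun ω => ReflTransGen (r ω) u v := by
  simp only [rtg_iff]
  refine Measurable.exists fun k => ?_
  induction k generalizing v with
  | zero => exact measurable_const
  | succ k ih => exact Measurable.exists fun w => (ih w).and (hr w v)

theorem m_Conn (hR : MR R) (n : ℕ) (u v : ℕ × ℤ) :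
    Measurable fun ω : Arr => (strip p ω).Conn n (R ω) u v :=
  m_rtg (fun u v => m_Step p hR n u v) u v

theorem m_OConn (hR : MR R) (n : ℕ) (u v : ℕ × ℤ) :
    Measurable fun ω : Arr => (strip p ω).OConn n (R ω) u v :=
  m_rtg (fun u v => m_OStep p hR n u v) u v

theorem dstep1_iff (E : Strip) (n : ℕ) (q r : Strip.Tri) :
    E.DStep1 n q r ↔
      (q.1 < n ∧ r.1 = q.1 ∧ E.IsV q.1 q.2.1 q.2.2 ∧ ¬ E.vo q.1 r.2.1 r.2.2 ∧
        ((q.2.2 < E.S q.1 (q.2.1 + 1) ∧ r.2 = (q.2.1, q.2.2 + 1)) ∨
          (¬ q.2.2 < E.S q.1 (q.2.1 + 1) ∧ r.2 = (q.2.1 + 1, q.2.2)))) ∨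
      (q.1 + 1 < n ∧ r.1 = q.1 + 1 ∧ E.IsV q.1 q.2.1 q.2.2 ∧ q.2.2 < E.S q.1 (q.2.1 + 1) ∧
        ¬ E.ho (q.1 + 1) q.2.2 ∧ r.2.1 = q.2.2 ∧ r.2.2 = E.S (q.1 + 1) (q.2.2 + 1)) := by
  constructor
  · rintro (⟨t, x, y, h1, h2, h3⟩ | ⟨t, x, y, h1, h2, h3, h4⟩)
    · left
      refine ⟨h1, rfl, h2, h3, ?_⟩
      simp only [Strip.nx]
      split_ifs with h
      · exact Or.inl ⟨h, rfl⟩
      · exact Or.inr ⟨h, rfl⟩
    · right
      exact ⟨h1, rfl, h2, h3, h4, rfl, rfl⟩
  · obtain ⟨t, x, y⟩ := q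
    obtain ⟨s, x', y'⟩ := r
    rintro (⟨h1, h2, h3, h4, h5⟩ | ⟨h1, h2, h3, h4, h5, h6, h7⟩)
    · simp only at h1 h2 h3 h4 h5
      subst h2
      have h6 : (x', y') = E.nx s (x, y) := by
        unfold Strip.nx
        rcases h5 with ⟨h5, h6⟩ | ⟨h5, h6⟩
        · rw [if_pos h5, h6]
        · rw [if_neg h5, h6]
      have h7 := Strip.DStep1.side (E := E) (n := n) s x y h1 h3 (by rw [← h6]; exact h4)
      rw [← h6] at h7
      exact h7
    · simp only at h1 h2 h3 h4 h5 h6 h7
      subst h2 h6 h7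
      exact .up t x x' h1 h3 h4 h5

theorem m_DStep1 (n : ℕ) (q r : Strip.Tri) :
    Measurable fun ω : Arr => (strip p ω).DStep1 n q r := by
  simp only [dstep1_iff]
  refine Measurable.or ?_ ?_
  · exact mc.and (mc.and ((m_IsV p _ _ _).and ((m_vo p _ _ _).not.and
      (((mlt measurable_const (m_S p _ _)).and mc).or
        ((mlt measurable_const (m_S p _ _)).not.and mc)))))
  · exact mc.and (mc.and ((m_IsV p _ _ _).and ((mlt measurable_const (m_S p _ _)).and
      ((m_ho p _ _).not.and (mc.and (meq measurable_const (m_S p _ _)))))))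

theorem m_DStep (hR : MR R) (n : ℕ) (q r : Strip.Tri) :
    Measurable fun ω : Arr => (strip p ω).DStep n (R ω) q r :=
  (hR _).and ((hR _).and ((m_DStep1 p n q r).or (m_DStep1 p n r q)))

theorem m_DConn (hR : MR R) (n : ℕ) (q r : Strip.Tri) :
    Measurable fun ω : Arr => (strip p ω).DConn n (R ω) q r :=
  m_rtg (fun u v => m_DStep p hR n u v) q r

theorem m_DUp (hR : MR R) (n : ℕ) (e : ℤ) :
    Measurable fun ω : Arr => (strip p ω).DUp (R ω) n e := by
  unfold Strip.DUp
  refine (m_ho p _ _).not.and ((hR _).and ?_)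
  refine Measurable.exists fun t => Measurable.exists fun x' => Measurable.exists fun y' => ?_
  refine mc.and ((m_IsV p _ _ _).and ((mlt measurable_const (m_S p _ _)).and ?_))
  exact comp_int (f := fun z (ω : Arr) => (strip p ω).DConn n (R ω) (0, e, z) (t, x', y'))
    (fun z => m_DConn p hR n _ _) (m_S p 0 (e + 1))

theorem m_CrossFrom (A : Set ℤ) (a b : ℤ) (n : ℕ) :
    Measurable fun ω : Arr => (strip p ω).CrossFrom A a b n :=
  Measurable.exists fun x => Measurable.exists fun y =>
    mc.and (mc.and (mc.and (m_Conn p (m_col p a b) n _ _)))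

theorem m_OCross (a b : ℤ) (n : ℕ) : Measurable fun ω : Arr => (strip p ω).OCross a b n :=
  Measurable.exists fun x => Measurable.exists fun y =>
    mc.and (mc.and (m_OConn p (m_col p a b) n _ _))

/-- Random sets of integers. -/
def MI (A : Arr → Set ℤ) : Prop := ∀ z, Measurable fun ω => z ∈ A ω

theorem m_H (t : ℕ) {A : Arr → Set ℤ} (hA : MI A) : MI fun ω => (strip p ω).H t (A ω) := by
  intro z
  show Measurable fun ω => ∃ a, a ∈ A ω ∧ (∀ i, a ≤ i → i < z → (strip p ω).ho t i) ∧
    (∀ i, z ≤ i → i < a → (strip p ω).ho t i)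
  refine Measurable.exists fun a => (hA a).and ((Measurable.forall fun i => ?_).and
    (Measurable.forall fun i => ?_))
  · exact mc.imp (mc.imp (m_ho p t i))
  · exact mc.imp (mc.imp (m_ho p t i))

theorem m_V (t : ℕ) {A : Arr → Set ℤ} (hA : MI A) : MI fun ω => (strip p ω).V t (A ω) := by
  intro z
  show Measurable fun ω => ∃ x, x ∈ A ω ∧ (strip p ω).IsV t x z ∧ (strip p ω).vo t x z
  exact Measurable.exists fun x => (hA x).and ((m_IsV p _ _ _).and (m_vo p _ _ _))

theorem m_W (t : ℕ) {A : Arr → Set ℤ} (hA : MI A) : MI fun ω => (strip p ω).W t (A ω) := by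
  intro z
  show Measurable fun ω => ∃ y, y ∈ A ω ∧ (strip p ω).IsV t z y ∧ (strip p ω).vo t z y
  exact Measurable.exists fun x => (hA x).and ((m_IsV p _ _ _).and (m_vo p _ _ _))

theorem m_OS (A : Set ℤ) (n : ℕ) : MI fun ω => (strip p ω).OS A n := by
  induction n with
  | zero => exact fun z => mc
  | succ n ih => exact m_V p n (m_H p n ih)

theorem m_ES (A : Set ℤ) (n : ℕ) : MI fun ω => (strip p ω).ES A n := by
  induction n with
  | zero => exact fun z => mc
  | succ n ih =>
    refine m_V p n ?_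
    intro z
    show Measurable fun ω => z ∈ (strip p ω).H n ((strip p ω).ES A n) ∨
      z ∈ (strip p ω).W n ((strip p ω).V n ((strip p ω).H n ((strip p ω).ES A n)))
    exact (m_H p n ih z).or (m_W p n (m_V p n (m_H p n ih)) z)

end MeasAux

open MeasAux

theorem meas : MeasStmt := by
  refine ⟨meas_DD, meas_cshift, meas_post, ?_⟩
  intro p n a b
  refine ⟨fun u v => measurableSet_setOfPred.2 (m_Conn p (m_col p a b) n u v),
    fun u v => measurableSet_setOfPred.2 (m_Conn p m_univ n u v),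
    fun u v => measurableSet_setOfPred.2 (m_OConn p (m_col p a b) n u v),
    fun u v => measurableSet_setOfPred.2 (m_OConn p m_univ n u v),
    fun A => measurableSet_setOfPred.2 (m_CrossFrom p A a b n),
    measurableSet_setOfPred.2 (m_OCross p a b n),
    fun e => measurableSet_setOfPred.2 (m_DUp p m_univ n e),
    fun e => measurableSet_setOfPred.2 (m_DUp p (m_col p a b) n e),
    fun u v => measurableSet_setOfPred.2 (m_DConn p m_univ n u v),
    fun A z => measurableSet_setOfPred.2 (m_OS p A n z),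
    fun A z => measurableSet_setOfPred.2 (m_ES p A n z)⟩

end CausalPerc.Neg
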