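import Pool.Agent.Lib.MP_a51368_pr.Neg.R2

/-!
# Module P13: monotonicities
-/

open MeasureTheory Set Relation

noncomputable section

namespace CausalPerc.Neg

namespace MonoX

variable {p p' : ℝ} {ω : Arr} {n : ℕ} {R : Set (ℕ × ℤ)}

theorem up1 (h : p ≤ p') {u v : ℕ × ℤ} (hs : (strip p ω).Up1 n u v) :
    (strip p' ω).Up1 n u v := by
  cases hs with
  | mk t x y h1 h2 h3 => exact .mk t x y h1 h2 (le_trans h3 h)

theorem hor1 (h : p ≤ p') {u v : ℕ × ℤ} (hs : (strip p ω).Hor1 n u v) :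
    (strip p' ω).Hor1 n u v := by
  cases hs with
  | mk t x h1 h2 => exact .mk t x h1 (le_trans h2 h)

theorem step (h : p ≤ p') {u v : ℕ × ℤ} (hs : (strip p ω).Step n R u v) :
    (strip p' ω).Step n R u v := by
  obtain ⟨h1, h2, h3⟩ := hs
  refine ⟨h1, h2, ?_⟩
  rcases h3 with h3 | h3 | h3 | h3
  · exact Or.inl (up1 h h3)
  · exact Or.inr (Or.inl (up1 h h3))
  · exact Or.inr (Or.inr (Or.inl (hor1 h h3)))
  · exact Or.inr (Or.inr (Or.inr (hor1 h h3)))

theorem ostep (h : p ≤ p') {u v : ℕ × ℤ} (hs : (strip p ω).OStep n R u v) :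
    (strip p' ω).OStep n R u v := by
  obtain ⟨h1, h2, h3⟩ := hs
  refine ⟨h1, h2, ?_⟩
  rcases h3 with h3 | h3 | h3
  · exact Or.inl (up1 h h3)
  · exact Or.inr (Or.inl (hor1 h h3))
  · exact Or.inr (Or.inr (hor1 h h3))

theorem dstep1 (h : p ≤ p') {q r : Strip.Tri} (hs : (strip p' ω).DStep1 n q r) :
    (strip p ω).DStep1 n q r := by
  cases hs with
  | side t x y h1 h2 h3 => exact .side t x y h1 h2 (fun h4 => h3 (le_trans h4 h))
  | up t x y h1 h2 h3 h4 => exact .up t x y h1 h2 h3 (fun h5 => h4 (le_trans h5 h))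

theorem dup (h : p ≤ p') {e : ℤ} (hs : (strip p' ω).DUp R n e) : (strip p ω).DUp R n e := by
  obtain ⟨h1, h2, t, x, y, h3, h4, h5, h6⟩ := hs
  refine ⟨fun h7 => h1 (le_trans h7 h), h2, t, x, y, h3, h4, h5, ?_⟩
  refine ReflTransGen.mono (fun _ _ hab => ⟨hab.1, hab.2.1, ?_⟩) _ _ h6
  rcases hab.2.2 with h7 | h7
  · exact Or.inl (dstep1 h h7)
  · exact Or.inr (dstep1 h h7)

theorem col_eq (p p' : ℝ) (ω : Arr) (a b : ℤ) : (strip p ω).col a b = (strip p' ω).col a b := by
  ext v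
  rw [Strip.mem_col, Strip.mem_col, strip_D, strip_D, strip_D, strip_D]

theorem cross (h : p ≤ p') {a b : ℤ} (hs : (strip p ω).Cross a b n) :
    (strip p' ω).Cross a b n := by
  obtain ⟨x, y, h1, h2, h3, h4⟩ := hs
  refine ⟨x, y, h1, h2, h3, ?_⟩
  rw [← col_eq p p' ω a b]
  exact ReflTransGen.mono (fun _ _ hab => step h hab) _ _ h4

theorem ocross (h : p ≤ p') {a b : ℤ} (hs : (strip p ω).OCross a b n) :
    (strip p' ω).OCross a b n := by
  obtain ⟨x, y, h2, h3, h4⟩ := hs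
  refine ⟨x, y, h2, h3, ?_⟩
  rw [← col_eq p p' ω a b]
  exact ReflTransGen.mono (fun _ _ hab => ostep h hab) _ _ h4

end MonoX

open MonoX R2X

theorem mono (hF : DFirstStmt) (hM : MeasStmt) (hCD : ColDepStmt) (hSS : StripShiftStmt)
    (hRc : RecentreStmt) (hCI : ColIndepStmt) : MonoStmt := by
  intro α h0 h1
  have := R2X.arr_prob h0 h1
  refine ⟨?_, ?_, ?_, ?_, ?_, ?_, ?_⟩
  · intro p p' b n h
    exact measureReal_mono fun ω hω hc => hω (cross h hc)
  · intro p p' n h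
    exact measureReal_mono fun ω hω => dup h hω
  · intro p b b' n h
    exact measureReal_mono fun ω hω hc => hω (hc.mono le_rfl h)
  · intro p b n n' h
    exact measureReal_mono fun ω hω hc => hω (hc.anti h)
  · intro p n n' hn h
    exact measureReal_mono fun ω hω => hF (strip p ω) univ n n' 0 hn h hω
  · intro p b K n
    have h2 : vv α p b n ^ K = (arrLaw α).real {ω | ∀ j : Fin K,
        ¬ (strip p ω).Cross (0 + (j : ℕ) * b) (0 + ((j : ℕ) + 1) * b) n} := by
      unfold vv Measure.real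
      rw [columns hM hSS hRc hCD hCI h0 h1 p K b n 0, ENNReal.toReal_pow]
    rw [h2]
    refine measureReal_mono ?_ (measure_ne_top _ _)
    intro ω hω j hc
    apply hω
    have hb : (0 : ℤ) ≤ b := Nat.cast_nonneg _
    have hj : ((j : ℕ) : ℤ) + 1 ≤ K := by exact_mod_cast j.2
    have hj0 : (0 : ℤ) ≤ ((j : ℕ) : ℤ) := Nat.cast_nonneg _
    refine hc.mono ?_ ?_
    · have := mul_nonneg hj0 hb
      linarith
    · have := mul_le_mul_of_nonneg_right hj hb
      push_cast
      linarith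
  · rintro p p' h ⟨w, hw⟩
    refine ⟨w, lt_of_lt_of_le hw (measure_mono fun ω hω n => ocross h (hω n))⟩

end CausalPerc.Neg
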