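import Pool.Agent.Lib.MP_a51368_pr.Neg.Spec1

/-!
# The parity function of an open walk
-/

open Set Relation

namespace CausalPerc.Neg

namespace ParityAux

/-- Indicator (mod 2) of the triangles to the right of the vertical edge `(t₀,x₀) - (t₀+1,y₀)`. -/
def e (t₀ : ℕ) (x₀ y₀ : ℤ) (t : ℕ) (x y : ℤ) : ZMod 2 :=
  if t = t₀ ∧ x₀ ≤ x ∧ y₀ ≤ y then 1 else 0

theorem z2 (a : ZMod 2) : a + a = 0 := by
  have h : ∀ a : ZMod 2, a + a = 0 := by decide
  exact h a

variable {E : Strip} {n : ℕ} {t₀ : ℕ} {x₀ y₀ : ℤ}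

theorem e_side (hV : E.IsV t₀ x₀ y₀) (ho : E.vo t₀ x₀ y₀) {t : ℕ} {x y : ℤ} (h : E.IsV t x y)
    (hc : ¬ E.vo t (E.nx t (x, y)).1 (E.nx t (x, y)).2) :
    e t₀ x₀ y₀ t x y = e t₀ x₀ y₀ t (E.nx t (x, y)).1 (E.nx t (x, y)).2 := by
  unfold e
  by_cases ht : t = t₀
  · subst ht
    have h1 := E.nx_le t (x, y)
    have h2 := E.nx_sum t (x, y)
    simp only at h1 h2
    have key : (x₀ ≤ x ∧ y₀ ≤ y) ↔
        (x₀ ≤ (E.nx t (x, y)).1 ∧ y₀ ≤ (E.nx t (x, y)).2) := by
      constructor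
      · rintro ⟨h3, h4⟩
        exact ⟨h3.trans h1.1, h4.trans h1.2⟩
      · rintro ⟨h3, h4⟩
        rcases E.isV_comparable hV h with h5 | h5
        · exact h5
        · by_cases h6 : x₀ + y₀ = x + y
          · constructor <;> omega
          · exfalso
            have h7 : x₀ = (E.nx t (x, y)).1 := by omega
            have h8 : y₀ = (E.nx t (x, y)).2 := by omega
            rw [← h7, ← h8] at hc
            exact hc ho
    simp only [key]
  · simp [ht]

theorem e_T (hV : E.IsV t₀ x₀ y₀) {t : ℕ} {x y : ℤ} (hT : y < E.S t (x + 1)) :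
    e t₀ x₀ y₀ t x y = ind (t₀ + 1, y₀) (t + 1) y := by
  unfold e ind
  by_cases ht : t = t₀
  · subst ht
    by_cases hy : y₀ ≤ y
    · have hx : x₀ ≤ x := by
        by_contra hcon
        push Not at hcon
        have h1 := E.S_mono t (show x + 1 ≤ x₀ by omega)
        have h2 := hV.1
        omega
      simp [hy, hx]
    · simp [hy]
  · have h1 : ¬ t₀ = t := fun h => ht h.symm
    simp [ht, h1]

theorem e_B (hV : E.IsV t₀ x₀ y₀) {t : ℕ} {x : ℤ} :
    e t₀ x₀ y₀ t x (E.S t (x + 1)) = ind (t₀, x₀) t x := by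
  unfold e ind
  by_cases ht : t = t₀
  · subst ht
    by_cases hx : x₀ ≤ x
    · have hy : y₀ ≤ E.S t (x + 1) := hV.2.trans (E.S_mono t (by omega))
      simp [hx, hy]
    · simp [hx]
  · have h1 : ¬ t₀ = t := fun h => ht h.symm
    simp [ht, h1]

theorem e_tot (hV : E.IsV t₀ x₀ y₀) {t : ℕ} {x y : ℤ} (h : E.IsV t x y)
    (hne : e t₀ x₀ y₀ t x y ≠ (if t = t₀ then 1 else 0)) :
    t = t₀ ∧ x ≤ x₀ ∧ y ≤ y₀ ∧ x + y < x₀ + y₀ := by
  unfold e at hne
  by_cases ht : t = t₀
  · subst ht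
    have h1 : ¬ (x₀ ≤ x ∧ y₀ ≤ y) := by
      intro h2
      apply hne
      simp [h2]
    rcases E.isV_comparable hV h with h5 | h5
    · exact absurd h5 h1
    · refine ⟨rfl, h5.1, h5.2, ?_⟩
      by_contra hcon
      apply h1
      constructor <;> omega
  · exfalso
    apply hne
    simp [ht]

/-- The properties of the parity function. -/
structure Good (E : Strip) (n : ℕ) (R : Set (ℕ × ℤ)) (u v : ℕ × ℤ) (φ : ℕ → ℤ → ℤ → ZMod 2) :
    Prop where
  h1 : ∀ t x y, t < n → E.IsV t x y → ¬ E.vo t (E.nx t (x, y)).1 (E.nx t (x, y)).2 →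
        φ t x y = φ t (E.nx t (x, y)).1 (E.nx t (x, y)).2
  h2 : ∀ t x y, E.IsV t x y → y < E.S t (x + 1) → (t + 1 < n → ¬ E.ho (t + 1) y) →
        φ t x y = φ (t + 1) y (E.S (t + 1) (y + 1)) + ind u (t + 1) y + ind v (t + 1) y
  h3 : ∀ x, (0 < n → ¬ E.ho 0 x) → φ 0 x (E.S 0 (x + 1)) = ind u 0 x + ind v 0 x
  h4 : ∀ t x y, n ≤ t → φ t x y = 0
  h5 : ∀ t x y, φ t x y ≠ 0 →
        ∃ x' y', (t, x') ∈ R ∧ (t + 1, y') ∈ R ∧ E.IsV t x' y' ∧ x' ≤ x ∧ y' ≤ y
  h6 : ∀ t x y, t < n → E.IsV t x y → φ t x y ≠ tot u v t →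
        ∃ x' y', (t, x') ∈ R ∧ (t + 1, y') ∈ R ∧ E.IsV t x' y' ∧ x ≤ x' ∧ y ≤ y' ∧
          x + y < x' + y'

variable {R : Set (ℕ × ℤ)} {u b c : ℕ × ℤ} {φ : ℕ → ℤ → ℤ → ZMod 2}

/-- Adding a vertical step (in either direction). -/
theorem good_vert (hφ : Good E n R u b φ) (ht : t₀ < n) (hV : E.IsV t₀ x₀ y₀)
    (hvo : E.vo t₀ x₀ y₀) (hR1 : (t₀, x₀) ∈ R) (hR2 : (t₀ + 1, y₀) ∈ R)
    (hbc : ∀ t y, ind b t y + ind (t₀, x₀) t y + ind (t₀ + 1, y₀) t y = ind c t y)
    (htot : ∀ t, tot u b t + (if t = t₀ then 1 else 0) = tot u c t) :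
    Good E n R u c (fun t x y => φ t x y + e t₀ x₀ y₀ t x y) := by
  refine ⟨?_, ?_, ?_, ?_, ?_, ?_⟩
  · intro t x y h1 h2 h3
    show φ t x y + e t₀ x₀ y₀ t x y = _
    rw [hφ.h1 t x y h1 h2 h3, e_side hV hvo h2 h3]
  · intro t x y h1 h2 h3
    show φ t x y + e t₀ x₀ y₀ t x y = φ (t + 1) y (E.S (t + 1) (y + 1)) +
      e t₀ x₀ y₀ (t + 1) y (E.S (t + 1) (y + 1)) + ind u (t + 1) y + ind c (t + 1) y
    rw [hφ.h2 t x y h1 h2 h3, e_T hV h2, e_B hV, ← hbc (t + 1) y]
    have h4 := z2 (ind (t₀, x₀) (t + 1) y)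
    linear_combination (-1 : ZMod 2) * h4
  · intro x h1
    show φ 0 x (E.S 0 (x + 1)) + e t₀ x₀ y₀ 0 x (E.S 0 (x + 1)) = _
    rw [hφ.h3 x h1, e_B hV, ← hbc 0 x]
    have h4 : ind (t₀ + 1, y₀) 0 x = 0 := by simp [ind]
    rw [h4]
    ring
  · intro t x y h1
    show φ t x y + e t₀ x₀ y₀ t x y = 0
    rw [hφ.h4 t x y h1]
    have h2 : ¬ t = t₀ := by omega
    simp [e, h2]
  · intro t x y h1
    by_cases h2 : φ t x y = 0
    · have h3 : e t₀ x₀ y₀ t x y ≠ 0 := by
        intro h3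
        apply h1
        show φ t x y + e t₀ x₀ y₀ t x y = 0
        rw [h2, h3, add_zero]
      unfold e at h3
      have h4 : t = t₀ ∧ x₀ ≤ x ∧ y₀ ≤ y := by
        by_contra hcon
        exact h3 (if_neg hcon)
      obtain ⟨rfl, h5, h6⟩ := h4
      exact ⟨x₀, y₀, hR1, hR2, hV, h5, h6⟩
    · exact hφ.h5 t x y h2
  · intro t x y h1 h2 h3
    by_cases h4 : φ t x y = tot u b t
    · have h5 : e t₀ x₀ y₀ t x y ≠ (if t = t₀ then 1 else 0) := by
        intro h5
        apply h3
        show φ t x y + e t₀ x₀ y₀ t x y = tot u c t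
        rw [h4, h5, htot]
      obtain ⟨rfl, h6, h7, h8⟩ := e_tot hV h2 h5
      exact ⟨x₀, y₀, hR1, hR2, hV, h6, h7, h8⟩
    · exact hφ.h6 t x y h1 h2 h4

/-- Adding a horizontal step. -/
theorem good_hor (hφ : Good E n R u b φ) (ht : t₀ < n) (hho : E.ho t₀ x₀)
    (hbc : ∀ t y, (t = t₀ → y ≠ x₀) → ind b t y = ind c t y) (hlev : b.1 = c.1) :
    Good E n R u c φ := by
  refine ⟨hφ.h1, ?_, ?_, hφ.h4, hφ.h5, ?_⟩
  · intro t x y h1 h2 h3
    rw [hφ.h2 t x y h1 h2 h3, hbc (t + 1) y]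
    intro h4 h5
    subst h5
    rw [← h4] at hho ht
    exact h3 ht hho
  · intro x h1
    rw [hφ.h3 x h1, hbc 0 x]
    intro h4 h5
    subst h5
    rw [← h4] at hho ht
    exact h1 ht hho
  · intro t x y h1 h2 h3
    refine hφ.h6 t x y h1 h2 ?_
    unfold tot at h3 ⊢
    rw [hlev]
    exact h3

theorem exists_good {v : ℕ × ℤ} (h : E.Conn n R u v) : ∃ φ, Good E n R u v φ := by
  induction h with
  | refl =>
    refine ⟨fun _ _ _ => 0, ?_, ?_, ?_, ?_, ?_, ?_⟩
    · intros; rfl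
    · intro t x y _ _ _
      show (0 : ZMod 2) = 0 + ind u (t + 1) y + ind u (t + 1) y
      rw [zero_add, z2]
    · intro x _
      show (0 : ZMod 2) = ind u 0 x + ind u 0 x
      rw [z2]
    · intros; rfl
    · intro t x y h; exact absurd rfl h
    · intro t x y _ _ h
      exfalso
      apply h
      show (0 : ZMod 2) = tot u u t
      unfold tot
      rw [z2]
  | tail _ hbc ih =>
    rename_i b c
    obtain ⟨φ, hφ⟩ := ih
    obtain ⟨hb, hc, hs⟩ := hbc
    rcases hs with h | h | h | h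
    · -- up
      cases h with
      | mk t x y ht hV hvo =>
        refine ⟨_, good_vert hφ ht hV hvo hb hc ?_ ?_⟩
        · intro s z
          rw [z2, zero_add]
        · intro s
          unfold tot
          by_cases h1 : s = t
          · subst h1
            have h2 := z2 (1 : ZMod 2)
            simp only [le_refl, if_true, add_le_iff_nonpos_right, nonpos_iff_eq_zero, one_ne_zero,
              if_false]
            linear_combination h2
          · rcases lt_or_gt_of_ne h1 with h2 | h2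
            · have h3 : ¬ t ≤ s := by omega
              have h4 : ¬ t + 1 ≤ s := by omega
              simp [h1, h3, h4]
            · have h3 : t ≤ s := by omega
              have h4 : t + 1 ≤ s := by omega
              simp [h1, h3, h4]
    · -- down
      cases h with
      | mk t x y ht hV hvo =>
        refine ⟨_, good_vert hφ ht hV hvo hc hb ?_ ?_⟩
        · intro s z
          have := z2 (ind (t + 1, y) s z)
          linear_combination this
        · intro s
          unfold tot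
          by_cases h1 : s = t
          · subst h1
            simp
          · rcases lt_or_gt_of_ne h1 with h2 | h2
            · have h3 : ¬ t ≤ s := by omega
              have h4 : ¬ t + 1 ≤ s := by omega
              simp [h1, h3, h4]
            · have h3 : t ≤ s := by omega
              have h4 : t + 1 ≤ s := by omega
              simp [h1, h3, h4]
    · -- right
      cases h with
      | mk t x ht hho =>
        refine ⟨φ, good_hor hφ ht hho ?_ rfl⟩
        intro s z h1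
        unfold ind
        by_cases h2 : t = s
        · subst h2
          have h3 := h1 rfl
          have h4 : x ≤ z ↔ x + 1 ≤ z := by omega
          simp only [h4]
        · simp [h2]
    · -- left
      cases h with
      | mk t x ht hho =>
        refine ⟨φ, good_hor hφ ht hho ?_ rfl⟩
        intro s z h1
        unfold ind
        by_cases h2 : t = s
        · subst h2
          have h3 := h1 rfl
          have h4 : x + 1 ≤ z ↔ x ≤ z := by omega
          simp only [h4]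
        · simp [h2]

end ParityAux

theorem parity : ParityStmt := by
  intro E n R u v h _
  obtain ⟨φ, hφ⟩ := ParityAux.exists_good h
  exact ⟨φ, hφ.h1, hφ.h2, hφ.h3, hφ.h4, hφ.h5, hφ.h6⟩

end CausalPerc.Neg
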