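import Pool.Agent.Lib.MP_a51368_pr.Neg.Spec1

/-!
# Everything seen from the line of `a`
-/

open Set Relation

namespace CausalPerc.Neg

namespace Rc

open Strip

theorem rtg_iff {α β : Type*} (f : α ≃ β) {r : α → α → Prop} {s : β → β → Prop}
    (h : ∀ a b, r a b ↔ s (f a) (f b)) (a b : α) :
    ReflTransGen r a b ↔ ReflTransGen s (f a) (f b) := by
  constructor
  · intro h1
    induction h1 with
    | refl => exact .refl
    | tail _ h3 ih => exact ih.tail ((h _ _).1 h3)
  · intro h1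
    have h2 : ∀ c, ReflTransGen s (f a) c → ReflTransGen r a (f.symm c) := by
      intro c hc
      induction hc with
      | refl => rw [f.symm_apply_apply]
      | tail _ h3 ih =>
        refine ih.tail ?_
        rw [h, f.apply_symm_apply, f.apply_symm_apply]
        exact h3
    have h3 := h2 _ h1
    rwa [f.symm_apply_apply] at h3

variable (E : Strip) (a : ℤ)

theorem D_rc (t : ℕ) (x : ℤ) : (E.recentre a).D t x = E.D t (x + a) - E.D t a := by
  induction t with
  | zero => show x = x + a - a; ring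
  | succ t ih =>
    show (E.recentre a).S t ((E.recentre a).D t x) = E.S t (E.D t (x + a)) - E.D (t + 1) a
    rw [ih]
    show E.S t (E.D t (x + a) - E.D t a + E.D t a) - E.D (t + 1) a = _
    rw [sub_add_cancel]

theorem S_rc (t : ℕ) (x : ℤ) : (E.recentre a).S t x = E.S t (x + E.D t a) - E.D (t + 1) a := rfl

theorem vo_rc (t : ℕ) (x y : ℤ) :
    (E.recentre a).vo t x y ↔ E.vo t (x + E.D t a) (y + E.D (t + 1) a) := Iff.rfl

theorem ho_rc (t : ℕ) (x : ℤ) : (E.recentre a).ho t x ↔ E.ho t (x + E.D t a) := Iff.rfl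

theorem isV_rc (t : ℕ) (x y : ℤ) :
    (E.recentre a).IsV t x y ↔ E.IsV t (x + E.D t a) (y + E.D (t + 1) a) := by
  unfold IsV
  rw [S_rc, S_rc, show x + 1 + E.D t a = x + E.D t a + 1 by ring]
  constructor
  · rintro ⟨h1, h2⟩
    exact ⟨by linarith, by linarith⟩
  · rintro ⟨h1, h2⟩
    exact ⟨by linarith, by linarith⟩

/-- The vertices seen from the line of `a`. -/
def vE : ℕ × ℤ ≃ ℕ × ℤ where
  toFun u := (u.1, u.2 + E.D u.1 a)
  invFun u := (u.1, u.2 - E.D u.1 a)
  left_inv u := by simp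
  right_inv u := by simp

/-- The triangles seen from the line of `a`. -/
def tE : Tri ≃ Tri where
  toFun q := (q.1, q.2.1 + E.D q.1 a, q.2.2 + E.D (q.1 + 1) a)
  invFun q := (q.1, q.2.1 - E.D q.1 a, q.2.2 - E.D (q.1 + 1) a)
  left_inv q := by simp
  right_inv q := by simp

theorem up1_iff (E : Strip) (n : ℕ) (u v : ℕ × ℤ) : E.Up1 n u v ↔
    u.1 < n ∧ v.1 = u.1 + 1 ∧ E.IsV u.1 u.2 v.2 ∧ E.vo u.1 u.2 v.2 := by
  constructor
  · rintro ⟨t, x, y, h1, h2, h3⟩
    exact ⟨h1, rfl, h2, h3⟩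
  · obtain ⟨t, x⟩ := u
    obtain ⟨t', y⟩ := v
    rintro ⟨h1, h2, h3, h4⟩
    simp only at h2
    subst h2
    exact .mk t x y h1 h3 h4

theorem hor1_iff (E : Strip) (n : ℕ) (u v : ℕ × ℤ) : E.Hor1 n u v ↔
    u.1 < n ∧ v.1 = u.1 ∧ v.2 = u.2 + 1 ∧ E.ho u.1 u.2 := by
  constructor
  · rintro ⟨t, x, h1, h2⟩
    exact ⟨h1, rfl, rfl, h2⟩
  · obtain ⟨t, x⟩ := u
    obtain ⟨t', y⟩ := v
    rintro ⟨h1, h2, h3, h4⟩
    simp only at h2 h3
    subst h2 h3
    exact .mk t' x h1 h4

theorem dstep1_iff (E : Strip) (n : ℕ) (q r : Tri) : E.DStep1 n q r ↔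
    (q.1 < n ∧ E.IsV q.1 q.2.1 q.2.2 ∧ ¬ E.vo q.1 (E.nx q.1 q.2).1 (E.nx q.1 q.2).2 ∧
      r = (q.1, E.nx q.1 q.2)) ∨
    (q.1 + 1 < n ∧ E.IsV q.1 q.2.1 q.2.2 ∧ q.2.2 < E.S q.1 (q.2.1 + 1) ∧
      ¬ E.ho (q.1 + 1) q.2.2 ∧ r = (q.1 + 1, q.2.2, E.S (q.1 + 1) (q.2.2 + 1))) := by
  constructor
  · intro h
    cases h with
    | side t x y h1 h2 h3 => exact Or.inl ⟨h1, h2, h3, rfl⟩
    | up t x y h1 h2 h3 h4 => exact Or.inr ⟨h1, h2, h3, h4, rfl⟩
  · obtain ⟨t, x, y⟩ := q
    rintro (⟨h1, h2, h3, rfl⟩ | ⟨h1, h2, h3, h4, rfl⟩)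
    · exact .side t x y h1 h2 h3
    · exact .up t x y h1 h2 h3 h4

theorem up1_rc (n : ℕ) (u v : ℕ × ℤ) :
    (E.recentre a).Up1 n u v ↔ E.Up1 n (vE E a u) (vE E a v) := by
  obtain ⟨t, x⟩ := u
  obtain ⟨t', y⟩ := v
  rw [up1_iff, up1_iff]
  change t < n ∧ t' = t + 1 ∧ (E.recentre a).IsV t x y ∧ (E.recentre a).vo t x y ↔
    t < n ∧ t' = t + 1 ∧ E.IsV t (x + E.D t a) (y + E.D t' a) ∧
      E.vo t (x + E.D t a) (y + E.D t' a)
  constructor
  · rintro ⟨h1, rfl, h3, h4⟩
    exact ⟨h1, rfl, (isV_rc E a t x y).1 h3, h4⟩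
  · rintro ⟨h1, rfl, h3, h4⟩
    exact ⟨h1, rfl, (isV_rc E a t x y).2 h3, h4⟩

theorem hor1_rc (n : ℕ) (u v : ℕ × ℤ) :
    (E.recentre a).Hor1 n u v ↔ E.Hor1 n (vE E a u) (vE E a v) := by
  obtain ⟨t, x⟩ := u
  obtain ⟨t', y⟩ := v
  rw [hor1_iff, hor1_iff]
  change t < n ∧ t' = t ∧ y = x + 1 ∧ (E.recentre a).ho t x ↔
    t < n ∧ t' = t ∧ y + E.D t' a = x + E.D t a + 1 ∧ E.ho t (x + E.D t a)
  constructor
  · rintro ⟨h1, rfl, h3, h4⟩
    exact ⟨h1, rfl, by rw [h3]; ring, h4⟩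
  · rintro ⟨h1, rfl, h3, h4⟩
    exact ⟨h1, rfl, by linarith, h4⟩

theorem nx_rc (t : ℕ) (q : ℤ × ℤ) : E.nx t (q.1 + E.D t a, q.2 + E.D (t + 1) a) =
    (((E.recentre a).nx t q).1 + E.D t a, ((E.recentre a).nx t q).2 + E.D (t + 1) a) := by
  unfold nx
  rw [S_rc, show q.1 + 1 + E.D t a = q.1 + E.D t a + 1 by ring]
  simp only
  by_cases h : q.2 + E.D (t + 1) a < E.S t (q.1 + E.D t a + 1)
  · rw [if_pos h, if_pos (by linarith)]
    refine Prod.ext rfl ?_
    simp only
    ring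
  · rw [if_neg h, if_neg (by intro h'; exact h (by linarith))]
    refine Prod.ext ?_ rfl
    simp only
    ring

theorem dstep1_rc (n : ℕ) (q r : Tri) :
    (E.recentre a).DStep1 n q r ↔ E.DStep1 n (tE E a q) (tE E a r) := by
  obtain ⟨t, x, y⟩ := q
  rw [dstep1_iff, dstep1_iff]
  have e1 : ∀ z : ℤ × ℤ, r = (t, z) ↔ tE E a r = (t, z.1 + E.D t a, z.2 + E.D (t + 1) a) := by
    intro z
    rw [← (tE E a).injective.eq_iff (a := r)]
    rfl
  have e2 : r = (t + 1, y, (E.recentre a).S (t + 1) (y + 1)) ↔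
      tE E a r = (t + 1, y + E.D (t + 1) a, E.S (t + 1) (y + E.D (t + 1) a + 1)) := by
    rw [← (tE E a).injective.eq_iff (a := r)]
    have : tE E a (t + 1, y, (E.recentre a).S (t + 1) (y + 1)) =
        (t + 1, y + E.D (t + 1) a, E.S (t + 1) (y + E.D (t + 1) a + 1)) := by
      refine Prod.ext rfl (Prod.ext rfl ?_)
      change (E.recentre a).S (t + 1) (y + 1) + E.D (t + 1 + 1) a = _
      rw [S_rc, sub_add_cancel]
      congr 1
      ring
    rw [this]
  have e3 := nx_rc E a t (x, y)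
  refine or_congr ?_ ?_
  · refine and_congr Iff.rfl (and_congr (isV_rc E a t x y) (and_congr (not_congr ?_) ?_))
    · change _ ↔ E.vo t (E.nx t (x + E.D t a, y + E.D (t + 1) a)).1
        (E.nx t (x + E.D t a, y + E.D (t + 1) a)).2
      rw [e3]
      exact vo_rc E a t _ _
    · rw [e1]
      change _ ↔ tE E a r = (t, E.nx t (x + E.D t a, y + E.D (t + 1) a))
      rw [e3]
  · refine and_congr Iff.rfl (and_congr (isV_rc E a t x y) (and_congr ?_ (and_congr
      (not_congr (ho_rc E a (t + 1) y)) e2)))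
    change y < (E.recentre a).S t (x + 1) ↔ y + E.D (t + 1) a < E.S t (x + E.D t a + 1)
    rw [S_rc, show x + 1 + E.D t a = x + E.D t a + 1 by ring]
    constructor
    · intro h; linarith
    · intro h; linarith

section regions

variable {R R' : Set (ℕ × ℤ)} (hR : ∀ w, w ∈ R' ↔ vE E a w ∈ R)

include hR

theorem conn_rc (n : ℕ) (u v : ℕ × ℤ) :
    (E.recentre a).Conn n R' u v ↔ E.Conn n R (vE E a u) (vE E a v) := by
  refine rtg_iff (vE E a) (fun u v => ?_) u v
  unfold Strip.Step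
  rw [hR, hR, up1_rc, up1_rc, hor1_rc, hor1_rc]

theorem oconn_rc (n : ℕ) (u v : ℕ × ℤ) :
    (E.recentre a).OConn n R' u v ↔ E.OConn n R (vE E a u) (vE E a v) := by
  refine rtg_iff (vE E a) (fun u v => ?_) u v
  unfold Strip.OStep
  rw [hR, hR, up1_rc, hor1_rc, hor1_rc]

theorem dconn_rc (n : ℕ) (q r : Tri) :
    (E.recentre a).DConn n R' q r ↔ E.DConn n R (tE E a q) (tE E a r) := by
  refine rtg_iff (tE E a) (fun q r => ?_) q r
  unfold Strip.DStep
  rw [hR, hR, dstep1_rc, dstep1_rc]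
  rfl

theorem dup_rc (n : ℕ) (e : ℤ) : (E.recentre a).DUp R' n e ↔ E.DUp R n (e + a) := by
  have h0 : tE E a (0, e, (E.recentre a).S 0 (e + 1)) = (0, e + a, E.S 0 (e + a + 1)) := by
    refine Prod.ext rfl (Prod.ext rfl ?_)
    change (E.recentre a).S 0 (e + 1) + E.D (0 + 1) a = E.S 0 (e + a + 1)
    rw [S_rc, sub_add_cancel]
    congr 1
    change e + 1 + a = _
    ring
  unfold DUp
  refine and_congr Iff.rfl (and_congr (hR _) ?_)
  constructor
  · rintro ⟨t, x', y', h1, h2, h3, h4⟩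
    refine ⟨t, x' + E.D t a, y' + E.D (t + 1) a, h1, (isV_rc E a t x' y').1 h2, ?_, ?_⟩
    · rw [S_rc, show x' + 1 + E.D t a = x' + E.D t a + 1 by ring] at h3
      linarith
    · have h5 := (dconn_rc E a hR n _ _).1 h4
      rw [h0] at h5
      exact h5
  · rintro ⟨t, x', y', h1, h2, h3, h4⟩
    refine ⟨t, x' - E.D t a, y' - E.D (t + 1) a, h1, (isV_rc E a t _ _).2 ?_, ?_, ?_⟩
    · rw [sub_add_cancel, sub_add_cancel]
      exact h2
    · rw [S_rc, show x' - E.D t a + 1 + E.D t a = x' + 1 by ring]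
      linarith
    · refine (dconn_rc E a hR n _ _).2 ?_
      rw [h0]
      have h6 : tE E a (t, x' - E.D t a, y' - E.D (t + 1) a) = (t, x', y') := by
        refine Prod.ext rfl (Prod.ext ?_ ?_)
        · exact sub_add_cancel _ _
        · exact sub_add_cancel _ _
      rw [h6]
      exact h4

end regions

theorem col_rc (x y : ℤ) (w : ℕ × ℤ) :
    w ∈ (E.recentre a).col x y ↔ vE E a w ∈ E.col (x + a) (y + a) := by
  rw [mem_col, mem_col, D_rc, D_rc]
  change _ ↔ E.D w.1 (x + a) ≤ w.2 + E.D w.1 a ∧ w.2 + E.D w.1 a < E.D w.1 (y + a)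
  constructor
  · rintro ⟨h1, h2⟩
    exact ⟨by linarith, by linarith⟩
  · rintro ⟨h1, h2⟩
    exact ⟨by linarith, by linarith⟩

/-- Translation of a set. -/
def sh (c : ℤ) (A : Set ℤ) : Set ℤ := {x | x - c ∈ A}

theorem sh_H (t : ℕ) (A : Set ℤ) :
    sh (E.D t a) ((E.recentre a).H t A) = E.H t (sh (E.D t a) A) := by
  ext z
  constructor
  · rintro ⟨b, hb, h1, h2⟩
    refine ⟨b + E.D t a, ?_, fun i hi hi' => ?_, fun i hi hi' => ?_⟩
    · change b + E.D t a - E.D t a ∈ A
      rw [add_sub_cancel_right]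
      exact hb
    · have h3 := (ho_rc E a t _).1 (h1 (i - E.D t a) (by linarith) (by linarith))
      rwa [sub_add_cancel] at h3
    · have h3 := (ho_rc E a t _).1 (h2 (i - E.D t a) (by linarith) (by linarith))
      rwa [sub_add_cancel] at h3
  · rintro ⟨b, hb, h1, h2⟩
    refine ⟨b - E.D t a, hb, fun i hi hi' => ?_, fun i hi hi' => ?_⟩
    · exact (ho_rc E a t _).2 (h1 (i + E.D t a) (by linarith) (by linarith))
    · exact (ho_rc E a t _).2 (h2 (i + E.D t a) (by linarith) (by linarith))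

theorem sh_V (t : ℕ) (A : Set ℤ) :
    sh (E.D (t + 1) a) ((E.recentre a).V t A) = E.V t (sh (E.D t a) A) := by
  ext z
  constructor
  · rintro ⟨x, hx, h1, h2⟩
    refine ⟨x + E.D t a, ?_, ?_, ?_⟩
    · change x + E.D t a - E.D t a ∈ A
      rw [add_sub_cancel_right]
      exact hx
    · have h3 := (isV_rc E a t _ _).1 h1
      rwa [sub_add_cancel] at h3
    · have h3 := (vo_rc E a t _ _).1 h2
      rwa [sub_add_cancel] at h3
  · rintro ⟨x, hx, h1, h2⟩
    refine ⟨x - E.D t a, hx, ?_, ?_⟩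
    · rw [isV_rc, sub_add_cancel, sub_add_cancel]
      exact h1
    · rw [vo_rc, sub_add_cancel, sub_add_cancel]
      exact h2

theorem sh_W (t : ℕ) (A : Set ℤ) :
    sh (E.D t a) ((E.recentre a).W t A) = E.W t (sh (E.D (t + 1) a) A) := by
  ext z
  constructor
  · rintro ⟨x, hx, h1, h2⟩
    refine ⟨x + E.D (t + 1) a, ?_, ?_, ?_⟩
    · change x + E.D (t + 1) a - E.D (t + 1) a ∈ A
      rw [add_sub_cancel_right]
      exact hx
    · have h3 := (isV_rc E a t _ _).1 h1
      rwa [sub_add_cancel] at h3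
    · have h3 := (vo_rc E a t _ _).1 h2
      rwa [sub_add_cancel] at h3
  · rintro ⟨x, hx, h1, h2⟩
    refine ⟨x - E.D (t + 1) a, hx, ?_, ?_⟩
    · rw [isV_rc, sub_add_cancel, sub_add_cancel]
      exact h1
    · rw [vo_rc, sub_add_cancel, sub_add_cancel]
      exact h2

theorem sh_union (c : ℤ) (A B : Set ℤ) : sh c (A ∪ B) = sh c A ∪ sh c B := rfl

theorem sh_OS (A : Set ℤ) (n : ℕ) :
    sh (E.D n a) ((E.recentre a).OS A n) = E.OS (sh a A) n := by
  induction n with
  | zero => rfl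
  | succ n ih =>
    change sh (E.D (n + 1) a) ((E.recentre a).V n ((E.recentre a).H n ((E.recentre a).OS A n))) =
      E.V n (E.H n (E.OS (sh a A) n))
    rw [sh_V, sh_H, ih]

theorem sh_ES (A : Set ℤ) (n : ℕ) :
    sh (E.D n a) ((E.recentre a).ES A n) = E.ES (sh a A) n := by
  induction n with
  | zero => rfl
  | succ n ih =>
    change sh (E.D (n + 1) a) ((E.recentre a).V n ((E.recentre a).H n ((E.recentre a).ES A n) ∪
        (E.recentre a).W n ((E.recentre a).V n ((E.recentre a).H n ((E.recentre a).ES A n))))) =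
      E.V n (E.H n (E.ES (sh a A) n) ∪ E.W n (E.V n (E.H n (E.ES (sh a A) n))))
    rw [sh_V, sh_union, sh_W, sh_V, sh_H, ih]

theorem ps_shift (f : ℤ → ℕ) (c x : ℤ) : ps (fun x => f (x + c)) x = ps f (x + c) - ps f c := by
  induction x using Int.induction_on with
  | zero => rw [ps_zero, zero_add, sub_self]
  | succ i ih =>
    rw [ps_succ, ih, show (i : ℤ) + 1 + c = i + c + 1 by ring, ps_succ]
    ring
  | pred i ih =>
    have h1 := ps_succ (fun x => f (x + c)) (-(i : ℤ) - 1)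
    have h2 := ps_succ f (-(i : ℤ) - 1 + c)
    rw [show -(i : ℤ) - 1 + 1 = -i by ring, ih] at h1
    rw [show -(i : ℤ) - 1 + c + 1 = -i + c by ring] at h2
    linarith

end Rc

open Strip Rc

/-- RECENTRING. -/
theorem recentreS : RecentreStmt := by
  intro E a
  have huniv : ∀ w : ℕ × ℤ, w ∈ (univ : Set (ℕ × ℤ)) ↔ vE E a w ∈ (univ : Set (ℕ × ℤ)) :=
    fun w => by simp
  refine ⟨D_rc E a, ?_, ?_, ?_, ?_, ?_, ?_, ?_, ?_, ?_⟩
  · intro n x y u v
    exact conn_rc E a (col_rc E a x y) n u v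
  · intro n x y u v
    exact oconn_rc E a (col_rc E a x y) n u v
  · intro n u v
    exact oconn_rc E a huniv n u v
  · intro n A x y
    constructor
    · rintro ⟨z, w, h1, h2, h3, h4⟩
      refine ⟨z + a, w + E.D n a, ?_, by linarith, by linarith, ?_⟩
      · change z + a - a ∈ A
        rw [add_sub_cancel_right]
        exact h1
      · exact (conn_rc E a (col_rc E a x y) n _ _).1 h4
    · rintro ⟨z, w, h1, h2, h3, h4⟩
      refine ⟨z - a, w - E.D n a, h1, by linarith, by linarith, ?_⟩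
      refine (conn_rc E a (col_rc E a x y) n _ _).2 ?_
      change E.Conn n _ (0, z - a + a) (n, w - E.D n a + E.D n a)
      rw [sub_add_cancel, sub_add_cancel]
      exact h4
  · intro n x y
    constructor
    · rintro ⟨z, w, h2, h3, h4⟩
      refine ⟨z + a, w + E.D n a, by linarith, by linarith, ?_⟩
      exact (oconn_rc E a (col_rc E a x y) n _ _).1 h4
    · rintro ⟨z, w, h2, h3, h4⟩
      refine ⟨z - a, w - E.D n a, by linarith, by linarith, ?_⟩
      refine (oconn_rc E a (col_rc E a x y) n _ _).2 ?_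
      change E.OConn n _ (0, z - a + a) (n, w - E.D n a + E.D n a)
      rw [sub_add_cancel, sub_add_cancel]
      exact h4
  · intro n e
    exact dup_rc E a huniv n e
  · intro n x y e
    exact dup_rc E a (col_rc E a x y) n e
  · intro n A z
    have h := sh_OS E a A n
    have h2 : z + E.D n a ∈ sh (E.D n a) ((E.recentre a).OS A n) ↔ z ∈ (E.recentre a).OS A n := by
      change z + E.D n a - E.D n a ∈ (E.recentre a).OS A n ↔ z ∈ (E.recentre a).OS A n
      rw [add_sub_cancel_right]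
    rw [← h2, h]
    rfl
  · intro n A z
    have h := sh_ES E a A n
    have h2 : z + E.D n a ∈ sh (E.D n a) ((E.recentre a).ES A n) ↔ z ∈ (E.recentre a).ES A n := by
      change z + E.D n a - E.D n a ∈ (E.recentre a).ES A n ↔ z ∈ (E.recentre a).ES A n
      rw [add_sub_cancel_right]
    rw [← h2, h]
    rfl

theorem strip_ext {E F : Strip} (h1 : E.S = F.S) (h2 : E.vo = F.vo) (h3 : E.ho = F.ho) : E = F := by
  cases E
  cases F
  simp only at h1 h2 h3
  subst h1 h2 h3
  rfl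

/-- The random strip and the shifts. -/
theorem stripShift : StripShiftStmt := by
  refine ⟨?_, ?_, ?_, ?_⟩
  · intro p a ω
    have hps : ∀ t x, ps (xi (cshift a ω) t) x =
        ps (xi ω t) (x + (strip p ω).D t a) - (strip p ω).D (t + 1) a := by
      intro t x
      rw [strip_D, strip_D]
      exact ps_shift (xi ω t) (DD ω t a) x
    refine strip_ext ?_ ?_ ?_
    · funext t x
      exact hps t x
    · funext t x y
      change (((((cshift a ω) t x).2 ((y - ps (xi (cshift a ω) t) x).toNat + 1) : unitInterval) : ℝ) ≤ p)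
        = ((((ω t (x + (strip p ω).D t a)).2 ((y + (strip p ω).D (t + 1) a -
          ps (xi ω t) (x + (strip p ω).D t a)).toNat + 1) : unitInterval) : ℝ) ≤ p)
      rw [hps, sub_sub_eq_add_sub, add_sub_right_comm, strip_D p ω t a]
      have : y - ps (xi ω t) (x + DD ω t a) + (strip p ω).D (t + 1) a =
        y + (strip p ω).D (t + 1) a - ps (xi ω t) (x + DD ω t a) := by ring
      rw [this]
      rfl
    · funext t x
      change (((((cshift a ω) t x).2 0 : unitInterval) : ℝ) ≤ p) =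
        ((((ω t (x + (strip p ω).D t a)).2 0 : unitInterval) : ℝ) ≤ p)
      rw [strip_D]
      rfl
  · intro p s ω
    rfl
  · intro a b t ω
    induction t with
    | zero => show b = b + a - a; ring
    | succ t ih =>
      change ps (xi (cshift a ω) t) (DD (cshift a ω) t b) = _
      rw [ih]
      change ps (fun x => xi ω t (x + DD ω t a)) (DD ω t (b + a) - DD ω t a) = _
      rw [ps_shift, sub_add_cancel]
      rfl
  · intro a s t ω
    induction t with
    | zero => rfl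
    | succ t ih =>
      change ps (xi (post s ω) t) (DD (post s ω) t (DD ω s a)) = ps (xi ω (s + t)) (DD ω (s + t) a)
      rw [ih]
      rfl

end CausalPerc.Neg
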