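import Pool.Agent.Lib.MP_a51368_pr.Neg.Spec2
import Pool.Agent.Lib.MP_a51368_pr.Neg.Adapted
import Pool.Agent.Lib.MP_a51368_pr.Neg.Indep
import Pool.Agent.Lib.MP_a51368_pr.Neg.Meas
import Pool.Agent.Lib.MP_a51368_pr.Neg.ColDep
import Pool.Agent.Lib.MP_a51368_pr.Neg.Recentre

/-!
# The recursion (R1)
-/

open MeasureTheory Set Relation

noncomputable section

namespace CausalPerc.Neg

namespace R1

open Strip

variable {α : ℝ}

/-- Events seen from the line of `a` have the same probability. -/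
theorem cshift_real (h0 : 0 ≤ α) (h1 : α < 1) (a : ℤ) {F : Set Arr} (hF : MeasurableSet F) :
    (arrLaw α).real {ω | cshift a ω ∈ F} = (arrLaw α).real F := by
  have h := cshift_law adapted α h0 h1 a
  have h2 : (arrLaw α).map (cshift a) F = arrLaw α F := by rw [h]
  rw [Measure.map_apply (meas.2.1 a) hF] at h2
  unfold Measure.real
  rw [← h2]
  rfl

/-- Events of the rows `≥ s` have the same probability. -/
theorem post_real (h0 : 0 ≤ α) (h1 : α < 1) (s : ℕ) {F : Set Arr} (hF : MeasurableSet F) :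
    (arrLaw α).real {ω | post s ω ∈ F} = (arrLaw α).real F := by
  have hprob : IsProbabilityMeasure (arrLaw α) := Adapted.arr_prob h0 h1
  have h := split α h0 h1 s (fun _ η => F.indicator (fun _ => (1 : ENNReal)) η)
    ((measurable_const.indicator hF).comp measurable_snd) (fun _ _ _ _ => rfl)
  have hm : MeasurableSet {ω : Arr | post s ω ∈ F} := (meas.2.2.1 s) hF
  have e1 : ∫⁻ ω, F.indicator (fun _ => (1 : ENNReal)) (post s ω) ∂arrLaw α =
      arrLaw α {ω | post s ω ∈ F} := by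
    rw [← lintegral_indicator_one hm]
    rfl
  rw [e1, lintegral_indicator_const hF, one_mul, lintegral_const, measure_univ, mul_one] at h
  unfold Measure.real
  rw [h]

/-- A closed dual path from any edge of level `s`. -/
theorem dup_real (h0 : 0 ≤ α) (h1 : α < 1) (p : ℝ) (s n : ℕ) (z : ℤ) :
    (arrLaw α).real {ω | ((strip p ω).shift s).DUp univ n z} = uu α p n := by
  have hm : ∀ e, MeasurableSet {ω | (strip p ω).DUp univ n e} :=
    (meas.2.2.2 p n 0 0).2.2.2.2.2.2.1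
  have e1 : {ω : Arr | ((strip p ω).shift s).DUp univ n z} =
      {ω | post s ω ∈ {η | (strip p η).DUp univ n z}} := by
    ext ω
    simp only [mem_ofPred_eq]
    rw [stripShift.2.1 p s ω]
  rw [e1, post_real h0 h1 s (hm z)]
  have e2 : {ω : Arr | (strip p ω).DUp univ n z} =
      {ω | cshift z ω ∈ {η | (strip p η).DUp univ n 0}} := by
    ext ω
    simp only [mem_ofPred_eq]
    rw [stripShift.1 p z ω]
    have := (recentreS (strip p ω) z).2.2.2.2.2.2.1 n 0
    rw [this, zero_add]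
  rw [e2, cshift_real h0 h1 z (hm 0)]
  rfl

/-- `K` consecutive columns. -/
theorem cols_real (h0 : 0 ≤ α) (h1 : α < 1) (p : ℝ) (b K n : ℕ) :
    (arrLaw α).real {ω | ∀ j : ℕ, j < K → ¬ (strip p ω).Cross (j * b) ((j + 1) * b) n} =
      vv α p b n ^ K := by
  have hmC : MeasurableSet {ω | ¬ (strip p ω).Cross 0 b n} :=
    ((meas.2.2.2 p n 0 b).2.2.2.2.1 univ).compl
  have hdep : ColDep b n {ω | (strip p ω).CrossFrom univ 0 b n} :=
    (colDep p n b (by positivity)).2.1 univ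
  have h := colIndep adapted α h0 h1 (Fin K) (fun j => (j : ℤ) * b) (fun j => ((j : ℤ) + 1) * b) n
    (fun _ => {ω | ¬ (strip p ω).Cross 0 b n}.indicator fun _ => (1 : ENNReal))
    (fun j => by
      have : (0 : ℤ) ≤ b := by positivity
      nlinarith)
    (by
      intro i j hij
      have hb : (0 : ℤ) ≤ b := by positivity
      rcases lt_trichotomy i j with hlt | rfl | hlt
      · left
        have h2 : (i : ℤ) + 1 ≤ j := by
          have : (i : ℕ) < j := hlt
          exact_mod_cast this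
        exact mul_le_mul_of_nonneg_right h2 hb
      · exact absurd rfl hij
      · right
        have h2 : (j : ℤ) + 1 ≤ i := by
          have : (j : ℕ) < i := hlt
          exact_mod_cast this
        exact mul_le_mul_of_nonneg_right h2 hb)
    (fun _ => measurable_const.indicator hmC)
    (by
      intro j ω ω' hω
      have e : ((j : ℤ) + 1) * b - j * b = b := by ring
      simp only [e] at hω
      have h3 : ω ∈ {ω | (strip p ω).CrossFrom univ 0 b n} ↔
          ω' ∈ {ω | (strip p ω).CrossFrom univ 0 b n} := by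
        constructor
        · exact hdep ω ω' hω
        · refine hdep ω' ω fun t ht x hx1 hx2 => ?_
          have h4 := (colDep p t b (by positivity)).2.2.2.2.2.1 (DD ω t b) ω ω'
            (fun s hs x h5 h6 => hω s (hs.trans ht) x h5 h6) rfl
          exact (hω t ht x hx1 (by
            have h5 : DD ω' t b = DD ω t b := h4
            rw [← h5]; exact hx2)).symm
      by_cases hc : (strip p ω).Cross 0 b n
      · rw [indicator_of_notMem (by simpa using hc), indicator_of_notMem]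
        simp only [mem_ofPred_eq, not_not]
        exact h3.1 hc
      · rw [indicator_of_mem (by simpa using hc), indicator_of_mem]
        simp only [mem_ofPred_eq]
        exact fun hc' => hc (h3.2 hc'))
  have hcross : ∀ (ω : Arr) (a : ℤ), (strip p (cshift a ω)).Cross 0 b n ↔
      (strip p ω).Cross a (b + a) n := by
    intro ω a
    rw [stripShift.1 p a ω]
    have := (recentreS (strip p ω) a).2.2.2.2.1 n univ 0 b
    unfold Strip.Cross
    rw [this, zero_add]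
    have e : {z : ℤ | z - a ∈ (univ : Set ℤ)} = univ := by
      ext z
      simp
    rw [e]
  have e1 : ∀ ω : Arr, (∏ j : Fin K, {ω | ¬ (strip p ω).Cross 0 b n}.indicator
      (fun _ => (1 : ENNReal)) (cshift ((j : ℤ) * b) ω)) =
      {ω | ∀ j : ℕ, j < K → ¬ (strip p ω).Cross (j * b) ((j + 1) * b) n}.indicator
        (fun _ => 1) ω := by
    intro ω
    by_cases hω : ∀ j : ℕ, j < K → ¬ (strip p ω).Cross (j * b) ((j + 1) * b) n
    · rw [indicator_of_mem (by exact hω)]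
      refine Finset.prod_eq_one fun j _ => ?_
      rw [indicator_of_mem]
      simp only [mem_ofPred_eq]
      rw [hcross]
      have := hω j j.2
      rwa [show (b : ℤ) + ((j : ℕ) : ℤ) * b = ((j : ℕ) + 1) * b by ring]
    · rw [indicator_of_notMem (by exact hω)]
      push Not at hω
      obtain ⟨j, hj, hc⟩ := hω
      refine Finset.prod_eq_zero (Finset.mem_univ (⟨j, hj⟩ : Fin K)) ?_
      rw [indicator_of_notMem]
      simp only [mem_ofPred_eq, not_not]
      rw [hcross]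
      rwa [show (b : ℤ) + (j : ℤ) * b = (j + 1) * b by ring]
  have hmA : MeasurableSet {ω | ∀ j : ℕ, j < K → ¬ (strip p ω).Cross (j * b) ((j + 1) * b) n} := by
    have e : {ω | ∀ j : ℕ, j < K → ¬ (strip p ω).Cross (j * b) ((j + 1) * b) n} =
        ⋂ j : ℕ, ⋂ _ : j < K, {ω | (strip p ω).CrossFrom univ (j * b) ((j + 1) * b) n}ᶜ := by
      ext ω
      simp only [mem_ofPred_eq, mem_iInter, mem_compl_iff]
      rfl
    rw [e]
    exact MeasurableSet.iInter fun j => MeasurableSet.iInter fun _ =>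
      ((meas.2.2.2 p n (j * b) ((j + 1) * b)).2.2.2.2.1 univ).compl
  simp only [e1] at h
  rw [lintegral_indicator_const hmA, one_mul] at h
  simp only [lintegral_indicator_const hmC, one_mul, Finset.prod_const, Finset.card_univ,
    Fintype.card_fin] at h
  unfold vv Measure.real
  rw [h, ENNReal.toReal_pow]

/-- ... at level `s`. -/
theorem cols_real' (h0 : 0 ≤ α) (h1 : α < 1) (p : ℝ) (s b K n : ℕ) :
    (arrLaw α).real {ω | ∀ j : ℕ, j < K → ¬ ((strip p ω).shift s).Cross (j * b) ((j + 1) * b) n} =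
      vv α p b n ^ K := by
  rw [← cols_real h0 h1 p b K n]
  have hmA : MeasurableSet {ω | ∀ j : ℕ, j < K → ¬ (strip p ω).Cross (j * b) ((j + 1) * b) n} := by
    have e : {ω | ∀ j : ℕ, j < K → ¬ (strip p ω).Cross (j * b) ((j + 1) * b) n} =
        ⋂ j : ℕ, ⋂ _ : j < K, {ω | (strip p ω).CrossFrom univ (j * b) ((j + 1) * b) n}ᶜ := by
      ext ω
      simp only [mem_ofPred_eq, mem_iInter, mem_compl_iff]
      rfl
    rw [e]
    exact MeasurableSet.iInter fun j => MeasurableSet.iInter fun _ =>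
      ((meas.2.2.2 p n (j * b) ((j + 1) * b)).2.2.2.2.1 univ).compl
  rw [← post_real h0 h1 s hmA]
  congr 1

theorem DUp_mono {E : Strip} {R R' : Set (ℕ × ℤ)} {n : ℕ} {e : ℤ} (hR : R ⊆ R')
    (h : E.DUp R n e) : E.DUp R' n e := by
  obtain ⟨h1, h2, t, x', y', h3, h4, h5, h6⟩ := h
  exact ⟨h1, hR h2, t, x', y', h3, h4, h5,
    ReflTransGen.mono (fun _ _ hab => ⟨hR hab.1, hR hab.2.1, hab.2.2⟩) _ _ h6⟩

/-- Deterministic part. -/
theorem det (hCh : ChainStmt) (E : Strip) (hD0 : ∀ t, E.D t 0 = 0) {h b A : ℕ} (hh : 1 ≤ h)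
    (hb : 1 ≤ b) (hc : ¬ E.Cross 0 (4 * b : ℕ) (4 * h))
    (g0 : ¬ ∀ j : ℕ, j < 4 → ¬ E.Cross (j * b) ((j + 1) * b) (2 * h))
    (g1 : ¬ ∀ j : ℕ, j < 3 → ¬ (E.shift h).Cross (j * b) ((j + 1) * b) (2 * h))
    (g2 : ¬ ∀ j : ℕ, j < 3 → ¬ (E.shift (2 * h)).Cross (j * b) ((j + 1) * b) (2 * h))
    (w1 : ¬ E.D h (4 * b : ℕ) < 3 * b) (w2 : ¬ E.D (2 * h) (4 * b : ℕ) < 3 * b)
    (a1 : ¬ (A : ℤ) ≤ E.D h (4 * b : ℕ)) (a2 : ¬ (A : ℤ) ≤ E.D (2 * h) (4 * b : ℕ))
    (d1 : ¬ ∃ z ∈ Finset.range A, (E.shift h).DUp univ h (z : ℤ))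
    (d2 : ¬ ∃ z ∈ Finset.range A, (E.shift (2 * h)).DUp univ h (z : ℤ)) : False := by
  push Not at g0 g1 g2 w1 w2 a1 a2 d1 d2
  have hbZ : (0 : ℤ) ≤ b := by positivity
  have cross0 : E.Cross 0 (4 * b : ℕ) (2 * h) := by
    obtain ⟨j, hj, hc⟩ := g0
    refine Cross.mono (by positivity) ?_ hc
    have : (j : ℤ) + 1 ≤ 4 := by exact_mod_cast hj
    push_cast
    nlinarith
  have cross1 : (E.shift h).Cross (E.D h 0) (E.D h (4 * b : ℕ)) (2 * h) := by
    obtain ⟨j, hj, hc⟩ := g1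
    refine Cross.mono (by rw [hD0]; positivity) ?_ hc
    have : (j : ℤ) + 1 ≤ 3 := by exact_mod_cast hj
    nlinarith
  have cross2 : (E.shift (2 * h)).Cross (E.D (2 * h) 0) (E.D (2 * h) (4 * b : ℕ)) (2 * h) := by
    obtain ⟨j, hj, hc⟩ := g2
    refine Cross.mono (by rw [hD0]; positivity) ?_ hc
    have : (j : ℤ) + 1 ≤ 3 := by exact_mod_cast hj
    nlinarith
  obtain ⟨x0, y0, -, p01, p02, p03⟩ := cross0
  obtain ⟨x1, y1, -, p11, p12, p13⟩ := cross1
  obtain ⟨x2, y2, -, p21, p22, p23⟩ := cross2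
  have key := hCh E h 2 0 (4 * b : ℕ) (fun i => if i = 0 then x0 else if i = 1 then x1 else x2)
    (fun i => if i = 0 then y0 else if i = 1 then y1 else y2) hh ?_ ?_ 0 (by norm_num) 2 le_rfl
  · refine hc ⟨x0, y2, mem_univ _, p01, p02, ?_⟩
    have e1 : (2 + 2) * h = 4 * h := by ring
    rw [e1] at key
    simp only [zero_mul, if_true, if_neg (show ¬ (2 : ℕ) = 0 by norm_num),
      if_neg (show ¬ (2 : ℕ) = 1 by norm_num)] at key
    refine key.trans ?_
    have h3 := Conn.of_shift (E := E) (s := 2 * h) (R := E.col 0 (4 * b : ℕ))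
      (fun v hv => (E.mem_col_shift (s := 2 * h) (t := v.1) (x := v.2)).1 hv) p23
    have e2 : 2 * h + 2 * h = 4 * h := by ring
    simp only [add_zero, e2] at h3
    exact h3
  · intro i hi
    interval_cases i
    · simp only [zero_mul, if_true, shift_zero]
      exact ⟨p01, p02, p03⟩
    · simp only [one_mul, if_neg (show ¬ (1 : ℕ) = 0 by norm_num), if_true]
      exact ⟨p11, p12, p13⟩
    · simp only [if_neg (show ¬ (2 : ℕ) = 0 by norm_num), if_neg (show ¬ (2 : ℕ) = 1 by norm_num)]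
      exact ⟨p21, p22, p23⟩
  · intro i hi1 hi2 z hz
    have hz2 := hz.2.1
    interval_cases i
    · rw [one_mul] at hz hz2
      have h4 : 0 ≤ z ∧ z < E.D h (4 * b : ℕ) := by
        have h5 : E.D h 0 ≤ z := hz2.1
        rw [hD0] at h5
        exact ⟨h5, hz2.2⟩
      obtain ⟨k, rfl⟩ := Int.eq_ofNat_of_zero_le h4.1
      refine d1 k (Finset.mem_range.2 ?_) (DUp_mono (subset_univ _) hz)
      have := h4.2.trans a1
      exact_mod_cast this
    · have h4 : 0 ≤ z ∧ z < E.D (2 * h) (4 * b : ℕ) := by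
        have h5 : E.D (2 * h) 0 ≤ z := hz2.1
        rw [hD0] at h5
        exact ⟨h5, hz2.2⟩
      obtain ⟨k, rfl⟩ := Int.eq_ofNat_of_zero_le h4.1
      refine d2 k (Finset.mem_range.2 ?_) (DUp_mono (subset_univ _) hz)
      have := h4.2.trans a2
      exact_mod_cast this

end R1

open R1

/-- (R1) -/
theorem r1 (hCh : ChainStmt) : R1Stmt := by
  intro α p h b A h0 h1 hh hb
  have hprob : IsProbabilityMeasure (arrLaw α) := Adapted.arr_prob h0 h1
  set μ := arrLaw α with hμ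
  have hsub : {ω | ¬ (strip p ω).Cross 0 (4 * b : ℕ) (4 * h)} ⊆
      {ω | ∀ j : ℕ, j < 4 → ¬ (strip p ω).Cross (j * b) ((j + 1) * b) (2 * h)} ∪
      ({ω | ∀ j : ℕ, j < 3 → ¬ ((strip p ω).shift h).Cross (j * b) ((j + 1) * b) (2 * h)} ∪
      ({ω | ∀ j : ℕ, j < 3 → ¬ ((strip p ω).shift (2 * h)).Cross (j * b) ((j + 1) * b) (2 * h)} ∪
      ({ω | DD ω h (4 * b : ℕ) < 3 * b} ∪ ({ω | DD ω (2 * h) (4 * b : ℕ) < 3 * b} ∪
      ({ω | (A : ℤ) ≤ DD ω h (4 * b : ℕ)} ∪ ({ω | (A : ℤ) ≤ DD ω (2 * h) (4 * b : ℕ)} ∪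
      ((⋃ z ∈ Finset.range A, {ω | ((strip p ω).shift h).DUp univ h (z : ℤ)}) ∪
      (⋃ z ∈ Finset.range A, {ω | ((strip p ω).shift (2 * h)).DUp univ h (z : ℤ)})))))))) := by
    intro ω hω
    by_contra hcon
    simp only [mem_union, not_or] at hcon
    obtain ⟨c1, c2, c3, c4, c5, c6, c7, c8, c9⟩ := hcon
    refine det (A := A) hCh (strip p ω) (fun t => by rw [strip_D]; exact DD_zero ω t) hh hb hω c1 c2 c3
      ?_ ?_ ?_ ?_ ?_ ?_
    · rw [strip_D]; exact c4
    · rw [strip_D]; exact c5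
    · rw [strip_D]; exact c6
    · rw [strip_D]; exact c7
    · rintro ⟨z, hz1, hz2⟩
      exact c8 (mem_biUnion hz1 hz2)
    · rintro ⟨z, hz1, hz2⟩
      exact c9 (mem_biUnion hz1 hz2)
  have hu : ∀ s : ℕ, μ.real (⋃ z ∈ Finset.range A,
      {ω | ((strip p ω).shift s).DUp univ h (z : ℤ)}) ≤ A * uu α p h := by
    intro s
    refine (measureReal_biUnion_finset_le _ _).trans ?_
    have e : ∀ z ∈ Finset.range A, μ.real {ω | ((strip p ω).shift s).DUp univ h (z : ℤ)} =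
        uu α p h := fun z _ => dup_real h0 h1 p s h (z : ℤ)
    rw [Finset.sum_congr rfl e, Finset.sum_const, Finset.card_range, nsmul_eq_mul]
  have hle := measureReal_mono (μ := μ) hsub (measure_ne_top _ _)
  have e0 : vv α p (4 * b : ℕ) (4 * h) =
      μ.real {ω | ¬ (strip p ω).Cross 0 (4 * b : ℕ) (4 * h)} := rfl
  rw [e0]
  refine hle.trans ?_
  refine (measureReal_union_le _ _).trans ?_
  have s1 := cols_real h0 h1 p b 4 (2 * h)
  have s2 := cols_real' h0 h1 p h b 3 (2 * h)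
  have s3 := cols_real' h0 h1 p (2 * h) b 3 (2 * h)
  rw [s1]
  have t1 := measureReal_union_le (μ := μ)
    {ω | ∀ j : ℕ, j < 3 → ¬ ((strip p ω).shift h).Cross (j * b) ((j + 1) * b) (2 * h)}
      ({ω | ∀ j : ℕ, j < 3 → ¬ ((strip p ω).shift (2 * h)).Cross (j * b) ((j + 1) * b) (2 * h)} ∪
      ({ω | DD ω h (4 * b : ℕ) < 3 * b} ∪ ({ω | DD ω (2 * h) (4 * b : ℕ) < 3 * b} ∪
      ({ω | (A : ℤ) ≤ DD ω h (4 * b : ℕ)} ∪ ({ω | (A : ℤ) ≤ DD ω (2 * h) (4 * b : ℕ)} ∪
      ((⋃ z ∈ Finset.range A, {ω | ((strip p ω).shift h).DUp univ h (z : ℤ)}) ∪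
      (⋃ z ∈ Finset.range A, {ω | ((strip p ω).shift (2 * h)).DUp univ h (z : ℤ)})))))))
  have t2 := measureReal_union_le (μ := μ)
      {ω | ∀ j : ℕ, j < 3 → ¬ ((strip p ω).shift (2 * h)).Cross (j * b) ((j + 1) * b) (2 * h)}
      ({ω | DD ω h (4 * b : ℕ) < 3 * b} ∪ ({ω | DD ω (2 * h) (4 * b : ℕ) < 3 * b} ∪
      ({ω | (A : ℤ) ≤ DD ω h (4 * b : ℕ)} ∪ ({ω | (A : ℤ) ≤ DD ω (2 * h) (4 * b : ℕ)} ∪
      ((⋃ z ∈ Finset.range A, {ω | ((strip p ω).shift h).DUp univ h (z : ℤ)}) ∪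
      (⋃ z ∈ Finset.range A, {ω | ((strip p ω).shift (2 * h)).DUp univ h (z : ℤ)}))))))
  have t3 := measureReal_union_le (μ := μ)
      {ω | DD ω h (4 * b : ℕ) < 3 * b} ({ω | DD ω (2 * h) (4 * b : ℕ) < 3 * b} ∪
      ({ω | (A : ℤ) ≤ DD ω h (4 * b : ℕ)} ∪ ({ω | (A : ℤ) ≤ DD ω (2 * h) (4 * b : ℕ)} ∪
      ((⋃ z ∈ Finset.range A, {ω | ((strip p ω).shift h).DUp univ h (z : ℤ)}) ∪
      (⋃ z ∈ Finset.range A, {ω | ((strip p ω).shift (2 * h)).DUp univ h (z : ℤ)})))))
  have t4 := measureReal_union_le (μ := μ)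
      {ω | DD ω (2 * h) (4 * b : ℕ) < 3 * b}
      ({ω | (A : ℤ) ≤ DD ω h (4 * b : ℕ)} ∪ ({ω | (A : ℤ) ≤ DD ω (2 * h) (4 * b : ℕ)} ∪
      ((⋃ z ∈ Finset.range A, {ω | ((strip p ω).shift h).DUp univ h (z : ℤ)}) ∪
      (⋃ z ∈ Finset.range A, {ω | ((strip p ω).shift (2 * h)).DUp univ h (z : ℤ)}))))
  have t5 := measureReal_union_le (μ := μ)
      {ω | (A : ℤ) ≤ DD ω h (4 * b : ℕ)} ({ω | (A : ℤ) ≤ DD ω (2 * h) (4 * b : ℕ)} ∪
      ((⋃ z ∈ Finset.range A, {ω | ((strip p ω).shift h).DUp univ h (z : ℤ)}) ∪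
      (⋃ z ∈ Finset.range A, {ω | ((strip p ω).shift (2 * h)).DUp univ h (z : ℤ)})))
  have t6 := measureReal_union_le (μ := μ) {ω | (A : ℤ) ≤ DD ω (2 * h) (4 * b : ℕ)}
      ((⋃ z ∈ Finset.range A, {ω | ((strip p ω).shift h).DUp univ h (z : ℤ)}) ∪
      (⋃ z ∈ Finset.range A, {ω | ((strip p ω).shift (2 * h)).DUp univ h (z : ℤ)}))
  have t7 := measureReal_union_le (μ := μ)
      (⋃ z ∈ Finset.range A, {ω | ((strip p ω).shift h).DUp univ h (z : ℤ)})
      (⋃ z ∈ Finset.range A, {ω | ((strip p ω).shift (2 * h)).DUp univ h (z : ℤ)})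
  have u1 := hu h
  have u2 := hu (2 * h)
  rw [s2] at t1
  rw [s3] at t2
  linarith

end CausalPerc.Neg
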