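import Pool.Agent.Lib.MP_a51368_pr.Neg.Spec2
import Pool.Agent.Lib.MP_a51368_pr.Meas

/-!
# Module P14: the recursion (R2)
-/

open MeasureTheory Set Relation

noncomputable section

namespace CausalPerc.Neg

namespace R2X

theorem arr_prob {α : ℝ} (h0 : 0 ≤ α) (h1 : α < 1) : IsProbabilityMeasure (arrLaw α) := by
  have := geo_prob h0 h1
  have h2 : IsProbabilityMeasure (ndLaw α) := by
    unfold ndLaw
    infer_instance
  have h3 : IsProbabilityMeasure (rowLaw α) := by
    unfold rowLaw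
    infer_instance
  unfold arrLaw
  infer_instance

theorem dup_mono {E : Strip} {R R' : Set (ℕ × ℤ)} (hR : R ⊆ R') {n : ℕ} {e : ℤ}
    (h : E.DUp R n e) : E.DUp R' n e := by
  obtain ⟨h1, h2, t, x, y, h3, h4, h5, h6⟩ := h
  refine ⟨h1, hR h2, t, x, y, h3, h4, h5, ?_⟩
  exact ReflTransGen.mono (fun _ _ hab => ⟨hR hab.1, hR hab.2.1, hab.2.2⟩) _ _ h6

theorem DD_row {n : ℕ} {ω ω' : Arr} (h : ∀ t < n, ω t = ω' t) (a : ℤ) {m : ℕ} (hm : m ≤ n) :
    DD ω m a = DD ω' m a := by
  induction m with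
  | zero => rfl
  | succ m ih =>
    show ps (xi ω m) (DD ω m a) = ps (xi ω' m) (DD ω' m a)
    have h1 : xi ω m = xi ω' m := by
      unfold xi
      rw [h m (by omega)]
    rw [ih (by omega), h1]

theorem cross_shift (hSS : StripShiftStmt) (hRc : RecentreStmt) (p : ℝ) (a : ℤ) (ω : Arr)
    (x y : ℤ) (n : ℕ) :
    (strip p (cshift a ω)).Cross x y n ↔ (strip p ω).Cross (x + a) (y + a) n := by
  rw [hSS.1 p a ω]
  unfold Strip.Cross
  rw [(hRc (strip p ω) a).2.2.2.2.1 n univ x y]
  simp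

theorem dup_shift (hSS : StripShiftStmt) (hRc : RecentreStmt) (p : ℝ) (a : ℤ) (ω : Arr)
    (n : ℕ) (e : ℤ) :
    (strip p (cshift a ω)).DUp univ n e ↔ (strip p ω).DUp univ n (e + a) := by
  rw [hSS.1 p a ω]
  exact (hRc (strip p ω) a).2.2.2.2.2.2.1 n e

theorem dup_law (hM : MeasStmt) (hSS : StripShiftStmt) (hRc : RecentreStmt) (hCs : CshiftStmt)
    {α : ℝ} (h0 : 0 ≤ α) (h1 : α < 1) (p : ℝ) (n : ℕ) (y : ℤ) :
    arrLaw α {ω | (strip p ω).DUp univ n y} = arrLaw α {ω | (strip p ω).DUp univ n 0} := by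
  conv_rhs => rw [← hCs α h0 h1 y]
  rw [Measure.map_apply (hM.2.1 y) ((hM.2.2.2 p n 0 0).2.2.2.2.2.2.1 0)]
  congr 1
  ext ω
  simp only [mem_preimage, mem_ofPred_eq]
  rw [dup_shift hSS hRc p y ω n 0, zero_add]

theorem cross_meas (hM : MeasStmt) (p : ℝ) (n : ℕ) (a b : ℤ) :
    MeasurableSet {ω | (strip p ω).Cross a b n} := (hM.2.2.2 p n a b).2.2.2.2.1 univ

theorem DD_zero (ω : Arr) (t : ℕ) : DD ω t 0 = 0 := by
  induction t with
  | zero => rfl
  | succ t ih =>
    show ps (xi ω t) (DD ω t 0) = 0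
    rw [ih, ps_zero]

/-- Independent columns. -/
theorem columns (hM : MeasStmt) (hSS : StripShiftStmt) (hRc : RecentreStmt) (hCD : ColDepStmt)
    (hCI : ColIndepStmt) {α : ℝ} (h0 : 0 ≤ α) (h1 : α < 1) (p : ℝ) (K W N : ℕ) (s : ℤ) :
    arrLaw α {ω | ∀ j : Fin K, ¬ (strip p ω).Cross (s + (j : ℕ) * W) (s + ((j : ℕ) + 1) * W) N} =
      (arrLaw α {ω | ¬ (strip p ω).Cross 0 W N}) ^ K := by
  classical
  have hms : MeasurableSet {ω | ¬ (strip p ω).Cross 0 W N} := (cross_meas hM p N 0 W).compl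
  have key := hCI α h0 h1 (Fin K) (fun j => s + ((j : ℕ) : ℤ) * W)
    (fun j => s + (((j : ℕ) : ℤ) + 1) * W) N
    (fun _ => Set.indicator {ω | ¬ (strip p ω).Cross 0 W N} (fun _ => (1 : ENNReal)))
    (by
      intro j
      have : (0 : ℤ) ≤ W := Nat.cast_nonneg _
      nlinarith)
    (by
      intro i j hij
      have hW : (0 : ℤ) ≤ W := Nat.cast_nonneg _
      have h3 : (i : ℕ) ≠ j := fun h => hij (Fin.ext h)
      rcases lt_or_gt_of_ne h3 with h4 | h4
      · left
        have h5 : ((i : ℕ) : ℤ) + 1 ≤ ((j : ℕ) : ℤ) := by exact_mod_cast h4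
        have := mul_le_mul_of_nonneg_right h5 hW
        linarith
      · right
        have h5 : ((j : ℕ) : ℤ) + 1 ≤ ((i : ℕ) : ℤ) := by exact_mod_cast h4
        have := mul_le_mul_of_nonneg_right h5 hW
        linarith)
    (by
      intro j
      exact measurable_const.indicator hms)
    (by
      intro j ω ω' hag
      have hb : s + (((j : ℕ) : ℤ) + 1) * W - (s + ((j : ℕ) : ℤ) * W) = (W : ℤ) := by ring
      simp only [hb] at hag
      have hdep : ColDep (W : ℤ) N {ω | (strip p ω).CrossFrom univ 0 W N} :=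
        (hCD p N W (Nat.cast_nonneg _)).2.1 univ
      have hD : ∀ t ≤ N, DD ω t (W : ℤ) = DD ω' t (W : ℤ) := by
        intro t ht
        have h4 := (hCD p t W (Nat.cast_nonneg _)).2.2.2.2.2.1 (DD ω t (W : ℤ))
        exact (h4 ω ω' (fun t' ht' x hx1 hx2 => hag t' (by omega) x hx1 hx2) rfl).symm
      have hag' : ∀ t < N, ∀ x, 0 ≤ x → x < DD ω' t (W : ℤ) → ω' t x = ω t x := by
        intro t ht x hx1 hx2
        rw [← hD t ht.le] at hx2
        exact (hag t ht x hx1 hx2).symm
      have h5 : (strip p ω).Cross 0 W N ↔ (strip p ω').Cross 0 W N :=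
        ⟨fun h => hdep ω ω' hag h, fun h => hdep ω' ω hag' h⟩
      by_cases h6 : (strip p ω).Cross 0 W N
      · rw [Set.indicator_of_notMem (by simpa using h6),
          Set.indicator_of_notMem (by simpa using h5.1 h6)]
      · rw [Set.indicator_of_mem (by simpa using h6),
          Set.indicator_of_mem (by simpa using fun h => h6 (h5.2 h))])
  have hr : ∏ _j : Fin K, ∫⁻ ω, Set.indicator {ω | ¬ (strip p ω).Cross 0 W N}
      (fun _ => (1 : ENNReal)) ω ∂arrLaw α = (arrLaw α {ω | ¬ (strip p ω).Cross 0 W N}) ^ K := by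
    rw [Finset.prod_const, Finset.card_univ, Fintype.card_fin, lintegral_indicator hms]
    simp
  rw [hr] at key
  rw [← key]
  have hms2 : MeasurableSet {ω | ∀ j : Fin K,
      ¬ (strip p ω).Cross (s + (j : ℕ) * W) (s + ((j : ℕ) + 1) * W) N} := by
    have : {ω | ∀ j : Fin K, ¬ (strip p ω).Cross (s + (j : ℕ) * W) (s + ((j : ℕ) + 1) * W) N} =
        ⋂ j : Fin K, {ω | (strip p ω).Cross (s + (j : ℕ) * W) (s + ((j : ℕ) + 1) * W) N}ᶜ := by
      ext ω
      simp
    rw [this]
    exact MeasurableSet.iInter fun j => (cross_meas hM p N _ _).compl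
  have hfun : (fun ω => ∏ j : Fin K, Set.indicator {ω | ¬ (strip p ω).Cross 0 W N}
      (fun _ => (1 : ENNReal)) (cshift (s + ((j : ℕ) : ℤ) * W) ω)) =
      Set.indicator {ω | ∀ j : Fin K,
        ¬ (strip p ω).Cross (s + (j : ℕ) * W) (s + ((j : ℕ) + 1) * W) N} (fun _ => 1) := by
    funext ω
    have h7 : ∀ j : Fin K, Set.indicator {ω | ¬ (strip p ω).Cross 0 W N}
        (fun _ => (1 : ENNReal)) (cshift (s + ((j : ℕ) : ℤ) * W) ω) =
        if ¬ (strip p ω).Cross (s + (j : ℕ) * W) (s + ((j : ℕ) + 1) * W) N then 1 else 0 := by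
      intro j
      rw [Set.indicator_apply]
      have h8 := cross_shift hSS hRc p (s + ((j : ℕ) : ℤ) * W) ω 0 W N
      have h9 : (0 : ℤ) + (s + ((j : ℕ) : ℤ) * W) = s + (j : ℕ) * W := by ring
      have h10 : (W : ℤ) + (s + ((j : ℕ) : ℤ) * W) = s + ((j : ℕ) + 1) * W := by ring
      rw [h9, h10] at h8
      simp only [mem_ofPred_eq, h8]
    rw [Finset.prod_congr rfl (fun j _ => h7 j), Finset.prod_ite_zero, Set.indicator_apply]
    simp
  rw [hfun, lintegral_indicator hms2]
  simp

end R2X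

open R2X

theorem r2 (hC : ConfineStmt) (hF : DFirstStmt) (hL : DLastStmt) (hM : MeasStmt)
    (hCD : ColDepStmt) (hSS : StripShiftStmt) (hRc : RecentreStmt) (hCs : CshiftStmt)
    (hCI : ColIndepStmt) (hSp : SplitStmt) : R2Stmt := by
  classical
  intro α p n W K A h0 h1 hn hW
  have := arr_prob h0 h1
  set μ := arrLaw α with hμ
  set l : Arr → ℤ := fun ω => DD ω n (-((K * W : ℕ) : ℤ)) with hl
  set r : Arr → ℤ := fun ω => DD ω n (1 + ((K * W : ℕ) : ℤ)) with hr
  have hlm : Measurable l := hM.1 n _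
  have hrm : Measurable r := hM.1 n _
  set SU : Set Arr := {ω | (strip p ω).DUp univ (2 * n) 0} with hSU
  set Sn : Set Arr := {ω | (strip p ω).DUp univ n 0} with hSn
  set RF : Set Arr := {ω | ∀ j : Fin K,
    ¬ (strip p ω).Cross (1 + (j : ℕ) * W) (1 + ((j : ℕ) + 1) * W) (2 * n)} with hRF
  set LF : Set Arr := {ω | ∀ j : Fin K, ¬ (strip p ω).Cross (-((K * W : ℕ) : ℤ) + (j : ℕ) * W)
    (-((K * W : ℕ) : ℤ) + ((j : ℕ) + 1) * W) (2 * n)} with hLF
  set G : Set Arr := {ω | ω ∈ Sn ∧ r ω - l ω < A ∧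
    ∃ y, l ω ≤ y ∧ y < r ω ∧ (strip p (post n ω)).DUp univ n y} with hG
  set B : Set Arr := {ω | (A : ℤ) ≤ r ω - l ω} with hB
  -- deterministic inclusion
  have hincl : SU ⊆ ((RF ∪ LF) ∪ G) ∪ B := by
    intro ω hω
    by_contra hno
    simp only [mem_union, not_or] at hno
    obtain ⟨⟨⟨h2, h3⟩, h4⟩, h5⟩ := hno
    simp only [hRF, hLF, mem_ofPred_eq, not_forall, not_not] at h2 h3
    obtain ⟨j, hj⟩ := h2
    obtain ⟨i, hi⟩ := h3
    have hWz : (0 : ℤ) ≤ W := Nat.cast_nonneg _
    have hjK : ((j : ℕ) : ℤ) + 1 ≤ K := by exact_mod_cast j.2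
    have hiK : ((i : ℕ) : ℤ) + 1 ≤ K := by exact_mod_cast i.2
    have hj0 : (0 : ℤ) ≤ ((j : ℕ) : ℤ) := Nat.cast_nonneg _
    have hi0 : (0 : ℤ) ≤ ((i : ℕ) : ℤ) := Nat.cast_nonneg _
    have e1 := mul_le_mul_of_nonneg_right hjK hWz
    have e2 := mul_le_mul_of_nonneg_right hiK hWz
    have e3 := mul_nonneg hj0 hWz
    have e4 := mul_nonneg hi0 hWz
    have hdu := hC (strip p ω) (2 * n) _ _ _ _ 0 (by push_cast; linarith) (by linarith) hi hj hω
    have hsub : (strip p ω).col (-((K * W : ℕ) : ℤ) + (i : ℕ) * W) (1 + ((j : ℕ) + 1) * W) ⊆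
        (strip p ω).col (-((K * W : ℕ) : ℤ)) (1 + ((K * W : ℕ) : ℤ)) :=
      (strip p ω).col_mono (by linarith) (by push_cast; linarith)
    have hdu2 := dup_mono hsub hdu
    rw [two_mul] at hdu2
    have hd1 := dup_mono (subset_univ _) (hF (strip p ω) _ n (n + n) 0 hn (by omega) hdu2)
    obtain ⟨y, hy1, hy2, -⟩ := hL (strip p ω) _ n n 0 hn hdu2
    have hy3 := dup_mono (subset_univ _) hy2
    rw [← hSS.2.1 p n ω] at hy3
    rw [Strip.mem_col, strip_D, strip_D] at hy1
    apply h4
    refine ⟨hd1, ?_, y, hy1.1, hy1.2, hy3⟩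
    simp only [hB, mem_ofPred_eq, not_le] at h5
    exact h5
  -- the columns
  have hcol : ∀ s : ℤ, μ.real {ω | ∀ j : Fin K,
      ¬ (strip p ω).Cross (s + (j : ℕ) * W) (s + ((j : ℕ) + 1) * W) (2 * n)} =
      vv α p W (2 * n) ^ K := by
    intro s
    unfold vv Measure.real
    rw [columns hM hSS hRc hCD hCI h0 h1 p K W (2 * n) s, ENNReal.toReal_pow]
  have hRFm : μ.real RF = vv α p W (2 * n) ^ K := hcol 1
  have hLFm : μ.real LF = vv α p W (2 * n) ^ K := hcol _
  -- the number of edges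
  have hBm : μ.real B = μ.real {ω | (A : ℤ) ≤ DD ω n (1 + 2 * K * W : ℕ)} := by
    unfold Measure.real
    congr 1
    have hms : MeasurableSet {ω : Arr | (A : ℤ) ≤ DD ω n (1 + 2 * K * W : ℕ)} :=
      measurableSet_le measurable_const (hM.1 n _)
    rw [hμ]
    conv_rhs => rw [← hCs α h0 h1 (-((K * W : ℕ) : ℤ))]
    rw [Measure.map_apply (hM.2.1 _) hms]
    congr 1
    ext ω
    simp only [hB, mem_preimage, mem_ofPred_eq]
    rw [hSS.2.2.1 (-((K * W : ℕ) : ℤ)) ((1 + 2 * K * W : ℕ) : ℤ) n ω]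
    have h2 : ((1 + 2 * K * W : ℕ) : ℤ) + -((K * W : ℕ) : ℤ) = 1 + ((K * W : ℕ) : ℤ) := by
      push_cast
      ring
    rw [h2]
  -- the main term
  have hGm : μ G ≤ A * μ Sn * μ Sn := by
    set T : Set (Arr × Arr) := {q | q.1 ∈ Sn ∧ r q.1 - l q.1 < A ∧
      ∃ y, l q.1 ≤ y ∧ y < r q.1 ∧ (strip p q.2).DUp univ n y} with hT
    have hSnm : MeasurableSet Sn := (hM.2.2.2 p n 0 0).2.2.2.2.2.2.1 0
    have hTm : MeasurableSet T := by
      have e1 : MeasurableSet {q : Arr × Arr | q.1 ∈ Sn} := measurable_fst hSnm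
      have e2 : MeasurableSet {q : Arr × Arr | r q.1 - l q.1 < A} :=
        measurableSet_lt ((hrm.comp measurable_fst).sub (hlm.comp measurable_fst))
          measurable_const
      have e3 : MeasurableSet {q : Arr × Arr |
          ∃ y, l q.1 ≤ y ∧ y < r q.1 ∧ (strip p q.2).DUp univ n y} := by
        have : {q : Arr × Arr | ∃ y, l q.1 ≤ y ∧ y < r q.1 ∧ (strip p q.2).DUp univ n y} =
            ⋃ y : ℤ, (({q : Arr × Arr | l q.1 ≤ y} ∩ {q : Arr × Arr | y < r q.1}) ∩
              {q : Arr × Arr | (strip p q.2).DUp univ n y}) := by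
          ext q
          simp only [mem_iUnion, mem_inter_iff, mem_ofPred_eq]
          constructor
          · rintro ⟨y, g1, g2, g3⟩
            exact ⟨y, ⟨g1, g2⟩, g3⟩
          · rintro ⟨y, ⟨g1, g2⟩, g3⟩
            exact ⟨y, g1, g2, g3⟩
        rw [this]
        refine MeasurableSet.iUnion fun y => ?_
        refine ((measurableSet_le (hlm.comp measurable_fst) measurable_const).inter
          (measurableSet_lt measurable_const (hrm.comp measurable_fst))).inter ?_
        exact measurable_snd ((hM.2.2.2 p n 0 0).2.2.2.2.2.2.1 y)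
      have : T = ({q : Arr × Arr | q.1 ∈ Sn} ∩ {q : Arr × Arr | r q.1 - l q.1 < A}) ∩
          {q : Arr × Arr | ∃ y, l q.1 ≤ y ∧ y < r q.1 ∧ (strip p q.2).DUp univ n y} := by
        ext q
        simp only [hT, mem_inter_iff, mem_ofPred_eq]
        tauto
      rw [this]
      exact (e1.inter e2).inter e3
    have hsplit := hSp α h0 h1 n (fun ω η => T.indicator (fun _ => (1 : ENNReal)) (ω, η))
      (by
        have : (Function.uncurry fun ω η => T.indicator (fun _ => (1 : ENNReal)) (ω, η)) =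
            T.indicator (fun _ => (1 : ENNReal)) := by
          funext q
          rfl
        rw [this]
        exact measurable_const.indicator hTm)
      (by
        intro ω ω' η hag
        have g1 : l ω = l ω' := DD_row hag _ le_rfl
        have g2 : r ω = r ω' := DD_row hag _ le_rfl
        have g3 : ω ∈ Sn ↔ ω' ∈ Sn :=
          ⟨(hCD p n 0 le_rfl).2.2.2.2.2.2.2.2.1 0 ω ω' hag,
            (hCD p n 0 le_rfl).2.2.2.2.2.2.2.2.1 0 ω' ω (fun t ht => (hag t ht).symm)⟩
        have g4 : (ω, η) ∈ T ↔ (ω', η) ∈ T := by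
          simp only [hT, mem_ofPred_eq]
          rw [g1, g2, g3]
        simp only [Set.indicator_apply, g4])
    have hGT : μ G = ∫⁻ ω, T.indicator (fun _ => (1 : ENNReal)) (ω, post n ω) ∂μ := by
      have hmp : Measurable fun ω : Arr => (ω, post n ω) := measurable_id.prodMk (hM.2.2.1 n)
      have e1 : (fun ω : Arr => T.indicator (fun _ => (1 : ENNReal)) (ω, post n ω)) =
          G.indicator (fun _ => 1) := by
        funext ω
        have : (ω, post n ω) ∈ T ↔ ω ∈ G := Iff.rfl
        simp only [Set.indicator_apply, this]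
      have hGmeas : MeasurableSet G := hmp hTm
      rw [e1, lintegral_indicator hGmeas]
      simp
    rw [hGT, hsplit]
    have hin : ∀ ω, ∫⁻ η, T.indicator (fun _ => (1 : ENNReal)) (ω, η) ∂μ ≤
        (A * μ Sn) * Sn.indicator (fun _ => 1) ω := by
      intro ω
      by_cases hc : ω ∈ Sn ∧ r ω - l ω < A
      · have hsub : ∀ η, T.indicator (fun _ => (1 : ENNReal)) (ω, η) ≤
            ∑ y ∈ Finset.Ico (l ω) (r ω),
              {η | (strip p η).DUp univ n y}.indicator (fun _ => (1 : ENNReal)) η := by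
          intro η
          by_cases hq : (ω, η) ∈ T
          · rw [Set.indicator_of_mem hq]
            obtain ⟨-, -, y, g1, g2, g3⟩ := hq
            have hy : y ∈ Finset.Ico (l ω) (r ω) := Finset.mem_Ico.2 ⟨g1, g2⟩
            have g3' : η ∈ {η | (strip p η).DUp univ n y} := g3
            calc (1 : ENNReal) =
                {η | (strip p η).DUp univ n y}.indicator (fun _ => (1 : ENNReal)) η := by
                  rw [Set.indicator_of_mem g3']
              _ ≤ _ := Finset.single_le_sum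
                  (f := fun y => {η | (strip p η).DUp univ n y}.indicator
                    (fun _ => (1 : ENNReal)) η) (fun _ _ => zero_le) hy
          · rw [Set.indicator_of_notMem hq]
            exact zero_le
        calc ∫⁻ η, T.indicator (fun _ => (1 : ENNReal)) (ω, η) ∂μ
            ≤ ∫⁻ η, ∑ y ∈ Finset.Ico (l ω) (r ω),
              {η | (strip p η).DUp univ n y}.indicator (fun _ => (1 : ENNReal)) η ∂μ :=
              lintegral_mono hsub
          _ = ∑ y ∈ Finset.Ico (l ω) (r ω), μ Sn := by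
              rw [lintegral_finsetSum]
              · apply Finset.sum_congr rfl
                intro y _
                rw [lintegral_indicator ((hM.2.2.2 p n 0 0).2.2.2.2.2.2.1 y)]
                simp only [lintegral_const, one_mul, Measure.restrict_apply MeasurableSet.univ,
                  univ_inter]
                exact dup_law hM hSS hRc hCs h0 h1 p n y
              · intro y _
                exact measurable_const.indicator ((hM.2.2.2 p n 0 0).2.2.2.2.2.2.1 y)
          _ = ((r ω - l ω).toNat : ENNReal) * μ Sn := by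
              rw [Finset.sum_const, Int.card_Ico, nsmul_eq_mul]
          _ ≤ (A : ENNReal) * μ Sn := by
              gcongr
              have : (r ω - l ω).toNat ≤ A := by omega
              exact_mod_cast this
          _ = (A * μ Sn) * Sn.indicator (fun _ => 1) ω := by
              rw [Set.indicator_of_mem hc.1, mul_one]
      · have hz : ∀ η, T.indicator (fun _ => (1 : ENNReal)) (ω, η) = 0 := by
          intro η
          apply Set.indicator_of_notMem
          rintro ⟨g1, g2, -⟩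
          exact hc ⟨g1, g2⟩
        simp only [hz, lintegral_zero]
        exact zero_le
    calc ∫⁻ ω, ∫⁻ η, T.indicator (fun _ => (1 : ENNReal)) (ω, η) ∂μ ∂μ
        ≤ ∫⁻ ω, (A * μ Sn) * Sn.indicator (fun _ => 1) ω ∂μ := lintegral_mono hin
      _ = (A * μ Sn) * ∫⁻ ω, Sn.indicator (fun _ => 1) ω ∂μ := by
          rw [lintegral_const_mul _ (measurable_const.indicator hSnm)]
      _ = A * μ Sn * μ Sn := by
          rw [lintegral_indicator hSnm]
          simp
  have hGr : μ.real G ≤ A * uu α p n ^ 2 := by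
    have h2 : (A * μ Sn * μ Sn).toReal = A * uu α p n ^ 2 := by
      rw [ENNReal.toReal_mul, ENNReal.toReal_mul, ENNReal.toReal_natCast]
      unfold uu Measure.real
      ring
    rw [← h2]
    apply ENNReal.toReal_mono _ hGm
    have h3 : μ Sn ≠ ⊤ := measure_ne_top _ _
    exact ENNReal.mul_ne_top (ENNReal.mul_ne_top (ENNReal.natCast_ne_top A) h3) h3
  calc uu α p (2 * n) = μ.real SU := rfl
    _ ≤ μ.real (((RF ∪ LF) ∪ G) ∪ B) := measureReal_mono hincl
    _ ≤ ((μ.real RF + μ.real LF) + μ.real G) + μ.real B := by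
        refine (measureReal_union_le _ _).trans ?_
        gcongr
        refine (measureReal_union_le _ _).trans ?_
        gcongr
        exact measureReal_union_le _ _
    _ ≤ 2 * vv α p W (2 * n) ^ K + A * uu α p n ^ 2 +
        μ.real {ω | (A : ℤ) ≤ DD ω n (1 + 2 * K * W : ℕ)} := by
        rw [hRFm, hLFm, ← hBm]
        linarith

end CausalPerc.Neg
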