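import Pool.Agent.Lib.MP_a51368_pr.Neg.Spec2
import Pool.Agent.Lib.MP_a51368_pr.Neg.Meas
import Pool.Agent.Lib.MP_a51368_pr.Neg.ColDep
import Pool.Agent.Lib.MP_a51368_pr.Neg.Recentre
import Pool.Agent.Lib.MP_a51368_pr.Neg.Adapted

open MeasureTheory ProbabilityTheory Set Filter Topology
open scoped ENNReal

noncomputable section

namespace CausalPerc.Neg

namespace Rn

open MeasAux


theorem sSup_eq_iff (S : Set ℤ) (z : ℤ) : sSup S = z ↔ (z ∈ S ∧ ∀ y, z < y → y ∉ S) ∨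
    ((¬ ∃ x, x ∈ S ∧ ∀ y, x < y → y ∉ S) ∧ z = 0) := by
  have key : ∀ x, (x ∈ S ∧ ∀ y, x < y → y ∉ S) ↔ IsGreatest S x := by
    intro x
    constructor
    · rintro ⟨h1, h2⟩
      exact ⟨h1, fun y hy => not_lt.1 fun h => h2 y h hy⟩
    · rintro ⟨h1, h2⟩
      exact ⟨h1, fun y hy hyS => absurd (h2 hyS) (not_le.2 hy)⟩
  simp only [key]
  by_cases h : ∃ x, IsGreatest S x
  · obtain ⟨x, hx⟩ := h
    rw [hx.csSup_eq]
    constructor
    · rintro rfl
      exact Or.inl hx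
    · rintro (h | ⟨h, _⟩)
      · exact hx.unique h
      · exact absurd ⟨x, hx⟩ h
  · have h0 : sSup S = 0 := by
      rcases S.eq_empty_or_nonempty with hS | hS
      · rw [hS]; exact Int.csSup_empty
      · by_cases hb : BddAbove S
        · exact absurd ⟨sSup S, Int.csSup_mem hS hb, fun y hy => le_csSup hb hy⟩ h
        · exact Int.csSup_of_not_bddAbove hb
    rw [h0]
    constructor
    · rintro rfl
      exact Or.inr ⟨h, rfl⟩
    · rintro (h1 | ⟨_, h1⟩)
      · exact absurd ⟨z, h1⟩ h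
      · exact h1.symm

theorem sInf_eq_iff (S : Set ℤ) (z : ℤ) : sInf S = z ↔ (z ∈ S ∧ ∀ y, y < z → y ∉ S) ∨
    ((¬ ∃ x, x ∈ S ∧ ∀ y, y < x → y ∉ S) ∧ z = 0) := by
  have key : ∀ x, (x ∈ S ∧ ∀ y, y < x → y ∉ S) ↔ IsLeast S x := by
    intro x
    constructor
    · rintro ⟨h1, h2⟩
      exact ⟨h1, fun y hy => not_lt.1 fun h => h2 y h hy⟩
    · rintro ⟨h1, h2⟩
      exact ⟨h1, fun y hy hyS => absurd (h2 hyS) (not_le.2 hy)⟩
  simp only [key]
  by_cases h : ∃ x, IsLeast S x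
  · obtain ⟨x, hx⟩ := h
    rw [hx.csInf_eq]
    constructor
    · rintro rfl
      exact Or.inl hx
    · rintro (h | ⟨h, _⟩)
      · exact hx.unique h
      · exact absurd ⟨x, hx⟩ h
  · have h0 : sInf S = 0 := by
      rcases S.eq_empty_or_nonempty with hS | hS
      · rw [hS]; exact Int.csInf_empty
      · by_cases hb : BddBelow S
        · exact absurd ⟨sInf S, Int.csInf_mem hS hb, fun y hy => csInf_le hb hy⟩ h
        · exact Int.csInf_of_not_bddBelow hb
    rw [h0]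
    constructor
    · rintro rfl
      exact Or.inr ⟨h, rfl⟩
    · rintro (h1 | ⟨_, h1⟩)
      · exact absurd ⟨z, h1⟩ h
      · exact h1.symm

theorem meas_sSup {A : Arr → Set ℤ} (hA : MI A) : Measurable fun ω => sSup (A ω) := by
  refine measurable_to_countable' fun z => ?_
  have h : (fun ω => sSup (A ω)) ⁻¹' {z} = {ω | (z ∈ A ω ∧ ∀ y, z < y → y ∉ A ω) ∨
      ((¬ ∃ x, x ∈ A ω ∧ ∀ y, x < y → y ∉ A ω) ∧ z = 0)} := by
    ext ω
    exact sSup_eq_iff (A ω) z
  rw [h]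
  refine measurableSet_setOfPred.2 ?_
  have h1 : ∀ x, Measurable fun ω => x ∈ A ω ∧ ∀ y, x < y → y ∉ A ω := fun x =>
    (hA x).and (Measurable.forall fun y => mc.imp (hA y).not)
  exact (h1 z).or (((Measurable.exists h1).not).and mc)

theorem meas_sInf {A : Arr → Set ℤ} (hA : MI A) : Measurable fun ω => sInf (A ω) := by
  refine measurable_to_countable' fun z => ?_
  have h : (fun ω => sInf (A ω)) ⁻¹' {z} = {ω | (z ∈ A ω ∧ ∀ y, y < z → y ∉ A ω) ∨
      ((¬ ∃ x, x ∈ A ω ∧ ∀ y, y < x → y ∉ A ω) ∧ z = 0)} := by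
    ext ω
    exact sInf_eq_iff (A ω) z
  rw [h]
  refine measurableSet_setOfPred.2 ?_
  have h1 : ∀ x, Measurable fun ω => x ∈ A ω ∧ ∀ y, y < x → y ∉ A ω := fun x =>
    (hA x).and (Measurable.forall fun y => mc.imp (hA y).not)
  exact (h1 z).or (((Measurable.exists h1).not).and mc)

/-- Right edge after `k` enhanced steps from `(-∞, a]`. -/
def SU (p : ℝ) (k : ℕ) (a : ℤ) (ω : Arr) : ℤ := sSup ((strip p ω).ES (Iic a) k)

/-- Left edge after `k` enhanced steps from `[a, ∞)`. -/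
def SI (p : ℝ) (k : ℕ) (a : ℤ) (ω : Arr) : ℤ := sInf ((strip p ω).ES (Ici a) k)

theorem meas_SU (p : ℝ) (k : ℕ) (a : ℤ) : Measurable (SU p k a) := meas_sSup (m_ES p (Iic a) k)

theorem meas_SI (p : ℝ) (k : ℕ) (a : ℤ) : Measurable (SI p k a) := meas_sInf (m_ES p (Ici a) k)

theorem SU_zero (p : ℝ) (a : ℤ) (ω : Arr) : SU p 0 a ω = a := by
  show sSup (Iic a) = a
  exact csSup_Iic

theorem SI_zero (p : ℝ) (a : ℤ) (ω : Arr) : SI p 0 a ω = a := by
  show sInf (Ici a) = a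
  exact csInf_Ici

/-- The edges depend on the first rows only. -/
theorem SU_dep (p : ℝ) {k s : ℕ} (hk : k ≤ s) (a : ℤ) {ω ω' : Arr} (h : ∀ t < s, ω t = ω' t) :
    SU p k a ω = SU p k a ω' := by
  unfold SU
  rw [(row_agr h p).ES_eq _ hk]

theorem SI_dep (p : ℝ) {k s : ℕ} (hk : k ≤ s) (a : ℤ) {ω ω' : Arr} (h : ∀ t < s, ω t = ω' t) :
    SI p k a ω = SI p k a ω' := by
  unfold SI
  rw [(row_agr h p).ES_eq _ hk]

/-! ### Deterministic facts on enhanced sets -/

theorem H_mono (E : Strip) (t : ℕ) {A B : Set ℤ} (h : A ⊆ B) : E.H t A ⊆ E.H t B :=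
  fun _ ⟨a, h1, h2⟩ => ⟨a, h h1, h2⟩

theorem V_mono (E : Strip) (t : ℕ) {A B : Set ℤ} (h : A ⊆ B) : E.V t A ⊆ E.V t B :=
  fun _ ⟨a, h1, h2⟩ => ⟨a, h h1, h2⟩

theorem W_mono (E : Strip) (t : ℕ) {A B : Set ℤ} (h : A ⊆ B) : E.W t A ⊆ E.W t B :=
  fun _ ⟨a, h1, h2⟩ => ⟨a, h h1, h2⟩

theorem estep_mono (E : Strip) (t : ℕ) {A B : Set ℤ} (h : A ⊆ B) : E.estep t A ⊆ E.estep t B :=
  V_mono E t (union_subset_union (H_mono E t h) (W_mono E t (V_mono E t (H_mono E t h))))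

theorem ES_mono (E : Strip) (n : ℕ) {A B : Set ℤ} (h : A ⊆ B) : E.ES A n ⊆ E.ES B n := by
  induction n with
  | zero => exact h
  | succ n ih => exact estep_mono E n ih

theorem ES_shift (E : Strip) (s k : ℕ) (A : Set ℤ) :
    (E.shift s).ES (E.ES A s) k = E.ES A (s + k) := by
  induction k with
  | zero => rfl
  | succ k ih =>
    show (E.shift s).estep k ((E.shift s).ES (E.ES A s) k) = E.estep (s + k) (E.ES A (s + k))
    rw [ih]
    rfl

/-- The good event: the edges are finite. -/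
def Good (p : ℝ) (ω : Arr) : Prop :=
  ∀ (n : ℕ) (a : ℤ), ((strip p ω).ES (Iic a) n).Nonempty ∧ BddAbove ((strip p ω).ES (Iic a) n) ∧
    ((strip p ω).ES (Ici a) n).Nonempty ∧ BddBelow ((strip p ω).ES (Ici a) n)

theorem Good.SU_mem {p : ℝ} {ω : Arr} (h : Good p ω) (n : ℕ) (a : ℤ) :
    SU p n a ω ∈ (strip p ω).ES (Iic a) n := Int.csSup_mem (h n a).1 (h n a).2.1

theorem Good.SI_mem {p : ℝ} {ω : Arr} (h : Good p ω) (n : ℕ) (a : ℤ) :
    SI p n a ω ∈ (strip p ω).ES (Ici a) n := Int.csInf_mem (h n a).2.2.1 (h n a).2.2.2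

theorem Good.le_SU {p : ℝ} {ω : Arr} (h : Good p ω) {n : ℕ} {a z : ℤ}
    (hz : z ∈ (strip p ω).ES (Iic a) n) : z ≤ SU p n a ω := le_csSup (h n a).2.1 hz

theorem Good.SI_le {p : ℝ} {ω : Arr} (h : Good p ω) {n : ℕ} {a z : ℤ}
    (hz : z ∈ (strip p ω).ES (Ici a) n) : SI p n a ω ≤ z := csInf_le (h n a).2.2.2 hz

theorem Good.SU_mono {p : ℝ} {ω : Arr} (h : Good p ω) {n : ℕ} {a b : ℤ} (hab : a ≤ b) :
    SU p n a ω ≤ SU p n b ω :=
  h.le_SU (ES_mono _ n (Iic_subset_Iic.2 hab) (h.SU_mem n a))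

theorem Good.SI_mono {p : ℝ} {ω : Arr} (h : Good p ω) {n : ℕ} {a b : ℤ} (hab : a ≤ b) :
    SI p n a ω ≤ SI p n b ω :=
  h.SI_le (ES_mono _ n (Ici_subset_Ici.2 hab) (h.SI_mem n b))

theorem SU_le {p : ℝ} {ω : Arr} {s : ℕ} (h : Good p ω) (h' : Good p (post s ω)) (k : ℕ) (a : ℤ) :
    SU p (s + k) a ω ≤ SU p k (SU p s a ω) (post s ω) := by
  refine h'.le_SU ?_
  have h1 := h.SU_mem (s + k) a
  rw [← ES_shift] at h1
  refine ES_mono _ k ?_ h1
  intro z hz
  exact h.le_SU hz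

theorem le_SI {p : ℝ} {ω : Arr} {s : ℕ} (h : Good p ω) (h' : Good p (post s ω)) (k : ℕ) (a : ℤ) :
    SI p k (SI p s a ω) (post s ω) ≤ SI p (s + k) a ω := by
  refine h'.SI_le ?_
  have h1 := h.SI_mem (s + k) a
  rw [← ES_shift] at h1
  refine ES_mono _ k ?_ h1
  intro z hz
  exact h.SI_le hz

/-- Meeting in one row. -/
theorem meet {p : ℝ} {ω : Arr} {j : ℕ} (h : Good p ω) (hlt : SU p j 0 ω < SI p j 1 ω)
    (h1 : ∀ x, SU p j 0 ω ≤ x → x < SI p j 1 ω → (((ω j x).2 0 : unitInterval) : ℝ) ≤ p)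
    (h2 : (((ω j (SI p j 1 ω)).2 1 : unitInterval) : ℝ) ≤ p) :
    SI p (j + 1) 1 ω ≤ SU p (j + 1) 0 ω := by
  set y := ps (xi ω j) (SI p j 1 ω) with hy
  have hV : (strip p ω).IsV j (SI p j 1 ω) y := ⟨le_rfl, (strip p ω).mono' j _⟩
  have hvo : (strip p ω).vo j (SI p j 1 ω) y := by
    show (((ω j (SI p j 1 ω)).2 ((y - ps (xi ω j) (SI p j 1 ω)).toNat + 1) : unitInterval) : ℝ) ≤ p
    rw [hy, sub_self]
    exact h2
  have hH1 : SI p j 1 ω ∈ (strip p ω).H j ((strip p ω).ES (Iic 0) j) :=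
    ⟨SU p j 0 ω, h.SU_mem j 0, fun i hi hi' => h1 i hi hi', fun i hi hi' => by omega⟩
  have hH2 : SI p j 1 ω ∈ (strip p ω).H j ((strip p ω).ES (Ici 1) j) :=
    ⟨SI p j 1 ω, h.SI_mem j 1, fun i hi hi' => by omega, fun i hi hi' => by omega⟩
  have hy1 : y ∈ (strip p ω).ES (Iic 0) (j + 1) := ⟨SI p j 1 ω, Or.inl hH1, hV, hvo⟩
  have hy2 : y ∈ (strip p ω).ES (Ici 1) (j + 1) := ⟨SI p j 1 ω, Or.inl hH2, hV, hvo⟩
  exact (h.SI_le hy2).trans (h.le_SU hy1)

/-! ### Recentring -/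

theorem SU_recentre {p : ℝ} {ω : Arr} (a c : ℤ) (k : ℕ) (h : Good p (cshift a ω)) :
    SU p k (c + a) ω = DD ω k a + SU p k c (cshift a ω) := by
  have h1 := (recentreS (strip p ω) a).2.2.2.2.2.2.2.2.2 k (Iic c)
  rw [← stripShift.1 p a ω] at h1
  have h2 : {x : ℤ | x - a ∈ Iic c} = Iic (c + a) := by
    ext x
    simp only [mem_ofPred_eq, mem_Iic]
    omega
  rw [h2] at h1
  unfold SU
  have h3 : IsGreatest ((strip p ω).ES (Iic (c + a)) k)
      (DD ω k a + sSup ((strip p (cshift a ω)).ES (Iic c) k)) := by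
    constructor
    · have := (h1 _).1 (h.SU_mem k c)
      rw [strip_D, add_comm (SU p k c (cshift a ω))] at this
      exact this
    · intro z hz
      have h4 : z - DD ω k a ∈ (strip p (cshift a ω)).ES (Iic c) k := by
        rw [h1, strip_D, sub_add_cancel]
        exact hz
      have h5 := h.le_SU h4
      unfold SU at h5
      linarith
  exact h3.csSup_eq

theorem SI_recentre {p : ℝ} {ω : Arr} (a c : ℤ) (k : ℕ) (h : Good p (cshift a ω)) :
    SI p k (c + a) ω = DD ω k a + SI p k c (cshift a ω) := by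
  have h1 := (recentreS (strip p ω) a).2.2.2.2.2.2.2.2.2 k (Ici c)
  rw [← stripShift.1 p a ω] at h1
  have h2 : {x : ℤ | x - a ∈ Ici c} = Ici (c + a) := by
    ext x
    simp only [mem_ofPred_eq, mem_Ici]
    omega
  rw [h2] at h1
  unfold SI
  have h3 : IsLeast ((strip p ω).ES (Ici (c + a)) k)
      (DD ω k a + sInf ((strip p (cshift a ω)).ES (Ici c) k)) := by
    constructor
    · have := (h1 _).1 (h.SI_mem k c)
      rw [strip_D, add_comm (SI p k c (cshift a ω))] at this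
      exact this
    · intro z hz
      have h4 : z - DD ω k a ∈ (strip p (cshift a ω)).ES (Ici c) k := by
        rw [h1, strip_D, sub_add_cancel]
        exact hz
      have h5 := h.SI_le h4
      unfold SI at h5
      linarith
  exact h3.csInf_eq

/-! ### Probability -/

section Prob

variable {α : ℝ}

theorem map_post (h0 : 0 ≤ α) (h1 : α < 1) (hSp : SplitStmt) (s : ℕ) :
    (arrLaw α).map (post s) = arrLaw α := by
  have := Adapted.arr_prob h0 h1
  ext B hB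
  rw [Measure.map_apply (meas_post s) hB]
  have h := hSp α h0 h1 s (fun _ η => B.indicator 1 η)
    ((measurable_one.indicator hB).comp measurable_snd) (fun _ _ _ _ => rfl)
  have h2 : ∫⁻ ω, B.indicator (1 : Arr → ℝ≥0∞) (post s ω) ∂arrLaw α = arrLaw α (post s ⁻¹' B) := by
    rw [← lintegral_indicator_one (meas_post s hB)]
    rfl
  rw [h2] at h
  rw [h]
  simp [lintegral_indicator_one hB]

theorem post_ae (h0 : 0 ≤ α) (h1 : α < 1) (hSp : SplitStmt) (s : ℕ) {F : Arr → Prop}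
    (h : ∀ᵐ ω ∂arrLaw α, F ω) : ∀ᵐ ω ∂arrLaw α, F (post s ω) :=
  (MeasurePreserving.quasiMeasurePreserving ⟨meas_post s, map_post h0 h1 hSp s⟩).ae h

theorem cshift_ae (h0 : 0 ≤ α) (h1 : α < 1) (hC : CshiftStmt) (a : ℤ) {F : Arr → Prop}
    (h : ∀ᵐ ω ∂arrLaw α, F ω) : ∀ᵐ ω ∂arrLaw α, F (cshift a ω) :=
  (MeasurePreserving.quasiMeasurePreserving ⟨meas_cshift a, hC α h0 h1 a⟩).ae h

theorem map_split (h0 : 0 ≤ α) (h1 : α < 1) (hSp : SplitStmt) (s : ℕ) :
    (arrLaw α).map (fun ω => (Adapted.trunc s ω, post s ω)) =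
      ((arrLaw α).map (Adapted.trunc s)).prod (arrLaw α) := by
  have := Adapted.arr_prob h0 h1
  ext C hC
  rw [Measure.map_apply ((Adapted.measurable_trunc s).prodMk (meas_post s)) hC,
    Measure.prod_apply hC, lintegral_map (measurable_measure_prodMk_left hC)
      (Adapted.measurable_trunc s)]
  have h := hSp α h0 h1 s (fun ω η => C.indicator 1 (Adapted.trunc s ω, η))
    ((measurable_one.indicator hC).comp
      (((Adapted.measurable_trunc s).comp measurable_fst).prodMk measurable_snd)) (by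
      intro ω ω' η h
      have h2 : Adapted.trunc s ω = Adapted.trunc s ω' := by
        funext t
        unfold Adapted.trunc
        by_cases ht : t < s
        · rw [if_pos ht, if_pos ht, h t ht]
        · rw [if_neg ht, if_neg ht]
      show C.indicator 1 (Adapted.trunc s ω, η) = C.indicator 1 (Adapted.trunc s ω', η)
      rw [h2])
  have h2 : ∫⁻ ω, C.indicator (1 : Arr × Arr → ℝ≥0∞) (Adapted.trunc s ω, post s ω) ∂arrLaw α =
      arrLaw α ((fun ω => (Adapted.trunc s ω, post s ω)) ⁻¹' C) := by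
    rw [← lintegral_indicator_one (((Adapted.measurable_trunc s).prodMk (meas_post s)) hC)]
    rfl
  rw [← h2, h]
  refine lintegral_congr fun ω => ?_
  rw [← lintegral_indicator_one (measurable_prodMk_left hC)]
  rfl

/-- Markov property at row `s`, for integrable functions. -/
theorem markov_int (h0 : 0 ≤ α) (h1 : α < 1) (hSp : SplitStmt) (s : ℕ) (F : Arr → Arr → ℝ)
    (hF : Measurable (Function.uncurry F))
    (hdep : ∀ ω ω' η, (∀ t < s, ω t = ω' t) → F ω η = F ω' η)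
    (hint : ∀ ω, Integrable (F ω) (arrLaw α)) (g : Arr → ℝ) (hg : Integrable g (arrLaw α))
    (hbd : ∀ ω, ∫ η, |F ω η| ∂arrLaw α ≤ g ω) :
    Integrable (fun ω => F ω (post s ω)) (arrLaw α) ∧
      ∫ ω, F ω (post s ω) ∂arrLaw α = ∫ ω, ∫ η, F ω η ∂arrLaw α ∂arrLaw α := by
  have := Adapted.arr_prob h0 h1
  have hmt := Adapted.measurable_trunc s
  have hpair : Measurable (fun ω : Arr => (Adapted.trunc s ω, post s ω)) :=
    hmt.prodMk (meas_post s)
  have : IsProbabilityMeasure ((arrLaw α).map (Adapted.trunc s)) :=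
    Measure.isProbabilityMeasure_map hmt.aemeasurable
  have htr : ∀ ω η, F (Adapted.trunc s ω) η = F ω η := fun ω η =>
    hdep _ _ _ (Adapted.trunc_agree s ω)
  have hcongr : (fun ω => F ω (post s ω)) =
      (Function.uncurry F) ∘ fun ω : Arr => (Adapted.trunc s ω, post s ω) := by
    funext ω
    exact (htr ω _).symm
  have hmeas2 : Measurable fun ω => ∫ η, ‖F ω η‖ ∂arrLaw α :=
    (hF.stronglyMeasurable.norm.integral_prod_right (ν := arrLaw α)).measurable
  have hI : Integrable (Function.uncurry F) (((arrLaw α).map (Adapted.trunc s)).prod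
      (arrLaw α)) := by
    rw [integrable_prod_iff hF.aestronglyMeasurable]
    refine ⟨Filter.Eventually.of_forall fun ω => hint ω, ?_⟩
    have h3 : Integrable ((fun ω => ∫ η, ‖F ω η‖ ∂arrLaw α) ∘ Adapted.trunc s) (arrLaw α) := by
      refine hg.mono' (hmeas2.comp hmt).aestronglyMeasurable (Filter.Eventually.of_forall fun ω => ?_)
      show ‖∫ η, ‖F (Adapted.trunc s ω) η‖ ∂arrLaw α‖ ≤ g ω
      simp only [htr]
      rw [Real.norm_of_nonneg (integral_nonneg fun _ => norm_nonneg _)]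
      exact hbd ω
    exact (integrable_map_measure hmeas2.aestronglyMeasurable hmt.aemeasurable).2 h3
  have hI2 : Integrable (Function.uncurry F) ((arrLaw α).map
      (fun ω => (Adapted.trunc s ω, post s ω))) := by
    rw [map_split h0 h1 hSp s]
    exact hI
  constructor
  · rw [hcongr]
    exact (integrable_map_measure hF.aestronglyMeasurable hpair.aemeasurable).1 hI2
  · have h4 : ∫ ω, F ω (post s ω) ∂arrLaw α = ∫ z, Function.uncurry F z ∂(arrLaw α).map
        (fun ω => (Adapted.trunc s ω, post s ω)) := by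
      rw [integral_map hpair.aemeasurable hF.aestronglyMeasurable]
      refine integral_congr_ae (Filter.Eventually.of_forall fun ω => ?_)
      exact (htr ω _).symm
    rw [h4, map_split h0 h1 hSp s, integral_prod _ hI]
    have h5 : Measurable fun ω => ∫ η, F ω η ∂arrLaw α :=
      (hF.stronglyMeasurable.integral_prod_right (ν := arrLaw α)).measurable
    have h6 : ∫ ω, ∫ η, Function.uncurry F (ω, η) ∂arrLaw α ∂(arrLaw α).map (Adapted.trunc s) =
        ∫ ω, ∫ η, F (Adapted.trunc s ω) η ∂arrLaw α ∂arrLaw α := by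
      exact integral_map hmt.aemeasurable h5.aestronglyMeasurable
    rw [h6]
    simp only [htr]

end Prob

/-! ### Moments of the edges -/

theorem prob_half : IsProbabilityMeasure (arrLaw (1 / 2)) :=
  Adapted.arr_prob (by norm_num) (by norm_num)

section Half

variable {p : ℝ}

theorem good_ae (h : EdgeStmt) (hp0 : 0 < p) (hp1 : p < 1) : ∀ᵐ ω ∂arrLaw (1 / 2), Good p ω := by
  have h2 : ∀ n : ℕ, ∀ᵐ ω ∂arrLaw (1 / 2), ∀ a : ℤ,
      ((strip p ω).ES (Iic a) n).Nonempty ∧ BddAbove ((strip p ω).ES (Iic a) n) ∧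
      ((strip p ω).ES (Ici a) n).Nonempty ∧ BddBelow ((strip p ω).ES (Ici a) n) := by
    intro n
    filter_upwards [(h p hp0 hp1 n).1] with ω hω a
    exact ⟨(hω a).2.2.2.2.1, (hω a).2.2.2.2.2.1, (hω a).2.2.2.2.2.2.1, (hω a).2.2.2.2.2.2.2⟩
  filter_upwards [ae_all_iff.2 h2] with ω hω n a
  exact hω n a

theorem int_RE (h : EdgeStmt) (hp0 : 0 < p) (hp1 : p < 1) (k : ℕ) :
    Integrable (fun ω => (SU p k 0 ω : ℝ)) (arrLaw (1 / 2)) := by
  have := prob_half
  exact (h p hp0 hp1 k).2.2.2.1.integrable (by norm_num)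

theorem int_LE (h : EdgeStmt) (hp0 : 0 < p) (hp1 : p < 1) (k : ℕ) :
    Integrable (fun ω => (SI p k 0 ω : ℝ)) (arrLaw (1 / 2)) := by
  have := prob_half
  exact (h p hp0 hp1 k).2.2.2.2.1.integrable (by norm_num)

theorem int_DD (hWM : WidthMomStmt) (k : ℕ) (a : ℤ) :
    Integrable (fun ω => (DD ω k a : ℝ)) (arrLaw (1 / 2)) ∧
      ∫ ω, (DD ω k a : ℝ) ∂arrLaw (1 / 2) = a ∧
      ∫ ω, |(DD ω k a : ℝ)| ∂arrLaw (1 / 2) = |(a : ℝ)| := by
  obtain ⟨h1, h2⟩ := (hWM (1 / 2) (by norm_num) (by norm_num) k).1 a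
  have h3 : ((1 / 2 : ℝ) / (1 - 1 / 2)) ^ k = 1 := by norm_num
  rw [h3, mul_one] at h2
  refine ⟨h1, h2, ?_⟩
  rcases le_total 0 a with ha | ha
  · have h4 : ∀ ω, |(DD ω k a : ℝ)| = (DD ω k a : ℝ) := by
      intro ω
      have h5 := DD_mono ω k ha
      rw [DD_zero] at h5
      exact abs_of_nonneg (by exact_mod_cast h5)
    simp only [h4]
    rw [h2, abs_of_nonneg (by exact_mod_cast ha)]
  · have h4 : ∀ ω, |(DD ω k a : ℝ)| = -(DD ω k a : ℝ) := by
      intro ω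
      have h5 := DD_mono ω k ha
      rw [DD_zero] at h5
      exact abs_of_nonpos (by exact_mod_cast h5)
    simp only [h4]
    rw [integral_neg, h2, abs_of_nonpos (by exact_mod_cast ha)]

theorem int_comp_cshift (hC : CshiftStmt) (a : ℤ) {f : Arr → ℝ}
    (hf : Integrable f (arrLaw (1 / 2))) :
    Integrable (fun ω => f (cshift a ω)) (arrLaw (1 / 2)) ∧
      ∫ ω, f (cshift a ω) ∂arrLaw (1 / 2) = ∫ ω, f ω ∂arrLaw (1 / 2) := by
  have h1 := hC (1 / 2) (by norm_num) (by norm_num) a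
  have hf' : Integrable f ((arrLaw (1 / 2)).map (cshift a)) := by
    rw [h1]
    exact hf
  constructor
  · exact (integrable_map_measure hf'.aestronglyMeasurable (meas_cshift a).aemeasurable).1 hf'
  · have h2 := integral_map (meas_cshift a).aemeasurable hf'.aestronglyMeasurable
    rw [← h2, h1]

theorem SU_ae (h : EdgeStmt) (hC : CshiftStmt) (hp0 : 0 < p) (hp1 : p < 1) (k : ℕ) (a c : ℤ) :
    ∀ᵐ ω ∂arrLaw (1 / 2), SU p k (c + a) ω = DD ω k a + SU p k c (cshift a ω) := by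
  filter_upwards [cshift_ae (by norm_num) (by norm_num) hC a (good_ae h hp0 hp1)] with ω hω
  exact SU_recentre a c k hω

theorem SI_ae (h : EdgeStmt) (hC : CshiftStmt) (hp0 : 0 < p) (hp1 : p < 1) (k : ℕ) (a c : ℤ) :
    ∀ᵐ ω ∂arrLaw (1 / 2), SI p k (c + a) ω = DD ω k a + SI p k c (cshift a ω) := by
  filter_upwards [cshift_ae (by norm_num) (by norm_num) hC a (good_ae h hp0 hp1)] with ω hω
  exact SI_recentre a c k hω

theorem SU_mom (h : EdgeStmt) (hWM : WidthMomStmt) (hC : CshiftStmt) (hp0 : 0 < p) (hp1 : p < 1)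
    (k : ℕ) (a : ℤ) : Integrable (fun ω => (SU p k a ω : ℝ)) (arrLaw (1 / 2)) ∧
      ∫ ω, (SU p k a ω : ℝ) ∂arrLaw (1 / 2) = a + ∫ ω, (SU p k 0 ω : ℝ) ∂arrLaw (1 / 2) ∧
      ∫ ω, |(SU p k a ω : ℝ)| ∂arrLaw (1 / 2) ≤
        |(a : ℝ)| + ∫ ω, |(SU p k 0 ω : ℝ)| ∂arrLaw (1 / 2) := by
  obtain ⟨h1, h2, h3⟩ := int_DD hWM k a
  obtain ⟨h4, h5⟩ := int_comp_cshift hC a (int_RE h hp0 hp1 k)
  obtain ⟨h6, h7⟩ := int_comp_cshift hC a (int_RE h hp0 hp1 k).abs
  have h8 : (fun ω => (SU p k a ω : ℝ)) =ᵐ[arrLaw (1 / 2)]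
      fun ω => (DD ω k a : ℝ) + (SU p k 0 (cshift a ω) : ℝ) := by
    filter_upwards [SU_ae h hC hp0 hp1 k a 0] with ω hω
    rw [zero_add] at hω
    rw [hω]
    push_cast
    rfl
  refine ⟨(h1.add h4).congr h8.symm, ?_, ?_⟩
  · rw [integral_congr_ae h8, integral_add h1 h4, h2, h5]
  · have h9 : ∫ ω, |(SU p k a ω : ℝ)| ∂arrLaw (1 / 2) ≤
        ∫ ω, (|(DD ω k a : ℝ)| + |(SU p k 0 (cshift a ω) : ℝ)|) ∂arrLaw (1 / 2) := by
      refine integral_mono_ae ((h1.add h4).congr h8.symm).abs (h1.abs.add h6) ?_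
      filter_upwards [h8] with ω hω
      rw [hω]
      exact abs_add_le _ _
    rw [integral_add h1.abs h6, h3, h7] at h9
    exact h9

theorem SI_mom (h : EdgeStmt) (hWM : WidthMomStmt) (hC : CshiftStmt) (hp0 : 0 < p) (hp1 : p < 1)
    (k : ℕ) (a : ℤ) : Integrable (fun ω => (SI p k a ω : ℝ)) (arrLaw (1 / 2)) ∧
      ∫ ω, (SI p k a ω : ℝ) ∂arrLaw (1 / 2) = a + ∫ ω, (SI p k 0 ω : ℝ) ∂arrLaw (1 / 2) ∧
      ∫ ω, |(SI p k a ω : ℝ)| ∂arrLaw (1 / 2) ≤
        |(a : ℝ)| + ∫ ω, |(SI p k 0 ω : ℝ)| ∂arrLaw (1 / 2) := by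
  obtain ⟨h1, h2, h3⟩ := int_DD hWM k a
  obtain ⟨h4, h5⟩ := int_comp_cshift hC a (int_LE h hp0 hp1 k)
  obtain ⟨h6, h7⟩ := int_comp_cshift hC a (int_LE h hp0 hp1 k).abs
  have h8 : (fun ω => (SI p k a ω : ℝ)) =ᵐ[arrLaw (1 / 2)]
      fun ω => (DD ω k a : ℝ) + (SI p k 0 (cshift a ω) : ℝ) := by
    filter_upwards [SI_ae h hC hp0 hp1 k a 0] with ω hω
    rw [zero_add] at hω
    rw [hω]
    push_cast
    rfl
  refine ⟨(h1.add h4).congr h8.symm, ?_, ?_⟩
  · rw [integral_congr_ae h8, integral_add h1 h4, h2, h5]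
  · have h9 : ∫ ω, |(SI p k a ω : ℝ)| ∂arrLaw (1 / 2) ≤
        ∫ ω, (|(DD ω k a : ℝ)| + |(SI p k 0 (cshift a ω) : ℝ)|) ∂arrLaw (1 / 2) := by
      refine integral_mono_ae ((h1.add h4).congr h8.symm).abs (h1.abs.add h6) ?_
      filter_upwards [h8] with ω hω
      rw [hω]
      exact abs_add_le _ _
    rw [integral_add h1.abs h6, h3, h7] at h9
    exact h9

theorem kapE_eq (h : EdgeStmt) (hp0 : 0 < p) (hp1 : p < 1) (k : ℕ) :
    kapE p k = ∫ ω, (SU p k 0 ω : ℝ) ∂arrLaw (1 / 2) - ∫ ω, (SI p k 0 ω : ℝ) ∂arrLaw (1 / 2) :=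
  integral_sub (int_RE h hp0 hp1 k) (int_LE h hp0 hp1 k)

/-- Restart from full half lines at row `s`. -/
theorem markov_edge (h : EdgeStmt) (hSp : SplitStmt) (hWM : WidthMomStmt) (hC : CshiftStmt)
    (hp0 : 0 < p) (hp1 : p < 1) (s k : ℕ) {B : Set Arr} (hB : MeasurableSet B)
    (hBd : ∀ ω ω', (∀ t < s, ω t = ω' t) → (ω ∈ B ↔ ω' ∈ B)) {M m : Arr → ℤ}
    (hM : Measurable M) (hm : Measurable m) (hMd : ∀ ω ω', (∀ t < s, ω t = ω' t) → M ω = M ω')
    (hmd : ∀ ω ω', (∀ t < s, ω t = ω' t) → m ω = m ω')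
    (hMi : Integrable (fun ω => (M ω : ℝ)) (arrLaw (1 / 2)))
    (hmi : Integrable (fun ω => (m ω : ℝ)) (arrLaw (1 / 2))) :
    Integrable (B.indicator fun ω => ((SU p k (M ω) (post s ω) : ℝ) -
      (SI p k (m ω) (post s ω) : ℝ))) (arrLaw (1 / 2)) ∧
    ∫ ω, B.indicator (fun ω => ((SU p k (M ω) (post s ω) : ℝ) -
      (SI p k (m ω) (post s ω) : ℝ))) ω ∂arrLaw (1 / 2) =
      ∫ ω, B.indicator (fun ω => ((M ω : ℝ) - m ω + kapE p k)) ω ∂arrLaw (1 / 2) := by
  classical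
  have := prob_half
  set F : Arr → Arr → ℝ := fun ω η => B.indicator (fun ω => ((SU p k (M ω) η : ℝ) -
      (SI p k (m ω) η : ℝ))) ω with hF
  have hSUm : Measurable fun z : Arr × Arr => SU p k (M z.1) z.2 :=
    comp_int (f := fun a (z : Arr × Arr) => SU p k a z.2)
      (fun a => (meas_SU p k a).comp measurable_snd) (hM.comp measurable_fst)
  have hSIm : Measurable fun z : Arr × Arr => SI p k (m z.1) z.2 :=
    comp_int (f := fun a (z : Arr × Arr) => SI p k a z.2)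
      (fun a => (meas_SI p k a).comp measurable_snd) (hm.comp measurable_fst)
  have hcast : Measurable (fun z : ℤ => (z : ℝ)) := measurable_of_countable _
  have hFm : Measurable (Function.uncurry F) := by
    have h1 : Function.uncurry F = (Prod.fst ⁻¹' B).indicator (fun z : Arr × Arr =>
        ((SU p k (M z.1) z.2 : ℝ) - (SI p k (m z.1) z.2 : ℝ))) := by
      funext ⟨ω, η⟩
      by_cases hω : ω ∈ B
      · simp [hF, hω, Function.uncurry]
      · simp [hF, hω, Function.uncurry]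
    rw [h1]
    exact ((hcast.comp hSUm).sub (hcast.comp hSIm)).indicator (measurable_fst hB)
  have hFd : ∀ ω ω' η, (∀ t < s, ω t = ω' t) → F ω η = F ω' η := by
    intro ω ω' η hag
    have h1 := hBd ω ω' hag
    simp only [hF]
    by_cases hω : ω ∈ B
    · rw [indicator_of_mem hω, indicator_of_mem (h1.1 hω), hMd ω ω' hag, hmd ω ω' hag]
    · rw [indicator_of_notMem hω, indicator_of_notMem fun h => hω (h1.2 h)]
  have hFe : ∀ ω, F ω = if ω ∈ B then (fun η => ((SU p k (M ω) η : ℝ) -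
      (SI p k (m ω) η : ℝ))) else fun _ => 0 := by
    intro ω
    by_cases hω : ω ∈ B
    · funext η
      simp [hF, hω]
    · funext η
      simp [hF, hω]
  have hFi : ∀ ω, Integrable (F ω) (arrLaw (1 / 2)) := by
    intro ω
    rw [hFe ω]
    split_ifs
    · exact (SU_mom h hWM hC hp0 hp1 k (M ω)).1.sub (SI_mom h hWM hC hp0 hp1 k (m ω)).1
    · exact integrable_zero _ _ _
  set RU := ∫ ω, |(SU p k 0 ω : ℝ)| ∂arrLaw (1 / 2) with hRU
  set LU := ∫ ω, |(SI p k 0 ω : ℝ)| ∂arrLaw (1 / 2) with hLU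
  have hRU0 : 0 ≤ RU := integral_nonneg fun _ => abs_nonneg _
  have hLU0 : 0 ≤ LU := integral_nonneg fun _ => abs_nonneg _
  have hbd : ∀ ω, ∫ η, |F ω η| ∂arrLaw (1 / 2) ≤
      (|(M ω : ℝ)| + RU) + (|(m ω : ℝ)| + LU) := by
    intro ω
    rw [hFe ω]
    split_ifs
    · obtain ⟨a1, _, a3⟩ := SU_mom h hWM hC hp0 hp1 k (M ω)
      obtain ⟨b1, _, b3⟩ := SI_mom h hWM hC hp0 hp1 k (m ω)
      have h9 : ∫ η, |(SU p k (M ω) η : ℝ) - (SI p k (m ω) η : ℝ)| ∂arrLaw (1 / 2) ≤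
          ∫ η, (|(SU p k (M ω) η : ℝ)| + |(SI p k (m ω) η : ℝ)|) ∂arrLaw (1 / 2) := by
        refine integral_mono (a1.sub b1).abs (a1.abs.add b1.abs) fun η => ?_
        exact abs_sub _ _
      rw [integral_add a1.abs b1.abs] at h9
      exact h9.trans (add_le_add a3 b3)
    · simp only [abs_zero, integral_zero]
      positivity
  have hgi : Integrable (fun ω => (|(M ω : ℝ)| + RU) + (|(m ω : ℝ)| + LU)) (arrLaw (1 / 2)) :=
    (hMi.abs.add (integrable_const _)).add (hmi.abs.add (integrable_const _))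
  obtain ⟨h1, h2⟩ := markov_int (by norm_num) (by norm_num) hSp s F hFm hFd hFi _ hgi hbd
  have hcomp : (fun ω => F ω (post s ω)) = B.indicator fun ω =>
      ((SU p k (M ω) (post s ω) : ℝ) - (SI p k (m ω) (post s ω) : ℝ)) := by
    funext ω
    by_cases hω : ω ∈ B
    · simp [hF, hω]
    · simp [hF, hω]
  rw [hcomp] at h1
  refine ⟨h1, ?_⟩
  have h3 : ∫ ω, F ω (post s ω) ∂arrLaw (1 / 2) = ∫ ω, B.indicator (fun ω =>
      ((SU p k (M ω) (post s ω) : ℝ) - (SI p k (m ω) (post s ω) : ℝ))) ω ∂arrLaw (1 / 2) := by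
    rw [← hcomp]
  rw [← h3, h2]
  refine integral_congr_ae (Filter.Eventually.of_forall fun ω => ?_)
  show ∫ η, F ω η ∂arrLaw (1 / 2) = _
  rw [hFe ω]
  by_cases hω : ω ∈ B
  · rw [if_pos hω, indicator_of_mem hω]
    obtain ⟨a1, a2, _⟩ := SU_mom h hWM hC hp0 hp1 k (M ω)
    obtain ⟨b1, b2, _⟩ := SI_mom h hWM hC hp0 hp1 k (m ω)
    rw [integral_sub a1 b1, a2, b2, kapE_eq h hp0 hp1]
    ring
  · rw [if_neg hω, indicator_of_notMem hω]
    simp

/-! ### The expected overshoot of one step -/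

/-- Expected positive part of the overshoot when the gap is `g`. -/
def fh (p : ℝ) (g : ℤ) : ℝ≥0∞ :=
  ∫⁻ η, ENNReal.ofReal ((SU p 1 0 η : ℝ) - SI p 1 g η) ∂arrLaw (1 / 2)

theorem meas_ofd {β : Type} [MeasurableSpace β] {f g : β → ℤ} (hf : Measurable f)
    (hg : Measurable g) : Measurable fun ω => ENNReal.ofReal ((f ω : ℝ) - g ω) := by
  have hcast : Measurable (fun z : ℤ => (z : ℝ)) := measurable_of_countable _
  exact ((hcast.comp hf).sub (hcast.comp hg)).ennreal_ofReal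

theorem fh_anti (h : EdgeStmt) (hp0 : 0 < p) (hp1 : p < 1) {a b : ℤ} (hab : a ≤ b) :
    fh p b ≤ fh p a := by
  refine lintegral_mono_ae ?_
  filter_upwards [good_ae h hp0 hp1] with ω hω
  refine ENNReal.ofReal_le_ofReal ?_
  have h1 : (SI p 1 a ω : ℝ) ≤ SI p 1 b ω := by exact_mod_cast hω.SI_mono hab
  linarith

theorem fh_fin (h : EdgeStmt) (hp0 : 0 < p) (hp1 : p < 1) : fh p 0 ≠ ∞ := by
  have h1 := (int_RE h hp0 hp1 1).sub (int_LE h hp0 hp1 1)
  have h2 := h1.2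
  unfold HasFiniteIntegral at h2
  refine ne_of_lt (lt_of_le_of_lt (lintegral_mono fun ω => ?_) h2)
  rw [Real.enorm_eq_ofReal_abs]
  exact ENNReal.ofReal_le_ofReal (le_abs_self _)

theorem fh_trans (h : EdgeStmt) (hC : CshiftStmt) (hp0 : 0 < p) (hp1 : p < 1) (a b : ℤ) :
    ∫⁻ η, ENNReal.ofReal ((SU p 1 a η : ℝ) - SI p 1 b η) ∂arrLaw (1 / 2) = fh p (b - a) := by
  have h1 : (fun η => ENNReal.ofReal ((SU p 1 a η : ℝ) - SI p 1 b η)) =ᵐ[arrLaw (1 / 2)]
      fun η => ENNReal.ofReal ((SU p 1 0 (cshift a η) : ℝ) - SI p 1 (b - a) (cshift a η)) := by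
    filter_upwards [SU_ae h hC hp0 hp1 1 a 0, SI_ae h hC hp0 hp1 1 a (b - a)] with ω h2 h3
    rw [zero_add] at h2
    rw [sub_add_cancel] at h3
    rw [h2, h3]
    congr 1
    push_cast
    ring
  rw [lintegral_congr_ae h1]
  have h2 : Measurable fun η => ENNReal.ofReal ((SU p 1 0 η : ℝ) - SI p 1 (b - a) η) :=
    meas_ofd (meas_SU p 1 0) (meas_SI p 1 (b - a))
  have h3 := lintegral_map (μ := arrLaw (1 / 2)) h2 (meas_cshift a)
  rw [hC (1 / 2) (by norm_num) (by norm_num) a] at h3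
  exact h3.symm

/-- tails of an integer valued variable -/
theorem tail_zero {X : Arr → ℤ} (hX : Measurable X) :
    Tendsto (fun n : ℕ => arrLaw (1 / 2) {ω | (n : ℤ) < 4 * X ω}) atTop (𝓝 0) := by
  have := prob_half
  have hm : ∀ n : ℕ, MeasurableSet {ω | (n : ℤ) < 4 * X ω} := fun n =>
    measurableSet_lt measurable_const (hX.const_mul 4)
  have h1 := tendsto_measure_iInter_atTop (μ := arrLaw (1 / 2))
    (s := fun n : ℕ => {ω | (n : ℤ) < 4 * X ω}) (fun n => (hm n).nullMeasurableSet)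
    (fun a b hab ω hω => by
      simp only [mem_ofPred_eq] at hω ⊢
      have : (a : ℤ) ≤ b := by exact_mod_cast hab
      omega) ⟨0, measure_ne_top _ _⟩
  have h2 : ⋂ n : ℕ, {ω | (n : ℤ) < 4 * X ω} = ∅ := by
    rw [eq_empty_iff_forall_notMem]
    intro ω hω
    rw [mem_iInter] at hω
    have := hω (4 * X ω).toNat
    simp only [mem_ofPred_eq] at this
    omega
  rw [h2, measure_empty] at h1
  exact h1

theorem fh_lim (h : EdgeStmt) (hC : CshiftStmt) (hW : WidthStmt) (hp0 : 0 < p) (hp1 : p < 1) :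
    Tendsto (fun n : ℕ => fh p n) atTop (𝓝 0) := by
  have := prob_half
  -- the bad set
  set Bd : ℕ → Set Arr := fun n => {ω | SI p 1 n ω < SU p 1 0 ω} with hBd
  have hBm : ∀ n, MeasurableSet (Bd n) := fun n =>
    measurableSet_lt (meas_SI p 1 n) (meas_SU p 1 0)
  have hsub : ∀ n : ℕ, arrLaw (1 / 2) (Bd n) ≤
      arrLaw (1 / 2) {ω | (n : ℤ) < 4 * SU p 1 0 ω} +
      arrLaw (1 / 2) {ω | 4 * ((DD ω 1 (n : ℕ) : ℤ) : ℝ) ≤ 3 * (n : ℕ)} +
      arrLaw (1 / 2) {ω | (n : ℤ) < 4 * (-SI p 1 0 ω)} := by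
    intro n
    have h1 : Bd n ≤ᵐ[arrLaw (1 / 2)] ({ω | (n : ℤ) < 4 * SU p 1 0 ω} ∪
        {ω | 4 * ((DD ω 1 (n : ℕ) : ℤ) : ℝ) ≤ 3 * (n : ℕ)} ∪
        (cshift n) ⁻¹' {ω | (n : ℤ) < 4 * (-SI p 1 0 ω)} : Set Arr) := by
      filter_upwards [SI_ae h hC hp0 hp1 1 n 0] with ω hω hB
      rw [zero_add] at hω
      have hB' : SI p 1 n ω < SU p 1 0 ω := hB
      by_contra hcon
      have hcon' : ω ∉ ({ω | (n : ℤ) < 4 * SU p 1 0 ω} ∪
        {ω | 4 * ((DD ω 1 (n : ℕ) : ℤ) : ℝ) ≤ 3 * (n : ℕ)} ∪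
        (cshift n) ⁻¹' {ω | (n : ℤ) < 4 * (-SI p 1 0 ω)} : Set Arr) := hcon
      simp only [mem_union, mem_preimage, mem_ofPred_eq, not_or] at hcon'
      obtain ⟨⟨c1, c2⟩, c3⟩ := hcon'
      have c2' : ¬ 4 * DD ω 1 (n : ℤ) ≤ 3 * (n : ℤ) := fun c => c2 (by exact_mod_cast c)
      omega
    have h2 := measure_mono_ae h1
    refine h2.trans ((measure_union_le _ _).trans ?_)
    refine add_le_add (measure_union_le _ _) (le_of_eq ?_)
    have hm : MeasurableSet {ω | (n : ℤ) < 4 * (-SI p 1 0 ω)} :=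
      measurableSet_lt measurable_const ((meas_SI p 1 0).neg.const_mul 4)
    rw [← Measure.map_apply (meas_cshift n) hm, hC (1 / 2) (by norm_num) (by norm_num) n]
  have hlim : Tendsto (fun n : ℕ => arrLaw (1 / 2) {ω | (n : ℤ) < 4 * SU p 1 0 ω} +
      arrLaw (1 / 2) {ω | 4 * ((DD ω 1 (n : ℕ) : ℤ) : ℝ) ≤ 3 * (n : ℕ)} +
      arrLaw (1 / 2) {ω | (n : ℤ) < 4 * (-SI p 1 0 ω)}) atTop (𝓝 0) := by
    have e1 := tail_zero (meas_SU p 1 0)
    have e3 := tail_zero (meas_SI p 1 0).neg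
    have e2 : Tendsto (fun n : ℕ => arrLaw (1 / 2)
        {ω | 4 * ((DD ω 1 (n : ℕ) : ℤ) : ℝ) ≤ 3 * (n : ℕ)}) atTop (𝓝 0) := by
      have f1 : ∀ n : ℕ, arrLaw (1 / 2) {ω | 4 * ((DD ω 1 (n : ℕ) : ℤ) : ℝ) ≤ 3 * (n : ℕ)} ≤
          ENNReal.ofReal (Real.exp (-(n : ℝ) / 200)) := by
        intro n
        have f2 := (hW (1 / 2) (by norm_num) (by norm_num) 1 n le_rfl).2.1
        rw [Nat.cast_one, mul_one] at f2
        rw [← ENNReal.ofReal_toReal (measure_ne_top (arrLaw (1 / 2))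
          {ω | 4 * ((DD ω 1 (n : ℕ) : ℤ) : ℝ) ≤ 3 * (n : ℕ)})]
        exact ENNReal.ofReal_le_ofReal f2
      have f3 : Tendsto (fun n : ℕ => ENNReal.ofReal (Real.exp (-(n : ℝ) / 200))) atTop
          (𝓝 0) := by
        rw [← ENNReal.ofReal_zero]
        refine (ENNReal.continuous_ofReal.tendsto _).comp ?_
        refine Real.tendsto_exp_atBot.comp ?_
        have f4 : Tendsto (fun n : ℕ => (n : ℝ) / 200) atTop atTop :=
          tendsto_natCast_atTop_atTop.atTop_div_const (by norm_num)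
        have f5 := tendsto_neg_atTop_atBot.comp f4
        refine f5.congr fun n => ?_
        simp only [Function.comp]
        ring
      exact tendsto_of_tendsto_of_tendsto_of_le_of_le tendsto_const_nhds f3
        (fun _ => zero_le) f1
    have := (e1.add e2).add e3
    simpa using this
  have hBl : Tendsto (fun n => arrLaw (1 / 2) (Bd n)) atTop (𝓝 0) :=
    tendsto_of_tendsto_of_tendsto_of_le_of_le tendsto_const_nhds hlim
      (fun _ => zero_le) hsub
  have h3 := tendsto_setLIntegral_zero (μ := arrLaw (1 / 2))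
    (f := fun η => ENNReal.ofReal ((SU p 1 0 η : ℝ) - SI p 1 0 η)) (fh_fin h hp0 hp1)
    (s := Bd) hBl
  refine tendsto_of_tendsto_of_tendsto_of_le_of_le tendsto_const_nhds h3
    (fun _ => zero_le) fun n => ?_
  show ∫⁻ η, ENNReal.ofReal ((SU p 1 0 η : ℝ) - SI p 1 n η) ∂arrLaw (1 / 2) ≤
    ∫⁻ η in Bd n, ENNReal.ofReal ((SU p 1 0 η : ℝ) - SI p 1 0 η) ∂arrLaw (1 / 2)
  rw [← lintegral_indicator (hBm n)]
  refine lintegral_mono_ae ?_
  filter_upwards [good_ae h hp0 hp1] with ω hω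
  by_cases hB : ω ∈ Bd n
  · rw [indicator_of_mem hB]
    refine ENNReal.ofReal_le_ofReal ?_
    have h1 : (SI p 1 0 ω : ℝ) ≤ SI p 1 n ω := by
      exact_mod_cast hω.SI_mono (by positivity)
    linarith
  · rw [indicator_of_notMem hB]
    have h1 : ¬ SI p 1 n ω < SU p 1 0 ω := hB
    have h2 : (SU p 1 0 ω : ℝ) ≤ SI p 1 n ω := by exact_mod_cast not_lt.1 h1
    rw [ENNReal.ofReal_of_nonpos (by linarith)]

/-! ### Meeting probability -/

/-- All horizontal edges between `a` and `b` and the first vertical edge of `b` are open. -/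
def rowEv (p : ℝ) (a b : ℤ) : Set Row :=
  {r | (∀ x, a ≤ x → x < b → (((r x).2 0 : unitInterval) : ℝ) ≤ p) ∧
    (((r b).2 1 : unitInterval) : ℝ) ≤ p}

theorem nd_lab {α : ℝ} (h0 : 0 ≤ α) (h1 : α < 1) (hp0 : 0 < p) (hp1 : p < 1) (i : ℕ) :
    MeasurableSet {r : Nd | ((r.2 i : unitInterval) : ℝ) ≤ p} ∧
      ndLaw α {r | ((r.2 i : unitInterval) : ℝ) ≤ p} = ENNReal.ofReal p := by
  have := geo_prob h0 h1
  have hm : MeasurableSet {f : ℕ → unitInterval | ((f i : unitInterval) : ℝ) ≤ p} :=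
    measurableSet_le (measurable_subtype_coe.comp (measurable_pi_apply i)) measurable_const
  have h2 : {r : Nd | ((r.2 i : unitInterval) : ℝ) ≤ p} =
      univ ×ˢ {f : ℕ → unitInterval | ((f i : unitInterval) : ℝ) ≤ p} := by
    ext r
    simp
  constructor
  · rw [h2]
    exact MeasurableSet.univ.prod hm
  · rw [h2]
    unfold ndLaw
    rw [Measure.prod_prod, measure_univ, one_mul]
    have h3 := Measure.infinitePi_map_eval (fun _ : ℕ => (volume : Measure unitInterval)) i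
    have h4 : {f : ℕ → unitInterval | ((f i : unitInterval) : ℝ) ≤ p} =
        (fun f => f i) ⁻¹' (Iic (⟨p, hp0.le, hp1.le⟩ : unitInterval)) := by
      ext f
      rfl
    rw [h4]
    have h5 : (Measure.infinitePi fun _ : ℕ => (volume : Measure unitInterval))
        ((fun f => f i) ⁻¹' (Iic (⟨p, hp0.le, hp1.le⟩ : unitInterval))) =
        volume (Iic (⟨p, hp0.le, hp1.le⟩ : unitInterval)) := by
      conv_rhs => rw [← h3]
      rw [Measure.map_apply (measurable_pi_apply i) measurableSet_Iic]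
    rw [h5, unitInterval.volume_Iic]

theorem rowEv_prob {α : ℝ} (h0 : 0 ≤ α) (h1 : α < 1) (hp0 : 0 < p) (hp1 : p < 1) {a b : ℤ}
    (hab : a ≤ b) : rowLaw α (rowEv p a b) = ENNReal.ofReal p ^ ((b - a).toNat + 1) := by
  classical
  have := Adapted.nd_prob h0 h1
  have h2 : rowEv p a b = ((Finset.Icc a b : Finset ℤ) : Set ℤ).pi
      (fun x => if x = b then {r : Nd | ((r.2 1 : unitInterval) : ℝ) ≤ p} else
        {r : Nd | ((r.2 0 : unitInterval) : ℝ) ≤ p}) := by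
    ext r
    simp only [rowEv, mem_ofPred_eq, Set.mem_pi, Finset.coe_Icc, mem_Icc]
    constructor
    · rintro ⟨g1, g2⟩ x ⟨hx1, hx2⟩
      split_ifs with hx
      · rw [hx]
        exact g2
      · exact g1 x hx1 (lt_of_le_of_ne hx2 hx)
    · intro g
      constructor
      · intro x hx1 hx2
        have := g x ⟨hx1, hx2.le⟩
        rw [if_neg hx2.ne] at this
        exact this
      · have := g b ⟨hab, le_rfl⟩
        rw [if_pos rfl] at this
        exact this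
  rw [h2]
  unfold rowLaw
  rw [Measure.infinitePi_pi]
  · have h3 : ∀ x ∈ Finset.Icc a b, ndLaw α (if x = b then
        {r : Nd | ((r.2 1 : unitInterval) : ℝ) ≤ p} else
        {r : Nd | ((r.2 0 : unitInterval) : ℝ) ≤ p}) = ENNReal.ofReal p := by
      intro x _
      split_ifs
      · exact (nd_lab h0 h1 hp0 hp1 1).2
      · exact (nd_lab h0 h1 hp0 hp1 0).2
    rw [Finset.prod_congr rfl h3, Finset.prod_const, Int.card_Icc]
    congr 1
    omega
  · intro x _
    split_ifs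
    · exact (nd_lab h0 h1 hp0 hp1 1).1
    · exact (nd_lab h0 h1 hp0 hp1 0).1

/-- The edges have not met up to level `j`. -/
def Aj (p : ℝ) (j : ℕ) : Set Arr := {ω | ∀ t ≤ j, SU p t 0 ω < SI p t 1 ω}

theorem meas_Aj (p : ℝ) (j : ℕ) : MeasurableSet (Aj p j) := by
  have h1 : Aj p j = ⋂ t ∈ Finset.range (j + 1), {ω | SU p t 0 ω < SI p t 1 ω} := by
    ext ω
    simp only [Aj, mem_ofPred_eq, mem_iInter, Finset.mem_range, Nat.lt_succ_iff]
  rw [h1]
  exact Finset.measurableSet_biInter _ fun t _ => measurableSet_lt (meas_SU p t 0) (meas_SI p t 1)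

theorem Aj_dep (p : ℝ) {j s : ℕ} (hj : j ≤ s) {ω ω' : Arr} (h : ∀ t < s, ω t = ω' t) :
    ω ∈ Aj p j ↔ ω' ∈ Aj p j := by
  unfold Aj
  simp only [mem_ofPred_eq]
  refine forall₂_congr fun t ht => ?_
  rw [SU_dep p (ht.trans hj) 0 h, SI_dep p (ht.trans hj) 1 h]

theorem Aj_anti (p : ℝ) {i j : ℕ} (h : i ≤ j) : Aj p j ⊆ Aj p i :=
  fun _ hω t ht => hω t (ht.trans h)

theorem Aj_zero (p : ℝ) : Aj p 0 = univ := by
  ext ω
  simp only [Aj, mem_ofPred_eq, Nat.le_zero, forall_eq, mem_univ, iff_true]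
  rw [SU_zero, SI_zero]
  norm_num

theorem tailT_eq (p : ℝ) (j : ℕ) : tailT p j = (arrLaw (1 / 2)).real (Aj p j) := rfl

theorem meas_row_at : Measurable fun z : ℤ × Row => z.2 z.1 :=
  measurable_from_prod_countable_right fun x => measurable_pi_apply x

/-- Lower bound for the meeting probability. -/
theorem meet_prob (h : EdgeStmt) (hp0 : 0 < p) (hp1 : p < 1) (j : ℕ) :
    ∫⁻ ω, (Aj p j).indicator (fun ω => ENNReal.ofReal p ^ ((SI p j 1 ω - SU p j 0 ω).toNat + 1)) ω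
      ∂arrLaw (1 / 2) ≤ arrLaw (1 / 2) (Aj p j \ Aj p (j + 1)) := by
  classical
  have := prob_half
  have h0' : (0 : ℝ) ≤ 1 / 2 := by norm_num
  have h1' : (1 / 2 : ℝ) < 1 := by norm_num
  -- the event in row `j`
  set Z : Set (Arr × Row) := {z | z.1 ∈ Aj p j ∧ z.2 ∈ rowEv p (SU p j 0 z.1) (SI p j 1 z.1)}
    with hZ
  have hZm : MeasurableSet Z := by
    have hev : ∀ (x : ℤ) (i : ℕ), Measurable fun z : Arr × Row => (((z.2 x).2 i : unitInterval) : ℝ) :=
      fun x i => measurable_subtype_coe.comp ((measurable_pi_apply i).comp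
        (measurable_snd.comp ((measurable_pi_apply x).comp measurable_snd)))
    have hSU : Measurable fun z : Arr × Row => SU p j 0 z.1 := (meas_SU p j 0).comp measurable_fst
    have hSI : Measurable fun z : Arr × Row => SI p j 1 z.1 := (meas_SI p j 1).comp measurable_fst
    have e1 : MeasurableSet {z : Arr × Row | z.1 ∈ Aj p j} := measurable_fst (meas_Aj p j)
    have e2 : MeasurableSet {z : Arr × Row | ∀ x, SU p j 0 z.1 ≤ x → x < SI p j 1 z.1 →
        (((z.2 x).2 0 : unitInterval) : ℝ) ≤ p} := by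
      have : {z : Arr × Row | ∀ x, SU p j 0 z.1 ≤ x → x < SI p j 1 z.1 →
          (((z.2 x).2 0 : unitInterval) : ℝ) ≤ p} = ⋂ x : ℤ,
          ({z | SU p j 0 z.1 ≤ x}ᶜ ∪ ({z | x < SI p j 1 z.1}ᶜ ∪
            {z | (((z.2 x).2 0 : unitInterval) : ℝ) ≤ p})) := by
        ext z
        simp only [mem_ofPred_eq, mem_iInter, mem_union, mem_compl_iff]
        refine forall_congr' fun x => ?_
        tauto
      rw [this]
      exact MeasurableSet.iInter fun x => (measurableSet_le hSU measurable_const).compl.union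
        ((measurableSet_lt measurable_const hSI).compl.union
          (measurableSet_le (hev x 0) measurable_const))
    have e3 : MeasurableSet {z : Arr × Row |
        (((z.2 (SI p j 1 z.1)).2 1 : unitInterval) : ℝ) ≤ p} := by
      have : Measurable fun z : Arr × Row => (((z.2 (SI p j 1 z.1)).2 1 : unitInterval) : ℝ) :=
        comp_int (f := fun x (z : Arr × Row) => (((z.2 x).2 1 : unitInterval) : ℝ))
          (fun x => hev x 1) hSI
      exact measurableSet_le this measurable_const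
    exact e1.inter (e2.inter e3)
  have hsplit := Adapted.split_row h0' h1' j (fun ω r => Z.indicator 1 (ω, r))
    (measurable_one.indicator hZm) (by
      intro ω ω' r hag
      have h2 : (ω, r) ∈ Z ↔ (ω', r) ∈ Z := by
        simp only [hZ, mem_ofPred_eq]
        rw [Aj_dep p le_rfl hag, SU_dep p le_rfl 0 hag, SI_dep p le_rfl 1 hag]
      by_cases h3 : (ω, r) ∈ Z
      · show Z.indicator 1 (ω, r) = Z.indicator 1 (ω', r)
        rw [indicator_of_mem h3, indicator_of_mem (h2.1 h3)]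
        rfl
      · show Z.indicator 1 (ω, r) = Z.indicator 1 (ω', r)
        rw [indicator_of_notMem h3, indicator_of_notMem fun h => h3 (h2.2 h)])
  have hR : ∀ ω, ∫⁻ r, Z.indicator (1 : Arr × Row → ℝ≥0∞) (ω, r) ∂rowLaw (1 / 2) =
      (Aj p j).indicator (fun ω => ENNReal.ofReal p ^ ((SI p j 1 ω - SU p j 0 ω).toNat + 1)) ω := by
    intro ω
    by_cases hω : ω ∈ Aj p j
    · rw [indicator_of_mem hω]
      have hlt := hω j le_rfl
      rw [← rowEv_prob h0' h1' hp0 hp1 hlt.le]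
      have hsec : (fun r : Row => Z.indicator (1 : Arr × Row → ℝ≥0∞) (ω, r)) =
          (Prod.mk ω ⁻¹' Z).indicator 1 := by
        funext r
        by_cases h3 : (ω, r) ∈ Z
        · rw [indicator_of_mem h3, indicator_of_mem (show r ∈ Prod.mk ω ⁻¹' Z from h3)]
          rfl
        · rw [indicator_of_notMem h3, indicator_of_notMem (show r ∉ Prod.mk ω ⁻¹' Z from h3)]
      rw [hsec, lintegral_indicator_one (measurable_prodMk_left hZm)]
      congr 1
      ext r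
      simp only [hZ, mem_preimage, mem_ofPred_eq]
      exact ⟨fun h => h.2, fun h => ⟨hω, h⟩⟩
    · rw [indicator_of_notMem hω]
      have hsec : (fun r : Row => Z.indicator (1 : Arr × Row → ℝ≥0∞) (ω, r)) = fun _ => 0 := by
        funext r
        exact indicator_of_notMem (fun h => hω h.1) _
      rw [hsec]
      simp
  simp only [hR] at hsplit
  rw [← hsplit]
  have hle : ∫⁻ ω, Z.indicator (1 : Arr × Row → ℝ≥0∞) (ω, ω j) ∂arrLaw (1 / 2) ≤
      ∫⁻ ω, (Aj p j \ Aj p (j + 1)).indicator 1 ω ∂arrLaw (1 / 2) := by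
    refine lintegral_mono_ae ?_
    filter_upwards [good_ae h hp0 hp1] with ω hω
    by_cases h3 : (ω, ω j) ∈ Z
    · have h4 : ω ∈ Aj p j \ Aj p (j + 1) := by
        refine ⟨h3.1, fun h5 => ?_⟩
        have h6 := h5 (j + 1) le_rfl
        have h7 := meet hω (h3.1 j le_rfl) h3.2.1 h3.2.2
        omega
      rw [indicator_of_mem h3, indicator_of_mem h4]
      rfl
    · rw [indicator_of_notMem h3]
      exact zero_le
  rwa [lintegral_indicator_one ((meas_Aj p j).diff (meas_Aj p (j + 1)))] at hle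

/-! ### The renewal inequality -/

theorem tailT_le (p : ℝ) (j : ℕ) : tailT p j ≤ 1 := by
  have := prob_half
  exact measureReal_le_one

theorem tailT_diff (p : ℝ) (j : ℕ) :
    (arrLaw (1 / 2)).real (Aj p j \ Aj p (j + 1)) = tailT p j - tailT p (j + 1) := by
  have := prob_half
  rw [measureReal_sdiff (Aj_anti p (Nat.le_succ j)) (meas_Aj p (j + 1))]
  rfl

theorem lint_over (h : EdgeStmt) (hSp : SplitStmt) (hC : CshiftStmt) (hp0 : 0 < p) (hp1 : p < 1)
    (j : ℕ) :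
    ∫⁻ ω, ENNReal.ofReal ((Aj p j \ Aj p (j + 1)).indicator
      (fun ω => ((SU p (j + 1) 0 ω : ℝ) - SI p (j + 1) 1 ω)) ω) ∂arrLaw (1 / 2) ≤
    ∫⁻ ω, (Aj p j).indicator (fun ω => fh p (SI p j 1 ω - SU p j 0 ω)) ω ∂arrLaw (1 / 2) := by
  have := prob_half
  have h0' : (0 : ℝ) ≤ 1 / 2 := by norm_num
  have h1' : (1 / 2 : ℝ) < 1 := by norm_num
  set F : Arr → Arr → ℝ≥0∞ := fun ω η => (Aj p j).indicator (fun ω =>
    ENNReal.ofReal ((SU p 1 (SU p j 0 ω) η : ℝ) - SI p 1 (SI p j 1 ω) η)) ω with hF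
  have hFm : Measurable (Function.uncurry F) := by
    have h1 : Function.uncurry F = (Prod.fst ⁻¹' (Aj p j)).indicator (fun z : Arr × Arr =>
        ENNReal.ofReal ((SU p 1 (SU p j 0 z.1) z.2 : ℝ) - SI p 1 (SI p j 1 z.1) z.2)) := by
      funext ⟨ω, η⟩
      by_cases hω : ω ∈ Aj p j
      · simp [hF, hω, Function.uncurry]
      · simp [hF, hω, Function.uncurry]
    rw [h1]
    refine Measurable.indicator ?_ (measurable_fst (meas_Aj p j))
    refine meas_ofd (f := fun z : Arr × Arr => SU p 1 (SU p j 0 z.1) z.2)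
      (g := fun z : Arr × Arr => SI p 1 (SI p j 1 z.1) z.2) ?_ ?_
    · exact comp_int (f := fun a (z : Arr × Arr) => SU p 1 a z.2)
        (fun a => (meas_SU p 1 a).comp measurable_snd) ((meas_SU p j 0).comp measurable_fst)
    · exact comp_int (f := fun a (z : Arr × Arr) => SI p 1 a z.2)
        (fun a => (meas_SI p 1 a).comp measurable_snd) ((meas_SI p j 1).comp measurable_fst)
  have hFd : ∀ (ω ω' η : Arr), (∀ t < j, ω t = ω' t) → F ω η = F ω' η := by
    intro ω ω' η hag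
    have h1 := Aj_dep p le_rfl hag
    simp only [hF]
    by_cases hω : ω ∈ Aj p j
    · rw [indicator_of_mem hω, indicator_of_mem (h1.1 hω), SU_dep p le_rfl 0 hag,
        SI_dep p le_rfl 1 hag]
    · rw [indicator_of_notMem hω, indicator_of_notMem fun h => hω (h1.2 h)]
  have h2 := hSp (1 / 2) h0' h1' j F hFm hFd
  have h3 : ∫⁻ ω, F ω (post j ω) ∂arrLaw (1 / 2) =
      ∫⁻ ω, (Aj p j).indicator (fun ω => fh p (SI p j 1 ω - SU p j 0 ω)) ω ∂arrLaw (1 / 2) := by
    rw [h2]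
    refine lintegral_congr fun ω => ?_
    by_cases hω : ω ∈ Aj p j
    · rw [indicator_of_mem hω]
      have h4 : F ω = fun η => ENNReal.ofReal
          ((SU p 1 (SU p j 0 ω) η : ℝ) - SI p 1 (SI p j 1 ω) η) := by
        funext η
        simp only [hF]
        rw [indicator_of_mem hω]
      rw [h4]
      exact fh_trans h hC hp0 hp1 _ _
    · rw [indicator_of_notMem hω]
      have h4 : F ω = fun _ => 0 := by
        funext η
        simp only [hF]
        rw [indicator_of_notMem hω]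
      rw [h4]
      simp
  rw [← h3]
  refine lintegral_mono_ae ?_
  have hg := good_ae h hp0 hp1
  filter_upwards [hg, post_ae h0' h1' hSp j hg] with ω g1 g2
  by_cases hω : ω ∈ Aj p j \ Aj p (j + 1)
  · rw [indicator_of_mem hω]
    simp only [hF]
    rw [indicator_of_mem hω.1]
    refine ENNReal.ofReal_le_ofReal ?_
    have e1 : (SU p (j + 1) 0 ω : ℝ) ≤ SU p 1 (SU p j 0 ω) (post j ω) := by
      exact_mod_cast SU_le g1 g2 1 0
    have e2 : (SI p 1 (SI p j 1 ω) (post j ω) : ℝ) ≤ SI p (j + 1) 1 ω := by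
      exact_mod_cast le_SI g1 g2 1 1
    linarith
  · rw [indicator_of_notMem hω, ENNReal.ofReal_zero]
    exact zero_le

theorem fh_bound (h : EdgeStmt) (hC : CshiftStmt) (hW : WidthStmt) (hp0 : 0 < p) (hp1 : p < 1)
    {ε : ℝ} (hε : 0 < ε) : ∃ K : ℝ≥0∞, K ≠ ∞ ∧ ∀ g : ℤ, 0 ≤ g →
      fh p g ≤ K * ENNReal.ofReal p ^ (g.toNat + 1) + ENNReal.ofReal ε := by
  obtain ⟨g0, hg0⟩ := ((fh_lim h hC hW hp0 hp1).eventually
    (gt_mem_nhds (ENNReal.ofReal_pos.2 hε))).exists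
  have hp' : ENNReal.ofReal p ≠ 0 := (ENNReal.ofReal_pos.2 hp0).ne'
  have hpt : ENNReal.ofReal p ≠ ∞ := ENNReal.ofReal_ne_top
  have hp1' : ENNReal.ofReal p ≤ 1 := by
    rw [← ENNReal.ofReal_one]
    exact ENNReal.ofReal_le_ofReal hp1.le
  refine ⟨fh p 0 * (ENNReal.ofReal p ^ (g0 + 1))⁻¹, ?_, fun g hg => ?_⟩
  · refine ENNReal.mul_ne_top (fh_fin h hp0 hp1) ?_
    rw [ENNReal.inv_ne_top]
    exact pow_ne_zero _ hp'
  · rcases le_total (g0 : ℤ) g with h1 | h1
    · exact ((fh_anti h hp0 hp1 h1).trans hg0.le).trans le_add_self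
    · refine le_trans ?_ le_self_add
      have h2 : ENNReal.ofReal p ^ (g0 + 1) ≤ ENNReal.ofReal p ^ (g.toNat + 1) :=
        pow_le_pow_right_of_le_one' hp1' (by omega)
      calc fh p g ≤ fh p 0 := fh_anti h hp0 hp1 hg
        _ = fh p 0 * (ENNReal.ofReal p ^ (g0 + 1))⁻¹ * ENNReal.ofReal p ^ (g0 + 1) := by
            rw [mul_assoc, ENNReal.inv_mul_cancel (pow_ne_zero _ hp')
              (ENNReal.pow_ne_top hpt), mul_one]
        _ ≤ _ := by gcongr

theorem overshoot (h : EdgeStmt) (hSp : SplitStmt) (hWM : WidthMomStmt) (hC : CshiftStmt)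
    (hW : WidthStmt) (hp0 : 0 < p) (hp1 : p < 1) {ε : ℝ} (hε : 0 < ε) :
    ∃ K : ℝ, 0 ≤ K ∧ ∀ j : ℕ, ∫ ω, (Aj p j \ Aj p (j + 1)).indicator
      (fun ω => ((SU p (j + 1) 0 ω : ℝ) - SI p (j + 1) 1 ω)) ω ∂arrLaw (1 / 2) ≤
      K * (tailT p j - tailT p (j + 1)) + ε * tailT p j := by
  have := prob_half
  obtain ⟨K, hK, hb⟩ := fh_bound h hC hW hp0 hp1 hε
  refine ⟨K.toReal, ENNReal.toReal_nonneg, fun j => ?_⟩
  have hD : MeasurableSet (Aj p j \ Aj p (j + 1)) := (meas_Aj p j).diff (meas_Aj p (j + 1))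
  have hi : Integrable ((Aj p j \ Aj p (j + 1)).indicator
      (fun ω => ((SU p (j + 1) 0 ω : ℝ) - SI p (j + 1) 1 ω))) (arrLaw (1 / 2)) :=
    ((int_RE h hp0 hp1 (j + 1)).sub (SI_mom h hWM hC hp0 hp1 (j + 1) 1).1).indicator hD
  rw [integral_eq_lintegral_pos_part_sub_lintegral_neg_part hi]
  have h1 : ∫⁻ ω, ENNReal.ofReal ((Aj p j \ Aj p (j + 1)).indicator
      (fun ω => ((SU p (j + 1) 0 ω : ℝ) - SI p (j + 1) 1 ω)) ω) ∂arrLaw (1 / 2) ≤
      K * arrLaw (1 / 2) (Aj p j \ Aj p (j + 1)) + ENNReal.ofReal ε * arrLaw (1 / 2) (Aj p j) := by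
    refine (lint_over h hSp hC hp0 hp1 j).trans ?_
    have hmm : Measurable fun ω => (Aj p j).indicator
        (fun ω => ENNReal.ofReal p ^ ((SI p j 1 ω - SU p j 0 ω).toNat + 1)) ω := by
      refine Measurable.indicator ?_ (meas_Aj p j)
      exact (measurable_of_countable (fun z : ℤ => ENNReal.ofReal p ^ (z.toNat + 1))).comp
        ((meas_SI p j 1).sub (meas_SU p j 0))
    calc ∫⁻ ω, (Aj p j).indicator (fun ω => fh p (SI p j 1 ω - SU p j 0 ω)) ω ∂arrLaw (1 / 2)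
        ≤ ∫⁻ ω, (K * (Aj p j).indicator
            (fun ω => ENNReal.ofReal p ^ ((SI p j 1 ω - SU p j 0 ω).toNat + 1)) ω +
            ENNReal.ofReal ε * (Aj p j).indicator 1 ω) ∂arrLaw (1 / 2) := by
          refine lintegral_mono fun ω => ?_
          by_cases hω : ω ∈ Aj p j
          · simp only [indicator_of_mem hω, Pi.one_apply, mul_one]
            refine hb _ ?_
            have := hω j le_rfl
            omega
          · simp only [indicator_of_notMem hω, mul_zero, add_zero, le_refl]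
      _ = K * ∫⁻ ω, (Aj p j).indicator
            (fun ω => ENNReal.ofReal p ^ ((SI p j 1 ω - SU p j 0 ω).toNat + 1)) ω
              ∂arrLaw (1 / 2) + ENNReal.ofReal ε * arrLaw (1 / 2) (Aj p j) := by
          rw [lintegral_add_left (hmm.const_mul K), lintegral_const_mul K hmm,
            lintegral_const_mul _ (measurable_one.indicator (meas_Aj p j)),
            lintegral_indicator_one (meas_Aj p j)]
      _ ≤ _ := by
          gcongr
          exact meet_prob h hp0 hp1 j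
  have h2 := ENNReal.toReal_mono (ENNReal.add_ne_top.2 ⟨ENNReal.mul_ne_top hK (measure_ne_top _ _),
    ENNReal.mul_ne_top ENNReal.ofReal_ne_top (measure_ne_top _ _)⟩) h1
  rw [ENNReal.toReal_add (ENNReal.mul_ne_top hK (measure_ne_top _ _))
    (ENNReal.mul_ne_top ENNReal.ofReal_ne_top (measure_ne_top _ _)), ENNReal.toReal_mul,
    ENNReal.toReal_mul, ENNReal.toReal_ofReal hε.le] at h2
  have h3 : (arrLaw (1 / 2) (Aj p j \ Aj p (j + 1))).toReal = tailT p j - tailT p (j + 1) :=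
    tailT_diff p j
  have h4 : (arrLaw (1 / 2) (Aj p j)).toReal = tailT p j := rfl
  rw [h3, h4] at h2
  have h5 := @ENNReal.toReal_nonneg (∫⁻ ω, ENNReal.ofReal (-(Aj p j \ Aj p (j + 1)).indicator
      (fun ω => ((SU p (j + 1) 0 ω : ℝ) - SI p (j + 1) 1 ω)) ω) ∂arrLaw (1 / 2))
  linarith

theorem decomp {X : Arr → ℝ} (hX : Integrable X (arrLaw (1 / 2))) (p : ℝ) (m : ℕ) :
    ∫ ω, X ω ∂arrLaw (1 / 2) = ∫ ω, (Aj p m).indicator X ω ∂arrLaw (1 / 2) +
      ∑ j ∈ Finset.range m, ∫ ω, (Aj p j \ Aj p (j + 1)).indicator X ω ∂arrLaw (1 / 2) := by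
  induction m with
  | zero => simp [Aj_zero]
  | succ m ih =>
    rw [ih, Finset.sum_range_succ]
    have h1 : (Aj p m).indicator X = fun ω => (Aj p (m + 1)).indicator X ω +
        (Aj p m \ Aj p (m + 1)).indicator X ω := by
      funext ω
      by_cases h2 : ω ∈ Aj p (m + 1)
      · have h3 : ω ∈ Aj p m := Aj_anti p (Nat.le_succ m) h2
        rw [indicator_of_mem h3, indicator_of_mem h2, indicator_of_notMem (fun h => h.2 h2),
          add_zero]
      · by_cases h3 : ω ∈ Aj p m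
        · rw [indicator_of_mem h3, indicator_of_notMem h2, indicator_of_mem (show ω ∈ Aj p m \ Aj p (m + 1) from ⟨h3, h2⟩), zero_add]
        · rw [indicator_of_notMem h3, indicator_of_notMem h2,
            indicator_of_notMem (fun h => h3 h.1), zero_add]
    have h4 : ∫ ω, (Aj p m).indicator X ω ∂arrLaw (1 / 2) =
        ∫ ω, (Aj p (m + 1)).indicator X ω ∂arrLaw (1 / 2) +
        ∫ ω, (Aj p m \ Aj p (m + 1)).indicator X ω ∂arrLaw (1 / 2) := by
      rw [h1]
      exact integral_add (hX.indicator (meas_Aj p (m + 1)))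
        (hX.indicator ((meas_Aj p m).diff (meas_Aj p (m + 1))))
    rw [h4]
    ring

theorem step_bound (h : EdgeStmt) (hSp : SplitStmt) (hWM : WidthMomStmt) (hC : CshiftStmt)
    (hp0 : 0 < p) (hp1 : p < 1) (j k : ℕ) :
    ∫ ω, (Aj p j \ Aj p (j + 1)).indicator
      (fun ω => ((SU p (j + 1 + k) 0 ω : ℝ) - SI p (j + 1 + k) 1 ω)) ω ∂arrLaw (1 / 2) ≤
    ∫ ω, (Aj p j \ Aj p (j + 1)).indicator
      (fun ω => ((SU p (j + 1) 0 ω : ℝ) - SI p (j + 1) 1 ω)) ω ∂arrLaw (1 / 2) +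
      (tailT p j - tailT p (j + 1)) * kapE p k := by
  have := prob_half
  have h0' : (0 : ℝ) ≤ 1 / 2 := by norm_num
  have h1' : (1 / 2 : ℝ) < 1 := by norm_num
  set B := Aj p j \ Aj p (j + 1) with hB
  have hBm : MeasurableSet B := (meas_Aj p j).diff (meas_Aj p (j + 1))
  have hSU : ∀ n, Integrable (fun ω => (SU p n 0 ω : ℝ)) (arrLaw (1 / 2)) := int_RE h hp0 hp1
  have hSI : ∀ n, Integrable (fun ω => (SI p n 1 ω : ℝ)) (arrLaw (1 / 2)) := fun n =>
    (SI_mom h hWM hC hp0 hp1 n 1).1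
  obtain ⟨h1, h2⟩ := markov_edge h hSp hWM hC hp0 hp1 (j + 1) k (B := B) hBm
    (fun ω ω' hag => by
      rw [hB, Set.mem_sdiff, Set.mem_sdiff, Aj_dep p (Nat.le_succ j) hag, Aj_dep p le_rfl hag])
    (meas_SU p (j + 1) 0) (meas_SI p (j + 1) 1) (fun ω ω' hag => SU_dep p le_rfl 0 hag)
    (fun ω ω' hag => SI_dep p le_rfl 1 hag) (hSU (j + 1)) (hSI (j + 1))
  have h3 : ∫ ω, B.indicator
      (fun ω => ((SU p (j + 1 + k) 0 ω : ℝ) - SI p (j + 1 + k) 1 ω)) ω ∂arrLaw (1 / 2) ≤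
      ∫ ω, B.indicator (fun ω => ((SU p k (SU p (j + 1) 0 ω) (post (j + 1) ω) : ℝ) -
      (SI p k (SI p (j + 1) 1 ω) (post (j + 1) ω) : ℝ))) ω ∂arrLaw (1 / 2) := by
    refine integral_mono_ae (((hSU _).sub (hSI _)).indicator hBm) h1 ?_
    have hg := good_ae h hp0 hp1
    filter_upwards [hg, post_ae h0' h1' hSp (j + 1) hg] with ω g1 g2
    by_cases hω : ω ∈ B
    · rw [indicator_of_mem hω, indicator_of_mem hω]
      have e1 : (SU p (j + 1 + k) 0 ω : ℝ) ≤ SU p k (SU p (j + 1) 0 ω) (post (j + 1) ω) := by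
        exact_mod_cast SU_le g1 g2 k 0
      have e2 : (SI p k (SI p (j + 1) 1 ω) (post (j + 1) ω) : ℝ) ≤ SI p (j + 1 + k) 1 ω := by
        exact_mod_cast le_SI g1 g2 k 1
      linarith
    · rw [indicator_of_notMem hω, indicator_of_notMem hω]
  refine h3.trans (le_of_eq ?_)
  rw [h2]
  have h4 : (B.indicator fun ω => ((SU p (j + 1) 0 ω : ℝ) - SI p (j + 1) 1 ω + kapE p k)) =
      fun ω => B.indicator (fun ω => ((SU p (j + 1) 0 ω : ℝ) - SI p (j + 1) 1 ω)) ω +
        B.indicator (fun _ => kapE p k) ω := by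
    funext ω
    by_cases hω : ω ∈ B
    · simp only [indicator_of_mem hω]
    · simp only [indicator_of_notMem hω, add_zero]
  have h5 : ∫ ω, B.indicator (fun ω => ((SU p (j + 1) 0 ω : ℝ) - SI p (j + 1) 1 ω + kapE p k)) ω
      ∂arrLaw (1 / 2) = ∫ ω, B.indicator
        (fun ω => ((SU p (j + 1) 0 ω : ℝ) - SI p (j + 1) 1 ω)) ω ∂arrLaw (1 / 2) +
        ∫ ω, B.indicator (fun _ => kapE p k) ω ∂arrLaw (1 / 2) := by
    rw [h4]
    exact integral_add (((hSU _).sub (hSI _)).indicator hBm)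
      ((integrable_const _).indicator hBm)
  rw [h5]
  congr 1
  rw [integral_indicator_const _ hBm, smul_eq_mul, hB, tailT_diff]

end Half

end Rn

open Rn in
/-- RENEWAL inequality. -/
theorem renew (h : EdgeStmt) (hSp : SplitStmt) (hW : WidthStmt) (hWM : WidthMomStmt)
    (hC : CshiftStmt) : RenewStmt := by
  intro p hp0 hp1 ε hε
  have := prob_half
  obtain ⟨K, hK0, hK⟩ := overshoot h hSp hWM hC hW hp0 hp1 hε
  refine ⟨1 + K, fun n => ?_⟩
  set X : Arr → ℝ := fun ω => (SU p n 0 ω : ℝ) - SI p n 1 ω with hX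
  have hXi : Integrable X (arrLaw (1 / 2)) :=
    (int_RE h hp0 hp1 n).sub (SI_mom h hWM hC hp0 hp1 n 1).1
  have h1 : kapE p n - 1 = ∫ ω, X ω ∂arrLaw (1 / 2) := by
    have h2 : ∫ ω, X ω ∂arrLaw (1 / 2) = ∫ ω, (SU p n 0 ω : ℝ) ∂arrLaw (1 / 2) -
        ∫ ω, (SI p n 1 ω : ℝ) ∂arrLaw (1 / 2) :=
      integral_sub (int_RE h hp0 hp1 n) (SI_mom h hWM hC hp0 hp1 n 1).1
    rw [h2, (SI_mom h hWM hC hp0 hp1 n 1).2.1, kapE_eq h hp0 hp1]
    push_cast
    ring
  have h2 : ∫ ω, (Aj p n).indicator X ω ∂arrLaw (1 / 2) ≤ 0 := by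
    refine integral_nonpos fun ω => ?_
    by_cases hω : ω ∈ Aj p n
    · rw [indicator_of_mem hω]
      have h3 : (SU p n 0 ω : ℝ) < SI p n 1 ω := by exact_mod_cast hω n le_rfl
      show (SU p n 0 ω : ℝ) - SI p n 1 ω ≤ 0
      linarith
    · rw [indicator_of_notMem hω]
      exact le_rfl
  have h3 : ∀ j ∈ Finset.range n, ∫ ω, (Aj p j \ Aj p (j + 1)).indicator X ω ∂arrLaw (1 / 2) ≤
      K * (tailT p j - tailT p (j + 1)) + ε * tailT p j +
        (tailT p j - tailT p (j + 1)) * kapE p (n - 1 - j) := by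
    intro j hj
    rw [Finset.mem_range] at hj
    obtain ⟨k, rfl⟩ : ∃ k, n = j + 1 + k := ⟨n - (j + 1), by omega⟩
    have h4 := step_bound h hSp hWM hC hp0 hp1 j k
    have h5 := hK j
    have h6 : j + 1 + k - 1 - j = k := by omega
    rw [h6]
    linarith
  have h4 := Finset.sum_le_sum h3
  rw [Finset.sum_add_distrib, Finset.sum_add_distrib, ← Finset.mul_sum, ← Finset.mul_sum,
    Finset.sum_range_sub' (fun j => tailT p j)] at h4
  have h5 := decomp hXi p n
  have h6 : K * (tailT p 0 - tailT p n) ≤ K * 1 := by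
    refine mul_le_mul_of_nonneg_left ?_ hK0
    have h7 := tailT_le p 0
    have h8 : 0 ≤ tailT p n := measureReal_nonneg
    linarith
  linarith

end CausalPerc.Neg
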