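import Pool.Agent.Lib.MP_a51368_pr.Neg.Spec2

/-!
# Pure analysis for the renewal inequality
-/

open Finset

namespace CausalPerc.Neg

namespace RenewAux

theorem conv_sum (a k : ℕ → ℝ) (N : ℕ) :
    ∑ n ∈ range (N + 1), ∑ j ∈ range n, (a j - a (j + 1)) * k (n - 1 - j) =
      ∑ i ∈ range (N + 1), k i * (a 0 - a (N - i)) := by
  induction N with
  | zero => simp
  | succ N ih =>
    rw [sum_range_succ, ih, sum_range_succ _ (N + 1)]
    have h1 : ∑ j ∈ range (N + 1), (a j - a (j + 1)) * k (N + 1 - 1 - j) =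
        ∑ i ∈ range (N + 1), (a (N - i) - a (N + 1 - i)) * k i := by
      rw [← sum_range_reflect]
      apply sum_congr rfl
      intro i hi
      have hi' : i ≤ N := by have := mem_range.1 hi; omega
      have e1 : N + 1 - 1 - i = N - i := by omega
      have e2 : N - i + 1 = N + 1 - i := by omega
      have e3 : N + 1 - 1 - (N + 1 - 1 - i) = i := by omega
      rw [e3, e1, e2]
    rw [h1, ← sum_add_distrib, Nat.sub_self, sub_self, mul_zero, add_zero]
    apply sum_congr rfl
    intro i hi
    ring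

end RenewAux

open RenewAux in
theorem renewSeq : RenewSeqStmt := by
  intro a k δ ha ha0 ha1 hδ hk h
  obtain ⟨C₀, hC₀⟩ := h (δ / 12) (by positivity)
  obtain ⟨C, hC0, hC⟩ : ∃ C : ℝ, 0 ≤ C ∧ ∀ n : ℕ, k n ≤ C + δ / 12 * ∑ j ∈ range n, a j +
      ∑ j ∈ range n, (a j - a (j + 1)) * k (n - 1 - j) :=
    ⟨max C₀ 0, le_max_right _ _, fun n => (hC₀ n).trans (by
      have := le_max_left C₀ 0
      linarith)⟩
  have hk0 : ∀ i, 0 ≤ k i := fun i => le_trans (by positivity) (hk i)
  have hAmono : ∀ n m : ℕ, n ≤ m → ∑ j ∈ range n, a j ≤ ∑ j ∈ range m, a j := fun n m hnm =>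
    sum_le_sum_of_subset_of_nonneg (range_subset_range.2 hnm) fun i _ _ => ha0 i
  -- the summed inequality
  have key : ∀ N : ℕ, ∑ i ∈ range N, k i * a (N - i) ≤
      (N + 1) * (C + δ / 12 * ∑ j ∈ range N, a j) := by
    intro N
    have h1 : ∑ n ∈ range (N + 1), k n ≤ ∑ n ∈ range (N + 1),
        (C + δ / 12 * ∑ j ∈ range n, a j + ∑ j ∈ range n, (a j - a (j + 1)) * k (n - 1 - j)) :=
      sum_le_sum fun n _ => hC n
    rw [sum_add_distrib, conv_sum] at h1
    have h2 : ∑ n ∈ range (N + 1), (C + δ / 12 * ∑ j ∈ range n, a j) ≤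
        ∑ n ∈ range (N + 1), (C + δ / 12 * ∑ j ∈ range N, a j) := by
      apply sum_le_sum
      intro n hn
      have := hAmono n N (by have := mem_range.1 hn; omega)
      have := mul_le_mul_of_nonneg_left this (by positivity : 0 ≤ δ / 12)
      linarith
    rw [sum_const, card_range, nsmul_eq_mul] at h2
    have h3 : ∑ i ∈ range (N + 1), k i * (a 0 - a (N - i)) ≤
        ∑ i ∈ range (N + 1), (k i - k i * a (N - i)) := by
      apply sum_le_sum
      intro i _
      have := mul_le_mul_of_nonneg_left (ha1 0) (hk0 i)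
      rw [mul_sub]
      linarith
    rw [sum_sub_distrib, sum_range_succ (fun i => k i * a (N - i))] at h3
    have h4 : 0 ≤ k N * a (N - N) := mul_nonneg (hk0 _) (ha0 _)
    push_cast at h2
    linarith
  have bound : ∀ M : ℕ, ∑ j ∈ range M, a j ≤ 2 * (3 * C + δ) / δ := by
    intro M
    rcases Nat.eq_zero_or_pos M with rfl | hM
    · rw [range_zero, sum_empty]
      positivity
    have hM1 : (1 : ℝ) ≤ M := by exact_mod_cast hM
    have h1 := key (2 * M)
    -- lower bound of the left-hand side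
    have h2 : δ * M * ∑ j ∈ range M, a (j + 1) ≤ ∑ i ∈ range (2 * M), k i * a (2 * M - i) := by
      have e1 : ∑ i ∈ range (2 * M), k i * a (2 * M - i) =
          ∑ i ∈ range M, k i * a (2 * M - i) + ∑ i ∈ range M, k (M + i) * a (2 * M - (M + i)) := by
        rw [two_mul M, sum_range_add]
      have e2 : 0 ≤ ∑ i ∈ range M, k i * a (2 * M - i) :=
        sum_nonneg fun i _ => mul_nonneg (hk0 _) (ha0 _)
      have e3 : ∑ j ∈ range M, a (j + 1) = ∑ i ∈ range M, a (2 * M - (M + i)) := by
        rw [← sum_range_reflect]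
        apply sum_congr rfl
        intro i hi
        congr 1
        have := mem_range.1 hi
        omega
      have e4 : δ * M * ∑ i ∈ range M, a (2 * M - (M + i)) ≤
          ∑ i ∈ range M, k (M + i) * a (2 * M - (M + i)) := by
        rw [mul_sum]
        apply sum_le_sum
        intro i _
        apply mul_le_mul_of_nonneg_right _ (ha0 _)
        refine le_trans ?_ (hk (M + i))
        push_cast
        have : (0 : ℝ) ≤ i := Nat.cast_nonneg i
        nlinarith
      rw [e1, e3]
      linarith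
    have h3 : ∑ j ∈ range (2 * M), a j ≤ 2 * ∑ j ∈ range M, a j := by
      have e1 : ∑ j ∈ range (2 * M), a j = ∑ j ∈ range M, a j + ∑ j ∈ range M, a (M + j) := by
        rw [two_mul M, sum_range_add]
      have e2 : ∑ j ∈ range M, a (M + j) ≤ ∑ j ∈ range M, a j :=
        sum_le_sum fun j _ => ha (by omega)
      linarith
    have h4 : ∑ j ∈ range M, a j - 1 ≤ ∑ j ∈ range M, a (j + 1) := by
      have e1 : ∑ j ∈ range (M + 1), a j = ∑ j ∈ range M, a (j + 1) + a 0 := sum_range_succ' _ _
      have e2 : ∑ j ∈ range (M + 1), a j = ∑ j ∈ range M, a j + a M := sum_range_succ _ _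
      have := ha1 0
      have := ha0 M
      linarith
    obtain ⟨A, hA⟩ : ∃ A, A = ∑ j ∈ range M, a j := ⟨_, rfl⟩
    rw [← hA] at h3 h4 ⊢
    have hA0 : 0 ≤ A := by rw [hA]; exact sum_nonneg fun j _ => ha0 j
    have h5 : δ * M * (A - 1) ≤ (2 * M + 1) * (C + δ / 12 * (2 * A)) := by
      have e1 := mul_le_mul_of_nonneg_left h4 (by positivity : 0 ≤ δ * M)
      have e2 : ((2 * M : ℕ) : ℝ) + 1 = 2 * M + 1 := by push_cast; ring
      rw [e2] at h1
      have e3 : (2 * (M : ℝ) + 1) * (C + δ / 12 * ∑ j ∈ range (2 * M), a j) ≤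
          (2 * M + 1) * (C + δ / 12 * (2 * A)) := by
        apply mul_le_mul_of_nonneg_left _ (by positivity)
        have := mul_le_mul_of_nonneg_left h3 (by positivity : 0 ≤ δ / 12)
        linarith
      linarith
    have h6 : (2 * (M : ℝ) + 1) * (C + δ / 12 * (2 * A)) ≤ 3 * M * (C + δ / 12 * (2 * A)) := by
      apply mul_le_mul_of_nonneg_right _ (by positivity)
      linarith
    have h7 : δ * (A - 1) ≤ 3 * (C + δ / 12 * (2 * A)) := by
      have e1 : (M : ℝ) * (δ * (A - 1)) ≤ M * (3 * (C + δ / 12 * (2 * A))) := by linarith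
      exact le_of_mul_le_mul_left e1 (by linarith)
    rw [le_div_iff₀ hδ]
    linarith
  exact summable_of_sum_range_le ha0 bound

end CausalPerc.Neg
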