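import Pool.Agent.Lib.MP_a51368_pr.Neg.Spec2
import Pool.Agent.Lib.MP_a51368_pr.Neg.Adapted

/-!
# Induction over the scales
-/

open MeasureTheory Set

namespace CausalPerc.Neg

namespace ScaleAux

theorem pow_big {k : ℕ} (hk : 20 ≤ k) : 2500 * (k + 1) + 200 ≤ 2 ^ k := by
  induction k, hk using Nat.le_induction with
  | base => norm_num
  | succ k hk ih => rw [pow_succ]; omega

theorem exp_le_half (m : ℕ) (y : ℝ) (h : (m : ℝ) ≤ y) : Real.exp (-y) ≤ (1 / 2 : ℝ) ^ m := by
  have h1 : (1 / 2 : ℝ) ^ m = Real.exp (-(m * Real.log 2)) := by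
    rw [Real.exp_neg, Real.exp_nat_mul, Real.exp_log (by norm_num), one_div, inv_pow]
  rw [h1]
  apply Real.exp_le_exp.2
  have h2 : Real.log 2 ≤ 1 := by
    have := Real.log_two_lt_d9
    linarith
  have h3 : (m : ℝ) * Real.log 2 ≤ m * 1 := mul_le_mul_of_nonneg_left h2 (Nat.cast_nonneg m)
  linarith

theorem half_anti {a b : ℕ} (h : a ≤ b) : (1 / 2 : ℝ) ^ b ≤ (1 / 2 : ℝ) ^ a :=
  pow_le_pow_of_le_one (by norm_num) (by norm_num) h

theorem two_mul_half (a b : ℕ) : (2 : ℝ) ^ a * (1 / 2) ^ (a + b) = (1 / 2) ^ b := by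
  rw [pow_add, ← mul_assoc, ← mul_pow]
  norm_num

/-- widths at `α = 1/2` -/
theorem width_up (hW : WidthStmt) (t b : ℕ) (A : ℝ) (ht : 1 ≤ t) :
    (arrLaw (1 / 2)).real {ω | A ≤ ((DD ω t b : ℤ) : ℝ)} ≤ Real.exp ((b - A / 10) / t) := by
  have h := (hW (1 / 2) le_rfl (by norm_num) t b ht).1 A
  apply h
  norm_num

theorem width_lo (hW : WidthStmt) (t b : ℕ) (ht : 1 ≤ t) :
    (arrLaw (1 / 2)).real {ω | 4 * ((DD ω t b : ℤ) : ℝ) ≤ 3 * b} ≤
      Real.exp (-(b : ℝ) / (200 * t)) :=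
  (hW (1 / 2) le_rfl (by norm_num) t b ht).2.1

end ScaleAux

open ScaleAux in
theorem scale (h1 : R1Stmt) (h2 : R2Stmt) (hW : WidthStmt) : ScaleStmt := by
  have hprob : IsProbabilityMeasure (arrLaw (1 / 2)) :=
    Adapted.arr_prob (by norm_num) (by norm_num)
  refine ⟨20, ?_⟩
  intro k₁ hk₁ p hu0 hu1 hv1
  -- invariant
  have main : ∀ j : ℕ, uu (1 / 2) p (2 ^ (k₁ + j)) ≤ (1 / 2) ^ (100 * (k₁ + j)) ∧
      uu (1 / 2) p (2 ^ (k₁ + j + 1)) ≤ (1 / 2) ^ (100 * (k₁ + j + 1)) ∧
      vv (1 / 2) p (4 ^ (k₁ + j + 1)) (2 ^ (k₁ + j + 1)) ≤ (1 / 2) ^ (50 * (k₁ + j + 1)) := by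
    intro j
    induction j with
    | zero => exact ⟨hu0.trans (half_anti (by omega)), hu1, hv1⟩
    | succ j ih =>
      obtain ⟨iu0, iu1, iv1⟩ := ih
      obtain ⟨k, hk⟩ : ∃ k, k = k₁ + j := ⟨_, rfl⟩
      have hk20 : 20 ≤ k := by omega
      have e1 : k₁ + (j + 1) = k + 1 := by omega
      rw [← hk] at iu0 iu1 iv1
      rw [e1]
      refine ⟨iu1, ?_⟩
      -- notation
      have hbig := pow_big hk20
      obtain ⟨n, hn⟩ : ∃ n : ℕ, n = 2 ^ k := ⟨_, rfl⟩
      have hnR : (2500 * ((k : ℝ) + 1) + 200) ≤ n := by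
        rw [hn]
        exact_mod_cast hbig
      have hn1 : 1 ≤ n := by rw [hn]; exact Nat.one_le_two_pow
      have hn2 : 2 ^ (k + 1) = 2 * n := by rw [hn]; ring
      have hn4 : 2 ^ (k + 1 + 1) = 4 * n := by rw [hn]; ring
      obtain ⟨b, hb⟩ : ∃ b : ℕ, b = 4 ^ (k + 1) := ⟨_, rfl⟩
      have hbn : b = 4 * (n * n) := by
        rw [hb, hn]
        have : (4 : ℕ) ^ (k + 1) = 4 * (2 ^ 2) ^ k := by ring
        rw [this, ← pow_mul]
        ring
      have hbR : (b : ℝ) = 4 * (n * n) := by rw [hbn]; push_cast; ring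
      have hnpos : (0 : ℝ) < n := by
        have : (1 : ℝ) ≤ n := by exact_mod_cast hn1
        linarith
      have hv0 : 0 ≤ vv (1 / 2) p b (2 * n) := measureReal_nonneg
      have hkR : (0 : ℝ) ≤ k := Nat.cast_nonneg k
      -- (R1)
      have r1 := h1 (1 / 2) p n b (80 * b) (by norm_num) (by norm_num) hn1
        (by rw [hb]; exact Nat.one_le_pow _ _ (by norm_num))
      have w1 : (arrLaw (1 / 2)).real {ω | DD ω n (4 * b : ℕ) < 3 * b} ≤
          (1 / 2) ^ (50 * (k + 2) + 4) := by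
        have h3 := width_lo hW n (4 * b) hn1
        have h4 : (arrLaw (1 / 2)).real {ω | DD ω n (4 * b : ℕ) < 3 * b} ≤
            (arrLaw (1 / 2)).real {ω | 4 * ((DD ω n (4 * b : ℕ) : ℤ) : ℝ) ≤ 3 * (4 * b : ℕ)} := by
          apply measureReal_mono _ (measure_ne_top _ _)
          intro ω hω
          simp only [mem_ofPred_eq] at hω ⊢
          have h5 : ((DD ω n (4 * b : ℕ) : ℤ) : ℝ) ≤ 3 * b := by exact_mod_cast hω.le
          push_cast at h5 ⊢
          linarith
        refine (h4.trans h3).trans ?_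
        have h6 : -((4 * b : ℕ) : ℝ) / (200 * n) = -(2 * n / 25) := by
          push_cast
          rw [hbR]
          field_simp
          ring
        rw [h6]
        apply exp_le_half
        push_cast
        linarith
      have w2 : (arrLaw (1 / 2)).real {ω | DD ω (2 * n) (4 * b : ℕ) < 3 * b} ≤
          (1 / 2) ^ (50 * (k + 2) + 4) := by
        have h3 := width_lo hW (2 * n) (4 * b) (by omega)
        have h4 : (arrLaw (1 / 2)).real {ω | DD ω (2 * n) (4 * b : ℕ) < 3 * b} ≤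
            (arrLaw (1 / 2)).real
              {ω | 4 * ((DD ω (2 * n) (4 * b : ℕ) : ℤ) : ℝ) ≤ 3 * (4 * b : ℕ)} := by
          apply measureReal_mono _ (measure_ne_top _ _)
          intro ω hω
          simp only [mem_ofPred_eq] at hω ⊢
          have h5 : ((DD ω (2 * n) (4 * b : ℕ) : ℤ) : ℝ) ≤ 3 * b := by exact_mod_cast hω.le
          push_cast at h5 ⊢
          linarith
        refine (h4.trans h3).trans ?_
        have h6 : -((4 * b : ℕ) : ℝ) / (200 * (2 * n : ℕ)) = -(n / 25) := by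
          push_cast
          rw [hbR]
          field_simp
          ring
        rw [h6]
        apply exp_le_half
        push_cast
        linarith
      have w3 : ∀ t : ℕ, 1 ≤ t → t ≤ 2 * n → (arrLaw (1 / 2)).real
          {ω | ((80 * b : ℕ) : ℤ) ≤ DD ω t (4 * b : ℕ)} ≤ (1 / 2) ^ (50 * (k + 2) + 4) := by
        intro t ht1 ht2
        have h3 := width_up hW t (4 * b) ((80 * b : ℕ) : ℝ) ht1
        have h4 : (arrLaw (1 / 2)).real {ω | ((80 * b : ℕ) : ℤ) ≤ DD ω t (4 * b : ℕ)} ≤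
            (arrLaw (1 / 2)).real
              {ω | ((80 * b : ℕ) : ℝ) ≤ ((DD ω t (4 * b : ℕ) : ℤ) : ℝ)} := by
          apply measureReal_mono _ (measure_ne_top _ _)
          intro ω hω
          simp only [mem_ofPred_eq] at hω ⊢
          exact_mod_cast hω
        refine (h4.trans h3).trans ?_
        have h6 : (((4 * b : ℕ) : ℝ) - ((80 * b : ℕ) : ℝ) / 10) / t = -(16 * (n * n) / t) := by
          push_cast
          rw [hbR]
          ring
        rw [h6]
        apply exp_le_half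
        have htR : (t : ℝ) ≤ 2 * n := by exact_mod_cast ht2
        have ht0 : (0 : ℝ) < t := by exact_mod_cast ht1
        rw [le_div_iff₀ ht0]
        push_cast
        have : (50 * ((k : ℝ) + 2) + 4) * t ≤ (50 * ((k : ℝ) + 2) + 4) * (2 * n) :=
          mul_le_mul_of_nonneg_left htR (by positivity)
        nlinarith
      have w3a := w3 n hn1 (by omega)
      have w3b := w3 (2 * n) (by omega) le_rfl
      have eb : ((4 * b : ℕ) : ℤ) = 4 ^ (k + 1 + 1) := by rw [hb]; push_cast; ring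
      have ebb : ((b : ℕ) : ℤ) = 4 ^ (k + 1) := by rw [hb]; push_cast; ring
      have iv1' : vv (1 / 2) p b (2 * n) ≤ (1 / 2) ^ (50 * (k + 1)) := by
        rw [ebb, ← hn2]; exact iv1
      have iu0' : uu (1 / 2) p n ≤ (1 / 2) ^ (100 * k) := by rw [hn]; exact iu0
      have t1 : vv (1 / 2) p b (2 * n) ^ 4 + 2 * vv (1 / 2) p b (2 * n) ^ 3 ≤
          (1 / 2) ^ (50 * (k + 2) + 4) := by
        have hv1' : vv (1 / 2) p b (2 * n) ≤ 1 := iv1'.trans (pow_le_one₀ (by norm_num) (by norm_num))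
        have h3 : vv (1 / 2) p b (2 * n) ^ 3 ≤ ((1 / 2) ^ (50 * (k + 1))) ^ 3 :=
          pow_le_pow_left₀ hv0 iv1' 3
        have h4 : vv (1 / 2) p b (2 * n) ^ 4 ≤ vv (1 / 2) p b (2 * n) ^ 3 :=
          pow_le_pow_of_le_one hv0 hv1' (by norm_num)
        have h5 : 4 * ((1 / 2 : ℝ) ^ (50 * (k + 1))) ^ 3 ≤ (1 / 2) ^ (50 * (k + 2) + 4) := by
          rw [← pow_mul]
          have e : (50 * (k + 1) * 3) = 2 + (150 * k + 148) := by ring
          have e2 : (4 : ℝ) = 2 ^ 2 := by norm_num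
          rw [e, e2, two_mul_half]
          exact half_anti (by omega)
        have h6 : 0 ≤ ((1 / 2 : ℝ) ^ (50 * (k + 1))) ^ 3 := by positivity
        linarith
      have t2 : 2 * ((80 * b : ℕ) : ℝ) * uu (1 / 2) p n ≤ (1 / 2) ^ (50 * (k + 2) + 4) := by
        have h3 : 2 * ((80 * b : ℕ) : ℝ) ≤ 2 ^ (10 + 2 * k) := by
          have e : (2 : ℝ) ^ (10 + 2 * k) = 1024 * (n * n) := by
            rw [hn, pow_add, mul_comm 2 k, pow_mul]
            push_cast
            ring
          rw [e]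
          push_cast
          rw [hbR]
          have : 0 ≤ (n : ℝ) * n := by positivity
          linarith
        calc 2 * ((80 * b : ℕ) : ℝ) * uu (1 / 2) p n ≤ 2 ^ (10 + 2 * k) * (1 / 2) ^ (100 * k) :=
              mul_le_mul h3 iu0' measureReal_nonneg (by positivity)
          _ = (1 / 2) ^ (98 * k - 10) := by
              have e : 100 * k = (10 + 2 * k) + (98 * k - 10) := by omega
              rw [e, two_mul_half]
          _ ≤ _ := half_anti (by omega)
      have t3 : (1 / 2 : ℝ) ^ (50 * (k + 2)) = 16 * (1 / 2) ^ (50 * (k + 2) + 4) := by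
        rw [pow_add]
        ring
      have newv : vv (1 / 2) p (4 ^ (k + 1 + 1)) (2 ^ (k + 1 + 1)) ≤
          (1 / 2) ^ (50 * (k + 1 + 1)) := by
        rw [← eb, hn4]
        have e : 50 * (k + 1 + 1) = 50 * (k + 2) := by ring
        rw [e, t3]
        have h0 : 0 ≤ (1 / 2 : ℝ) ^ (50 * (k + 2) + 4) := by positivity
        linarith
      refine ⟨?_, newv⟩
      -- (R2)
      obtain ⟨W, hWd⟩ : ∃ W : ℕ, W = 4 ^ (k + 1 + 1) := ⟨_, rfl⟩
      have hWn : W = 16 * (n * n) := by
        rw [hWd]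
        have : (4 : ℕ) ^ (k + 1 + 1) = 4 * 4 ^ (k + 1) := by ring
        rw [this, ← hb, hbn]
        ring
      have hWR : (W : ℝ) = 16 * (n * n) := by rw [hWn]; push_cast; ring
      have eW : ((W : ℕ) : ℤ) = 4 ^ (k + 1 + 1) := by rw [hWd]; push_cast; ring
      have r2 := h2 (1 / 2) p (2 * n) W 3 (80 * W) (by norm_num) (by norm_num) (by omega)
        (by rw [hWd]; exact Nat.one_le_pow _ _ (by norm_num))
      have e22 : 2 * (2 * n) = 4 * n := by ring
      rw [e22] at r2
      rw [hn4]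
      have newv' : vv (1 / 2) p W (4 * n) ≤ (1 / 2) ^ (50 * (k + 1 + 1)) := by
        rw [eW, ← hn4]; exact newv
      have iu1' : uu (1 / 2) p (2 * n) ≤ (1 / 2) ^ (100 * (k + 1)) := by rw [← hn2]; exact iu1
      have s1 : 2 * vv (1 / 2) p W (4 * n) ^ 3 ≤ (1 / 2) ^ (100 * (k + 2) + 2) := by
        have h3 : vv (1 / 2) p W (4 * n) ^ 3 ≤ ((1 / 2) ^ (50 * (k + 1 + 1))) ^ 3 :=
          pow_le_pow_left₀ measureReal_nonneg newv' 3
        have h5 : 2 * ((1 / 2 : ℝ) ^ (50 * (k + 1 + 1))) ^ 3 ≤ (1 / 2) ^ (100 * (k + 2) + 2) := by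
          rw [← pow_mul]
          have e : (50 * (k + 1 + 1) * 3) = 1 + (150 * k + 299) := by ring
          have e2 : (2 : ℝ) = 2 ^ 1 := by norm_num
          rw [e]
          nth_rw 1 [e2]
          rw [two_mul_half]
          exact half_anti (by omega)
        linarith
      have s2 : ((80 * W : ℕ) : ℝ) * uu (1 / 2) p (2 * n) ^ 2 ≤
          (1 / 2) ^ (100 * (k + 2) + 2) := by
        have h3 : ((80 * W : ℕ) : ℝ) ≤ 2 ^ (11 + 2 * k) := by
          have e : (2 : ℝ) ^ (11 + 2 * k) = 2048 * (n * n) := by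
            rw [hn, pow_add, mul_comm 2 k, pow_mul]
            push_cast
            ring
          rw [e]
          push_cast
          rw [hWR]
          have : 0 ≤ (n : ℝ) * n := by positivity
          linarith
        calc ((80 * W : ℕ) : ℝ) * uu (1 / 2) p (2 * n) ^ 2 ≤
            2 ^ (11 + 2 * k) * ((1 / 2) ^ (100 * (k + 1))) ^ 2 :=
              mul_le_mul h3 (pow_le_pow_left₀ measureReal_nonneg iu1' 2) (by positivity)
                (by positivity)
          _ = (1 / 2) ^ (198 * k + 189) := by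
              rw [← pow_mul]
              have e : 100 * (k + 1) * 2 = (11 + 2 * k) + (198 * k + 189) := by ring
              rw [e, two_mul_half]
          _ ≤ _ := half_anti (by omega)
      have s3 : (arrLaw (1 / 2)).real
          {ω | ((80 * W : ℕ) : ℤ) ≤ DD ω (2 * n) (1 + 2 * 3 * W : ℕ)} ≤
          (1 / 2) ^ (100 * (k + 2) + 2) := by
        have h3 := width_up hW (2 * n) (1 + 2 * 3 * W) ((80 * W : ℕ) : ℝ) (by omega)
        have h4 : (arrLaw (1 / 2)).real
            {ω | ((80 * W : ℕ) : ℤ) ≤ DD ω (2 * n) (1 + 2 * 3 * W : ℕ)} ≤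
            (arrLaw (1 / 2)).real
              {ω | ((80 * W : ℕ) : ℝ) ≤ ((DD ω (2 * n) (1 + 2 * 3 * W : ℕ) : ℤ) : ℝ)} := by
          apply measureReal_mono _ (measure_ne_top _ _)
          intro ω hω
          simp only [mem_ofPred_eq] at hω ⊢
          exact_mod_cast hω
        refine (h4.trans h3).trans ?_
        have h6 : Real.exp ((((1 + 2 * 3 * W : ℕ) : ℝ) - ((80 * W : ℕ) : ℝ) / 10) / (2 * n : ℕ)) ≤
            Real.exp (-(8 * n)) := by
          apply Real.exp_le_exp.2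
          rw [div_le_iff₀ (by push_cast; positivity)]
          push_cast
          rw [hWR]
          have : (1 : ℝ) ≤ n := by exact_mod_cast hn1
          nlinarith
        refine h6.trans ?_
        apply exp_le_half
        push_cast
        linarith
      have s4 : (1 / 2 : ℝ) ^ (100 * (k + 1 + 1)) = 4 * (1 / 2) ^ (100 * (k + 2) + 2) := by
        have e : 100 * (k + 1 + 1) = 100 * (k + 2) := by ring
        rw [e, pow_add]
        ring
      rw [s4]
      have h0 : 0 ≤ (1 / 2 : ℝ) ^ (100 * (k + 2) + 2) := by positivity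
      linarith
  intro k hk
  obtain ⟨j, rfl⟩ : ∃ j, k = k₁ + j + 1 := ⟨k - k₁ - 1, by omega⟩
  exact (main j).2

end CausalPerc.Neg
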