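import Pool.Agent.Lib.MP_a51368_pr.Neg.SlabTop

/-!
# Recursion over the slabs
-/

open MeasureTheory Set Filter Topology

noncomputable section

namespace CausalPerc.Neg

namespace SlabRec

open MeasAux

variable {α p : ℝ} {l w s N : ℕ}

/-! ### Arithmetic -/

/-- The covered blocks which are used for the target block `u`. -/
def Eu (F : Finset ℤ) (w₀ u : ℤ) : Finset ℤ :=
  (F ∪ Finset.Ioo w₀ u ∪ Finset.Ioo u w₀) \ {w₀ - 1, w₀, w₀ + 1, u}

theorem card_Eu {F : Finset ℤ} {w₀ : ℤ} (hw : w₀ ∉ F) (u : ℤ) :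
    (F.card - 3) + ((u - w₀).natAbs - 2) ≤ 2 * (Eu F w₀ u).card := by
  have h1 : F.card - 3 ≤ (Eu F w₀ u).card := by
    have h2 : F \ {w₀ - 1, w₀ + 1, u} ⊆ Eu F w₀ u := by
      intro x hx
      unfold Eu
      simp only [Finset.mem_sdiff, Finset.mem_insert, Finset.mem_singleton, not_or,
        Finset.mem_union] at hx ⊢
      exact ⟨Or.inl (Or.inl hx.1), hx.2.1, fun h => hw (h ▸ hx.1), hx.2.2.1, hx.2.2.2⟩
    have h3 := Finset.card_le_card h2
    have h4 := Finset.le_card_sdiff {w₀ - 1, w₀ + 1, u} F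
    have h5 : ({w₀ - 1, w₀ + 1, u} : Finset ℤ).card ≤ 3 := Finset.card_le_three
    omega
  have h2 : (u - w₀).natAbs - 2 ≤ (Eu F w₀ u).card := by
    rcases le_total w₀ u with h | h
    · have h3 : Finset.Ioo (w₀ + 1) u ⊆ Eu F w₀ u := by
        intro x hx
        unfold Eu
        simp only [Finset.mem_sdiff, Finset.mem_insert, Finset.mem_singleton, not_or,
          Finset.mem_union, Finset.mem_Ioo] at hx ⊢
        exact ⟨Or.inl (Or.inr ⟨by omega, hx.2⟩), by omega, by omega, by omega, by omega⟩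
      have h4 := Finset.card_le_card h3
      rw [Int.card_Ioo] at h4
      omega
    · have h3 : Finset.Ioo u (w₀ - 1) ⊆ Eu F w₀ u := by
        intro x hx
        unfold Eu
        simp only [Finset.mem_sdiff, Finset.mem_insert, Finset.mem_singleton, not_or,
          Finset.mem_union, Finset.mem_Ioo] at hx ⊢
        exact ⟨Or.inr ⟨hx.1, by omega⟩, by omega, by omega, by omega, by omega⟩
      have h4 := Finset.card_le_card h3
      rw [Int.card_Ioo] at h4
      omega
  omega

theorem sum_u (w₀ : ℤ) (n : ℕ) :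
    ∑ u ∈ Finset.Icc (w₀ - n) (w₀ + n), ((1 : ℝ) / 4) ^ ((u - w₀).natAbs - 2) ≤
      6 - (2 / 3) * (1 / 4) ^ (n - 2) := by
  induction n with
  | zero =>
    simp
    norm_num
  | succ n ih =>
    have h1 : Finset.Icc (w₀ - ((n + 1 : ℕ) : ℤ)) (w₀ + ((n + 1 : ℕ) : ℤ)) =
        insert (w₀ - (n + 1)) (insert (w₀ + (n + 1)) (Finset.Icc (w₀ - n) (w₀ + n))) := by
      ext x
      simp only [Finset.mem_insert, Finset.mem_Icc]
      push_cast
      omega
    rw [h1, Finset.sum_insert, Finset.sum_insert]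
    · have h2 : (w₀ - ((n : ℤ) + 1) - w₀).natAbs = n + 1 := by omega
      have h3 : (w₀ + ((n : ℤ) + 1) - w₀).natAbs = n + 1 := by omega
      rw [h2, h3]
      rcases n with _ | _ | n
      · simp
        norm_num
      · simp at ih ⊢
        have h5 : Finset.Icc (w₀ - 1) (w₀ + 1) = {w₀ - 1, w₀, w₀ + 1} := by
          ext x
          simp only [Finset.mem_insert, Finset.mem_Icc, Finset.mem_singleton]
          omega
        rw [h5, Finset.sum_insert, Finset.sum_insert, Finset.sum_singleton]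
        · simp
          norm_num
        · simp
        · simp
          omega
      · have h4 : n + 1 + 1 - 2 = n := by omega
        have h5 : n + 1 + 1 + 1 - 2 = n + 1 := by omega
        rw [h4] at ih
        rw [h5]
        have h6 : ((1 : ℝ) / 4) ^ (n + 1) = (1 / 4) ^ n * (1 / 4) := pow_succ _ _
        rw [h6]
        linarith
    · simp
    · simp only [Finset.mem_insert, Finset.mem_Icc, not_or]
      omega

theorem pow_bound (f : ℕ) : ((1 : ℝ) / 4) ^ (f - 3) ≤ 8 * (1 / 2) ^ f := by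
  rcases le_total f 3 with h | h
  · have h1 : f - 3 = 0 := by omega
    rw [h1, pow_zero]
    have h2 : ((1 : ℝ) / 2) ^ 3 ≤ (1 / 2) ^ f :=
      pow_le_pow_of_le_one (by norm_num) (by norm_num) h
    linarith
  · obtain ⟨g, rfl⟩ := Nat.exists_eq_add_of_le h
    have h1 : 3 + g - 3 = g := by omega
    rw [h1, pow_add]
    have h2 : ((1 : ℝ) / 4) ^ g ≤ (1 / 2) ^ g :=
      pow_le_pow_left₀ (by norm_num) (by norm_num) g
    linarith

/-! ### The claim -/

/-- The claim for `k` slabs. -/
def Cl (α p : ℝ) (l w s k : ℕ) : Prop :=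
  ∀ (A : Set ℤ) (F : Finset ℤ) (w₀ : ℤ), w₀ ∉ F →
    (∀ v ∈ F, Rich w A (v * l) ((v + 1) * l)) →
    arrLaw α (TopS p l w₀ (k * s) ∩ CovS p l A F (k * s)) ≤
      ENNReal.ofReal ((1 / 2) ^ (F.card + k))

theorem markov {S : Set Arr} {f : Arr → ENNReal} (hf : Measurable f) (h : ∀ ω ∈ S, 1 ≤ f ω) :
    arrLaw α S ≤ ∫⁻ ω, f ω ∂arrLaw α := by
  have h1 := mul_meas_ge_le_lintegral (μ := arrLaw α) hf 1
  rw [one_mul] at h1
  exact (measure_mono fun ω hω => h ω hω).trans h1

theorem claim_one (hC : ConfineStmt) (hF : DFirstStmt) (hR : RecentreStmt)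
    (hSh : StripShiftStmt) (hCI : ColIndepStmt) (h0 : 0 ≤ α) (h1 : α < 1)
    (h : SlabCrit α p l w s N) : Cl α p l w s 1 := by
  classical
  intro A F w₀ hw₀ hA
  rw [one_mul]
  set F' : Finset ℤ := F \ {w₀ - 1, w₀ + 1} with hF'
  let B : ℤ → Set Arr := fun v => {ω | ¬ Good1 (strip p ω) {z | z + v * l ∈ A} l w s}
  let f : Arr → ENNReal := fun ω => g0 p l N (cshift ((w₀ - 1) * l) ω) *
    ∏ v ∈ F', (B v).indicator 1 (cshift (v * l) ω)
  have hBm : ∀ v, MeasurableSet (B v) := fun v => mGd _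
  have hf : Measurable f := (m_g0.comp (meas_cshift _)).mul
    (Finset.measurable_prod _ fun v _ => (measurable_one.indicator (hBm v)).comp (meas_cshift _))
  have hpt : ∀ ω ∈ TopS p l w₀ s ∩ CovS p l A F s, 1 ≤ f ω := by
    rintro ω ⟨⟨e, he1, he2, he3⟩, hcov⟩
    have hbd := bd_of_top hC hF hR h.hN h.hNs he1 he2 he3
    rw [← hSh.1] at hbd
    have e1 : g0 p l N (cshift ((w₀ - 1) * l) ω) = 1 := by
      unfold g0
      rw [indicator_of_mem (by exact hbd)]
      rfl
    have e2 : ∏ v ∈ F', (B v).indicator (1 : Arr → ENNReal) (cshift (v * l) ω) = 1 := by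
      refine Finset.prod_eq_one fun v hv => ?_
      rw [indicator_of_mem]
      · rfl
      · intro hg
        have hvF : v ∈ F := (Finset.mem_sdiff.1 hv).1
        have h2 := cross_of_good1 h.hwl hg
        exact hcov v hvF ((cross_shift hR hSh A v s ω).1 h2)
    show 1 ≤ f ω
    simp only [f]
    rw [e1, e2, one_mul]
  refine (markov hf hpt).trans ?_
  have hi := indep2 hCI h0 h1 s F' (fun v => (B v).indicator 1)
    (fun v => measurable_one.indicator (hBm v)) (fun v ω ω' hag => by
      have key := good_dep (p := p) (w := w) (A := {z | z + v * l ∈ A}) hag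
      by_cases g : Good1 (strip p ω) {z | z + v * l ∈ A} l w s
      · rw [indicator_of_notMem (by exact fun g2 => g2 g),
          indicator_of_notMem (by exact fun g2 => g2 (key.1 g))]
      · rw [indicator_of_mem (by exact g), indicator_of_mem (by exact fun g2 => g (key.2 g2))]
        rfl) w₀ (g0 p l N) m_g0 (fun ω ω' hag => dep_g0 h.hNs ω ω' hag) (by
      intro v hv
      simp only [hF', Finset.mem_sdiff, Finset.mem_insert, Finset.mem_singleton, not_or] at hv
      exact ⟨hv.2.1, fun g => hw₀ (g ▸ hv.1), hv.2.2⟩)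
  have hff : ∫⁻ ω, f ω ∂arrLaw α = (∫⁻ ω, g0 p l N ω ∂arrLaw α) *
      ∏ v ∈ F', ∫⁻ ω, (B v).indicator 1 ω ∂arrLaw α := hi
  rw [hff]
  have hg : ∫⁻ ω, g0 p l N ω ∂arrLaw α ≤ ENNReal.ofReal (1 / 10 ^ 9) := by
    unfold g0
    rw [lintegral_indicator_one mBd]
    exact toE h0 h1 h.bd
  calc (∫⁻ ω, g0 p l N ω ∂arrLaw α) * ∏ v ∈ F', ∫⁻ ω, (B v).indicator 1 ω ∂arrLaw α
      ≤ ENNReal.ofReal (1 / 10 ^ 9) * ∏ v ∈ F', ENNReal.ofReal (1 / 10 ^ 9) := by
        gcongr with v hv
        rw [lintegral_indicator_one (hBm v)]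
        exact toE h0 h1 (h.good _ (rich_shift (hA v (Finset.mem_sdiff.1 hv).1)))
    _ = ENNReal.ofReal ((1 / 10 ^ 9) ^ (F'.card + 1)) := by
        rw [Finset.prod_const, ← ENNReal.ofReal_pow (by norm_num),
          ← ENNReal.ofReal_mul (by norm_num)]
        congr 1
        ring
    _ ≤ ENNReal.ofReal ((1 / 2) ^ (F.card + 1)) := by
        refine ENNReal.ofReal_le_ofReal ?_
        have h2 : F.card ≤ F'.card + 2 := by
          have h4 := Finset.le_card_sdiff {w₀ - 1, w₀ + 1} F
          have h5 : ({w₀ - 1, w₀ + 1} : Finset ℤ).card ≤ 2 := Finset.card_le_two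
          rw [← hF'] at h4
          omega
        calc ((1 : ℝ) / 10 ^ 9) ^ (F'.card + 1) ≤ ((1 / 2) ^ 3) ^ (F'.card + 1) :=
              pow_le_pow_left₀ (by norm_num) (by norm_num) _
          _ = (1 / 2) ^ (3 * (F'.card + 1)) := by rw [pow_mul]
          _ ≤ (1 / 2) ^ (F.card + 1) :=
              pow_le_pow_of_le_one (by norm_num) (by norm_num) (by omega)

theorem claim_step (hB : BlockStmt) (hC : ConfineStmt) (hL : DLastStmt) (hF : DFirstStmt)
    (hR : RecentreStmt) (hSh : StripShiftStmt) (hCI : ColIndepStmt) (hSp : SplitStmt)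
    (hCs : CshiftStmt) (hWM : WidthMomStmt) (h0 : 0 ≤ α) (h1 : α < 1)
    (h : SlabCrit α p l w s N) {k : ℕ} (hk : 1 ≤ k) (hcl : Cl α p l w s k) :
    Cl α p l w s (k + 1) := by
  classical
  intro A F w₀ hw₀ hA
  have hw := h.hw
  have hl1 : 1 ≤ l := hw.trans h.hwl
  have hs1 : 1 ≤ s := h.hN.trans h.hNs
  have hl0 : (0 : ℤ) < l := by positivity
  have hks : (k + 1) * s = s + k * s := by ring
  have hks1 : 1 ≤ k * s := Nat.mul_pos hk hs1
  have hblk : ∀ v z : ℤ, v * l ≤ z → z < (v + 1) * l → z / (l : ℤ) = v := by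
    intro v z hz1 hz2
    exact le_antisymm (Int.lt_add_one_iff.1 (Int.ediv_lt_of_lt_mul hl0 hz2))
      (Int.le_ediv_of_mul_le hl0 hz1)
  set A' : Set ℤ := {z | z ∈ A ∨ z / (l : ℤ) ∉ F} with hA'
  have hrich : ∀ v : ℤ, Rich w A' (v * l) ((v + 1) * l) := by
    intro v
    by_cases hv : v ∈ F
    · exact rich_mono (hA v hv) (fun z hz => Or.inl hz) le_rfl le_rfl
    · intro c hc1 hc2
      refine ⟨c, Or.inr ?_, le_rfl, by omega⟩
      rw [hblk v c hc1 (by omega)]
      exact hv
  set n := F.card + k + 3 with hn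
  have hqk := qBound hCI hR hSh hSp h0 h1 h (k + 1)
  have hcov : ∀ J : Finset ℤ, arrLaw α (CovS p l univ J ((k + 1) * s)) ≤
      ENNReal.ofReal ((1 / 2) ^ J.card) := fun J =>
    covB hCI hR hSh h0 h1 hqk univ J fun v _ c _ _ => ⟨c, mem_univ c, le_rfl, by omega⟩
  have hsub : TopS p l w₀ ((k + 1) * s) ∩ CovS p l A F ((k + 1) * s) ⊆
      (⋃ u ∈ Finset.Icc (w₀ - n) (w₀ + n),
        {ω | (ω, post s ω) ∈ SU p l N A' s (k * s) (Eu F w₀ u) w₀ u}) ∪
      (CovS p l univ (Finset.Ioc w₀ (w₀ + n)) ((k + 1) * s) ∪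
        CovS p l univ (Finset.Ico (w₀ - n) w₀) ((k + 1) * s)) := by
    rintro ω ⟨⟨e, he1, he2, he3⟩, hco⟩
    have hbd := bd_of_top hC hF hR h.hN (show N ≤ (k + 1) * s by
      rw [hks]
      have := h.hNs
      omega) he1 he2 he3
    rw [← hSh.1] at hbd
    rw [hks] at he3
    rcases step_cases hB hL hks1 he1 he2 he3 n with ⟨u, hu, ⟨y, hy1, hy2, hy3⟩, hbt⟩ | h3 | h3
    · left
      simp only [mem_iUnion]
      refine ⟨u, hu, ⟨hbd, y, ?_, ?_, ?_⟩, ?_⟩
      · rw [strip_D] at hy1
        exact hy1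
      · rw [strip_D] at hy2
        exact hy2
      · simp only
        rw [hSh.2.1]
        exact hy3
      · intro v hv c hc1 hc2 hcr
        simp only at hc1 hc2 hcr
        rw [hSh.2.1] at hcr
        rw [← strip_D p] at hc1 hc2
        have h4 := cross_block hs1 hc1 hc2 hcr
        simp only [Eu, Finset.mem_sdiff, Finset.mem_union, Finset.mem_Ioo, Finset.mem_insert,
          Finset.mem_singleton, not_or] at hv
        by_cases hvF : v ∈ F
        · refine hco v hvF ?_
          obtain ⟨x, y', hx, hx1, hx2, hx3⟩ := h4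
          refine ⟨x, y', ?_, hx1, hx2, ?_⟩
          · rcases hx with hx | hx
            · exact hx
            · rw [hblk v x hx1 hx2] at hx
              exact absurd hvF hx
          · rw [hks]
            exact hx3
        · refine hbt v ?_ h4.cross
          rcases hv.1 with (hv1 | hv1) | hv1
          · exact absurd hv1 hvF
          · exact Or.inl hv1
          · exact Or.inr hv1
    · right; left
      intro v hv
      rw [Finset.mem_Ioc] at hv
      rw [hks]
      exact h3 v hv.1 hv.2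
    · right; right
      intro v hv
      rw [Finset.mem_Ico] at hv
      rw [hks]
      exact h3 v hv.2 hv.1
  have hsum : arrLaw α (⋃ u ∈ Finset.Icc (w₀ - n) (w₀ + n),
        {ω | (ω, post s ω) ∈ SU p l N A' s (k * s) (Eu F w₀ u) w₀ u}) ≤
      ENNReal.ofReal ((1 / 2) ^ k * (45 / 30000) * (8 * (1 / 2) ^ F.card) * 6) := by
    refine (measure_biUnion_finset_le _ _).trans ?_
    calc ∑ u ∈ Finset.Icc (w₀ - n) (w₀ + n),
          arrLaw α {ω | (ω, post s ω) ∈ SU p l N A' s (k * s) (Eu F w₀ u) w₀ u}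
        ≤ ∑ u ∈ Finset.Icc (w₀ - n) (w₀ + n), ENNReal.ofReal ((1 / 2) ^ k * (45 / 30000) *
            (8 * (1 / 2) ^ F.card) * (1 / 4) ^ ((u - w₀).natAbs - 2)) := by
          refine Finset.sum_le_sum fun u _ => ?_
          refine (step_u hR hSh hCI hWM hCs hSp h0 h1 h hcl A' (Eu F w₀ u) w₀ u ?_ ?_
            fun v _ => hrich v).trans ?_
          · simp [Eu]
          · intro v hv
            simp only [Eu, Finset.mem_sdiff, Finset.mem_insert, Finset.mem_singleton,
              not_or] at hv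
            exact ⟨hv.2.1, hv.2.2.1, hv.2.2.2.1⟩
          · refine ENNReal.ofReal_le_ofReal ?_
            have h3 : ((1 : ℝ) / 16) ^ (Eu F w₀ u).card ≤
                8 * (1 / 2) ^ F.card * (1 / 4) ^ ((u - w₀).natAbs - 2) := by
              calc ((1 : ℝ) / 16) ^ (Eu F w₀ u).card = (1 / 4) ^ (2 * (Eu F w₀ u).card) := by
                    rw [pow_mul]
                    norm_num
                _ ≤ (1 / 4) ^ ((F.card - 3) + ((u - w₀).natAbs - 2)) :=
                    pow_le_pow_of_le_one (by norm_num) (by norm_num) (card_Eu hw₀ u)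
                _ = (1 / 4) ^ (F.card - 3) * (1 / 4) ^ ((u - w₀).natAbs - 2) := pow_add _ _ _
                _ ≤ _ := by
                    gcongr
                    exact pow_bound F.card
            calc (1 / 2) ^ k * (45 / 30000) * ((1 : ℝ) / 16) ^ (Eu F w₀ u).card
                ≤ (1 / 2) ^ k * (45 / 30000) *
                  (8 * (1 / 2) ^ F.card * (1 / 4) ^ ((u - w₀).natAbs - 2)) := by gcongr
              _ = _ := by ring
      _ = ENNReal.ofReal ((1 / 2) ^ k * (45 / 30000) * (8 * (1 / 2) ^ F.card) *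
            ∑ u ∈ Finset.Icc (w₀ - n) (w₀ + n), (1 / 4) ^ ((u - w₀).natAbs - 2)) := by
          rw [Finset.mul_sum, ENNReal.ofReal_sum_of_nonneg]
          intro u _
          positivity
      _ ≤ _ := by
          refine ENNReal.ofReal_le_ofReal ?_
          have h3 := sum_u w₀ n
          have h4 : (0 : ℝ) ≤ (2 / 3) * (1 / 4) ^ (n - 2) := by positivity
          gcongr
          linarith
  have hc1 : (Finset.Ioc w₀ (w₀ + n)).card = n := by
    rw [Int.card_Ioc]
    omega
  have hc2 : (Finset.Ico (w₀ - n) w₀).card = n := by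
    rw [Int.card_Ico]
    omega
  refine (measure_mono hsub).trans ((measure_union_le _ _).trans ?_)
  refine (add_le_add hsum ((measure_union_le _ _).trans
    (add_le_add (hcov _) (hcov _)))).trans ?_
  rw [hc1, hc2, ← ENNReal.ofReal_add (by positivity) (by positivity),
    ← ENNReal.ofReal_add (by positivity) (by positivity)]
  refine ENNReal.ofReal_le_ofReal ?_
  have e1 : ((1 : ℝ) / 2) ^ n = (1 / 2) ^ F.card * (1 / 2) ^ k * (1 / 8) := by
    rw [hn, pow_add, pow_add]
    norm_num
  have e2 : ((1 : ℝ) / 2) ^ (F.card + (k + 1)) = (1 / 2) ^ F.card * (1 / 2) ^ k * (1 / 2) := by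
    rw [pow_add, pow_add]
    ring
  rw [e1, e2]
  have h5 : (0 : ℝ) < (1 / 2) ^ F.card * (1 / 2) ^ k := by positivity
  nlinarith

end SlabRec

open SlabRec in
theorem slabRec (hB : BlockStmt) (hC : ConfineStmt) (hL : DLastStmt) (hF : DFirstStmt)
    (hR : RecentreStmt) (hSh : StripShiftStmt) (hCI : ColIndepStmt) (hSp : SplitStmt)
    (hCs : CshiftStmt) (hWM : WidthMomStmt) : SlabRecStmt := by
  intro α p l w s N hα1 h1 h
  have h0 : 0 ≤ α := by linarith
  have := Adapted.arr_prob h0 h1
  have hw := h.hw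
  have hl1 : 1 ≤ l := hw.trans h.hwl
  have hs1 : 1 ≤ s := h.hN.trans h.hNs
  have hl0 : (0 : ℤ) < l := by positivity
  constructor
  · intro n
    have h2 := qBound hCI hR hSh hSp h0 h1 h n univ fun c _ _ =>
      ⟨c, mem_univ c, le_rfl, by omega⟩
    have h3 : arrLaw α {ω | ¬ (strip p ω).Cross 0 l n} ≤ ENNReal.ofReal (1 / 2) := by
      refine (measure_mono ?_).trans h2
      intro ω hω hc
      exact hω (Strip.Cross.anti (Nat.le_mul_of_pos_right n hs1) hc)
    exact ENNReal.toReal_le_of_le_ofReal (by norm_num) h3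
  · have hcl : ∀ k : ℕ, Cl α p l w s (k + 1) := by
      intro k
      induction k with
      | zero => exact claim_one hC hF hR hSh hCI h0 h1 h
      | succ k ih =>
        exact claim_step hB hC hL hF hR hSh hCI hSp hCs hWM h0 h1 h (by omega) ih
    have hu : ∀ n, uu α p n ≤ (1 / 2) ^ (n / s) := by
      intro n
      rcases Nat.eq_zero_or_pos (n / s) with h3 | h3
      · rw [h3, pow_zero]
        exact measureReal_le_one
      · obtain ⟨k, hk⟩ := Nat.exists_eq_succ_of_ne_zero h3.ne'
        rw [hk]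
        have h4 := hcl k univ ∅ 0 (by simp) (by simp)
        have h5 : (k + 1) * s ≤ n := by
          rw [← Nat.succ_eq_add_one, ← hk]
          exact Nat.div_mul_le_self n s
        have h6 : arrLaw α {ω | (strip p ω).DUp univ n 0} ≤
            ENNReal.ofReal ((1 / 2) ^ (k + 1)) := by
          rw [Finset.card_empty, zero_add] at h4
          refine (measure_mono ?_).trans h4
          intro ω hω
          refine ⟨⟨0, by simp, by simpa using hl0, ?_⟩, fun v hv => absurd hv (by simp)⟩
          exact hF _ univ ((k + 1) * s) n 0 (Nat.mul_pos (by omega) hs1) h5 hω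
        exact ENNReal.toReal_le_of_le_ofReal (by positivity) h6
    refine squeeze_zero (fun n => measureReal_nonneg) hu ?_
    exact (tendsto_pow_atTop_nhds_zero_of_lt_one (by norm_num) (by norm_num)).comp
      (Nat.tendsto_div_const_atTop (by omega))

end CausalPerc.Neg
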