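import Pool.Agent.Lib.MP_a51368_pr.Neg.Spec2

/-!
# Superpolynomial decay at a parameter with barriers and summable `u_n`
-/

open MeasureTheory Set Filter Topology

namespace CausalPerc.Neg

namespace SuperPolyM

theorem exists_small (c : ℕ → ℝ) (hc : Summable c) (η : ℝ) (hη : 0 < η) (N : ℕ) :
    ∃ k, N ≤ k ∧ ((k : ℝ) + 1) * c k ≤ η := by
  by_contra hcon
  push Not at hcon
  have h1 : Summable fun k : ℕ => c (k + N) := (summable_nat_add_iff N).2 hc
  have h2 : Summable fun k : ℕ => η * (1 / (((k + N + 1 : ℕ) : ℝ))) := by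
    refine Summable.of_nonneg_of_le (fun k => by positivity) (fun k => ?_) h1
    have h3 := hcon (k + N) (by omega)
    have hpos : (0 : ℝ) < (((k + N + 1 : ℕ) : ℝ)) := by positivity
    rw [mul_one_div, div_le_iff₀ hpos]
    push_cast at h3 ⊢
    nlinarith [h3]
  have h4 : Summable fun k : ℕ => (1 / (((k + N + 1 : ℕ) : ℝ))) := by
    have := h2.mul_left (1 / η)
    refine this.congr (fun k => ?_)
    field_simp
  have h5 : Summable fun k : ℕ => (1 / ((k : ℝ))) := by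
    rw [← summable_nat_add_iff (N + 1)]
    refine h4.congr (fun k => ?_)
    rw [show k + N + 1 = k + (N + 1) by ring]
  exact Real.not_summable_one_div_natCast h5

theorem pow_eventually (M : ℝ) : ∀ᶠ k : ℕ in atTop, M ≤ 2 ^ k :=
  (tendsto_pow_atTop_atTop_of_one_lt (by norm_num : (1 : ℝ) < 2)).eventually_ge_atTop M

theorem small_eventually (A : ℕ) (η : ℝ) (hη : 0 < η) :
    ∃ N : ℕ, ∀ k ≥ N, 3 * (1 / 2 : ℝ) ^ ((A + 2) * (k + 1)) ≤ η := by
  obtain ⟨N, hN⟩ := (pow_eventually (3 / η)).exists_forall_of_atTop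
  refine ⟨N, fun k hk => ?_⟩
  have h1 := hN k hk
  have h2 : (1 / 2 : ℝ) ^ ((A + 2) * (k + 1)) ≤ (1 / 2) ^ k := by
    apply pow_le_pow_of_le_one (by norm_num) (by norm_num)
    nlinarith
  have h3 : (0 : ℝ) < 2 ^ k := by positivity
  have h4 : (1 / 2 : ℝ) ^ k = 1 / 2 ^ k := by rw [one_div, inv_pow, one_div]
  rw [h4] at h2
  rw [div_le_iff₀ hη] at h1
  calc 3 * (1 / 2 : ℝ) ^ ((A + 2) * (k + 1)) ≤ 3 * (1 / 2 ^ k) := by linarith
    _ = 3 / 2 ^ k := by ring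
    _ ≤ η := by rw [div_le_iff₀ h3]; linarith

theorem seq_core (u : ℕ → ℝ) (hu0 : ∀ n, 0 ≤ u n) (hanti : ∀ n n', 1 ≤ n → n ≤ n' → u n' ≤ u n)
    (hs : Summable u) (C : ℕ) (hC : 1 ≤ C)
    (hrec : ∀ B k : ℕ, 1 ≤ B → u (2 ^ (k + 1)) ≤ 3 * (1 / 2) ^ (B * (k + 1)) +
      60 * ((B : ℝ) * (k + 1)) * C * 2 ^ k * u (2 ^ k) ^ 2) (A : ℕ) :
    ∀ᶠ k : ℕ in atTop, u (2 ^ k) ≤ (1 / 2) ^ (A * k) := by
  have hcond : Summable fun k : ℕ => (2 : ℝ) ^ k * u (2 ^ k) :=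
    (summable_condensed_iff_of_nonneg hu0 (fun m n hm hmn => hanti m n hm hmn)).2 hs
  set a : ℕ → ℝ := fun k => ((k : ℝ) + 1) * ((2 : ℝ) ^ k * u (2 ^ k)) with ha
  have ha0 : ∀ k, 0 ≤ a k := fun k => by
    have := hu0 (2 ^ k); simp only [ha]; positivity
  have hCr : (1 : ℝ) ≤ C := by exact_mod_cast hC
  set D : ℝ := 240 * ((A : ℝ) + 4) * C with hD
  have hD0 : 0 < D := by
    have : (0 : ℝ) < C := by linarith
    rw [hD]; positivity
  -- recursion for a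
  have hreca : ∀ k, a (k + 1) ≤ D * a k ^ 2 + 3 * (1 / 2 : ℝ) ^ ((A + 2) * (k + 1)) := by
    intro k
    have h1 := hrec (A + 4) k (by omega)
    have h2 : (0 : ℝ) ≤ ((k : ℝ) + 2) * 2 ^ (k + 1) := by positivity
    have h3 := mul_le_mul_of_nonneg_left h1 h2
    have h4 : a (k + 1) = ((k : ℝ) + 2) * 2 ^ (k + 1) * u (2 ^ (k + 1)) := by
      simp only [ha]; push_cast; ring
    rw [h4]
    refine h3.trans ?_
    have hk2 : (k : ℝ) + 2 ≤ 2 ^ (k + 1) := by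
      have h : k + 1 < 2 ^ (k + 1) := Nat.lt_two_pow_self
      have h' : ((k + 2 : ℕ) : ℝ) ≤ ((2 ^ (k + 1) : ℕ) : ℝ) := by exact_mod_cast h
      push_cast at h'
      exact h'
    have h5 : ((k : ℝ) + 2) * 2 ^ (k + 1) * (3 * (1 / 2) ^ ((A + 4) * (k + 1))) ≤
        3 * (1 / 2 : ℝ) ^ ((A + 2) * (k + 1)) := by
      have e1 : (1 / 2 : ℝ) ^ ((A + 4) * (k + 1)) =
          (1 / 2) ^ ((A + 2) * (k + 1)) * ((1 / 2) ^ (k + 1) * (1 / 2) ^ (k + 1)) := by
        rw [← pow_add, ← pow_add]; congr 1; ring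
      have e2 : (2 : ℝ) ^ (k + 1) * (1 / 2) ^ (k + 1) = 1 := by
        rw [← mul_pow]; norm_num
      have e3 : ((k : ℝ) + 2) * (1 / 2) ^ (k + 1) ≤ 1 := by
        calc ((k : ℝ) + 2) * (1 / 2) ^ (k + 1) ≤ 2 ^ (k + 1) * (1 / 2) ^ (k + 1) := by
              apply mul_le_mul_of_nonneg_right hk2; positivity
          _ = 1 := e2
      rw [e1]
      have e4 : (0 : ℝ) ≤ (1 / 2) ^ ((A + 2) * (k + 1)) := by positivity
      calc ((k : ℝ) + 2) * 2 ^ (k + 1) * (3 * ((1 / 2) ^ ((A + 2) * (k + 1)) *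
            ((1 / 2) ^ (k + 1) * (1 / 2) ^ (k + 1))))
          = 3 * (1 / 2) ^ ((A + 2) * (k + 1)) * (((k : ℝ) + 2) * (1 / 2) ^ (k + 1)) *
            (2 ^ (k + 1) * (1 / 2) ^ (k + 1)) := by ring
        _ = 3 * (1 / 2) ^ ((A + 2) * (k + 1)) * (((k : ℝ) + 2) * (1 / 2) ^ (k + 1)) := by
            rw [e2, mul_one]
        _ ≤ 3 * (1 / 2) ^ ((A + 2) * (k + 1)) * 1 := by
            apply mul_le_mul_of_nonneg_left e3; positivity
        _ = _ := by ring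
    have h6 : ((k : ℝ) + 2) * 2 ^ (k + 1) * (60 * (((A + 4 : ℕ) : ℝ) * (k + 1)) * C * 2 ^ k *
        u (2 ^ k) ^ 2) ≤ D * a k ^ 2 := by
      have e1 : (0 : ℝ) ≤ (2 ^ k) ^ 2 * u (2 ^ k) ^ 2 := by positivity
      have e2 : ((k : ℝ) + 2) * (k + 1) ≤ 2 * (k + 1) ^ 2 := by nlinarith [(Nat.cast_nonneg k : (0 : ℝ) ≤ k)]
      have e3 : (0 : ℝ) ≤ 120 * ((A : ℝ) + 4) * C := by
        have : (0 : ℝ) < C := by linarith
        positivity
      calc ((k : ℝ) + 2) * 2 ^ (k + 1) * (60 * (((A + 4 : ℕ) : ℝ) * (k + 1)) * C * 2 ^ k *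
            u (2 ^ k) ^ 2)
          = (120 * ((A : ℝ) + 4) * C) * (((k : ℝ) + 2) * (k + 1)) *
            ((2 ^ k) ^ 2 * u (2 ^ k) ^ 2) := by push_cast; ring
        _ ≤ (120 * ((A : ℝ) + 4) * C) * (2 * (k + 1) ^ 2) * ((2 ^ k) ^ 2 * u (2 ^ k) ^ 2) := by
            apply mul_le_mul_of_nonneg_right _ e1
            exact mul_le_mul_of_nonneg_left e2 e3
        _ = D * a k ^ 2 := by simp only [hD, ha]; ring
    rw [mul_add]
    linarith
  -- choice of η and k₀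
  set η : ℝ := (1 / 2) ^ (A + 2) / D with hη
  have hη0 : 0 < η := by rw [hη]; positivity
  have hDη : D * η = (1 / 2) ^ (A + 2) := by rw [hη]; field_simp
  obtain ⟨N, hN⟩ := small_eventually A (η / 2) (by positivity)
  obtain ⟨k₀, hk₀, hak₀⟩ := exists_small _ hcond η hη0 N
  have hq : (1 / 2 : ℝ) ^ (A + 2) ≤ 1 / 4 := by
    calc (1 / 2 : ℝ) ^ (A + 2) ≤ (1 / 2) ^ 2 :=
          pow_le_pow_of_le_one (by norm_num) (by norm_num) (by omega)
      _ = 1 / 4 := by norm_num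
  have claim1 : ∀ k, k₀ ≤ k → a k ≤ η := by
    intro k hk
    induction k, hk using Nat.le_induction with
    | base => exact hak₀
    | succ k hk ih =>
      have h1 := hreca k
      have h2 := hN k (hk₀.trans hk)
      have h3 : D * a k ^ 2 ≤ η / 2 := by
        have : a k ^ 2 ≤ η * η := by nlinarith [ha0 k]
        calc D * a k ^ 2 ≤ D * (η * η) := mul_le_mul_of_nonneg_left this hD0.le
          _ = (D * η) * η := by ring
          _ ≤ (1 / 4) * η := by rw [hDη]; exact mul_le_mul_of_nonneg_right hq hη0.le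
          _ ≤ η / 2 := by linarith
      linarith
  set M : ℝ := max (2 ^ ((A + 1) * k₀) * η) 6 with hM
  have claim2 : ∀ k, k₀ ≤ k → a k ≤ M * (1 / 2) ^ ((A + 1) * k) := by
    intro k hk
    induction k, hk using Nat.le_induction with
    | base =>
      have e2 : (2 : ℝ) ^ ((A + 1) * k₀) * (1 / 2) ^ ((A + 1) * k₀) = 1 := by
        rw [← mul_pow]; norm_num
      have e3 : (0 : ℝ) ≤ (1 / 2) ^ ((A + 1) * k₀) := by positivity
      calc a k₀ ≤ η := claim1 k₀ le_rfl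
        _ = (2 ^ ((A + 1) * k₀) * η) * (1 / 2) ^ ((A + 1) * k₀) := by
            rw [mul_right_comm, e2, one_mul]
        _ ≤ M * (1 / 2) ^ ((A + 1) * k₀) :=
            mul_le_mul_of_nonneg_right (le_max_left _ _) e3
    | succ k hk ih =>
      have h1 := hreca k
      have h2 := claim1 k hk
      have h3 : D * a k ^ 2 ≤ (1 / 2) ^ (A + 2) * a k := by
        calc D * a k ^ 2 = D * a k * a k := by ring
          _ ≤ D * η * a k := by
              apply mul_le_mul_of_nonneg_right _ (ha0 k)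
              exact mul_le_mul_of_nonneg_left h2 hD0.le
          _ = (1 / 2) ^ (A + 2) * a k := by rw [hDη]
      have h4 : (1 / 2 : ℝ) ^ (A + 2) * a k ≤ (M / 2) * (1 / 2) ^ ((A + 1) * (k + 1)) := by
        calc (1 / 2 : ℝ) ^ (A + 2) * a k ≤ (1 / 2 : ℝ) ^ (A + 2) * (M * (1 / 2) ^ ((A + 1) * k)) :=
              mul_le_mul_of_nonneg_left ih (by positivity)
          _ = (M / 2) * (1 / 2) ^ ((A + 1) * (k + 1)) := by
              have e1 : (1 / 2 : ℝ) ^ (A + 2) = (1 / 2) ^ (A + 1) * (1 / 2) := pow_succ _ _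
              have e2 : (1 / 2 : ℝ) ^ ((A + 1) * (k + 1)) =
                  (1 / 2) ^ ((A + 1) * k) * (1 / 2) ^ (A + 1) := by
                rw [← pow_add]; congr 1
              rw [e1, e2]; ring
      have h5 : (3 : ℝ) * (1 / 2) ^ ((A + 2) * (k + 1)) ≤ 3 * (1 / 2) ^ ((A + 1) * (k + 1)) := by
        apply mul_le_mul_of_nonneg_left _ (by norm_num)
        apply pow_le_pow_of_le_one (by norm_num) (by norm_num)
        nlinarith
      have h6 : (6 : ℝ) ≤ M := le_max_right _ _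
      have e3 : (0 : ℝ) ≤ (1 / 2) ^ ((A + 1) * (k + 1)) := by positivity
      nlinarith
  filter_upwards [pow_eventually M, eventually_ge_atTop k₀] with k hk1 hk2
  have h1 := claim2 k hk2
  have h2 : u (2 ^ k) ≤ a k := by
    simp only [ha]
    have h3 : (1 : ℝ) ≤ ((k : ℝ) + 1) * 2 ^ k := by
      have e1 : (1 : ℝ) ≤ 2 ^ k := one_le_pow₀ (by norm_num)
      have e2 : (1 : ℝ) ≤ (k : ℝ) + 1 := by linarith [(Nat.cast_nonneg k : (0 : ℝ) ≤ k)]
      nlinarith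
    calc u (2 ^ k) = 1 * u (2 ^ k) := by ring
      _ ≤ (((k : ℝ) + 1) * 2 ^ k) * u (2 ^ k) := mul_le_mul_of_nonneg_right h3 (hu0 _)
      _ = _ := by ring
  have h4 : M * (1 / 2 : ℝ) ^ ((A + 1) * k) ≤ (1 / 2) ^ (A * k) := by
    have e2 : (2 : ℝ) ^ k * (1 / 2) ^ k = 1 := by rw [← mul_pow]; norm_num
    rw [show (A + 1) * k = A * k + k by ring, pow_add]
    have e3 : (0 : ℝ) ≤ (1 / 2) ^ (A * k) * (1 / 2) ^ k := by positivity
    calc M * ((1 / 2 : ℝ) ^ (A * k) * (1 / 2) ^ k) ≤ 2 ^ k * ((1 / 2) ^ (A * k) * (1 / 2) ^ k) :=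
          mul_le_mul_of_nonneg_right hk1 e3
      _ = (1 / 2) ^ (A * k) * (2 ^ k * (1 / 2) ^ k) := by ring
      _ = (1 / 2) ^ (A * k) := by rw [e2, mul_one]
  linarith

end SuperPolyM

open SuperPolyM in
theorem superPoly (h : R2Stmt) (hW : WidthStmt) (hM : MonoStmt) : SuperPolyStmt := by
  intro p C hC hbar hsum A
  obtain ⟨-, -, m3, -, m5, m6, -⟩ := hM (1 / 2) (by norm_num) (by norm_num)
  have hCr : (1 : ℝ) ≤ C := by exact_mod_cast hC
  have hvv0 : ∀ (b : ℤ) (n : ℕ), 0 ≤ vv (1 / 2) p b n := fun b n => measureReal_nonneg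
  have hrec : ∀ B k : ℕ, 1 ≤ B → uu (1 / 2) p (2 ^ (k + 1)) ≤ 3 * (1 / 2) ^ (B * (k + 1)) +
      60 * ((B : ℝ) * (k + 1)) * C * 2 ^ k * uu (1 / 2) p (2 ^ k) ^ 2 := by
    intro B k hB
    set n : ℕ := 2 ^ k with hn
    have hn1 : 1 ≤ n := Nat.one_le_two_pow
    set K : ℕ := B * (k + 1) with hK
    have hK1 : 1 ≤ K := Nat.mul_pos hB (by omega)
    set W : ℕ := C * (2 * n) with hWd
    have hW1 : 1 ≤ W := Nat.mul_pos hC (by omega)
    set Q : ℕ := 10 * (1 + 2 * K * W + n * K) with hQ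
    have h1 := h (1 / 2) p n W K Q (by norm_num) (by norm_num) hn1 hW1
    have h2 : vv (1 / 2) p W (2 * n) ^ K ≤ (1 / 2) ^ K :=
      pow_le_pow_left₀ (hvv0 _ _) (hbar (2 * n) (by omega)) K
    have h3 : (arrLaw (1 / 2)).real {ω | (Q : ℤ) ≤ DD ω n (1 + 2 * K * W : ℕ)} ≤ (1 / 2) ^ K := by
      have h4 := (hW (1 / 2) (by norm_num) (by norm_num) n (1 + 2 * K * W) hn1).1 (Q : ℝ)
        (by norm_num)
      have e1 : {ω : Arr | (Q : ℤ) ≤ DD ω n (1 + 2 * K * W : ℕ)} =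
          {ω | (Q : ℝ) ≤ ((DD ω n (1 + 2 * K * W : ℕ) : ℤ) : ℝ)} := by
        ext ω
        change ((Q : ℤ) ≤ DD ω n (1 + 2 * K * W : ℕ)) ↔ ((Q : ℝ) ≤ ((DD ω n (1 + 2 * K * W : ℕ) : ℤ) : ℝ))
        constructor
        · intro hh; exact_mod_cast hh
        · intro hh; exact_mod_cast hh
      rw [e1]
      refine h4.trans ?_
      have hnr : (n : ℝ) ≠ 0 := by
        have : (1 : ℝ) ≤ n := by exact_mod_cast hn1
        linarith
      have e2 : (((1 + 2 * K * W : ℕ) : ℝ) - (Q : ℝ) / 10) / n = -(K : ℝ) := by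
        rw [hQ]; push_cast; field_simp; ring
      rw [e2, Real.exp_neg]
      have e3 : (2 : ℝ) ^ K ≤ Real.exp K := by
        have e4 : (2 : ℝ) ≤ Real.exp 1 := by
          have := Real.add_one_le_exp (1 : ℝ); linarith
        calc (2 : ℝ) ^ K ≤ Real.exp 1 ^ K := pow_le_pow_left₀ (by norm_num) e4 K
          _ = Real.exp K := by rw [← Real.exp_nat_mul, mul_one]
      rw [one_div, inv_pow]
      exact inv_anti₀ (by positivity) e3
    have e5 : (Q : ℝ) ≤ 60 * ((B : ℝ) * (k + 1)) * C * 2 ^ k := by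
      have hnr : (1 : ℝ) ≤ n := by exact_mod_cast hn1
      have hKr : (1 : ℝ) ≤ K := by exact_mod_cast hK1
      have e6 : (1 : ℝ) ≤ K * C * n := by
        have : (1 : ℝ) ≤ (K : ℝ) * C := by nlinarith
        nlinarith
      have e7 : (n : ℝ) * K ≤ K * C * n := by
        have : (K : ℝ) * n ≤ K * n * C := by
          have : (0 : ℝ) ≤ (K : ℝ) * n := by positivity
          nlinarith
        nlinarith
      have e8 : (Q : ℝ) = 10 * (1 + 4 * (K * C * n) + n * K) := by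
        rw [hQ, hWd]; push_cast; ring
      have e9 : (60 : ℝ) * ((B : ℝ) * (k + 1)) * C * 2 ^ k = 60 * (K * C * n) := by
        rw [hK, hn]; push_cast; ring
      rw [e8, e9]
      linarith
    have e10 : (0 : ℝ) ≤ uu (1 / 2) p n ^ 2 := by positivity
    have e11 := mul_le_mul_of_nonneg_right e5 e10
    have e12 : (2 : ℕ) ^ (k + 1) = 2 * n := by rw [hn]; ring
    rw [e12]
    linarith
  have hu := seq_core (fun n => uu (1 / 2) p n) (fun n => measureReal_nonneg)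
    (fun n n' h1 h2 => m5 p n n' h1 h2) hsum C hC hrec A
  have hexp : ∀ᶠ k : ℕ in atTop, A * k * C ≤ 2 ^ k := by
    have h1 : Tendsto (fun k : ℕ => ((A * C : ℕ) : ℝ) * ((k : ℝ) ^ 1 / (2 : ℝ) ^ k)) atTop (𝓝 (((A * C : ℕ) : ℝ) * 0)) :=
      (tendsto_pow_const_div_const_pow_of_one_lt 1 (by norm_num : (1 : ℝ) < 2)).const_mul _
    rw [mul_zero] at h1
    have h2 := h1.eventually (gt_mem_nhds (show (0 : ℝ) < 1 by norm_num))
    filter_upwards [h2] with k hk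
    have h3 : (0 : ℝ) < 2 ^ k := by positivity
    rw [pow_one, ← mul_div_assoc, div_lt_one h3] at hk
    have h4 : (((A * k * C : ℕ)) : ℝ) ≤ ((2 ^ k : ℕ) : ℝ) := by
      push_cast at hk ⊢
      nlinarith
    exact_mod_cast h4
  filter_upwards [hu, hexp] with k hk1 hk2
  refine ⟨hk1, ?_⟩
  have hle : A * k ≤ 2 ^ k / C := (Nat.le_div_iff_mul_le hC).2 hk2
  have h1 : vv (1 / 2) p (4 ^ k) (2 ^ k) ≤ vv (1 / 2) p ((2 ^ k / C * (C * 2 ^ k) : ℕ) : ℤ) (2 ^ k) := by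
    apply m3
    have h2 : 2 ^ k / C * (C * 2 ^ k) ≤ 4 ^ k := by
      calc 2 ^ k / C * (C * 2 ^ k) = (2 ^ k / C * C) * 2 ^ k := by ring
        _ ≤ 2 ^ k * 2 ^ k := Nat.mul_le_mul_right _ (Nat.div_mul_le_self _ _)
        _ = 4 ^ k := by rw [← mul_pow]; norm_num
    exact_mod_cast h2
  have h3 := m6 p (C * 2 ^ k) (2 ^ k / C) (2 ^ k)
  calc vv (1 / 2) p (4 ^ k) (2 ^ k) ≤ _ := h1
    _ ≤ _ := h3
    _ ≤ (1 / 2 : ℝ) ^ (2 ^ k / C) :=
        pow_le_pow_left₀ (hvv0 _ _) (hbar (2 ^ k) Nat.one_le_two_pow) _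
    _ ≤ (1 / 2) ^ (A * k) := pow_le_pow_of_le_one (by norm_num) (by norm_num) hle

end CausalPerc.Neg
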