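import Pool.Agent.Lib.MP_a51368_pr.Neg.Spec3
import Pool.Agent.Lib.MP_a51368_pr.Neg.ColDep
import Pool.Agent.Lib.MP_a51368_pr.Neg.Meas
import Pool.Agent.Lib.MP_a51368_pr.Neg.Adapted

/-!
# Module P25: no infinite cluster without an infinite cluster in a finite column
-/

open MeasureTheory Set Filter Topology Relation

noncomputable section

namespace CausalPerc.Neg

namespace ThetaAux

/-- A walk from `(0,h)` inside the column `[0,w)` leaves it (or reaches the line of `0`). -/
def Exits (E : Strip) (w h : ℤ) (n : ℕ) : Prop :=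
  (∃ t x, t < n ∧ E.OConn n (E.col 0 w) (0, h) (t, x) ∧ x ≤ E.D t 0) ∨
  (∃ t x, t < n ∧ E.OConn n (E.col 0 w) (0, h) (t, x) ∧ (t, x) ∈ E.col 0 w ∧
    ((E.ho t x ∧ E.D t w ≤ x + 1) ∨
      ∃ y, E.IsV t x y ∧ E.vo t x y ∧ E.D (t + 1) w ≤ y))

/-- the event of one window -/
def Fn (p : ℝ) (h n : ℕ) : Set Arr :=
  {η | (strip p η).OCross 0 (2 * h + 1 : ℕ) n ∨ Exits (strip p η) (2 * h + 1 : ℕ) h n}

/-- first exit -/
theorem first_exit {E : Strip} {n : ℕ} {R : Set (ℕ × ℤ)} {u v : ℕ × ℤ} (hu : u ∈ R)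
    (h : E.OConn n univ u v) : (E.OConn n R u v ∧ v ∈ R) ∨
      ∃ c d, E.OConn n R u c ∧ c ∈ R ∧ E.OStep n univ c d ∧ d ∉ R := by
  induction h with
  | refl => exact Or.inl ⟨.refl, hu⟩
  | tail hab hbc ih =>
    rename_i b c
    rcases ih with ⟨h1, h2⟩ | h1
    · by_cases hc : c ∈ R
      · exact Or.inl ⟨h1.tail ⟨h2, hc, hbc.2.2⟩, hc⟩
      · exact Or.inr ⟨b, c, h1, h2, hbc, hc⟩
    · exact Or.inr h1

/-- deterministic part in the strip -/
theorem exits_of {E : Strip} {w h : ℤ} {n : ℕ} {y : ℤ} (hh : 0 ≤ h) (hw : h < w)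
    (hc : E.OConn n univ (0, h) (n, y)) : E.OCross 0 w n ∨ Exits E w h n := by
  have hu : ((0 : ℕ), h) ∈ E.col 0 w := ⟨hh, hw⟩
  rcases first_exit hu hc with ⟨h1, _⟩ | ⟨c, d, h1, h2, h3, h4⟩
  · exact Or.inl ⟨h, y, hh, hw, h1⟩
  · right
    obtain ⟨_, _, h5⟩ := h3
    rcases h5 with h5 | h5 | h5
    · cases h5 with
      | mk t x y ht hv ho =>
        right
        refine ⟨t, x, ht, h1, h2, Or.inr ⟨y, hv, ho, ?_⟩⟩
        by_contra hcon
        push Not at hcon
        apply h4
        refine ⟨?_, hcon⟩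
        show E.S t (E.D t 0) ≤ y
        exact (E.S_mono t h2.1).trans hv.1
    · cases h5 with
      | mk t x ht ho =>
        right
        refine ⟨t, x, ht, h1, h2, Or.inl ⟨ho, ?_⟩⟩
        by_contra hcon
        push Not at hcon
        apply h4
        refine ⟨?_, hcon⟩
        have := h2.1
        show E.D t 0 ≤ x + 1
        simp only at this
        omega
    · cases h5 with
      | mk t x ht ho =>
        left
        refine ⟨t, x + 1, ht, h1, ?_⟩
        by_contra hcon
        push Not at hcon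
        apply h4
        have := h2.2
        simp only at this
        refine ⟨?_, ?_⟩
        · show E.D t 0 ≤ x
          omega
        · show x < E.D t w
          omega

theorem colDep_Fn (p : ℝ) (h n : ℕ) : ColDep (2 * h + 1 : ℕ) n (Fn p h n) := by
  intro ω ω' hag hω
  have hag' : AgrC (2 * h + 1 : ℕ) n ω ω' := hag
  have hb : (0 : ℤ) ≤ ((2 * h + 1 : ℕ) : ℤ) := by positivity
  have hA := hag'.agr p (a := 0) (c := (2 * h + 1 : ℕ)) le_rfl le_rfl
  have hC := hag'.col p (a := 0) (c := (2 * h + 1 : ℕ)) le_rfl hb hb le_rfl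
  have hD : ∀ t ≤ n, ∀ a : ℤ, 0 ≤ a → a ≤ (2 * h + 1 : ℕ) →
      (strip p ω).D t a = (strip p ω').D t a := by
    intro t ht a h0 h1
    rw [strip_D, strip_D]
    exact hag'.D ht h0 h1
  rcases hω with ⟨x, y, h1, h2, h3⟩ | ⟨t, x, ht, h1, h2⟩ | ⟨t, x, ht, h1, h2, h3⟩
  · exact Or.inl ⟨x, y, h1, h2, hA.oconn hC h3⟩
  · refine Or.inr (Or.inl ⟨t, x, ht, hA.oconn hC h1, ?_⟩)
    rw [← hD t ht.le 0 le_rfl hb]
    exact h2
  · refine Or.inr (Or.inr ⟨t, x, ht, hA.oconn hC h1, hC _ h2 ht.le, ?_⟩)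
    rcases h3 with ⟨h4, h5⟩ | ⟨y, h4, h5, h6⟩
    · left
      refine ⟨(hA.ho t x ht h2).1 h4, ?_⟩
      rw [← hD t ht.le _ hb le_rfl]
      exact h5
    · right
      refine ⟨y, (hA.isV ht h2).1 h4, (hA.vo t x y ht h2).1 h5, ?_⟩
      rw [← hD (t + 1) ht _ hb le_rfl]
      exact h6

open MeasAux in
theorem meas_Fn (p : ℝ) (h n : ℕ) : MeasurableSet (Fn p h n) := by
  apply measurableSet_setOfPred.2
  refine (m_OCross p 0 _ n).or (Measurable.or ?_ ?_)
  · exact Measurable.exists fun t => Measurable.exists fun x =>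
      mc.and ((m_OConn p (m_col p 0 _) n _ _).and (mle measurable_const (m_D p t 0)))
  · exact Measurable.exists fun t => Measurable.exists fun x =>
      mc.and ((m_OConn p (m_col p 0 _) n _ _).and ((m_col p 0 _ (t, x)).and
        (((m_ho p t x).and (mle (m_D p t _) measurable_const)).or
          (Measurable.exists fun y => (m_IsV p t x y).and ((m_vo p t x y).and
            (mle (m_D p (t + 1) _) measurable_const))))))

theorem Fn_subset (hSS : StripShiftStmt) (hR : RecentreStmt) (p : ℝ) (h n : ℕ) :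
    Fn p h n ⊆ {η | (strip p η).OCross 0 (2 * h + 1 : ℕ) n} ∪
      ((cshift h) ⁻¹' (exitL p n h) ∪ (cshift h) ⁻¹' (exitR p n (h + 1 : ℕ))) := by
  have key : ∀ (η : Arr) (t : ℕ) (z : ℤ), (strip p η).OConn n univ (0, (h : ℤ)) (t, z) →
      (strip p (cshift h η)).OConn n univ (0, 0) (t, z - DD η t h) := by
    intro η t z hc
    rw [hSS.1, (hR (strip p η) h).2.2.2.1]
    have e1 : ((0 : ℕ), (0 : ℤ)).2 + (strip p η).D ((0 : ℕ), (0 : ℤ)).1 h = h := by
      show (0 : ℤ) + h = h
      ring
    have e2 : z - DD η t h + (strip p η).D t h = z := by rw [strip_D]; ring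
    simp only
    rw [e2]
    have e3 : (0 : ℤ) + (strip p η).D 0 h = h := e1
    rw [e3]
    exact hc
  rintro η (h1 | ⟨t, x, ht, h1, h2⟩ | ⟨t, x, ht, h1, h2, h3⟩)
  · exact Or.inl h1
  · right; left
    refine ⟨0, le_rfl, t, ht.le, x - DD η t h, key η t x (h1.mono le_rfl (subset_univ _)), ?_⟩
    rw [hSS.2.2.1]
    rw [strip_D] at h2
    have e : -(h : ℤ) + h = 0 := by ring
    rw [e]
    omega
  · right; right
    have hc : (strip p η).OConn n univ (0, (h : ℤ)) (t, x) := h1.mono le_rfl (subset_univ _)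
    have hfin : ∀ (t' : ℕ) (y : ℤ), t' ≤ n → (strip p η).OConn n univ (0, (h : ℤ)) (t', y) →
        (strip p η).D t' (2 * h + 1 : ℕ) ≤ y → cshift h η ∈ exitR p n (h + 1 : ℕ) := by
      intro t' y ht' hc' hy
      refine ⟨0, le_rfl, t', ht', y - DD η t' h, key η t' y hc', ?_⟩
      rw [hSS.2.2.1]
      rw [strip_D] at hy
      have e : ((h + 1 : ℕ) : ℤ) + h = ((2 * h + 1 : ℕ) : ℤ) := by push_cast; ring
      rw [e]
      omega
    rcases h3 with ⟨h4, h5⟩ | ⟨y, h4, h5, h6⟩
    · exact hfin t (x + 1) ht.le (hc.tail ⟨mem_univ _, mem_univ _, Or.inr (Or.inl (.mk t x ht h4))⟩)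
        h5
    · exact hfin (t + 1) y ht (hc.tail ⟨mem_univ _, mem_univ _, Or.inl (.mk t x y ht h4 h5)⟩) h6

/-- bound for one window -/
theorem Fn_bound (hSS : StripShiftStmt) (hR : RecentreStmt) (hM : MeasStmt) (hCs : CshiftStmt)
    {α p C : ℝ} (h0 : 0 ≤ α) (h1 : α < 1)
    (hE : ∀ n b : ℕ, (arrLaw α).real (exitR p n b) ≤ C * Real.exp (-(b : ℝ) / C) ∧
      (arrLaw α).real (exitL p n b) ≤ C * Real.exp (-(b : ℝ) / C)) (hC : 0 < C) (h n : ℕ) :
    arrLaw α (Fn p h n) ≤ arrLaw α {η | (strip p η).OCross 0 (2 * h + 1 : ℕ) n} +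
      ENNReal.ofReal (2 * C * Real.exp (-(h : ℝ) / C)) := by
  have hprob : IsProbabilityMeasure (arrLaw α) := Adapted.arr_prob h0 h1
  have hcs : ∀ S : Set Arr, arrLaw α ((cshift h) ⁻¹' S) ≤ arrLaw α S := by
    intro S
    calc arrLaw α ((cshift h) ⁻¹' S) ≤ (arrLaw α).map (cshift h) S :=
          Measure.le_map_apply (hM.2.1 h).aemeasurable S
      _ = arrLaw α S := by rw [hCs α h0 h1 h]
  have hb1 : arrLaw α (exitL p n h) ≤ ENNReal.ofReal (C * Real.exp (-(h : ℝ) / C)) := by
    rw [ENNReal.le_ofReal_iff_toReal_le (measure_ne_top _ _) (by positivity)]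
    exact (hE n h).2
  have hb2 : arrLaw α (exitR p n (h + 1 : ℕ)) ≤ ENNReal.ofReal (C * Real.exp (-(h : ℝ) / C)) := by
    rw [ENNReal.le_ofReal_iff_toReal_le (measure_ne_top _ _) (by positivity)]
    refine ((hE n (h + 1)).1).trans ?_
    apply mul_le_mul_of_nonneg_left _ hC.le
    apply Real.exp_le_exp.2
    apply div_le_div_of_nonneg_right _ hC.le
    push_cast
    linarith
  calc arrLaw α (Fn p h n) ≤ arrLaw α ({η | (strip p η).OCross 0 (2 * h + 1 : ℕ) n} ∪
        ((cshift h) ⁻¹' (exitL p n h) ∪ (cshift h) ⁻¹' (exitR p n (h + 1 : ℕ)))) :=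
        measure_mono (Fn_subset hSS hR p h n)
    _ ≤ arrLaw α {η | (strip p η).OCross 0 (2 * h + 1 : ℕ) n} +
        (arrLaw α (exitL p n h) + arrLaw α (exitR p n (h + 1 : ℕ))) := by
        refine (measure_union_le _ _).trans (add_le_add le_rfl ?_)
        exact (measure_union_le _ _).trans (add_le_add (hcs _) (hcs _))
    _ ≤ _ := by
        refine add_le_add le_rfl ((add_le_add hb1 hb2).trans ?_)
        rw [← ENNReal.ofReal_add (by positivity) (by positivity)]
        apply le_of_eq
        congr 1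
        ring

/-- lifting a walk -/
theorem lift_walk {p : ℝ} {ω : Conf} {r n : ℕ} {E : Strip} {e : ℤ} {b : Vert}
    (hlift : ∀ (t : ℕ) (x : ℤ) (b : Vert), CausalPerc.Step p ω (uvert ω r (t, x)) b →
        ∃ (t' : ℕ) (x' : ℤ), b = uvert ω r (t', x') ∧ t ≤ t' ∧ t' ≤ t + 1 ∧
          ∀ n, t < n → E.OStep n univ (t, x) (t', x'))
    (h : ReflTransGen (CausalPerc.Step p ω) (uvert ω r (0, e)) b) :
    (∃ y, E.OConn n univ (0, e) (n, y)) ∨
      ∃ t x, t < n ∧ b = uvert ω r (t, x) ∧ E.OConn n univ (0, e) (t, x) := by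
  induction h with
  | refl =>
    rcases Nat.eq_zero_or_pos n with rfl | hn
    · exact Or.inl ⟨e, .refl⟩
    · exact Or.inr ⟨0, e, hn, rfl, .refl⟩
  | tail _ hbc ih =>
    rename_i b c
    rcases ih with h1 | ⟨t, x, ht, rfl, h2⟩
    · exact Or.inl h1
    · obtain ⟨t', x', rfl, h3, h4, h5⟩ := hlift t x _ hbc
      have h6 := h2.tail (h5 n ht)
      rcases (show t' ≤ n by omega).eq_or_lt with rfl | h7
      · exact Or.inl ⟨x', h6⟩
      · exact Or.inr ⟨t', x', h7, rfl, h6⟩

/-- a vertex of level `r` with an infinite cluster gives the event of its window -/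
theorem window (hU : UnrollStmt) (hR : RecentreStmt) {p : ℝ} {ω : Conf} {r : ℕ} (hr : 1 ≤ r)
    (hs : Survives ω) {L : List Vert} (hL : level (kids ω) r = L) (h : ℕ) {v : Vert} (hv : v ∈ L)
    (hinf : (cluster p ω v).Infinite) :
    ∃ x ∈ Finset.range L.length, ∀ n, uarr ω r ((x : ℤ) - h) ∈ Fn p h n := by
  obtain ⟨E, hE, _, _, hlift, harr, hD, hlev, hsurj, _⟩ := hU p ω r hr hs
  have hv0 : v ∈ level (kids ω) (r + 0) := by rw [add_zero, hL]; exact hv
  obtain ⟨x, hx0, hx1, rfl⟩ := hsurj 0 v hv0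
  have hZ : uZ ω r 0 = L.length := by
    unfold uZ
    rw [add_zero, hL]
  rw [hZ] at hx1
  obtain ⟨k, rfl⟩ := Int.eq_ofNat_of_zero_le hx0
  refine ⟨k, Finset.mem_range.2 (by exact_mod_cast hx1), ?_⟩
  intro n
  have hlen : (uvert ω r (0, (k : ℤ))).length = r := by
    have := length_of_mem_level (hlev 0 k)
    rwa [add_zero] at this
  obtain ⟨a, ha, halen⟩ := cluster_reaches hinf (R := r + n) (by omega)
  have hwalk : ∃ y, E.OConn n univ (0, (k : ℤ)) (n, y) := by
    rcases lift_walk (n := n) hlift ha with h1 | ⟨t, x, ht, h1, _⟩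
    · exact h1
    · exfalso
      have := length_of_mem_level (hlev t x)
      rw [← h1] at this
      omega
  obtain ⟨y, hy⟩ := hwalk
  have hc : (strip p (uarr ω r ((k : ℤ) - h))).OConn n univ (0, (h : ℤ))
      (n, y - E.D n ((k : ℤ) - h)) := by
    rw [harr, (hR E _).2.2.2.1]
    simp only
    have e1 : (h : ℤ) + E.D 0 ((k : ℤ) - h) = k := by
      show (h : ℤ) + ((k : ℤ) - h) = k
      ring
    have e2 : y - E.D n ((k : ℤ) - h) + E.D n ((k : ℤ) - h) = y := by ring
    rw [e1, e2]
    exact hy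
  exact exits_of (by positivity) (by push_cast; omega) hc

/-- an oriented walk up to level `m` contains one up to level `n ≤ m` -/
theorem oconn_anti {E : Strip} {n m : ℕ} {R : Set (ℕ × ℤ)} {u v : ℕ × ℤ} (hu : u.1 ≤ n)
    (h : E.OConn m R u v) : (∃ y, E.OConn n R u (n, y)) ∨ (v.1 < n ∧ E.OConn n R u v) := by
  induction h with
  | refl =>
    rcases hu.eq_or_lt with h1 | h1
    · exact Or.inl ⟨u.2, by rw [← h1]; exact .refl⟩
    · exact Or.inr ⟨h1, .refl⟩
  | tail hab hbc ih =>
    rename_i b c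
    rcases ih with h1 | ⟨h1, h2⟩
    · exact Or.inl h1
    · have hl := hbc.step.levels
      have hst : E.OStep n R b c := by
        obtain ⟨g1, g2, g3⟩ := hbc
        refine ⟨g1, g2, ?_⟩
        rcases g3 with g3 | g3 | g3
        · cases g3 with
          | mk t x y ht hv ho => exact Or.inl (.mk t x y h1 hv ho)
        · cases g3 with
          | mk t x ht ho => exact Or.inr (Or.inl (.mk t x h1 ho))
        · cases g3 with
          | mk t x ht ho => exact Or.inr (Or.inr (.mk t x h1 ho))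
      have h3 := h2.tail hst
      rcases (show c.1 ≤ n by omega).eq_or_lt with h4 | h4
      · refine Or.inl ⟨c.2, ?_⟩
        have e : (n, c.2) = c := by rw [← h4]
        rw [e]
        exact h3
      · exact Or.inr ⟨h4, h3⟩

theorem ocross_anti {E : Strip} {n m : ℕ} {a b : ℤ} (hnm : n ≤ m) (h : E.OCross a b m) :
    E.OCross a b n := by
  obtain ⟨x, y, h1, h2, h3⟩ := h
  rcases oconn_anti (n := n) (Nat.zero_le n) h3 with ⟨y', h4⟩ | ⟨h4, _⟩
  · exact ⟨x, y', h1, h2, h4⟩
  · simp only at h4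
    omega

theorem tendsto_ocross (hM : MeasStmt) {α p : ℝ} (h0 : 0 ≤ α) (h1 : α < 1)
    (hnc : ¬ ColInf α p) (w : ℕ) :
    Tendsto (fun n => arrLaw α {η | (strip p η).OCross 0 w n}) atTop (𝓝 0) := by
  have hprob : IsProbabilityMeasure (arrLaw α) := Adapted.arr_prob h0 h1
  have hz : arrLaw α (⋂ n, {η | (strip p η).OCross 0 w n}) = 0 := by
    by_contra hcon
    apply hnc
    refine ⟨w, ?_⟩
    have e : {ω | ∀ n, (strip p ω).OCross 0 w n} = ⋂ n, {η | (strip p η).OCross 0 w n} := by
      ext ω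
      simp only [mem_ofPred_eq, mem_iInter]
    rw [e]
    exact pos_iff_ne_zero.2 hcon
  rw [← hz]
  apply tendsto_measure_iInter_atTop
  · intro n
    exact ((hM.2.2.2 p n 0 w).2.2.2.2.2.1).nullMeasurableSet
  · intro n m hnm η hη
    exact ocross_anti hnm hη
  · exact ⟨0, measure_ne_top _ _⟩

/-- bound for all windows of one level -/
theorem level_bound (hU : UnrollStmt) (hWL : WindowLawStmt) (hSS : StripShiftStmt)
    (hR : RecentreStmt) (hM : MeasStmt) (hCs : CshiftStmt) {α p C : ℝ} (h0 : 0 < α) (h1 : α < 1)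
    (hE : ∀ n b : ℕ, (arrLaw α).real (exitR p n b) ≤ C * Real.exp (-(b : ℝ) / C) ∧
      (arrLaw α).real (exitL p n b) ≤ C * Real.exp (-(b : ℝ) / C)) (hC : 0 < C)
    (hnc : ¬ ColInf α p) {r : ℕ} (hr : 1 ≤ r) (L : List Vert) (h : ℕ) (hL : 2 * h + 1 ≤ L.length)
    (hL2 : L.length ≤ 2 * h + 2) :
    law α {ω | level (kids ω) r = L ∧ Survives ω ∧ ∃ v ∈ L, (cluster p ω v).Infinite} ≤
      law α {ω | level (kids ω) r = L} *
        ENNReal.ofReal ((2 * h + 2) * (2 * C * Real.exp (-(h : ℝ) / C))) := by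
  have hprob : IsProbabilityMeasure (arrLaw α) := Adapted.arr_prob h0.le h1
  have : GoodParam α := ⟨h0, h1⟩
  have hn : ∀ n : ℕ,
      law α {ω | level (kids ω) r = L ∧ Survives ω ∧ ∃ v ∈ L, (cluster p ω v).Infinite} ≤
      (L.length : ENNReal) * (law α {ω | level (kids ω) r = L}) *
        (arrLaw α {η | (strip p η).OCross 0 (2 * h + 1 : ℕ) n} +
          ENNReal.ofReal (2 * C * Real.exp (-(h : ℝ) / C))) := by
    intro n
    calc law α {ω | level (kids ω) r = L ∧ Survives ω ∧ ∃ v ∈ L, (cluster p ω v).Infinite}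
        ≤ law α (⋃ x ∈ Finset.range L.length,
            {ω | level (kids ω) r = L ∧ uarr ω r ((x : ℤ) - h) ∈ Fn p h n}) := by
          apply measure_mono
          rintro ω ⟨g1, g2, v, hv, g3⟩
          obtain ⟨x, hx, hx2⟩ := window hU hR hr g2 g1 h hv g3
          simp only [mem_iUnion]
          exact ⟨x, hx, g1, hx2 n⟩
      _ ≤ ∑ x ∈ Finset.range L.length,
            law α {ω | level (kids ω) r = L ∧ uarr ω r ((x : ℤ) - h) ∈ Fn p h n} :=
          measure_biUnion_finset_le _ _
      _ = ∑ x ∈ Finset.range L.length,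
            law α {ω | level (kids ω) r = L} * arrLaw α (Fn p h n) := by
          apply Finset.sum_congr rfl
          intro x _
          exact hWL α h0 h1 r L _ (2 * h + 1) n _ hr hL (meas_Fn p h n) (colDep_Fn p h n)
      _ = (L.length : ENNReal) * (law α {ω | level (kids ω) r = L}) * arrLaw α (Fn p h n) := by
          rw [Finset.sum_const, Finset.card_range, nsmul_eq_mul, mul_assoc]
      _ ≤ _ := mul_le_mul_right (Fn_bound hSS hR hM hCs h0.le h1 hE hC h n) _
  have hlim : Tendsto (fun n : ℕ => (L.length : ENNReal) * (law α {ω | level (kids ω) r = L}) *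
        (arrLaw α {η | (strip p η).OCross 0 (2 * h + 1 : ℕ) n} +
          ENNReal.ofReal (2 * C * Real.exp (-(h : ℝ) / C)))) atTop
      (𝓝 ((L.length : ENNReal) * (law α {ω | level (kids ω) r = L}) *
        (0 + ENNReal.ofReal (2 * C * Real.exp (-(h : ℝ) / C))))) := by
    apply ENNReal.Tendsto.const_mul
    · exact (tendsto_ocross hM h0.le h1 hnc (2 * h + 1)).add tendsto_const_nhds
    · right
      exact ENNReal.mul_ne_top (ENNReal.natCast_ne_top _) (measure_ne_top _ _)
  refine (ge_of_tendsto' hlim hn).trans ?_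
  rw [zero_add, mul_comm (L.length : ENNReal), mul_assoc]
  apply mul_le_mul_right
  rw [ENNReal.ofReal_mul (p := 2 * (h : ℝ) + 2) (by positivity)]
  apply mul_le_mul_left
  rw [← ENNReal.ofReal_natCast]
  apply ENNReal.ofReal_le_ofReal
  have : (L.length : ℝ) ≤ ((2 * h + 2 : ℕ) : ℝ) := by exact_mod_cast hL2
  push_cast at this
  exact this

theorem exists_small {C ε : ℝ} (hC : 0 < C) (hε : 0 < ε) :
    ∃ h₀ : ℕ, ∀ h : ℕ, h₀ ≤ h → (2 * (h : ℝ) + 2) * (2 * C * Real.exp (-(h : ℝ) / C)) ≤ ε := by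
  have h1 : Tendsto (fun h : ℕ => (h : ℝ) / C) atTop atTop :=
    tendsto_natCast_atTop_atTop.atTop_div_const hC
  have h2 := (Real.tendsto_pow_mul_exp_neg_atTop_nhds_zero 1).comp h1
  have h3 := (Real.tendsto_pow_mul_exp_neg_atTop_nhds_zero 0).comp h1
  have h4 : Tendsto (fun h : ℕ => (2 * (h : ℝ) + 2) * (2 * C * Real.exp (-(h : ℝ) / C)))
      atTop (𝓝 0) := by
    have h5 := (h2.const_mul (4 * C ^ 2)).add (h3.const_mul (4 * C))
    rw [mul_zero, mul_zero, add_zero] at h5
    refine h5.congr fun h => ?_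
    simp only [Function.comp, pow_one, pow_zero, one_mul]
    rw [neg_div]
    field_simp
    ring
  obtain ⟨h₀, hh⟩ := eventually_atTop.1 (h4.eventually (ge_mem_nhds hε))
  exact ⟨h₀, hh⟩

theorem exists_level {p : ℝ} {ω : Conf} (hinf : (cluster p ω []).Infinite) (r : ℕ) :
    ∃ v ∈ level (kids ω) r, (cluster p ω v).Infinite := by
  by_contra hcon
  push Not at hcon
  apply hinf
  have hfin : ({v : Vert | InTree (kids ω) v ∧ v.length ≤ r} ∪
      ⋃ v ∈ {v : Vert | v ∈ level (kids ω) r}, cluster p ω v).Finite := by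
    refine (finite_tree_le (kids ω) r).union ?_
    refine Set.Finite.biUnion (List.finite_toSet _) ?_
    intro v hv
    exact hcon v hv
  refine hfin.subset ?_
  intro w hw
  have hwT : InTree (kids ω) w := reach_inTree hw inTree_nil
  rcases le_or_gt w.length r with h1 | h1
  · exact Or.inl ⟨hwT, h1⟩
  · right
    obtain ⟨a, ha1, ha2, ha3⟩ := reach_through hw (R := r) (Nat.zero_le r) h1.le
    simp only [mem_iUnion]
    exact ⟨a, mem_level_iff.2 ⟨ha1, reach_inTree ha2 inTree_nil⟩, ha3⟩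

end ThetaAux

open ThetaAux in
theorem thetaZero (hU : UnrollStmt) (hWL : WindowLawStmt) (hG : GrowthStmt) (hE : ExitStmt)
    (hSS : StripShiftStmt) (hR : RecentreStmt) (hM : MeasStmt) (hCs : CshiftStmt) :
    ThetaZeroStmt := by
  intro α p hα0 hα1 hp0 hp1 hnc
  have hα : 0 < α := by linarith
  have : GoodParam α := ⟨hα, hα1⟩
  obtain ⟨C, hC, hE'⟩ := hE.2 α p hα0 hα1 hp0 hp1
  have key : law α {ω | (cluster p ω []).Infinite} = 0 := by
    by_contra hne
    have hpos : 0 < law α {ω | (cluster p ω []).Infinite} := pos_iff_ne_zero.2 hne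
    obtain ⟨ε, hε, hε2⟩ : ∃ ε : ℝ, 0 < ε ∧
        ENNReal.ofReal ε + ENNReal.ofReal ε < law α {ω | (cluster p ω []).Infinite} := by
      obtain ⟨c, hc⟩ : ∃ c, c = (law α {ω | (cluster p ω []).Infinite}).toReal := ⟨_, rfl⟩
      have hc0 : 0 < c := by
        rw [hc]
        exact ENNReal.toReal_pos hne (measure_ne_top _ _)
      refine ⟨c / 4, by positivity, ?_⟩
      rw [← ENNReal.ofReal_add (by positivity) (by positivity),
        ← ENNReal.ofReal_toReal (measure_ne_top (law α) {ω | (cluster p ω []).Infinite}), ← hc]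
      exact (ENNReal.ofReal_lt_ofReal_iff hc0).2 (by linarith)
    obtain ⟨h₀, hh₀⟩ := exists_small hC hε
    -- a large level
    obtain ⟨r, hr1, hr2⟩ : ∃ r : ℕ, 1 ≤ r ∧
        law α {ω | level (kids ω) r ≠ [] ∧ (level (kids ω) r).length < 2 * h₀ + 1} ≤
          ENNReal.ofReal ε := by
      have h1 := hG α hα0 hα1 (2 * h₀ + 1)
      have h2 := (h1.eventually (ge_mem_nhds (ENNReal.ofReal_pos.2 hε))).and
        (eventually_ge_atTop 1)
      obtain ⟨r, hr⟩ := h2.exists
      exact ⟨r, hr.2, hr.1⟩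
    have hle : law α {ω | (cluster p ω []).Infinite} ≤ ENNReal.ofReal ε + ENNReal.ofReal ε := by
      obtain ⟨B, hB⟩ : ∃ B : List Vert → Set Conf, B = fun L => {ω | level (kids ω) r = L ∧
        2 * h₀ + 1 ≤ L.length ∧ Survives ω ∧ ∃ v ∈ L, (cluster p ω v).Infinite} := ⟨_, rfl⟩
      calc law α {ω | (cluster p ω []).Infinite} ≤
          law α ({ω | level (kids ω) r ≠ [] ∧ (level (kids ω) r).length < 2 * h₀ + 1} ∪
            ⋃ L, B L) := by
            apply measure_mono
            intro ω hω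
            have hs : Survives ω := survives_of_infinite hω
            obtain ⟨v, hv, hv2⟩ := exists_level hω r
            rcases lt_or_ge (level (kids ω) r).length (2 * h₀ + 1) with h1 | h1
            · exact Or.inl ⟨hs r, h1⟩
            · right
              rw [mem_iUnion]
              refine ⟨level (kids ω) r, ?_⟩
              rw [hB]
              exact ⟨rfl, h1, hs, v, hv, hv2⟩
        _ ≤ law α {ω | level (kids ω) r ≠ [] ∧ (level (kids ω) r).length < 2 * h₀ + 1} +
            law α (⋃ L, B L) := measure_union_le _ _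
        _ ≤ ENNReal.ofReal ε + ENNReal.ofReal ε := by
            refine add_le_add hr2 ?_
            refine (measure_iUnion_le _).trans ?_
            have hBL : ∀ L, law α (B L) ≤ law α {ω | level (kids ω) r = L} *
                ENNReal.ofReal ε := by
              intro L
              rw [hB]
              by_cases hL : 2 * h₀ + 1 ≤ L.length
              · obtain ⟨h, hh1, hh2⟩ : ∃ h : ℕ, 2 * h + 1 ≤ L.length ∧ L.length ≤ 2 * h + 2 :=
                  ⟨(L.length - 1) / 2, by omega, by omega⟩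
                have h3 := level_bound hU hWL hSS hR hM hCs hα hα1 hE' hC hnc hr1 L h hh1 hh2
                refine (measure_mono ?_).trans (h3.trans ?_)
                · rintro ω ⟨g1, _, g2, g3⟩
                  exact ⟨g1, g2, g3⟩
                · apply mul_le_mul_right
                  exact ENNReal.ofReal_le_ofReal (hh₀ h (by omega))
              · have e : {ω : Conf | level (kids ω) r = L ∧ 2 * h₀ + 1 ≤ L.length ∧ Survives ω ∧
                    ∃ v ∈ L, (cluster p ω v).Infinite} = ∅ := by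
                  ext ω
                  simp only [mem_ofPred_eq, mem_empty_iff_false, iff_false]
                  rintro ⟨_, g2, _⟩
                  exact hL g2
                simp only [e, measure_empty, zero_le]
            refine (ENNReal.tsum_le_tsum hBL).trans ?_
            rw [ENNReal.tsum_mul_right]
            have hsum : ∑' L : List Vert, law α {ω | level (kids ω) r = L} ≤ 1 := by
              rw [← measure_iUnion]
              · exact prob_le_one
              · intro L L' hLL'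
                apply Set.disjoint_left.2
                intro ω h1 h2
                exact hLL' (h1.symm.trans h2)
              · intro L
                exact measurable_level r (MeasurableSet.of_discrete (s := {l : List Vert | l = L}))
            calc (∑' L : List Vert, law α {ω | level (kids ω) r = L}) * ENNReal.ofReal ε ≤
                1 * ENNReal.ofReal ε := mul_le_mul_left hsum _
              _ = _ := one_mul _
    exact absurd hε2 (not_lt.2 hle)
  unfold theta condLaw
  exact ProbabilityTheory.cond_absolutelyContinuous key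

end CausalPerc.Neg
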