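import Pool.Agent.Lib.MP_a51368_pr.Neg.Spec2
import Pool.Agent.Lib.MP_a51368_pr.Neg.Adapted
import Pool.Agent.Lib.MP_a51368_pr.Neg.Indep
import Pool.Agent.Lib.MP_a51368_pr.Neg.R2

/-!
# Module P19: transfer of probabilities of column events from `α = 1/2` to `α` slightly above `1/2`
-/

open MeasureTheory ProbabilityTheory Set Filter Topology

noncomputable section

namespace CausalPerc.Neg

namespace Tr

open MeasAux IndepAux

/-- Likelihood ratio of the geometric laws. -/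
def rho (α : ℝ) (k : ℕ) : ENNReal := ENNReal.ofReal ((2 * α) ^ k * (2 * (1 - α)))

theorem geo_density {α : ℝ} (h0 : 0 ≤ α) (h1 : α < 1) :
    geo α = (geo (1 / 2)).withDensity (rho α) := by
  refine Measure.ext_of_singleton fun k => ?_
  rw [withDensity_apply _ (MeasurableSet.singleton k), lintegral_singleton, geo_apply, geo_apply,
    tsum_eq_single k, tsum_eq_single k]
  · simp only [indicator_of_mem (mem_singleton k), Pi.one_apply, mul_one]
    unfold rho
    rw [← ENNReal.ofReal_mul (by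
      have : 0 ≤ 1 - α := by linarith
      positivity)]
    congr 1
    rw [mul_pow]
    have : ((1 : ℝ) / 2) ^ k * 2 ^ k = 1 := by
      rw [← mul_pow]
      norm_num
    linear_combination (-(α ^ k * (1 - α))) * this
  · intro j hj
    rw [indicator_of_notMem (by simpa using hj), mul_zero]
  · intro j hj
    rw [indicator_of_notMem (by simpa using hj), mul_zero]

theorem meas_rho (α : ℝ) : Measurable (rho α) := measurable_of_countable _

theorem nd_density {α : ℝ} (h0 : 0 ≤ α) (h1 : α < 1) :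
    ndLaw α = (ndLaw (1 / 2)).withDensity (fun d => rho α d.1) := by
  have := geo_prob (α := 1 / 2) (by norm_num) (by norm_num)
  unfold ndLaw
  rw [geo_density h0 h1, prod_withDensity_left (meas_rho α)]

theorem pi_density {α : ℝ} (h0 : 0 ≤ α) (h1 : α < 1) (ι : Type) [Fintype ι] :
    Measure.pi (fun _ : ι => ndLaw α) =
      (Measure.pi (fun _ : ι => ndLaw (1 / 2))).withDensity (fun u => ∏ i, rho α (u i).1) := by
  classical
  have hp := Adapted.nd_prob h0 h1
  have hp2 := Adapted.nd_prob (α := 1 / 2) (by norm_num) (by norm_num)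
  refine Measure.pi_eq fun s hs => ?_
  rw [withDensity_apply _ (MeasurableSet.univ_pi hs),
    ← lintegral_indicator (MeasurableSet.univ_pi hs)]
  have h2 : ∀ u : ι → Nd, (Set.univ.pi s).indicator (fun u => ∏ i, rho α (u i).1) u =
      ∏ i, (s i).indicator (fun d => rho α d.1) (u i) := by
    intro u
    by_cases h : u ∈ Set.univ.pi s
    · rw [indicator_of_mem h]
      exact Finset.prod_congr rfl fun i _ => by rw [indicator_of_mem (h i (mem_univ i))]
    · rw [indicator_of_notMem h]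
      have : ∃ i, u i ∉ s i := by simpa [Set.mem_pi] using h
      obtain ⟨i, hi⟩ := this
      exact (Finset.prod_eq_zero (Finset.mem_univ i) (indicator_of_notMem hi _)).symm
  simp only [h2]
  have hm : ∀ i, Measurable ((s i).indicator (fun d : Nd => rho α d.1)) := fun i =>
    ((meas_rho α).comp measurable_fst).indicator (hs i)
  have h3 := lintegral_prod_eq_prod_lintegral_of_indepFun
    (μ := Measure.pi (fun _ : ι => ndLaw (1 / 2))) Finset.univ
    (fun i (u : ι → Nd) => (s i).indicator (fun d => rho α d.1) (u i))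
    (iIndepFun_pi (fun i => (hm i).aemeasurable))
    (fun i => (hm i).comp (measurable_pi_apply i))
  rw [h3]
  refine Finset.prod_congr rfl fun i _ => ?_
  have h4 := lintegral_map (μ := Measure.pi (fun _ : ι => ndLaw (1 / 2))) (hm i)
    (measurable_pi_apply i)
  have h5 := (measurePreserving_eval (fun _ : ι => ndLaw (1 / 2)) i).map_eq
  have h6 : (Measure.pi (fun _ : ι => ndLaw (1 / 2))).map (fun u : ι → Nd => u i) =
    ndLaw (1 / 2) := h5
  rw [h6] at h4
  rw [← h4, lintegral_indicator (hs i), ← withDensity_apply _ (hs i), ← nd_density h0 h1]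

theorem pi_le {α : ℝ} (h0 : 1 / 2 ≤ α) (h1 : α < 1) (ι : Type) [Fintype ι] {M : ℕ}
    {S : Set (ι → Nd)} (hS : MeasurableSet S) (hM : ∀ u ∈ S, ∑ i, (u i).1 ≤ M) :
    Measure.pi (fun _ : ι => ndLaw α) S ≤
      ENNReal.ofReal ((2 * α) ^ M) * Measure.pi (fun _ : ι => ndLaw (1 / 2)) S := by
  rw [pi_density (by linarith) h1 ι, withDensity_apply _ hS]
  calc ∫⁻ u in S, ∏ i, rho α (u i).1 ∂Measure.pi (fun _ : ι => ndLaw (1 / 2))
      ≤ ∫⁻ _ in S, ENNReal.ofReal ((2 * α) ^ M) ∂Measure.pi (fun _ : ι => ndLaw (1 / 2)) := by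
        refine setLIntegral_mono' hS fun u hu => ?_
        have h2 : ∀ k : ℕ, rho α k ≤ ENNReal.ofReal ((2 * α) ^ k) := by
          intro k
          refine ENNReal.ofReal_le_ofReal ?_
          have : (0 : ℝ) ≤ (2 * α) ^ k := pow_nonneg (by linarith) k
          nlinarith
        calc ∏ i, rho α (u i).1 ≤ ∏ i, ENNReal.ofReal ((2 * α) ^ (u i).1) :=
              Finset.prod_le_prod' fun i _ => h2 _
          _ = ENNReal.ofReal ((2 * α) ^ (∑ i, (u i).1)) := by
              rw [← ENNReal.ofReal_prod_of_nonneg fun i _ => pow_nonneg (by linarith) _,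
                Finset.prod_pow_eq_pow_sum]
          _ ≤ ENNReal.ofReal ((2 * α) ^ M) :=
              ENNReal.ofReal_le_ofReal (pow_le_pow_right₀ (by linarith) (hM u hu))
    _ = _ := by rw [setLIntegral_const]

theorem box_map {α : ℝ} (h0 : 0 ≤ α) (h1 : α < 1) (B : Finset (ℕ × ℤ)) :
    (arrLaw α).map (fun (ω : Arr) (i : B) => ω i.1.1 i.1.2) =
      Measure.pi (fun _ : B => ndLaw α) := by
  have hp := Adapted.nd_prob h0 h1
  have h2 := Measure.infinitePi_map_curry_symm (fun (_ : ℕ) (_ : ℤ) => ndLaw α)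
  have h3 := Measure.infinitePi_map_restrict (μ := fun _ : ℕ × ℤ => ndLaw α) (I := B)
  rw [← h2, Measure.map_map (Finset.measurable_restrict B) (MeasurableEquiv.measurable _)] at h3
  exact h3

/-- Events of a finite box. -/
theorem box_le {α : ℝ} (h0 : 1 / 2 ≤ α) (h1 : α < 1) (B : Finset (ℕ × ℤ)) {M : ℕ}
    {F : Set Arr} (hF : MeasurableSet F)
    (hdep : ∀ ω ω' : Arr, (∀ i ∈ B, ω i.1 i.2 = ω' i.1 i.2) → ω ∈ F → ω' ∈ F)
    (hM : ∀ ω ∈ F, ∑ i ∈ B, xi ω i.1 i.2 ≤ M) :
    arrLaw α F ≤ ENNReal.ofReal ((2 * α) ^ M) * arrLaw (1 / 2) F := by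
  classical
  set r : Arr → B → Nd := fun ω i => ω i.1.1 i.1.2 with hr
  set e : (B → Nd) → Arr := fun u t x =>
    if h : (t, x) ∈ B then u ⟨(t, x), h⟩ else (0, fun _ => 0) with he
  have hrm : Measurable r := measurable_pi_iff.2 fun i => meas_node _ _
  have hem : Measurable e := by
    refine measurable_pi_iff.2 fun t => measurable_pi_iff.2 fun x => ?_
    by_cases h : (t, x) ∈ B
    · simp only [he, h, dif_pos]
      exact measurable_pi_apply _
    · simp only [he, h, dif_neg, not_false_eq_true]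
      exact measurable_const
  have her : ∀ ω : Arr, ∀ i ∈ B, ω i.1 i.2 = e (r ω) i.1 i.2 := by
    intro ω i hi
    simp only [he, hr]
    rw [dif_pos hi]
  have h2 : F = r ⁻¹' (e ⁻¹' F) := by
    ext ω
    simp only [mem_preimage]
    exact ⟨fun h => hdep _ _ (her ω) h, fun h => hdep _ _ (fun i hi => (her ω i hi).symm) h⟩
  have hS : MeasurableSet (e ⁻¹' F) := hem hF
  have h3 : ∀ β : ℝ, 0 ≤ β → β < 1 → arrLaw β F = Measure.pi (fun _ : B => ndLaw β) (e ⁻¹' F) := by
    intro β hb0 hb1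
    rw [← box_map hb0 hb1 B, Measure.map_apply hrm hS]
    conv_lhs => rw [h2]
  rw [h3 α (by linarith) h1, h3 (1 / 2) (by norm_num) (by norm_num)]
  refine pi_le h0 h1 B hS fun u hu => ?_
  have h4 := hM (e u) hu
  have h5 : ∑ i ∈ B, xi (e u) i.1 i.2 = ∑ i : B, (u i).1 := by
    rw [← Finset.sum_coe_sort B (fun i => xi (e u) i.1 i.2)]
    refine Finset.sum_congr rfl fun i _ => ?_
    unfold xi
    simp only [he]
    rw [dif_pos i.2]
  rw [← h5]
  exact h4

theorem post_law (hS : SplitStmt) {α : ℝ} (h0 : 0 ≤ α) (h1 : α < 1) (s : ℕ) :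
    (arrLaw α).map (post s) = arrLaw α := by
  have hP := Adapted.arr_prob h0 h1
  ext A hA
  rw [Measure.map_apply (meas_post s) hA]
  have h := hS α h0 h1 s (fun _ η => A.indicator 1 η)
    ((measurable_one.indicator hA).comp measurable_snd) (fun _ _ _ _ => rfl)
  simp only [lintegral_const, measure_univ, mul_one] at h
  rw [lintegral_indicator_one hA] at h
  rw [← h, ← lintegral_indicator_one (meas_post s hA)]
  rfl

theorem DD_nonneg (ω : Arr) (t : ℕ) {b : ℤ} (hb : 0 ≤ b) : 0 ≤ DD ω t b := by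
  have h := DD_mono ω t hb
  rwa [R2X.DD_zero] at h

/-- Lines of two arrays which agree in the column. -/
theorem DD_col {ω ω' : Arr} {n : ℕ} {b : ℤ} (hb : 0 ≤ b)
    (h : ∀ t < n, ∀ x, 0 ≤ x → x < DD ω t b → ω t x = ω' t x) {t : ℕ} (ht : t ≤ n) :
    DD ω' t b = DD ω t b := by
  induction t with
  | zero => rfl
  | succ t ih =>
    show ps (xi ω' t) (DD ω' t b) = ps (xi ω t) (DD ω t b)
    rw [ih (by omega)]
    unfold ps
    have h0 := DD_nonneg ω t hb
    rw [Finset.Ico_eq_empty (by omega : ¬ DD ω t b < 0)]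
    congr 1
    refine Finset.sum_congr rfl fun i hi => ?_
    rw [Finset.mem_Ico] at hi
    unfold xi
    rw [h t (by omega) i hi.1 hi.2]

theorem ColDep.compl {b : ℤ} {n : ℕ} {F : Set Arr} (hb : 0 ≤ b) (h : ColDep b n F) :
    ColDep b n Fᶜ := by
  intro ω ω' hag hω hω'
  refine hω (h ω' ω (fun t ht x hx0 hx1 => ?_) hω')
  rw [DD_col hb hag ht.le] at hx1
  exact (hag t ht x hx0 hx1).symm

/-- Events of a column: comparison outside of an exceptional event. -/
theorem col_le (hS : SplitStmt) {α : ℝ} (h0 : 1 / 2 ≤ α) (h1 : α < 1) {n b Q A : ℕ}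
    {F : Set Arr} (hF : MeasurableSet F) (hdep : ColDep b n F) :
    arrLaw α F ≤ ENNReal.ofReal ((2 * α) ^ (n * A)) * arrLaw (1 / 2) F +
      (∑ t ∈ Finset.range n, arrLaw α {ω | (Q : ℤ) < DD ω t b} +
        n * arrLaw α {ω | (A : ℤ) < DD ω 1 Q}) := by
  classical
  set G : Set Arr := {ω | ∀ t < n, DD ω t b ≤ Q} with hG
  set K : Set Arr := {ω | ∀ t < n, ps (xi ω t) Q ≤ A} with hK
  have hGm : MeasurableSet G := by
    have : G = ⋂ t ∈ Finset.range n, {ω | DD ω t b ≤ Q} := by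
      ext ω
      simp [hG]
    rw [this]
    exact Finset.measurableSet_biInter _ fun t _ =>
      measurableSet_le (meas_DD t b) measurable_const
  have hKm : MeasurableSet K := by
    have : K = ⋂ t ∈ Finset.range n, {ω | ps (xi ω t) Q ≤ A} := by
      ext ω
      simp [hK]
    rw [this]
    exact Finset.measurableSet_biInter _ fun t _ =>
      measurableSet_le (meas_ps t Q) measurable_const
  have hsub : F ⊆ (F ∩ (G ∩ K)) ∪ ((⋃ t ∈ Finset.range n, {ω | (Q : ℤ) < DD ω t b}) ∪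
      (⋃ t ∈ Finset.range n, {ω | (A : ℤ) < ps (xi ω t) Q})) := by
    intro ω hω
    by_cases h2 : ω ∈ G
    · by_cases h3 : ω ∈ K
      · exact Or.inl ⟨hω, h2, h3⟩
      · right; right
        simp only [hK, mem_ofPred_eq, not_forall, not_le] at h3
        obtain ⟨t, ht, h4⟩ := h3
        simp only [mem_iUnion, Finset.mem_range]
        exact ⟨t, ht, h4⟩
    · right; left
      simp only [hG, mem_ofPred_eq, not_forall, not_le] at h2
      obtain ⟨t, ht, h4⟩ := h2
      simp only [mem_iUnion, Finset.mem_range]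
      exact ⟨t, ht, h4⟩
  have e1 : arrLaw α (F ∩ (G ∩ K)) ≤
      ENNReal.ofReal ((2 * α) ^ (n * A)) * arrLaw (1 / 2) (F ∩ (G ∩ K)) := by
    have hag : ∀ ω ω' : Arr, (∀ i ∈ Finset.range n ×ˢ Finset.Ico (0 : ℤ) Q,
        ω i.1 i.2 = ω' i.1 i.2) → ∀ t < n, ∀ x, 0 ≤ x → x < (Q : ℤ) → ω t x = ω' t x :=
      fun ω ω' h t ht x hx0 hx1 => h (t, x) (by
        rw [Finset.mem_product, Finset.mem_range, Finset.mem_Ico]
        exact ⟨ht, hx0, hx1⟩)
    refine box_le h0 h1 (Finset.range n ×ˢ Finset.Ico (0 : ℤ) Q) (hF.inter (hGm.inter hKm))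
      ?_ ?_
    · rintro ω ω' h ⟨hω1, hω2, hω3⟩
      have h2 := hag ω ω' h
      have h3 : ∀ t < n, ∀ x, 0 ≤ x → x < DD ω t b → ω t x = ω' t x := fun t ht x hx0 hx1 =>
        h2 t ht x hx0 (hx1.trans_le (hω2 t ht))
      refine ⟨hdep ω ω' h3 hω1, fun t ht => ?_, fun t ht => ?_⟩
      · rw [DD_col (Int.natCast_nonneg b) h3 ht.le]
        exact hω2 t ht
      · refine le_trans (le_of_eq ?_) (hω3 t ht)
        unfold ps
        congr 1
        · refine Finset.sum_congr rfl fun i hi => ?_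
          rw [Finset.mem_Ico] at hi
          unfold xi
          rw [h2 t ht i hi.1 hi.2]
        · have : ¬ (Q : ℤ) < 0 := by omega
          rw [Finset.Ico_eq_empty this, Finset.sum_empty, Finset.sum_empty]
    · rintro ω ⟨_, _, hω⟩
      rw [Finset.sum_product]
      have h2 : ∀ t ∈ Finset.range n, ∑ x ∈ Finset.Ico (0 : ℤ) Q, xi ω t x ≤ A := by
        intro t ht
        have h3 := hω t (Finset.mem_range.1 ht)
        unfold ps at h3
        have : ¬ (Q : ℤ) < 0 := by omega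
        rw [Finset.Ico_eq_empty this, Finset.sum_empty, sub_zero] at h3
        exact_mod_cast h3
      refine (Finset.sum_le_card_nsmul _ _ _ h2).trans ?_
      rw [Finset.card_range, smul_eq_mul]
  have e2 : ∀ t, arrLaw α {ω | (A : ℤ) < ps (xi ω t) Q} = arrLaw α {ω | (A : ℤ) < DD ω 1 Q} := by
    intro t
    conv_rhs => rw [← post_law hS (by linarith : (0 : ℝ) ≤ α) h1 t]
    rw [Measure.map_apply (meas_post t) (measurableSet_lt measurable_const (meas_DD 1 Q))]
    rfl
  refine (measure_mono hsub).trans ((measure_union_le _ _).trans (add_le_add ?_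
    ((measure_union_le _ _).trans (add_le_add ?_ ?_))))
  · exact e1.trans (mul_le_mul_right (measure_mono inter_subset_left) _)
  · exact measure_biUnion_finset_le _ _
  · refine (measure_biUnion_finset_le _ _).trans ?_
    rw [Finset.sum_congr rfl fun t _ => e2 t]
    simp

/-- Numerical form. -/
theorem col_real (hS : SplitStmt) (hW : WidthStmt) {N : ℕ} (hN : 20 ≤ N) {α : ℝ}
    (h0 : 1 / 2 ≤ α) (hα : (2 * α - 1) * (N : ℝ) ^ 10 ≤ 1) {n b : ℕ} (hn : n ≤ N)
    (hb : b ≤ 1 + 2 * N ^ 2) {F : Set Arr} (hF : MeasurableSet F) (hdep : ColDep b n F) :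
    (arrLaw α).real F ≤ 4 * (arrLaw (1 / 2)).real F + Real.exp (-N) := by
  have hNr : (20 : ℝ) ≤ N := by exact_mod_cast hN
  have hx0 : 0 ≤ 2 * α - 1 := by linarith
  have hN10 : (1 : ℝ) ≤ (N : ℝ) ^ 10 := one_le_pow₀ (by linarith)
  have hN9 : (8 : ℝ) ≤ (N : ℝ) ^ 9 := by
    have h2 : (20 : ℝ) ^ 9 ≤ (N : ℝ) ^ 9 := pow_le_pow_left₀ (by norm_num) hNr 9
    norm_num at h2 ⊢
    linarith
  have hxN : (2 * α - 1) * N ≤ 1 / 8 := by
    have h3 : (2 * α - 1) * N * 8 ≤ (2 * α - 1) * N * (N : ℝ) ^ 9 :=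
      mul_le_mul_of_nonneg_left hN9 (by positivity)
    have h4 : (2 * α - 1) * N * (N : ℝ) ^ 9 = (2 * α - 1) * (N : ℝ) ^ 10 := by ring
    linarith
  have hx1 : 2 * α - 1 ≤ 1 / 8 := by nlinarith
  have h1 : α < 1 := by linarith
  have hP := Adapted.arr_prob (by linarith : (0 : ℝ) ≤ α) h1
  have hP2 := Adapted.arr_prob (α := 1 / 2) (by norm_num) (by norm_num)
  -- the likelihood ratio
  have hlr : (2 * α) ^ (n * (20 * N ^ 4)) ≤ 4 := by
    have h2 : (2 * α) ^ (n * (20 * N ^ 4)) ≤ Real.exp ((2 * α - 1) * ((n * (20 * N ^ 4) : ℕ) : ℝ)) := by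
      have h3 : 2 * α ≤ Real.exp (2 * α - 1) := by
        have := Real.add_one_le_exp (2 * α - 1)
        linarith
      calc (2 * α) ^ (n * (20 * N ^ 4)) ≤ Real.exp (2 * α - 1) ^ (n * (20 * N ^ 4)) :=
            pow_le_pow_left₀ (by linarith) h3 _
        _ = _ := by rw [← Real.exp_nat_mul, mul_comm]
    have h4 : (2 * α - 1) * ((n * (20 * N ^ 4) : ℕ) : ℝ) ≤ 1 := by
      refine le_trans (mul_le_mul_of_nonneg_left ?_ hx0) hα
      have h5 : n * (20 * N ^ 4) ≤ N ^ 10 := by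
        calc n * (20 * N ^ 4) ≤ N * (N * N ^ 4) :=
              Nat.mul_le_mul hn (Nat.mul_le_mul hN le_rfl)
          _ = N ^ 6 := by ring
          _ ≤ N ^ 10 := Nat.pow_le_pow_right (by omega) (by norm_num)
      exact_mod_cast h5
    have h6 := Real.exp_le_exp.2 h4
    have h7 := Real.exp_one_lt_d9
    linarith
  -- powers of `m`
  have hm : ∀ t : ℕ, t ≤ N → (α / (1 - α)) ^ t ≤ 2 := by
    intro t ht
    have h2 : α / (1 - α) ≤ Real.exp (4 * (2 * α - 1)) := by
      rw [div_le_iff₀ (by linarith)]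
      have h3 := Real.add_one_le_exp (4 * (2 * α - 1))
      nlinarith
    have h4 : (α / (1 - α)) ^ t ≤ Real.exp (4 * (2 * α - 1)) ^ t :=
      pow_le_pow_left₀ (div_nonneg (by linarith) (by linarith)) h2 t
    rw [← Real.exp_nat_mul] at h4
    have h5 : (t : ℝ) * (4 * (2 * α - 1)) ≤ 1 / 2 := by
      have h6 : (t : ℝ) ≤ N := by exact_mod_cast ht
      have h7 : (t : ℝ) * (2 * α - 1) ≤ N * (2 * α - 1) := mul_le_mul_of_nonneg_right h6 hx0
      linarith
    have h8 : Real.exp (1 / 2) ≤ 2 := by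
      have h9 : Real.exp (1 / 2) ^ 2 = Real.exp 1 := by
        rw [← Real.exp_nat_mul]
        norm_num
      have h10 := Real.exp_one_lt_d9
      nlinarith [Real.exp_pos (1 / 2)]
    exact h4.trans ((Real.exp_le_exp.2 h5).trans h8)
  have hpoly : (b : ℝ) - (N : ℝ) ^ 4 / 10 ≤ -(N : ℝ) ^ 3 := by
    have h2 : (b : ℝ) ≤ 1 + 2 * (N : ℝ) ^ 2 := by exact_mod_cast hb
    have h3 : (20 : ℝ) * (N : ℝ) ^ 3 ≤ N * (N : ℝ) ^ 3 :=
      mul_le_mul_of_nonneg_right hNr (by positivity)
    have h4 : (20 : ℝ) * (N : ℝ) ^ 2 ≤ N * (N : ℝ) ^ 2 :=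
      mul_le_mul_of_nonneg_right hNr (by positivity)
    have h5 : (1 : ℝ) ≤ (N : ℝ) ^ 2 := one_le_pow₀ (by linarith)
    nlinarith
  have hE1 : ∀ t < n, arrLaw α {ω | ((N ^ 4 : ℕ) : ℤ) < DD ω t b} ≤
      ENNReal.ofReal (Real.exp (-(N : ℝ) ^ 2)) := by
    intro t ht
    rcases Nat.eq_zero_or_pos t with rfl | ht0
    · have h2 : {ω : Arr | ((N ^ 4 : ℕ) : ℤ) < DD ω 0 b} = ∅ := by
        ext ω
        simp only [mem_ofPred_eq, mem_empty_iff_false, iff_false, not_lt]
        show (b : ℤ) ≤ ((N ^ 4 : ℕ) : ℤ)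
        have h3 : (b : ℝ) ≤ (N : ℝ) ^ 4 := by
          have h4 : (0 : ℝ) ≤ (N : ℝ) ^ 3 := by positivity
          have h5 : (0 : ℝ) ≤ (N : ℝ) ^ 4 := by positivity
          linarith
        exact_mod_cast h3
      rw [h2, measure_empty]
      exact bot_le
    · have h2 := (hW α h0 h1 t b ht0).1 ((N : ℝ) ^ 4) (hm t (by omega))
      have h3 : {ω : Arr | ((N ^ 4 : ℕ) : ℤ) < DD ω t b} ⊆
          {ω | (N : ℝ) ^ 4 ≤ ((DD ω t b : ℤ) : ℝ)} := by
        intro ω hω
        have h4 : (((N ^ 4 : ℕ) : ℤ) : ℝ) ≤ ((DD ω t b : ℤ) : ℝ) := by exact_mod_cast hω.le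
        push_cast at h4
        exact h4
      refine (measure_mono h3).trans ?_
      rw [← ENNReal.ofReal_toReal (measure_ne_top (arrLaw α) {ω | (N : ℝ) ^ 4 ≤ ((DD ω t b : ℤ) : ℝ)})]
      refine ENNReal.ofReal_le_ofReal (h2.trans (Real.exp_le_exp.2 ?_))
      have ht1 : (0 : ℝ) < t := by exact_mod_cast ht0
      rw [div_le_iff₀ ht1]
      have h4 : (t : ℝ) ≤ N := by exact_mod_cast (by omega : t ≤ N)
      have h5 : (N : ℝ) ^ 2 * t ≤ (N : ℝ) ^ 2 * N := mul_le_mul_of_nonneg_left h4 (by positivity)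
      nlinarith
  have hE2 : arrLaw α {ω | ((20 * N ^ 4 : ℕ) : ℤ) < DD ω 1 (N ^ 4 : ℕ)} ≤
      ENNReal.ofReal (Real.exp (-(N : ℝ) ^ 2)) := by
    have h2 := (hW α h0 h1 1 (N ^ 4) le_rfl).1 (20 * (N : ℝ) ^ 4) (hm 1 (by omega))
    have h3 : {ω : Arr | ((20 * N ^ 4 : ℕ) : ℤ) < DD ω 1 (N ^ 4 : ℕ)} ⊆
        {ω | 20 * (N : ℝ) ^ 4 ≤ ((DD ω 1 (N ^ 4 : ℕ) : ℤ) : ℝ)} := by
      intro ω hω
      have h4 : (((20 * N ^ 4 : ℕ) : ℤ) : ℝ) ≤ ((DD ω 1 (N ^ 4 : ℕ) : ℤ) : ℝ) := by
        exact_mod_cast (le_of_lt hω)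
      push_cast at h4 ⊢
      exact h4
    refine (measure_mono h3).trans ?_
    rw [← ENNReal.ofReal_toReal (measure_ne_top (arrLaw α)
      {ω | 20 * (N : ℝ) ^ 4 ≤ ((DD ω 1 (N ^ 4 : ℕ) : ℤ) : ℝ)})]
    refine ENNReal.ofReal_le_ofReal (h2.trans (Real.exp_le_exp.2 ?_))
    push_cast
    have h5 : (1 : ℝ) ≤ (N : ℝ) ^ 2 := one_le_pow₀ (by linarith)
    nlinarith [sq_nonneg ((N : ℝ) ^ 2)]
  have key := col_le hS h0 h1 (Q := N ^ 4) (A := 20 * N ^ 4) hF hdep
  have h2 : arrLaw α F ≤ ENNReal.ofReal (4 * (arrLaw (1 / 2)).real F) +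
      ENNReal.ofReal (2 * N * Real.exp (-(N : ℝ) ^ 2)) := by
    refine key.trans (add_le_add ?_ ?_)
    · rw [ENNReal.ofReal_mul (by norm_num)]
      refine mul_le_mul' (ENNReal.ofReal_le_ofReal hlr) (le_of_eq ?_)
      exact (ENNReal.ofReal_toReal (measure_ne_top _ _)).symm
    · have h3 : ∑ t ∈ Finset.range n, arrLaw α {ω | ((N ^ 4 : ℕ) : ℤ) < DD ω t b} ≤
          N * ENNReal.ofReal (Real.exp (-(N : ℝ) ^ 2)) := by
        refine (Finset.sum_le_sum fun t ht => hE1 t (Finset.mem_range.1 ht)).trans ?_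
        rw [Finset.sum_const, Finset.card_range, nsmul_eq_mul]
        exact mul_le_mul_left (by exact_mod_cast hn) _
      have h4 : (n : ENNReal) * arrLaw α {ω | ((20 * N ^ 4 : ℕ) : ℤ) < DD ω 1 (N ^ 4 : ℕ)} ≤
          N * ENNReal.ofReal (Real.exp (-(N : ℝ) ^ 2)) :=
        mul_le_mul' (by exact_mod_cast hn) hE2
      refine (add_le_add h3 h4).trans (le_of_eq ?_)
      rw [← ENNReal.ofReal_natCast N, ← ENNReal.ofReal_mul (by positivity),
        ← ENNReal.ofReal_add (by positivity) (by positivity)]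
      congr 1
      ring
  rw [← ENNReal.ofReal_add (by positivity) (by positivity)] at h2
  have h3 : (arrLaw α).real F ≤ 4 * (arrLaw (1 / 2)).real F +
      2 * N * Real.exp (-(N : ℝ) ^ 2) := by
    unfold Measure.real at h2 ⊢
    exact ENNReal.toReal_le_of_le_ofReal (by positivity) h2
  have h4 : 2 * (N : ℝ) * Real.exp (-(N : ℝ) ^ 2) ≤ Real.exp (-N) := by
    have h5 : 2 * (N : ℝ) ≤ Real.exp ((N : ℝ) ^ 2 - N) := by
      have := Real.add_one_le_exp ((N : ℝ) ^ 2 - N)
      nlinarith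
    calc 2 * (N : ℝ) * Real.exp (-(N : ℝ) ^ 2)
        ≤ Real.exp ((N : ℝ) ^ 2 - N) * Real.exp (-(N : ℝ) ^ 2) :=
          mul_le_mul_of_nonneg_right h5 (Real.exp_pos _).le
      _ = Real.exp (-N) := by
          rw [← Real.exp_add]
          congr 1
          ring
  linarith

end Tr

open Tr R2X MeasAux in
theorem transfer (hS : SplitStmt) (hW : WidthStmt) (hCo : ConfineStmt) (hCD : ColDepStmt)
    (hM : MeasStmt) (hSS : StripShiftStmt) (hRc : RecentreStmt) (hCs : CshiftStmt)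
    (hMo : MonoStmt) : TransferStmt := by
  refine ⟨20, fun N α p hN h0 hα => ?_⟩
  have hNr : (20 : ℝ) ≤ N := by exact_mod_cast hN
  have h1 : α < 1 := by
    have h2 : (20 : ℝ) ^ 10 ≤ (N : ℝ) ^ 10 := pow_le_pow_left₀ (by norm_num) hNr 10
    norm_num at h2
    nlinarith
  have h0' : 0 ≤ α := by linarith
  have hP := R2X.arr_prob h0' h1
  have hP2 := R2X.arr_prob (α := 1 / 2) (by norm_num) (by norm_num)
  have hvv : vv α p (N ^ 2 : ℕ) N ≤ 4 * vv (1 / 2) p (N ^ 2 : ℕ) N + Real.exp (-N) := by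
    unfold vv
    refine col_real hS hW hN h0 hα le_rfl (b := N ^ 2) (by omega) ?_ ?_
    · exact (cross_meas hM p N 0 _).compl
    · exact Tr.ColDep.compl (Int.natCast_nonneg _)
        ((hCD p N (N ^ 2 : ℕ) (Int.natCast_nonneg _)).2.1 univ)
  refine ⟨hvv, fun h hh1 hhN => ?_⟩
  set W : ℤ := ((N ^ 2 : ℕ) : ℤ) with hWd
  have hcr : ∀ a : ℤ, (arrLaw α).real {ω | ¬ (strip p ω).Cross a (a + W) h} = vv α p W h := by
    intro a
    unfold vv Measure.real
    congr 1
    have hms : MeasurableSet {ω | ¬ (strip p ω).Cross 0 W h} := (cross_meas hM p h 0 W).compl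
    conv_rhs => rw [← hCs α h0' h1 a]
    rw [Measure.map_apply (hM.2.1 a) hms]
    congr 1
    ext ω
    simp only [mem_preimage, mem_ofPred_eq]
    rw [cross_shift hSS hRc p a ω 0 W h, zero_add, add_comm a W]
  have hvh : vv α p W h ≤ vv α p W N := (hMo α h0' h1).2.2.2.1 p W h N hhN
  -- the dual path in a column
  have hdual : (arrLaw α).real {ω | (strip p ω).DUp ((strip p ω).col (-W) (1 + W)) h 0} ≤
      4 * uu (1 / 2) p h + Real.exp (-N) := by
    have hmF : MeasurableSet {ω | (strip p ω).DUp ((strip p ω).col 0 (1 + 2 * W)) h W} :=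
      (hM.2.2.2 p h 0 (1 + 2 * W)).2.2.2.2.2.2.2.1 W
    have hsh : ∀ ω, (strip p (cshift (-W) ω)).DUp
        ((strip p (cshift (-W) ω)).col 0 (1 + 2 * W)) h W ↔
        (strip p ω).DUp ((strip p ω).col (-W) (1 + W)) h 0 := by
      intro ω
      rw [hSS.1 p (-W) ω, (hRc (strip p ω) (-W)).2.2.2.2.2.2.2.1 h 0 (1 + 2 * W) W]
      have e1 : (0 : ℤ) + -W = -W := by ring
      have e2 : 1 + 2 * W + -W = 1 + W := by ring
      have e3 : W + -W = 0 := by ring
      rw [e1, e2, e3]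
    have e4 : ∀ β : ℝ, 0 ≤ β → β < 1 →
        (arrLaw β).real {ω | (strip p ω).DUp ((strip p ω).col (-W) (1 + W)) h 0} =
        (arrLaw β).real {ω | (strip p ω).DUp ((strip p ω).col 0 (1 + 2 * W)) h W} := by
      intro β hb0 hb1
      unfold Measure.real
      congr 1
      conv_rhs => rw [← hCs β hb0 hb1 (-W)]
      rw [Measure.map_apply (hM.2.1 (-W)) hmF]
      congr 1
      ext ω
      exact (hsh ω).symm
    rw [e4 α h0' h1]
    have hb : (1 + 2 * W : ℤ) = ((1 + 2 * N ^ 2 : ℕ) : ℤ) := by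
      rw [hWd]
      push_cast
      ring
    have hdep : ColDep ((1 + 2 * N ^ 2 : ℕ) : ℤ) h
        {ω | (strip p ω).DUp ((strip p ω).col 0 (1 + 2 * W)) h W} := by
      rw [hb]
      exact (hCD p h _ (Int.natCast_nonneg _)).2.2.2.1 W
    refine (col_real hS hW hN h0 hα hhN (b := 1 + 2 * N ^ 2) le_rfl hmF hdep).trans ?_
    rw [← e4 (1 / 2) (by norm_num) (by norm_num)]
    have h5 : (arrLaw (1 / 2)).real {ω | (strip p ω).DUp ((strip p ω).col (-W) (1 + W)) h 0} ≤
        uu (1 / 2) p h := by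
      unfold uu
      exact measureReal_mono fun ω hω => dup_mono (subset_univ _) hω
    linarith
  have hsub : {ω | (strip p ω).DUp univ h 0} ⊆
      ({ω | ¬ (strip p ω).Cross (-W) (-W + W) h} ∪ {ω | ¬ (strip p ω).Cross 1 (1 + W) h}) ∪
        {ω | (strip p ω).DUp ((strip p ω).col (-W) (1 + W)) h 0} := by
    intro ω hω
    by_cases h2 : (strip p ω).Cross (-W) (-W + W) h
    · by_cases h3 : (strip p ω).Cross 1 (1 + W) h
      · right
        rw [neg_add_cancel] at h2
        exact hCo (strip p ω) h (-W) 0 1 (1 + W) 0 le_rfl one_pos h2 h3 hω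
      · exact Or.inl (Or.inr h3)
    · exact Or.inl (Or.inl h2)
  have h2 : uu α p h ≤ vv α p W h + vv α p W h + (4 * uu (1 / 2) p h + Real.exp (-N)) := by
    unfold uu
    refine (measureReal_mono hsub).trans ((measureReal_union_le _ _).trans
      (add_le_add ((measureReal_union_le _ _).trans (add_le_add ?_ ?_)) hdual))
    · exact (hcr (-W)).le
    · exact (hcr 1).le
  have h3 : 0 ≤ vv (1 / 2) p W N := by
    unfold vv
    exact measureReal_nonneg
  have h4 : 0 < Real.exp (-(N : ℝ)) := Real.exp_pos _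
  linarith

end CausalPerc.Neg
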