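import Pool.Agent.Lib.MP_a51368_pr.Neg.Spec2
import Pool.Agent.Lib.MP_a51368_pr.Mono2

/-!
# Module statements, part 3: the causal triangulation above level `r`, unrolled
-/

open MeasureTheory Set Filter Topology

noncomputable section

namespace CausalPerc.Neg

/-- The data of the vertex `v` of the tree in the format `Nd`: number of children; label `0`: the
horizontal edge to the right neighbour (stored at the parent of `v`); label `j+1`: `j`-th tree edge
for `j < kids`, the diagonal edge for `j = kids`, unused for `j > kids`. -/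
def unode (ω : Conf) (v : Vert) : Nd :=
  (kids ω v, fun j => match j with
    | 0 => match v with
      | [] => (ω []).2 (.hor 0)
      | i :: u => (ω u).2 (.hor i)
    | j + 1 => if j < kids ω v then (ω v).2 (.tree j)
        else if j = kids ω v then (ω v).2 .diag else (ω v).2 (.tree (j - 1)))

/-- Number of vertices of level `r + t`. -/
def uZ (ω : Conf) (r t : ℕ) : ℕ := (level (kids ω) (r + t)).length

/-- The vertex of the tree at position `x` (modulo the size of the level) of level `r + t`. -/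
def uvert (ω : Conf) (r : ℕ) (v : ℕ × ℤ) : Vert :=
  (level (kids ω) (r + v.1)).getD (v.2 % (uZ ω r v.1 : ℤ)).toNat []

/-- Unrolled `S`. -/
def uS (ω : Conf) (r t : ℕ) (x : ℤ) : ℤ :=
  (x / (uZ ω r t : ℤ)) * (uZ ω r (t + 1) : ℤ) +
    ((((level (kids ω) (r + t)).take (x % (uZ ω r t : ℤ)).toNat).map (kids ω)).sum : ℕ)

/-- The levels `≥ r` of the triangulation, unrolled. -/
structure IsUnroll (p : ℝ) (ω : Conf) (r : ℕ) (E : Strip) : Prop where
  S_eq : ∀ t x, E.S t x = uS ω r t x
  vo_iff : ∀ t x y, E.vo t x y ↔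
    (((unode ω (uvert ω r (t, x))).2 ((y - uS ω r t x).toNat + 1) : unitInterval) : ℝ) ≤ p
  ho_iff : ∀ t x, E.ho t x ↔ (((unode ω (uvert ω r (t, x))).2 0 : unitInterval) : ℝ) ≤ p

/-- The line of `a` in the unrolled strip. -/
def uD (ω : Conf) (r : ℕ) : ℕ → ℤ → ℤ
  | 0, a => a
  | t + 1, a => uS ω r t (uD ω r t a)

/-- The unrolled strip seen from the line of `a`, as an array. -/
def uarr (ω : Conf) (r : ℕ) (a : ℤ) : Arr :=
  fun t x => unode ω (uvert ω r (t, x + uD ω r t a))

/-- UNROLLING (deterministic): existence of the unrolled strip, projection and lifting of steps,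
arrays, periodicity. -/
def UnrollStmt : Prop :=
  ∀ (p : ℝ) (ω : Conf) (r : ℕ), 1 ≤ r → Survives ω →
    ∃ E : Strip, IsUnroll p ω r E ∧
      (∀ n u v, E.Step n univ u v →
        CausalPerc.Step p ω (uvert ω r u) (uvert ω r v) ∨
        CausalPerc.Step p ω (uvert ω r v) (uvert ω r u)) ∧
      (∀ n u v, E.OStep n univ u v → CausalPerc.Step p ω (uvert ω r u) (uvert ω r v)) ∧
      (∀ (t : ℕ) (x : ℤ) (b : Vert), CausalPerc.Step p ω (uvert ω r (t, x)) b →
        ∃ (t' : ℕ) (x' : ℤ), b = uvert ω r (t', x') ∧ t ≤ t' ∧ t' ≤ t + 1 ∧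
          ∀ n, t < n → E.OStep n univ (t, x) (t', x')) ∧
      (∀ a : ℤ, strip p (uarr ω r a) = E.recentre a) ∧
      (∀ t a, E.D t a = uD ω r t a) ∧
      (∀ t x, uvert ω r (t, x) ∈ level (kids ω) (r + t)) ∧
      (∀ t, ∀ v ∈ level (kids ω) (r + t), ∃ x : ℤ, 0 ≤ x ∧ x < uZ ω r t ∧ uvert ω r (t, x) = v) ∧
      (∀ t x, E.D t (x + uZ ω r 0) = E.D t x + uZ ω r t)

/-- LAW of a window of the unrolled strip, given level `r`. -/
def WindowLawStmt : Prop :=
  ∀ (α : ℝ), 0 < α → α < 1 → ∀ (r : ℕ) (L : List Vert) (a : ℤ) (h n : ℕ) (F : Set Arr),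
    1 ≤ r → h ≤ L.length → MeasurableSet F → ColDep h n F →
    law α {ω | level (kids ω) r = L ∧ uarr ω r a ∈ F} =
      law α {ω | level (kids ω) r = L} * arrLaw α F

/-- The generations tend to infinity on survival. -/
def GrowthStmt : Prop :=
  ∀ (α : ℝ), 1 / 2 < α → α < 1 → ∀ K : ℕ,
    Tendsto (fun r => law α {ω | level (kids ω) r ≠ [] ∧ (level (kids ω) r).length < K})
      atTop (𝓝 0)

/-- No infinite cluster without an infinite cluster in a finite column. -/
def ThetaZeroStmt : Prop :=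
  ∀ α p : ℝ, 1 / 2 < α → α < 1 → 0 ≤ p → p < 1 → ¬ ColInf α p → theta α p = 0

/-- Existence of infinite clusters. -/
def HasInfStmt : Prop :=
  ∀ α p : ℝ, 1 / 2 < α → α < 1 → ColInf α p → law α {ω | Survives ω ∧ ¬ HasInf p ω} = 0

/-- Uniqueness. -/
def TwoInfStmt : Prop :=
  ∀ (α p : ℝ) (l : ℕ), 1 / 2 < α → α < 1 → 1 ≤ l → (∀ n, vv α p l n ≤ 1 / 2) →
    Tendsto (fun n => uu α p n) atTop (𝓝 0) → law α {ω | TwoInf p ω} = 0

end CausalPerc.Neg
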