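import Pool.Agent.Lib.MP_a51368_pr.Neg.R2
import Pool.Agent.Lib.MP_a51368_pr.Neg.ColDep
import Pool.Agent.Lib.MP_a51368_pr.Neg.Spec3

/-!
# Module P27: two infinite clusters in different components
-/

open MeasureTheory Set Relation Filter Topology

noncomputable section

namespace CausalPerc.Neg

namespace TwoX

/-! ### Deterministic part -/

theorem survives_of_inf {p : ℝ} {ω : Conf} {u : Vert} (h : (cluster p ω u).Infinite) :
    Survives ω := by
  have h1 : ∀ R, u.length ≤ R → level (kids ω) R ≠ [] := by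
    intro R hR
    obtain ⟨a, ha, ha2⟩ := cluster_reaches h hR
    have h2 : InTree (kids ω) a := reach_inTree ha (inTree_of_cluster_infinite h)
    have h3 : a ∈ level (kids ω) R := by rw [← ha2]; exact h2
    exact List.ne_nil_of_mem h3
  have h4 : ∀ k R, level (kids ω) (R + k) ≠ [] → level (kids ω) R ≠ [] := by
    intro k
    induction k with
    | zero => intro R h; exact h
    | succ k ih =>
      intro R h5
      apply ih
      intro h6
      apply h5
      show level (kids ω) (R + k + 1) = []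
      rw [level_succ, h6]
      rfl
  intro R
  exact h4 u.length R (h1 (R + u.length) (by omega))

theorem lift_path {p : ℝ} {ω : Conf} {r : ℕ} {E : Strip}
    (hlift : ∀ (t : ℕ) (x : ℤ) (b : Vert), CausalPerc.Step p ω (uvert ω r (t, x)) b →
        ∃ (t' : ℕ) (x' : ℤ), b = uvert ω r (t', x') ∧ t ≤ t' ∧ t' ≤ t + 1 ∧
          ∀ n, t < n → E.OStep n univ (t, x) (t', x'))
    (hmem : ∀ t x, uvert ω r (t, x) ∈ level (kids ω) (r + t))
    {n : ℕ} {a b : Vert} (h : ReflTransGen (CausalPerc.Step p ω) a b) (hb : b.length = r + n) :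
    ∀ (t : ℕ) (x : ℤ), a = uvert ω r (t, x) → t ≤ n → ∃ y, E.OConn n univ (t, x) (n, y) := by
  induction h using ReflTransGen.head_induction_on with
  | refl =>
    intro t x ha ht
    have h1 := length_of_mem_level (hmem t x)
    rw [← ha, hb] at h1
    have : t = n := by omega
    subst this
    exact ⟨x, .refl⟩
  | head hab hbc ih =>
    intro t x ha ht
    rcases ht.eq_or_lt with h1 | h1
    · subst h1
      exact ⟨x, .refl⟩
    · rw [ha] at hab
      obtain ⟨t', x', h2, h3, h4, h5⟩ := hlift t x _ hab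
      obtain ⟨y, hy⟩ := ih t' x' h2 (by omega)
      exact ⟨y, ReflTransGen.head (h5 n h1) hy⟩

theorem bdd_region {E : Strip} {n : ℕ} {u v : ℕ × ℤ} (h : E.Conn n univ u v) :
    ∃ M : ℤ, ∀ M' ≥ M, E.Conn n {w | -M' ≤ w.2 ∧ w.2 < M'} u v := by
  induction h with
  | refl => exact ⟨0, fun _ _ => .refl⟩
  | tail hab hbc ih =>
    rename_i b c
    obtain ⟨M, hM⟩ := ih
    refine ⟨max M (max (|b.2| + 1) (|c.2| + 1)), fun M' hM' => ?_⟩
    have h1 : M ≤ M' := (le_max_left _ _).trans hM'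
    have h2 : |b.2| + 1 ≤ M' := (le_max_left _ _).trans ((le_max_right _ _).trans hM')
    have h3 : |c.2| + 1 ≤ M' := (le_max_right _ _).trans ((le_max_right _ _).trans hM')
    have h4 := neg_abs_le b.2
    have h5 := le_abs_self b.2
    have h6 := neg_abs_le c.2
    have h7 := le_abs_self c.2
    refine (hM M' h1).tail ⟨?_, ?_, hbc.2.2⟩
    · simp only [mem_ofPred_eq]
      constructor <;> linarith
    · simp only [mem_ofPred_eq]
      constructor <;> linarith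

theorem proj_conn {p : ℝ} {ω : Conf} {r : ℕ} {E : Strip}
    (hstep : ∀ n u v, E.Step n univ u v →
        CausalPerc.Step p ω (uvert ω r u) (uvert ω r v) ∨
        CausalPerc.Step p ω (uvert ω r v) (uvert ω r u))
    {n : ℕ} {R : Set (ℕ × ℤ)} {u v : ℕ × ℤ} (h : E.Conn n R u v) :
    CausalPerc.Conn p ω (uvert ω r u) (uvert ω r v) := by
  induction h with
  | refl => exact .refl
  | tail _ hbc ih =>
    exact ReflTransGen.tail ih (hstep n _ _ (Strip.Step.mono le_rfl (subset_univ _) hbc))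

theorem exists_edge (hU : UnrollStmt) (hD : DualityStmt) (hRc : RecentreStmt) {p : ℝ} {ω : Conf}
    {r : ℕ} (hr : 1 ≤ r) {u w : Vert} (hu : (cluster p ω u).Infinite)
    (hw : (cluster p ω w).Infinite) (huw : ¬ CausalPerc.Conn p ω u w) (hur : u.length ≤ r)
    (hwr : w.length ≤ r) {n : ℕ} (hn : 1 ≤ n) (c : ℤ) :
    ∃ e : ℤ, 0 ≤ e ∧ e < ((level (kids ω) r).length : ℤ) ∧
      (strip p (uarr ω r (e - c))).DUp univ n c := by
  obtain ⟨E, _, hstep, _, hlift, hstrip, _, hmem, hpos, _⟩ := hU p ω r hr (survives_of_inf hu)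
  have key : ∀ v : Vert, (cluster p ω v).Infinite → v.length ≤ r → ∃ x : ℤ, 0 ≤ x ∧
      x < uZ ω r 0 ∧ CausalPerc.Conn p ω v (uvert ω r (0, x)) ∧
        ∃ y, E.Conn n univ (0, x) (n, y) := by
    intro v hv hvr
    obtain ⟨b, hb, hbl⟩ := cluster_reaches hv (R := r + n) (by omega)
    obtain ⟨a, hal, ha1, ha2⟩ := reach_through hb hvr (by omega)
    have hat : InTree (kids ω) a := reach_inTree ha1 (inTree_of_cluster_infinite hv)
    have ham : a ∈ level (kids ω) (r + 0) := by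
      rw [add_zero, ← hal]
      exact hat
    obtain ⟨x, hx0, hx1, hx2⟩ := hpos 0 a ham
    obtain ⟨y, hy⟩ := lift_path hlift hmem ha2 hbl 0 x hx2.symm (Nat.zero_le n)
    refine ⟨x, hx0, hx1, ?_, y, hy.conn⟩
    rw [hx2]
    exact ReflTransGen.mono (fun _ _ h => Or.inl h) _ _ ha1
  obtain ⟨x1, h10, h11, h12, y1, h13⟩ := key u hu hur
  obtain ⟨x2, h20, h21, h22, y2, h23⟩ := key w hw hwr
  have hne : x1 ≠ x2 := by
    rintro rfl
    exact huw (ReflTransGen.trans h12 (conn_symm h22))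
  have main : ∀ (x₁ y₁ x₂ y₂ : ℤ), x₁ < x₂ → 0 ≤ x₁ → x₂ < uZ ω r 0 →
      E.Conn n univ (0, x₁) (n, y₁) → E.Conn n univ (0, x₂) (n, y₂) →
      ¬ CausalPerc.Conn p ω (uvert ω r (0, x₁)) (uvert ω r (0, x₂)) →
      ∃ e : ℤ, 0 ≤ e ∧ e < uZ ω r 0 ∧ E.DUp univ n e := by
    intro x₁ y₁ x₂ y₂ hlt h0 hZ hc1 hc2 hnc
    obtain ⟨M1, hM1⟩ := bdd_region hc1
    obtain ⟨M2, hM2⟩ := bdd_region hc2
    have g1 : M1 ≤ max (max M1 M2) (x₂ + 1) := (le_max_left _ _).trans (le_max_left _ _)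
    have g2 : M2 ≤ max (max M1 M2) (x₂ + 1) := (le_max_right _ _).trans (le_max_left _ _)
    have g3 : x₂ + 1 ≤ max (max M1 M2) (x₂ + 1) := le_max_right _ _
    obtain ⟨x, hx1, hx2, hx3⟩ := hD E n (fun _ => -(max (max M1 M2) (x₂ + 1)))
      (fun _ => max (max M1 M2) (x₂ + 1)) x₁ y₁ x₂ y₂ hn hlt (by linarith) (by linarith)
      (hM1 _ g1) (hM2 _ g2) (fun h => hnc (proj_conn hstep h))
    exact ⟨x, by linarith, by linarith, R2X.dup_mono (subset_univ _) hx3⟩
  obtain ⟨e, he0, he1, he2⟩ : ∃ e : ℤ, 0 ≤ e ∧ e < uZ ω r 0 ∧ E.DUp univ n e := by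
    rcases lt_or_gt_of_ne hne with h | h
    · exact main x1 y1 x2 y2 h h10 h21 h13 h23
        (fun h => huw (ReflTransGen.trans (ReflTransGen.trans h12 h) (conn_symm h22)))
    · exact main x2 y2 x1 y1 h h20 h11 h23 h13
        (fun h => huw (ReflTransGen.trans (ReflTransGen.trans h12 (conn_symm h)) (conn_symm h22)))
  refine ⟨e, he0, he1, ?_⟩
  rw [hstrip, (hRc E (e - c)).2.2.2.2.2.2.1 n c]
  rw [add_sub_cancel]
  exact he2

/-! ### The three events of a window -/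

def F1 (p : ℝ) (l j n : ℕ) : Set Arr :=
  {η | ∀ i : Fin j, ¬ (strip p η).Cross (((j * l + 1 : ℕ) : ℤ) + (i : ℕ) * l)
    (((j * l + 1 : ℕ) : ℤ) + ((i : ℕ) + 1) * l) n}

def F2 (p : ℝ) (l j n : ℕ) : Set Arr :=
  {η | ∀ i : Fin j, ¬ (strip p η).Cross ((0 : ℤ) + (i : ℕ) * l) ((0 : ℤ) + ((i : ℕ) + 1) * l) n}

def F3 (p : ℝ) (l j n : ℕ) : Set Arr :=
  {η | (strip p η).DUp ((strip p η).col 0 ((2 * j * l + 1 : ℕ) : ℤ)) n ((j * l : ℕ) : ℤ)}

theorem incl (hC : ConfineStmt) (p : ℝ) (l j n : ℕ) :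
    {η : Arr | (strip p η).DUp univ n ((j * l : ℕ) : ℤ)} ⊆ F1 p l j n ∪ F2 p l j n ∪ F3 p l j n := by
  intro η hη
  by_contra hno
  simp only [mem_union, not_or] at hno
  obtain ⟨⟨h1, h2⟩, h3⟩ := hno
  simp only [F1, F2, mem_ofPred_eq, not_forall, not_not] at h1 h2
  obtain ⟨i, hi⟩ := h1
  obtain ⟨k, hk⟩ := h2
  apply h3
  have hlz : (0 : ℤ) ≤ l := Nat.cast_nonneg _
  have hij : ((i : ℕ) : ℤ) + 1 ≤ j := by exact_mod_cast i.2
  have hkj : ((k : ℕ) : ℤ) + 1 ≤ j := by exact_mod_cast k.2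
  have hi0 : (0 : ℤ) ≤ ((i : ℕ) : ℤ) := Nat.cast_nonneg _
  have hk0 : (0 : ℤ) ≤ ((k : ℕ) : ℤ) := Nat.cast_nonneg _
  have e1 := mul_le_mul_of_nonneg_right hij hlz
  have e2 := mul_le_mul_of_nonneg_right hkj hlz
  have e3 := mul_nonneg hi0 hlz
  have e4 := mul_nonneg hk0 hlz
  have hdu := hC (strip p η) n _ _ _ _ ((j * l : ℕ) : ℤ) (by push_cast; linarith)
    (by push_cast; linarith) hk hi hη
  exact R2X.dup_mono ((strip p η).col_mono (by linarith) (by push_cast; linarith)) hdu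

theorem colDep_compl {b : ℤ} {n : ℕ} {F : Set Arr} (hb : 0 ≤ b) (h : ColDep b n F) :
    ColDep b n Fᶜ := by
  intro ω ω' hag hω hF
  apply hω
  apply h ω' ω _ hF
  intro t ht x hx1 hx2
  have hag' : AgrC b n ω ω' := hag
  rw [← hag'.D ht.le hb le_rfl] at hx2
  exact (hag t ht x hx1 hx2).symm

theorem colDep_F1 (hCD : ColDepStmt) (p : ℝ) (l j n : ℕ) :
    ColDep ((2 * j * l + 1 : ℕ) : ℤ) n (F1 p l j n) := by
  intro ω ω' hag hω i
  have hlz : (0 : ℤ) ≤ l := Nat.cast_nonneg _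
  have hij : ((i : ℕ) : ℤ) + 1 ≤ j := by exact_mod_cast i.2
  have hi0 : (0 : ℤ) ≤ ((i : ℕ) : ℤ) := Nat.cast_nonneg _
  have hj0 : (0 : ℤ) ≤ (j : ℤ) := Nat.cast_nonneg _
  have e1 := mul_le_mul_of_nonneg_right hij hlz
  have e3 := mul_nonneg hi0 hlz
  have e4 := mul_nonneg hj0 hlz
  have hd := (hCD p n ((2 * j * l + 1 : ℕ) : ℤ) (Nat.cast_nonneg _)).2.2.2.2.1
    (((j * l + 1 : ℕ) : ℤ) + (i : ℕ) * l) (((j * l + 1 : ℕ) : ℤ) + ((i : ℕ) + 1) * l)
    (by push_cast; linarith) (by push_cast; linarith) univ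
  exact colDep_compl (Nat.cast_nonneg _) hd ω ω' hag (hω i)

theorem colDep_F2 (hCD : ColDepStmt) (p : ℝ) (l j n : ℕ) :
    ColDep ((2 * j * l + 1 : ℕ) : ℤ) n (F2 p l j n) := by
  intro ω ω' hag hω i
  have hlz : (0 : ℤ) ≤ l := Nat.cast_nonneg _
  have hij : ((i : ℕ) : ℤ) + 1 ≤ j := by exact_mod_cast i.2
  have hi0 : (0 : ℤ) ≤ ((i : ℕ) : ℤ) := Nat.cast_nonneg _
  have hj0 : (0 : ℤ) ≤ (j : ℤ) := Nat.cast_nonneg _
  have e1 := mul_le_mul_of_nonneg_right hij hlz
  have e3 := mul_nonneg hi0 hlz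
  have e4 := mul_nonneg hj0 hlz
  have hd := (hCD p n ((2 * j * l + 1 : ℕ) : ℤ) (Nat.cast_nonneg _)).2.2.2.2.1
    ((0 : ℤ) + (i : ℕ) * l) ((0 : ℤ) + ((i : ℕ) + 1) * l)
    (by linarith) (by push_cast; linarith) univ
  exact colDep_compl (Nat.cast_nonneg _) hd ω ω' hag (hω i)

theorem colDep_F3 (hCD : ColDepStmt) (p : ℝ) (l j n : ℕ) :
    ColDep ((2 * j * l + 1 : ℕ) : ℤ) n (F3 p l j n) :=
  (hCD p n ((2 * j * l + 1 : ℕ) : ℤ) (Nat.cast_nonneg _)).2.2.2.1 _

theorem meas_F1 (hM : MeasStmt) (p : ℝ) (l j n : ℕ) : MeasurableSet (F1 p l j n) := by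
  have : F1 p l j n = ⋂ i : Fin j, {η | (strip p η).Cross (((j * l + 1 : ℕ) : ℤ) + (i : ℕ) * l)
    (((j * l + 1 : ℕ) : ℤ) + ((i : ℕ) + 1) * l) n}ᶜ := by
    ext η
    simp [F1]
  rw [this]
  exact MeasurableSet.iInter fun i => (R2X.cross_meas hM p n _ _).compl

theorem meas_F2 (hM : MeasStmt) (p : ℝ) (l j n : ℕ) : MeasurableSet (F2 p l j n) := by
  have : F2 p l j n = ⋂ i : Fin j, {η | (strip p η).Cross ((0 : ℤ) + (i : ℕ) * l)
    ((0 : ℤ) + ((i : ℕ) + 1) * l) n}ᶜ := by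
    ext η
    simp [F2]
  rw [this]
  exact MeasurableSet.iInter fun i => (R2X.cross_meas hM p n _ _).compl

theorem meas_F3 (hM : MeasStmt) (p : ℝ) (l j n : ℕ) : MeasurableSet (F3 p l j n) :=
  (hM.2.2.2 p n 0 ((2 * j * l + 1 : ℕ) : ℤ)).2.2.2.2.2.2.2.1 _

/-! ### Bounds -/

section Bounds

variable {α p : ℝ} {l : ℕ}

theorem law_F1 (hM : MeasStmt) (hSS : StripShiftStmt) (hRc : RecentreStmt) (hCD : ColDepStmt)
    (hCI : ColIndepStmt) (h0 : 0 ≤ α) (h1 : α < 1) (hv : ∀ n, vv α p l n ≤ 1 / 2) (s : ℤ)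
    (j n : ℕ) :
    arrLaw α {ω | ∀ i : Fin j, ¬ (strip p ω).Cross (s + (i : ℕ) * l) (s + ((i : ℕ) + 1) * l) n} ≤
      (2 : ENNReal)⁻¹ ^ j := by
  have := R2X.arr_prob h0 h1
  rw [R2X.columns hM hSS hRc hCD hCI h0 h1 p j l n s]
  refine pow_le_pow_left₀ (by simp) ?_ j
  have h2 : (arrLaw α).real {ω | ¬ (strip p ω).Cross 0 l n} ≤ 1 / 2 := hv n
  have h3 : arrLaw α {ω | ¬ (strip p ω).Cross 0 l n} =
      ENNReal.ofReal ((arrLaw α).real {ω | ¬ (strip p ω).Cross 0 l n}) :=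
    (ENNReal.ofReal_toReal (measure_ne_top _ _)).symm
  rw [h3]
  refine (ENNReal.ofReal_le_ofReal h2).trans ?_
  rw [one_div, ENNReal.ofReal_inv_of_pos (by norm_num)]
  simp

theorem window_bound (hWL : WindowLawStmt) (hC : ConfineStmt) (hM : MeasStmt)
    (hSS : StripShiftStmt) (hRc : RecentreStmt) (hCD : ColDepStmt) (hCI : ColIndepStmt)
    (hCs : CshiftStmt) (h0 : 0 < α) (h1 : α < 1) (hv : ∀ n, vv α p l n ≤ 1 / 2) {r : ℕ}
    (hr : 1 ≤ r) (L : List Vert) {j : ℕ} (hj : 2 * j * l + 1 ≤ L.length) (n : ℕ) (a : ℤ) :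
    law α {ω | level (kids ω) r = L ∧ (strip p (uarr ω r a)).DUp univ n ((j * l : ℕ) : ℤ)} ≤
      law α {ω | level (kids ω) r = L} * (2 * (2 : ENNReal)⁻¹ ^ j + ENNReal.ofReal (uu α p n)) := by
  have hp := R2X.arr_prob h0.le h1
  have hsub : {ω | level (kids ω) r = L ∧ (strip p (uarr ω r a)).DUp univ n ((j * l : ℕ) : ℤ)} ⊆
      {ω | level (kids ω) r = L ∧ uarr ω r a ∈ F1 p l j n} ∪
      {ω | level (kids ω) r = L ∧ uarr ω r a ∈ F2 p l j n} ∪
      {ω | level (kids ω) r = L ∧ uarr ω r a ∈ F3 p l j n} := by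
    rintro ω ⟨h2, h3⟩
    rcases incl hC p l j n h3 with (h4 | h4) | h4
    · exact Or.inl (Or.inl ⟨h2, h4⟩)
    · exact Or.inl (Or.inr ⟨h2, h4⟩)
    · exact Or.inr ⟨h2, h4⟩
  have e1 := hWL α h0 h1 r L a (2 * j * l + 1) n (F1 p l j n) hr hj (meas_F1 hM p l j n)
    (colDep_F1 hCD p l j n)
  have e2 := hWL α h0 h1 r L a (2 * j * l + 1) n (F2 p l j n) hr hj (meas_F2 hM p l j n)
    (colDep_F2 hCD p l j n)
  have e3 := hWL α h0 h1 r L a (2 * j * l + 1) n (F3 p l j n) hr hj (meas_F3 hM p l j n)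
    (colDep_F3 hCD p l j n)
  have b1 : arrLaw α (F1 p l j n) ≤ (2 : ENNReal)⁻¹ ^ j :=
    law_F1 hM hSS hRc hCD hCI h0.le h1 hv _ j n
  have b2 : arrLaw α (F2 p l j n) ≤ (2 : ENNReal)⁻¹ ^ j :=
    law_F1 hM hSS hRc hCD hCI h0.le h1 hv _ j n
  have b3 : arrLaw α (F3 p l j n) ≤ ENNReal.ofReal (uu α p n) := by
    have g1 : F3 p l j n ⊆ {η : Arr | (strip p η).DUp univ n ((j * l : ℕ) : ℤ)} :=
      fun η hη => R2X.dup_mono (subset_univ _) hη
    refine (measure_mono g1).trans ?_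
    rw [R2X.dup_law hM hSS hRc hCs h0.le h1 p n]
    exact (ENNReal.ofReal_toReal (measure_ne_top _ _)).symm.le
  calc law α {ω | level (kids ω) r = L ∧ (strip p (uarr ω r a)).DUp univ n ((j * l : ℕ) : ℤ)}
      ≤ law α {ω | level (kids ω) r = L} * arrLaw α (F1 p l j n) +
        law α {ω | level (kids ω) r = L} * arrLaw α (F2 p l j n) +
        law α {ω | level (kids ω) r = L} * arrLaw α (F3 p l j n) := by
        refine (measure_mono hsub).trans ((measure_union_le _ _).trans ?_)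
        refine add_le_add ((measure_union_le _ _).trans (add_le_add ?_ ?_)) ?_
        · exact e1.le
        · exact e2.le
        · exact e3.le
    _ ≤ law α {ω | level (kids ω) r = L} * (2 : ENNReal)⁻¹ ^ j +
        law α {ω | level (kids ω) r = L} * (2 : ENNReal)⁻¹ ^ j +
        law α {ω | level (kids ω) r = L} * ENNReal.ofReal (uu α p n) := by
        gcongr
    _ = _ := by ring

/-- The event of two given infinite clusters in different components. -/
def TW (p : ℝ) (u w : Vert) : Set Conf :=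
  {ω | (cluster p ω u).Infinite ∧ (cluster p ω w).Infinite ∧ ¬ CausalPerc.Conn p ω u w}

theorem level_bound (hU : UnrollStmt) (hD : DualityStmt) (hWL : WindowLawStmt)
    (hC : ConfineStmt) (hM : MeasStmt)
    (hSS : StripShiftStmt) (hRc : RecentreStmt) (hCD : ColDepStmt) (hCI : ColIndepStmt)
    (hCs : CshiftStmt) (h0 : 0 < α) (h1 : α < 1) (hv : ∀ n, vv α p l n ≤ 1 / 2)
    (hu : Tendsto (fun n => uu α p n) atTop (𝓝 0)) {r : ℕ}
    (hr : 1 ≤ r) {u w : Vert} (hur : u.length ≤ r) (hwr : w.length ≤ r) (L : List Vert) {j : ℕ}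
    (hj : 2 * j * l + 1 ≤ L.length) :
    law α {ω | ω ∈ TW p u w ∧ level (kids ω) r = L} ≤
      law α {ω | level (kids ω) r = L} * ((L.length : ENNReal) * (2 * (2 : ENNReal)⁻¹ ^ j)) := by
  have : GoodParam α := ⟨h0, h1⟩
  set m := law α {ω | level (kids ω) r = L} with hm
  have hmf : m ≠ ⊤ := measure_ne_top _ _
  have hb : ∀ n : ℕ, 1 ≤ n → law α {ω | ω ∈ TW p u w ∧ level (kids ω) r = L} ≤
      (L.length : ENNReal) * (m * (2 * (2 : ENNReal)⁻¹ ^ j + ENNReal.ofReal (uu α p n))) := by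
    intro n hn
    have hsub : {ω | ω ∈ TW p u w ∧ level (kids ω) r = L} ⊆
        ⋃ e ∈ Finset.Ico (0 : ℤ) (L.length : ℤ), {ω | level (kids ω) r = L ∧
          (strip p (uarr ω r (e - ((j * l : ℕ) : ℤ)))).DUp univ n ((j * l : ℕ) : ℤ)} := by
      rintro ω ⟨⟨h2, h3, h4⟩, h5⟩
      obtain ⟨e, he0, he1, he2⟩ := exists_edge hU hD hRc hr h2 h3 h4 hur hwr hn ((j * l : ℕ) : ℤ)
      rw [h5] at he1
      exact mem_biUnion (x := e) (by simpa using ⟨he0, he1⟩) ⟨h5, he2⟩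
    refine (measure_mono hsub).trans ((measure_biUnion_finset_le _ _).trans ?_)
    refine (Finset.sum_le_sum fun e _ => window_bound hWL hC hM hSS hRc hCD hCI hCs h0 h1 hv hr L
      hj n _).trans ?_
    rw [Finset.sum_const, Int.card_Ico, nsmul_eq_mul]
    simp only [sub_zero, Int.toNat_natCast]
    exact le_rfl
  have hlim : Tendsto (fun n => (L.length : ENNReal) *
      (m * (2 * (2 : ENNReal)⁻¹ ^ j + ENNReal.ofReal (uu α p n)))) atTop
      (𝓝 ((L.length : ENNReal) * (m * (2 * (2 : ENNReal)⁻¹ ^ j + 0)))) := by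
    have g1 : Tendsto (fun n => ENNReal.ofReal (uu α p n)) atTop (𝓝 0) := by
      have := ENNReal.tendsto_ofReal hu
      rwa [ENNReal.ofReal_zero] at this
    exact ENNReal.Tendsto.const_mul (ENNReal.Tendsto.const_mul (tendsto_const_nhds.add g1)
      (Or.inr hmf)) (Or.inr (ENNReal.natCast_ne_top _))
  have h2 := ge_of_tendsto hlim (eventually_atTop.2 ⟨1, fun n hn => hb n hn⟩)
  refine h2.trans (le_of_eq ?_)
  rw [add_zero]
  ring

theorem small (hl : 1 ≤ l) {ε : ENNReal} (hε : 0 < ε) :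
    ∃ K : ℕ, 1 ≤ K ∧ ∀ Z ≥ K, (Z : ENNReal) * (2 * (2 : ENNReal)⁻¹ ^ ((Z - 1) / (2 * l))) ≤ ε := by
  have hlim : Tendsto (fun k : ℕ => ENNReal.ofReal ((2 * l) * (k + 1) * (2 * (1 / 2 : ℝ) ^ k)))
      atTop (𝓝 0) := by
    have g1 : Tendsto (fun k : ℕ => (k : ℝ) * (1 / 2 : ℝ) ^ k) atTop (𝓝 0) :=
      tendsto_self_mul_const_pow_of_lt_one (by norm_num) (by norm_num)
    have g2 : Tendsto (fun k : ℕ => (1 / 2 : ℝ) ^ k) atTop (𝓝 0) :=
      tendsto_pow_atTop_nhds_zero_of_lt_one (by norm_num) (by norm_num)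
    have g3 := ((g1.add g2).const_mul (4 * (l : ℝ)))
    rw [add_zero, mul_zero] at g3
    have g4 : (fun k : ℕ => (2 * (l : ℝ)) * (k + 1) * (2 * (1 / 2 : ℝ) ^ k)) =
        fun k : ℕ => 4 * (l : ℝ) * ((k : ℝ) * (1 / 2 : ℝ) ^ k + (1 / 2 : ℝ) ^ k) := by
      funext k
      ring
    rw [← g4] at g3
    have g5 := ENNReal.tendsto_ofReal g3
    rwa [ENNReal.ofReal_zero] at g5
  obtain ⟨k₀, hk₀⟩ := eventually_atTop.1 (hlim.eventually (gt_mem_nhds hε))
  refine ⟨2 * l * k₀ + 1, by omega, fun Z hZ => ?_⟩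
  have hl2 : 0 < 2 * l := by omega
  have hk : k₀ ≤ (Z - 1) / (2 * l) := by
    rw [Nat.le_div_iff_mul_le hl2]
    have : k₀ * (2 * l) = 2 * l * k₀ := by ring
    omega
  refine le_trans ?_ (hk₀ _ hk).le
  set k := (Z - 1) / (2 * l) with hkdef
  have hZk : Z ≤ 2 * l * (k + 1) := by
    have h3 := Nat.lt_mul_div_succ (Z - 1) hl2
    rw [← hkdef] at h3
    omega
  have h7 : (0 : ℝ) ≤ 2 * (l : ℝ) * ((k : ℝ) + 1) := by positivity
  rw [ENNReal.ofReal_mul h7, ENNReal.ofReal_mul (by norm_num : (0 : ℝ) ≤ 2),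
    ENNReal.ofReal_pow (by norm_num)]
  have h4 : ENNReal.ofReal (1 / 2) = (2 : ENNReal)⁻¹ := by
    rw [one_div, ENNReal.ofReal_inv_of_pos (by norm_num)]
    simp
  have h5 : ENNReal.ofReal 2 = 2 := by simp
  rw [h4, h5]
  gcongr
  have h6 : (2 * (l : ℝ)) * (k + 1) = ((2 * l * (k + 1) : ℕ) : ℝ) := by push_cast; ring
  rw [h6, ENNReal.ofReal_natCast]
  exact_mod_cast hZk

end Bounds

end TwoX

open TwoX

theorem twoInfN (hU : UnrollStmt) (hWL : WindowLawStmt) (hG : GrowthStmt) (hD : DualityStmt)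
    (hC : ConfineStmt) (hM : MeasStmt) (hSS : StripShiftStmt) (hRc : RecentreStmt)
    (hCD : ColDepStmt) (hCI : ColIndepStmt) (hCs : CshiftStmt) : TwoInfStmt := by
  intro α p l h0 h1 hl hv hu
  have hα0 : 0 < α := by linarith
  have : GoodParam α := ⟨hα0, h1⟩
  have hsub : {ω | TwoInf p ω} ⊆ ⋃ u : Vert, ⋃ w : Vert, TW p u w := by
    rintro ω ⟨u, w, h⟩
    exact mem_iUnion.2 ⟨u, mem_iUnion.2 ⟨w, h⟩⟩
  refine measure_mono_null hsub ?_
  rw [measure_iUnion_null_iff]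
  intro u
  rw [measure_iUnion_null_iff]
  intro w
  -- it is at most every `ε > 0`
  refine le_antisymm (le_of_forall_gt_imp_ge_of_dense fun ε hε => ?_) bot_le
  obtain ⟨K, hK1, hK⟩ := small hl hε
  have hb : ∀ r ≥ max (max u.length w.length) 1, law α (TW p u w) ≤
      law α {ω | level (kids ω) r ≠ [] ∧ (level (kids ω) r).length < K} + ε := by
    intro r hr
    have hr1 : 1 ≤ r := (le_max_right _ _).trans hr
    have hur : u.length ≤ r := ((le_max_left _ _).trans (le_max_left _ _)).trans hr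
    have hwr : w.length ≤ r := ((le_max_right _ _).trans (le_max_left _ _)).trans hr
    have hs : TW p u w ⊆ {ω | level (kids ω) r ≠ [] ∧ (level (kids ω) r).length < K} ∪
        ⋃ L : List Vert, {ω | (ω ∈ TW p u w ∧ level (kids ω) r = L) ∧ K ≤ L.length} := by
      intro ω hω
      by_cases hc : (level (kids ω) r).length < K
      · exact Or.inl ⟨survives_of_inf hω.1 r, hc⟩
      · exact Or.inr (mem_iUnion.2 ⟨level (kids ω) r, ⟨hω, rfl⟩, not_lt.1 hc⟩)
    refine (measure_mono hs).trans ((measure_union_le _ _).trans ?_)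
    gcongr
    refine (measure_iUnion_le _).trans ?_
    have hL : ∀ L : List Vert, law α {ω | (ω ∈ TW p u w ∧ level (kids ω) r = L) ∧ K ≤ L.length} ≤
        law α {ω | level (kids ω) r = L} * ε := by
      intro L
      by_cases hc : K ≤ L.length
      · have h2 : {ω | (ω ∈ TW p u w ∧ level (kids ω) r = L) ∧ K ≤ L.length} ⊆
            {ω | ω ∈ TW p u w ∧ level (kids ω) r = L} := fun ω hω => hω.1
        have hj : 2 * ((L.length - 1) / (2 * l)) * l + 1 ≤ L.length := by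
          have h3 := Nat.div_mul_le_self (L.length - 1) (2 * l)
          have h4 : 2 * ((L.length - 1) / (2 * l)) * l = (L.length - 1) / (2 * l) * (2 * l) := by
            ring
          rw [h4]
          omega
        refine (measure_mono h2).trans ((level_bound hU hD hWL hC hM hSS hRc hCD hCI hCs hα0 h1 hv
          hu hr1 hur hwr L hj).trans ?_)
        gcongr
        exact hK _ hc
      · have h2 : {ω | (ω ∈ TW p u w ∧ level (kids ω) r = L) ∧ K ≤ L.length} = ∅ := by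
          ext ω
          simp only [mem_ofPred_eq, mem_empty_iff_false, iff_false]
          exact fun h => hc h.2
        rw [h2, measure_empty]
        exact bot_le
    refine (ENNReal.tsum_le_tsum hL).trans ?_
    rw [ENNReal.tsum_mul_right]
    have h3 : ∑' L : List Vert, law α {ω | level (kids ω) r = L} ≤ 1 := by
      refine (tsum_meas_le_meas_iUnion_of_disjoint (law α)
        (As := fun L : List Vert => {ω | level (kids ω) r = L}) ?_ ?_).trans prob_le_one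
      · intro L
        exact measurable_level r (MeasurableSet.of_discrete (s := {L' : List Vert | L' = L}))
      · intro L L' hne
        rw [Function.onFun, Set.disjoint_left]
        intro ω h4 h5
        exact hne (Eq.trans (Eq.symm h4) h5)
    calc (∑' L : List Vert, law α {ω | level (kids ω) r = L}) * ε ≤ 1 * ε := by gcongr
      _ = ε := one_mul ε
  have hlim := (hG α h0 h1 K).add_const ε
  rw [zero_add] at hlim
  exact ge_of_tendsto hlim (eventually_atTop.2 ⟨_, fun r hr => hb r hr⟩)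

end CausalPerc.Neg
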