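import Pool.Agent.Lib.MP_a51368_pr.Neg.Spec2
import Pool.Agent.Lib.MP_a51368_pr.Neg.Adapted

/-!
# `u_n ≤ P(T > n)`
-/

open MeasureTheory Set

namespace CausalPerc.Neg

theorem uTail (h1 : SeparateStmt) (h2 : DFirstStmt) (h3 : EdgeStmt) : UTailStmt := by
  intro p hp0 hp1 n
  have hprob : IsProbabilityMeasure (arrLaw (1 / 2)) :=
    Adapted.arr_prob (by norm_num) (by norm_num)
  have hae : ∀ᵐ ω ∂arrLaw (1 / 2), ∀ t : ℕ, ∀ a : ℤ,
      ((strip p ω).ES (Iic a) t).Nonempty ∧ ((strip p ω).ES (Ici a) t).Nonempty := by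
    rw [ae_all_iff]
    intro t
    filter_upwards [(h3 p hp0 hp1 t).1] with ω hω a
    exact ⟨(hω a).2.2.2.2.1, (hω a).2.2.2.2.2.2.1⟩
  unfold uu tailT
  refine ENNReal.toReal_mono (measure_ne_top _ _) (measure_mono_ae ?_)
  filter_upwards [hae] with ω hω hD
  intro t ht
  rcases Nat.eq_zero_or_pos t with rfl | htpos
  · show sSup (Iic (0 : ℤ)) < sInf (Ici (1 : ℤ))
    rw [csSup_Iic, csInf_Ici]
    norm_num
  · obtain ⟨y, hy1, hy2⟩ := h1 (strip p ω) t 0 (h2 (strip p ω) univ t n 0 htpos ht hD)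
    obtain ⟨g1, -⟩ := hω t 0
    obtain ⟨-, g2⟩ := hω t 1
    have e : (Ioi (0 : ℤ)) = Ici 1 := by
      ext x
      simp only [mem_Ioi, mem_Ici]
      omega
    rw [e] at hy2
    have a1 : sSup ((strip p ω).ES (Iic 0) t) ≤ y := csSup_le g1 hy1
    have a2 : y + 1 ≤ sInf ((strip p ω).ES (Ici 1) t) := le_csInf g2 fun z hz => hy2 z hz
    omega

end CausalPerc.Neg
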