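import Pool.Agent.Lib.MP_a51368_pr.Neg.Spec3

/-!
# The levels `≥ r` of a causal triangulation, unrolled
-/

open Set

namespace CausalPerc.Neg

/-! ### Partial sums of the numbers of children -/

section list

variable {k : Vert → ℕ}

/-- Number of children of the first `j` members of the list. -/
def psum (k : Vert → ℕ) (L : List Vert) (j : ℕ) : ℕ := ((L.take j).map k).sum

theorem psum_zero (L : List Vert) : psum k L 0 = 0 := by simp [psum]

theorem psum_cons_succ (a : Vert) (L : List Vert) (j : ℕ) :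
    psum k (a :: L) (j + 1) = k a + psum k L j := by simp [psum]

theorem psum_succ {L : List Vert} {j : ℕ} (hj : j < L.length) :
    psum k L (j + 1) = psum k L j + k L[j] := by
  induction L generalizing j with
  | nil => simp at hj
  | cons a L ih =>
    cases j with
    | zero => simp [psum_cons_succ, psum_zero]
    | succ j =>
      have hj' : j < L.length := by simpa using hj
      rw [psum_cons_succ, psum_cons_succ, ih hj', List.getElem_cons_succ, add_assoc]

theorem psum_length (L : List Vert) : psum k L L.length = (L.flatMap (children k)).length := by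
  induction L with
  | nil => simp [psum]
  | cons a L ih =>
    rw [List.length_cons, psum_cons_succ, ih, List.flatMap_cons, List.length_append]
    simp [children]

theorem psum_add_le {L : List Vert} {j i : ℕ} (hj : j < L.length) (hi : i < k L[j]) :
    psum k L j + i < (L.flatMap (children k)).length := by
  induction L generalizing j with
  | nil => simp at hj
  | cons a L ih =>
    rw [List.flatMap_cons, List.length_append]
    have hlen : (children k a).length = k a := by simp [children]
    cases j with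
    | zero =>
      rw [psum_zero, hlen]
      rw [List.getElem_cons_zero] at hi
      omega
    | succ j =>
      have hj' : j < L.length := by simpa using hj
      rw [List.getElem_cons_succ] at hi
      have := ih hj' hi
      rw [psum_cons_succ, hlen]
      omega

theorem getD_children {L : List Vert} {j i : ℕ} (hj : j < L.length) (hi : i < k L[j]) :
    (L.flatMap (children k)).getD (psum k L j + i) [] = i :: L[j] := by
  induction L generalizing j with
  | nil => simp at hj
  | cons a L ih =>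
    rw [List.flatMap_cons]
    have hlen : (children k a).length = k a := by simp [children]
    cases j with
    | zero =>
      rw [List.getElem_cons_zero] at hi ⊢
      rw [psum_zero, Nat.zero_add, List.getD_eq_getElem?_getD, List.getElem?_append_left
        (by rw [hlen]; exact hi)]
      simp [children, hi]
    | succ j =>
      have hj' : j < L.length := by simpa using hj
      rw [List.getElem_cons_succ] at hi ⊢
      rw [← ih hj' hi, List.getD_eq_getElem?_getD, List.getD_eq_getElem?_getD,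
        List.getElem?_append_right (by rw [hlen, psum_cons_succ]; omega)]
      congr 2
      rw [hlen, psum_cons_succ]
      omega

end list

/-! ### Unrolled levels -/

variable {ω : Conf} {r : ℕ}

theorem uZ_pos (h : Survives ω) (t : ℕ) : 0 < uZ ω r t := List.length_pos_of_ne_nil (h (r + t))

theorem uZ_succ (t : ℕ) : uZ ω r (t + 1) = psum (kids ω) (level (kids ω) (r + t)) (uZ ω r t) :=
  (psum_length _).symm

theorem exists_rep (h : Survives ω) (t : ℕ) (x : ℤ) :
    ∃ (q : ℤ) (j : ℕ), j < uZ ω r t ∧ x = q * uZ ω r t + j := by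
  have hZ : (0 : ℤ) < uZ ω r t := by exact_mod_cast uZ_pos h t
  refine ⟨x / uZ ω r t, (x % uZ ω r t).toNat, ?_, ?_⟩
  · have h1 := Int.emod_lt_of_pos x hZ
    have h2 := Int.emod_nonneg x hZ.ne'
    omega
  · have h2 := Int.emod_nonneg x hZ.ne'
    rw [Int.toNat_of_nonneg h2]
    have := Int.emod_add_mul_ediv x (uZ ω r t)
    linarith [mul_comm (x / (uZ ω r t : ℤ)) (uZ ω r t : ℤ)]

theorem rep_div {t : ℕ} {x q : ℤ} {j : ℕ} (hj : j < uZ ω r t) (hx : x = q * uZ ω r t + j) :
    x / (uZ ω r t : ℤ) = q ∧ x % (uZ ω r t : ℤ) = j := by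
  have hZ : (0 : ℤ) < uZ ω r t := by
    have : 0 < uZ ω r t := by omega
    exact_mod_cast this
  refine (Int.ediv_emod_unique hZ).2 ⟨?_, ?_, ?_⟩
  · rw [hx]; ring
  · exact Int.natCast_nonneg j
  · exact_mod_cast hj

theorem uS_rep {t : ℕ} {x q : ℤ} {j : ℕ} (hj : j < uZ ω r t) (hx : x = q * uZ ω r t + j) :
    uS ω r t x = q * uZ ω r (t + 1) + psum (kids ω) (level (kids ω) (r + t)) j := by
  obtain ⟨h1, h2⟩ := rep_div hj hx
  unfold uS
  rw [h1, h2, Int.toNat_natCast]
  rfl

theorem uvert_rep {t : ℕ} {x q : ℤ} {j : ℕ} (hj : j < uZ ω r t) (hx : x = q * uZ ω r t + j) :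
    uvert ω r (t, x) = (level (kids ω) (r + t))[j]'hj := by
  obtain ⟨h1, h2⟩ := rep_div hj hx
  unfold uvert
  show (level (kids ω) (r + t)).getD (x % (uZ ω r t : ℤ)).toNat [] = _
  rw [h2, Int.toNat_natCast, List.getD_eq_getElem _ _ hj]

theorem uvert_mem (h : Survives ω) (t : ℕ) (x : ℤ) :
    uvert ω r (t, x) ∈ level (kids ω) (r + t) := by
  obtain ⟨q, j, hj, hx⟩ := exists_rep (r := r) h t x
  rw [uvert_rep hj hx]
  exact List.getElem_mem _

theorem uS_succ (h : Survives ω) (t : ℕ) (x : ℤ) :
    uS ω r t (x + 1) = uS ω r t x + kids ω (uvert ω r (t, x)) := by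
  obtain ⟨q, j, hj, hx⟩ := exists_rep (r := r) h t x
  rw [uvert_rep hj hx, uS_rep hj hx]
  have hps := psum_succ (k := kids ω) (L := level (kids ω) (r + t)) hj
  by_cases hj1 : j + 1 < uZ ω r t
  · rw [uS_rep hj1 (q := q) (by rw [hx]; push_cast; ring), hps]
    push_cast
    ring
  · have hj2 : j + 1 = uZ ω r t := by omega
    rw [uS_rep (uZ_pos h t) (q := q + 1) (by rw [hx, ← hj2]; push_cast; ring), psum_zero,
      uZ_succ, ← hj2, hps]
    push_cast
    ring

theorem uS_period (h : Survives ω) (t : ℕ) (x : ℤ) :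
    uS ω r t (x + uZ ω r t) = uS ω r t x + uZ ω r (t + 1) := by
  obtain ⟨q, j, hj, hx⟩ := exists_rep (r := r) h t x
  rw [uS_rep hj hx, uS_rep hj (q := q + 1) (by rw [hx]; ring)]
  ring

theorem uvert_child (h : Survives ω) (t : ℕ) (x : ℤ) (i : ℕ) (hi : i < kids ω (uvert ω r (t, x))) :
    uvert ω r (t + 1, uS ω r t x + i) = i :: uvert ω r (t, x) := by
  obtain ⟨q, j, hj, hx⟩ := exists_rep (r := r) h t x
  rw [uvert_rep hj hx] at hi ⊢
  have hlt : psum (kids ω) (level (kids ω) (r + t)) j + i < uZ ω r (t + 1) := psum_add_le hj hi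
  have h1 := uvert_rep (ω := ω) (r := r) (t := t + 1) (x := uS ω r t x + i) (q := q) hlt (by
    rw [uS_rep hj hx]
    push_cast
    ring)
  rw [h1, ← getD_children hj hi]
  exact (List.getD_eq_getElem _ _ hlt).symm

theorem uvert_right (h : Survives ω) (t : ℕ) (x : ℤ) :
    rightNbr (kids ω) (uvert ω r (t, x)) = uvert ω r (t, x + 1) := by
  obtain ⟨q, j, hj, hx⟩ := exists_rep (r := r) h t x
  rw [uvert_rep hj hx, rightNbr_getElem hj]
  by_cases hj1 : j + 1 < uZ ω r t
  · rw [uvert_rep hj1 (q := q) (by rw [hx]; push_cast; ring)]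
    congr 1
    exact Nat.mod_eq_of_lt hj1
  · have hj2 : j + 1 = uZ ω r t := by omega
    rw [uvert_rep (uZ_pos h t) (q := q + 1) (by rw [hx, ← hj2]; push_cast; ring)]
    congr 1
    rw [hj2]
    exact Nat.mod_self _

theorem uvert_iterate (h : Survives ω) (t : ℕ) (x : ℤ) (m : ℕ) :
    (rightNbr (kids ω))^[m] (uvert ω r (t, x)) = uvert ω r (t, x + m) := by
  induction m with
  | zero => simp
  | succ m ih =>
    rw [Function.iterate_succ_apply', ih, uvert_right h]
    congr 2
    push_cast
    ring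

theorem uvert_inTree (h : Survives ω) (t : ℕ) (x : ℤ) :
    (uvert ω r (t, x)).length = r + t ∧ InTree (kids ω) (uvert ω r (t, x)) :=
  mem_level_iff.1 (uvert_mem h t x)

theorem uvert_upper (h : Survives ω) (t : ℕ) (x : ℤ) :
    upperRight (kids ω) (uvert ω r (t, x)) = uvert ω r (t + 1, uS ω r t (x + 1)) := by
  obtain ⟨hl, hT⟩ := uvert_inTree (r := r) h t x
  obtain ⟨m, hm0, hm1, hm2, hm3⟩ := upperRight_eq hT (by rw [hl]; exact h _)
  rw [hm3]
  rw [uvert_iterate h] at hm1 ⊢
  have key : ∀ i : ℕ, i < m → uS ω r t (x + (i + 1)) = uS ω r t (x + 1) := by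
    intro i
    induction i with
    | zero => intro _; simp
    | succ i ih =>
      intro hi
      have h0 := hm2 (i + 1) (by omega) hi
      rw [uvert_iterate h] at h0
      have h1 := uS_succ (r := r) h t (x + ((i + 1 : ℕ) : ℤ))
      rw [h0] at h1
      rw [← ih (by omega)]
      push_cast at h1 ⊢
      rw [← add_assoc] at h1
      simpa [add_assoc] using h1
  obtain ⟨i, rfl⟩ := Nat.exists_eq_succ_of_ne_zero (Nat.pos_iff_ne_zero.1 hm0)
  have h1 := key i (by omega)
  have h2 := uvert_child h t (x + ((i + 1 : ℕ) : ℤ)) 0 hm1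
  rw [← h2]
  congr 2
  rw [← h1]
  push_cast
  ring

theorem uvert_exists (h : Survives ω) (t : ℕ) {v : Vert} (hv : v ∈ level (kids ω) (r + t)) :
    ∃ x : ℤ, 0 ≤ x ∧ x < uZ ω r t ∧ uvert ω r (t, x) = v := by
  obtain ⟨j, hj, hv'⟩ := List.getElem_of_mem hv
  refine ⟨j, Int.natCast_nonneg j, by exact_mod_cast hj, ?_⟩
  rw [uvert_rep (j := j) (q := 0) hj (by simp)]
  exact hv'

theorem uD_period (h : Survives ω) (t : ℕ) (x : ℤ) :
    uD ω r t (x + uZ ω r 0) = uD ω r t x + uZ ω r t := by
  induction t with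
  | zero => rfl
  | succ t ih =>
    show uS ω r t (uD ω r t (x + uZ ω r 0)) = uS ω r t (uD ω r t x) + uZ ω r (t + 1)
    rw [ih, uS_period h]

/-- The unrolled strip. -/
def ustrip (p : ℝ) (ω : Conf) (r : ℕ) (h : Survives ω) : Strip where
  S t x := uS ω r t x
  vo t x y := (((unode ω (uvert ω r (t, x))).2 ((y - uS ω r t x).toNat + 1) : unitInterval) : ℝ) ≤ p
  ho t x := (((unode ω (uvert ω r (t, x))).2 0 : unitInterval) : ℝ) ≤ p
  mono' t x := by rw [uS_succ h]; omega

variable {p : ℝ}

theorem ustrip_D (h : Survives ω) (t : ℕ) (a : ℤ) : (ustrip p ω r h).D t a = uD ω r t a := by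
  induction t with
  | zero => rfl
  | succ t ih =>
    show uS ω r t ((ustrip p ω r h).D t a) = uS ω r t (uD ω r t a)
    rw [ih]

theorem ps_uarr (h : Survives ω) (a : ℤ) (t : ℕ) (x : ℤ) :
    ps (xi (uarr ω r a) t) x = uS ω r t (x + uD ω r t a) - uD ω r (t + 1) a := by
  have hstep : ∀ x : ℤ, uS ω r t (x + 1 + uD ω r t a) =
      uS ω r t (x + uD ω r t a) + (xi (uarr ω r a) t x : ℕ) := by
    intro x
    have := uS_succ (r := r) h t (x + uD ω r t a)
    rw [show x + 1 + uD ω r t a = x + uD ω r t a + 1 by ring, this]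
    rfl
  have h0 : uD ω r (t + 1) a = uS ω r t (0 + uD ω r t a) := by rw [zero_add]; rfl
  induction x using Int.induction_on with
  | zero => rw [ps_zero, h0, sub_self]
  | succ i ih => rw [ps_succ, ih, hstep]; ring
  | pred i ih =>
    have h1 := ps_succ (xi (uarr ω r a) t) (-(i : ℤ) - 1)
    have h2 := hstep (-(i : ℤ) - 1)
    rw [show -(i : ℤ) - 1 + 1 = -(i : ℤ) by ring] at h1 h2
    rw [h1] at ih
    linarith

/-- A vertical edge of the unrolled strip is an edge of the triangulation. -/
theorem openUp_of_vo (hr : 1 ≤ r) (h : Survives ω) {t : ℕ} {x y : ℤ}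
    (h1 : uS ω r t x ≤ y) (h2 : y ≤ uS ω r t (x + 1))
    (ho : (((unode ω (uvert ω r (t, x))).2 ((y - uS ω r t x).toNat + 1) : unitInterval) : ℝ) ≤ p) :
    OpenUp p ω (uvert ω r (t, x)) (uvert ω r (t + 1, y)) := by
  obtain ⟨hl, hT⟩ := uvert_inTree (r := r) h t x
  obtain ⟨j, rfl⟩ := Int.le.dest h1
  rw [uS_succ h] at h2
  have hj : j ≤ kids ω (uvert ω r (t, x)) := by omega
  have e : (uS ω r t x + (j : ℤ) - uS ω r t x).toNat = j := by
    rw [add_sub_cancel_left, Int.toNat_natCast]
  rw [e] at ho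
  refine ⟨hT, ?_⟩
  rcases Nat.lt_or_ge j (kids ω (uvert ω r (t, x))) with hlt | hge
  · left
    refine ⟨j, hlt, uvert_child h t x j hlt, ?_⟩
    have : (unode ω (uvert ω r (t, x))).2 (j + 1) = (ω (uvert ω r (t, x))).2 (.tree j) := by
      simp only [unode]
      rw [if_pos hlt]
    rw [this] at ho
    exact ho
  · right
    have hje : j = kids ω (uvert ω r (t, x)) := le_antisymm hj hge
    have hne : uvert ω r (t, x) ≠ [] := by
      intro h0
      rw [h0] at hl
      simp at hl
      omega
    refine ⟨hne, by rw [hl]; exact h _, ?_, ?_⟩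
    · rw [uvert_upper h, uS_succ h, hje]
    · have : (unode ω (uvert ω r (t, x))).2 (j + 1) = (ω (uvert ω r (t, x))).2 .diag := by
        simp only [unode]
        rw [if_neg (by omega), if_pos hje]
      rw [this] at ho
      exact ho

/-- An open nonhorizontal edge of the triangulation lifts. -/
theorem lift_openUp (h : Survives ω) {t : ℕ} {x : ℤ} {b : Vert}
    (hb : OpenUp p ω (uvert ω r (t, x)) b) :
    ∃ y : ℤ, b = uvert ω r (t + 1, y) ∧ uS ω r t x ≤ y ∧ y ≤ uS ω r t (x + 1) ∧
      (((unode ω (uvert ω r (t, x))).2 ((y - uS ω r t x).toNat + 1) : unitInterval) : ℝ) ≤ p := by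
  obtain ⟨_, hb⟩ := hb
  rcases hb with ⟨i, hi, rfl, hlab⟩ | ⟨_, _, rfl, hlab⟩
  · refine ⟨uS ω r t x + i, (uvert_child h t x i hi).symm, by omega, ?_, ?_⟩
    · rw [uS_succ h]; omega
    · rw [add_sub_cancel_left, Int.toNat_natCast]
      have : (unode ω (uvert ω r (t, x))).2 (i + 1) = (ω (uvert ω r (t, x))).2 (.tree i) := by
        simp only [unode]
        rw [if_pos hi]
      rw [this]
      exact hlab
  · refine ⟨uS ω r t (x + 1), uvert_upper h t x, ?_, le_rfl, ?_⟩
    · rw [uS_succ h]; omega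
    · rw [uS_succ h, add_sub_cancel_left, Int.toNat_natCast]
      have : (unode ω (uvert ω r (t, x))).2 (kids ω (uvert ω r (t, x)) + 1) =
          (ω (uvert ω r (t, x))).2 .diag := by
        simp only [unode]
        rw [if_neg (by omega), if_true]
      rw [this]
      exact hlab

/-- The label of the horizontal edge. -/
theorem openHor_iff (hr : 1 ≤ r) (h : Survives ω) {t : ℕ} {x : ℤ} :
    OpenHor p ω (uvert ω r (t, x)) (uvert ω r (t, x + 1)) ↔
      (((unode ω (uvert ω r (t, x))).2 0 : unitInterval) : ℝ) ≤ p := by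
  obtain ⟨hl, hT⟩ := uvert_inTree (r := r) h t x
  constructor
  · rintro ⟨_, _, i, v, hv, hlab⟩
    have : (unode ω (uvert ω r (t, x))).2 0 = (ω v).2 (.hor i) := by
      rw [hv]
      rfl
    rw [this]
    exact hlab
  · intro hlab
    refine ⟨hT, (uvert_right h t x).symm, ?_⟩
    cases hv : uvert ω r (t, x) with
    | nil =>
      rw [hv] at hl
      simp at hl
      omega
    | cons i v =>
      refine ⟨i, v, rfl, ?_⟩
      rw [hv] at hlab
      exact hlab

theorem unroll : UnrollStmt := by
  intro p ω r hr h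
  refine ⟨ustrip p ω r h, ⟨fun _ _ => rfl, fun _ _ _ => Iff.rfl, fun _ _ => Iff.rfl⟩,
    ?_, ?_, ?_, ?_, fun t a => ustrip_D h t a, uvert_mem h, fun t v hv => uvert_exists h t hv, ?_⟩
  · rintro n u v ⟨_, _, h1 | h1 | h1 | h1⟩
    · obtain ⟨t, x, y, _, hV, ho⟩ := h1
      exact Or.inl (Or.inl (openUp_of_vo hr h hV.1 hV.2 ho))
    · obtain ⟨t, x, y, _, hV, ho⟩ := h1
      exact Or.inr (Or.inl (openUp_of_vo hr h hV.1 hV.2 ho))
    · obtain ⟨t, x, _, ho⟩ := h1
      exact Or.inl (Or.inr (Or.inl ((openHor_iff hr h).2 ho)))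
    · obtain ⟨t, x, _, ho⟩ := h1
      exact Or.inr (Or.inr (Or.inl ((openHor_iff hr h).2 ho)))
  · rintro n u v ⟨_, _, h1 | h1 | h1⟩
    · obtain ⟨t, x, y, _, hV, ho⟩ := h1
      exact Or.inl (openUp_of_vo hr h hV.1 hV.2 ho)
    · obtain ⟨t, x, _, ho⟩ := h1
      exact Or.inr (Or.inl ((openHor_iff hr h).2 ho))
    · obtain ⟨t, x, _, ho⟩ := h1
      exact Or.inr (Or.inr ((openHor_iff hr h).2 ho))
  · intro t x b hb
    rcases hb with hb | hb | hb
    · obtain ⟨y, rfl, h1, h2, h3⟩ := lift_openUp h hb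
      exact ⟨t + 1, y, rfl, by omega, le_rfl, fun n hn =>
        ⟨mem_univ _, mem_univ _, Or.inl (.mk t x y hn ⟨h1, h2⟩ h3)⟩⟩
    · have hb2 : b = uvert ω r (t, x + 1) := by rw [hb.2.1, uvert_right h]
      subst hb2
      exact ⟨t, x + 1, rfl, le_rfl, by omega, fun n hn =>
        ⟨mem_univ _, mem_univ _, Or.inr (Or.inl (.mk t x hn ((openHor_iff hr h).1 hb)))⟩⟩
    · have hT := uvert_inTree (r := r) h t (x - 1)
      have hT2 := uvert_inTree (r := r) h t x
      have hbl := inTree_rightNbr hb.1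
      rw [← hb.2.1] at hbl
      have hb2 : b = uvert ω r (t, x - 1) := by
        apply rightNbr_inj hb.1 hT.2
        · rw [hT.1, ← hbl.2, hT2.1]
        · rw [← hb.2.1, uvert_right h, sub_add_cancel]
      subst hb2
      refine ⟨t, x - 1, rfl, le_rfl, by omega, fun n hn =>
        ⟨mem_univ _, mem_univ _, Or.inr (Or.inr ?_)⟩⟩
      have h4 : OpenHor p ω (uvert ω r (t, x - 1)) (uvert ω r (t, x - 1 + 1)) := by
        rw [sub_add_cancel]; exact hb
      have h5 := Strip.Hor1.mk (E := ustrip p ω r h) (n := n) t (x - 1) hn ((openHor_iff hr h).1 h4)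
      rw [sub_add_cancel] at h5
      exact h5
  · intro a
    have hS : ∀ t x, ps (xi (uarr ω r a) t) x =
        uS ω r t (x + (ustrip p ω r h).D t a) - (ustrip p ω r h).D (t + 1) a := by
      intro t x
      rw [ustrip_D, ustrip_D, ps_uarr h]
    have e1 : (strip p (uarr ω r a)).S = ((ustrip p ω r h).recentre a).S := by
      funext t x
      exact hS t x
    have e2 : (strip p (uarr ω r a)).vo = ((ustrip p ω r h).recentre a).vo := by
      funext t x y
      show (((((uarr ω r a) t x).2 ((y - ps (xi (uarr ω r a) t) x).toNat + 1) : unitInterval) : ℝ)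
        ≤ p) = ((((unode ω (uvert ω r (t, x + (ustrip p ω r h).D t a))).2
          ((y + (ustrip p ω r h).D (t + 1) a - uS ω r t (x + (ustrip p ω r h).D t a)).toNat + 1) :
            unitInterval) : ℝ) ≤ p)
      rw [hS, ustrip_D]
      have e3 : y - (uS ω r t (x + uD ω r t a) - (ustrip p ω r h).D (t + 1) a) =
          y + (ustrip p ω r h).D (t + 1) a - uS ω r t (x + uD ω r t a) := by ring
      rw [e3]
      rfl
    have e3 : (strip p (uarr ω r a)).ho = ((ustrip p ω r h).recentre a).ho := by
      funext t x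
      show (((((uarr ω r a) t x).2 0 : unitInterval) : ℝ) ≤ p) =
        ((((unode ω (uvert ω r (t, x + (ustrip p ω r h).D t a))).2 0 : unitInterval) : ℝ) ≤ p)
      rw [ustrip_D]
      rfl
    cases hA : strip p (uarr ω r a)
    cases hB : (ustrip p ω r h).recentre a
    rw [hA, hB] at e1 e2 e3
    simp only at e1 e2 e3
    subst e1 e2 e3
    rfl
  · intro t x
    rw [ustrip_D, ustrip_D, uD_period h]

end CausalPerc.Neg
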