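import Pool.Agent.Lib.MP_a51368_pr.Neg.WidthMom

/-!
# Chernoff bounds for the width of a column
-/

open MeasureTheory ProbabilityTheory Set

noncomputable section

namespace CausalPerc.Neg

namespace WidthGF

open WidthAux

/-- Generating function of the geometric law. -/
def gf (α z : ℝ) : ℝ := (1 - α) / (1 - α * z)

theorem gf_nonneg {α z : ℝ} (h1 : α < 1) (hz1 : α * z < 1) : 0 ≤ gf α z :=
  div_nonneg (by linarith) (by linarith)

theorem geo_lint {α z : ℝ} (h0 : 0 ≤ α) (h1 : α < 1) (hz : 0 ≤ z) (hz1 : α * z < 1) :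
    ∫⁻ k, ENNReal.ofReal (z ^ k) ∂geo α = ENNReal.ofReal (gf α z) := by
  have hw : ∀ k : ℕ, 0 ≤ α ^ k * (1 - α) := fun k => mul_nonneg (pow_nonneg h0 k) (by linarith)
  have hs : HasSum (fun k : ℕ => α ^ k * (1 - α) * z ^ k) (gf α z) := by
    have h := (hasSum_geometric_of_lt_one (mul_nonneg h0 hz) hz1).mul_left (1 - α)
    have h2 : (fun k : ℕ => α ^ k * (1 - α) * z ^ k) = fun k : ℕ => (1 - α) * (α * z) ^ k := by
      funext k
      rw [mul_pow]
      ring
    rw [h2]
    exact h
  unfold geo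
  rw [lintegral_sum_measure]
  have : ∀ k : ℕ, ∫⁻ a, ENNReal.ofReal (z ^ a) ∂(ENNReal.ofReal (α ^ k * (1 - α)) •
      Measure.dirac k) = ENNReal.ofReal (α ^ k * (1 - α) * z ^ k) := by
    intro k
    rw [lintegral_smul_measure, lintegral_dirac, smul_eq_mul, ← ENNReal.ofReal_mul (hw k)]
  simp only [this]
  rw [← ENNReal.ofReal_tsum_of_nonneg (fun k => mul_nonneg (hw k) (pow_nonneg hz k)) hs.summable,
    hs.tsum_eq]

theorem row_lint {α z : ℝ} (h0 : 0 ≤ α) (h1 : α < 1) (hz : 0 ≤ z) (hz1 : α * z < 1) (x : ℤ)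
    (hx : 0 ≤ x) :
    ∫⁻ r, ENNReal.ofReal (z ^ (ps (fun i => ((r : Row) i).1) x).toNat) ∂rowLaw α =
      ENNReal.ofReal (gf α z ^ x.toNat) := by
  have := Adapted.row_prob h0 h1
  have hf : ∀ (i : ℤ), Measurable (fun r : Row => ENNReal.ofReal (z ^ (r i).1)) := fun i =>
    (measurable_of_countable (fun k : ℕ => ENNReal.ofReal (z ^ k))).comp
      (measurable_fst.comp (measurable_pi_apply i))
  have hind : iIndepFun (fun (i : ℤ) (r : Row) => ENNReal.ofReal (z ^ (r i).1)) (rowLaw α) := by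
    have := Adapted.nd_prob h0 h1
    unfold rowLaw
    exact iIndepFun_infinitePi (P := fun _ : ℤ => ndLaw α)
      (X := fun _ (d : Nd) => ENNReal.ofReal (z ^ d.1))
      (fun _ => (measurable_of_countable (fun k : ℕ => ENNReal.ofReal (z ^ k))).comp
        measurable_fst)
  have h2 : ∀ r : Row, ENNReal.ofReal (z ^ (ps (fun i => (r i).1) x).toNat) =
      ∏ i ∈ Finset.Ico 0 x, ENNReal.ofReal (z ^ (r i).1) := by
    intro r
    have h3 : ps (fun i => (r i).1) x = ((∑ i ∈ Finset.Ico 0 x, (r i).1 : ℕ) : ℤ) := by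
      unfold ps
      rw [Finset.Ico_eq_empty (by omega : ¬ x < 0)]
      simp
    rw [h3, Int.toNat_natCast, ← Finset.prod_pow_eq_pow_sum,
      ENNReal.ofReal_prod_of_nonneg fun i _ => pow_nonneg hz _]
  simp only [h2]
  rw [lintegral_prod_eq_prod_lintegral_of_indepFun (Finset.Ico 0 x)
    (fun (i : ℤ) (r : Row) => ENNReal.ofReal (z ^ (r i).1)) hind hf]
  have h4 : ∀ i : ℤ, ∫⁻ r : Row, ENNReal.ofReal (z ^ (r i).1) ∂rowLaw α =
      ENNReal.ofReal (gf α z) := by
    intro i
    have hmi : Measurable (fun r : Row => (r i).1) := measurable_fst.comp (measurable_pi_apply i)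
    rw [← geo_lint h0 h1 hz hz1, ← map_kid h0 h1 i, lintegral_map (measurable_of_countable _) hmi]
  simp only [h4, Finset.prod_const]
  rw [Int.card_Ico, sub_zero, ENNReal.ofReal_pow (gf_nonneg h1 hz1)]

theorem meas_kids (i : ℤ) : Measurable fun r : Row => (((r i).1 : ℕ) : ℤ) :=
  (measurable_of_countable (fun k : ℕ => (k : ℤ))).comp
    (measurable_fst.comp (measurable_pi_apply i))

theorem meas_psZ (x : ℤ) : Measurable fun r : Row => ps (fun i => (r i).1) x := by
  unfold ps
  exact (Finset.measurable_sum _ fun i _ => meas_kids i).sub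
    (Finset.measurable_sum _ fun i _ => meas_kids i)

theorem meas_psZ2 : Measurable fun y : ℤ × Row => ps (fun i => (y.2 i).1) y.1 :=
  measurable_from_prod_countable_right fun x => meas_psZ x

/-- The width as a natural number. -/
def NN (ω : Arr) (t b : ℕ) : ℕ := (DD ω t b).toNat

theorem NN_cast (ω : Arr) (t b : ℕ) : ((NN ω t b : ℕ) : ℝ) = ((DD ω t b : ℤ) : ℝ) := by
  have h : ((NN ω t b : ℕ) : ℤ) = DD ω t b :=
    Int.toNat_of_nonneg (DD_nonneg t ω (by positivity))
  exact_mod_cast h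

theorem NN_succ (ω : Arr) (t b : ℕ) :
    NN ω (t + 1) b = (ps (fun i => (ω t i).1) (DD ω t b)).toNat := rfl

theorem one_step {α z : ℝ} (h0 : 0 ≤ α) (h1 : α < 1) (hz : 0 ≤ z) (hz1 : α * z < 1) (t b : ℕ) :
    ∫⁻ ω, ENNReal.ofReal (z ^ NN ω (t + 1) b) ∂arrLaw α =
      ∫⁻ ω, ENNReal.ofReal (gf α z ^ NN ω t b) ∂arrLaw α := by
  have hpow : Measurable (fun k : ℤ => ENNReal.ofReal (z ^ k.toNat)) := measurable_of_countable _
  have hm : Measurable (Function.uncurry fun (ω : Arr) (r : Row) =>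
      ENNReal.ofReal (z ^ (ps (fun i => (r i).1) (DD ω t b)).toNat)) := by
    have h3 : Measurable (fun q : Arr × Row => (DD q.1 t b, q.2)) :=
      ((MeasAux.meas_DD t b).comp measurable_fst).prodMk measurable_snd
    have h5 : (Function.uncurry fun (ω : Arr) (r : Row) =>
        ENNReal.ofReal (z ^ (ps (fun i => (r i).1) (DD ω t b)).toNat)) =
        (fun k : ℤ => ENNReal.ofReal (z ^ k.toNat)) ∘
          (fun y : ℤ × Row => ps (fun i => (y.2 i).1) y.1) ∘
            (fun q : Arr × Row => (DD q.1 t b, q.2)) := by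
      funext q
      rfl
    rw [h5]
    exact hpow.comp (meas_psZ2.comp h3)
  have h := Adapted.split_row h0 h1 t
    (fun ω r => ENNReal.ofReal (z ^ (ps (fun i => (r i).1) (DD ω t b)).toNat)) hm
    (fun ω ω' r hω => by
      have h3 : Adapted.trunc t ω = Adapted.trunc t ω' := by
        funext s
        unfold Adapted.trunc
        by_cases hs : s < t
        · simp only [hs, if_true]
          exact hω s hs
        · simp only [hs, if_false]
      show ENNReal.ofReal (z ^ (ps (fun i => (r i).1) (DD ω t b)).toNat) =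
        ENNReal.ofReal (z ^ (ps (fun i => (r i).1) (DD ω' t b)).toNat)
      rw [← DD_trunc t ω b, ← DD_trunc t ω' b, h3])
  have h4 : ∀ ω : Arr, ∫⁻ r, ENNReal.ofReal (z ^ (ps (fun i => ((r : Row) i).1) (DD ω t b)).toNat)
      ∂rowLaw α = ENNReal.ofReal (gf α z ^ NN ω t b) := fun ω =>
    row_lint h0 h1 hz hz1 _ (DD_nonneg t ω (by positivity))
  rw [lintegral_congr h4] at h
  rw [← h]
  exact lintegral_congr fun ω => by rw [NN_succ]

theorem gf_iter {α : ℝ} (h0 : 0 ≤ α) (h1 : α < 1) (b t : ℕ) (w : ℕ → ℝ)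
    (hw0 : ∀ i < t, 0 ≤ w i) (hw1 : ∀ i < t, α * w i < 1)
    (hw : ∀ i < t, w (i + 1) = gf α (w i)) :
    ∫⁻ ω, ENNReal.ofReal (w 0 ^ NN ω t b) ∂arrLaw α = ENNReal.ofReal (w t ^ b) := by
  induction t generalizing w with
  | zero =>
    have := Adapted.arr_prob h0 h1
    have h2 : ∀ ω : Arr, NN ω 0 b = b := fun ω => by
      show ((b : ℤ)).toNat = b
      simp
    simp only [h2]
    simp
  | succ t ih =>
    rw [one_step h0 h1 (hw0 0 (by omega)) (hw1 0 (by omega)) t b, ← hw 0 (by omega)]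
    exact ih (fun i => w (i + 1)) (fun i hi => hw0 _ (by omega)) (fun i hi => hw1 _ (by omega))
      (fun i hi => hw _ (by omega))

/-- `∑_{j<t} m^{-j}`. -/
def si (m : ℝ) (t : ℕ) : ℝ := ∑ j ∈ Finset.range t, (m ^ j)⁻¹

theorem si_succ {m : ℝ} (hm : 0 < m) (t : ℕ) : si m (t + 1) = 1 + si m t / m := by
  unfold si
  rw [Finset.sum_range_succ', Finset.sum_div]
  simp only [pow_zero, inv_one]
  rw [add_comm]
  congr 1
  refine Finset.sum_congr rfl fun j _ => ?_
  rw [pow_succ]
  field_simp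

theorem si_nonneg {m : ℝ} (hm : 0 < m) (t : ℕ) : 0 ≤ si m t :=
  Finset.sum_nonneg fun j _ => by positivity

theorem si_le {m : ℝ} (hm : 1 ≤ m) (t : ℕ) : si m t ≤ t := by
  unfold si
  calc ∑ j ∈ Finset.range t, (m ^ j)⁻¹ ≤ ∑ j ∈ Finset.range t, (1 : ℝ) :=
        Finset.sum_le_sum fun j _ => inv_le_one_of_one_le₀ (one_le_pow₀ hm)
    _ = t := by simp

theorem si_le' {m : ℝ} (hm : 1 < m) (t : ℕ) : si m t ≤ m / (m - 1) := by
  have hm0 : 0 < m := by linarith
  have h2 : 1 ≤ m / (m - 1) := by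
    rw [le_div_iff₀ (by linarith)]
    linarith
  induction t with
  | zero =>
    unfold si
    simp only [Finset.range_zero, Finset.sum_empty]
    linarith
  | succ t ih =>
    rw [si_succ hm0]
    have h3 : si m t / m ≤ (m / (m - 1)) / m := div_le_div_of_nonneg_right ih hm0.le
    have h4 : 1 + (m / (m - 1)) / m = m / (m - 1) := by
      have : m - 1 ≠ 0 := by linarith
      field_simp
      ring
    linarith

/-- `m` is the mean number of children. -/
theorem low {α x m : ℝ} (h0 : 1 / 2 ≤ α) (h1 : α < 1) (hm : m = α / (1 - α)) (hx : 0 < x)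
    (hx1 : x ≤ 1) (t b : ℕ) :
    ∫⁻ ω, ENNReal.ofReal ((1 - x) ^ NN ω t b) ∂arrLaw α =
      ENNReal.ofReal ((1 - 1 / (1 / (x * m ^ t) + si m t)) ^ b) := by
  have ha : 0 < 1 - α := by linarith
  have hm0 : 0 < m := by
    rw [hm]
    exact div_pos (by linarith) ha
  have hY : ∀ i : ℕ, 1 / (x * m ^ (i + 1)) + si m (i + 1) =
      1 + (1 / (x * m ^ i) + si m i) / m := by
    intro i
    rw [si_succ hm0, pow_succ]
    have : m ^ i ≠ 0 := by positivity
    field_simp
    ring
  have hY1 : ∀ i : ℕ, 1 ≤ 1 / (x * m ^ i) + si m i := by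
    intro i
    induction i with
    | zero =>
      have : 1 ≤ 1 / x := by
        rw [le_div_iff₀ hx]
        linarith
      simpa [si] using this
    | succ i ih =>
      rw [hY]
      have : 0 ≤ (1 / (x * m ^ i) + si m i) / m := div_nonneg (by linarith) hm0.le
      linarith
  have hz : ∀ i : ℕ, 0 ≤ 1 - 1 / (1 / (x * m ^ i) + si m i) := by
    intro i
    have : 1 / (1 / (x * m ^ i) + si m i) ≤ 1 := by
      rw [div_le_one (by linarith [hY1 i])]
      exact hY1 i
    linarith
  have hw := gf_iter (by linarith) h1 b t (fun i => 1 - 1 / (1 / (x * m ^ i) + si m i))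
    (fun i _ => hz i)
    (fun i _ => by
      have h3 : 0 < 1 / (1 / (x * m ^ i) + si m i) := by
        have := hY1 i
        positivity
      nlinarith [hz i])
    (fun i _ => by
      show 1 - 1 / (1 / (x * m ^ (i + 1)) + si m (i + 1)) =
        gf α (1 - 1 / (1 / (x * m ^ i) + si m i))
      rw [hY i]
      have h3 := hY1 i
      set y := 1 / (x * m ^ i) + si m i with hy
      have hy0 : 0 < y := by linarith
      unfold gf
      have h4 : 1 - α * (1 - 1 / y) = (1 - α) * (1 + m / y) := by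
        rw [hm]
        field_simp
        ring
      rw [h4]
      field_simp
      ring)
  simp only [pow_zero, mul_one] at hw
  have h5 : 1 - 1 / (1 / x + si m 0) = 1 - x := by
    simp [si]
  rw [h5] at hw
  exact hw

theorem up {α x m : ℝ} (h0 : 1 / 2 ≤ α) (h1 : α < 1) (hm : m = α / (1 - α)) (hx : 0 < x)
    (t b : ℕ) (ht : 0 < 1 / (x * m ^ t) - si m t) :
    ∫⁻ ω, ENNReal.ofReal ((1 + x) ^ NN ω t b) ∂arrLaw α =
      ENNReal.ofReal ((1 + 1 / (1 / (x * m ^ t) - si m t)) ^ b) := by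
  have ha : 0 < 1 - α := by linarith
  have hm0 : 0 < m := by
    rw [hm]
    exact div_pos (by linarith) ha
  have hY : ∀ i : ℕ, 1 / (x * m ^ (i + 1)) - si m (i + 1) =
      (1 / (x * m ^ i) - si m i) / m - 1 := by
    intro i
    rw [si_succ hm0, pow_succ]
    have : m ^ i ≠ 0 := by positivity
    field_simp
    ring
  have hY1 : ∀ j ≤ t, 0 < 1 / (x * m ^ (t - j)) - si m (t - j) := by
    intro j
    induction j with
    | zero => intro _; exact ht
    | succ j ih =>
      intro hj
      have h2 := hY (t - (j + 1))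
      rw [show t - (j + 1) + 1 = t - j by omega] at h2
      have h3 := ih (by omega)
      rw [h2] at h3
      have h4 : 0 < (1 / (x * m ^ (t - (j + 1))) - si m (t - (j + 1))) / m := by linarith
      have h5 := mul_pos h4 hm0
      rw [div_mul_cancel₀ _ hm0.ne'] at h5
      exact h5
  have hY2 : ∀ i ≤ t, 0 < 1 / (x * m ^ i) - si m i := by
    intro i hi
    have := hY1 (t - i) (by omega)
    rwa [show t - (t - i) = i by omega] at this
  have hY3 : ∀ i < t, m < 1 / (x * m ^ i) - si m i := by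
    intro i hi
    have h2 := hY2 (i + 1) hi
    rw [hY i] at h2
    have h3 : 1 < (1 / (x * m ^ i) - si m i) / m := by linarith
    rwa [lt_div_iff₀ hm0, one_mul] at h3
  have hw := gf_iter (by linarith) h1 b t (fun i => 1 + 1 / (1 / (x * m ^ i) - si m i))
    (fun i hi => by
      have := hY2 i hi.le
      positivity)
    (fun i hi => by
      show α * (1 + 1 / (1 / (x * m ^ i) - si m i)) < 1
      have h3 := hY3 i hi
      have h4 : 1 / (1 / (x * m ^ i) - si m i) < 1 / m := one_div_lt_one_div_of_lt hm0 h3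
      have h5 : α * (1 + 1 / m) = 1 := by
        rw [hm]
        field_simp
        ring
      nlinarith)
    (fun i hi => by
      show 1 + 1 / (1 / (x * m ^ (i + 1)) - si m (i + 1)) =
        gf α (1 + 1 / (1 / (x * m ^ i) - si m i))
      rw [hY i]
      have h3 := hY3 i hi
      set y := 1 / (x * m ^ i) - si m i with hy
      have hy0 : 0 < y := by linarith
      unfold gf
      have h4 : 1 - α * (1 + 1 / y) = (1 - α) * (1 - m / y) := by
        rw [hm]
        field_simp
        ring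
      have h5 : (1 - m / y) = (y - m) / y := by field_simp
      have h6 : y - m ≠ 0 := by linarith
      have h7 : y / m - 1 = (y - m) / m := by field_simp
      rw [h4, h5, h7]
      field_simp
      ring)
  simp only [pow_zero, mul_one] at hw
  have h5 : 1 + 1 / (1 / x - si m 0) = 1 + x := by
    simp [si]
  rw [h5] at hw
  exact hw

theorem markov {α : ℝ} (h0 : 0 ≤ α) (h1 : α < 1) {t b : ℕ} {z u v : ℝ}
    (hE : ∫⁻ ω, ENNReal.ofReal (z ^ NN ω t b) ∂arrLaw α ≤ ENNReal.ofReal (Real.exp u))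
    {S : Set Arr} (hS : ∀ ω ∈ S, Real.exp v ≤ z ^ NN ω t b) :
    (arrLaw α).real S ≤ Real.exp (u - v) := by
  have := Adapted.arr_prob h0 h1
  have hN : Measurable fun ω : Arr => ENNReal.ofReal (z ^ NN ω t b) :=
    (measurable_of_countable (fun k : ℤ => ENNReal.ofReal (z ^ k.toNat))).comp
      (MeasAux.meas_DD t b)
  have h2 := mul_meas_ge_le_lintegral hN (ENNReal.ofReal (Real.exp v)) (μ := arrLaw α)
  have h3 : arrLaw α S ≤ arrLaw α {ω | ENNReal.ofReal (Real.exp v) ≤
      ENNReal.ofReal (z ^ NN ω t b)} :=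
    measure_mono fun ω hω => ENNReal.ofReal_le_ofReal (hS ω hω)
  have h4 : ENNReal.ofReal (Real.exp v) * arrLaw α S ≤ ENNReal.ofReal (Real.exp u) :=
    (mul_le_mul_right h3 _).trans (h2.trans hE)
  have h5 : arrLaw α S ≤ ENNReal.ofReal (Real.exp (u - v)) := by
    rw [Real.exp_sub, ENNReal.ofReal_div_of_pos (Real.exp_pos v)]
    rw [ENNReal.le_div_iff_mul_le (Or.inl (by simp [Real.exp_pos])) (Or.inl ENNReal.ofReal_ne_top),
      mul_comm]
    exact h4
  exact ENNReal.toReal_le_of_le_ofReal (Real.exp_pos _).le h5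

theorem pow_ge {z : ℝ} (hz : 0 < z) (N : ℕ) : Real.exp (N * (1 - z⁻¹)) ≤ z ^ N := by
  have h := Real.one_sub_inv_le_log_of_pos hz
  calc Real.exp (N * (1 - z⁻¹)) ≤ Real.exp (N * Real.log z) :=
        Real.exp_le_exp.2 (mul_le_mul_of_nonneg_left h (Nat.cast_nonneg N))
    _ = z ^ N := by
        rw [mul_comm, Real.exp_mul, Real.exp_log hz, Real.rpow_natCast]

theorem pow_le {y : ℝ} (hy : 0 ≤ 1 + y) (b : ℕ) : (1 + y) ^ b ≤ Real.exp (b * y) := by
  calc (1 + y) ^ b ≤ Real.exp y ^ b := pow_le_pow_left₀ hy (by linarith [Real.add_one_le_exp y]) b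
    _ = Real.exp (b * y) := by
        rw [mul_comm, Real.exp_mul, Real.rpow_natCast]

theorem partA {α m : ℝ} (h0 : 1 / 2 ≤ α) (h1 : α < 1) (hm : m = α / (1 - α)) {t b : ℕ}
    (ht : 1 ≤ t) (A : ℝ) (hmt : m ^ t ≤ 2) :
    (arrLaw α).real {ω | A ≤ ((DD ω t b : ℤ) : ℝ)} ≤ Real.exp ((b - A / 10) / t) := by
  have hm1 : 1 ≤ m := by
    rw [hm, le_div_iff₀ (by linarith)]
    linarith
  have ht1 : (1 : ℝ) ≤ t := by exact_mod_cast ht
  have hp1 : 1 ≤ m ^ t := one_le_pow₀ hm1
  set x : ℝ := 1 / (4 * t * m ^ t) with hx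
  have hx0 : 0 < x := by positivity
  have hxm : 1 / (x * m ^ t) = 4 * t := by
    rw [hx]
    have : m ^ t ≠ 0 := by positivity
    have : (t : ℝ) ≠ 0 := by positivity
    field_simp
  have hsi := si_le hm1 t
  have hA : 3 * t ≤ 1 / (x * m ^ t) - si m t := by
    rw [hxm]
    linarith
  have hE := up h0 h1 hm hx0 t b (by linarith)
  have hE2 : ∫⁻ ω, ENNReal.ofReal ((1 + x) ^ NN ω t b) ∂arrLaw α ≤
      ENNReal.ofReal (Real.exp (b / (3 * t))) := by
    rw [hE]
    have h6 : 0 < 1 / (1 / (x * m ^ t) - si m t) := by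
      have : 0 < 1 / (x * m ^ t) - si m t := by linarith
      positivity
    refine ENNReal.ofReal_le_ofReal ((pow_le (by linarith) b).trans (Real.exp_le_exp.2 ?_))
    rw [mul_one_div]
    exact div_le_div_of_nonneg_left (Nat.cast_nonneg b) (by positivity) hA
  have hx8 : 1 / (8 * t) ≤ x := by
    rw [hx]
    exact one_div_le_one_div_of_le (by positivity) (by nlinarith)
  have hlog : 1 / (10 * t) ≤ 1 - (1 + x)⁻¹ := by
    have h3 : 1 - (1 + x)⁻¹ = x / (1 + x) := by
      field_simp
      ring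
    rw [h3, div_le_div_iff₀ (by positivity) (by positivity)]
    have h4 : 1 / (8 * (t : ℝ)) * (10 * t - 1) ≤ x * (10 * t - 1) :=
      mul_le_mul_of_nonneg_right hx8 (by linarith)
    have h5 : 1 ≤ 1 / (8 * (t : ℝ)) * (10 * t - 1) := by
      rw [div_mul_eq_mul_div, one_mul, le_div_iff₀ (by positivity)]
      linarith
    linarith
  have hM := markov (by linarith) h1 (v := A / (10 * t)) hE2 (S := {ω | A ≤ ((DD ω t b : ℤ) : ℝ)})
    (fun ω hω => by
      refine le_trans (Real.exp_le_exp.2 ?_) (pow_ge (by linarith) (NN ω t b))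
      have h4 : A ≤ (NN ω t b : ℝ) := by
        rw [NN_cast]
        exact hω
      calc A / (10 * t) ≤ (NN ω t b : ℝ) / (10 * t) :=
            div_le_div_of_nonneg_right h4 (by positivity)
        _ = (NN ω t b : ℝ) * (1 / (10 * t)) := by ring
        _ ≤ (NN ω t b : ℝ) * (1 - (1 + x)⁻¹) :=
            mul_le_mul_of_nonneg_left hlog (Nat.cast_nonneg _))
  refine hM.trans (Real.exp_le_exp.2 ?_)
  have h6 : (b - A / 10) / t - (b / (3 * t) - A / (10 * t)) = 2 * b / (3 * t) := by
    field_simp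
    ring
  have h7 : (0 : ℝ) ≤ 2 * b / (3 * t) := by positivity
  linarith

theorem partB {α m : ℝ} (h0 : 1 / 2 ≤ α) (h1 : α < 1) (hm : m = α / (1 - α)) {t b : ℕ}
    (ht : 1 ≤ t) :
    (arrLaw α).real {ω | 4 * ((DD ω t b : ℤ) : ℝ) ≤ 3 * b} ≤ Real.exp (-(b : ℝ) / (200 * t)) := by
  have hm1 : 1 ≤ m := by
    rw [hm, le_div_iff₀ (by linarith)]
    linarith
  have ht1 : (1 : ℝ) ≤ t := by exact_mod_cast ht
  have hp1 : 1 ≤ m ^ t := one_le_pow₀ hm1
  set x : ℝ := 1 / (16 * t * m ^ t) with hx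
  have hx0 : 0 < x := by positivity
  have hx16 : x ≤ 1 / (16 * t) := by
    rw [hx]
    exact one_div_le_one_div_of_le (by positivity) (by nlinarith)
  have hx16' : x ≤ 1 / 16 :=
    hx16.trans (one_div_le_one_div_of_le (by positivity) (by linarith))
  have hxm : 1 / (x * m ^ t) = 16 * t := by
    rw [hx]
    have : m ^ t ≠ 0 := by positivity
    have : (t : ℝ) ≠ 0 := by positivity
    field_simp
  have hsi := si_le hm1 t
  have hsi0 := si_nonneg (by linarith : 0 < m) t
  have hA : 1 / (x * m ^ t) + si m t ≤ 17 * t := by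
    rw [hxm]
    linarith
  have hA0 : 16 * t ≤ 1 / (x * m ^ t) + si m t := by
    rw [hxm]
    linarith
  have hE := low h0 h1 hm hx0 (by linarith) t b
  have hE2 : ∫⁻ ω, ENNReal.ofReal ((1 - x) ^ NN ω t b) ∂arrLaw α ≤
      ENNReal.ofReal (Real.exp (-(b / (17 * t)))) := by
    rw [hE]
    have h2 : 1 / (1 / (x * m ^ t) + si m t) ≤ 1 := by
      rw [div_le_one (by linarith)]
      linarith
    have h3 := pow_le (y := -(1 / (1 / (x * m ^ t) + si m t))) (by linarith) b
    refine ENNReal.ofReal_le_ofReal ((le_of_eq ?_).trans (h3.trans (Real.exp_le_exp.2 ?_)))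
    · rw [sub_eq_add_neg]
    · rw [mul_neg, neg_le_neg_iff, mul_one_div]
      exact div_le_div_of_nonneg_left (Nat.cast_nonneg b) (by linarith) hA
  have hlog : -(1 / (15 * t)) ≤ 1 - (1 - x)⁻¹ := by
    have h3 : 1 - (1 - x)⁻¹ = -(x / (1 - x)) := by
      have : 1 - x ≠ 0 := by linarith
      field_simp
      ring
    rw [h3, neg_le_neg_iff, div_le_div_iff₀ (by linarith) (by positivity)]
    have h4 : x * (15 * t) ≤ 1 / (16 * t) * (15 * t) :=
      mul_le_mul_of_nonneg_right hx16 (by positivity)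
    have h5 : 1 / (16 * (t : ℝ)) * (15 * t) = 15 / 16 := by
      field_simp
    linarith
  have hM := markov (by linarith) h1 (v := -(b / (20 * t))) hE2
    (S := {ω | 4 * ((DD ω t b : ℤ) : ℝ) ≤ 3 * b})
    (fun ω hω => by
      refine le_trans (Real.exp_le_exp.2 ?_) (pow_ge (by linarith) (NN ω t b))
      have h4 : 4 * (NN ω t b : ℝ) ≤ 3 * b := by
        rw [NN_cast]
        exact hω
      calc -((b : ℝ) / (20 * t)) = -((3 * b / 4) * (1 / (15 * t))) := by
            field_simp
            ring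
        _ ≤ -((NN ω t b : ℝ) * (1 / (15 * t))) :=
            neg_le_neg (mul_le_mul_of_nonneg_right (by linarith) (by positivity))
        _ = (NN ω t b : ℝ) * (-(1 / (15 * t))) := by ring
        _ ≤ (NN ω t b : ℝ) * (1 - (1 - x)⁻¹) :=
            mul_le_mul_of_nonneg_left hlog (Nat.cast_nonneg _))
  refine hM.trans (Real.exp_le_exp.2 ?_)
  have h6 : -(b : ℝ) / (200 * t) - (-(b / (17 * t)) - -(b / (20 * t))) = 13 * b / (3400 * t) := by
    field_simp
    ring
  have h7 : (0 : ℝ) ≤ 13 * b / (3400 * t) := by positivity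
  linarith

theorem partC {α m : ℝ} (h0 : 1 / 2 < α) (h34 : α ≤ 3 / 4) (hm : m = α / (1 - α)) {t b : ℕ} :
    (arrLaw α).real {ω | 2 * ((DD ω t b : ℤ) : ℝ) ≤ b * m ^ t} ≤
        Real.exp (-(b : ℝ) * (2 * α - 1) / 20) ∧
      (arrLaw α).real {ω | 2 * (b : ℝ) * m ^ t ≤ ((DD ω t b : ℤ) : ℝ)} ≤
        Real.exp (-(b : ℝ) * (2 * α - 1) / 20) := by
  have h1 : α < 1 := by linarith
  have hm1 : 1 < m := by
    rw [hm, lt_div_iff₀ (by linarith)]
    linarith
  have hp1 : 1 ≤ m ^ t := one_le_pow₀ hm1.le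
  set d : ℝ := 2 * α - 1 with hd
  have hd0 : 0 < d := by linarith
  have hd1 : d ≤ 1 / 2 := by linarith
  have hmm : m / (m - 1) ≤ 3 / (4 * d) := by
    have h2 : m / (m - 1) = α / d := by
      rw [hm, hd]
      have h3 : 1 - α ≠ 0 := by linarith
      have h4 : 2 * α - 1 ≠ 0 := by linarith
      have h5 : α / (1 - α) - 1 = (2 * α - 1) / (1 - α) := by
        field_simp
        ring
      rw [h5]
      field_simp
    rw [h2, div_le_div_iff₀ hd0 (by positivity)]
    nlinarith
  have hsi := (si_le' hm1 t).trans hmm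
  have hsi0 := si_nonneg (by linarith : 0 < m) t
  set x : ℝ := d / (4 * m ^ t) with hx
  have hx0 : 0 < x := by positivity
  have hx8 : x ≤ 1 / 8 := by
    rw [hx, div_le_div_iff₀ (by positivity) (by norm_num)]
    linarith
  have hxm : 1 / (x * m ^ t) = 4 / d := by
    rw [hx]
    have : m ^ t ≠ 0 := by positivity
    field_simp
  have hd3 : 3 / (4 * d) = 3 / 4 * (1 / d) := by ring_nf
  have hd4 : 4 / d = 4 * (1 / d) := by ring
  have hd5 : 0 < 1 / d := by positivity
  constructor
  · have hA : 1 / (x * m ^ t) + si m t ≤ 19 / 4 * (1 / d) := by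
      rw [hxm]
      linarith
    have hA0 : 4 * (1 / d) ≤ 1 / (x * m ^ t) + si m t := by
      rw [hxm]
      linarith
    have hdd : 2 ≤ 1 / d := by
      rw [le_div_iff₀ hd0]
      linarith
    have hE := low h0.le h1 hm hx0 (by linarith) t b
    have hE2 : ∫⁻ ω, ENNReal.ofReal ((1 - x) ^ NN ω t b) ∂arrLaw α ≤
        ENNReal.ofReal (Real.exp (-(b * (4 / 19 * d)))) := by
      rw [hE]
      have h2 : 1 / (1 / (x * m ^ t) + si m t) ≤ 1 := by
        rw [div_le_one (by linarith)]
        linarith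
      have h3 := pow_le (y := -(1 / (1 / (x * m ^ t) + si m t))) (by linarith) b
      refine ENNReal.ofReal_le_ofReal ((le_of_eq ?_).trans (h3.trans (Real.exp_le_exp.2 ?_)))
      · rw [sub_eq_add_neg]
      · rw [mul_neg, neg_le_neg_iff]
        refine mul_le_mul_of_nonneg_left ?_ (Nat.cast_nonneg b)
        have h5 : 4 / 19 * d = 1 / (19 / 4 * (1 / d)) := by
          field_simp
        rw [h5]
        exact one_div_le_one_div_of_le (by linarith) hA
    have hlog : -(8 / 7 * x) ≤ 1 - (1 - x)⁻¹ := by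
      have h3 : 1 - (1 - x)⁻¹ = -(x / (1 - x)) := by
        have : 1 - x ≠ 0 := by linarith
        field_simp
        ring
      rw [h3, neg_le_neg_iff, div_le_iff₀ (by linarith)]
      nlinarith
    have hM := markov (by linarith) h1 (v := -(b * (d / 7))) hE2
      (S := {ω | 2 * ((DD ω t b : ℤ) : ℝ) ≤ b * m ^ t})
      (fun ω hω => by
        refine le_trans (Real.exp_le_exp.2 ?_) (pow_ge (by linarith) (NN ω t b))
        have h4 : 2 * (NN ω t b : ℝ) ≤ b * m ^ t := by
          rw [NN_cast]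
          exact hω
        calc -((b : ℝ) * (d / 7)) = -((b * m ^ t / 2) * (8 / 7 * x)) := by
              rw [hx]
              have : m ^ t ≠ 0 := by positivity
              field_simp
              ring
          _ ≤ -((NN ω t b : ℝ) * (8 / 7 * x)) :=
              neg_le_neg (mul_le_mul_of_nonneg_right (by linarith) (by positivity))
          _ = (NN ω t b : ℝ) * (-(8 / 7 * x)) := by ring
          _ ≤ (NN ω t b : ℝ) * (1 - (1 - x)⁻¹) :=
              mul_le_mul_of_nonneg_left hlog (Nat.cast_nonneg _))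
    refine hM.trans (Real.exp_le_exp.2 ?_)
    have hb : 0 ≤ (b : ℝ) * d := by positivity
    nlinarith
  · have hA : 13 / 4 * (1 / d) ≤ 1 / (x * m ^ t) - si m t := by
      rw [hxm]
      linarith
    have hE := up h0.le h1 hm hx0 t b (by linarith)
    have hE2 : ∫⁻ ω, ENNReal.ofReal ((1 + x) ^ NN ω t b) ∂arrLaw α ≤
        ENNReal.ofReal (Real.exp (b * (4 / 13 * d))) := by
      rw [hE]
      have h6 : 0 < 1 / (1 / (x * m ^ t) - si m t) := by
        have : 0 < 1 / (x * m ^ t) - si m t := by linarith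
        positivity
      refine ENNReal.ofReal_le_ofReal ((pow_le (by linarith) b).trans (Real.exp_le_exp.2 ?_))
      refine mul_le_mul_of_nonneg_left ?_ (Nat.cast_nonneg b)
      have h5 : 4 / 13 * d = 1 / (13 / 4 * (1 / d)) := by
        field_simp
      rw [h5]
      exact one_div_le_one_div_of_le (by linarith) hA
    have hlog : 8 / 9 * x ≤ 1 - (1 + x)⁻¹ := by
      have h3 : 1 - (1 + x)⁻¹ = x / (1 + x) := by
        field_simp
        ring
      rw [h3, le_div_iff₀ (by linarith)]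
      nlinarith
    have hM := markov (by linarith) h1 (v := b * (4 / 9 * d)) hE2
      (S := {ω | 2 * (b : ℝ) * m ^ t ≤ ((DD ω t b : ℤ) : ℝ)})
      (fun ω hω => by
        refine le_trans (Real.exp_le_exp.2 ?_) (pow_ge (by linarith) (NN ω t b))
        have h4 : 2 * (b : ℝ) * m ^ t ≤ (NN ω t b : ℝ) := by
          rw [NN_cast]
          exact hω
        calc (b : ℝ) * (4 / 9 * d) = (2 * b * m ^ t) * (8 / 9 * x) := by
              rw [hx]
              have : m ^ t ≠ 0 := by positivity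
              field_simp
              ring
          _ ≤ (NN ω t b : ℝ) * (8 / 9 * x) := mul_le_mul_of_nonneg_right h4 (by positivity)
          _ ≤ (NN ω t b : ℝ) * (1 - (1 + x)⁻¹) :=
              mul_le_mul_of_nonneg_left hlog (Nat.cast_nonneg _))
    refine hM.trans (Real.exp_le_exp.2 ?_)
    have hb : 0 ≤ (b : ℝ) * d := by positivity
    nlinarith

end WidthGF

open WidthGF in
theorem width : WidthStmt := by
  intro α h0 h1 t b ht
  exact ⟨fun A hA => partA h0 h1 rfl ht A hA, partB h0 h1 rfl ht,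
    fun h2 h3 => partC h2 h3 rfl⟩

end CausalPerc.Neg
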