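import Pool.Agent.Lib.MP_a51368_pr.Neg.Spec2
import Pool.Agent.Lib.MP_a51368_pr.Neg.Adapted
import Pool.Agent.Lib.MP_a51368_pr.Neg.Meas

/-!
# Mean and second moment of the width of a column
-/

open MeasureTheory ProbabilityTheory Set

noncomputable section

namespace CausalPerc.Neg

namespace WidthAux

/-! ## The geometric law -/

theorem geo_int {α : ℝ} (h0 : 0 ≤ α) (h1 : α < 1) {f : ℕ → ℝ} (hf : ∀ k, 0 ≤ f k) {c : ℝ}
    (hs : HasSum (fun k : ℕ => α ^ k * (1 - α) * f k) c) :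
    Integrable f (geo α) ∧ ∫ k, f k ∂geo α = c := by
  have hw : ∀ k : ℕ, 0 ≤ α ^ k * (1 - α) := fun k => mul_nonneg (pow_nonneg h0 k) (by linarith)
  have hl : ∫⁻ k, ENNReal.ofReal (f k) ∂geo α = ENNReal.ofReal c := by
    unfold geo
    rw [lintegral_sum_measure]
    have : ∀ k : ℕ, ∫⁻ a, ENNReal.ofReal (f a) ∂(ENNReal.ofReal (α ^ k * (1 - α)) •
        Measure.dirac k) = ENNReal.ofReal (α ^ k * (1 - α) * f k) := by
      intro k
      rw [lintegral_smul_measure, lintegral_dirac, smul_eq_mul, ← ENNReal.ofReal_mul (hw k)]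
    simp only [this]
    rw [← ENNReal.ofReal_tsum_of_nonneg (fun k => mul_nonneg (hw k) (hf k)) hs.summable,
      hs.tsum_eq]
  have hi : Integrable f (geo α) := by
    refine ⟨(measurable_of_countable f).aestronglyMeasurable, ?_⟩
    rw [hasFiniteIntegral_iff_ofReal (Filter.Eventually.of_forall hf), hl]
    exact ENNReal.ofReal_lt_top
  refine ⟨hi, ?_⟩
  rw [integral_eq_lintegral_of_nonneg_ae (Filter.Eventually.of_forall hf)
    (measurable_of_countable f).aestronglyMeasurable, hl, ENNReal.toReal_ofReal]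
  exact hs.nonneg fun k => mul_nonneg (hw k) (hf k)

theorem hasSum1 {α : ℝ} (h0 : 0 ≤ α) (h1 : α < 1) :
    HasSum (fun k : ℕ => α ^ k * (1 - α) * (k : ℝ)) (α / (1 - α)) := by
  have hn : ‖α‖ < 1 := by rw [Real.norm_of_nonneg h0]; exact h1
  have h := (hasSum_coe_mul_geometric_of_norm_lt_one hn).mul_right (1 - α)
  have h2 : α / (1 - α) ^ 2 * (1 - α) = α / (1 - α) := by
    have : (1 - α) ≠ 0 := by linarith
    field_simp
  rw [h2] at h
  have h3 : (fun k : ℕ => α ^ k * (1 - α) * (k : ℝ)) = fun k : ℕ => (k : ℝ) * α ^ k * (1 - α) := by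
    funext k
    ring
  rw [h3]
  exact h

theorem hasSum2 {α : ℝ} (h0 : 0 ≤ α) (h1 : α < 1) :
    HasSum (fun k : ℕ => α ^ k * (1 - α) * ((k : ℝ) ^ 2))
      (α / (1 - α) + 2 * (α / (1 - α)) ^ 2) := by
  have hn : ‖α‖ < 1 := by rw [Real.norm_of_nonneg h0]; exact h1
  have ha := (hasSum_choose_mul_geometric_of_norm_lt_one 2 hn).mul_right (2 * (1 - α))
  have hb := (hasSum_coe_mul_geometric_of_norm_lt_one hn).mul_right (3 * (1 - α))
  have hc := (hasSum_geometric_of_norm_lt_one hn).mul_right (2 * (1 - α))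
  have h := (ha.sub hb).sub hc
  have h2 : 1 / (1 - α) ^ (2 + 1) * (2 * (1 - α)) - α / (1 - α) ^ 2 * (3 * (1 - α)) -
      (1 - α)⁻¹ * (2 * (1 - α)) = α / (1 - α) + 2 * (α / (1 - α)) ^ 2 := by
    have : (1 - α) ≠ 0 := by linarith
    field_simp
    ring
  rw [h2] at h
  have h4 : (fun k : ℕ => α ^ k * (1 - α) * ((k : ℝ) ^ 2)) = fun k : ℕ =>
      ((Nat.choose (k + 2) 2 : ℕ) : ℝ) * α ^ k * (2 * (1 - α)) -
        (k : ℝ) * α ^ k * (3 * (1 - α)) - α ^ k * (2 * (1 - α)) := by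
    funext k
    have h3 : ((Nat.choose (k + 2) 2 : ℕ) : ℝ) = (k + 2) * (k + 1) / 2 := by
      rw [Nat.cast_choose_two]
      push_cast
      ring
    rw [h3]
    ring
  rw [h4]
  exact h

/-! ## One row -/

/-- Number of children of the vertex `i` of the row `r`. -/
def kid (i : ℤ) (r : Row) : ℝ := ((r i).1 : ℝ)

theorem meas_kid (i : ℤ) : Measurable (kid i) :=
  (measurable_of_countable _).comp (measurable_fst.comp (measurable_pi_apply i))

theorem map_kid {α : ℝ} (h0 : 0 ≤ α) (h1 : α < 1) (i : ℤ) :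
    (rowLaw α).map (fun r : Row => (r i).1) = geo α := by
  have := Adapted.nd_prob h0 h1
  have h2 : (fun r : Row => (r i).1) = Prod.fst ∘ (fun r : Row => r i) := rfl
  rw [h2, ← Measure.map_map measurable_fst (measurable_pi_apply i)]
  have h3 : (rowLaw α).map (fun r : Row => r i) = ndLaw α := by
    unfold rowLaw
    exact Measure.infinitePi_map_eval (fun _ : ℤ => ndLaw α) i
  rw [h3]
  unfold ndLaw
  rw [← Measure.fst, Measure.fst_prod]

theorem kid_mom {α : ℝ} (h0 : 0 ≤ α) (h1 : α < 1) (i : ℤ) :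
    MemLp (kid i) 2 (rowLaw α) ∧ ∫ r, kid i r ∂rowLaw α = α / (1 - α) ∧
      ∫ r, kid i r ^ 2 ∂rowLaw α = α / (1 - α) + 2 * (α / (1 - α)) ^ 2 := by
  have := Adapted.row_prob h0 h1
  have hm : Measurable (fun r : Row => (r i).1) :=
    measurable_fst.comp (measurable_pi_apply i)
  have hA := geo_int h0 h1 (f := fun k => (k : ℝ)) (fun k => Nat.cast_nonneg k) (hasSum1 h0 h1)
  have hB := geo_int h0 h1 (f := fun k => (k : ℝ) ^ 2) (fun k => by positivity) (hasSum2 h0 h1)
  rw [← map_kid h0 h1 i] at hA hB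
  have hc1 : AEStronglyMeasurable (fun k : ℕ => (k : ℝ)) ((rowLaw α).map fun r : Row => (r i).1) :=
    (measurable_of_countable _).aestronglyMeasurable
  have hc2 : AEStronglyMeasurable (fun k : ℕ => (k : ℝ) ^ 2)
      ((rowLaw α).map fun r : Row => (r i).1) :=
    (measurable_of_countable _).aestronglyMeasurable
  rw [integral_map hm.aemeasurable hc1] at hA
  rw [integral_map hm.aemeasurable hc2, integrable_map_measure hc2 hm.aemeasurable] at hB
  refine ⟨?_, hA.2, hB.2⟩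
  rw [memLp_two_iff_integrable_sq (meas_kid i).aestronglyMeasurable]
  exact hB.1

theorem kid_indep {α : ℝ} (h0 : 0 ≤ α) (h1 : α < 1) : iIndepFun kid (rowLaw α) := by
  have := Adapted.nd_prob h0 h1
  unfold rowLaw
  exact iIndepFun_infinitePi (P := fun _ : ℤ => ndLaw α) (X := fun _ (d : Nd) => (d.1 : ℝ))
    (fun _ => (measurable_of_countable _).comp measurable_fst)

theorem sum_mom {α : ℝ} (h0 : 0 ≤ α) (h1 : α < 1) (s : Finset ℤ) :
    MemLp (∑ i ∈ s, kid i) 2 (rowLaw α) ∧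
      ∫ r, (∑ i ∈ s, kid i) r ∂rowLaw α = s.card * (α / (1 - α)) ∧
      ∫ r, (∑ i ∈ s, kid i) r ^ 2 ∂rowLaw α = s.card ^ 2 * (α / (1 - α)) ^ 2 +
        s.card * ((α / (1 - α)) * (α / (1 - α) + 1)) := by
  have := Adapted.row_prob h0 h1
  have hL : MemLp (∑ i ∈ s, kid i) 2 (rowLaw α) := by
    have := memLp_finsetSum' s (fun i _ => (kid_mom h0 h1 i).1)
    exact this
  have hE : ∫ r, (∑ i ∈ s, kid i) r ∂rowLaw α = s.card * (α / (1 - α)) := by
    simp only [Finset.sum_apply]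
    rw [integral_finsetSum _ fun i _ => (kid_mom h0 h1 i).1.integrable (by norm_num)]
    simp only [(kid_mom h0 h1 _).2.1, Finset.sum_const, nsmul_eq_mul]
  refine ⟨hL, hE, ?_⟩
  have hV : Var[∑ i ∈ s, kid i; rowLaw α] = ∑ i ∈ s, Var[kid i; rowLaw α] :=
    IndepFun.variance_sum (fun i _ => (kid_mom h0 h1 i).1)
      (fun i _ j _ hij => (kid_indep h0 h1).indepFun hij)
  have hv : ∀ i, Var[kid i; rowLaw α] = (α / (1 - α)) * (α / (1 - α) + 1) := by
    intro i
    rw [variance_eq_sub (kid_mom h0 h1 i).1]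
    have h3 : (rowLaw α)[kid i ^ 2] = α / (1 - α) + 2 * (α / (1 - α)) ^ 2 :=
      (kid_mom h0 h1 i).2.2
    rw [h3, (kid_mom h0 h1 i).2.1]
    ring
  simp only [hv, Finset.sum_const, nsmul_eq_mul] at hV
  rw [variance_eq_sub hL, hE] at hV
  have h4 : ∫ r, (∑ i ∈ s, kid i) r ^ 2 ∂rowLaw α = (rowLaw α)[(∑ i ∈ s, kid i) ^ 2] := rfl
  rw [h4]
  linarith [hV, mul_pow (s.card : ℝ) (α / (1 - α)) 2]

/-- Number of children of the interval `[0,x)` of a row. -/
def psr (x : ℤ) (r : Row) : ℝ := ((ps (fun i => (r i).1) x : ℤ) : ℝ)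

theorem psr_eq (x : ℤ) (r : Row) :
    psr x r = (∑ i ∈ Finset.Ico 0 x, kid i) r - (∑ i ∈ Finset.Ico x 0, kid i) r := by
  unfold psr ps kid
  simp only [Finset.sum_apply]
  push_cast
  rfl

theorem psr_mom {α : ℝ} (h0 : 0 ≤ α) (h1 : α < 1) (x : ℤ) :
    MemLp (psr x) 2 (rowLaw α) ∧ ∫ r, psr x r ∂rowLaw α = x * (α / (1 - α)) ∧
      ∫ r, psr x r ^ 2 ∂rowLaw α = x ^ 2 * (α / (1 - α)) ^ 2 +
        |(x : ℝ)| * ((α / (1 - α)) * (α / (1 - α) + 1)) := by
  rcases le_total 0 x with hx | hx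
  · have h2 : psr x = ∑ i ∈ Finset.Ico 0 x, kid i := by
      funext r
      rw [psr_eq, Finset.Ico_eq_empty (by omega : ¬ x < 0)]
      simp
    have h3 : ((Finset.Ico 0 x).card : ℝ) = x := by
      rw [Int.card_Ico]
      have h4 : ((x - 0).toNat : ℤ) = x := by rw [Int.toNat_of_nonneg (by omega)]; ring
      exact_mod_cast h4
    have := sum_mom h0 h1 (Finset.Ico 0 x)
    rw [h3, ← h2] at this
    rw [abs_of_nonneg (by exact_mod_cast hx)]
    exact this
  · have h2 : psr x = - ∑ i ∈ Finset.Ico x 0, kid i := by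
      funext r
      rw [psr_eq, Finset.Ico_eq_empty (by omega : ¬ 0 < x)]
      simp
    have h3 : ((Finset.Ico x 0).card : ℝ) = -x := by
      rw [Int.card_Ico]
      have h4 : ((0 - x).toNat : ℤ) = -x := by rw [Int.toNat_of_nonneg (by omega)]; ring
      exact_mod_cast h4
    obtain ⟨ha, hb, hc⟩ := sum_mom h0 h1 (Finset.Ico x 0)
    rw [h3] at hb hc
    rw [abs_of_nonpos (by exact_mod_cast hx), h2]
    refine ⟨ha.neg, ?_, ?_⟩
    · simp only [Pi.neg_apply]
      rw [integral_neg, hb]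
      ring
    · simp only [Pi.neg_apply, neg_sq]
      rw [hc]
      ring

/-! ## Induction over the rows -/

theorem DD_trunc (t : ℕ) (ω : Arr) (b : ℤ) : DD (Adapted.trunc t ω) t b = DD ω t b := by
  have key : ∀ s ≤ t, DD (Adapted.trunc t ω) s b = DD ω s b := by
    intro s
    induction s with
    | zero => intro _; rfl
    | succ s ih =>
      intro hs
      show ps (xi (Adapted.trunc t ω) s) (DD (Adapted.trunc t ω) s b) = ps (xi ω s) (DD ω s b)
      rw [ih (by omega)]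
      congr 1
      funext x
      unfold xi
      rw [Adapted.trunc_agree t ω s (by omega)]
  exact key t le_rfl

theorem DD_nonneg (t : ℕ) (ω : Arr) {b : ℤ} (hb : 0 ≤ b) : 0 ≤ DD ω t b := by
  induction t with
  | zero => exact hb
  | succ t ih =>
    show 0 ≤ ps (xi ω t) (DD ω t b)
    unfold ps
    rw [Finset.Ico_eq_empty (by omega : ¬ DD ω t b < 0)]
    simp only [Finset.sum_empty, sub_zero]
    positivity

theorem indepD {α : ℝ} (h0 : 0 ≤ α) (h1 : α < 1) (t : ℕ) (b : ℤ) :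
    IndepFun (fun ω : Arr => DD ω t b) (fun ω : Arr => ω t) (arrLaw α) := by
  have h := (Adapted.indep_row h0 h1 t).comp (MeasAux.meas_DD t b) measurable_id
  have h2 : (fun ω : Arr => DD ω t b) ∘ Adapted.trunc t = fun ω : Arr => DD ω t b := by
    funext ω
    exact DD_trunc t ω b
  rw [h2] at h
  exact h

theorem meas_psr2 : Measurable fun z : ℤ × Row => psr z.1 z.2 := by
  refine measurable_from_prod_countable_right fun x => ?_
  have h : psr x = fun r : Row => (∑ i ∈ Finset.Ico 0 x, kid i) r -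
      (∑ i ∈ Finset.Ico x 0, kid i) r := by
    funext r
    exact psr_eq x r
  show Measurable (psr x)
  rw [h]
  simp only [Finset.sum_apply]
  exact (Finset.measurable_sum _ fun i _ => meas_kid i).sub
    (Finset.measurable_sum _ fun i _ => meas_kid i)

theorem law_joint {α : ℝ} (h0 : 0 ≤ α) (h1 : α < 1) (t : ℕ) (b : ℤ) :
    (arrLaw α).map (fun ω => (DD ω t b, ω t)) =
      ((arrLaw α).map (fun ω => DD ω t b)).prod (rowLaw α) := by
  have := Adapted.row_prob h0 h1
  have := Adapted.arr_prob h0 h1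
  rw [(indepD h0 h1 t b).map_prod_eq_prod_map_map (MeasAux.meas_DD t b).aemeasurable
      (measurable_pi_apply t).aemeasurable]
  congr 1
  exact Measure.infinitePi_map_eval (fun _ : ℕ => rowLaw α) t

/-- One step: integrals of functions of the new width. -/
theorem step {α : ℝ} (h0 : 0 ≤ α) (h1 : α < 1) (t : ℕ) (b : ℤ) (k : ℕ) (g : ℤ → ℝ)
    (hr : ∀ x : ℤ, Integrable (fun r => psr x r ^ k) (rowLaw α))
    (hg : ∀ x : ℤ, ∫ r, |psr x r ^ k| ∂rowLaw α ≤ g x)
    (hi : Integrable (fun ω => g (DD ω t b)) (arrLaw α)) :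
    Integrable (fun ω => ((DD ω (t + 1) b : ℤ) : ℝ) ^ k) (arrLaw α) ∧
      ∫ ω, ((DD ω (t + 1) b : ℤ) : ℝ) ^ k ∂arrLaw α =
        ∫ ω, ∫ r, psr (DD ω t b) r ^ k ∂rowLaw α ∂arrLaw α := by
  have := Adapted.row_prob h0 h1
  have := Adapted.arr_prob h0 h1
  have hD := MeasAux.meas_DD t b
  have hJ : Measurable (fun ω : Arr => (DD ω t b, ω t)) := hD.prodMk (measurable_pi_apply t)
  have hprob : IsProbabilityMeasure ((arrLaw α).map (fun ω => DD ω t b)) :=
    Measure.isProbabilityMeasure_map hD.aemeasurable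
  have hF : Measurable (fun z : ℤ × Row => psr z.1 z.2 ^ k) := meas_psr2.pow_const k
  have hint : Integrable (fun z : ℤ × Row => psr z.1 z.2 ^ k)
      (((arrLaw α).map (fun ω => DD ω t b)).prod (rowLaw α)) := by
    rw [integrable_prod_iff hF.aestronglyMeasurable]
    refine ⟨Filter.Eventually.of_forall fun x => hr x, ?_⟩
    have hgi : Integrable g ((arrLaw α).map (fun ω => DD ω t b)) := by
      rw [integrable_map_measure (measurable_of_countable g).aestronglyMeasurable hD.aemeasurable]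
      exact hi
    refine Integrable.mono hgi (measurable_of_countable _).aestronglyMeasurable
      (Filter.Eventually.of_forall fun x => ?_)
    simp only [Real.norm_eq_abs]
    rw [abs_of_nonneg (integral_nonneg fun r => abs_nonneg _)]
    exact (hg x).trans (le_abs_self _)
  have hE : (fun ω : Arr => ((DD ω (t + 1) b : ℤ) : ℝ) ^ k) =
      (fun z : ℤ × Row => psr z.1 z.2 ^ k) ∘ (fun ω : Arr => (DD ω t b, ω t)) := by
    funext ω
    rfl
  have hint2 := hint
  rw [← law_joint h0 h1 t b, integrable_map_measure hF.aestronglyMeasurable hJ.aemeasurable]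
    at hint2
  rw [hE]
  refine ⟨hint2, ?_⟩
  have h3 : ∫ ω, ((fun z : ℤ × Row => psr z.1 z.2 ^ k) ∘ (fun ω : Arr => (DD ω t b, ω t))) ω
      ∂arrLaw α = ∫ z, psr z.1 z.2 ^ k ∂(arrLaw α).map (fun ω : Arr => (DD ω t b, ω t)) := by
    rw [integral_map hJ.aemeasurable hF.aestronglyMeasurable]
    rfl
  rw [h3, law_joint h0 h1 t b, integral_prod _ hint,
    integral_map hD.aemeasurable (measurable_of_countable _).aestronglyMeasurable]

theorem main {α : ℝ} (h0 : 0 ≤ α) (h1 : α < 1) (b : ℤ) (t : ℕ) :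
    Integrable (fun ω => ((DD ω t b : ℤ) : ℝ)) (arrLaw α) ∧
      ∫ ω, ((DD ω t b : ℤ) : ℝ) ∂arrLaw α = b * (α / (1 - α)) ^ t ∧
      Integrable (fun ω => ((DD ω t b : ℤ) : ℝ) ^ 2) (arrLaw α) ∧
      ∫ ω, ((DD ω (t + 1) b : ℤ) : ℝ) ^ 2 ∂arrLaw α =
        (α / (1 - α)) ^ 2 * ∫ ω, ((DD ω t b : ℤ) : ℝ) ^ 2 ∂arrLaw α +
          (α / (1 - α)) * (α / (1 - α) + 1) * ∫ ω, |((DD ω t b : ℤ) : ℝ)| ∂arrLaw α := by
  have := Adapted.row_prob h0 h1
  have := Adapted.arr_prob h0 h1
  have hst : ∀ t : ℕ, Integrable (fun ω => ((DD ω t b : ℤ) : ℝ) ^ 2) (arrLaw α) →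
      Integrable (fun ω => ((DD ω t b : ℤ) : ℝ)) (arrLaw α) →
      Integrable (fun ω => ((DD ω (t + 1) b : ℤ) : ℝ) ^ 2) (arrLaw α) ∧
      ∫ ω, ((DD ω (t + 1) b : ℤ) : ℝ) ^ 2 ∂arrLaw α =
        (α / (1 - α)) ^ 2 * ∫ ω, ((DD ω t b : ℤ) : ℝ) ^ 2 ∂arrLaw α +
          (α / (1 - α)) * (α / (1 - α) + 1) * ∫ ω, |((DD ω t b : ℤ) : ℝ)| ∂arrLaw α := by
    intro t hA hB
    have h2 := step h0 h1 t b 2 (fun x => (x : ℝ) ^ 2 * (α / (1 - α)) ^ 2 +
        |(x : ℝ)| * ((α / (1 - α)) * (α / (1 - α) + 1)))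
      (fun x => (memLp_two_iff_integrable_sq (psr_mom h0 h1 x).1.1).1 (psr_mom h0 h1 x).1)
      (fun x => by
        have h3 : ∀ r : Row, |psr x r ^ 2| = psr x r ^ 2 := fun r => abs_of_nonneg (sq_nonneg _)
        simp only [h3]
        exact (psr_mom h0 h1 x).2.2.le)
      ((hA.mul_const _).add (hB.abs.mul_const _))
    refine ⟨h2.1, ?_⟩
    rw [h2.2]
    simp only [(psr_mom h0 h1 _).2.2]
    rw [integral_add (hA.mul_const _) (hB.abs.mul_const _), integral_mul_const,
      integral_mul_const]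
    ring
  have hI : Integrable (fun ω => ((DD ω t b : ℤ) : ℝ) ^ 2) (arrLaw α) ∧
      Integrable (fun ω => ((DD ω t b : ℤ) : ℝ)) (arrLaw α) ∧
      ∫ ω, ((DD ω t b : ℤ) : ℝ) ∂arrLaw α = b * (α / (1 - α)) ^ t := by
    induction t with
    | zero =>
      refine ⟨?_, ?_, ?_⟩
      · exact integrable_const (((b : ℤ) : ℝ) ^ 2)
      · exact integrable_const ((b : ℤ) : ℝ)
      · show ∫ ω, ((b : ℤ) : ℝ) ∂arrLaw α = _
        simp
    | succ t ih =>
      obtain ⟨hA, hB, hC⟩ := ih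
      have h2 := hst t hA hB
      have hL : MemLp (fun ω => ((DD ω (t + 1) b : ℤ) : ℝ)) 2 (arrLaw α) := by
        rw [memLp_two_iff_integrable_sq]
        · exact h2.1
        · exact ((measurable_of_countable (fun x : ℤ => (x : ℝ))).comp
            (MeasAux.meas_DD (t + 1) b)).aestronglyMeasurable
      refine ⟨h2.1, hL.integrable (by norm_num), ?_⟩
      have h3 := step h0 h1 t b 1 (fun x => (x : ℝ) ^ 2 * (α / (1 - α)) ^ 2 +
          |(x : ℝ)| * ((α / (1 - α)) * (α / (1 - α) + 1)) + 1)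
        (fun x => by
          simp only [pow_one]
          exact (psr_mom h0 h1 x).1.integrable (by norm_num))
        (fun x => by
          rw [← (psr_mom h0 h1 x).2.2]
          have h4 : ∀ r : Row, |psr x r ^ 1| ≤ psr x r ^ 2 + 1 := by
            intro r
            rw [pow_one]
            nlinarith [sq_nonneg (|psr x r| - 1), sq_abs (psr x r), abs_nonneg (psr x r)]
          have h5 : Integrable (fun r => psr x r ^ 2) (rowLaw α) :=
            (memLp_two_iff_integrable_sq (psr_mom h0 h1 x).1.1).1 (psr_mom h0 h1 x).1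
          have h6 : ∫ r, psr x r ^ 2 ∂rowLaw α + 1 = ∫ r, (psr x r ^ 2 + 1) ∂rowLaw α := by
            rw [integral_add h5 (integrable_const _)]
            simp
          rw [h6]
          refine integral_mono ?_ (h5.add (integrable_const _)) h4
          have h7 := ((psr_mom h0 h1 x).1.integrable (by norm_num)).abs
          simpa only [pow_one] using h7)
        (((hA.mul_const _).add (hB.abs.mul_const _)).add (integrable_const _))
      simp only [pow_one] at h3
      rw [h3.2]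
      simp only [(psr_mom h0 h1 _).2.1]
      rw [integral_mul_const, hC]
      ring
  exact ⟨hI.2.1, hI.2.2, hI.1, (hst t hI.1 hI.2.1).2⟩

end WidthAux

open WidthAux in
theorem widthMom : WidthMomStmt := by
  intro α h0 h1 t
  refine ⟨fun b => ⟨(main h0 h1 b t).1, (main h0 h1 b t).2.1⟩,
    fun b => (main h0 h1 b t).2.2.1, ?_⟩
  intro hα b
  have := Adapted.arr_prob h0 h1
  set m : ℝ := α / (1 - α) with hm
  have hm1 : 1 ≤ m := by
    rw [hm, le_div_iff₀ (by linarith)]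
    linarith
  induction t with
  | zero =>
    show ∫ ω, (((b : ℤ) : ℤ) : ℝ) ^ 2 ∂arrLaw α ≤ _
    simp
  | succ t ih =>
    have h2 := (main h0 h1 b t).2.2.2
    have h3 : ∀ ω : Arr, |((DD ω t b : ℤ) : ℝ)| = ((DD ω t b : ℤ) : ℝ) := by
      intro ω
      refine abs_of_nonneg ?_
      exact_mod_cast DD_nonneg t ω (by positivity)
    simp only [h3] at h2
    rw [(main h0 h1 b t).2.1] at h2
    rw [h2]
    rw [← hm]
    have h4 : m ^ 2 * ∫ ω, ((DD ω t b : ℤ) : ℝ) ^ 2 ∂arrLaw α ≤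
        m ^ 2 * ((b ^ 2 + (m + 1) * b * t) * (m ^ t) ^ 2) :=
      mul_le_mul_of_nonneg_left ih (by positivity)
    have h5 : m ^ (t + 1) ≤ (m ^ (t + 1)) ^ 2 := by
      have : 1 ≤ m ^ (t + 1) := one_le_pow₀ hm1
      nlinarith
    have h6 : (m + 1) * b * m ^ (t + 1) ≤ (m + 1) * b * (m ^ (t + 1)) ^ 2 :=
      mul_le_mul_of_nonneg_left h5 (by positivity)
    push_cast
    have h7 : (b ^ 2 + (m + 1) * b * (t + 1)) * (m ^ (t + 1)) ^ 2 =
        m ^ 2 * ((b ^ 2 + (m + 1) * b * t) * (m ^ t) ^ 2) +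
          (m + 1) * b * (m ^ (t + 1)) ^ 2 := by
      ring
    rw [h7]
    have h8 : m * (m + 1) * (b * m ^ t) = (m + 1) * b * m ^ (t + 1) := by ring
    rw [h8]
    linarith

end CausalPerc.Neg
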