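import Pool.Agent.Lib.MP_a51368_pr.Neg.LabelLaw
import Pool.Agent.Lib.MP_a51368_pr.Neg.Unroll
import Pool.Agent.Lib.MP_a51368_pr.Neg.Adapted
import Pool.Agent.Lib.MP_a51368_pr.Neg.Indep
import Pool.Agent.Lib.MP_a51368_pr.Neg.ColDep

/-!
# The law of a window of the unrolled triangulation
-/

open MeasureTheory ProbabilityTheory Set

namespace CausalPerc.Neg

namespace WindowLaw

/-! ### Unrolled levels without the assumption of survival -/

variable {ω ω' : Conf} {r : ℕ}

theorem exists_rep' {t : ℕ} (h : 0 < uZ ω r t) (x : ℤ) :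
    ∃ (q : ℤ) (j : ℕ), j < uZ ω r t ∧ x = q * uZ ω r t + j := by
  have hZ : (0 : ℤ) < uZ ω r t := by exact_mod_cast h
  refine ⟨x / uZ ω r t, (x % uZ ω r t).toNat, ?_, ?_⟩
  · have h1 := Int.emod_lt_of_pos x hZ
    have h2 := Int.emod_nonneg x hZ.ne'
    omega
  · have h2 := Int.emod_nonneg x hZ.ne'
    rw [Int.toNat_of_nonneg h2]
    have := Int.emod_add_mul_ediv x (uZ ω r t)
    linarith [mul_comm (x / (uZ ω r t : ℤ)) (uZ ω r t : ℤ)]

theorem uvert_mem' {t : ℕ} (h : 0 < uZ ω r t) (x : ℤ) :
    uvert ω r (t, x) ∈ level (kids ω) (r + t) := by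
  obtain ⟨q, j, hj, hx⟩ := exists_rep' h x
  rw [uvert_rep hj hx]
  exact List.getElem_mem _

theorem uS_succ' {t : ℕ} (h : 0 < uZ ω r t) (x : ℤ) :
    uS ω r t (x + 1) = uS ω r t x + kids ω (uvert ω r (t, x)) := by
  obtain ⟨q, j, hj, hx⟩ := exists_rep' h x
  rw [uvert_rep hj hx, uS_rep hj hx]
  have hps := psum_succ (k := kids ω) (L := level (kids ω) (r + t)) hj
  by_cases hj1 : j + 1 < uZ ω r t
  · rw [uS_rep hj1 (q := q) (by rw [hx]; push_cast; ring), hps]
    push_cast
    ring
  · have hj2 : j + 1 = uZ ω r t := by omega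
    rw [uS_rep h (q := q + 1) (by rw [hx, ← hj2]; push_cast; ring), psum_zero,
      uZ_succ, ← hj2, hps]
    push_cast
    ring

theorem uS_zero {t : ℕ} (h : uZ ω r t = 0) (x : ℤ) : uS ω r t x = 0 := by
  have hnil : level (kids ω) (r + t) = [] := List.length_eq_zero_iff.1 h
  unfold uS
  rw [h, hnil]
  simp

theorem uZ_succ_zero {t : ℕ} (h : uZ ω r t = 0) : uZ ω r (t + 1) = 0 := by
  rw [uZ_succ, h, psum_zero]

theorem uS_period' (t : ℕ) (x : ℤ) :
    uS ω r t (x + uZ ω r t) = uS ω r t x + uZ ω r (t + 1) := by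
  rcases Nat.eq_zero_or_pos (uZ ω r t) with h | h
  · rw [uS_zero h, uS_zero h, uZ_succ_zero h]
    simp
  · obtain ⟨q, j, hj, hx⟩ := exists_rep' h x
    rw [uS_rep hj hx, uS_rep hj (q := q + 1) (by rw [hx]; ring)]
    ring

theorem uS_mono (t : ℕ) {x y : ℤ} (h : x ≤ y) : uS ω r t x ≤ uS ω r t y := by
  rcases Nat.eq_zero_or_pos (uZ ω r t) with h0 | h0
  · rw [uS_zero h0, uS_zero h0]
  · obtain ⟨k, rfl⟩ := Int.le.dest h
    induction k with
    | zero => simp
    | succ k ih =>
      have h1 := ih (by omega)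
      have h2 := uS_succ' h0 (x + k)
      push_cast
      rw [← add_assoc, h2]
      omega

theorem uD_mono (t : ℕ) {x y : ℤ} (h : x ≤ y) : uD ω r t x ≤ uD ω r t y := by
  induction t with
  | zero => exact h
  | succ t ih => exact uS_mono t ih

theorem uD_period' (t : ℕ) (x : ℤ) :
    uD ω r t (x + uZ ω r 0) = uD ω r t x + uZ ω r t := by
  induction t with
  | zero => rfl
  | succ t ih =>
    show uS ω r t (uD ω r t (x + uZ ω r 0)) = uS ω r t (uD ω r t x) + uZ ω r (t + 1)
    rw [ih, uS_period']

theorem width_le {h : ℕ} (hh : h ≤ uZ ω r 0) (t : ℕ) (a : ℤ) :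
    uD ω r t (a + h) - uD ω r t a ≤ uZ ω r t := by
  have h1 : uD ω r t (a + h) ≤ uD ω r t (a + uZ ω r 0) := uD_mono t (by omega)
  rw [uD_period'] at h1
  omega

theorem width_nonneg (h : ℕ) (t : ℕ) (a : ℤ) : 0 ≤ uD ω r t (a + h) - uD ω r t a := by
  have := uD_mono (ω := ω) (r := r) t (show a ≤ a + h by omega)
  omega

/-- The positions of a window are distinct vertices. -/
theorem uvert_inj {t : ℕ} {x y : ℤ} (h1 : x ≤ y) (h2 : y < x + uZ ω r t)
    (he : uvert ω r (t, x) = uvert ω r (t, y)) : x = y := by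
  have hZ : 0 < uZ ω r t := by omega
  obtain ⟨q, j, hj, hx⟩ := exists_rep' hZ x
  obtain ⟨q', j', hj', hy⟩ := exists_rep' hZ y
  rw [uvert_rep hj hx, uvert_rep hj' hy] at he
  have hjj := (List.Nodup.getElem_inj_iff (nodup_level _)).1 he
  subst hjj
  have h3 : y - x = (q' - q) * uZ ω r t := by rw [hx, hy]; ring
  have hZ' : (0 : ℤ) < uZ ω r t := by exact_mod_cast hZ
  have h4 : q' - q < 1 := by
    by_contra hc
    push Not at hc
    have : 1 * (uZ ω r t : ℤ) ≤ (q' - q) * uZ ω r t := mul_le_mul_of_nonneg_right hc hZ'.le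
    omega
  have h5 : 0 ≤ q' - q := by
    by_contra hc
    push Not at hc
    have : (q' - q) * (uZ ω r t : ℤ) < 0 := mul_neg_of_neg_of_pos hc hZ'
    omega
  have h6 : q' - q = 0 := by omega
  rw [h6, zero_mul] at h3
  omega

/-- The widths of the columns of an array which codes the unrolled strip. -/
theorem DD_width {h n : ℕ} {a : ℤ} (hh : h ≤ uZ ω r 0) (B : Arr)
    (hB : ∀ t < n, 0 < uZ ω r t → ∀ x, 0 ≤ x → x < uD ω r t (a + h) - uD ω r t a →
      (B t x).1 = kids ω (uvert ω r (t, x + uD ω r t a))) :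
    ∀ t ≤ n, DD B t h = uD ω r t (a + h) - uD ω r t a := by
  intro t
  induction t with
  | zero =>
    intro _
    show (h : ℤ) = a + h - a
    ring
  | succ t ih =>
    intro ht
    show ps (xi B t) (DD B t h) = uS ω r t (uD ω r t (a + h)) - uS ω r t (uD ω r t a)
    rw [ih (by omega)]
    have hw0 := width_nonneg (ω := ω) (r := r) h t a
    have hw1 := width_le hh t a
    rcases Nat.eq_zero_or_pos (uZ ω r t) with h0 | h0
    · rw [uS_zero h0, uS_zero h0]
      have : uD ω r t (a + h) - uD ω r t a = 0 := by omega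
      rw [this, ps_zero]
      simp
    · have key : ∀ m : ℕ, (m : ℤ) ≤ uD ω r t (a + h) - uD ω r t a →
          ps (xi B t) m = uS ω r t (m + uD ω r t a) - uS ω r t (uD ω r t a) := by
        intro m
        induction m with
        | zero => intro _; simp [ps_zero]
        | succ m ihm =>
          intro hm
          push_cast at hm ⊢
          rw [ps_succ, ihm (by omega), show (m : ℤ) + 1 + uD ω r t a = (m + uD ω r t a) + 1 by ring,
            uS_succ' h0]
          have hb := hB t (by omega) h0 m (by omega) (by omega)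
          have : xi B t m = kids ω (uvert ω r (t, m + uD ω r t a)) := hb
          rw [this]
          ring
      have h3 := key (uD ω r t (a + h) - uD ω r t a).toNat (by
        rw [Int.toNat_of_nonneg hw0])
      rw [Int.toNat_of_nonneg hw0, sub_add_cancel] at h3
      exact h3

/-! ### Dependence on the numbers of children -/

theorem level_agree {t : ℕ} (h0 : level (kids ω) r = level (kids ω') r)
    (hk : ∀ v : Vert, r ≤ v.length → v.length < r + t → kids ω v = kids ω' v) :
    ∀ s ≤ t, level (kids ω) (r + s) = level (kids ω') (r + s) := by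
  intro s
  induction s with
  | zero => intro _; exact h0
  | succ s ih =>
    intro hs
    have h1 := ih (by omega)
    show (level (kids ω) (r + s)).flatMap (children (kids ω)) =
      (level (kids ω') (r + s)).flatMap (children (kids ω'))
    rw [← h1]
    apply List.flatMap_congr
    intro v hv
    have hl := length_of_mem_level hv
    rw [children, children, hk v (by omega) (by omega)]

theorem agree {t : ℕ} (h0 : level (kids ω) r = level (kids ω') r)
    (hk : ∀ v : Vert, r ≤ v.length → v.length < r + t → kids ω v = kids ω' v) :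
    (∀ s ≤ t, uZ ω r s = uZ ω' r s) ∧ (∀ s ≤ t, ∀ x, uvert ω r (s, x) = uvert ω' r (s, x)) ∧
      (∀ s < t, ∀ x, uS ω r s x = uS ω' r s x) ∧ (∀ s ≤ t, ∀ a, uD ω r s a = uD ω' r s a) := by
  have hl := level_agree h0 hk
  have hZ : ∀ s ≤ t, uZ ω r s = uZ ω' r s := by
    intro s hs
    unfold uZ
    rw [hl s hs]
  have hS : ∀ s < t, ∀ x, uS ω r s x = uS ω' r s x := by
    intro s hs x
    unfold uS
    rw [hZ s hs.le, hZ (s + 1) hs, hl s hs.le]
    congr 3
    apply List.map_congr_left
    intro v hv
    have hv' := length_of_mem_level (List.mem_of_mem_take hv)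
    exact hk v (by omega) (by omega)
  refine ⟨hZ, ?_, hS, ?_⟩
  · intro s hs x
    unfold uvert
    show (level (kids ω) (r + s)).getD (x % (uZ ω r s : ℤ)).toNat [] =
      (level (kids ω') (r + s)).getD (x % (uZ ω' r s : ℤ)).toNat []
    rw [hZ s hs, hl s hs]
  · intro s
    induction s with
    | zero => intro _ a; rfl
    | succ s ih =>
      intro hs a
      show uS ω r s (uD ω r s a) = uS ω' r s (uD ω' r s a)
      rw [ih (by omega), hS s (by omega)]

/-! ### Measurability -/

theorem measurable_uZ (r t : ℕ) : Measurable (fun ω : Conf => uZ ω r t) :=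
  (Measurable.of_discrete (f := List.length)).comp (measurable_level (r + t))

theorem measurable_uvert (r t : ℕ) (x : ℤ) : Measurable (fun ω : Conf => uvert ω r (t, x)) := by
  have : (fun ω : Conf => uvert ω r (t, x)) =
      (fun l : List Vert => l.getD (x % (l.length : ℤ)).toNat []) ∘
        (fun ω : Conf => level (kids ω) (r + t)) := rfl
  rw [this]
  exact (Measurable.of_discrete).comp (measurable_level _)

theorem measurable_sum (l : List Vert) : Measurable (fun ω : Conf => (l.map (kids ω)).sum) := by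
  induction l with
  | nil => simp
  | cons v l ih =>
    simp only [List.map_cons, List.sum_cons]
    exact (measurable_kids v).add ih

theorem measurable_uS (r t : ℕ) (x : ℤ) : Measurable (fun ω : Conf => uS ω r t x) := by
  have h1 : Measurable (fun ω : Conf => (fun (l : List Vert) (ω : Conf) =>
      ((l.take (x % (l.length : ℤ)).toNat).map (kids ω)).sum) (level (kids ω) (r + t)) ω) :=
    measurable_comp_countable (G := fun (l : List Vert) (ω : Conf) =>
      ((l.take (x % (l.length : ℤ)).toNat).map (kids ω)).sum) (measurable_level _)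
      (fun l => measurable_sum _)
  have h2 : (fun ω : Conf => uS ω r t x) =
      (fun q : ℕ × ℕ × ℕ => (x / (q.1 : ℤ)) * (q.2.1 : ℤ) + (q.2.2 : ℤ)) ∘
        (fun ω : Conf => (uZ ω r t, uZ ω r (t + 1), (fun (l : List Vert) (ω : Conf) =>
          ((l.take (x % (l.length : ℤ)).toNat).map (kids ω)).sum)
            (level (kids ω) (r + t)) ω)) := rfl
  rw [h2]
  exact (Measurable.of_discrete).comp
    ((measurable_uZ r t).prodMk ((measurable_uZ r (t + 1)).prodMk h1))

theorem measurable_uD (r t : ℕ) (a : ℤ) : Measurable (fun ω : Conf => uD ω r t a) := by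
  induction t with
  | zero => exact measurable_const
  | succ t ih =>
    exact measurable_comp_countable (G := fun x ω => uS ω r t x) ih (measurable_uS r t)

/-! ### Coding the tree by an array -/

/-- Positions of the vertices of the tree in the rows of an array. -/
def enc (v : Vert) : ℤ := 2 * (Encodable.encode v : ℤ)

theorem enc_inj : Function.Injective enc := by
  intro v w h
  have h1 : (Encodable.encode v : ℤ) = Encodable.encode w := by
    unfold enc at h
    omega
  exact Encodable.encode_injective (by exact_mod_cast h1)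

/-- The tree coded by an array. -/
def tauA (A : Arr) : Vert → Nd := fun v => A v.length (enc v)

/-- A configuration with the given numbers of children (the labels are irrelevant). -/
def ofT (τ : Vert → Nd) : Conf := fun v => ((τ v).1, fun _ => 0)

/-- The unrolled array computed from the data of the vertices. -/
def uarrT (τ : Vert → Nd) (r : ℕ) (a : ℤ) : Arr :=
  fun t x => τ (uvert (ofT τ) r (t, x + uD (ofT τ) r t a))

/-- The tree with `K0` below level `r` and the array `η` above. -/
def cf (K0 : Vert → ℕ) (r : ℕ) (η : Arr) : Conf :=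
  fun v => (if v.length < r then K0 v else (η (v.length - r) (enc v)).1, fun _ => 0)

/-- The unrolled array computed from `η`. -/
def Phi' (K0 : Vert → ℕ) (r : ℕ) (a : ℤ) (η : Arr) : Arr :=
  fun t x => η t (enc (uvert (cf K0 r η) r (t, x + uD (cf K0 r η) r t a)))

open Classical in
/-- The adapted injection. -/
noncomputable def phi (K0 : Vert → ℕ) (r : ℕ) (a : ℤ) (h : ℕ) (t : ℕ) (η : Arr) (x : ℤ) : ℤ :=
  if 0 ≤ x ∧ x < uD (cf K0 r η) r t (a + h) - uD (cf K0 r η) r t a then
    enc (uvert (cf K0 r η) r (t, x + uD (cf K0 r η) r t a)) else 2 * x + 1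

theorem law_tau {α : ℝ} (h0 : 0 ≤ α) (h1 : α < 1) :
    (arrLaw α).map tauA = Measure.infinitePi fun _ : Vert => ndLaw α := by
  have := Adapted.nd_prob h0 h1
  have e1 := Measure.infinitePi_map_curry_symm (fun (_ : ℕ) (_ : ℤ) => ndLaw α)
  have hinj : Function.Injective (fun v : Vert => ((v.length, enc v) : ℕ × ℤ)) := by
    intro v w h
    exact enc_inj (Prod.ext_iff.1 h).2
  have e2 := Measure.map_infinitePi_infinitePi_of_inj (P := fun _ : ℕ × ℤ => ndLaw α) hinj
  rw [← e1, Measure.map_map (by fun_prop) (by fun_prop)] at e2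
  exact e2

theorem colDep_iff {n : ℕ} {b : ℤ} (hb : 0 ≤ b) {F : Set Arr} (hF : ColDep b n F) {ω ω' : Arr}
    (h : ∀ t < n, ∀ x, 0 ≤ x → x < DD ω t b → ω t x = ω' t x) : ω ∈ F ↔ ω' ∈ F := by
  refine ⟨hF ω ω' h, hF ω' ω fun t ht x hx0 hx1 => ?_⟩
  have h1 : DD ω t b = DD ω' t b := AgrC.D (n := n) (b := b) h ht.le hb le_rfl
  exact (h t ht x hx0 (by rw [h1]; exact hx1)).symm

theorem cf_kids_ge {K0 : Vert → ℕ} {r : ℕ} {η : Arr} {v : Vert} (h : r ≤ v.length) :
    kids (cf K0 r η) v = (η (v.length - r) (enc v)).1 := by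
  show (if v.length < r then K0 v else (η (v.length - r) (enc v)).1) = _
  rw [if_neg (by omega)]

theorem cf_kids_lt {K0 : Vert → ℕ} {r : ℕ} {η : Arr} {v : Vert} (h : v.length < r) :
    kids (cf K0 r η) v = K0 v := by
  show (if v.length < r then K0 v else (η (v.length - r) (enc v)).1) = _
  rw [if_pos h]

theorem cf_level {K0 : Vert → ℕ} {r : ℕ} {η : Arr} : level (kids (cf K0 r η)) r = level K0 r :=
  level_congr fun _ hv => cf_kids_lt hv

theorem cf_agree {K0 : Vert → ℕ} {r t : ℕ} {η η' : Arr} (h : ∀ s < t, η s = η' s) :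
    (∀ s ≤ t, uZ (cf K0 r η) r s = uZ (cf K0 r η') r s) ∧
      (∀ s ≤ t, ∀ x, uvert (cf K0 r η) r (s, x) = uvert (cf K0 r η') r (s, x)) ∧
      (∀ s < t, ∀ x, uS (cf K0 r η) r s x = uS (cf K0 r η') r s x) ∧
      (∀ s ≤ t, ∀ a, uD (cf K0 r η) r s a = uD (cf K0 r η') r s a) := by
  apply agree
  · rw [cf_level, cf_level]
  · intro v hv1 hv2
    rw [cf_kids_ge hv1, cf_kids_ge hv1, h _ (by omega)]

theorem phi_dep {K0 : Vert → ℕ} {r : ℕ} {a : ℤ} {h t : ℕ} {η η' : Arr}
    (hη : ∀ s < t, η s = η' s) : phi K0 r a h t η = phi K0 r a h t η' := by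
  obtain ⟨_, h2, _, h4⟩ := cf_agree (K0 := K0) (r := r) hη
  funext x
  unfold phi
  rw [h4 t le_rfl, h4 t le_rfl, h2 t le_rfl]

theorem phi_inj {K0 : Vert → ℕ} {r : ℕ} {a : ℤ} {h t : ℕ} {η : Arr}
    (hh : h ≤ (level K0 r).length) : Function.Injective (phi K0 r a h t η) := by
  have hh' : h ≤ uZ (cf K0 r η) r 0 := by
    show h ≤ (level (kids (cf K0 r η)) (r + 0)).length
    rw [Nat.add_zero, cf_level]
    exact hh
  have hw := width_le hh' t a
  have key : ∀ x y : ℤ, x ≤ y → phi K0 r a h t η x = phi K0 r a h t η y → x = y := by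
    intro x y hxy he
    unfold phi at he
    split_ifs at he with h1 h2 h3
    · have h4 := enc_inj he
      have h5 := uvert_inj (ω := cf K0 r η) (r := r) (t := t)
        (x := x + uD (cf K0 r η) r t a) (y := y + uD (cf K0 r η) r t a) (by omega) (by omega) h4
      omega
    · unfold enc at he
      omega
    · unfold enc at he
      omega
    · omega
  intro x y he
  rcases le_total x y with hxy | hxy
  · exact key x y hxy he
  · exact (key y x hxy he.symm).symm

theorem measurable_cf (K0 : Vert → ℕ) (r : ℕ) : Measurable (cf K0 r) := by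
  rw [measurable_pi_iff]
  intro v
  unfold cf
  by_cases h : v.length < r
  · simp only [h, if_true]
    exact measurable_const
  · simp only [h, if_false]
    exact (measurable_fst.comp ((measurable_pi_apply (enc v)).comp
      (measurable_pi_apply (v.length - r)))).prodMk measurable_const

theorem measurable_uvertD (r t : ℕ) (a x : ℤ) :
    Measurable (fun ω : Conf => uvert ω r (t, x + uD ω r t a)) :=
  measurable_comp_countable (G := fun y ω => uvert ω r (t, x + y)) (measurable_uD r t a)
    (fun y => measurable_uvert r t (x + y))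

theorem measurable_phi (K0 : Vert → ℕ) (r : ℕ) (a : ℤ) (h t : ℕ) (x : ℤ) :
    Measurable (fun η => phi K0 r a h t η x) := by
  classical
  unfold phi
  have hD : ∀ b : ℤ, Measurable (fun η : Arr => uD (cf K0 r η) r t b) := fun b =>
    (measurable_uD r t b).comp (measurable_cf K0 r)
  refine Measurable.ite ?_ ?_ measurable_const
  · have : {η : Arr | 0 ≤ x ∧ x < uD (cf K0 r η) r t (a + h) - uD (cf K0 r η) r t a} =
        (fun η : Arr => uD (cf K0 r η) r t (a + h) - uD (cf K0 r η) r t a) ⁻¹'
          {z : ℤ | 0 ≤ x ∧ x < z} := rfl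
    rw [this]
    exact ((hD _).sub (hD _)) (MeasurableSpace.measurableSet_top (s := {z : ℤ | 0 ≤ x ∧ x < z}))
  · exact (Measurable.of_discrete (f := enc)).comp
      ((measurable_uvertD r t a x).comp (measurable_cf K0 r))

theorem measurable_eval {k : Arr → ℤ} (t : ℕ) (hk : Measurable k) :
    Measurable fun η : Arr => η t (k η) :=
  Adapted.measurable_eval_row (measurable_pi_apply t) hk

theorem measurable_Phi' (K0 : Vert → ℕ) (r : ℕ) (a : ℤ) : Measurable (Phi' K0 r a) := by
  rw [measurable_pi_iff]
  intro t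
  rw [measurable_pi_iff]
  intro x
  exact measurable_eval t ((Measurable.of_discrete (f := enc)).comp
    ((measurable_uvertD r t a x).comp (measurable_cf K0 r)))

theorem law_Phi {α : ℝ} (h0 : 0 ≤ α) (h1 : α < 1) {K0 : Vert → ℕ} {r : ℕ} {a : ℤ} {h n : ℕ}
    (hh : h ≤ (level K0 r).length) {F : Set Arr} (hF : MeasurableSet F) (hd : ColDep h n F) :
    arrLaw α {η | Phi' K0 r a η ∈ F} = arrLaw α F := by
  have h2 := adapted α h0 h1 ℤ (phi K0 r a h) (fun t η => phi_inj hh)
    (fun t η η' hη => phi_dep hη) (fun t x => measurable_phi K0 r a h t x)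
  have h3 : (Measure.infinitePi fun _ : ℕ => Measure.infinitePi fun _ : ℤ => ndLaw α) =
      arrLaw α := rfl
  rw [h3] at h2
  have hm : Measurable (fun (η : Arr) (t : ℕ) (x : ℤ) => η t (phi K0 r a h t η x)) := by
    rw [measurable_pi_iff]
    intro t
    rw [measurable_pi_iff]
    intro x
    exact measurable_eval t (measurable_phi K0 r a h t x)
  conv_rhs => rw [← h2, Measure.map_apply hm hF]
  congr 1
  ext η
  have hh' : h ≤ uZ (cf K0 r η) r 0 := by
    show h ≤ (level (kids (cf K0 r η)) (r + 0)).length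
    rw [Nat.add_zero, cf_level]
    exact hh
  have hD := DD_width (ω := cf K0 r η) (n := n) (a := a) hh' (Phi' K0 r a η) (by
    intro t ht hZ x hx0 hx1
    have hmem := uvert_mem' hZ (x + uD (cf K0 r η) r t a)
    have hl := length_of_mem_level hmem
    rw [cf_kids_ge (by omega), hl, Nat.add_sub_cancel_left]
    rfl)
  apply colDep_iff (by omega) hd
  intro t ht x hx0 hx1
  rw [hD t ht.le] at hx1
  show η t (enc (uvert (cf K0 r η) r (t, x + uD (cf K0 r η) r t a))) = η t (phi K0 r a h t η x)
  unfold phi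
  rw [if_pos ⟨hx0, hx1⟩]

/-- On the event that level `r` is `L`, the unrolled array is `Phi'` of the rows `≥ r`. -/
theorem uarrT_iff {A : Arr} {K0 : Vert → ℕ} {r : ℕ} {a : ℤ} {h n : ℕ}
    (hl : level (kids (ofT (tauA A))) r = level K0 r) (hh : h ≤ (level K0 r).length)
    {F : Set Arr} (hd : ColDep h n F) :
    uarrT (tauA A) r a ∈ F ↔ Phi' K0 r a (post r A) ∈ F := by
  have hk : ∀ t : ℕ, ∀ v : Vert, r ≤ v.length → v.length < r + t →
      kids (ofT (tauA A)) v = kids (cf K0 r (post r A)) v := by
    intro t v hv _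
    rw [cf_kids_ge hv]
    show (A v.length (enc v)).1 = (A (r + (v.length - r)) (enc v)).1
    rw [Nat.add_sub_cancel' hv]
  have hag := fun t => agree (t := t) (by rw [hl, cf_level]) (hk t)
  have hh' : h ≤ uZ (ofT (tauA A)) r 0 := by
    show h ≤ (level (kids (ofT (tauA A))) (r + 0)).length
    rw [Nat.add_zero, hl]
    exact hh
  have hD := DD_width (ω := ofT (tauA A)) (n := n) (a := a) hh' (uarrT (tauA A) r a) (by
    intro t ht hZ x hx0 hx1
    rfl)
  apply colDep_iff (by omega) hd
  intro t ht x hx0 hx1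
  rw [hD t ht.le] at hx1
  have hw := width_le hh' t a
  have hZ : 0 < uZ (ofT (tauA A)) r t := by omega
  have hlen := length_of_mem_level (uvert_mem' hZ (x + uD (ofT (tauA A)) r t a))
  obtain ⟨_, h2, _, h4⟩ := hag t
  show A (uvert (ofT (tauA A)) r (t, x + uD (ofT (tauA A)) r t a)).length
      (enc (uvert (ofT (tauA A)) r (t, x + uD (ofT (tauA A)) r t a))) =
    A (r + t) (enc (uvert (cf K0 r (post r A)) r (t, x + uD (cf K0 r (post r A)) r t a)))
  rw [hlen, h2 t le_rfl, h4 t le_rfl]

theorem uarr_iff {ω : Conf} {r : ℕ} (hr : 1 ≤ r) {a : ℤ} {h n : ℕ}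
    (hh : h ≤ (level (kids ω) r).length) {F : Set Arr} (hd : ColDep h n F) :
    uarr ω r a ∈ F ↔ uarrT (LabelLaw.un ω) r a ∈ F := by
  have hk : kids (ofT (LabelLaw.un ω)) = kids ω := by
    funext v
    exact LabelLaw.un_fst ω v
  have hag := fun t => agree (ω := ofT (LabelLaw.un ω)) (ω' := ω) (r := r) (t := t)
    (by rw [hk]) (fun v _ _ => by rw [hk])
  have hh' : h ≤ uZ ω r 0 := hh
  have hD := DD_width (ω := ω) (n := n) (a := a) hh' (uarr ω r a) (by
    intro t ht hZ x hx0 hx1
    rfl)
  apply colDep_iff (by omega) hd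
  intro t ht x hx0 hx1
  rw [hD t ht.le] at hx1
  have hw := width_le hh' t a
  have hZ : 0 < uZ ω r t := by omega
  have hlen := length_of_mem_level (uvert_mem' hZ (x + uD ω r t a))
  obtain ⟨_, h2, _, h4⟩ := hag t
  show unode ω (uvert ω r (t, x + uD ω r t a)) =
    LabelLaw.un ω (uvert (ofT (LabelLaw.un ω)) r (t, x + uD (ofT (LabelLaw.un ω)) r t a))
  rw [h2 t le_rfl, h4 t le_rfl, LabelLaw.un_eq]
  intro h0
  rw [h0] at hlen
  simp at hlen
  omega

theorem measurable_ofT : Measurable ofT := by
  unfold ofT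
  rw [measurable_pi_iff]
  intro v
  exact (measurable_fst.comp (measurable_pi_apply v)).prodMk measurable_const

theorem measurable_tauA : Measurable tauA := by
  unfold tauA
  fun_prop

theorem measurable_uarrT (r : ℕ) (a : ℤ) : Measurable (fun τ : Vert → Nd => uarrT τ r a) := by
  rw [measurable_pi_iff]
  intro t
  rw [measurable_pi_iff]
  intro x
  have h1 : Measurable (fun q : Vert × (Vert → Nd) => q.2 q.1) :=
    measurable_from_prod_countable_right fun v => measurable_pi_apply v
  exact h1.comp (((measurable_uvertD r t a x).comp measurable_ofT).prodMk measurable_id)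

/-- The main computation. -/
theorem main {α : ℝ} (h0 : 0 ≤ α) (h1 : α < 1) {r : ℕ} {K0 : Vert → ℕ} {a : ℤ} {h n : ℕ}
    {F : Set Arr} (hr : 1 ≤ r) (hh : h ≤ (level K0 r).length) (hF : MeasurableSet F)
    (hd : ColDep h n F) :
    law α {ω | level (kids ω) r = level K0 r ∧ uarr ω r a ∈ F} =
      arrLaw α {A | level (kids (ofT (tauA A))) r = level K0 r} * arrLaw α F := by
  have hprob := Adapted.arr_prob h0 h1
  let S : Set (Vert → Nd) := {τ | level (kids (ofT τ)) r = level K0 r ∧ uarrT τ r a ∈ F}
  have hlev : MeasurableSet {τ : Vert → Nd | level (kids (ofT τ)) r = level K0 r} :=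
    ((measurable_level r).comp measurable_ofT)
      (MeasurableSpace.measurableSet_top (s := {l : List Vert | l = level K0 r}))
  have hS : MeasurableSet S := hlev.inter ((measurable_uarrT r a) hF)
  have e1 : {ω : Conf | level (kids ω) r = level K0 r ∧ uarr ω r a ∈ F} =
      LabelLaw.un ⁻¹' S := by
    ext ω
    have hk : kids (ofT (LabelLaw.un ω)) = kids ω := by
      funext v
      exact LabelLaw.un_fst ω v
    show (level (kids ω) r = level K0 r ∧ uarr ω r a ∈ F) ↔
      (level (kids (ofT (LabelLaw.un ω))) r = level K0 r ∧ uarrT (LabelLaw.un ω) r a ∈ F)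
    rw [hk]
    refine and_congr_right fun hl => ?_
    exact uarr_iff hr (by rw [hl]; exact hh) hd
  rw [e1, ← Measure.map_apply LabelLaw.measurable_un hS, LabelLaw.map_un h0 h1, ← law_tau h0 h1,
    Measure.map_apply measurable_tauA hS]
  have e2 : tauA ⁻¹' S = {A | level (kids (ofT (tauA A))) r = level K0 r ∧
      Phi' K0 r a (post r A) ∈ F} := by
    ext A
    show (level (kids (ofT (tauA A))) r = level K0 r ∧ uarrT (tauA A) r a ∈ F) ↔ _
    exact and_congr_right fun hl => uarrT_iff hl hh hd
  rw [e2]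
  have hlevA : MeasurableSet {A : Arr | level (kids (ofT (tauA A))) r = level K0 r} :=
    measurable_tauA hlev
  have hPhi : MeasurableSet {η : Arr | Phi' K0 r a η ∈ F} := measurable_Phi' K0 r a hF
  let f : Arr → Arr → ENNReal := fun A η =>
    ({A : Arr | level (kids (ofT (tauA A))) r = level K0 r}).indicator 1 A *
      ({η : Arr | Phi' K0 r a η ∈ F}).indicator 1 η
  have hpost : Measurable (post r) := by
    unfold post
    fun_prop
  have h2 := split α h0 h1 r f (by
      have m1 : Measurable (({A : Arr | level (kids (ofT (tauA A))) r = level K0 r}).indicator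
        (1 : Arr → ENNReal)) := measurable_one.indicator hlevA
      have m2 : Measurable (({η : Arr | Phi' K0 r a η ∈ F}).indicator (1 : Arr → ENNReal)) :=
        measurable_one.indicator hPhi
      exact (m1.comp measurable_fst).mul (m2.comp measurable_snd)) (by
      intro A A' η hA
      have : level (kids (ofT (tauA A))) r = level (kids (ofT (tauA A'))) r := by
        apply level_congr
        intro v hv
        show (A v.length (enc v)).1 = (A' v.length (enc v)).1
        rw [hA _ hv]
      have h3 : ({A : Arr | level (kids (ofT (tauA A))) r = level K0 r}).indicator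
          (1 : Arr → ENNReal) A = ({A : Arr | level (kids (ofT (tauA A))) r =
            level K0 r}).indicator (1 : Arr → ENNReal) A' := by
        unfold Set.indicator
        simp only [mem_ofPred_eq, this, Pi.one_apply]
      show _ * _ = _ * _
      rw [h3])
  have h4 : ∫⁻ A, f A (post r A) ∂arrLaw α = arrLaw α {A | level (kids (ofT (tauA A))) r =
      level K0 r ∧ Phi' K0 r a (post r A) ∈ F} := by
    have e3 : {A : Arr | level (kids (ofT (tauA A))) r = level K0 r ∧
        Phi' K0 r a (post r A) ∈ F} = {A : Arr | level (kids (ofT (tauA A))) r = level K0 r} ∩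
          (post r ⁻¹' {η : Arr | Phi' K0 r a η ∈ F}) := rfl
    rw [e3, ← lintegral_indicator_one (hlevA.inter (hpost hPhi))]
    apply lintegral_congr
    intro A
    show ({A : Arr | level (kids (ofT (tauA A))) r = level K0 r}).indicator 1 A *
      ({η : Arr | Phi' K0 r a η ∈ F}).indicator 1 (post r A) = _
    rw [Set.inter_indicator_one]
    rfl
  rw [← h4, h2]
  have h5 : ∀ A : Arr, ∫⁻ η, f A η ∂arrLaw α =
      ({A : Arr | level (kids (ofT (tauA A))) r = level K0 r}).indicator 1 A * arrLaw α F := by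
    intro A
    rw [lintegral_const_mul _ (measurable_one.indicator hPhi), lintegral_indicator_one hPhi,
      law_Phi h0 h1 hh hF hd]
  rw [lintegral_congr h5, lintegral_mul_const _ (measurable_one.indicator hlevA),
    lintegral_indicator_one hlevA]

end WindowLaw

open WindowLaw in
theorem windowLaw : WindowLawStmt := by
  intro α hα0 hα1 r L a h n F hr hh hF hd
  have hprob := Adapted.arr_prob hα0.le hα1
  by_cases hex : ∃ ω0 : Conf, level (kids ω0) r = L
  · obtain ⟨ω0, rfl⟩ := hex
    have e1 := main hα0.le hα1 (a := a) hr hh hF hd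
    have e2 := main hα0.le hα1 (a := a) (n := n) hr hh MeasurableSet.univ
      (fun _ _ _ _ => mem_univ _)
    rw [measure_univ, mul_one] at e2
    rw [e1, ← e2]
    congr 2
    ext ω
    simp
  · have e1 : {ω : Conf | level (kids ω) r = L ∧ uarr ω r a ∈ F} = ∅ := by
      ext ω
      simp only [mem_ofPred_eq, mem_empty_iff_false, iff_false, not_and]
      intro h
      exact absurd ⟨ω, h⟩ hex
    have e2 : {ω : Conf | level (kids ω) r = L} = ∅ := by
      ext ω
      simp only [mem_ofPred_eq, mem_empty_iff_false, iff_false]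
      intro h
      exact hex ⟨ω, h⟩
    rw [e1, e2]
    simp

end CausalPerc.Neg
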