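import Pool.Agent.Lib.MP_a51368_pr.Neg.MainN
import Pool.Agent.Lib.MP_a51368_pr.Neg.Parity
import Pool.Agent.Lib.MP_a51368_pr.Neg.Block
import Pool.Agent.Lib.MP_a51368_pr.Neg.DPath
import Pool.Agent.Lib.MP_a51368_pr.Neg.Duality
import Pool.Agent.Lib.MP_a51368_pr.Neg.Chain
import Pool.Agent.Lib.MP_a51368_pr.Neg.Recentre
import Pool.Agent.Lib.MP_a51368_pr.Neg.ColDep
import Pool.Agent.Lib.MP_a51368_pr.Neg.Meas
import Pool.Agent.Lib.MP_a51368_pr.Neg.Adapted
import Pool.Agent.Lib.MP_a51368_pr.Neg.Indep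
import Pool.Agent.Lib.MP_a51368_pr.Neg.WidthMom
import Pool.Agent.Lib.MP_a51368_pr.Neg.Width
import Pool.Agent.Lib.MP_a51368_pr.Neg.Exit
import Pool.Agent.Lib.MP_a51368_pr.Neg.Edge
import Pool.Agent.Lib.MP_a51368_pr.Neg.EdgeDom
import Pool.Agent.Lib.MP_a51368_pr.Neg.Kap
import Pool.Agent.Lib.MP_a51368_pr.Neg.Gain
import Pool.Agent.Lib.MP_a51368_pr.Neg.Renew
import Pool.Agent.Lib.MP_a51368_pr.Neg.RenewSeq
import Pool.Agent.Lib.MP_a51368_pr.Neg.UTail
import Pool.Agent.Lib.MP_a51368_pr.Neg.Barrier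
import Pool.Agent.Lib.MP_a51368_pr.Neg.FiniteCrit
import Pool.Agent.Lib.MP_a51368_pr.Neg.CritOpen
import Pool.Agent.Lib.MP_a51368_pr.Neg.CritExtinct
import Pool.Agent.Lib.MP_a51368_pr.Neg.Mono
import Pool.Agent.Lib.MP_a51368_pr.Neg.R1
import Pool.Agent.Lib.MP_a51368_pr.Neg.R2
import Pool.Agent.Lib.MP_a51368_pr.Neg.SuperPoly
import Pool.Agent.Lib.MP_a51368_pr.Neg.Scale
import Pool.Agent.Lib.MP_a51368_pr.Neg.Cont
import Pool.Agent.Lib.MP_a51368_pr.Neg.Transfer
import Pool.Agent.Lib.MP_a51368_pr.Neg.Slab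
import Pool.Agent.Lib.MP_a51368_pr.Neg.SlabRec
import Pool.Agent.Lib.MP_a51368_pr.Neg.Unroll
import Pool.Agent.Lib.MP_a51368_pr.Neg.WindowLaw
import Pool.Agent.Lib.MP_a51368_pr.Neg.Growth
import Pool.Agent.Lib.MP_a51368_pr.Neg.ThetaZero
import Pool.Agent.Lib.MP_a51368_pr.Neg.HasInfN
import Pool.Agent.Lib.MP_a51368_pr.Neg.TwoInfN

/-!
# Assembly of the negative answer
-/

open MeasureTheory Set

namespace CausalPerc.Neg

/-- For `α` slightly above `1/2` the number of infinite clusters is `1` at every `p > pc α`. -/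
theorem near_critical :
    ∃ α₀ : ℝ, 1 / 2 < α₀ ∧ ∀ α : ℝ, 1 / 2 < α → α < α₀ → α < 1 ∧ 0 < pc α ∧ pc α < 1 ∧
      ∀ p, pc α < p → p ≤ 1 → condLaw α {ω | numInf p ω = 1} = 1 := by
  have hP : ParityStmt := parity
  have hBl : BlockStmt := block hP
  have hCo : ConfineStmt := confine hP
  have hSe : SeparateStmt := separate hP
  have hDF : DFirstStmt := dfirst
  have hDL : DLastStmt := dlast
  have hDu : DualityStmt := duality hP
  have hCh : ChainStmt := chain hDu
  have hRc : RecentreStmt := recentreS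
  have hSS : StripShiftStmt := stripShift
  have hCD : ColDepStmt := colDep
  have hMe : MeasStmt := meas
  have hAd : AdaptedStmt := adapted
  have hCs : CshiftStmt := cshift_law hAd
  have hCI : ColIndepStmt := colIndep hAd
  have hSp : SplitStmt := split
  have hWM : WidthMomStmt := widthMom
  have hW : WidthStmt := width
  have hX : ExitStmt := exitB hSp hCs
  have hE : EdgeStmt := edge hMe hSS hRc hCs hCI hSp hWM hW
  have hED : EdgeDomStmt := edgeDom hMe hSS hRc hCs hCI hSp hWM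
  have hK : KapStmt := kapS hE
  have hG : GainStmt := gain hE hCs hRc hSS hWM hSp hCD
  have hRen : RenewStmt := renew hE hSp hW hWM hCs
  have hRS : RenewSeqStmt := renewSeq
  have hUT : UTailStmt := uTail hSe hDF hE
  have hB : BarrierStmt := barrier hE hED hX hW hCs hRc hSS hMe
  have hF : FiniteCritStmt := finiteCrit hE hCs hRc hSS hWM hSp hCD
  have hO : CritOpenStmt := critOpen
  have hXt : CritExtinctStmt := critExtinct hCs hRc hSS hSp hCD
  have hM : MonoStmt := mono hDF hMe hCD hSS hRc hCI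
  have hR1 : R1Stmt := r1 hCh
  have hR2 : R2Stmt := r2 hCo hDF hDL hMe hCD hSS hRc hCs hCI hSp
  have hSP : SuperPolyStmt := superPoly hR2 hW hM
  have hSc : ScaleStmt := scale hR1 hR2 hW
  have hC : ContStmt := cont hCo
  have hT : TransferStmt := transfer hSp hW hCo hCD hMe hSS hRc hCs hM
  have hSl : SlabStmt := slab hW hWM hCh hM hRc hSS hCD hMe hCs hCI hSp
  have hSR : SlabRecStmt := slabRec hBl hCo hDL hDF hRc hSS hCI hSp hCs hWM
  have hU : UnrollStmt := unroll
  have hWL : WindowLawStmt := windowLaw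
  have hGr : GrowthStmt := growth
  have hTI : TwoInfStmt := twoInfN hU hWL hGr hDu hCo hMe hSS hRc hCD hCI hCs
  have hTZ : ThetaZeroStmt := thetaZero hU hWL hGr hX hSS hRc hMe hCs
  have hHI : HasInfStmt := hasInfN hU hWL hGr hMe hSS hRc hCI hCD
  exact neg_main hE hF hO hXt hK hG hRen hRS hUT hB hM hSP hSc hC hT hSl hSR hTI hTZ hHI

end CausalPerc.Neg
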