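import Pool.Agent.Lib.MP_a51368_pr.Neg.Defs

open Set Relation

namespace CausalPerc.Neg

namespace Strip

variable (E : Strip)

theorem S_mono (t : ℕ) {x y : ℤ} (h : x ≤ y) : E.S t x ≤ E.S t y := by
  obtain ⟨k, rfl⟩ := Int.le.dest h
  induction k with
  | zero => simp
  | succ k ih =>
    have h1 := E.mono' t (x + k)
    have h2 := ih (by omega)
    push_cast
    rw [← add_assoc]
    exact h2.trans h1

theorem D_mono (t : ℕ) {a b : ℤ} (h : a ≤ b) : E.D t a ≤ E.D t b := by
  induction t with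
  | zero => exact h
  | succ t ih => exact E.S_mono t ih

theorem shift_zero : E.shift 0 = E := by
  cases E
  simp [shift]

theorem shift_shift (s t : ℕ) : (E.shift s).shift t = E.shift (s + t) := by
  cases E
  simp [shift, add_assoc]

theorem D_shift (s t : ℕ) (a : ℤ) : (E.shift s).D t (E.D s a) = E.D (s + t) a := by
  induction t with
  | zero => rfl
  | succ t ih =>
    show (E.shift s).S t ((E.shift s).D t (E.D s a)) = E.S (s + t) (E.D (s + t) a)
    rw [ih]
    rfl

theorem mem_col {a b : ℤ} {v : ℕ × ℤ} : v ∈ E.col a b ↔ E.D v.1 a ≤ v.2 ∧ v.2 < E.D v.1 b :=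
  Iff.rfl

theorem col_mono {a b a' b' : ℤ} (h1 : a' ≤ a) (h2 : b ≤ b') : E.col a b ⊆ E.col a' b' :=
  fun v hv => ⟨(E.D_mono v.1 h1).trans hv.1, hv.2.trans_le (E.D_mono v.1 h2)⟩

theorem mem_col_shift {a b : ℤ} {s t : ℕ} {x : ℤ} :
    (t, x) ∈ (E.shift s).col (E.D s a) (E.D s b) ↔ (s + t, x) ∈ E.col a b := by
  simp only [mem_col, D_shift]

/-! ### Vertical edges of a layer are linearly ordered -/

theorem isV_comparable {t : ℕ} {x y x' y' : ℤ} (h : E.IsV t x y) (h' : E.IsV t x' y') :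
    (x ≤ x' ∧ y ≤ y') ∨ (x' ≤ x ∧ y' ≤ y) := by
  rcases lt_trichotomy x x' with hlt | rfl | hlt
  · left
    exact ⟨hlt.le, h.2.trans ((E.S_mono t (by omega)).trans h'.1)⟩
  · rcases le_total y y' with h1 | h1
    · exact Or.inl ⟨le_rfl, h1⟩
    · exact Or.inr ⟨le_rfl, h1⟩
  · right
    exact ⟨hlt.le, h'.2.trans ((E.S_mono t (by omega)).trans h.1)⟩

theorem isV_nx {t : ℕ} {x y : ℤ} (h : E.IsV t x y) :
    E.IsV t (E.nx t (x, y)).1 (E.nx t (x, y)).2 := by
  unfold nx
  have h1 := E.mono' t (x + 1)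
  obtain ⟨h2, h3⟩ := h
  split_ifs with h4
  · simp only at h4 ⊢
    exact ⟨by omega, by omega⟩
  · simp only at h4 ⊢
    exact ⟨by omega, by omega⟩

theorem nx_sum (t : ℕ) (q : ℤ × ℤ) : (E.nx t q).1 + (E.nx t q).2 = q.1 + q.2 + 1 := by
  unfold nx
  split_ifs <;> simp only <;> ring

theorem nx_le (t : ℕ) (q : ℤ × ℤ) : q.1 ≤ (E.nx t q).1 ∧ q.2 ≤ (E.nx t q).2 := by
  unfold nx
  split_ifs <;> constructor <;> simp

theorem isV_B (t : ℕ) (x : ℤ) : E.IsV t x (E.S t (x + 1)) := ⟨E.mono' t x, le_rfl⟩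

/-! ### Steps -/

variable {E}
variable {n m : ℕ} {R R' : Set (ℕ × ℤ)} {u v w : ℕ × ℤ}

theorem Up1.mono (h : n ≤ m) (hs : E.Up1 n u v) : E.Up1 m u v := by
  cases hs with
  | mk t x y h1 h2 h3 => exact .mk t x y (h1.trans_le h) h2 h3

theorem Hor1.mono (h : n ≤ m) (hs : E.Hor1 n u v) : E.Hor1 m u v := by
  cases hs with
  | mk t x h1 h2 => exact .mk t x (h1.trans_le h) h2

theorem Step.mono (h : n ≤ m) (hR : R ⊆ R') (hs : E.Step n R u v) : E.Step m R' u v := by
  obtain ⟨h1, h2, h3⟩ := hs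
  refine ⟨hR h1, hR h2, ?_⟩
  rcases h3 with h3 | h3 | h3 | h3
  · exact Or.inl (h3.mono h)
  · exact Or.inr (Or.inl (h3.mono h))
  · exact Or.inr (Or.inr (Or.inl (h3.mono h)))
  · exact Or.inr (Or.inr (Or.inr (h3.mono h)))

theorem Step.symm (hs : E.Step n R u v) : E.Step n R v u := by
  obtain ⟨h1, h2, h3⟩ := hs
  refine ⟨h2, h1, ?_⟩
  rcases h3 with h3 | h3 | h3 | h3
  · exact Or.inr (Or.inl h3)
  · exact Or.inl h3
  · exact Or.inr (Or.inr (Or.inr h3))
  · exact Or.inr (Or.inr (Or.inl h3))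

theorem OStep.step (hs : E.OStep n R u v) : E.Step n R u v := by
  obtain ⟨h1, h2, h3⟩ := hs
  refine ⟨h1, h2, ?_⟩
  rcases h3 with h3 | h3 | h3
  · exact Or.inl h3
  · exact Or.inr (Or.inr (Or.inl h3))
  · exact Or.inr (Or.inr (Or.inr h3))

theorem Conn.mono (h : n ≤ m) (hR : R ⊆ R') (hs : E.Conn n R u v) : E.Conn m R' u v :=
  ReflTransGen.mono (fun _ _ hab => Step.mono h hR hab) u v hs

theorem Conn.symm (hs : E.Conn n R u v) : E.Conn n R v u := by
  induction hs with
  | refl => exact .refl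
  | tail _ hbc ih => exact ReflTransGen.head hbc.symm ih

theorem Conn.trans (h1 : E.Conn n R u v) (h2 : E.Conn n R v w) : E.Conn n R u w :=
  ReflTransGen.trans h1 h2

theorem OConn.conn (hs : E.OConn n R u v) : E.Conn n R u v :=
  ReflTransGen.mono (fun _ _ hab => OStep.step hab) u v hs

theorem OStep.mono (h : n ≤ m) (hR : R ⊆ R') (hs : E.OStep n R u v) : E.OStep m R' u v := by
  obtain ⟨h1, h2, h3⟩ := hs
  refine ⟨hR h1, hR h2, ?_⟩
  rcases h3 with h3 | h3 | h3
  · exact Or.inl (h3.mono h)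
  · exact Or.inr (Or.inl (h3.mono h))
  · exact Or.inr (Or.inr (h3.mono h))

theorem OConn.mono (h : n ≤ m) (hR : R ⊆ R') (hs : E.OConn n R u v) : E.OConn m R' u v :=
  ReflTransGen.mono (fun _ _ hab => OStep.mono h hR hab) u v hs

theorem Step.levels (hs : E.Step n R u v) :
    u.1 ≤ n ∧ v.1 ≤ n ∧ v.1 ≤ u.1 + 1 ∧ u.1 ≤ v.1 + 1 := by
  obtain ⟨_, _, h3⟩ := hs
  rcases h3 with h | h | h | h <;> cases h <;> simp only <;> omega

theorem Conn.level_le (hs : E.Conn n R u v) (hu : u.1 ≤ n) : v.1 ≤ n := by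
  induction hs with
  | refl => exact hu
  | tail _ hbc _ => exact hbc.levels.2.1

/-- Walks in the shifted strip are walks of the strip. -/
theorem Conn.of_shift {s : ℕ} (hR : ∀ v ∈ R', (s + v.1, v.2) ∈ R)
    (hs : (E.shift s).Conn n R' u v) : E.Conn (s + n) R (s + u.1, u.2) (s + v.1, v.2) := by
  induction hs with
  | refl => exact .refl
  | tail _ hbc ih =>
    refine ih.tail ?_
    obtain ⟨h1, h2, h3⟩ := hbc
    refine ⟨hR _ h1, hR _ h2, ?_⟩
    rcases h3 with h | h | h | h
    · cases h with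
      | mk t x y ht hv ho => exact Or.inl (.mk (s + t) x y (by omega) hv ho)
    · cases h with
      | mk t x y ht hv ho => exact Or.inr (Or.inl (.mk (s + t) x y (by omega) hv ho))
    · cases h with
      | mk t x ht ho => exact Or.inr (Or.inr (Or.inl (.mk (s + t) x (by omega) ho)))
    · cases h with
      | mk t x ht ho => exact Or.inr (Or.inr (Or.inr (.mk (s + t) x (by omega) ho)))

/-- Walks that stay at levels `≥ s` are walks of the shifted strip. -/
theorem Conn.to_shift {s : ℕ} (hR : ∀ v ∈ R, s ≤ v.1) (hR' : ∀ v ∈ R, (v.1 - s, v.2) ∈ R')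
    (hs : E.Conn (s + n) R u v) : (E.shift s).Conn n R' (u.1 - s, u.2) (v.1 - s, v.2) := by
  induction hs with
  | refl => exact .refl
  | tail _ hbc ih =>
    refine ih.tail ?_
    obtain ⟨h1, h2, h3⟩ := hbc
    refine ⟨hR' _ h1, hR' _ h2, ?_⟩
    rcases h3 with h | h | h | h
    · cases h with
      | mk t x y ht hv ho =>
        have h4 := hR _ h1
        simp only at h4
        obtain ⟨k, rfl⟩ := Nat.exists_eq_add_of_le h4
        left
        have h5 : s + k - s = k := by omega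
        have h6 : s + k + 1 - s = k + 1 := by omega
        simp only [h5, h6]
        exact .mk k x y (by omega) hv ho
    · cases h with
      | mk t x y ht hv ho =>
        have h4 := hR _ h2
        simp only at h4
        obtain ⟨k, rfl⟩ := Nat.exists_eq_add_of_le h4
        right; left
        have h5 : s + k - s = k := by omega
        have h6 : s + k + 1 - s = k + 1 := by omega
        simp only [h5, h6]
        exact .mk k x y (by omega) hv ho
    · cases h with
      | mk t x ht ho =>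
        have h4 := hR _ h1
        simp only at h4
        obtain ⟨k, rfl⟩ := Nat.exists_eq_add_of_le h4
        right; right; left
        have h5 : s + k - s = k := by omega
        simp only [h5]
        exact .mk k x (by omega) ho
    · cases h with
      | mk t x ht ho =>
        have h4 := hR _ h1
        simp only at h4
        obtain ⟨k, rfl⟩ := Nat.exists_eq_add_of_le h4
        right; right; right
        have h5 : s + k - s = k := by omega
        simp only [h5]
        exact .mk k x (by omega) ho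

/-- First visit of level `s`. -/
theorem Conn.first_hit {s : ℕ} (hs : E.Conn n R u v) (h1 : u.1 ≤ s) (h2 : s ≤ v.1) :
    ∃ y, E.Conn s R u (s, y) ∧ E.Conn n R (s, y) v := by
  induction hs using ReflTransGen.head_induction_on with
  | refl =>
    have : v.1 = s := le_antisymm h1 h2
    refine ⟨v.2, ?_, ?_⟩
    · rw [← this]; exact .refl
    · rw [← this]; exact .refl
  | head hab hbc ih =>
    rename_i a b
    rcases h1.eq_or_lt with h3 | h3
    · refine ⟨a.2, ?_, ?_⟩
      · rw [← h3]; exact .refl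
      · rw [← h3]; exact ReflTransGen.head hab hbc
    · have h4 := hab.levels
      obtain ⟨y, h5, h6⟩ := ih (by omega)
      refine ⟨y, ReflTransGen.head ?_ h5, h6⟩
      obtain ⟨h7, h8, h9⟩ := hab
      refine ⟨h7, h8, ?_⟩
      rcases h9 with h | h | h | h
      · cases h with
        | mk t x y ht hv ho => exact Or.inl (.mk t x y (by simpa using h3) hv ho)
      · cases h with
        | mk t x y ht hv ho =>
          exact Or.inr (Or.inl (.mk t x y (by simp only at h3; omega) hv ho))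
      · cases h with
        | mk t x ht ho => exact Or.inr (Or.inr (Or.inl (.mk t x (by simpa using h3) ho)))
      · cases h with
        | mk t x ht ho => exact Or.inr (Or.inr (Or.inr (.mk t x (by simpa using h3) ho)))

/-- Last visit of level `s`: afterwards the walk stays at levels `≥ s`. -/
theorem Conn.last_exit {s : ℕ} (hs : E.Conn n R u v) (h1 : u.1 ≤ s) (h2 : s ≤ v.1) :
    ∃ x, E.Conn n R u (s, x) ∧ E.Conn n (R ∩ {w | s ≤ w.1}) (s, x) v := by
  induction hs with
  | refl =>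
    have : u.1 = s := le_antisymm h1 h2
    refine ⟨u.2, ?_, ?_⟩
    · rw [← this]; exact .refl
    · rw [← this]; exact .refl
  | tail hab hbc ih =>
    rename_i b c
    have h4 := hbc.levels
    rcases h2.eq_or_lt with h3 | h3
    · refine ⟨c.2, ?_, ?_⟩
      · rw [h3]; exact hab.tail hbc
      · rw [h3]; exact .refl
    · obtain ⟨x, h5, h6⟩ := ih (by omega)
      refine ⟨x, h5, h6.tail ?_⟩
      obtain ⟨h7, h8, h9⟩ := hbc
      exact ⟨⟨h7, by simp only [mem_ofPred_eq]; omega⟩, ⟨h8, by simp only [mem_ofPred_eq]; omega⟩, h9⟩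

/-- A walk in a column from level `≤ s` to level `≥ s + m` contains a walk of the slab
`[s, s+m)`. -/
theorem Conn.subslab {s m : ℕ} {a b : ℤ} (hs : E.Conn n (E.col a b) u v) (h1 : u.1 ≤ s)
    (h2 : s + m ≤ v.1) (hu : u ∈ E.col a b) :
    ∃ x y, E.Conn n (E.col a b) u (s, x) ∧ E.Conn n (E.col a b) (s + m, y) v ∧
      E.D s a ≤ x ∧ x < E.D s b ∧
      (E.shift s).Conn m ((E.shift s).col (E.D s a) (E.D s b)) (0, x) (m, y) := by
  obtain ⟨x, h3, h4⟩ := hs.last_exit h1 (by omega)
  have hx : (s, x) ∈ E.col a b := by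
    rcases ReflTransGen.cases_tail h3 with h | ⟨c, _, h⟩
    · rw [h]; exact hu
    · exact h.2.1
  obtain ⟨y, h5, h6⟩ := Conn.first_hit h4 (by simp : (s, x).1 ≤ s + m) h2
  refine ⟨x, y, h3, Conn.mono le_rfl inter_subset_left h6, hx.1, hx.2, ?_⟩
  have h7 := Conn.to_shift (s := s) (n := m) (R := E.col a b ∩ {w | s ≤ w.1})
    (R' := (E.shift s).col (E.D s a) (E.D s b)) (fun v hv => hv.2) ?_ h5
  · simpa using h7
  · rintro ⟨t, z⟩ ⟨hv1, hv2⟩
    simp only [mem_ofPred_eq] at hv2
    rw [mem_col_shift]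
    have : s + (t - s) = t := by omega
    simpa [this] using hv1

theorem CrossFrom.mono {A A' : Set ℤ} {a b : ℤ} (hA : A ⊆ A') (h : E.CrossFrom A a b n) :
    E.CrossFrom A' a b n := by
  obtain ⟨x, y, h1, h2, h3, h4⟩ := h
  exact ⟨x, y, hA h1, h2, h3, h4⟩

theorem CrossFrom.cross {A : Set ℤ} {a b : ℤ} (h : E.CrossFrom A a b n) : E.Cross a b n :=
  h.mono (subset_univ A)

theorem Cross.anti {a b : ℤ} (hm : m ≤ n) (h : E.Cross a b n) : E.Cross a b m := by
  obtain ⟨x, y, h1, h2, h3, h4⟩ := h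
  obtain ⟨z, h5, _⟩ := h4.first_hit (Nat.zero_le m) hm
  exact ⟨x, z, h1, h2, h3, h5⟩

theorem Cross.mono {a b a' b' : ℤ} (ha : a' ≤ a) (hb : b ≤ b') (h : E.Cross a b n) :
    E.Cross a' b' n := by
  obtain ⟨x, y, h1, h2, h3, h4⟩ := h
  exact ⟨x, y, h1, by omega, by omega, h4.mono le_rfl (E.col_mono ha hb)⟩

theorem OCross.cross {a b : ℤ} (h : E.OCross a b n) : E.Cross a b n := by
  obtain ⟨x, y, h1, h2, h3⟩ := h
  exact ⟨x, y, mem_univ x, h1, h2, h3.conn⟩

end Strip

end CausalPerc.Neg
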