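import Pool.Agent.Lib.MP_a51368_pr.Model

/-!
# Causal triangulations near the critical parameter: strips (deterministic definitions)

A strip has levels `0, 1, 2, …`, every level is `ℤ`.  The upper neighbours of the vertex `(t,x)` are
`(t+1,y)` with `S t x ≤ y ≤ S t (x+1)`, its horizontal neighbours are `(t,x-1)` and `(t,x+1)`.
Conventions: everything concerning the slab of height `n` uses the vertical edges of the layers
`0, …, n-1` and the horizontal edges of the levels `0, …, n-1` (NOT of level `n`).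
-/

open Set

namespace CausalPerc.Neg

/-- A strip: `S t x` is the leftmost upper neighbour of `(t,x)`; `vo t x y`: the vertical edge
`(t,x) - (t+1,y)` is open; `ho t x`: the horizontal edge `(t,x) - (t,x+1)` is open. -/
structure Strip where
  S : ℕ → ℤ → ℤ
  vo : ℕ → ℤ → ℤ → Prop
  ho : ℕ → ℤ → Prop
  mono' : ∀ t x, S t x ≤ S t (x + 1)

namespace Strip

variable (E : Strip)

/-- There is a vertical edge from `(t,x)` to `(t+1,y)`. -/
def IsV (t : ℕ) (x y : ℤ) : Prop := E.S t x ≤ y ∧ y ≤ E.S t (x + 1)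

/-- Forget the first `s` levels. -/
def shift (s : ℕ) : Strip where
  S t x := E.S (s + t) x
  vo t x y := E.vo (s + t) x y
  ho t x := E.ho (s + t) x
  mono' t x := E.mono' (s + t) x

/-- The line of `a`: position at level `t` of the leftmost line of descent of `a`. -/
def D : ℕ → ℤ → ℤ
  | 0, a => a
  | t + 1, a => E.S t (D t a)

/-- The same strip, seen from the line of `a`. -/
def recentre (a : ℤ) : Strip where
  S t x := E.S t (x + E.D t a) - E.D (t + 1) a
  vo t x y := E.vo t (x + E.D t a) (y + E.D (t + 1) a)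
  ho t x := E.ho t (x + E.D t a)
  mono' t x := by
    have h := E.mono' t (x + E.D t a)
    have h2 : x + E.D t a + 1 = x + 1 + E.D t a := by ring
    rw [h2] at h
    linarith

/-- Open vertical edges of the slab of height `n`, directed upwards. -/
inductive Up1 (n : ℕ) : ℕ × ℤ → ℕ × ℤ → Prop
  | mk (t : ℕ) (x y : ℤ) : t < n → E.IsV t x y → E.vo t x y → Up1 n (t, x) (t + 1, y)

/-- Open horizontal edges of the slab of height `n`, directed to the right. -/
inductive Hor1 (n : ℕ) : ℕ × ℤ → ℕ × ℤ → Prop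
  | mk (t : ℕ) (x : ℤ) : t < n → E.ho t x → Hor1 n (t, x) (t, x + 1)

/-- One step of an open walk in the region `R` and in the slab of height `n`. -/
def Step (n : ℕ) (R : Set (ℕ × ℤ)) (u v : ℕ × ℤ) : Prop :=
  u ∈ R ∧ v ∈ R ∧ (E.Up1 n u v ∨ E.Up1 n v u ∨ E.Hor1 n u v ∨ E.Hor1 n v u)

/-- Connection by an open walk in the region `R` and in the slab of height `n`. -/
def Conn (n : ℕ) (R : Set (ℕ × ℤ)) : ℕ × ℤ → ℕ × ℤ → Prop :=
  Relation.ReflTransGen (E.Step n R)

/-- One step of an oriented open walk (vertical edges only upwards). -/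
def OStep (n : ℕ) (R : Set (ℕ × ℤ)) (u v : ℕ × ℤ) : Prop :=
  u ∈ R ∧ v ∈ R ∧ (E.Up1 n u v ∨ E.Hor1 n u v ∨ E.Hor1 n v u)

/-- Connection by an oriented open walk. -/
def OConn (n : ℕ) (R : Set (ℕ × ℤ)) : ℕ × ℤ → ℕ × ℤ → Prop :=
  Relation.ReflTransGen (E.OStep n R)

/-- The column of the interval `[a,b)` of level `0`. -/
def col (a b : ℤ) : Set (ℕ × ℤ) := {v | E.D v.1 a ≤ v.2 ∧ v.2 < E.D v.1 b}

/-- Open crossing of the column of `[a,b)` from the set `A` at level `0` to level `n`. -/
def CrossFrom (A : Set ℤ) (a b : ℤ) (n : ℕ) : Prop :=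
  ∃ x y, x ∈ A ∧ a ≤ x ∧ x < b ∧ E.Conn n (E.col a b) (0, x) (n, y)

/-- Open crossing of the column of `[a,b)` from level `0` to level `n`. -/
def Cross (a b : ℤ) (n : ℕ) : Prop := E.CrossFrom univ a b n

/-- Oriented open crossing of the column of `[a,b)` from level `0` to level `n`. -/
def OCross (a b : ℤ) (n : ℕ) : Prop :=
  ∃ x y, a ≤ x ∧ x < b ∧ E.OConn n (E.col a b) (0, x) (n, y)

/-- Triangles are coded by their left vertical edge: `(t,x,y)` is the triangle of layer `t` just to
the right of the vertical edge `(t,x) - (t+1,y)`. -/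
abbrev Tri := ℕ × ℤ × ℤ

/-- The vertical edge just to the right of the vertical edge `q` in layer `t`. -/
def nx (t : ℕ) (q : ℤ × ℤ) : ℤ × ℤ :=
  if q.2 < E.S t (q.1 + 1) then (q.1, q.2 + 1) else (q.1 + 1, q.2)

/-- Adjacency of triangles across a closed edge, in the slab of height `n`, directed to the right or
upwards. -/
inductive DStep1 (n : ℕ) : Tri → Tri → Prop
  | side (t : ℕ) (x y : ℤ) : t < n → E.IsV t x y →
      ¬ E.vo t (E.nx t (x, y)).1 (E.nx t (x, y)).2 → DStep1 n (t, x, y) (t, E.nx t (x, y))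
  | up (t : ℕ) (x y : ℤ) : t + 1 < n → E.IsV t x y → y < E.S t (x + 1) → ¬ E.ho (t + 1) y →
      DStep1 n (t, x, y) (t + 1, y, E.S (t + 1) (y + 1))

/-- One step of a closed dual path in the region `R` (triangles whose lower left vertex is in `R`)
and in the slab of height `n`. -/
def DStep (n : ℕ) (R : Set (ℕ × ℤ)) (q r : Tri) : Prop :=
  (q.1, q.2.1) ∈ R ∧ (r.1, r.2.1) ∈ R ∧ (E.DStep1 n q r ∨ E.DStep1 n r q)

/-- Connection by a closed dual path. -/
def DConn (n : ℕ) (R : Set (ℕ × ℤ)) : Tri → Tri → Prop :=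
  Relation.ReflTransGen (E.DStep n R)

/-- The horizontal edge `(0,x) - (0,x+1)` is closed, and there is a closed dual path in the region
`R` from it up to level `n` (the last triangle has its horizontal edge at level `n`; that edge need
not be closed). -/
def DUp (R : Set (ℕ × ℤ)) (n : ℕ) (x : ℤ) : Prop :=
  ¬ E.ho 0 x ∧ (0, x) ∈ R ∧ ∃ t x' y', t + 1 = n ∧ E.IsV t x' y' ∧ y' < E.S t (x' + 1) ∧
    E.DConn n R (0, x, E.S 0 (x + 1)) (t, x', y')

/-- The set reached horizontally at level `t` from `A`. -/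
def H (t : ℕ) (A : Set ℤ) : Set ℤ :=
  {x | ∃ a ∈ A, (∀ i, a ≤ i → i < x → E.ho t i) ∧ (∀ i, x ≤ i → i < a → E.ho t i)}

/-- The upper ends of the open vertical edges of layer `t` from `A`. -/
def V (t : ℕ) (A : Set ℤ) : Set ℤ := {y | ∃ x ∈ A, E.IsV t x y ∧ E.vo t x y}

/-- The lower ends of the open vertical edges of layer `t` from `B`. -/
def W (t : ℕ) (B : Set ℤ) : Set ℤ := {x | ∃ y ∈ B, E.IsV t x y ∧ E.vo t x y}

/-- One oriented step. -/
def ostep (t : ℕ) (A : Set ℤ) : Set ℤ := E.V t (E.H t A)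

/-- One enhanced step: one backtrack inside the layer is allowed. -/
def estep (t : ℕ) (A : Set ℤ) : Set ℤ := E.V t (E.H t A ∪ E.W t (E.V t (E.H t A)))

/-- The set reached at level `n` from `A` by oriented steps. -/
def OS (A : Set ℤ) : ℕ → Set ℤ
  | 0 => A
  | n + 1 => E.ostep n (OS A n)

/-- The set reached at level `n` from `A` by enhanced steps. -/
def ES (A : Set ℤ) : ℕ → Set ℤ
  | 0 => A
  | n + 1 => E.estep n (ES A n)

end Strip

end CausalPerc.Neg
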