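import Pool.Agent.Lib.MP_a51368_pr.Neg.Spec2
import Pool.Agent.Lib.MP_a51368_pr.Neg.Meas
import Pool.Agent.Lib.MP_a51368_pr.Neg.Adapted

/-!
# Module Edge, deterministic part: straight paths and blocking columns
-/

open MeasureTheory Set Filter Topology

noncomputable section

namespace CausalPerc.Neg

namespace EdgeAux

/-! ### Set processes -/

section Det

variable (E : Strip)

theorem H_mono (t : ℕ) {A B : Set ℤ} (h : A ⊆ B) : E.H t A ⊆ E.H t B := by
  rintro x ⟨a, ha, h1⟩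
  exact ⟨a, h ha, h1⟩

theorem V_mono (t : ℕ) {A B : Set ℤ} (h : A ⊆ B) : E.V t A ⊆ E.V t B := by
  rintro x ⟨a, ha, h1⟩
  exact ⟨a, h ha, h1⟩

theorem W_mono (t : ℕ) {A B : Set ℤ} (h : A ⊆ B) : E.W t A ⊆ E.W t B := by
  rintro x ⟨a, ha, h1⟩
  exact ⟨a, h ha, h1⟩

theorem subset_H (t : ℕ) (A : Set ℤ) : A ⊆ E.H t A :=
  fun a ha => ⟨a, ha, fun _ h1 h2 => absurd h2 (not_lt.2 h1), fun _ h1 h2 => absurd h2 (not_lt.2 h1)⟩

theorem ostep_mono (t : ℕ) {A B : Set ℤ} (h : A ⊆ B) : E.ostep t A ⊆ E.ostep t B :=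
  V_mono E t (H_mono E t h)

theorem estep_mono (t : ℕ) {A B : Set ℤ} (h : A ⊆ B) : E.estep t A ⊆ E.estep t B :=
  V_mono E t (union_subset_union (H_mono E t h) (W_mono E t (V_mono E t (H_mono E t h))))

theorem ostep_subset_estep (t : ℕ) (A : Set ℤ) : E.ostep t A ⊆ E.estep t A :=
  V_mono E t subset_union_left

theorem OS_mono (n : ℕ) {A B : Set ℤ} (h : A ⊆ B) : E.OS A n ⊆ E.OS B n := by
  induction n with
  | zero => exact h
  | succ n ih => exact ostep_mono E n ih

theorem ES_mono (n : ℕ) {A B : Set ℤ} (h : A ⊆ B) : E.ES A n ⊆ E.ES B n := by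
  induction n with
  | zero => exact h
  | succ n ih => exact estep_mono E n ih

theorem OS_subset_ES (n : ℕ) (A : Set ℤ) : E.OS A n ⊆ E.ES A n := by
  induction n with
  | zero => exact subset_rfl
  | succ n ih => exact (ostep_mono E n ih).trans (ostep_subset_estep E n _)

theorem OS_add (s t : ℕ) (A : Set ℤ) : E.OS A (s + t) = (E.shift s).OS (E.OS A s) t := by
  induction t with
  | zero => rfl
  | succ t ih =>
    show E.ostep (s + t) (E.OS A (s + t)) = (E.shift s).ostep t ((E.shift s).OS (E.OS A s) t)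
    rw [ih]
    rfl

theorem ES_add (s t : ℕ) (A : Set ℤ) : E.ES A (s + t) = (E.shift s).ES (E.ES A s) t := by
  induction t with
  | zero => rfl
  | succ t ih =>
    show E.estep (s + t) (E.ES A (s + t)) = (E.shift s).estep t ((E.shift s).ES (E.ES A s) t)
    rw [ih]
    rfl

/-- Straight path: all the first-child edges of the line of `a` are open. -/
def Str (n : ℕ) (a : ℤ) : Prop := ∀ t < n, E.vo t (E.D t a) (E.D (t + 1) a)

theorem Str.mem {E : Strip} {n : ℕ} {a : ℤ} (h : Str E n a) {A : Set ℤ} (ha : a ∈ A) :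
    E.D n a ∈ E.OS A n := by
  induction n with
  | zero => exact ha
  | succ n ih =>
    have h1 := ih fun t ht => h t (by omega)
    exact ⟨E.D n a, subset_H E n _ h1, ⟨le_rfl, E.mono' n _⟩, h n (by omega)⟩

/-- Blocking line: the vertices on the line of `a` have one child, and all their edges are
closed. -/
def Blk (n : ℕ) (a : ℤ) : Prop :=
  ∀ t < n, E.S t (E.D t a + 1) = E.D (t + 1) a + 1 ∧ ¬ E.ho t (E.D t a) ∧
    ¬ E.vo t (E.D t a) (E.D (t + 1) a) ∧ ¬ E.vo t (E.D t a) (E.D (t + 1) a + 1)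

theorem Blk.right {E : Strip} {n : ℕ} {a : ℤ} (h : Blk E n a) {A : Set ℤ} (hA : A ⊆ Iic a) :
    E.ES A n ⊆ Iic (E.D n a) := by
  induction n with
  | zero => exact hA
  | succ n ih =>
    have ih' := ih fun t ht => h t (by omega)
    obtain ⟨h1, h2, h3, h4⟩ := h n (by omega)
    set d := E.D n a with hd
    have hd' : E.D (n + 1) a = E.S n d := rfl
    rw [hd'] at h1 h3 h4 ⊢
    have hH : ∀ B : Set ℤ, B ⊆ Iic d → E.H n B ⊆ Iic d := by
      rintro B hB x ⟨c, hc, h5, h6⟩
      by_contra hx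
      rw [mem_Iic, not_le] at hx
      exact h2 (h5 d (hB hc) hx)
    have hV : ∀ B : Set ℤ, B ⊆ Iic d → E.V n B ⊆ Iic (E.S n d) := by
      rintro B hB y ⟨x, hx, h5, h6⟩
      have hxd : x ≤ d := hB hx
      rcases hxd.eq_or_lt with rfl | hlt
      · have h7 := h5.1
        have h8 := h5.2
        by_contra hy
        rw [mem_Iic, not_le] at hy
        have h9 : y = E.S n d + 1 := by omega
        rw [h9] at h6
        exact h4 h6
      · exact h5.2.trans (E.S_mono n (by omega))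
    have hW : ∀ B : Set ℤ, B ⊆ Iic (E.S n d) → E.W n B ⊆ Iic d := by
      rintro B hB x ⟨y, hy, h5, h6⟩
      by_contra hx
      rw [mem_Iic, not_le] at hx
      have h7 : E.S n (d + 1) ≤ E.S n x := E.S_mono n (by omega)
      have h8 := h5.1
      have h9 : y ≤ E.S n d := hB hy
      omega
    exact hV _ (union_subset (hH _ ih') (hW _ (hV _ (hH _ ih'))))

theorem Blk.left {E : Strip} {n : ℕ} {a : ℤ} (h : Blk E n a) {A : Set ℤ}
    (hA : A ⊆ Ici (a + 1)) : E.ES A n ⊆ Ici (E.D n a + 1) := by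
  induction n with
  | zero => exact hA
  | succ n ih =>
    have ih' := ih fun t ht => h t (by omega)
    obtain ⟨h1, h2, h3, h4⟩ := h n (by omega)
    set d := E.D n a with hd
    have hd' : E.D (n + 1) a = E.S n d := rfl
    rw [hd'] at h1 h3 h4 ⊢
    have hH : ∀ B : Set ℤ, B ⊆ Ici (d + 1) → E.H n B ⊆ Ici (d + 1) := by
      rintro B hB x ⟨c, hc, h5, h6⟩
      by_contra hx
      rw [mem_Ici, not_le] at hx
      have hc' : d + 1 ≤ c := hB hc
      exact h2 (h6 d (by omega) (by omega))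
    have hV : ∀ B : Set ℤ, B ⊆ Ici (d + 1) → E.V n B ⊆ Ici (E.S n d + 1) := by
      rintro B hB y ⟨x, hx, h5, h6⟩
      have hxd : d + 1 ≤ x := hB hx
      rw [mem_Ici, ← h1]
      exact (E.S_mono n hxd).trans h5.1
    have hW : ∀ B : Set ℤ, B ⊆ Ici (E.S n d + 1) → E.W n B ⊆ Ici (d + 1) := by
      rintro B hB x ⟨y, hy, h5, h6⟩
      by_contra hx
      rw [mem_Ici, not_le] at hx
      have hy' : E.S n d + 1 ≤ y := hB hy
      rcases (show x ≤ d by omega).eq_or_lt with rfl | hlt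
      · have h8 := h5.2
        have h9 : y = E.S n d + 1 := by omega
        rw [h9] at h6
        exact h4 h6
      · have h8 := h5.2
        have h9 : E.S n (x + 1) ≤ E.S n d := E.S_mono n (by omega)
        omega
    exact hV _ (union_subset (hH _ ih') (hW _ (hV _ (hH _ ih'))))

/-! ### One oriented step from a half line -/

theorem step_right {k : ℤ} (hk : 0 ≤ k) (h : ¬ E.ho 0 k) :
    E.OS (Iic 0) 1 ⊆ Iic (E.S 0 (k + 1)) := by
  rintro y ⟨x, ⟨c, hc, h1, _⟩, h3, _⟩
  have hx : x ≤ k := by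
    by_contra hx
    rw [not_le] at hx
    exact h (h1 k (le_trans hc hk) hx)
  exact h3.2.trans (E.S_mono 0 (by omega))

theorem step_left {k : ℤ} (hk : k < 0) (h : ¬ E.ho 0 k) :
    E.OS (Ici 0) 1 ⊆ Ici (E.S 0 k) := by
  rintro y ⟨x, ⟨c, hc, _, h2⟩, h3, _⟩
  have hx : k ≤ x := by
    by_contra hx
    rw [not_le] at hx
    have hc' : 0 ≤ c := hc
    exact h (h2 k hx.le (by omega))
  exact (E.S_mono 0 hx).trans h3.1

end Det

/-! ### Partial sums -/

theorem ps_nat (f : ℤ → ℕ) (k : ℕ) : ps f k = ∑ i ∈ Finset.range k, (f i : ℤ) := by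
  induction k with
  | zero => simp [ps_zero]
  | succ k ih => rw [Finset.sum_range_succ, ← ih, Nat.cast_succ, ps_succ]

theorem ps_neg (f : ℤ → ℕ) (k : ℕ) :
    ps f (-(k : ℤ)) = -∑ i ∈ Finset.range k, (f (-((i : ℤ) + 1)) : ℤ) := by
  induction k with
  | zero => simp [ps_zero]
  | succ k ih =>
    have h := ps_succ f (-((k : ℤ) + 1))
    have h1 : -((k : ℤ) + 1) + 1 = -(k : ℤ) := by ring
    rw [h1, ih] at h
    rw [Finset.sum_range_succ]
    push_cast
    linarith

theorem DD_zero (ω : Arr) (t : ℕ) : DD ω t 0 = 0 := by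
  induction t with
  | zero => rfl
  | succ t ih =>
    show ps (xi ω t) (DD ω t 0) = 0
    rw [ih, ps_zero]

theorem ps_mono (f : ℤ → ℕ) {x y : ℤ} (h : x ≤ y) : ps f x ≤ ps f y := by
  obtain ⟨k, rfl⟩ := Int.le.dest h
  induction k with
  | zero => simp
  | succ k ih =>
    have h1 := ps_succ f (x + k)
    have h2 := ih (by omega)
    push_cast
    rw [← add_assoc, h1]
    have : (0 : ℤ) ≤ (f (x + k) : ℤ) := Int.natCast_nonneg _
    linarith

theorem DD_mono (ω : Arr) (t : ℕ) {a b : ℤ} (h : a ≤ b) : DD ω t a ≤ DD ω t b := by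
  induction t with
  | zero => exact h
  | succ t ih => exact ps_mono _ ih

theorem DD_nonneg (ω : Arr) (t : ℕ) {a : ℤ} (h : 0 ≤ a) : 0 ≤ DD ω t a := by
  have := DD_mono ω t h
  rwa [DD_zero] at this

theorem DD_nonpos (ω : Arr) (t : ℕ) {a : ℤ} (h : a ≤ 0) : DD ω t a ≤ 0 := by
  have := DD_mono ω t h
  rwa [DD_zero] at this

end EdgeAux

end CausalPerc.Neg
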