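import Pool.Agent.Lib.MP_a51368_pr.Neg.EdgeDet

/-!
# Module Edge: events on the line of a vertex, independent trials
-/

open MeasureTheory Set Filter Topology ProbabilityTheory

noncomputable section

namespace CausalPerc.Neg

namespace EdgeAux

/-- The nodes of the line of `0` in the rows `< n` are in `N`. -/
def EV (N : Set Nd) (n : ℕ) : Set Arr := {ω | ∀ t < n, ω t 0 ∈ N}

theorem EV_eq (N : Set Nd) (n : ℕ) :
    EV N n = (Finset.range n : Set ℕ).pi fun _ => (fun r : Row => r 0) ⁻¹' N := by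
  ext ω
  simp [EV]

theorem EV_meas {N : Set Nd} (hN : MeasurableSet N) (n : ℕ) : MeasurableSet (EV N n) := by
  rw [EV_eq]
  exact MeasurableSet.pi (Finset.countable_toSet _) fun _ _ => (measurable_pi_apply 0) hN

theorem DD_one_pos {ω : Arr} {t : ℕ} (h : ∀ s < t, 1 ≤ (ω s 0).1) : 1 ≤ DD ω t 1 := by
  induction t with
  | zero => exact le_rfl
  | succ t ih =>
    have h1 := ih fun s hs => h s (by omega)
    show 1 ≤ ps (xi ω t) (DD ω t 1)
    refine le_trans ?_ (ps_mono _ h1)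
    have h2 := ps_succ (xi ω t) 0
    rw [ps_zero, zero_add, zero_add] at h2
    rw [h2]
    have h3 : 1 ≤ xi ω t 0 := h t (by omega)
    exact_mod_cast h3

theorem EV_dep {N : Set Nd} (hN : ∀ z ∈ N, 1 ≤ z.1) (n : ℕ) (ω ω' : Arr)
    (h : ∀ t < n, ∀ x, 0 ≤ x → x < DD ω t 1 → ω t x = ω' t x) :
    ω ∈ EV N n ↔ ω' ∈ EV N n := by
  constructor
  · intro h1 t ht
    have h2 := h t ht 0 le_rfl (DD_one_pos fun s hs => hN _ (h1 s (hs.trans ht)))
    rw [← h2]
    exact h1 t ht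
  · intro h1 t
    induction t using Nat.strong_induction_on with
    | _ t ih =>
      intro ht
      have h2 := h t ht 0 le_rfl (DD_one_pos fun s hs => hN _ (ih s hs (hs.trans ht)))
      rw [h2]
      exact h1 t ht

theorem EV_prob {α : ℝ} (h0 : 0 ≤ α) (h1 : α < 1) {N : Set Nd} (hN : MeasurableSet N) (n : ℕ) :
    arrLaw α (EV N n) = ndLaw α N ^ n := by
  have := Adapted.nd_prob h0 h1
  have := Adapted.row_prob h0 h1
  have hm : MeasurableSet ((fun r : Row => r 0) ⁻¹' N) := (measurable_pi_apply 0) hN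
  rw [EV_eq]
  unfold arrLaw
  rw [Measure.infinitePi_pi _ fun _ _ => hm, Finset.prod_const, Finset.card_range]
  congr 1
  have h2 : (rowLaw α).map (fun r : Row => r 0) = ndLaw α := by
    unfold rowLaw
    exact Measure.infinitePi_map_eval (fun _ : ℤ => ndLaw α) 0
  rw [← h2, Measure.map_apply (measurable_pi_apply 0) hN]

/-- Independent trials on different lines. -/
theorem trials (hCI : ColIndepStmt) (hM : MeasStmt) {α : ℝ} (h0 : 0 ≤ α) (h1 : α < 1)
    {N : Set Nd} (hN : MeasurableSet N) (hN1 : ∀ z ∈ N, 1 ≤ z.1) (n k : ℕ) (c : ℕ → ℤ)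
    (hc : Function.Injective c) :
    arrLaw α {ω | ∀ j < k, cshift (c j) ω ∉ EV N n} = (1 - arrLaw α (EV N n)) ^ k := by
  have := Adapted.arr_prob h0 h1
  have hcs : ∀ a, Measurable (cshift a) := hM.2.1
  have hE := EV_meas hN n
  have h2 := hCI α h0 h1 (Fin k) (fun j => c j) (fun j => c j + 1) n
    (fun _ => (EV N n)ᶜ.indicator 1) (fun j => by omega) (by
      intro i j hij
      have h3 : c i ≠ c j := fun h => hij (Fin.ext (hc h))
      omega)
    (fun _ => measurable_one.indicator hE.compl) (by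
      intro j ω ω' h
      have h3 := EV_dep hN1 n ω ω' fun t ht x hx0 hx1 => h t ht x hx0 (by
        have : c j + 1 - c j = 1 := by ring
        rw [this]; exact hx1)
      by_cases h4 : ω ∈ EV N n
      · rw [indicator_of_notMem (notMem_compl_iff.2 h4),
          indicator_of_notMem (notMem_compl_iff.2 (h3.1 h4))]
      · rw [indicator_of_mem (mem_compl h4), indicator_of_mem (mem_compl fun h5 => h4 (h3.2 h5))]
        rfl)
  rw [lintegral_indicator_one hE.compl, Finset.prod_const, Finset.card_univ, Fintype.card_fin,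
    prob_compl_eq_one_sub hE] at h2
  rw [← h2]
  have hset : MeasurableSet {ω : Arr | ∀ j < k, cshift (c j) ω ∉ EV N n} := by
    have : {ω : Arr | ∀ j < k, cshift (c j) ω ∉ EV N n} =
        ⋂ j ∈ Finset.range k, (cshift (c j)) ⁻¹' (EV N n)ᶜ := by
      ext ω
      simp
    rw [this]
    exact Finset.measurableSet_biInter _ fun j _ => hcs _ hE.compl
  rw [← lintegral_indicator_one hset]
  refine lintegral_congr fun ω => ?_
  by_cases h3 : ω ∈ {ω : Arr | ∀ j < k, cshift (c j) ω ∉ EV N n}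
  · rw [indicator_of_mem h3]
    symm
    refine Finset.prod_eq_one fun j _ => ?_
    rw [indicator_of_mem (mem_compl (h3 j j.2))]
    rfl
  · rw [indicator_of_notMem h3]
    symm
    simp only [mem_ofPred_eq, not_forall, not_not] at h3
    obtain ⟨j, hj, h4⟩ := h3
    refine Finset.prod_eq_zero (Finset.mem_univ (⟨j, hj⟩ : Fin k)) ?_
    exact indicator_of_notMem (notMem_compl_iff.2 h4) _

/-- Some trial is successful. -/
theorem trials_ae (hCI : ColIndepStmt) (hM : MeasStmt) {α : ℝ} (h0 : 0 ≤ α) (h1 : α < 1)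
    {N : Set Nd} (hN : MeasurableSet N) (hN1 : ∀ z ∈ N, 1 ≤ z.1) (n : ℕ) (c : ℕ → ℤ)
    (hc : Function.Injective c) (hp : arrLaw α (EV N n) ≠ 0) :
    ∀ᵐ ω ∂arrLaw α, ∃ j, cshift (c j) ω ∈ EV N n := by
  have := Adapted.arr_prob h0 h1
  rw [ae_iff]
  refine le_antisymm ?_ (zero_le)
  have h2 : Tendsto (fun k : ℕ => (1 - arrLaw α (EV N n)) ^ k) atTop (𝓝 0) := by
    refine ENNReal.tendsto_pow_atTop_nhds_zero_of_lt_one ?_
    exact ENNReal.sub_lt_self ENNReal.one_ne_top one_ne_zero hp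
  refine ge_of_tendsto' h2 fun k => ?_
  rw [← trials hCI hM h0 h1 hN hN1 n k c hc]
  refine measure_mono fun ω hω j _ h => hω ⟨j, h⟩

/-! ### The two kinds of nodes -/

/-- One child and all edges closed. -/
def NB (p : ℝ) : Set Nd := {z | z.1 = 1 ∧ ∀ i ∈ Finset.range 3, p < ((z.2 i : unitInterval) : ℝ)}

/-- At least one child, and the edge to the first child is open. -/
def NS (p : ℝ) : Set Nd := {z | 1 ≤ z.1 ∧ ∀ i ∈ ({1} : Finset ℕ), ((z.2 i : unitInterval) : ℝ) ≤ p}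

theorem meas_gt (p : ℝ) : MeasurableSet {x : unitInterval | p < (x : ℝ)} :=
  measurableSet_Ioi.preimage measurable_subtype_coe

theorem meas_le (p : ℝ) : MeasurableSet {x : unitInterval | (x : ℝ) ≤ p} :=
  measurableSet_Iic.preimage measurable_subtype_coe

theorem vol_gt {p : ℝ} (h0 : 0 ≤ p) (h1 : p ≤ 1) :
    (volume : Measure unitInterval) {x | p < (x : ℝ)} = ENNReal.ofReal (1 - p) := by
  have : {x : unitInterval | p < (x : ℝ)} = Ioi ⟨p, h0, h1⟩ := by
    ext x; simp [← Subtype.coe_lt_coe]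
  rw [this, unitInterval.volume_Ioi]

theorem vol_le {p : ℝ} (h0 : 0 ≤ p) (h1 : p ≤ 1) :
    (volume : Measure unitInterval) {x | (x : ℝ) ≤ p} = ENNReal.ofReal p := by
  have : {x : unitInterval | (x : ℝ) ≤ p} = Iic ⟨p, h0, h1⟩ := by
    ext x; simp [← Subtype.coe_le_coe]
  rw [this, unitInterval.volume_Iic]

theorem NB_eq (p : ℝ) : NB p = ({1} : Set ℕ) ×ˢ
    ((Finset.range 3 : Set ℕ).pi fun _ => {x : unitInterval | p < (x : ℝ)}) := by
  ext z
  simp only [NB, mem_ofPred_eq, mem_prod, mem_singleton_iff, Set.mem_pi, Finset.mem_coe]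

theorem NS_eq (p : ℝ) : NS p = (Ici 1 : Set ℕ) ×ˢ
    ((({1} : Finset ℕ) : Set ℕ).pi fun _ => {x : unitInterval | (x : ℝ) ≤ p}) := by
  ext z
  simp only [NS, mem_ofPred_eq, mem_prod, mem_Ici, Set.mem_pi, Finset.mem_coe]

theorem NB_meas (p : ℝ) : MeasurableSet (NB p) := by
  rw [NB_eq]
  exact (measurableSet_singleton 1).prod
    (MeasurableSet.pi (Finset.countable_toSet _) fun _ _ => meas_gt p)

theorem NS_meas (p : ℝ) : MeasurableSet (NS p) := by
  rw [NS_eq]
  exact (measurableSet_Ici).prod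
    (MeasurableSet.pi (Finset.countable_toSet _) fun _ _ => meas_le p)

theorem geo_one_pos {α : ℝ} (h0 : 0 < α) (h1 : α < 1) : geo α {1} ≠ 0 := by
  rw [geo_apply]
  have h2 : ENNReal.ofReal (α ^ 1 * (1 - α)) * ({1} : Set ℕ).indicator 1 1 ≤
      ∑' k, ENNReal.ofReal (α ^ k * (1 - α)) * ({1} : Set ℕ).indicator 1 k :=
    ENNReal.le_tsum 1
  intro h
  rw [h] at h2
  have h3 : (0 : ℝ) < α ^ 1 * (1 - α) := by
    have : 0 < 1 - α := by linarith
    positivity
  have h4 : ENNReal.ofReal (α ^ 1 * (1 - α)) ≠ 0 := by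
    rw [Ne, ENNReal.ofReal_eq_zero, not_le]
    exact h3
  simp only [mem_singleton_iff, indicator_of_mem, Pi.one_apply, mul_one] at h2
  exact h4 (le_antisymm h2 (zero_le))

theorem NB_pos {α p : ℝ} (h0 : 0 < α) (h1 : α < 1) (hp0 : 0 ≤ p) (hp1 : p < 1) :
    ndLaw α (NB p) ≠ 0 := by
  have := geo_prob h0.le h1
  rw [NB_eq]
  unfold ndLaw
  rw [Measure.prod_prod, Measure.infinitePi_pi _ fun _ _ => meas_gt p, vol_gt hp0 hp1.le,
    Finset.prod_const]
  refine mul_ne_zero (geo_one_pos h0 h1) (pow_ne_zero _ ?_)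
  rw [Ne, ENNReal.ofReal_eq_zero, not_le]
  linarith

theorem NS_pos {α p : ℝ} (h0 : 0 < α) (h1 : α < 1) (hp0 : 0 < p) (hp1 : p ≤ 1) :
    ndLaw α (NS p) ≠ 0 := by
  have := geo_prob h0.le h1
  rw [NS_eq]
  unfold ndLaw
  rw [Measure.prod_prod, Measure.infinitePi_pi _ fun _ _ => meas_le p, vol_le hp0.le hp1,
    Finset.prod_const]
  refine mul_ne_zero ?_ (pow_ne_zero _ ?_)
  · intro h
    refine geo_one_pos h0 h1 (le_antisymm ?_ (zero_le))
    rw [← h]
    exact measure_mono (by simp)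
  · rw [Ne, ENNReal.ofReal_eq_zero, not_le]
    exact hp0

theorem NB_one (p : ℝ) : ∀ z ∈ NB p, 1 ≤ z.1 := fun _ hz => hz.1.ge

theorem NS_one (p : ℝ) : ∀ z ∈ NS p, 1 ≤ z.1 := fun _ hz => hz.1

theorem blk_of {p : ℝ} {n : ℕ} {a : ℤ} {ω : Arr} (h : cshift a ω ∈ EV (NB p) n) :
    Blk (strip p ω) n a := by
  intro t ht
  have h1 := h t ht
  have h2 : cshift a ω t 0 = ω t (DD ω t a) := by
    unfold cshift
    rw [zero_add]
  rw [h2] at h1
  obtain ⟨h3, h4⟩ := h1
  rw [strip_D]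
  have hD : (strip p ω).D (t + 1) a = ps (xi ω t) (DD ω t a) := by
    rw [strip_D]
    rfl
  rw [hD]
  have h5 : xi ω t (DD ω t a) = 1 := h3
  refine ⟨?_, ?_, ?_, ?_⟩
  · show ps (xi ω t) (DD ω t a + 1) = _
    rw [ps_succ, h5]
    rfl
  · have := h4 0 (by simp)
    exact not_le.2 this
  · have := h4 1 (by simp)
    show ¬ (((ω t (DD ω t a)).2 ((ps (xi ω t) (DD ω t a) -
      ps (xi ω t) (DD ω t a)).toNat + 1) : unitInterval) : ℝ) ≤ p
    rw [sub_self]
    exact not_le.2 this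
  · have := h4 2 (by simp)
    show ¬ (((ω t (DD ω t a)).2 ((ps (xi ω t) (DD ω t a) + 1 -
      ps (xi ω t) (DD ω t a)).toNat + 1) : unitInterval) : ℝ) ≤ p
    have h6 : (ps (xi ω t) (DD ω t a) + 1 - ps (xi ω t) (DD ω t a)).toNat + 1 = 2 := by
      rw [add_sub_cancel_left]
      rfl
    rw [h6]
    exact not_le.2 this

theorem str_of {p : ℝ} {n : ℕ} {a : ℤ} {ω : Arr} (h : cshift a ω ∈ EV (NS p) n) :
    Str (strip p ω) n a := by
  intro t ht
  have h1 := h t ht
  have h2 : cshift a ω t 0 = ω t (DD ω t a) := by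
    unfold cshift
    rw [zero_add]
  rw [h2] at h1
  obtain ⟨h3, h4⟩ := h1
  have hD : (strip p ω).D (t + 1) a = ps (xi ω t) (DD ω t a) := by
    rw [strip_D]
    rfl
  rw [hD, strip_D]
  show (((ω t (DD ω t a)).2 ((ps (xi ω t) (DD ω t a) -
      ps (xi ω t) (DD ω t a)).toNat + 1) : unitInterval) : ℝ) ≤ p
  rw [sub_self]
  exact h4 1 (by simp)

end EdgeAux

end CausalPerc.Neg
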