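import Pool.Agent.Lib.MP_a51368_pr.Neg.EdgeTail

/-!
# Module Edge: almost sure properties, shift identities, mean of the first step
-/

open MeasureTheory Set Filter Topology ProbabilityTheory

noncomputable section

namespace CausalPerc.Neg

namespace EdgeAux

/-! ### Almost sure properties -/

theorem EV_ne_zero {N : Set Nd} (hN : MeasurableSet N) (h : ndLaw (1 / 2) N ≠ 0) (n : ℕ) :
    arrLaw (1 / 2) (EV N n) ≠ 0 := by
  rw [EV_prob (by norm_num) (by norm_num) hN]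
  exact pow_ne_zero _ h

theorem NBp {p : ℝ} (hp0 : 0 < p) (hp1 : p < 1) : ndLaw (1 / 2) (NB p) ≠ 0 :=
  NB_pos (by norm_num) (by norm_num) hp0.le hp1

theorem NSp {p : ℝ} (hp0 : 0 < p) (hp1 : p < 1) : ndLaw (1 / 2) (NS p) ≠ 0 :=
  NS_pos (by norm_num) (by norm_num) hp0 hp1.le

/-- All trials are successful somewhere. -/
def Four (p : ℝ) (n : ℕ) (ω : Arr) : Prop :=
  ∀ a : ℤ, (∃ j : ℕ, cshift (a + j) ω ∈ EV (NB p) n) ∧
    (∃ j : ℕ, cshift (a - 1 - j) ω ∈ EV (NB p) n) ∧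
    (∃ j : ℕ, cshift (a + j) ω ∈ EV (NS p) n) ∧ (∃ j : ℕ, cshift (a - j) ω ∈ EV (NS p) n)

theorem ae_four (hCI : ColIndepStmt) (hM : MeasStmt) {p : ℝ} (hp0 : 0 < p) (hp1 : p < 1)
    (n : ℕ) : ∀ᵐ ω ∂arrLaw (1 / 2), Four p n ω := by
  rw [show (∀ᵐ ω ∂arrLaw (1 / 2), Four p n ω) ↔ ∀ᵐ ω ∂arrLaw (1 / 2), Four p n ω from Iff.rfl]
  unfold Four
  rw [ae_all_iff]
  intro a
  have hB := EV_ne_zero (NB_meas p) (NBp hp0 hp1) n
  have hS := EV_ne_zero (NS_meas p) (NSp hp0 hp1) n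
  have h1 := trials_ae hCI hM (by norm_num) (by norm_num) (NB_meas p) (NB_one p) n
    (fun j : ℕ => a + j) (fun i j h => by simpa using h) hB
  have h2 := trials_ae hCI hM (by norm_num) (by norm_num) (NB_meas p) (NB_one p) n
    (fun j : ℕ => a - 1 - j) (fun i j h => by simpa using h) hB
  have h3 := trials_ae hCI hM (by norm_num) (by norm_num) (NS_meas p) (NS_one p) n
    (fun j : ℕ => a + j) (fun i j h => by simpa using h) hS
  have h4 := trials_ae hCI hM (by norm_num) (by norm_num) (NS_meas p) (NS_one p) n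
    (fun j : ℕ => a - j) (fun i j h => by simpa using h) hS
  filter_upwards [h1, h2, h3, h4] with ω g1 g2 g3 g4
  exact ⟨g1, g2, g3, g4⟩

/-- All the sets are nonempty and bounded. -/
def Nice (p : ℝ) (n : ℕ) (ω : Arr) : Prop :=
  ∀ a : ℤ,
    ((strip p ω).OS (Iic a) n).Nonempty ∧ BddAbove ((strip p ω).OS (Iic a) n) ∧
    ((strip p ω).OS (Ici a) n).Nonempty ∧ BddBelow ((strip p ω).OS (Ici a) n) ∧
    ((strip p ω).ES (Iic a) n).Nonempty ∧ BddAbove ((strip p ω).ES (Iic a) n) ∧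
    ((strip p ω).ES (Ici a) n).Nonempty ∧ BddBelow ((strip p ω).ES (Ici a) n)

theorem Four.nice {p : ℝ} {n : ℕ} {ω : Arr} (h : Four p n ω) : Nice p n ω := by
  intro a
  obtain ⟨⟨j1, h1⟩, ⟨j2, h2⟩, ⟨j3, h3⟩, ⟨j4, h4⟩⟩ := h a
  have g1 : (strip p ω).ES (Iic a) n ⊆ Iic ((strip p ω).D n (a + j1)) :=
    (blk_of h1).right (Iic_subset_Iic.2 (by omega))
  have g2 : (strip p ω).ES (Ici a) n ⊆ Ici ((strip p ω).D n (a - 1 - j2) + 1) :=
    (blk_of h2).left (Ici_subset_Ici.2 (by omega))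
  have g3 : (strip p ω).D n (a + j3) ∈ (strip p ω).OS (Ici a) n :=
    (str_of h3).mem (show a ≤ a + j3 by omega)
  have g4 : (strip p ω).D n (a - j4) ∈ (strip p ω).OS (Iic a) n :=
    (str_of h4).mem (show a - j4 ≤ a by omega)
  have e1 := OS_subset_ES (strip p ω) n (Iic a)
  have e2 := OS_subset_ES (strip p ω) n (Ici a)
  have b1 : BddAbove ((strip p ω).ES (Iic a) n) := BddAbove.mono g1 bddAbove_Iic
  have b2 : BddBelow ((strip p ω).ES (Ici a) n) := BddBelow.mono g2 bddBelow_Ici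
  exact ⟨⟨_, g4⟩, b1.mono e1, ⟨_, g3⟩, b2.mono e2, ⟨_, e1 g4⟩, b1, ⟨_, e2 g3⟩, b2⟩

theorem ae_nice (hCI : ColIndepStmt) (hM : MeasStmt) {p : ℝ} (hp0 : 0 < p) (hp1 : p < 1)
    (n : ℕ) : ∀ᵐ ω ∂arrLaw (1 / 2), Nice p n ω := by
  filter_upwards [ae_four hCI hM hp0 hp1 n] with ω h
  exact h.nice

/-! ### Square integrability of the four edges -/

theorem bounds_right {p : ℝ} {n : ℕ} (k : ℕ) (ω : Arr)
    (h1 : ∃ j < k, cshift ((j : ℕ) : ℤ) ω ∈ EV (NB p) n)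
    (h2 : ∃ j < k, cshift (-(((j : ℕ) : ℤ) + 1)) ω ∈ EV (NS p) n) :
    DD ω n (-(k : ℤ)) ≤ RR p n ω ∧ RR p n ω ≤ RE p n ω ∧ RE p n ω ≤ DD ω n k := by
  obtain ⟨j, hj, h1⟩ := h1
  obtain ⟨i, hi, h2⟩ := h2
  have g1 : (strip p ω).ES (Iic 0) n ⊆ Iic ((strip p ω).D n j) :=
    (blk_of h1).right (Iic_subset_Iic.2 (by omega))
  have g2 : (strip p ω).D n (-((i : ℤ) + 1)) ∈ (strip p ω).OS (Iic 0) n :=
    (str_of h2).mem (show -((i : ℤ) + 1) ≤ 0 by omega)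
  have e1 := OS_subset_ES (strip p ω) n (Iic 0)
  have b1 : BddAbove ((strip p ω).ES (Iic 0) n) := BddAbove.mono g1 bddAbove_Iic
  have b2 : BddAbove ((strip p ω).OS (Iic 0) n) := b1.mono e1
  rw [strip_D] at g1 g2
  refine ⟨?_, csSup_le_csSup b1 ⟨_, g2⟩ e1, ?_⟩
  · exact (DD_mono ω n (by omega)).trans (le_csSup b2 g2)
  · exact csSup_le ⟨_, e1 g2⟩ fun y hy => (g1 hy : y ≤ _).trans (DD_mono ω n (by omega))

theorem bounds_left {p : ℝ} {n : ℕ} (k : ℕ) (ω : Arr)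
    (h1 : ∃ j < k, cshift (-(((j : ℕ) : ℤ) + 1)) ω ∈ EV (NB p) n)
    (h2 : ∃ j < k, cshift ((j : ℕ) : ℤ) ω ∈ EV (NS p) n) :
    DD ω n (-(k : ℤ)) ≤ LE p n ω ∧ LE p n ω ≤ LL p n ω ∧ LL p n ω ≤ DD ω n k := by
  obtain ⟨j, hj, h1⟩ := h1
  obtain ⟨i, hi, h2⟩ := h2
  have g1 : (strip p ω).ES (Ici 0) n ⊆ Ici ((strip p ω).D n (-((j : ℤ) + 1)) + 1) :=
    (blk_of h1).left (Ici_subset_Ici.2 (by omega))
  have g2 : (strip p ω).D n i ∈ (strip p ω).OS (Ici 0) n :=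
    (str_of h2).mem (show (0 : ℤ) ≤ i by omega)
  have e1 := OS_subset_ES (strip p ω) n (Ici 0)
  have b1 : BddBelow ((strip p ω).ES (Ici 0) n) := BddBelow.mono g1 bddBelow_Ici
  have b2 : BddBelow ((strip p ω).OS (Ici 0) n) := b1.mono e1
  rw [strip_D] at g1 g2
  refine ⟨?_, csInf_le_csInf b1 ⟨_, g2⟩ e1, ?_⟩
  · refine le_csInf ⟨_, e1 g2⟩ fun y hy => ?_
    have h3 : DD ω n (-((j : ℤ) + 1)) + 1 ≤ y := g1 hy
    have h4 : DD ω n (-(k : ℤ)) ≤ DD ω n (-((j : ℤ) + 1)) := DD_mono ω n (by omega)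
    omega
  · exact (csInf_le b2 g2).trans (DD_mono ω n (by omega))

open MeasAux in
theorem meas_RR (p : ℝ) (n : ℕ) : Measurable (RR p n) := measurable_sSup (m_OS p (Iic 0) n)

open MeasAux in
theorem meas_RE (p : ℝ) (n : ℕ) : Measurable (RE p n) := measurable_sSup (m_ES p (Iic 0) n)

open MeasAux in
theorem meas_LL (p : ℝ) (n : ℕ) : Measurable (LL p n) := measurable_sInf (m_OS p (Ici 0) n)

open MeasAux in
theorem meas_LE (p : ℝ) (n : ℕ) : Measurable (LE p n) := measurable_sInf (m_ES p (Ici 0) n)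

theorem inj_pos : Function.Injective fun j : ℕ => (j : ℤ) := fun _ _ h => by simpa using h

theorem inj_neg : Function.Injective fun j : ℕ => -((j : ℤ) + 1) := fun _ _ h => by simpa using h

variable (hCI : ColIndepStmt) (hM : MeasStmt) (hW : WidthStmt) (hCs : CshiftStmt)
  (hSh : StripShiftStmt)

include hCI hM hW hCs hSh in
theorem memLp_right {p : ℝ} (hp0 : 0 < p) (hp1 : p < 1) (n : ℕ) (Z : Arr → ℤ)
    (hZ : Measurable Z) (h : ∀ ω, RR p n ω ≤ RE p n ω → RR p n ω ≤ Z ω ∧ Z ω ≤ RE p n ω) :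
    MemLp (fun ω => (Z ω : ℝ)) 2 (arrLaw (1 / 2)) := by
  refine tail_general hCI hM hW hCs hSh (NB_meas p) (NB_one p) (NS_meas p) (NS_one p) n
    (NBp hp0 hp1) (NSp hp0 hp1) (fun j => (j : ℤ)) (fun j => -((j : ℤ) + 1)) inj_pos inj_neg Z hZ
    fun k ω h1 h2 => ?_
  obtain ⟨h3, h4, h5⟩ := bounds_right k ω h1 h2
  obtain ⟨h6, h7⟩ := h ω h4
  exact ⟨h3.trans h6, h7.trans h5⟩

include hCI hM hW hCs hSh in
theorem memLp_left {p : ℝ} (hp0 : 0 < p) (hp1 : p < 1) (n : ℕ) (Z : Arr → ℤ)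
    (hZ : Measurable Z) (h : ∀ ω, LE p n ω ≤ LL p n ω → LE p n ω ≤ Z ω ∧ Z ω ≤ LL p n ω) :
    MemLp (fun ω => (Z ω : ℝ)) 2 (arrLaw (1 / 2)) := by
  refine tail_general hCI hM hW hCs hSh (NB_meas p) (NB_one p) (NS_meas p) (NS_one p) n
    (NBp hp0 hp1) (NSp hp0 hp1) (fun j => -((j : ℤ) + 1)) (fun j => (j : ℤ)) inj_neg inj_pos Z hZ
    fun k ω h1 h2 => ?_
  obtain ⟨h3, h4, h5⟩ := bounds_left k ω h1 h2
  obtain ⟨h6, h7⟩ := h ω h4
  exact ⟨h3.trans h6, h7.trans h5⟩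

/-! ### Shift identities -/

theorem sSup_shift {S T : Set ℤ} {d : ℤ} (h1 : S.Nonempty) (h2 : BddAbove S)
    (h : ∀ z, z ∈ T ↔ z + d ∈ S) : sSup S = d + sSup T := by
  have h3 := Int.csSup_mem h1 h2
  have h4 : sSup T = sSup S - d := by
    rw [sSup_eq_iff]
    left
    refine ⟨(h _).2 (by rwa [sub_add_cancel]), fun y hy => ?_⟩
    have := le_csSup h2 ((h y).1 hy)
    omega
  omega

theorem sInf_shift {S T : Set ℤ} {d : ℤ} (h1 : S.Nonempty) (h2 : BddBelow S)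
    (h : ∀ z, z ∈ T ↔ z + d ∈ S) : sInf S = d + sInf T := by
  have h3 := Int.csInf_mem h1 h2
  have h4 : sInf T = sInf S - d := by
    rw [sInf_eq_iff]
    left
    refine ⟨(h _).2 (by rwa [sub_add_cancel]), fun y hy => ?_⟩
    have := csInf_le h2 ((h y).1 hy)
    omega
  omega

theorem Iic_shift (a : ℤ) : {x : ℤ | x - a ∈ Iic 0} = Iic a := by
  ext x
  simp

theorem Ici_shift (a : ℤ) : {x : ℤ | x - a ∈ Ici 0} = Ici a := by
  ext x
  simp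

variable (hRec : RecentreStmt)

include hSh hRec in
theorem OS_shift (p : ℝ) (n : ℕ) (a : ℤ) (ω : Arr) (A : Set ℤ) (z : ℤ) :
    z ∈ (strip p (cshift a ω)).OS A n ↔ z + DD ω n a ∈ (strip p ω).OS {x | x - a ∈ A} n := by
  rw [hSh.1 p a ω, (hRec (strip p ω) a).2.2.2.2.2.2.2.2.1 n A z, strip_D]

include hSh hRec in
theorem ES_shift (p : ℝ) (n : ℕ) (a : ℤ) (ω : Arr) (A : Set ℤ) (z : ℤ) :
    z ∈ (strip p (cshift a ω)).ES A n ↔ z + DD ω n a ∈ (strip p ω).ES {x | x - a ∈ A} n := by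
  rw [hSh.1 p a ω, (hRec (strip p ω) a).2.2.2.2.2.2.2.2.2 n A z, strip_D]

include hSh hRec in
theorem RR_shift {p : ℝ} {n : ℕ} {ω : Arr} (h : Nice p n ω) (a : ℤ) :
    sSup ((strip p ω).OS (Iic a) n) = DD ω n a + RR p n (cshift a ω) := by
  obtain ⟨h1, h2, h3, h4, h5, h6, h7, h8⟩ := h a
  refine sSup_shift h1 h2 fun z => ?_
  rw [OS_shift hSh hRec, Iic_shift]

include hSh hRec in
theorem LL_shift {p : ℝ} {n : ℕ} {ω : Arr} (h : Nice p n ω) (a : ℤ) :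
    sInf ((strip p ω).OS (Ici a) n) = DD ω n a + LL p n (cshift a ω) := by
  obtain ⟨h1, h2, h3, h4, h5, h6, h7, h8⟩ := h a
  refine sInf_shift h3 h4 fun z => ?_
  rw [OS_shift hSh hRec, Ici_shift]

include hSh hRec in
theorem RE_shift {p : ℝ} {n : ℕ} {ω : Arr} (h : Nice p n ω) (a : ℤ) :
    sSup ((strip p ω).ES (Iic a) n) = DD ω n a + RE p n (cshift a ω) := by
  obtain ⟨h1, h2, h3, h4, h5, h6, h7, h8⟩ := h a
  refine sSup_shift h5 h6 fun z => ?_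
  rw [ES_shift hSh hRec, Iic_shift]

include hSh hRec in
theorem LE_shift {p : ℝ} {n : ℕ} {ω : Arr} (h : Nice p n ω) (a : ℤ) :
    sInf ((strip p ω).ES (Ici a) n) = DD ω n a + LE p n (cshift a ω) := by
  obtain ⟨h1, h2, h3, h4, h5, h6, h7, h8⟩ := h a
  refine sInf_shift h7 h8 fun z => ?_
  rw [ES_shift hSh hRec, Ici_shift]

variable (hWM : WidthMomStmt)

include hWM in
theorem DD_mean (n : ℕ) (b : ℤ) : Integrable (fun ω => ((DD ω n b : ℤ) : ℝ)) (arrLaw (1 / 2)) ∧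
    ∫ ω, ((DD ω n b : ℤ) : ℝ) ∂arrLaw (1 / 2) = b := by
  obtain ⟨h1, h2⟩ := (hWM (1 / 2) (by norm_num) (by norm_num) n).1 b
  refine ⟨h1, ?_⟩
  rw [h2]
  norm_num

include hWM hCs hM in
theorem shift_integral (n : ℕ) (a : ℤ) (F G : Arr → ℤ) (hG : Measurable G)
    (hGi : Integrable (fun ω => (G ω : ℝ)) (arrLaw (1 / 2)))
    (h : ∀ᵐ ω ∂arrLaw (1 / 2), F ω = DD ω n a + G (cshift a ω)) :
    ∫ ω, (F ω : ℝ) ∂arrLaw (1 / 2) = a + ∫ ω, (G ω : ℝ) ∂arrLaw (1 / 2) := by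
  have hmap := hCs (1 / 2) (by norm_num) (by norm_num) a
  have hG' : Measurable fun ω => (G ω : ℝ) := (measurable_of_countable _).comp hG
  have h1 : ∫ ω, (G (cshift a ω) : ℝ) ∂arrLaw (1 / 2) = ∫ ω, (G ω : ℝ) ∂arrLaw (1 / 2) := by
    conv_rhs => rw [← hmap]
    rw [integral_map (hM.2.1 a).aemeasurable hG'.aestronglyMeasurable]
  have h2 : Integrable (fun ω => (G (cshift a ω) : ℝ)) (arrLaw (1 / 2)) := by
    have h3 : Integrable (fun ω => (G ω : ℝ)) ((arrLaw (1 / 2)).map (cshift a)) := by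
      rw [hmap]
      exact hGi
    exact h3.comp_measurable (hM.2.1 a)
  obtain ⟨h3, h4⟩ := DD_mean hWM n a
  have h5 : ∫ ω, (F ω : ℝ) ∂arrLaw (1 / 2) =
      ∫ ω, (((DD ω n a : ℤ) : ℝ) + (G (cshift a ω) : ℝ)) ∂arrLaw (1 / 2) := by
    refine integral_congr_ae ?_
    filter_upwards [h] with ω hω
    rw [hω]
    push_cast
    rfl
  rw [h5, integral_add h3 h2, h4, h1]

end EdgeAux

end CausalPerc.Neg
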