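import Pool.Agent.Lib.MP_a51368_pr.Neg.EdgeEv

/-!
# Module Edge: exponential tails and square integrability
-/

open MeasureTheory Set Filter Topology ProbabilityTheory

noncomputable section

namespace CausalPerc.Neg

namespace EdgeAux

/-! ### Suprema of random sets of integers -/

theorem sSup_eq_iff (S : Set ℤ) (z : ℤ) :
    sSup S = z ↔ (z ∈ S ∧ ∀ y ∈ S, y ≤ z) ∨ (z = 0 ∧ ¬ ∃ w, w ∈ S ∧ ∀ y ∈ S, y ≤ w) := by
  by_cases h : S.Nonempty ∧ BddAbove S
  · have h1 := Int.csSup_mem h.1 h.2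
    have h2 : ∀ y ∈ S, y ≤ sSup S := fun y hy => le_csSup h.2 hy
    constructor
    · rintro rfl
      exact Or.inl ⟨h1, h2⟩
    · rintro (⟨h3, h4⟩ | ⟨_, h4⟩)
      · exact le_antisymm (h4 _ h1) (h2 _ h3)
      · exact absurd ⟨sSup S, h1, h2⟩ h4
  · have h1 : ¬ ∃ w, w ∈ S ∧ ∀ y ∈ S, y ≤ w := by
      rintro ⟨w, hw, h2⟩
      exact h ⟨⟨w, hw⟩, ⟨w, h2⟩⟩
    have h2 : sSup S = 0 := by
      rw [not_and_or] at h
      rcases h with h | h
      · rw [not_nonempty_iff_eq_empty.1 h]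
        exact Int.csSup_empty
      · exact Int.csSup_of_not_bddAbove h
    rw [h2]
    constructor
    · rintro rfl
      exact Or.inr ⟨rfl, h1⟩
    · rintro (⟨h3, h4⟩ | ⟨h3, _⟩)
      · exact absurd ⟨z, h3, h4⟩ h1
      · exact h3.symm

theorem sInf_eq_iff (S : Set ℤ) (z : ℤ) :
    sInf S = z ↔ (z ∈ S ∧ ∀ y ∈ S, z ≤ y) ∨ (z = 0 ∧ ¬ ∃ w, w ∈ S ∧ ∀ y ∈ S, w ≤ y) := by
  by_cases h : S.Nonempty ∧ BddBelow S
  · have h1 := Int.csInf_mem h.1 h.2
    have h2 : ∀ y ∈ S, sInf S ≤ y := fun y hy => csInf_le h.2 hy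
    constructor
    · rintro rfl
      exact Or.inl ⟨h1, h2⟩
    · rintro (⟨h3, h4⟩ | ⟨_, h4⟩)
      · exact le_antisymm (h2 _ h3) (h4 _ h1)
      · exact absurd ⟨sInf S, h1, h2⟩ h4
  · have h1 : ¬ ∃ w, w ∈ S ∧ ∀ y ∈ S, w ≤ y := by
      rintro ⟨w, hw, h2⟩
      exact h ⟨⟨w, hw⟩, ⟨w, h2⟩⟩
    have h2 : sInf S = 0 := by
      rw [not_and_or] at h
      rcases h with h | h
      · rw [not_nonempty_iff_eq_empty.1 h]
        exact Int.csInf_empty
      · exact Int.csInf_of_not_bddBelow h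
    rw [h2]
    constructor
    · rintro rfl
      exact Or.inr ⟨rfl, h1⟩
    · rintro (⟨h3, h4⟩ | ⟨h3, _⟩)
      · exact absurd ⟨z, h3, h4⟩ h1
      · exact h3.symm

open MeasAux in
theorem measurable_sSup {S : Arr → Set ℤ} (hS : MI S) : Measurable fun ω => sSup (S ω) := by
  refine measurable_to_countable' fun z => ?_
  have h1 : (fun ω => sSup (S ω)) ⁻¹' {z} = {ω | (z ∈ S ω ∧ ∀ y, y ∈ S ω → y ≤ z) ∨
      (z = 0 ∧ ¬ ∃ w, w ∈ S ω ∧ ∀ y, y ∈ S ω → y ≤ w)} := by
    ext ω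
    exact sSup_eq_iff (S ω) z
  rw [h1]
  refine measurableSet_setOfPred.2 ?_
  refine ((hS z).and (Measurable.forall fun y => (hS y).imp mc)).or (mc.and ?_)
  exact (Measurable.exists fun w => (hS w).and (Measurable.forall fun y => (hS y).imp mc)).not

open MeasAux in
theorem measurable_sInf {S : Arr → Set ℤ} (hS : MI S) : Measurable fun ω => sInf (S ω) := by
  refine measurable_to_countable' fun z => ?_
  have h1 : (fun ω => sInf (S ω)) ⁻¹' {z} = {ω | (z ∈ S ω ∧ ∀ y, y ∈ S ω → z ≤ y) ∨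
      (z = 0 ∧ ¬ ∃ w, w ∈ S ω ∧ ∀ y, y ∈ S ω → w ≤ y)} := by
    ext ω
    exact sInf_eq_iff (S ω) z
  rw [h1]
  refine measurableSet_setOfPred.2 ?_
  refine ((hS z).and (Measurable.forall fun y => (hS y).imp mc)).or (mc.and ?_)
  exact (Measurable.exists fun w => (hS w).and (Measurable.forall fun y => (hS y).imp mc)).not

/-! ### Square integrability from tails -/

theorem sq_le_tsum (z : ℤ) :
    ENNReal.ofReal ((z : ℝ) ^ 2) ≤
      ∑' A : ℕ, ENNReal.ofReal (2 * A + 1) * (if (A : ℤ) < |z| then 1 else 0) := by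
  have h1 : ∀ N : ℕ, ∑ A ∈ Finset.range N, (2 * (A : ℝ) + 1) = (N : ℝ) ^ 2 := by
    intro N
    induction N with
    | zero => simp
    | succ N ih =>
      rw [Finset.sum_range_succ, ih]
      push_cast
      ring
  have h2 : ENNReal.ofReal ((z : ℝ) ^ 2) =
      ∑ A ∈ Finset.range z.natAbs,
        ENNReal.ofReal (2 * A + 1) * (if (A : ℤ) < |z| then 1 else 0) := by
    have h3 : (z : ℝ) ^ 2 = ((z.natAbs : ℕ) : ℝ) ^ 2 := by
      rw [Nat.cast_natAbs, Int.cast_abs, sq_abs]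
    rw [h3, ← h1, ENNReal.ofReal_sum_of_nonneg fun i _ => by positivity]
    refine Finset.sum_congr rfl fun A hA => ?_
    have h4 : (A : ℤ) < |z| := by
      have h5 := Finset.mem_range.1 hA
      have h6 := Int.natCast_natAbs z
      omega
    rw [if_pos h4, mul_one]
  rw [h2]
  exact ENNReal.sum_le_tsum _

theorem memLp_of_tail {μ : Measure Arr} [IsProbabilityMeasure μ] {Z : Arr → ℤ}
    (hZ : Measurable Z) {t : ℕ → ℝ} (ht : Summable fun A : ℕ => (2 * (A : ℝ) + 1) * t A)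
    (h : ∀ A : ℕ, μ.real {ω | (A : ℤ) < |Z ω|} ≤ t A) :
    MemLp (fun ω => (Z ω : ℝ)) 2 μ := by
  have hZ' : Measurable fun ω => (Z ω : ℝ) := (measurable_of_countable _).comp hZ
  have hm : ∀ A : ℕ, MeasurableSet {ω | (A : ℤ) < |Z ω|} := by
    intro A
    have : {ω | (A : ℤ) < |Z ω|} = Z ⁻¹' {z | (A : ℤ) < |z|} := rfl
    rw [this]
    exact hZ (MeasurableSet.of_discrete)
  rw [memLp_two_iff_integrable_sq hZ'.aestronglyMeasurable]
  refine ⟨(hZ'.pow_const 2).aestronglyMeasurable, ?_⟩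
  rw [hasFiniteIntegral_iff_ofReal (ae_of_all _ fun ω => by positivity)]
  have h1 : ∫⁻ ω, ENNReal.ofReal ((Z ω : ℝ) ^ 2) ∂μ ≤
      ∑' A : ℕ, ENNReal.ofReal ((2 * A + 1) * t A) := by
    refine (lintegral_mono fun ω => sq_le_tsum (Z ω)).trans ?_
    rw [lintegral_tsum]
    · refine ENNReal.tsum_le_tsum fun A => ?_
      rw [lintegral_const_mul']
      · have h2 : ∀ ω, (if (A : ℤ) < |Z ω| then (1 : ENNReal) else 0) =
            {ω | (A : ℤ) < |Z ω|}.indicator 1 ω := by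
          intro ω
          by_cases h3 : (A : ℤ) < |Z ω|
          · rw [if_pos h3, indicator_of_mem (by exact h3)]
            rfl
          · rw [if_neg h3, indicator_of_notMem (by exact h3)]
        rw [lintegral_congr h2, lintegral_indicator_one (hm A),
          ENNReal.ofReal_mul (by positivity)]
        gcongr
        rw [← ofReal_measureReal]
        exact ENNReal.ofReal_le_ofReal (h A)
      · exact ENNReal.ofReal_ne_top
    · intro A
      refine Measurable.aemeasurable ?_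
      refine measurable_const.mul ?_
      exact Measurable.ite (hm A) measurable_const measurable_const
  refine h1.trans_lt ?_
  have h3 : ∀ A : ℕ, 0 ≤ (2 * (A : ℝ) + 1) * t A := fun A =>
    mul_nonneg (by positivity) (measureReal_nonneg.trans (h A))
  rw [← ENNReal.ofReal_tsum_of_nonneg h3 ht]
  exact ENNReal.ofReal_lt_top

theorem summable_lin {C r : ℝ} (hr0 : 0 ≤ r) (hr1 : r < 1) :
    Summable fun A : ℕ => (2 * (A : ℝ) + 1) * (C * r ^ A) := by
  have h1 : Summable fun A : ℕ => (A : ℝ) ^ 1 * r ^ A :=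
    summable_pow_mul_geometric_of_norm_lt_one 1 (by rwa [Real.norm_of_nonneg hr0])
  have h2 : Summable fun A : ℕ => r ^ A := summable_geometric_of_lt_one hr0 hr1
  have h3 : (fun A : ℕ => (2 * (A : ℝ) + 1) * (C * r ^ A)) =
      fun A : ℕ => 2 * C * ((A : ℝ) ^ 1 * r ^ A) + C * r ^ A := by
    funext A
    ring
  rw [h3]
  exact (h1.mul_left _).add (h2.mul_left _)

theorem pow_div_le {q : ℝ} (h0 : 0 ≤ q) (h1 : q < 1) :
    ∃ C r : ℝ, 0 ≤ r ∧ r < 1 ∧ ∀ A : ℕ, q ^ (A / 20) ≤ C * r ^ A := by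
  set s := max q (1 / 2) with hs
  have hs0 : 0 < s := lt_of_lt_of_le (by norm_num) (le_max_right _ _)
  have hs1 : s < 1 := max_lt h1 (by norm_num)
  set l := -Real.log s with hl
  have hl0 : 0 < l := by
    rw [hl, neg_pos]
    exact Real.log_neg hs0 hs1
  refine ⟨Real.exp l, Real.exp (-(l / 20)), (Real.exp_pos _).le, ?_, fun A => ?_⟩
  · rw [Real.exp_lt_one_iff]
    linarith
  · have h2 : s = Real.exp (-l) := by
      rw [hl, neg_neg, Real.exp_log hs0]
    calc q ^ (A / 20) ≤ s ^ (A / 20) := pow_le_pow_left₀ h0 (le_max_left _ _) _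
      _ = Real.exp (((A / 20 : ℕ) : ℝ) * (-l)) := by
        rw [h2, ← Real.exp_nat_mul]
      _ ≤ Real.exp (l + (A : ℝ) * (-(l / 20))) := by
        rw [Real.exp_le_exp]
        have h3 : (A : ℝ) ≤ 20 * ((A / 20 : ℕ) : ℝ) + 20 := by
          have : A ≤ 20 * (A / 20) + 20 := by omega
          exact_mod_cast this
        nlinarith
      _ = Real.exp l * Real.exp (-(l / 20)) ^ A := by
        rw [Real.exp_add, Real.exp_nat_mul]

/-! ### Tail of the widths -/

theorem width_tail (hW : WidthStmt) (n k : ℕ) (A : ℝ) (_hA : 0 ≤ A) :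
    (arrLaw (1 / 2)).real {ω | A ≤ ((DD ω n k : ℤ) : ℝ)} ≤
      Real.exp ((k - A / 10) / (n + 1)) := by
  have := Adapted.arr_prob (α := 1 / 2) (by norm_num) (by norm_num)
  rcases Nat.eq_zero_or_pos n with rfl | hn
  · by_cases h : A ≤ k
    · refine measureReal_le_one.trans ?_
      rw [Real.one_le_exp_iff]
      refine div_nonneg ?_ (by positivity)
      linarith
    · have h1 : {ω : Arr | A ≤ ((DD ω 0 k : ℤ) : ℝ)} = ∅ := by
        ext ω
        simp only [mem_ofPred_eq, mem_empty_iff_false, iff_false]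
        show ¬ A ≤ (((k : ℕ) : ℤ) : ℝ)
        push_cast
        exact h
      rw [h1, measureReal_empty]
      positivity
  · by_cases h : (k : ℝ) - A / 10 ≤ 0
    · have h1 := (hW (1 / 2) le_rfl (by norm_num) n k hn).1 A (by norm_num)
      refine h1.trans ?_
      rw [Real.exp_le_exp]
      have hn' : (0 : ℝ) < n := by exact_mod_cast hn
      rw [div_le_div_iff₀ hn' (by positivity)]
      nlinarith
    · refine measureReal_le_one.trans ?_
      rw [Real.one_le_exp_iff]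
      exact div_nonneg (by linarith) (by positivity)

theorem width_tail_neg (hW : WidthStmt) (hCs : CshiftStmt) (hM : MeasStmt) (hSh : StripShiftStmt)
    (n k : ℕ) (A : ℝ) (hA : 0 ≤ A) :
    (arrLaw (1 / 2)).real {ω | ((DD ω n (-(k : ℤ)) : ℤ) : ℝ) ≤ -A} ≤
      Real.exp ((k - A / 10) / (n + 1)) := by
  have h1 : {ω | ((DD ω n (-(k : ℤ)) : ℤ) : ℝ) ≤ -A} =
      (cshift (-(k : ℤ))) ⁻¹' {ω | A ≤ ((DD ω n k : ℤ) : ℝ)} := by
    ext ω
    simp only [mem_ofPred_eq, mem_preimage]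
    rw [hSh.2.2.1 (-(k : ℤ)) k n ω, add_neg_cancel, DD_zero]
    push_cast
    constructor <;> intro h <;> linarith
  have h2 : MeasurableSet {ω : Arr | A ≤ ((DD ω n k : ℤ) : ℝ)} := by
    have h3 : Measurable fun ω : Arr => ((DD ω n k : ℤ) : ℝ) :=
      (measurable_of_countable _).comp (hM.1 n k)
    exact measurableSet_le measurable_const h3
  rw [h1, ← map_measureReal_apply (hM.2.1 _) h2, hCs (1 / 2) (by norm_num) (by norm_num)]
  exact width_tail hW n k A hA

/-! ### Tails of the edges -/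

theorem real_trials (hCI : ColIndepStmt) (hM : MeasStmt)
    {N : Set Nd} (hN : MeasurableSet N) (hN1 : ∀ z ∈ N, 1 ≤ z.1) (n k : ℕ) (c : ℕ → ℤ)
    (hc : Function.Injective c) :
    (arrLaw (1 / 2)).real {ω | ∀ j < k, cshift (c j) ω ∉ EV N n} =
      (1 - (arrLaw (1 / 2)).real (EV N n)) ^ k := by
  have := Adapted.arr_prob (α := 1 / 2) (by norm_num) (by norm_num)
  unfold Measure.real
  rw [trials hCI hM (by norm_num) (by norm_num) hN hN1 n k c hc, ENNReal.toReal_pow,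
    ENNReal.toReal_sub_of_le prob_le_one ENNReal.one_ne_top, ENNReal.toReal_one]

theorem tail_general (hCI : ColIndepStmt) (hM : MeasStmt) (hW : WidthStmt) (hCs : CshiftStmt)
    (hSh : StripShiftStmt) {N N' : Set Nd}
    (hN : MeasurableSet N) (hN1 : ∀ z ∈ N, 1 ≤ z.1) (hN' : MeasurableSet N')
    (hN1' : ∀ z ∈ N', 1 ≤ z.1) (n : ℕ) (hp : ndLaw (1 / 2) N ≠ 0) (hp' : ndLaw (1 / 2) N' ≠ 0)
    (c c' : ℕ → ℤ) (hc : Function.Injective c) (hc' : Function.Injective c') (Z : Arr → ℤ)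
    (hZ : Measurable Z)
    (h : ∀ (k : ℕ) (ω : Arr), (∃ j < k, cshift (c j) ω ∈ EV N n) →
      (∃ j < k, cshift (c' j) ω ∈ EV N' n) → DD ω n (-(k : ℤ)) ≤ Z ω ∧ Z ω ≤ DD ω n k) :
    MemLp (fun ω => (Z ω : ℝ)) 2 (arrLaw (1 / 2)) := by
  have hP := Adapted.arr_prob (α := 1 / 2) (by norm_num) (by norm_num)
  have hq : ∀ M : Set Nd, MeasurableSet M → ndLaw (1 / 2) M ≠ 0 →
      0 ≤ 1 - (arrLaw (1 / 2)).real (EV M n) ∧ 1 - (arrLaw (1 / 2)).real (EV M n) < 1 := by
    intro M hM' hM0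
    have h1 : 0 < (arrLaw (1 / 2)).real (EV M n) := by
      unfold Measure.real
      refine ENNReal.toReal_pos ?_ (measure_ne_top _ _)
      rw [EV_prob (by norm_num) (by norm_num) hM']
      exact pow_ne_zero _ hM0
    have h2 : (arrLaw (1 / 2)).real (EV M n) ≤ 1 := measureReal_le_one
    exact ⟨by linarith, by linarith⟩
  obtain ⟨q0, q1⟩ := hq N hN hp
  obtain ⟨q0', q1'⟩ := hq N' hN' hp'
  set q := 1 - (arrLaw (1 / 2)).real (EV N n) with hqd
  set q' := 1 - (arrLaw (1 / 2)).real (EV N' n) with hqd'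
  obtain ⟨C, r, hr0, hr1, hr⟩ := pow_div_le q0 q1
  obtain ⟨C', r', hr0', hr1', hr'⟩ := pow_div_le q0' q1'
  set e := Real.exp (-(1 / (20 * ((n : ℝ) + 1)))) with he
  have he0 : 0 ≤ e := (Real.exp_pos _).le
  have he1 : e < 1 := by
    rw [he, Real.exp_lt_one_iff, neg_lt_zero]
    positivity
  refine memLp_of_tail (t := fun A => C * r ^ A + C' * r' ^ A + 2 * e ^ A) hZ ?_ fun A => ?_
  · have h1 := summable_lin (C := C) hr0 hr1
    have h2 := summable_lin (C := C') hr0' hr1'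
    have h3 := summable_lin (C := 2) he0 he1
    have h4 := (h1.add h2).add h3
    convert! h4 using 2
    ring
  · set k := A / 20 with hk
    have hsub : {ω | (A : ℤ) < |Z ω|} ⊆
        ({ω | ∀ j < k, cshift (c j) ω ∉ EV N n} ∪ {ω | ∀ j < k, cshift (c' j) ω ∉ EV N' n}) ∪
        ({ω | (A : ℝ) ≤ ((DD ω n k : ℤ) : ℝ)} ∪
          {ω | ((DD ω n (-(k : ℤ)) : ℤ) : ℝ) ≤ -(A : ℝ)}) := by
      intro ω hω
      by_contra h1
      simp only [mem_union, not_or, mem_ofPred_eq, not_forall, not_not] at h1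
      obtain ⟨⟨⟨j, hj, h2⟩, ⟨j', hj', h3⟩⟩, h4, h5⟩ := h1
      obtain ⟨h6, h7⟩ := h k ω ⟨j, hj, h2⟩ ⟨j', hj', h3⟩
      rw [not_le] at h4 h5
      have h4' : DD ω n k < (A : ℤ) := by exact_mod_cast h4
      have h5' : -(A : ℤ) < DD ω n (-(k : ℤ)) := by exact_mod_cast h5
      have h8 : (A : ℤ) < |Z ω| := hω
      rcases lt_abs.1 h8 with h9 | h9 <;> omega
    have hexp : Real.exp (((k : ℝ) - (A : ℝ) / 10) / (n + 1)) ≤ e ^ A := by
      rw [he, ← Real.exp_nat_mul, Real.exp_le_exp]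
      have h1 : (k : ℝ) ≤ (A : ℝ) / 20 := by
        have h2 : 20 * k ≤ A := by omega
        have h3 : 20 * (k : ℝ) ≤ A := by exact_mod_cast h2
        linarith
      have h4 : (A : ℝ) * -(1 / (20 * ((n : ℝ) + 1))) = (-(A : ℝ) / 20) / (n + 1) := by
        field_simp
      rw [h4]
      exact div_le_div_of_nonneg_right (by linarith) (by positivity)
    calc (arrLaw (1 / 2)).real {ω | (A : ℤ) < |Z ω|}
        ≤ _ := measureReal_mono hsub
      _ ≤ _ := measureReal_union_le _ _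
      _ ≤ ((arrLaw (1 / 2)).real {ω | ∀ j < k, cshift (c j) ω ∉ EV N n} +
          (arrLaw (1 / 2)).real {ω | ∀ j < k, cshift (c' j) ω ∉ EV N' n}) +
          ((arrLaw (1 / 2)).real {ω | (A : ℝ) ≤ ((DD ω n k : ℤ) : ℝ)} +
          (arrLaw (1 / 2)).real {ω | ((DD ω n (-(k : ℤ)) : ℤ) : ℝ) ≤ -(A : ℝ)}) :=
        add_le_add (measureReal_union_le _ _) (measureReal_union_le _ _)
      _ ≤ (C * r ^ A + C' * r' ^ A) + (e ^ A + e ^ A) := by
        refine add_le_add (add_le_add ?_ ?_) (add_le_add ?_ ?_)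
        · rw [real_trials hCI hM hN hN1 n k c hc]
          exact hr A
        · rw [real_trials hCI hM hN' hN1' n k c' hc']
          exact hr' A
        · exact (width_tail hW n k A (Nat.cast_nonneg A)).trans hexp
        · exact (width_tail_neg hW hCs hM hSh n k A (Nat.cast_nonneg A)).trans hexp
      _ = _ := by ring

end EdgeAux

end CausalPerc.Neg
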