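import Pool.Agent.Lib.MP_a51368_pr.Neg.Spec2
import Pool.Agent.Lib.MP_a51368_pr.Neg.Meas
import Pool.Agent.Lib.MP_a51368_pr.Neg.Recentre
import Pool.Agent.Lib.MP_a51368_pr.Neg.Adapted
import Pool.Agent.Lib.MP_a51368_pr.Sel

/-!
# Exits of the oriented process, part A: deterministic step, translation, measurability
-/

open MeasureTheory ProbabilityTheory Set Relation

noncomputable section

namespace CausalPerc.Neg

namespace ExitAux

/-- Exit to the right of the line of `c`, started to the left of `a`. -/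
def eR (p : ℝ) (n : ℕ) (a c : ℤ) : Set Arr :=
  {ω | ∃ x ≤ a, ∃ t ≤ n, ∃ z, (strip p ω).OConn n univ (0, x) (t, z) ∧ DD ω t c ≤ z}

/-- Exit to the left of the line of `c`, started to the right of `a`. -/
def eL (p : ℝ) (n : ℕ) (a c : ℤ) : Set Arr :=
  {ω | ∃ x, a ≤ x ∧ ∃ t ≤ n, ∃ z, (strip p ω).OConn n univ (0, x) (t, z) ∧ z ≤ DD ω t c}

open MeasAux in
theorem meas_eR (p : ℝ) (n : ℕ) (a c : ℤ) : MeasurableSet (eR p n a c) := by
  apply measurableSet_setOfPred.2
  refine Measurable.exists fun x => mc.and (Measurable.exists fun t => mc.and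
    (Measurable.exists fun z => (m_OConn p m_univ n _ _).and (mle (meas_DD t c) measurable_const)))

open MeasAux in
theorem meas_eL (p : ℝ) (n : ℕ) (a c : ℤ) : MeasurableSet (eL p n a c) := by
  apply measurableSet_setOfPred.2
  refine Measurable.exists fun x => mc.and (Measurable.exists fun t => mc.and
    (Measurable.exists fun z => (m_OConn p m_univ n _ _).and (mle measurable_const (meas_DD t c))))

/-- Translation. -/
theorem preimage_eR (p : ℝ) (n : ℕ) (a c : ℤ) :
    cshift a ⁻¹' (eR p n 0 (c - a)) = eR p n a c := by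
  obtain ⟨h1, -, h3, -⟩ := stripShift
  ext ω
  obtain ⟨-, -, -, h4, -⟩ := recentreS (strip p ω) a
  simp only [mem_preimage, eR, mem_ofPred_eq, h1, h3, h4, strip_D]
  constructor
  · rintro ⟨x, hx, t, ht, z, h5, h6⟩
    refine ⟨x + a, by omega, t, ht, z + DD ω t a, h5, ?_⟩
    rw [sub_add_cancel] at h6
    omega
  · rintro ⟨x, hx, t, ht, z, h5, h6⟩
    refine ⟨x - a, by omega, t, ht, z - DD ω t a, ?_, ?_⟩
    · have e1 : x - a + DD ω 0 a = x := by change x - a + a = x; ring
      rw [e1, sub_add_cancel]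
      exact h5
    · rw [sub_add_cancel]
      omega

theorem preimage_eL (p : ℝ) (n : ℕ) (a c : ℤ) :
    cshift a ⁻¹' (eL p n 0 (c - a)) = eL p n a c := by
  obtain ⟨h1, -, h3, -⟩ := stripShift
  ext ω
  obtain ⟨-, -, -, h4, -⟩ := recentreS (strip p ω) a
  simp only [mem_preimage, eL, mem_ofPred_eq, h1, h3, h4, strip_D]
  constructor
  · rintro ⟨x, hx, t, ht, z, h5, h6⟩
    refine ⟨x + a, by omega, t, ht, z + DD ω t a, h5, ?_⟩
    rw [sub_add_cancel] at h6
    omega
  · rintro ⟨x, hx, t, ht, z, h5, h6⟩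
    refine ⟨x - a, by omega, t, ht, z - DD ω t a, ?_, ?_⟩
    · have e1 : x - a + DD ω 0 a = x := by change x - a + a = x; ring
      rw [e1, sub_add_cancel]
      exact h5
    · rw [sub_add_cancel]
      omega

theorem law_eR (hC : CshiftStmt) {α : ℝ} (h0 : 0 ≤ α) (h1 : α < 1) (p : ℝ) (n : ℕ) (a c : ℤ) :
    arrLaw α (eR p n a c) = arrLaw α (eR p n 0 (c - a)) := by
  rw [← preimage_eR, ← Measure.map_apply (meas.2.1 a) (meas_eR p n 0 (c - a)), hC α h0 h1 a]

theorem law_eL (hC : CshiftStmt) {α : ℝ} (h0 : 0 ≤ α) (h1 : α < 1) (p : ℝ) (n : ℕ) (a c : ℤ) :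
    arrLaw α (eL p n a c) = arrLaw α (eL p n 0 (c - a)) := by
  rw [← preimage_eL, ← Measure.map_apply (meas.2.1 a) (meas_eL p n 0 (c - a)), hC α h0 h1 a]

/-- One layer of an oriented walk blocked on the right by a closed edge. -/
theorem walkR (E : Strip) (n : ℕ) (d x : ℤ) (hx : x ≤ d) (hd : ¬ E.ho 0 d) (v : ℕ × ℤ)
    (h : E.OConn (n + 1) univ (0, x) v) :
    (v.1 = 0 ∧ v.2 ≤ d) ∨ ∃ t, v.1 = 1 + t ∧ ∃ y ≤ E.S 0 (d + 1),
      (E.shift 1).OConn n univ (0, y) (t, v.2) := by
  induction h with
  | refl => exact Or.inl ⟨rfl, hx⟩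
  | tail _ hbc ih =>
    rename_i b c
    obtain ⟨-, -, h3⟩ := hbc
    rcases ih with ⟨h4, h5⟩ | ⟨t, h4, y, h5, h6⟩
    · rcases h3 with h | h | h
      · cases h with
        | mk t x' y' ht hv ho =>
          simp only at h4 h5
          subst h4
          right
          refine ⟨0, rfl, y', ?_, ReflTransGen.refl⟩
          exact hv.2.trans (E.S_mono 0 (by omega))
      · cases h with
        | mk t x' ht ho =>
          simp only at h4 h5
          subst h4
          left
          refine ⟨rfl, ?_⟩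
          have : x' ≠ d := fun h => hd (h ▸ ho)
          simp only
          omega
      · cases h with
        | mk t x' ht ho =>
          simp only at h4 h5
          subst h4
          left
          refine ⟨rfl, ?_⟩
          simp only
          omega
    · right
      rcases h3 with h | h | h
      · cases h with
        | mk s x' y' ht hv ho =>
          simp only at h4 h6
          subst h4
          exact ⟨t + 1, rfl, y, h5, h6.tail ⟨mem_univ _, mem_univ _, Or.inl
            (.mk t x' y' (by omega) hv ho)⟩⟩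
      · cases h with
        | mk s x' ht ho =>
          simp only at h4 h6
          subst h4
          exact ⟨t, rfl, y, h5, h6.tail ⟨mem_univ _, mem_univ _, Or.inr (Or.inl
            (.mk t x' (by omega) ho))⟩⟩
      · cases h with
        | mk s x' ht ho =>
          simp only at h4 h6
          subst h4
          exact ⟨t, rfl, y, h5, h6.tail ⟨mem_univ _, mem_univ _, Or.inr (Or.inr
            (.mk t x' (by omega) ho))⟩⟩

/-- One layer of an oriented walk blocked on the left by a closed edge `(d-1, d)`. -/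
theorem walkL (E : Strip) (n : ℕ) (d x : ℤ) (hx : d ≤ x) (hd : ¬ E.ho 0 (d - 1)) (v : ℕ × ℤ)
    (h : E.OConn (n + 1) univ (0, x) v) :
    (v.1 = 0 ∧ d ≤ v.2) ∨ ∃ t, v.1 = 1 + t ∧ ∃ y, E.S 0 d ≤ y ∧
      (E.shift 1).OConn n univ (0, y) (t, v.2) := by
  induction h with
  | refl => exact Or.inl ⟨rfl, hx⟩
  | tail _ hbc ih =>
    rename_i b c
    obtain ⟨-, -, h3⟩ := hbc
    rcases ih with ⟨h4, h5⟩ | ⟨t, h4, y, h5, h6⟩
    · rcases h3 with h | h | h
      · cases h with
        | mk t x' y' ht hv ho =>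
          simp only at h4 h5
          subst h4
          right
          refine ⟨0, rfl, y', ?_, ReflTransGen.refl⟩
          exact (E.S_mono 0 h5).trans hv.1
      · cases h with
        | mk t x' ht ho =>
          simp only at h4 h5
          subst h4
          left
          refine ⟨rfl, ?_⟩
          simp only
          omega
      · cases h with
        | mk t x' ht ho =>
          simp only at h4 h5
          subst h4
          left
          refine ⟨rfl, ?_⟩
          have : x' ≠ d - 1 := fun h => hd (h ▸ ho)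
          simp only
          omega
    · right
      rcases h3 with h | h | h
      · cases h with
        | mk s x' y' ht hv ho =>
          simp only at h4 h6
          subst h4
          exact ⟨t + 1, rfl, y, h5, h6.tail ⟨mem_univ _, mem_univ _, Or.inl
            (.mk t x' y' (by omega) hv ho)⟩⟩
      · cases h with
        | mk s x' ht ho =>
          simp only at h4 h6
          subst h4
          exact ⟨t, rfl, y, h5, h6.tail ⟨mem_univ _, mem_univ _, Or.inr (Or.inl
            (.mk t x' (by omega) ho))⟩⟩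
      · cases h with
        | mk s x' ht ho =>
          simp only at h4 h6
          subst h4
          exact ⟨t, rfl, y, h5, h6.tail ⟨mem_univ _, mem_univ _, Or.inr (Or.inr
            (.mk t x' (by omega) ho))⟩⟩

theorem stepR (p : ℝ) (n : ℕ) (d c : ℤ) (h0 : 0 ≤ d) (hdc : d < c) (ω : Arr)
    (hd : ¬ (strip p ω).ho 0 d) (h : ω ∈ eR p (n + 1) 0 c) :
    post 1 ω ∈ eR p n (ps (xi ω 0) (d + 1)) (ps (xi ω 0) c) := by
  obtain ⟨-, h2, -, h4⟩ := stripShift
  obtain ⟨x, hx, t, ht, z, h5, h6⟩ := h
  rcases walkR _ n d x (by omega) hd _ h5 with ⟨h7, h8⟩ | ⟨s, h7, y, h8, h9⟩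
  · simp only at h7 h8
    subst h7
    have : DD ω 0 c = c := rfl
    omega
  · simp only at h7
    subst h7
    refine ⟨y, h8, s, by omega, z, ?_, ?_⟩
    · rw [h2]; exact h9
    · have h10 : ps (xi ω 0) c = DD ω 1 c := rfl
      rw [h10, h4]
      exact h6

theorem stepL (p : ℝ) (n : ℕ) (d c : ℤ) (h0 : d ≤ 0) (hdc : c < d) (ω : Arr)
    (hd : ¬ (strip p ω).ho 0 (d - 1)) (h : ω ∈ eL p (n + 1) 0 c) :
    post 1 ω ∈ eL p n (ps (xi ω 0) d) (ps (xi ω 0) c) := by
  obtain ⟨-, h2, -, h4⟩ := stripShift
  obtain ⟨x, hx, t, ht, z, h5, h6⟩ := h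
  rcases walkL _ n d x (by omega) hd _ h5 with ⟨h7, h8⟩ | ⟨s, h7, y, h8, h9⟩
  · simp only at h7 h8
    subst h7
    have : DD ω 0 c = c := rfl
    omega
  · simp only at h7
    subst h7
    refine ⟨y, h8, s, by omega, z, ?_, ?_⟩
    · rw [h2]; exact h9
    · have h10 : ps (xi ω 0) c = DD ω 1 c := rfl
      rw [h10, h4]
      exact h6

end ExitAux

end CausalPerc.Neg
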