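import Pool.Agent.Lib.MP_a51368_pr.Neg.ExitA

/-!
# Exits of the oriented process, part B: the recursion over the rows
-/

open MeasureTheory ProbabilityTheory Set Relation

noncomputable section

namespace CausalPerc.Neg

namespace ExitAux

/-- Product functionals of row `0`. -/
theorem row_prod {α : ℝ} (h0 : 0 ≤ α) (h1 : α < 1) (pos : ℕ → ℤ) (hpos : Function.Injective pos)
    (g : ℕ) (F : ℕ → Nd → ENNReal) (hF : ∀ j, Measurable (F j)) :
    ∫⁻ ω, ∏ j ∈ Finset.range g, F j (ω 0 (pos j)) ∂arrLaw α =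
      ∏ j ∈ Finset.range g, ∫⁻ x, F j x ∂ndLaw α := by
  have := Adapted.nd_prob h0 h1
  have := Adapted.row_prob h0 h1
  have hmap : (arrLaw α).map (fun (ω : Arr) (j : ℕ) => ω 0 (pos j)) =
      Measure.infinitePi fun _ : ℕ => ndLaw α := by
    have h2 : (arrLaw α).map (fun ω : Arr => ω 0) = rowLaw α :=
      Measure.infinitePi_map_eval (fun _ : ℕ => rowLaw α) 0
    have h3 : (rowLaw α).map (fun (r : Row) (j : ℕ) => r (pos j)) =
        Measure.infinitePi fun _ : ℕ => ndLaw α :=
      Measure.map_infinitePi_infinitePi_of_inj (P := fun _ : ℤ => ndLaw α) hpos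
    rw [← h3, ← h2, Measure.map_map]
    · rfl
    · exact measurable_pi_iff.2 fun j => measurable_pi_apply _
    · exact measurable_pi_apply 0
  have hind : iIndepFun (fun (j : ℕ) (η : ℕ → Nd) => F j (η j))
      (Measure.infinitePi fun _ : ℕ => ndLaw α) :=
    iIndepFun_infinitePi (P := fun _ : ℕ => ndLaw α) (X := fun j x => F j x) hF
  have h4 := lintegral_prod_eq_prod_lintegral_of_indepFun (Finset.range g) _ hind
    (fun j => (hF j).comp (measurable_pi_apply j))
  have h5 : ∀ j, ∫⁻ η : ℕ → Nd, F j (η j) ∂(Measure.infinitePi fun _ : ℕ => ndLaw α) =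
      ∫⁻ x, F j x ∂ndLaw α := by
    intro j
    conv_rhs => rw [← Measure.infinitePi_map_eval (fun _ : ℕ => ndLaw α) j]
    rw [lintegral_map (hF j) (measurable_pi_apply j)]
  rw [Finset.prod_congr rfl (fun j _ => h5 j), ← hmap, lintegral_map] at h4
  · exact h4
  · exact Finset.measurable_prod _ fun j _ => (hF j).comp (measurable_pi_apply j)
  · exact measurable_pi_iff.2 fun j => (measurable_pi_apply (pos j)).comp (measurable_pi_apply 0)

/-- The horizontal edge of the node is open. -/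
def opn (p : ℝ) : Set Nd := {x | ((x.2 0 : unitInterval) : ℝ) ≤ p}

theorem meas_opn (p : ℝ) : MeasurableSet (opn p) :=
  measurableSet_le (measurable_subtype_coe.comp ((measurable_pi_apply 0).comp measurable_snd))
    measurable_const

/-- The label part. -/
def lopn (p : ℝ) : Set (ℕ → unitInterval) := {f | ((f 0 : unitInterval) : ℝ) ≤ p}

theorem meas_lopn (p : ℝ) : MeasurableSet (lopn p) :=
  measurableSet_le (measurable_subtype_coe.comp (measurable_pi_apply 0)) measurable_const

theorem law_lopn {p : ℝ} (h0 : 0 ≤ p) (h1 : p ≤ 1) :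
    (Measure.infinitePi fun _ : ℕ => (volume : Measure unitInterval)) (lopn p) =
      ENNReal.ofReal p := by
  have h : lopn p = Set.pi (({0} : Finset ℕ) : Set ℕ) fun _ => {x : unitInterval | (x : ℝ) ≤ p} := by
    ext f; simp [lopn]
  rw [h, Measure.infinitePi_pi _ fun _ _ => mLe p]
  simp [volume_le h0 h1]

theorem law_lopn_compl {p : ℝ} (h0 : 0 ≤ p) (h1 : p ≤ 1) :
    (Measure.infinitePi fun _ : ℕ => (volume : Measure unitInterval)) (lopn p)ᶜ =
      ENNReal.ofReal (1 - p) := by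
  rw [prob_compl_eq_one_sub (meas_lopn p), law_lopn h0 h1, ENNReal.ofReal_sub _ h0,
    ENNReal.ofReal_one]

theorem int_opn {α p : ℝ} (ha0 : 0 ≤ α) (ha1 : α < 1) (h0 : 0 ≤ p) (h1 : p ≤ 1) :
    ∫⁻ x, (opn p).indicator 1 x ∂ndLaw α = ENNReal.ofReal p := by
  have := geo_prob ha0 ha1
  rw [lintegral_indicator_one (meas_opn p)]
  have h : opn p = univ ×ˢ lopn p := by
    ext x; simp [opn, lopn]
  rw [h, ndLaw, Measure.prod_prod, law_lopn h0 h1, measure_univ, one_mul]

/-- Generating function of the geometric law. -/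
theorem int_geo {α s : ℝ} (ha0 : 0 ≤ α) (ha1 : α < 1) (h0 : 0 ≤ s) (h1 : s ≤ 1) :
    ∫⁻ k, ENNReal.ofReal (s ^ k) ∂geo α = ENNReal.ofReal ((1 - α) / (1 - α * s)) := by
  unfold geo
  rw [lintegral_sum_measure]
  have h2 : ∀ k : ℕ, ∫⁻ a, ENNReal.ofReal (s ^ a) ∂(ENNReal.ofReal (α ^ k * (1 - α)) •
      Measure.dirac k) = ENNReal.ofReal ((1 - α) * (α * s) ^ k) := by
    intro k
    rw [lintegral_smul_measure, lintegral_dirac, smul_eq_mul, ← ENNReal.ofReal_mul]
    · congr 1
      rw [mul_pow]; ring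
    · exact mul_nonneg (pow_nonneg ha0 k) (by linarith)
  rw [tsum_congr h2]
  have h3 : 0 ≤ α * s := mul_nonneg ha0 h0
  have h4 : α * s < 1 := by nlinarith
  rw [← ENNReal.ofReal_tsum_of_nonneg]
  · rw [tsum_mul_left, tsum_geometric_of_lt_one h3 h4]
    rfl
  · intro k
    exact mul_nonneg (by linarith) (pow_nonneg h3 k)
  · exact (summable_geometric_of_lt_one h3 h4).mul_left _

/-- The weight of the number of children. -/
def wgt (s : ℝ) (x : Nd) : ENNReal := ENNReal.ofReal (s ^ x.1)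

theorem meas_wgt (s : ℝ) : Measurable (wgt s) :=
  (measurable_of_countable fun k : ℕ => ENNReal.ofReal (s ^ k)).comp measurable_fst

theorem int_wgt {α s : ℝ} (ha0 : 0 ≤ α) (ha1 : α < 1) (h0 : 0 ≤ s) (h1 : s ≤ 1) :
    ∫⁻ x, wgt s x ∂ndLaw α = ENNReal.ofReal ((1 - α) / (1 - α * s)) := by
  have := geo_prob ha0 ha1
  have h2 : ∫⁻ x, wgt s x ∂ndLaw α = ∫⁻ x : Nd, ENNReal.ofReal (s ^ x.1) * 1 ∂((geo α).prod
      (Measure.infinitePi fun _ : ℕ => (volume : Measure unitInterval))) := by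
    simp only [mul_one]
    rfl
  rw [h2, lintegral_prod_mul (f := fun k : ℕ => ENNReal.ofReal (s ^ k)) (g := fun _ => 1)
    (measurable_of_countable _).aemeasurable aemeasurable_const, int_geo ha0 ha1 h0 h1]
  simp

theorem int_closed {α p : ℝ} (ha0 : 0 ≤ α) (ha1 : α < 1) (h0 : 0 ≤ p) (h1 : p ≤ 1) :
    ∫⁻ x, (opn p)ᶜ.indicator 1 x ∂ndLaw α = ENNReal.ofReal (1 - p) := by
  have := geo_prob ha0 ha1
  rw [lintegral_indicator_one (meas_opn p).compl]
  have h : (opn p)ᶜ = univ ×ˢ (lopn p)ᶜ := by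
    ext x; simp [opn, lopn]
  rw [h, ndLaw, Measure.prod_prod, law_lopn_compl h0 h1, measure_univ, one_mul]

/-- The first `k` edges are open, the next one is closed. -/
def firstC (p : ℝ) (pos : ℕ → ℤ) (k : ℕ) : Set Arr :=
  {ω | (∀ j < k, ω 0 (pos j) ∈ opn p) ∧ ω 0 (pos k) ∉ opn p}

/-- The factors. -/
def fac (p s : ℝ) (k j : ℕ) : Nd → ENNReal :=
  if j < k then (opn p).indicator 1 else if j = k then (opn p)ᶜ.indicator 1 else wgt s

theorem meas_fac (p s : ℝ) (k j : ℕ) : Measurable (fac p s k j) := by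
  unfold fac
  split_ifs
  · exact measurable_one.indicator (meas_opn p)
  · exact measurable_one.indicator (meas_opn p).compl
  · exact meas_wgt s

theorem int_fac {α p s : ℝ} (ha0 : 0 ≤ α) (ha1 : α < 1) (h0 : 0 ≤ p) (h1 : p ≤ 1)
    (hs0 : 0 ≤ s) (hs1 : s ≤ 1) (k r : ℕ) :
    ∏ j ∈ Finset.range (k + 1 + r), ∫⁻ x, fac p s k j x ∂ndLaw α =
      ENNReal.ofReal (p ^ k * (1 - p) * ((1 - α) / (1 - α * s)) ^ r) := by
  have hf0 : 0 ≤ (1 - α) / (1 - α * s) := by
    apply div_nonneg (by linarith)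
    nlinarith
  rw [Finset.prod_range_add, Finset.prod_range_succ]
  have h2 : ∀ j ∈ Finset.range k, ∫⁻ x, fac p s k j x ∂ndLaw α = ENNReal.ofReal p := by
    intro j hj
    unfold fac
    rw [if_pos (Finset.mem_range.1 hj)]
    exact int_opn ha0 ha1 h0 h1
  have h3 : ∫⁻ x, fac p s k k x ∂ndLaw α = ENNReal.ofReal (1 - p) := by
    unfold fac
    rw [if_neg (lt_irrefl _), if_pos rfl]
    exact int_closed ha0 ha1 h0 h1
  have h4 : ∀ j ∈ Finset.range r, ∫⁻ x, fac p s k (k + 1 + j) x ∂ndLaw α =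
      ENNReal.ofReal ((1 - α) / (1 - α * s)) := by
    intro j _
    unfold fac
    rw [if_neg (by omega), if_neg (by omega)]
    exact int_wgt ha0 ha1 hs0 hs1
  rw [Finset.prod_congr rfl h2, h3, Finset.prod_congr rfl h4, Finset.prod_const,
    Finset.prod_const, Finset.card_range, Finset.card_range, ← ENNReal.ofReal_pow h0,
    ← ENNReal.ofReal_pow hf0, ← ENNReal.ofReal_mul (pow_nonneg h0 k),
    ← ENNReal.ofReal_mul (mul_nonneg (pow_nonneg h0 k) (by linarith))]

theorem prod_fac (p s : ℝ) (hs0 : 0 ≤ s) (pos : ℕ → ℤ) (k r : ℕ) (ω : Arr)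
    (hω : ω ∈ firstC p pos k) :
    ∏ j ∈ Finset.range (k + 1 + r), fac p s k j (ω 0 (pos j)) =
      ENNReal.ofReal (s ^ (∑ j ∈ Finset.range r, xi ω 0 (pos (k + 1 + j)))) := by
  rw [Finset.prod_range_add, Finset.prod_range_succ]
  have h2 : ∀ j ∈ Finset.range k, fac p s k j (ω 0 (pos j)) = 1 := by
    intro j hj
    unfold fac
    rw [if_pos (Finset.mem_range.1 hj)]
    exact indicator_of_mem (hω.1 j (Finset.mem_range.1 hj)) _
  have h3 : fac p s k k (ω 0 (pos k)) = 1 := by
    unfold fac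
    rw [if_neg (lt_irrefl _), if_pos rfl]
    exact indicator_of_mem (show ω 0 (pos k) ∈ (opn p)ᶜ from hω.2) _
  have h4 : ∀ j ∈ Finset.range r, fac p s k (k + 1 + j) (ω 0 (pos (k + 1 + j))) =
      ENNReal.ofReal (s ^ (xi ω 0 (pos (k + 1 + j)))) := by
    intro j _
    unfold fac
    rw [if_neg (by omega), if_neg (by omega)]
    rfl
  rw [Finset.prod_congr rfl h2, h3, Finset.prod_congr rfl h4, Finset.prod_const_one, one_mul,
    one_mul, ← ENNReal.ofReal_prod_of_nonneg (fun i _ => pow_nonneg hs0 _),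
    Finset.prod_pow_eq_pow_sum]

theorem meas_firstC (p : ℝ) (pos : ℕ → ℤ) (k : ℕ) : MeasurableSet (firstC p pos k) := by
  have h : firstC p pos k = (⋂ j ∈ Finset.range k, (fun ω : Arr => ω 0 (pos j)) ⁻¹' opn p) ∩
      ((fun ω : Arr => ω 0 (pos k)) ⁻¹' opn p)ᶜ := by
    ext ω
    simp [firstC]
  rw [h]
  refine MeasurableSet.inter ?_ ?_
  · exact Finset.measurableSet_biInter _ fun j _ =>
      (MeasAux.meas_node 0 (pos j)) (meas_opn p)
  · exact ((MeasAux.meas_node 0 (pos k)) (meas_opn p)).compl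

/-- All of the first `g` edges are open. -/
def allO (p : ℝ) (pos : ℕ → ℤ) (g : ℕ) : Set Arr := {ω | ∀ j < g, ω 0 (pos j) ∈ opn p}

theorem law_allO {α p : ℝ} (ha0 : 0 ≤ α) (ha1 : α < 1) (h0 : 0 ≤ p) (h1 : p ≤ 1) (pos : ℕ → ℤ)
    (hpos : Function.Injective pos) (g : ℕ) :
    arrLaw α (allO p pos g) = ENNReal.ofReal (p ^ g) := by
  have hm : MeasurableSet (allO p pos g) := by
    have h : allO p pos g = ⋂ j ∈ Finset.range g, (fun ω : Arr => ω 0 (pos j)) ⁻¹' opn p := by
      ext ω
      simp [allO]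
    rw [h]
    exact Finset.measurableSet_biInter _ fun j _ =>
      (MeasAux.meas_node 0 (pos j)) (meas_opn p)
  have h2 := row_prod ha0 ha1 pos hpos g (fun _ => (opn p).indicator 1)
    (fun _ => measurable_one.indicator (meas_opn p))
  rw [Finset.prod_congr rfl (fun j _ => int_opn ha0 ha1 h0 h1), Finset.prod_const,
    Finset.card_range, ← ENNReal.ofReal_pow h0] at h2
  rw [← h2, ← lintegral_indicator_one hm]
  refine lintegral_congr fun ω => ?_
  by_cases hω : ω ∈ allO p pos g
  · rw [indicator_of_mem hω, Finset.prod_eq_one]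
    · rfl
    · intro j hj
      exact indicator_of_mem (hω j (Finset.mem_range.1 hj)) _
  · rw [indicator_of_notMem hω]
    have : ∃ j < g, ω 0 (pos j) ∉ opn p := by
      by_contra hcon
      push Not at hcon
      exact hω hcon
    obtain ⟨j, hj, hj2⟩ := this
    exact (Finset.prod_eq_zero (Finset.mem_range.2 hj) (indicator_of_notMem hj2 _)).symm

/-- The recursion. -/
theorem recur (hS : SplitStmt) {α p s c : ℝ} (ha0 : 0 ≤ α) (ha1 : α < 1) (h0 : 0 ≤ p)
    (h1 : p < 1) (hs0 : 0 ≤ s) (hs1 : s ≤ 1) (hc : 1 ≤ c)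
    (hps : p < (1 - α) / (1 - α * s)) (pos : ℕ → ℤ)
    (hpos : Function.Injective pos) (g : ℕ) (Ev : Set Arr) (Q : ℕ → Arr → Set Arr)
    (hQ1 : ∀ k < g, ∀ ω ∈ Ev, ω ∈ firstC p pos k → post 1 ω ∈ Q k ω)
    (hQ2 : ∀ k < g, ∀ ω ω' : Arr, ω 0 = ω' 0 → Q k ω = Q k ω')
    (hQ3 : ∀ k < g, MeasurableSet {q : Arr × Arr | q.2 ∈ Q k q.1})
    (hQ4 : ∀ k < g, ∀ ω, arrLaw α (Q k ω) ≤
      ENNReal.ofReal (c * s ^ (∑ j ∈ Finset.range (g - k - 1), xi ω 0 (pos (k + 1 + j))))) :
    arrLaw α Ev ≤ ENNReal.ofReal (c * ((1 - p) / ((1 - α) / (1 - α * s) - p)) *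
      ((1 - α) / (1 - α * s)) ^ g) := by
  have := Adapted.arr_prob ha0 ha1
  set f := (1 - α) / (1 - α * s) with hf
  have hf0 : 0 ≤ f := h0.trans hps.le
  let C : ℕ → Set Arr := fun k => {ω | ω ∈ firstC p pos k ∧ post 1 ω ∈ Q k ω}
  have hsub : Ev ⊆ allO p pos g ∪ ⋃ k ∈ Finset.range g, C k := by
    intro ω hω
    by_cases hall : ω ∈ allO p pos g
    · exact Or.inl hall
    · right
      have hex : ∃ j, j < g ∧ ω 0 (pos j) ∉ opn p := by
        by_contra hcon
        push Not at hcon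
        exact hall hcon
      classical
      have h3 := Nat.find_spec hex
      have h4 : ∀ j < Nat.find hex, ω 0 (pos j) ∈ opn p := by
        intro j hj
        by_contra hcon
        exact Nat.find_min hex hj ⟨by omega, hcon⟩
      have h5 : ω ∈ firstC p pos (Nat.find hex) := ⟨h4, h3.2⟩
      exact mem_biUnion (Finset.mem_range.2 h3.1) ⟨h5, hQ1 _ h3.1 ω hω h5⟩
  have hCk : ∀ k ∈ Finset.range g, arrLaw α (C k) ≤
      ENNReal.ofReal (c * (p ^ k * (1 - p) * f ^ (g - 1 - k))) := by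
    intro k hk
    have hkg := Finset.mem_range.1 hk
    let D : Set (Arr × Arr) := {q | q.1 ∈ firstC p pos k ∧ q.2 ∈ Q k q.1}
    have hD : MeasurableSet D :=
      ((meas_firstC p pos k).preimage measurable_fst).inter (hQ3 k hkg)
    let F : Arr → Arr → ENNReal := fun ω η => D.indicator 1 (ω, η)
    have hCm : MeasurableSet (C k) := hD.preimage (measurable_id.prodMk (MeasAux.meas_post 1))
    have h3 : arrLaw α (C k) = ∫⁻ ω, F ω (post 1 ω) ∂arrLaw α := by
      rw [← lintegral_indicator_one hCm]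
      rfl
    have h4 := hS α ha0 ha1 1 F (measurable_one.indicator hD) (by
      intro ω ω' η hω
      have h5 := hω 0 (by norm_num)
      have h6 : ((ω, η) ∈ D) = ((ω', η) ∈ D) := by
        change (ω ∈ firstC p pos k ∧ η ∈ Q k ω) = (ω' ∈ firstC p pos k ∧ η ∈ Q k ω')
        rw [hQ2 k hkg ω ω' h5]
        simp only [firstC, mem_ofPred_eq, h5]
      change D.indicator 1 (ω, η) = D.indicator 1 (ω', η)
      by_cases h7 : (ω, η) ∈ D
      · rw [indicator_of_mem h7, indicator_of_mem (h6 ▸ h7)]; rfl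
      · rw [indicator_of_notMem h7, indicator_of_notMem (fun h => h7 (h6.symm ▸ h))])
    rw [h3, h4]
    obtain ⟨r, rfl⟩ : ∃ r, g = k + 1 + r := ⟨g - (k + 1), by omega⟩
    have hr : k + 1 + r - k - 1 = r := by omega
    have hr' : k + 1 + r - 1 - k = r := by omega
    have h5 : ∀ ω, ∫⁻ η, F ω η ∂arrLaw α ≤
        ENNReal.ofReal c * ∏ j ∈ Finset.range (k + 1 + r), fac p s k j (ω 0 (pos j)) := by
      intro ω
      by_cases hω : ω ∈ firstC p pos k
      · rw [prod_fac p s hs0 pos k r ω hω, ← ENNReal.ofReal_mul (by linarith)]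
        have h6 : ∫⁻ η, F ω η ∂arrLaw α ≤ arrLaw α (Q k ω) := by
          have h7 : ∀ η, F ω η ≤ (Q k ω).indicator 1 η := by
            intro η
            by_cases hη : η ∈ Q k ω
            · rw [indicator_of_mem hη]
              exact indicator_le_self' (fun _ _ => zero_le) _
            · rw [indicator_of_notMem hη]
              change D.indicator 1 (ω, η) ≤ 0
              rw [indicator_of_notMem (fun h => hη h.2)]
          refine (lintegral_mono h7).trans ?_
          exact lintegral_indicator_one_le _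
        refine h6.trans ?_
        have h8 := hQ4 k hkg ω
        rwa [hr] at h8
      · have h6 : ∀ η, F ω η = 0 := fun η => indicator_of_notMem (fun h => hω h.1) _
        simp only [h6, lintegral_zero]
        exact zero_le
    refine (lintegral_mono h5).trans ?_
    rw [lintegral_const_mul, row_prod ha0 ha1 pos hpos _ _ (meas_fac p s k),
      int_fac ha0 ha1 h0 h1.le hs0 hs1 k r, ← ENNReal.ofReal_mul (by linarith), hr']
    exact Finset.measurable_prod _ fun j _ => (meas_fac p s k j).comp (MeasAux.meas_node 0 _)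
  calc arrLaw α Ev ≤ arrLaw α (allO p pos g ∪ ⋃ k ∈ Finset.range g, C k) := measure_mono hsub
    _ ≤ arrLaw α (allO p pos g) + arrLaw α (⋃ k ∈ Finset.range g, C k) := measure_union_le _ _
    _ ≤ ENNReal.ofReal (p ^ g) + ∑ k ∈ Finset.range g,
        ENNReal.ofReal (c * (p ^ k * (1 - p) * f ^ (g - 1 - k))) := by
        refine add_le_add (law_allO ha0 ha1 h0 h1.le pos hpos g).le ?_
        exact (measure_biUnion_finset_le _ _).trans (Finset.sum_le_sum hCk)
    _ = ENNReal.ofReal (p ^ g + ∑ k ∈ Finset.range g, c * (p ^ k * (1 - p) * f ^ (g - 1 - k))) := by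
        rw [← ENNReal.ofReal_sum_of_nonneg, ← ENNReal.ofReal_add (pow_nonneg h0 g)]
        · exact Finset.sum_nonneg fun k _ => mul_nonneg (by linarith)
            (mul_nonneg (mul_nonneg (pow_nonneg h0 k) (by linarith)) (pow_nonneg hf0 _))
        · exact fun k _ => mul_nonneg (by linarith)
            (mul_nonneg (mul_nonneg (pow_nonneg h0 k) (by linarith)) (pow_nonneg hf0 _))
    _ ≤ _ := by
        apply ENNReal.ofReal_le_ofReal
        have hfp : 0 < f - p := by linarith
        have h6 : (∑ k ∈ Finset.range g, p ^ k * f ^ (g - 1 - k)) * (p - f) = p ^ g - f ^ g :=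
          (Commute.all p f).geom_sum₂_mul g
        have h7 : ∑ k ∈ Finset.range g, c * (p ^ k * (1 - p) * f ^ (g - 1 - k)) =
            c * (1 - p) * ∑ k ∈ Finset.range g, p ^ k * f ^ (g - 1 - k) := by
          rw [Finset.mul_sum]
          exact Finset.sum_congr rfl fun k _ => by ring
        have h8 : ∑ k ∈ Finset.range g, p ^ k * f ^ (g - 1 - k) = (f ^ g - p ^ g) / (f - p) := by
          rw [eq_div_iff hfp.ne']
          linarith
        rw [h7, h8]
        have h9 : c * ((1 - p) / (f - p)) * f ^ g - (p ^ g + c * (1 - p) * ((f ^ g - p ^ g) / (f - p)))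
            = p ^ g * (c * ((1 - p) / (f - p)) - 1) := by
          field_simp
          ring
        have hf1 : f ≤ 1 := by
          rw [hf, div_le_one]
          · nlinarith
          · nlinarith
        have h10 : 1 ≤ (1 - p) / (f - p) := by
          rw [le_div_iff₀ hfp]
          linarith
        have h11 : 1 ≤ c * ((1 - p) / (f - p)) := by nlinarith
        have h12 := mul_nonneg (pow_nonneg h0 g) (sub_nonneg.2 h11)
        linarith

end ExitAux

end CausalPerc.Neg
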