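import Pool.Agent.Lib.MP_a51368_pr.Neg.FiniteCrit
import Pool.Agent.Lib.MP_a51368_pr.Sel

/-!
# Module P6, part 1: the probability of the gain event in one row
-/

open MeasureTheory Set Filter Topology

noncomputable section

namespace CausalPerc.Neg

namespace Gain

open MeasAux IndepAux

variable {p : ℝ}

abbrev Lab := ℕ → unitInterval

def labL : Measure Lab := Measure.infinitePi fun _ : ℕ => (volume : Measure unitInterval)

instance : IsProbabilityMeasure labL := by unfold labL; infer_instance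

theorem lab_pi (s : Finset ℕ) (T : ℕ → Set unitInterval) (hT : ∀ i ∈ s, MeasurableSet (T i)) :
    labL {l | ∀ i ∈ s, l i ∈ T i} = ∏ i ∈ s, volume (T i) :=
  Measure.infinitePi_pi _ hT

theorem nd_mul {N : Set ℕ} {L : ℕ → Set Lab} (hL : ∀ x, MeasurableSet (L x)) {c : ENNReal}
    (hc : ∀ x ∈ N, labL (L x) = c) :
    ndLaw (1 / 2) {ν | ν.1 ∈ N ∧ ν.2 ∈ L ν.1} = c * geo (1 / 2) N := by
  have hm : MeasurableSet {ν : Nd | ν.1 ∈ N ∧ ν.2 ∈ L ν.1} := by
    have : {ν : Nd | ν.1 ∈ N ∧ ν.2 ∈ L ν.1} = ⋃ x ∈ N, {x} ×ˢ L x := by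
      ext ⟨x, l⟩
      simp
    rw [this]
    exact MeasurableSet.biUnion (to_countable N) fun x _ =>
      (measurableSet_singleton x).prod (hL x)
  show ((geo (1 / 2)).prod labL) _ = _
  rw [Measure.prod_apply hm]
  have h2 : ∀ x : ℕ, labL (Prod.mk x ⁻¹' {ν : Nd | ν.1 ∈ N ∧ ν.2 ∈ L ν.1}) =
      N.indicator (fun _ => c) x := by
    intro x
    by_cases hx : x ∈ N
    · rw [indicator_of_mem hx, ← hc x hx]
      congr 1
      ext l
      simp [hx]
    · rw [indicator_of_notMem hx]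
      have : Prod.mk x ⁻¹' {ν : Nd | ν.1 ∈ N ∧ ν.2 ∈ L ν.1} = ∅ := by
        ext l
        simp [hx]
      rw [this, measure_empty]
  simp only [h2]
  rw [lintegral_indicator_const (MeasurableSet.of_discrete)]

theorem geo_one : geo (1 / 2) {k : ℕ | 1 ≤ k} = 1 / 2 := by
  have := geo_prob (α := 1 / 2) (by norm_num) (by norm_num)
  have h1 : {k : ℕ | 1 ≤ k} = {0}ᶜ := by
    ext k
    simp [Nat.one_le_iff_ne_zero]
  have h2 : geo (1 / 2) {0} = 1 / 2 := by
    rw [geo_apply, tsum_eq_single 0]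
    · simp only [pow_zero, one_mul, mem_singleton_iff, indicator_of_mem, Pi.one_apply, mul_one]
      rw [ENNReal.ofReal_sub _ (by norm_num)]
      norm_num
      rw [ENNReal.ofReal_div_of_pos (by norm_num)]
      norm_num
    · intro k hk
      rw [indicator_of_notMem (by simpa using hk), mul_zero]
  rw [h1, prob_compl_eq_one_sub (measurableSet_singleton 0), h2]
  norm_num

/-- Open labels. -/
abbrev OL (p : ℝ) : Set unitInterval := {x | (x : ℝ) ≤ p}

/-- Closed labels. -/
abbrev CL (p : ℝ) : Set unitInterval := {x | ¬ (x : ℝ) ≤ p}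

theorem vOL (h0 : 0 ≤ p) (h1 : p ≤ 1) :
    (volume : Measure unitInterval) (OL p) = ENNReal.ofReal p := volume_le h0 h1

theorem vCL (h0 : 0 ≤ p) (h1 : p ≤ 1) :
    (volume : Measure unitInterval) (CL p) = ENNReal.ofReal (1 - p) := by
  have : CL p = {x : unitInterval | p < (x : ℝ)} := by
    ext x
    simp
  rw [this, volume_gt h0 h1]

theorem mOL (p : ℝ) : MeasurableSet (OL p) := mLe p

theorem mCL (p : ℝ) : MeasurableSet (CL p) := (mLe p).compl

theorem lab1 (i : ℕ) {A : Set unitInterval} (hA : MeasurableSet A) :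
    labL {l | l i ∈ A} = volume A := by
  have h := lab_pi {i} (fun _ => A) (fun _ _ => hA)
  simpa using h

theorem lab2 {i j : ℕ} (hij : i ≠ j) {A B : Set unitInterval} (hA : MeasurableSet A)
    (hB : MeasurableSet B) : labL {l | l i ∈ A ∧ l j ∈ B} = volume A * volume B := by
  have h := lab_pi {i, j} (fun m => if m = i then A else B) (fun m _ => by
    split_ifs
    · exact hA
    · exact hB)
  rw [Finset.prod_pair hij] at h
  have e : {l : ℕ → unitInterval | l i ∈ A ∧ l j ∈ B} =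
      {l | ∀ m ∈ ({i, j} : Finset ℕ), l m ∈ (fun m => if m = i then A else B) m} := by
    ext l
    simp [hij.symm]
  rw [e, h]
  simp [hij.symm]

theorem lab3 {i j k : ℕ} (hij : i ≠ j) (hik : i ≠ k) (hjk : j ≠ k) {A B C : Set unitInterval}
    (hA : MeasurableSet A) (hB : MeasurableSet B) (hC : MeasurableSet C) :
    labL {l | l i ∈ A ∧ l j ∈ B ∧ l k ∈ C} = volume A * (volume B * volume C) := by
  have h := lab_pi {i, j, k} (fun m => if m = i then A else if m = j then B else C)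
    (fun m _ => by
      split_ifs
      · exact hA
      · exact hB
      · exact hC)
  rw [Finset.prod_insert (by simp [hij, hik]), Finset.prod_pair hjk] at h
  have e : {l : ℕ → unitInterval | l i ∈ A ∧ l j ∈ B ∧ l k ∈ C} =
      {l | ∀ m ∈ ({i, j, k} : Finset ℕ),
        l m ∈ (fun m => if m = i then A else if m = j then B else C) m} := by
    ext l
    simp [hij.symm, hik.symm, hjk.symm]
  rw [e, h]
  simp [hij.symm, hik.symm, hjk.symm]

theorem mlab (i : ℕ) {A : Set unitInterval} (hA : MeasurableSet A) :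
    MeasurableSet {l : Lab | l i ∈ A} := (measurable_pi_apply i) hA

theorem geo_univ : geo (1 / 2) univ = 1 := by
  have := geo_prob (α := 1 / 2) (by norm_num) (by norm_num)
  exact measure_univ

/-! ### Events of one vertex -/

def T1 (p : ℝ) : Set Nd := {ν | ν.2 0 ∈ OL p}

def T2 (p : ℝ) : Set Nd := {ν | ν.2 0 ∈ CL p ∧ ν.2 (ν.1 + 1) ∈ OL p}

def T3 (p : ℝ) : Set Nd := {ν | 1 ≤ ν.1 ∧ ν.2 1 ∈ OL p ∧ ν.2 2 ∈ OL p}

def T4 (p : ℝ) : Set Nd := {ν | ν.2 0 ∈ OL p ∧ ν.2 1 ∈ OL p}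

def T5 (p : ℝ) : Set Nd := {ν | ν.2 1 ∈ OL p}

def T6 (p : ℝ) : Set Nd :=
  {ν | 1 ≤ ν.1 ∧ ν.2 0 ∈ CL p ∧ ν.2 ν.1 ∈ OL p ∧ ν.2 (ν.1 + 1) ∈ OL p}

section

variable (h0 : 0 ≤ p) (h1 : p ≤ 1)

include h0 h1

theorem pT1 : ndLaw (1 / 2) (T1 p) = ENNReal.ofReal p := by
  have h := nd_mul (N := univ) (L := fun _ => {l | l 0 ∈ OL p}) (fun _ => mlab 0 (mOL p))
    (c := ENNReal.ofReal p) (fun _ _ => by rw [lab1 0 (mOL p), vOL h0 h1])
  rw [geo_univ, mul_one] at h
  rw [← h]
  congr 1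
  ext ν
  simp [T1]

theorem pT5 : ndLaw (1 / 2) (T5 p) = ENNReal.ofReal p := by
  have h := nd_mul (N := univ) (L := fun _ => {l | l 1 ∈ OL p}) (fun _ => mlab 1 (mOL p))
    (c := ENNReal.ofReal p) (fun _ _ => by rw [lab1 1 (mOL p), vOL h0 h1])
  rw [geo_univ, mul_one] at h
  rw [← h]
  congr 1
  ext ν
  simp [T5]

theorem pT2 : ndLaw (1 / 2) (T2 p) = ENNReal.ofReal (1 - p) * ENNReal.ofReal p := by
  have h := nd_mul (N := univ) (L := fun x => {l | l 0 ∈ CL p ∧ l (x + 1) ∈ OL p})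
    (fun x => (mlab 0 (mCL p)).inter (mlab (x + 1) (mOL p)))
    (c := ENNReal.ofReal (1 - p) * ENNReal.ofReal p)
    (fun x _ => by rw [lab2 (by omega) (mCL p) (mOL p), vOL h0 h1, vCL h0 h1])
  rw [geo_univ, mul_one] at h
  rw [← h]
  congr 1
  ext ν
  simp [T2]

theorem pT4 : ndLaw (1 / 2) (T4 p) = ENNReal.ofReal p * ENNReal.ofReal p := by
  have h := nd_mul (N := univ) (L := fun _ => {l | l 0 ∈ OL p ∧ l 1 ∈ OL p})
    (fun x => (mlab 0 (mOL p)).inter (mlab 1 (mOL p)))
    (c := ENNReal.ofReal p * ENNReal.ofReal p)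
    (fun x _ => by rw [lab2 (by omega) (mOL p) (mOL p), vOL h0 h1])
  rw [geo_univ, mul_one] at h
  rw [← h]
  congr 1
  ext ν
  simp [T4]

theorem pT3 : ndLaw (1 / 2) (T3 p) = ENNReal.ofReal p * ENNReal.ofReal p * (1 / 2) := by
  have h := nd_mul (N := {k : ℕ | 1 ≤ k}) (L := fun _ => {l | l 1 ∈ OL p ∧ l 2 ∈ OL p})
    (fun x => (mlab 1 (mOL p)).inter (mlab 2 (mOL p)))
    (c := ENNReal.ofReal p * ENNReal.ofReal p)
    (fun x _ => by rw [lab2 (by omega) (mOL p) (mOL p), vOL h0 h1])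
  rw [geo_one] at h
  rw [← h]
  rfl

theorem pT6 : ndLaw (1 / 2) (T6 p) =
    ENNReal.ofReal (1 - p) * (ENNReal.ofReal p * ENNReal.ofReal p) * (1 / 2) := by
  have h := nd_mul (N := {k : ℕ | 1 ≤ k})
    (L := fun x => {l | l 0 ∈ CL p ∧ l x ∈ OL p ∧ l (x + 1) ∈ OL p})
    (fun x => (mlab 0 (mCL p)).inter ((mlab x (mOL p)).inter (mlab (x + 1) (mOL p))))
    (c := ENNReal.ofReal (1 - p) * (ENNReal.ofReal p * ENNReal.ofReal p))
    (fun x hx => by
      have hx' : 1 ≤ x := hx
      rw [lab3 (by omega) (by omega) (by omega) (mCL p) (mOL p) (mOL p), vOL h0 h1, vCL h0 h1])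
  rw [geo_one] at h
  rw [← h]
  rfl

end

theorem m_nd {i : Nd → ℕ} (hi : Measurable i) {A : Set unitInterval} (hA : MeasurableSet A) :
    MeasurableSet {ν : Nd | ν.2 (i ν) ∈ A} := by
  have : {ν : Nd | ν.2 (i ν) ∈ A} = ⋃ k : ℕ, {ν | i ν = k} ∩ {ν | ν.2 k ∈ A} := by
    ext ν
    simp
  rw [this]
  exact MeasurableSet.iUnion fun k => (hi (measurableSet_singleton k)).inter
    (((measurable_pi_apply k).comp measurable_snd) hA)

theorem m_ge1 : MeasurableSet {ν : Nd | 1 ≤ ν.1} := measurableSet_le measurable_const measurable_fst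

theorem mT1 (p : ℝ) : MeasurableSet (T1 p) := m_nd measurable_const (mOL p)

theorem mT5 (p : ℝ) : MeasurableSet (T5 p) := m_nd measurable_const (mOL p)

theorem mT2 (p : ℝ) : MeasurableSet (T2 p) :=
  (m_nd measurable_const (mCL p)).inter (m_nd (measurable_fst.add_const 1) (mOL p))

theorem mT4 (p : ℝ) : MeasurableSet (T4 p) :=
  (m_nd measurable_const (mOL p)).inter (m_nd measurable_const (mOL p))

theorem mT3 (p : ℝ) : MeasurableSet (T3 p) :=
  m_ge1.inter ((m_nd measurable_const (mOL p)).inter (m_nd measurable_const (mOL p)))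

theorem mT6 (p : ℝ) : MeasurableSet (T6 p) :=
  m_ge1.inter ((m_nd measurable_const (mCL p)).inter ((m_nd measurable_fst (mOL p)).inter
    (m_nd (measurable_fst.add_const 1) (mOL p))))

/-! ### Events of one row -/

theorem row_pi (s : Finset ℤ) (T : ℤ → Set Nd) (hT : ∀ i ∈ s, MeasurableSet (T i)) :
    rowLaw (1 / 2) {ρ | ∀ i ∈ s, ρ i ∈ T i} = ∏ i ∈ s, ndLaw (1 / 2) (T i) := by
  have := nd_prob (α := 1 / 2) (by norm_num) (by norm_num)
  exact Measure.infinitePi_pi _ hT

/-- Right event with run `r`. -/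
def CR (p : ℝ) (a : ℤ) (r : ℕ) : Set Row :=
  {ρ | (∀ i, a ≤ i → i < a + r → ρ i ∈ T1 p) ∧ ρ (a + r) ∈ T2 p ∧ ρ (a + r + 1) ∈ T3 p}

/-- Left event with run `r`. -/
def CLf (p : ℝ) (a : ℤ) (r : ℕ) : Set Row :=
  {ρ | (∀ i, a - r ≤ i → i < a → ρ i ∈ T1 p) ∧ ρ (a - r) ∈ T5 p ∧ ρ (a - r - 1) ∈ T6 p}

theorem CR_eq (p : ℝ) (a : ℤ) (r : ℕ) : CR p a r =
    {ρ | ∀ i ∈ insert (a + r + 1) (insert (a + r) (Finset.Ico a (a + r))),
      ρ i ∈ (if i = a + r + 1 then T3 p else if i = a + r then T2 p else T1 p)} := by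
  ext ρ
  simp only [CR, mem_ofPred_eq, Finset.mem_insert, Finset.mem_Ico]
  constructor
  · rintro ⟨h1, h2, h3⟩ i (rfl | rfl | ⟨h4, h5⟩)
    · simpa using h3
    · simpa using h2
    · rw [if_neg (by omega), if_neg (by omega)]
      exact h1 i h4 h5
  · intro h
    refine ⟨fun i h4 h5 => ?_, ?_, ?_⟩
    · have := h i (Or.inr (Or.inr ⟨h4, h5⟩))
      rwa [if_neg (by omega), if_neg (by omega)] at this
    · have := h (a + r) (Or.inr (Or.inl rfl))
      rwa [if_neg (by omega), if_pos rfl] at this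
    · have := h (a + r + 1) (Or.inl rfl)
      rwa [if_pos rfl] at this

theorem mCR (p : ℝ) (a : ℤ) (r : ℕ) : MeasurableSet (CR p a r) := by
  rw [CR_eq]
  refine MeasurableSet.pi (Finset.countable_toSet _) fun i _ => ?_
  split_ifs
  · exact mT3 p
  · exact mT2 p
  · exact mT1 p

theorem pCR (h0 : 0 ≤ p) (h1 : p ≤ 1) (a : ℤ) (r : ℕ) : rowLaw (1 / 2) (CR p a r) =
    ENNReal.ofReal p ^ r * (ENNReal.ofReal (1 - p) *
      (ENNReal.ofReal p * (ENNReal.ofReal p * ENNReal.ofReal p * (1 / 2)))) := by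
  rw [CR_eq, row_pi]
  · rw [Finset.prod_insert (by simp), Finset.prod_insert (by simp)]
    have e : ∏ x ∈ Finset.Ico a (a + r), ndLaw (1 / 2)
        (if x = a + r + 1 then T3 p else if x = a + r then T2 p else T1 p) =
        ENNReal.ofReal p ^ r := by
      rw [Finset.prod_congr rfl (g := fun _ => ENNReal.ofReal p)]
      · simp
      · intro x hx
        rw [Finset.mem_Ico] at hx
        rw [if_neg (by omega), if_neg (by omega), pT1 h0 h1]
    rw [e, if_pos rfl, if_neg (by omega), if_pos rfl, pT3 h0 h1, pT2 h0 h1]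
    ring
  · intro i _
    split_ifs
    · exact mT3 p
    · exact mT2 p
    · exact mT1 p

theorem CLf_eq (p : ℝ) (a : ℤ) (r : ℕ) : CLf p a r =
    {ρ | ∀ i ∈ insert (a - r - 1) (Finset.Icc (a - r) a),
      ρ i ∈ (if i = a - r - 1 then T6 p else if i = a - r then
        (if r = 0 then T5 p else T4 p) else if i = a then univ else T1 p)} := by
  ext ρ
  simp only [CLf, mem_ofPred_eq, Finset.mem_insert, Finset.mem_Icc]
  constructor
  · rintro ⟨h1, h2, h3⟩ i (rfl | ⟨h4, h5⟩)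
    · simpa using h3
    · rw [if_neg (by omega)]
      split_ifs with h6 h7 h7
      · rw [h6]; exact h2
      · rw [h6]
        exact ⟨h1 _ le_rfl (by omega), h2⟩
      · exact mem_univ _
      · exact h1 i h4 (lt_of_le_of_ne h5 h7)
  · intro h
    have h8 := h (a - r) (Or.inr ⟨le_rfl, by omega⟩)
    rw [if_neg (by omega), if_pos rfl] at h8
    refine ⟨fun i h4 h5 => ?_, ?_, ?_⟩
    · have h9 := h i (Or.inr ⟨h4, h5.le⟩)
      rw [if_neg (by omega)] at h9
      split_ifs at h9 with h6 h7 h10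
      · omega
      · exact h9.1
      · omega
      · exact h9
    · split_ifs at h8 with h6
      · exact h8
      · exact h8.2
    · have := h (a - r - 1) (Or.inl rfl)
      rwa [if_pos rfl] at this

theorem mCLf (p : ℝ) (a : ℤ) (r : ℕ) : MeasurableSet (CLf p a r) := by
  rw [CLf_eq]
  refine MeasurableSet.pi (Finset.countable_toSet _) fun i _ => ?_
  split_ifs
  · exact mT6 p
  · exact mT5 p
  · exact mT4 p
  · exact MeasurableSet.univ
  · exact mT1 p

theorem pCLf (h0 : 0 ≤ p) (h1 : p ≤ 1) (a : ℤ) (r : ℕ) : rowLaw (1 / 2) (CLf p a r) =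
    ENNReal.ofReal p ^ r * (ENNReal.ofReal (1 - p) *
      (ENNReal.ofReal p * (ENNReal.ofReal p * ENNReal.ofReal p * (1 / 2)))) := by
  have := nd_prob (α := 1 / 2) (by norm_num) (by norm_num)
  rw [CLf_eq, row_pi]
  · rw [Finset.prod_insert (by simp), if_pos rfl, pT6 h0 h1]
    have e : ∏ x ∈ Finset.Icc (a - r) a, ndLaw (1 / 2)
        (if x = a - r - 1 then T6 p else if x = a - r then
        (if r = 0 then T5 p else T4 p) else if x = a then univ else T1 p) =
        ENNReal.ofReal p ^ r * ENNReal.ofReal p := by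
      rcases Nat.eq_zero_or_pos r with rfl | hr
      · rw [Nat.cast_zero, sub_zero, Finset.Icc_self, Finset.prod_singleton, if_neg (by omega),
          if_pos rfl, if_pos rfl, pT5 h0 h1, pow_zero, one_mul]
      · have e1 : Finset.Icc (a - r) a = insert (a - r) (insert a (Finset.Ioo (a - r) a)) := by
          ext i
          simp only [Finset.mem_Icc, Finset.mem_insert, Finset.mem_Ioo]
          omega
        rw [e1, Finset.prod_insert (by simp; omega), Finset.prod_insert (by simp)]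
        have e2 : ∏ x ∈ Finset.Ioo (a - r) a, ndLaw (1 / 2)
            (if x = a - r - 1 then T6 p else if x = a - r then
            (if r = 0 then T5 p else T4 p) else if x = a then univ else T1 p) =
            ENNReal.ofReal p ^ (r - 1) := by
          rw [Finset.prod_congr rfl (g := fun _ => ENNReal.ofReal p)]
          · rw [Finset.prod_const, Int.card_Ioo]
            congr 1
            omega
          · intro x hx
            rw [Finset.mem_Ioo] at hx
            rw [if_neg (by omega), if_neg (by omega), if_neg (by omega), pT1 h0 h1]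
        rw [e2, if_neg (by omega), if_pos rfl, if_neg (by omega), if_neg (by omega),
          if_neg (by omega), if_pos rfl, pT4 h0 h1, measure_univ, one_mul]
        obtain ⟨k, rfl⟩ := Nat.exists_eq_add_of_le' hr
        rw [Nat.add_sub_cancel, pow_succ]
        ring
    rw [e]
    ring
  · intro i _
    split_ifs
    · exact mT6 p
    · exact mT5 p
    · exact mT4 p
    · exact MeasurableSet.univ
    · exact mT1 p

theorem geom_sum (h0 : 0 < p) (h1 : p < 1) : ∑' r : ℕ, ENNReal.ofReal p ^ r *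
    (ENNReal.ofReal (1 - p) *
      (ENNReal.ofReal p * (ENNReal.ofReal p * ENNReal.ofReal p * (1 / 2)))) =
    ENNReal.ofReal (p ^ 3 / 2) := by
  rw [ENNReal.tsum_mul_right, ENNReal.tsum_geometric, ← mul_assoc]
  have e1 : (1 - ENNReal.ofReal p) = ENNReal.ofReal (1 - p) := by
    rw [ENNReal.ofReal_sub _ h0.le, ENNReal.ofReal_one]
  rw [e1, ENNReal.inv_mul_cancel (by simpa using h1) ENNReal.ofReal_ne_top, one_mul]
  have e2 : (1 / 2 : ENNReal) = ENNReal.ofReal (1 / 2) := by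
    rw [ENNReal.ofReal_div_of_pos (by norm_num)]
    norm_num
  rw [e2, ← ENNReal.ofReal_mul h0.le, ← ENNReal.ofReal_mul (by positivity),
    ← ENNReal.ofReal_mul h0.le]
  congr 1
  ring

/-- The gain events. -/
def EvR (p : ℝ) (a : ℤ) : Set Row := ⋃ r : ℕ, CR p a r

def EvL (p : ℝ) (a : ℤ) : Set Row := ⋃ r : ℕ, CLf p a r

theorem mEvR (p : ℝ) (a : ℤ) : MeasurableSet (EvR p a) := MeasurableSet.iUnion fun r => mCR p a r

theorem mEvL (p : ℝ) (a : ℤ) : MeasurableSet (EvL p a) := MeasurableSet.iUnion fun r => mCLf p a r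

theorem CR_lt {a : ℤ} {r r' : ℕ} (h : r < r') {ρ : Row} (h1 : ρ ∈ CR p a r)
    (h2 : ρ ∈ CR p a r') : False :=
  h1.2.1.1 (h2.1 (a + r) (by omega) (by omega))

theorem CLf_lt {a : ℤ} {r r' : ℕ} (h : r < r') {ρ : Row} (h1 : ρ ∈ CLf p a r)
    (h2 : ρ ∈ CLf p a r') : False :=
  h1.2.2.2.1 (h2.1 (a - r - 1) (by omega) (by omega))

theorem pEvR (h0 : 0 < p) (h1 : p < 1) (a : ℤ) :
    rowLaw (1 / 2) (EvR p a) = ENNReal.ofReal (p ^ 3 / 2) := by
  unfold EvR
  rw [measure_iUnion _ fun r => mCR p a r, ← geom_sum h0 h1]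
  · exact tsum_congr fun r => pCR h0.le h1.le a r
  · intro r r' hr
    refine Set.disjoint_left.2 fun ρ h2 h3 => ?_
    rcases lt_or_gt_of_ne hr with h | h
    · exact CR_lt h h2 h3
    · exact CR_lt h h3 h2

theorem pEvL (h0 : 0 < p) (h1 : p < 1) (a : ℤ) :
    rowLaw (1 / 2) (EvL p a) = ENNReal.ofReal (p ^ 3 / 2) := by
  unfold EvL
  rw [measure_iUnion _ fun r => mCLf p a r, ← geom_sum h0 h1]
  · exact tsum_congr fun r => pCLf h0.le h1.le a r
  · intro r r' hr
    refine Set.disjoint_left.2 fun ρ h2 h3 => ?_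
    rcases lt_or_gt_of_ne hr with h | h
    · exact CLf_lt h h2 h3
    · exact CLf_lt h h3 h2

end Gain

end CausalPerc.Neg
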