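import Pool.Agent.Lib.MP_a51368_pr.Neg.Spec3

/-!
# The data of the vertices of the triangulation are independent and identically distributed
-/

open MeasureTheory ProbabilityTheory Set

namespace CausalPerc.Neg

namespace LabelLaw

/-- Zipping two i.i.d. families. -/
theorem zip_law {ι A B : Type*} [MeasurableSpace A] [MeasurableSpace B] (μ : Measure A)
    (ν : Measure B) [IsProbabilityMeasure μ] [IsProbabilityMeasure ν] :
    ((Measure.infinitePi fun _ : ι => μ).prod (Measure.infinitePi fun _ : ι => ν)).map
      (fun z (i : ι) => (z.1 i, z.2 i)) = Measure.infinitePi fun _ : ι => μ.prod ν := by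
  have hm : Measurable (fun (z : (ι → A) × (ι → B)) (i : ι) => (z.1 i, z.2 i)) := by fun_prop
  refine Measure.eq_infinitePi _ fun s t ht => ?_
  have hS : MeasurableSet (Set.pi (s : Set ι) t) :=
    MeasurableSet.pi s.countable_toSet fun i _ => ht i
  rw [Measure.map_apply hm hS]
  -- restriction to `s`
  let rr : (ι → A) × (ι → B) → (s → A) × (s → B) :=
    fun z => (fun i => z.1 i, fun i => z.2 i)
  have hr : Measurable rr := by fun_prop
  have h1 : ((Measure.infinitePi fun _ : ι => μ).prod (Measure.infinitePi fun _ : ι => ν)).map rr =
      (Measure.pi fun _ : s => μ).prod (Measure.pi fun _ : s => ν) := by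
    have e1 : (Measure.infinitePi fun _ : ι => μ).map (fun (x : ι → A) (i : s) => x i) =
        Measure.pi fun _ : s => μ := Measure.infinitePi_map_restrict (fun _ : ι => μ)
    have e2 : (Measure.infinitePi fun _ : ι => ν).map (fun (x : ι → B) (i : s) => x i) =
        Measure.pi fun _ : s => ν := Measure.infinitePi_map_restrict (fun _ : ι => ν)
    have := Measure.map_prod_map (Measure.infinitePi fun _ : ι => μ)
      (Measure.infinitePi fun _ : ι => ν) (f := fun (x : ι → A) (i : s) => x i)
      (g := fun (x : ι → B) (i : s) => x i) (by fun_prop) (by fun_prop)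
    rw [e1, e2] at this
    exact this.symm
  have h2 := measurePreserving_arrowProdEquivProdArrow A B s (fun _ => μ) (fun _ => ν)
  have h3 : (fun (z : (ι → A) × (ι → B)) (i : ι) => (z.1 i, z.2 i)) ⁻¹' (Set.pi (s : Set ι) t) =
      rr ⁻¹' ((MeasurableEquiv.arrowProdEquivProdArrow A B s).symm ⁻¹'
        (Set.pi univ fun i : s => t i)) := by
    ext z
    simp only [mem_preimage, Set.mem_pi, Finset.mem_coe, mem_univ, true_implies, Subtype.forall]
    rfl
  have hU : MeasurableSet (Set.pi univ fun i : s => t i) :=
    MeasurableSet.pi (Set.to_countable _) fun i _ => ht i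
  rw [h3, ← Measure.map_apply hr ((MeasurableEquiv.measurable _) hU), h1]
  rw [(h2.symm).measure_preimage_emb (MeasurableEquiv.measurableEmbedding _), Measure.pi_pi]
  exact Finset.prod_coe_sort s (fun i => (μ.prod ν) (t i))

/-- Currying and zipping. -/
theorem curry_zip_law {ι κ A B : Type*} [MeasurableSpace A] [MeasurableSpace B] (μ : Measure A)
    (ν : Measure B) [IsProbabilityMeasure μ] [IsProbabilityMeasure ν] :
    ((Measure.infinitePi fun _ : ι => μ).prod (Measure.infinitePi fun _ : ι × κ => ν)).map
      (fun z (i : ι) => (z.1 i, fun j => z.2 (i, j))) =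
      Measure.infinitePi fun _ : ι => μ.prod (Measure.infinitePi fun _ : κ => ν) := by
  have h1 := zip_law (ι := ι) μ (Measure.infinitePi fun _ : κ => ν)
  have h2 := Measure.infinitePi_map_curry (fun (_ : ι) (_ : κ) => ν)
  have h3 := Measure.map_prod_map (Measure.infinitePi fun _ : ι => μ)
    (Measure.infinitePi fun _ : ι × κ => ν) (f := id) (g := MeasurableEquiv.curry ι κ B)
    measurable_id (MeasurableEquiv.measurable _)
  rw [h2, Measure.map_id] at h3
  rw [h3, Measure.map_map (by fun_prop) (by fun_prop)] at h1
  exact h1

/-- The slot used for the label `j` of the vertex `v`. -/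
def slotOf (k : Vert → ℕ) : Vert × ℕ → Vert × Slot
  | ([], j) => ([], .tree j)
  | (i :: u, 0) => (u, .hor i)
  | (i :: u, j + 1) => (i :: u, if j < k (i :: u) then .tree j
      else if j = k (i :: u) then .diag else .tree (j - 1))

theorem slotOf_inj (k : Vert → ℕ) : Function.Injective (slotOf k) := by
  rintro ⟨v, j⟩ ⟨v', j'⟩ h
  cases v with
  | nil =>
    cases v' with
    | nil =>
      simp only [slotOf, Prod.mk.injEq, Slot.tree.injEq, true_and] at h
      rw [h]
    | cons i' u' =>
      cases j' with
      | zero => simp [slotOf] at h
      | succ j' => simp [slotOf] at h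
  | cons i u =>
    cases v' with
    | nil =>
      cases j with
      | zero => simp [slotOf] at h
      | succ j => simp [slotOf] at h
    | cons i' u' =>
      cases j with
      | zero =>
        cases j' with
        | zero =>
          simp only [slotOf, Prod.mk.injEq, Slot.hor.injEq] at h
          rw [h.1, h.2]
        | succ j' =>
          exfalso
          simp only [slotOf, Prod.mk.injEq] at h
          have h2 := h.2
          split_ifs at h2
      | succ j =>
        cases j' with
        | zero =>
          exfalso
          simp only [slotOf, Prod.mk.injEq] at h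
          have h2 := h.2
          split_ifs at h2
        | succ j' =>
          simp only [slotOf, Prod.mk.injEq] at h
          obtain ⟨h1, h2⟩ := h
          rw [h1] at h2 ⊢
          have hjj : j = j' := by
            split_ifs at h2 <;> simp at h2 <;> omega
          rw [hjj]

/-- The data of all vertices in the format `Nd` (the root gets the labels of its own slots). -/
def un (ω : Conf) : Vert → Nd
  | [] => (kids ω [], fun j => (ω []).2 (.tree j))
  | i :: u => unode ω (i :: u)

theorem un_eq (ω : Conf) {v : Vert} (hv : v ≠ []) : un ω v = unode ω v := by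
  cases v with
  | nil => exact absurd rfl hv
  | cons i u => rfl

theorem un_fst (ω : Conf) (v : Vert) : (un ω v).1 = kids ω v := by
  cases v with
  | nil => rfl
  | cons i u => rfl

/-- Assembling a configuration. -/
def toConf (z : (Vert → ℕ) × (Vert × Slot → unitInterval)) : Conf :=
  fun v => (z.1 v, fun s => z.2 (v, s))

def toTau (z : (Vert → ℕ) × (Vert × ℕ → unitInterval)) : Vert → Nd :=
  fun v => (z.1 v, fun j => z.2 (v, j))

theorem un_toConf (z : (Vert → ℕ) × (Vert × Slot → unitInterval)) :
    un (toConf z) = toTau (z.1, fun q => z.2 (slotOf z.1 q)) := by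
  funext v
  cases v with
  | nil => rfl
  | cons i u =>
    refine Prod.ext rfl ?_
    funext j
    cases j with
    | zero => rfl
    | succ j =>
      show (if j < z.1 (i :: u) then z.2 (i :: u, Slot.tree j)
        else if j = z.1 (i :: u) then z.2 (i :: u, Slot.diag)
          else z.2 (i :: u, Slot.tree (j - 1))) = z.2 (i :: u, if j < z.1 (i :: u) then .tree j
      else if j = z.1 (i :: u) then .diag else .tree (j - 1))
      split_ifs <;> rfl

theorem measurable_slot :
    Measurable (Function.uncurry fun (k : Vert → ℕ) (l : Vert × Slot → unitInterval) =>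
      fun q => l (slotOf k q)) := by
  rw [measurable_pi_iff]
  rintro ⟨v, j⟩
  cases v with
  | nil => exact (measurable_pi_apply _).comp measurable_snd
  | cons i u =>
    cases j with
    | zero => exact (measurable_pi_apply _).comp measurable_snd
    | succ j =>
      have h1 : (fun z : (Vert → ℕ) × (Vert × Slot → unitInterval) =>
          (Function.uncurry (fun (k : Vert → ℕ) (l : Vert × Slot → unitInterval) =>
            fun q => l (slotOf k q)) z) (i :: u, j + 1)) =
          fun z => if j < z.1 (i :: u) then z.2 (i :: u, Slot.tree j)
            else if j = z.1 (i :: u) then z.2 (i :: u, Slot.diag)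
              else z.2 (i :: u, Slot.tree (j - 1)) := by
        funext z
        show z.2 (i :: u, if j < z.1 (i :: u) then .tree j
          else if j = z.1 (i :: u) then .diag else .tree (j - 1)) = _
        split_ifs <;> rfl
      rw [h1]
      have hk : Measurable (fun z : (Vert → ℕ) × (Vert × Slot → unitInterval) => z.1 (i :: u)) :=
        (measurable_pi_apply _).comp measurable_fst
      refine Measurable.ite ?_ ((measurable_pi_apply _).comp measurable_snd)
        (Measurable.ite ?_ ((measurable_pi_apply _).comp measurable_snd)
          ((measurable_pi_apply _).comp measurable_snd))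
      · exact hk (MeasurableSpace.measurableSet_top (s := {n : ℕ | j < n}))
      · exact hk (MeasurableSpace.measurableSet_top (s := {n : ℕ | j = n}))

theorem measurable_toConf : Measurable toConf := by
  unfold toConf
  fun_prop

theorem measurable_toTau : Measurable toTau := by
  unfold toTau
  fun_prop

theorem measurable_un : Measurable un := by
  rw [measurable_pi_iff]
  intro v
  cases v with
  | nil =>
    exact (measurable_kids []).prodMk (by
      rw [measurable_pi_iff]
      intro j
      exact (measurable_pi_apply (Slot.tree j)).comp (measurable_snd.comp (measurable_node [])))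
  | cons i u =>
    refine (measurable_kids (i :: u)).prodMk ?_
    rw [measurable_pi_iff]
    intro j
    cases j with
    | zero =>
      exact (measurable_pi_apply (Slot.hor i)).comp (measurable_snd.comp (measurable_node u))
    | succ j =>
      have hs : ∀ s : Slot, Measurable (fun ω : Conf => (ω (i :: u)).2 s) := fun s =>
        (measurable_pi_apply s).comp (measurable_snd.comp (measurable_node (i :: u)))
      refine Measurable.ite ?_ (hs _) (Measurable.ite ?_ (hs _) (hs _))
      · exact measurable_kids (i :: u) (MeasurableSpace.measurableSet_top (s := {n : ℕ | j < n}))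
      · exact measurable_kids (i :: u) (MeasurableSpace.measurableSet_top (s := {n : ℕ | j = n}))

theorem map_un {α : ℝ} (h0 : 0 ≤ α) (h1 : α < 1) :
    (law α).map un = Measure.infinitePi fun _ : Vert => ndLaw α := by
  have := geo_prob h0 h1
  let P0 := (Measure.infinitePi fun _ : Vert => geo α).prod
    (Measure.infinitePi fun _ : Vert × Slot => (volume : Measure unitInterval))
  let P1 := (Measure.infinitePi fun _ : Vert => geo α).prod
    (Measure.infinitePi fun _ : Vert × ℕ => (volume : Measure unitInterval))
  have e1 : P0.map toConf = law α := curry_zip_law (geo α) (volume : Measure unitInterval)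
  have e2 : P1.map toTau = Measure.infinitePi fun _ : Vert => ndLaw α :=
    curry_zip_law (geo α) (volume : Measure unitInterval)
  have e3 : MeasurePreserving (fun z : (Vert → ℕ) × (Vert × Slot → unitInterval) =>
      (id z.1, fun q => z.2 (slotOf z.1 q))) P0 P1 := by
    apply (MeasurePreserving.id (Measure.infinitePi fun _ : Vert => geo α)).skew_product
      measurable_slot
    refine Filter.Eventually.of_forall fun k => ?_
    exact Measure.map_infinitePi_infinitePi_of_inj
      (P := fun _ : Vert × Slot => (volume : Measure unitInterval)) (slotOf_inj k)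
  rw [← e1, Measure.map_map measurable_un measurable_toConf, ← e2, ← e3.map_eq,
    Measure.map_map measurable_toTau e3.measurable]
  congr 1
  funext z
  exact un_toConf z

end LabelLaw

end CausalPerc.Neg
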