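import Pool.Agent.Lib.MP_a51368_pr.Neg.Spec3
import Pool.Agent.Lib.MP_a51368_pr.MainM

/-!
# Assembly
-/

open MeasureTheory Set Filter Topology

noncomputable section

namespace CausalPerc.Neg

/-- Everything about the row model at `α = 1/2`, `p = p_*`, that is used below. -/
theorem exists_pstar (hK : KapStmt) :
    ∃ ps : ℝ, 0 < ps ∧ ps ≤ 1 / 2 ∧
      (∀ p, 0 < p → p < ps → ∃ n, kap p n < 0) ∧
      ((∀ n, 0 ≤ kap ps n) ∨ (ps = 1 / 2 ∧ ∃ n, kap ps n < 0)) := by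
  obtain ⟨hmono, hright, p0, hp0, hp0', hk0⟩ := hK
  set P : Set ℝ := {p | 0 < p ∧ p ≤ 1 / 2 ∧ ∃ n, kap p n < 0} with hP
  have hne : P.Nonempty := ⟨p0, hp0, hp0'.le, 1, hk0⟩
  have hbdd : BddAbove P := ⟨1 / 2, fun p hp => hp.2.1⟩
  have h1 : sSup P ≤ 1 / 2 := csSup_le hne fun p hp => hp.2.1
  have h2 : 0 < sSup P := lt_of_lt_of_le hp0 (le_csSup hbdd ⟨hp0, hp0'.le, 1, hk0⟩)
  refine ⟨sSup P, h2, h1, ?_, ?_⟩
  · intro p hp hps
    obtain ⟨q, hq, hpq⟩ := exists_lt_of_lt_csSup hne hps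
    obtain ⟨hq0, hq1, n, hn⟩ := hq
    exact ⟨n, lt_of_le_of_lt (hmono p q hp hpq.le (by linarith) n) hn⟩
  · by_cases hcase : ∃ n, kap (sSup P) n < 0
    · right
      refine ⟨?_, hcase⟩
      by_contra hne2
      have hlt : sSup P < 1 / 2 := lt_of_le_of_ne h1 hne2
      obtain ⟨n, hn⟩ := hcase
      obtain ⟨p', hp1, hp2, hp3⟩ := hright (sSup P) h2 (by linarith) n hn
      set q := min p' (1 / 2) with hq
      have hq1 : sSup P < q := lt_min hp1 hlt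
      have hq2 : kap q n < 0 :=
        lt_of_le_of_lt (hmono q p' (h2.trans hq1) (min_le_left _ _) hp2 n) hp3
      have : q ∈ P := ⟨h2.trans hq1, min_le_right _ _, n, hq2⟩
      exact absurd (le_csSup hbdd this) (not_le.2 hq1)
    · left
      push Not at hcase
      exact hcase

/-- Extinction of the oriented process near `α = 1/2`. -/
theorem extinct_near (hE : EdgeStmt) (hF : FiniteCritStmt) (hO : CritOpenStmt) (hX : CritExtinctStmt)
    {p : ℝ} (h0 : 0 < p) (h1 : p < 1) {n : ℕ} (hn : kap p n < 0) :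
    ∃ ε > 0, ∀ α : ℝ, 1 / 2 ≤ α → α < 1 / 2 + ε → α < 1 → ¬ ColInf α p := by
  have hn1 : 1 ≤ n := by
    rcases Nat.eq_zero_or_pos n with h | h
    · subst h
      exfalso
      have h2 : kap p 0 = 0 := by
        unfold kap
        have : ∀ ω : Arr, ((RR p 0 ω : ℝ) - (LL p 0 ω : ℝ)) = 0 := by
          intro ω
          have h3 : RR p 0 ω = 0 := by
            show sSup (Iic (0 : ℤ)) = 0
            exact csSup_Iic
          have h4 : LL p 0 ω = 0 := by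
            show sInf (Ici (0 : ℤ)) = 0
            exact csInf_Ici
          rw [h3, h4]; simp
        simp [this]
      rw [h2] at hn
      exact lt_irrefl _ hn
    · exact h
  obtain ⟨z, T, hz, hT, hc⟩ := hF p h0 h1 n hn1 hn
  obtain ⟨ε, hε, h2⟩ := hO p z T h0.le h1 hz hc
  exact ⟨ε, hε, fun α ha1 ha2 ha3 => hX α p z T (by linarith) ha3 hz hT (h2 α ha1 ha2)⟩

/-- Uniqueness near `α = 1/2` for `p ≥ ps - ε₀`. -/
theorem unique_near (hG : GainStmt) (hRen : RenewStmt) (hRS : RenewSeqStmt) (hUT : UTailStmt)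
    (hB : BarrierStmt) (hM : MonoStmt) (hSP : SuperPolyStmt) (hSc : ScaleStmt) (hC : ContStmt)
    (hT : TransferStmt) (hSl : SlabStmt) (hSR : SlabRecStmt) (hTI : TwoInfStmt)
    {ps : ℝ} (h0 : 0 < ps) (h1 : ps < 1) (hk : ∀ n, 0 ≤ kap ps n) :
    ∃ ε₀ > 0, ∃ α₀ : ℝ, 1 / 2 < α₀ ∧ ∀ α : ℝ, 1 / 2 < α → α < α₀ → α < 1 → ∀ p, ps - ε₀ < p →
      law α {ω | TwoInf p ω} = 0 := by
  -- summability of `u_n` at `ps`
  have hsum : Summable (fun n => uu (1 / 2) ps n) := by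
    have htail : Summable (tailT ps) := by
      refine hRS (tailT ps) (kapE ps) (ps ^ 3) ?_ ?_ ?_ (by positivity) ?_ ?_
      · intro i j hij
        unfold tailT
        have : IsProbabilityMeasure (geo (1 / 2)) := geo_prob (by norm_num) (by norm_num)
        have : IsProbabilityMeasure (ndLaw (1 / 2)) := by unfold ndLaw; infer_instance
        have : IsProbabilityMeasure (rowLaw (1 / 2)) := by unfold rowLaw; infer_instance
        have : IsProbabilityMeasure (arrLaw (1 / 2)) := by unfold arrLaw; infer_instance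
        exact measureReal_mono (fun ω hω t ht => hω t (ht.trans hij))
      · intro j; unfold tailT; exact measureReal_nonneg
      · intro j
        unfold tailT
        have : IsProbabilityMeasure (geo (1 / 2)) := geo_prob (by norm_num) (by norm_num)
        have : IsProbabilityMeasure (ndLaw (1 / 2)) := by unfold ndLaw; infer_instance
        have : IsProbabilityMeasure (rowLaw (1 / 2)) := by unfold rowLaw; infer_instance
        have : IsProbabilityMeasure (arrLaw (1 / 2)) := by unfold arrLaw; infer_instance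
        exact measureReal_le_one
      · intro i
        have := hG ps h0 h1 i
        have := hk i
        linarith
      · exact fun ε hε => hRen ps h0 h1 ε hε
    refine Summable.of_nonneg_of_le (fun n => ?_) (fun n => hUT ps h0 h1 n) htail
    unfold uu
    exact measureReal_nonneg
  obtain ⟨C, hC1, hC2⟩ := hB ps h0 h1 hk
  have hsp := hSP ps C hC1 hC2 hsum 200
  obtain ⟨k₀, hk₀⟩ := hSc
  obtain ⟨K, hK⟩ := eventually_atTop.1 hsp
  set k₁ := max (max k₀ K) 2 with hk₁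
  have hk1a : k₀ ≤ k₁ := (le_max_left _ _).trans (le_max_left _ _)
  have hk1b : K ≤ k₁ := (le_max_right _ _).trans (le_max_left _ _)
  have hk1c : 2 ≤ k₁ := le_max_right _ _
  have hb1 := (hK k₁ hk1b).1
  have hb2 := (hK (k₁ + 1) (by omega)).1
  have hb3 := (hK (k₁ + 1) (by omega)).2
  -- continuity at the base scale
  have hhalf : ∀ a b : ℕ, a + 1 ≤ b → (1 / 2 : ℝ) ^ b + (1 / 2 : ℝ) ^ (a + 1) ≤ (1 / 2 : ℝ) ^ a := by
    intro a b hab
    have h2 : (1 / 2 : ℝ) ^ b ≤ (1 / 2 : ℝ) ^ (a + 1) :=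
      pow_le_pow_of_le_one (by norm_num) (by norm_num) hab
    rw [pow_succ] at h2 ⊢
    linarith
  obtain ⟨ε₁, hε₁, hc1⟩ := hC ps (2 ^ k₁) (4 ^ (k₁ + 1)) ((1 / 2) ^ (100 * (k₁ + 1) + 1)) h0 h1.le
    (by positivity)
  obtain ⟨ε₂, hε₂, hc2⟩ := hC ps (2 ^ (k₁ + 1)) (4 ^ (k₁ + 1)) ((1 / 2) ^ (100 * (k₁ + 1) + 1)) h0
    h1.le (by positivity)
  set ε₀ := min ε₁ ε₂ with hε₀
  have hscale : ∀ p, ps - ε₀ < p → ∀ k > k₁, uu (1 / 2) p (2 ^ k) ≤ (1 / 2) ^ (100 * k) ∧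
      vv (1 / 2) p (4 ^ k) (2 ^ k) ≤ (1 / 2) ^ (50 * k) := by
    intro p hp
    apply hk₀ k₁ hk1a p
    · have h2 := (hc1 p (by have := min_le_left ε₁ ε₂; linarith)).1
      have h3 := hhalf (100 * (k₁ + 1)) (200 * k₁) (by omega)
      linarith
    · have h2 := (hc2 p (by have := min_le_right ε₁ ε₂; linarith)).1
      have h3 := hhalf (100 * (k₁ + 1)) (200 * (k₁ + 1)) (by omega)
      linarith
    · have h2 := (hc2 p (by have := min_le_right ε₁ ε₂; linarith)).2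
      have h3 := hhalf (100 * (k₁ + 1)) (200 * (k₁ + 1)) (by omega)
      have h4 : (1 / 2 : ℝ) ^ (100 * (k₁ + 1)) ≤ (1 / 2 : ℝ) ^ (50 * (k₁ + 1)) :=
        pow_le_pow_of_le_one (by norm_num) (by norm_num) (by omega)
      have h5 : ((4 ^ (k₁ + 1) : ℕ) : ℤ) = 4 ^ (k₁ + 1) := by push_cast; rfl
      rw [h5] at h2
      linarith
  -- scales at `α`
  obtain ⟨N₁, hN₁⟩ := hT
  obtain ⟨N₂, hN₂⟩ := hSl
  obtain ⟨k₂, hk₂⟩ : ∃ k₂ : ℕ, ∀ k ≥ k₂, k₁ + 1 < k ∧ N₁ ≤ 2 ^ k ∧ N₂ ≤ 2 ^ (k - 1) ∧ 20 ≤ k ∧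
      10 * Real.exp (-((2 ^ k : ℕ) : ℝ)) ≤ (1 / 2) ^ (45 * k) := by
    have h2 : ∀ᶠ k : ℕ in atTop, 10 * Real.exp (-((2 ^ k : ℕ) : ℝ)) ≤ (1 / 2) ^ (45 * k) := by
      have h3 : Tendsto (fun k : ℕ => ((2 ^ k : ℕ) : ℝ)) atTop atTop := by
        exact tendsto_natCast_atTop_atTop.comp (tendsto_pow_atTop_atTop_of_one_lt (by norm_num))
      have h4 := (Real.tendsto_pow_mul_exp_neg_atTop_nhds_zero 45).comp h3
      have h5 : ∀ᶠ k : ℕ in atTop, (fun x : ℝ => x ^ 45 * Real.exp (-x)) (((2 ^ k : ℕ) : ℝ)) < 1 / 10 :=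
        h4.eventually (gt_mem_nhds (by norm_num))
      filter_upwards [h5] with k hk
      push_cast at hk ⊢
      have h6 : (1 / 2 : ℝ) ^ (45 * k) = 1 / ((2 : ℝ) ^ k) ^ 45 := by
        rw [one_div, one_div, inv_pow, ← pow_mul, mul_comm]
      rw [h6, le_div_iff₀ (by positivity)]
      nlinarith
    have h3 : ∀ᶠ k : ℕ in atTop, N₁ ≤ 2 ^ k :=
      (tendsto_pow_atTop_atTop_of_one_lt (by norm_num : 1 < 2)).eventually_ge_atTop N₁
    have h4 : ∀ᶠ k : ℕ in atTop, N₂ ≤ 2 ^ (k - 1) :=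
      ((tendsto_pow_atTop_atTop_of_one_lt (by norm_num : 1 < 2)).comp
        (tendsto_sub_atTop_nat 1)).eventually_ge_atTop N₂
    obtain ⟨k₂, h5⟩ := eventually_atTop.1 (h2.and (h3.and (h4.and
      ((eventually_gt_atTop (k₁ + 1)).and (eventually_ge_atTop 20)))))
    exact ⟨k₂, fun k hk => ⟨(h5 k hk).2.2.2.1, (h5 k hk).2.1, (h5 k hk).2.2.1, (h5 k hk).2.2.2.2,
      (h5 k hk).1⟩⟩
  refine ⟨ε₀, lt_min hε₁ hε₂, 1 / 2 + (1 / 2) / ((2 : ℝ) ^ k₂) ^ 10, by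
    have : (0 : ℝ) < (1 / 2) / ((2 : ℝ) ^ k₂) ^ 10 := by positivity
    linarith, ?_⟩
  intro α ha1 ha2 ha3 p hp
  -- choice of the scale
  have hx : 0 < 2 * α - 1 := by linarith
  obtain ⟨k, hk1, hk2, hk3⟩ : ∃ k : ℕ, k₂ ≤ k ∧ (2 * α - 1) * ((2 ^ k : ℕ) : ℝ) ^ 10 ≤ 1 ∧
      1 ≤ (2 * α - 1) * ((2 ^ (k + 1) : ℕ) : ℝ) ^ 10 := by
    have h2 : (2 * α - 1) * ((2 ^ k₂ : ℕ) : ℝ) ^ 10 ≤ 1 := by
      push_cast
      have h3 : 2 * α - 1 ≤ 1 / ((2 : ℝ) ^ k₂) ^ 10 := by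
        have : (1 / 2 : ℝ) / ((2 : ℝ) ^ k₂) ^ 10 = (1 / ((2 : ℝ) ^ k₂) ^ 10) / 2 := by ring
        linarith
      calc (2 * α - 1) * ((2 : ℝ) ^ k₂) ^ 10 ≤ 1 / ((2 : ℝ) ^ k₂) ^ 10 * ((2 : ℝ) ^ k₂) ^ 10 :=
            mul_le_mul_of_nonneg_right h3 (by positivity)
        _ = 1 := by field_simp
    have h4 : ∃ k : ℕ, 1 < (2 * α - 1) * ((2 ^ k : ℕ) : ℝ) ^ 10 := by
      obtain ⟨k, hk⟩ := pow_unbounded_of_one_lt (1 / (2 * α - 1)) (by norm_num : (1 : ℝ) < 2)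
      refine ⟨k, ?_⟩
      push_cast
      have h5 : (2 : ℝ) ^ k ≤ ((2 : ℝ) ^ k) ^ 10 := le_self_pow₀ (one_le_pow₀ (by norm_num)) (by norm_num)
      rw [div_lt_iff₀ hx] at hk
      nlinarith
    classical
    obtain ⟨j, h6, hmin⟩ : ∃ j : ℕ, 1 < (2 * α - 1) * ((2 ^ j : ℕ) : ℝ) ^ 10 ∧
        ∀ i < j, ¬ 1 < (2 * α - 1) * ((2 ^ i : ℕ) : ℝ) ^ 10 :=
      ⟨Nat.find h4, Nat.find_spec h4, fun i hi => Nat.find_min h4 hi⟩
    have h7 : k₂ < j := by
      by_contra hcon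
      push Not at hcon
      have h8 : ((2 ^ j : ℕ) : ℝ) ^ 10 ≤ ((2 ^ k₂ : ℕ) : ℝ) ^ 10 := by
        have : (2 ^ j : ℕ) ≤ 2 ^ k₂ := Nat.pow_le_pow_right (by norm_num) hcon
        exact pow_le_pow_left₀ (by positivity) (by exact_mod_cast this) 10
      have h9 := mul_le_mul_of_nonneg_left h8 hx.le
      linarith
    obtain ⟨i, rfl⟩ : ∃ i, j = i + 1 := ⟨j - 1, by omega⟩
    refine ⟨i, by omega, ?_, h6.le⟩
    have := hmin i (by omega)
    push Not at this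
    exact this
  obtain ⟨hk4, hk5, hk6, hk7, hk8⟩ := hk₂ k hk1
  obtain ⟨j, rfl⟩ : ∃ j, k = j + 1 := ⟨k - 1, by omega⟩
  have hsc1 := hscale p hp (j + 1) (by omega)
  have hsc0 := hscale p hp j (by omega)
  have htr := hN₁ (2 ^ (j + 1)) α p hk5 ha1.le hk2
  have hpow4 : ((2 ^ (j + 1)) ^ 2 : ℕ) = 4 ^ (j + 1) := by
    rw [← pow_mul, mul_comm, pow_mul]; norm_num
  have hvhalf : vv (1 / 2) p ((2 ^ (j + 1)) ^ 2 : ℕ) (2 ^ (j + 1)) ≤ (1 / 2) ^ (50 * (j + 1)) := by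
    have h2 := hsc1.2
    have h5 : (((2 ^ (j + 1)) ^ 2 : ℕ) : ℤ) = 4 ^ (j + 1) := by rw [hpow4]; push_cast; rfl
    rw [h5]
    exact h2
  have hN40 : (1 / 2 : ℝ) ^ (40 * (j + 1)) = 1 / ((2 ^ (j + 1) : ℕ) : ℝ) ^ 40 := by
    push_cast
    rw [one_div, one_div, inv_pow, ← pow_mul, mul_comm]
  -- numerical comparison
  have hnum : ∀ a : ℕ, 45 * (j + 1) ≤ a → 8 * (1 / 2 : ℝ) ^ a ≤ (1 / 2) ^ (40 * (j + 1)) / 8 := by
    intro a ha
    have h2 : (1 / 2 : ℝ) ^ a ≤ (1 / 2 : ℝ) ^ (40 * (j + 1) + 6) :=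
      pow_le_pow_of_le_one (by norm_num) (by norm_num) (by omega)
    have h3 : (1 / 2 : ℝ) ^ (40 * (j + 1) + 6) = (1 / 2) ^ (40 * (j + 1)) / 64 := by
      rw [pow_add]; norm_num; ring
    linarith
  have hexp : 10 * Real.exp (-((2 ^ (j + 1) : ℕ) : ℝ)) ≤ (1 / 2) ^ (40 * (j + 1)) / 64 := by
    have := hnum (45 * (j + 1)) le_rfl
    linarith
  have hv : vv α p ((2 * 2 ^ j) ^ 2 : ℕ) (2 * 2 ^ j) ≤ 1 / ((2 * 2 ^ j : ℕ) : ℝ) ^ 40 := by
    have h2 : 2 * 2 ^ j = 2 ^ (j + 1) := by ring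
    rw [h2, ← hN40]
    have h3 := htr.1
    have h4 := hnum (50 * (j + 1)) (by omega)
    have h5 : 0 ≤ Real.exp (-((2 ^ (j + 1) : ℕ) : ℝ)) := (Real.exp_pos _).le
    have h6 : 0 ≤ (1 / 2 : ℝ) ^ (40 * (j + 1)) := by positivity
    linarith
  have hu : ∀ h : ℕ, 1 ≤ h → h ≤ 2 ^ (j + 1) → uu (1 / 2) p h ≤ (1 / 2) ^ (45 * (j + 1)) →
      uu α p h ≤ 1 / ((2 * 2 ^ j : ℕ) : ℝ) ^ 40 := by
    intro h hh1 hh2 hh3
    have h2 : 2 * 2 ^ j = 2 ^ (j + 1) := by ring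
    rw [h2, ← hN40]
    have h3 := htr.2 h hh1 hh2
    have h4 := hnum (50 * (j + 1)) (by omega)
    have h5 := hnum (45 * (j + 1)) (by omega)
    have h6 : 0 ≤ (1 / 2 : ℝ) ^ (40 * (j + 1)) := by positivity
    linarith
  have hu1 : uu α p (2 ^ j) ≤ 1 / ((2 * 2 ^ j : ℕ) : ℝ) ^ 40 := by
    refine hu _ Nat.one_le_two_pow (Nat.pow_le_pow_right (by norm_num) (by omega)) ?_
    refine hsc0.1.trans (pow_le_pow_of_le_one (by norm_num) (by norm_num) (by omega))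
  have hu2 : uu α p (2 * 2 ^ j) ≤ 1 / ((2 * 2 ^ j : ℕ) : ℝ) ^ 40 := by
    have h2 : 2 * 2 ^ j = 2 ^ (j + 1) := by ring
    refine hu _ (by rw [h2]; exact Nat.one_le_two_pow) (by rw [h2]) ?_
    rw [h2]
    refine hsc1.1.trans (pow_le_pow_of_le_one (by norm_num) (by norm_num) (by omega))
  have hN2 : N₂ ≤ 2 ^ j := by simpa using hk6
  obtain ⟨s, hs⟩ := hN₂ (2 ^ j) α p hN2 ha1 (by
      have h2 : 2 * 2 ^ j = 2 ^ (j + 1) := by ring
      rw [h2]; exact hk2) (by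
      have h2 : 4 * 2 ^ j = 2 ^ (j + 1 + 1) := by ring
      rw [h2]; exact hk3) hv hu1 hu2
  obtain ⟨h2, h3⟩ := hSR α p _ _ s _ ha1 ha3 hs
  exact hTI α p ((2 * 2 ^ j) ^ 13) ha1 ha3 (Nat.one_le_iff_ne_zero.2 (by positivity)) h2 h3

/-- For `α` slightly above `1/2` the number of infinite clusters is `1` at every `p > pc α`. -/
theorem neg_main (hE : EdgeStmt) (hF : FiniteCritStmt) (hO : CritOpenStmt) (hX : CritExtinctStmt)
    (hK : KapStmt) (hG : GainStmt) (hRen : RenewStmt) (hRS : RenewSeqStmt) (hUT : UTailStmt)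
    (hB : BarrierStmt) (hM : MonoStmt) (hSP : SuperPolyStmt) (hSc : ScaleStmt) (hC : ContStmt)
    (hT : TransferStmt) (hSl : SlabStmt) (hSR : SlabRecStmt) (hTI : TwoInfStmt)
    (hTZ : ThetaZeroStmt) (hHI : HasInfStmt) :
    ∃ α₀ : ℝ, 1 / 2 < α₀ ∧ ∀ α : ℝ, 1 / 2 < α → α < α₀ → α < 1 ∧ 0 < pc α ∧ pc α < 1 ∧
      ∀ p, pc α < p → p ≤ 1 → condLaw α {ω | numInf p ω = 1} = 1 := by
  obtain ⟨ps, hps0, hps1, hbelow, hcase⟩ := exists_pstar hK
  -- reduction to two facts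
  suffices hsuff : ∃ α₀ : ℝ, 1 / 2 < α₀ ∧ α₀ ≤ 1 ∧ ∃ p₁ : ℝ, 0 < p₁ ∧ p₁ ≤ 1 / 2 ∧
      ∀ α : ℝ, 1 / 2 < α → α < α₀ → α < 1 → (¬ ColInf α p₁) ∧
        (∀ p, p₁ < p → p ≤ 1 → law α {ω | TwoInf p ω} = 0) by
    obtain ⟨α₀, h1, h2, p₁, h3, h4, h5⟩ := hsuff
    refine ⟨α₀, h1, fun α ha1 ha2 => ?_⟩
    have ha3 : α < 1 := ha2.trans_le h2
    have : GoodParam α := ⟨by linarith, ha3⟩
    obtain ⟨h6, h7⟩ := h5 α ha1 ha2 ha3
    have htheta : theta α p₁ = 0 := hTZ α p₁ ha1 ha3 h3.le (by linarith) h6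
    have hpc1 : p₁ ≤ pc α :=
      le_csSup ⟨1, fun p hp => hp.2.1⟩ ⟨h3.le, by linarith, htheta⟩
    have hb : (1 - α) / α < 1 := by rw [div_lt_one (by linarith)]; linarith
    have hgood : ∀ p, (1 - α) / α < p → p ≤ 1 → ∃ Q, GoodCone α p Q := by
      intro p hp hp1
      have h0 : 0 ≤ (1 - α) / α := div_nonneg (by linarith) (by linarith)
      refine exists_goodCone α (by linarith) hp1 ?_
      rw [div_lt_iff₀ (by linarith)] at hp
      linarith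
    have hpc2 : pc α ≤ (1 - α) / α := pc_le α (div_nonneg (by linarith) (by linarith)) hgood
    refine ⟨ha3, h3.trans_le hpc1, hpc2.trans_lt hb, fun p hp hp1 => ?_⟩
    obtain ⟨Q, hQ⟩ := hgood 1 hb le_rfl
    rw [condLaw_eq_one_iff α (law_survives_pos α hQ)]
    refine measure_mono_null (t := {ω | Survives ω ∧ ¬ HasInf p ω} ∪ {ω | TwoInf p ω}) ?_ ?_
    · rintro ω ⟨h8, h9⟩
      by_cases h10 : HasInf p ω
      · right
        by_contra h11
        exact h9 ⟨h10, h11⟩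
      · exact Or.inl ⟨h8, h10⟩
    · rw [measure_union_null_iff]
      refine ⟨?_, h7 p (by linarith) hp1⟩
      obtain ⟨q, hq1, hq2⟩ := exists_between hp
      have hq0 : 0 ≤ q := by linarith
      have h8 : theta α q ≠ 0 := by
        intro h9
        have := le_csSup (s := {p : ℝ | 0 ≤ p ∧ p ≤ 1 ∧ theta α p = 0})
          ⟨1, fun p hp => hp.2.1⟩ ⟨hq0, by linarith, h9⟩
        exact absurd this (not_le.2 hq1)
      have h9 : ColInf α q := by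
        by_contra h10
        exact h8 (hTZ α q ha1 ha3 hq0 (by linarith) h10)
      exact hHI α p ha1 ha3 ((hM α (by linarith) ha3).2.2.2.2.2.2 q p hq2.le h9)
  rcases hcase with hcase | ⟨hps, n, hn⟩
  · obtain ⟨ε₀, hε₀, α₁, hα₁, h1⟩ := unique_near hG hRen hRS hUT hB hM hSP hSc hC hT hSl hSR hTI hps0
      (by linarith) hcase
    set p₁ := max (ps - ε₀ / 2) (ps / 2) with hp₁
    have hp1a : ps / 2 ≤ p₁ := le_max_right _ _
    have hp1b : ps - ε₀ / 2 ≤ p₁ := le_max_left _ _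
    have hp1c : p₁ < ps := max_lt (by linarith) (by linarith)
    obtain ⟨n, hn⟩ := hbelow p₁ (by linarith) hp1c
    obtain ⟨ε, hε, h2⟩ := extinct_near hE hF hO hX (by linarith : 0 < p₁) (by linarith) hn
    refine ⟨min (min α₁ (1 / 2 + ε)) 1, lt_min (lt_min hα₁ (by linarith)) (by norm_num),
      min_le_right _ _, p₁, by linarith, by linarith, ?_⟩
    intro α ha1 ha2 ha3
    have ha4 : α < α₁ := ha2.trans_le ((min_le_left _ _).trans (min_le_left _ _))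
    have ha5 : α < 1 / 2 + ε := ha2.trans_le ((min_le_left _ _).trans (min_le_right _ _))
    exact ⟨h2 α ha1.le ha5 ha3, fun p hp _ => h1 α ha1 ha4 ha3 p (by linarith)⟩
  · obtain ⟨ε, hε, h2⟩ := extinct_near hE hF hO hX hps0 (by linarith) hn
    refine ⟨min (1 / 2 + ε) 1, lt_min (by linarith) (by norm_num), min_le_right _ _, ps, hps0, hps1,
      ?_⟩
    intro α ha1 ha2 ha3
    have ha5 : α < 1 / 2 + ε := ha2.trans_le (min_le_left _ _)
    have : GoodParam α := ⟨by linarith, ha3⟩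
    exact ⟨h2 α ha1.le ha5 ha3, fun p hp hp1 => twoInf_null α (by linarith) hp1⟩

/-- The negated form of the question. -/
theorem neg_form {α : ℝ} (h : ∀ p, pc α < p → p ≤ 1 → condLaw α {ω | numInf p ω = 1} = 1) :
    ¬ ∃ pu : ℝ, pc α < pu ∧ pu < 1 ∧ (∀ p, pu < p → p < 1 → condLaw α {ω | numInf p ω = 1} = 1) ∧
      (∀ p, pc α < p → p < pu → condLaw α {ω | numInf p ω = 1} < 1) := by
  rintro ⟨pu, h1, h2, _, h4⟩
  obtain ⟨q, hq1, hq2⟩ := exists_between h1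
  have := h4 q hq1 hq2
  rw [h q hq1 (by linarith)] at this
  exact lt_irrefl _ this

end CausalPerc.Neg
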