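import Pool.Agent.Lib.MP_a51368_pr.Neg.SlabStart

/-!
# Module P20: the slab criterion holds for `α` slightly above `1/2`
-/

open MeasureTheory Set Filter Topology

noncomputable section

namespace CausalPerc.Neg

namespace SlabAux

open Strip

theorem num_m {α : ℝ} {N : ℕ} (hN : 100 ≤ N) (ha : 1 / 2 < α) (hb : (2 * α - 1) * (N : ℝ) ^ 10 ≤ 1) :
    2 * α - 1 ≤ 1 / 10 ^ 3 ∧ (2 * α - 1) * N ≤ 1 / 100 ∧ 1 + 2 * (2 * α - 1) ≤ α / (1 - α) ∧
      α / (1 - α) ≤ 1 + 3 * (2 * α - 1) := by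
  have hN' : (100 : ℝ) ≤ N := by exact_mod_cast hN
  have hβ : 0 < 2 * α - 1 := by linarith
  have h9 : (100 : ℝ) ^ 9 ≤ (N : ℝ) ^ 9 := pow_le_pow_left₀ (by norm_num) hN' 9
  have h1 : (2 * α - 1) * N * (N : ℝ) ^ 9 ≤ 1 := by
    calc (2 * α - 1) * N * (N : ℝ) ^ 9 = (2 * α - 1) * (N : ℝ) ^ 10 := by ring
      _ ≤ 1 := hb
  have h2 : (2 * α - 1) * N ≤ 1 / 100 := by
    have h3 : (2 * α - 1) * N * 100 ≤ (2 * α - 1) * N * (N : ℝ) ^ 9 :=
      mul_le_mul_of_nonneg_left (by linarith [h9]) (by positivity)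
    linarith
  have h3 : 2 * α - 1 ≤ 1 / 10 ^ 3 := by
    have h4 : (2 * α - 1) * 100 ≤ (2 * α - 1) * N := mul_le_mul_of_nonneg_left hN' hβ.le
    linarith
  have h4 : 0 < 1 - α := by linarith
  refine ⟨h3, h2, ?_, ?_⟩
  · rw [le_div_iff₀ h4]
    nlinarith
  · rw [div_le_iff₀ h4]
    nlinarith

theorem pow_M {m β : ℝ} {M : ℕ} (h0 : 0 ≤ m) (hm : m ≤ 1 + 3 * β)
    (h : β * (2 * M) ≤ 1 / 100) : m ^ M ≤ 5 / 4 := by
  have h1 : m ^ M ≤ (Real.exp (3 * β)) ^ M := by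
    refine pow_le_pow_left₀ h0 ?_ M
    have := Real.add_one_le_exp (3 * β)
    linarith
  rw [← Real.exp_nat_mul] at h1
  have h2 : (M : ℝ) * (3 * β) ≤ 1 / 10 := by
    have : (0 : ℝ) ≤ M := Nat.cast_nonneg M
    nlinarith
  have h3 : Real.exp (1 / 10) ≤ 1 / (1 - 1 / 10) :=
    Real.exp_bound_div_one_sub_of_interval (by norm_num) (by norm_num)
  have h4 := Real.exp_le_exp.2 h2
  norm_num at h3
  linarith

theorem choose_j {m β : ℝ} {M : ℕ} (hM : 1 ≤ M) (hβ : 0 < β) (hm : 1 + 2 * β ≤ m)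
    (h : m ^ M ≤ 5 / 4) : ∃ I : ℕ, 1 ≤ I ∧ 16 ≤ m ^ ((I + 2) * M) ∧ m ^ ((I + 2) * M) ≤ 20 ∧
      2 * β * (((I + 2) * M : ℕ) : ℝ) ≤ 15 + 2 * β * M := by
  have hm1 : 1 < m := by linarith
  have hmM : 1 < m ^ M := one_lt_pow₀ hm1 (by omega)
  have hex : ∃ j : ℕ, 16 ≤ (m ^ M) ^ j := by
    obtain ⟨j, hj⟩ := pow_unbounded_of_one_lt 16 hmM
    exact ⟨j, hj.le⟩
  classical
  set J := Nat.find hex with hJ
  have hs : 16 ≤ (m ^ M) ^ J := Nat.find_spec hex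
  have hmin : ∀ j < J, (m ^ M) ^ j < 16 := fun j hj => not_le.1 (Nat.find_min hex hj)
  have hJ3 : 3 ≤ J := by
    by_contra hcon
    have h1 : J ≤ 2 := by omega
    have h2 : (m ^ M) ^ J ≤ (m ^ M) ^ 2 := pow_le_pow_right₀ hmM.le h1
    have h3 : (m ^ M) ^ 2 ≤ (5 / 4) ^ 2 := pow_le_pow_left₀ (by linarith) h 2
    norm_num at h3
    linarith
  obtain ⟨I, hI⟩ : ∃ I, J = I + 2 := ⟨J - 2, by omega⟩
  have hlast := hmin (I + 1) (by omega)
  rw [hI] at hs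
  refine ⟨I, by omega, ?_, ?_, ?_⟩
  · rw [mul_comm, pow_mul]
    exact hs
  · rw [mul_comm, pow_mul, pow_succ]
    have h1 : (0 : ℝ) ≤ (m ^ M) ^ (I + 1) := by positivity
    nlinarith
  · rw [← pow_mul] at hlast
    have hB := one_add_mul_le_pow (a := m - 1) (by linarith) (M * (I + 1))
    have e : 1 + (m - 1) = m := by ring
    rw [e] at hB
    push_cast at hB ⊢
    have h3 : (0 : ℝ) ≤ (M : ℝ) * (I + 1) := by positivity
    have h4 : (M : ℝ) * (I + 1) * (2 * β) ≤ M * (I + 1) * (m - 1) :=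
      mul_le_mul_of_nonneg_left (by linarith) h3
    nlinarith

/-- The function of the numerical estimates. -/
theorem num_event : ∃ N₀ : ℕ, ∀ N : ℕ, N₀ ≤ N →
    (N : ℝ) ^ 13 * Real.exp (-(2 / 5 * (N : ℝ))) ≤ 1 / 10 ^ 15 := by
  have h1 := Real.tendsto_pow_mul_exp_neg_atTop_nhds_zero 13
  have h2 : Tendsto (fun N : ℕ => (2 / 5 * (N : ℝ))) atTop atTop :=
    tendsto_natCast_atTop_atTop.const_mul_atTop (by norm_num)
  have h3 := h1.comp h2
  have h4 : (0 : ℝ) < (2 / 5) ^ 13 / 10 ^ 15 := by positivity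
  have h5 := (h3.eventually (gt_mem_nhds h4))
  obtain ⟨N₀, hN₀⟩ := eventually_atTop.1 h5
  refine ⟨N₀, fun N hN => ?_⟩
  have h6 := hN₀ N hN
  simp only [Function.comp] at h6
  rw [mul_pow, mul_assoc] at h6
  have h7 : (0 : ℝ) < (2 / 5) ^ 13 := by positivity
  have h8 : (2 / 5 : ℝ) ^ 13 * ((N : ℝ) ^ 13 * Real.exp (-(2 / 5 * (N : ℝ)))) <
      (2 / 5) ^ 13 * (1 / 10 ^ 15) := by
    rw [← mul_div_assoc, mul_one]
    exact h6
  exact (lt_of_mul_lt_mul_left h8 h7.le).le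

/-- Everything numerical in the bound for `Good1`. -/
theorem num_good {N : ℕ} (hN : 200 ≤ N)
    (he : (N : ℝ) ^ 13 * Real.exp (-(2 / 5 * (N : ℝ))) ≤ 1 / 10 ^ 15)
    {e1 k v a7 : ℝ} (he1 : e1 ≤ Real.exp (-((N : ℝ) ^ 3 / 20480))) (he10 : 0 ≤ e1)
    (hk : k ≤ 7681 * (N : ℝ) ^ 10) (hv0 : 0 ≤ v) (hv : v ≤ 2 / (N : ℝ) ^ 40)
    (ha7 : a7 ≤ Real.exp (-((N : ℝ) ^ 8 / 2))) :
    e1 + k * (e1 + e1) + k * (40 * (N : ℝ) ^ 13 * v) +
      40 * (N : ℝ) ^ 13 * Real.exp (-(2 / 5 * (N : ℝ))) + a7 ≤ 1 / 10 ^ 9 := by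
  have hN' : (200 : ℝ) ≤ N := by exact_mod_cast hN
  have hN1 : (1 : ℝ) ≤ N := by linarith
  have hN0 : (0 : ℝ) < N := by linarith
  have hx : Real.exp (-(N : ℝ)) ≤ Real.exp (-(2 / 5 * (N : ℝ))) :=
    Real.exp_le_exp.2 (by linarith)
  have hN2 : (200 : ℝ) ^ 2 ≤ (N : ℝ) ^ 2 := pow_le_pow_left₀ (by norm_num) hN' 2
  have h3 : (N : ℝ) ≤ (N : ℝ) ^ 3 / 20480 := by
    rw [le_div_iff₀ (by norm_num)]
    nlinarith
  have h8 : (N : ℝ) ≤ (N : ℝ) ^ 8 / 2 := by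
    rw [le_div_iff₀ (by norm_num)]
    have h7 : (1 : ℝ) ≤ (N : ℝ) ^ 6 := one_le_pow₀ hN1
    nlinarith [mul_le_mul_of_nonneg_left h7 (by positivity : (0 : ℝ) ≤ (N : ℝ) ^ 2)]
  have hE := Real.exp_pos (-(2 / 5 * (N : ℝ)))
  set E := Real.exp (-(2 / 5 * (N : ℝ))) with hEdef
  have he1' : e1 ≤ E := he1.trans ((Real.exp_le_exp.2 (by linarith)).trans hx)
  have ha7' : a7 ≤ E := ha7.trans ((Real.exp_le_exp.2 (by linarith)).trans hx)
  have h13 : (1 : ℝ) ≤ (N : ℝ) ^ 13 := one_le_pow₀ hN1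
  have h10 : (N : ℝ) ^ 10 ≤ (N : ℝ) ^ 13 := pow_le_pow_right₀ hN1 (by norm_num)
  have hEs : E ≤ 1 / 10 ^ 15 := by nlinarith
  have hE10 : (N : ℝ) ^ 10 * E ≤ 1 / 10 ^ 15 := by nlinarith
  have t2 : k * (e1 + e1) ≤ 15362 / 10 ^ 15 := by
    calc k * (e1 + e1) ≤ (7681 * (N : ℝ) ^ 10) * (E + E) := by
          apply mul_le_mul hk (by linarith) (by linarith) (by positivity)
      _ = 15362 * ((N : ℝ) ^ 10 * E) := by ring
      _ ≤ _ := by linarith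
  have t3 : k * (40 * (N : ℝ) ^ 13 * v) ≤ 614480 / 10 ^ 17 := by
    calc k * (40 * (N : ℝ) ^ 13 * v) ≤ (7681 * (N : ℝ) ^ 10) *
        (40 * (N : ℝ) ^ 13 * (2 / (N : ℝ) ^ 40)) := by gcongr
      _ = 614480 * (1 / (N : ℝ) ^ 17) := by
          field_simp
          ring
      _ ≤ 614480 * (1 / 10 ^ 17) := by
          gcongr
          linarith
      _ = _ := by ring
  have t4 : 40 * (N : ℝ) ^ 13 * E ≤ 40 / 10 ^ 15 := by linarith
  norm_num at t2 t3 t4 hEs ⊢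
  linarith

theorem slab_core (hW : WidthStmt) (hWM : WidthMomStmt) (hCh : ChainStmt) (hMo : MonoStmt)
    (hR : RecentreStmt) (hSS : StripShiftStmt) (hCD : ColDepStmt) (hMe : MeasStmt)
    (hCs : CshiftStmt) (hCI : ColIndepStmt) (hSp : SplitStmt) (M N l q : ℕ) (α p : ℝ)
    (hNdef : N = 2 * M) (hl : l = N ^ 13) (hq : q = N ^ 2) (hM1 : 100 ≤ M)
    (hnum : (N : ℝ) ^ 13 * Real.exp (-(2 / 5 * (N : ℝ))) ≤ 1 / 10 ^ 15) (ha : 1 / 2 < α)
    (hb1 : (2 * α - 1) * (N : ℝ) ^ 10 ≤ 1) (hb2 : 1 ≤ (2 * α - 1) * (2 * (N : ℝ)) ^ 10)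
    (hvN : vv α p q N ≤ 1 / (N : ℝ) ^ 40) (hu1' : uu α p M ≤ 1 / (N : ℝ) ^ 40)
    (hu2' : uu α p N ≤ 1 / (N : ℝ) ^ 40) : ∃ s, SlabCrit α p l (30 * q) s N := by
  have hN200 : 200 ≤ N := by omega
  have hN' : (200 : ℝ) ≤ N := by exact_mod_cast hN200
  have hN0 : (0 : ℝ) < N := by linarith
  have hN1 : (1 : ℝ) ≤ N := by linarith
  have hβ : 0 < 2 * α - 1 := by linarith
  obtain ⟨n1, n2, n3, n4⟩ := num_m (by omega) ha hb1
  have h1 : α < 1 := by linarith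
  have h0 : 0 ≤ α := by linarith
  have h34 : α ≤ 3 / 4 := by linarith
  have := Adapted.arr_prob h0 h1
  have hNM : (N : ℝ) = 2 * M := by
    rw [hNdef]
    push_cast
    ring
  obtain ⟨β, hβdef⟩ : ∃ β, β = 2 * α - 1 := ⟨_, rfl⟩
  obtain ⟨m, hmdef⟩ : ∃ m, m = α / (1 - α) := ⟨_, rfl⟩
  have hW' := hW α ha.le h1
  have hWM' := fun t => (hWM α h0 h1 t).2.2 ha.le
  rw [← hmdef, ← hβdef] at hW'
  rw [← hmdef] at hWM'
  rw [← hβdef] at hb1 hb2 hβ n1 n2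
  rw [← hβdef, ← hmdef] at n3 n4
  have hm1 : 1 ≤ m := by linarith
  have hmM : m ^ M ≤ 5 / 4 := pow_M (by linarith) n4 (by rw [← hNM]; exact n2)
  obtain ⟨I, hI1, hI2, hI3, hI4⟩ := choose_j (by omega) hβ n3 hmM
  obtain ⟨s, hs⟩ : ∃ s, s = (I + 2) * M := ⟨_, rfl⟩
  rw [← hs] at hI2 hI3 hI4
  -- bound for `s`
  have hsN : (s : ℝ) ≤ 7681 * (N : ℝ) ^ 10 := by
    have hM' : (M : ℝ) ≤ (N : ℝ) ^ 10 := by
      have : (N : ℝ) ≤ (N : ℝ) ^ 10 := le_self_pow₀ hN1 (by norm_num)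
      have h : (0 : ℝ) ≤ M := Nat.cast_nonneg M
      linarith
    have h5 : 1 ≤ 1024 * β * (N : ℝ) ^ 10 := by
      calc (1 : ℝ) ≤ β * (2 * (N : ℝ)) ^ 10 := hb2
        _ = 1024 * β * (N : ℝ) ^ 10 := by ring
    have h6 : 2 * β * (s : ℝ) ≤ 2 * β * (7681 * (N : ℝ) ^ 10) := by
      have h7 : 2 * β * M ≤ 2 * β * (N : ℝ) ^ 10 := mul_le_mul_of_nonneg_left hM' (by linarith)
      nlinarith
    exact le_of_mul_le_mul_left h6 (by linarith)
  have hq1 : 1 ≤ q := by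
    rw [hq]
    exact Nat.one_le_pow _ _ (by omega)
  have hN11 : 200 ^ 11 ≤ N ^ 11 := Nat.pow_le_pow_left hN200 11
  have hlq : l = q * N ^ 11 := by
    rw [hl, hq, ← pow_add]
  have h60 : 60 * q ≤ l := by
    rw [hlq, mul_comm]
    exact Nat.mul_le_mul_left q (by omega)
  have hlR : ((l : ℕ) : ℝ) = (N : ℝ) ^ 13 := by
    rw [hl]
    push_cast
    ring
  have hqR : ((q : ℕ) : ℝ) = (N : ℝ) ^ 2 := by
    rw [hq]
    push_cast
    ring
  have hlZ : (60 : ℤ) * q ≤ l := by exact_mod_cast h60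
  have hlβ : (N : ℝ) ^ 3 / 20480 ≤ (l : ℝ) * β / 20 := by
    rw [hlR, div_le_div_iff₀ (by norm_num) (by norm_num)]
    have h5 : 1 ≤ 1024 * β * (N : ℝ) ^ 10 := by
      calc (1 : ℝ) ≤ β * (2 * (N : ℝ)) ^ 10 := hb2
        _ = 1024 * β * (N : ℝ) ^ 10 := by ring
    have h6 : (N : ℝ) ^ 3 * 1 ≤ (N : ℝ) ^ 3 * (1024 * β * (N : ℝ) ^ 10) :=
      mul_le_mul_of_nonneg_left h5 (by positivity)
    calc (N : ℝ) ^ 3 * 20 = 20 * ((N : ℝ) ^ 3 * 1) := by ring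
      _ ≤ 20 * ((N : ℝ) ^ 3 * (1024 * β * (N : ℝ) ^ 10)) := by linarith
      _ = (N : ℝ) ^ 13 * β * 20480 := by ring
  obtain ⟨e1, he1def⟩ : ∃ e1, e1 = Real.exp (-(l : ℝ) * β / 20) := ⟨_, rfl⟩
  have he1 : e1 ≤ Real.exp (-((N : ℝ) ^ 3 / 20480)) := by
    rw [he1def]
    refine Real.exp_le_exp.2 ?_
    have : -(l : ℝ) * β / 20 = -((l : ℝ) * β / 20) := by ring
    rw [this]
    linarith
  -- the probabilities of the widths
  have hpow : ∀ i ≤ I + 2, 1 ≤ m ^ (i * M) ∧ m ^ (i * M) ≤ 20 := by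
    intro i hi
    refine ⟨one_le_pow₀ hm1, le_trans (pow_le_pow_right₀ hm1 ?_) hI3⟩
    rw [hs]
    exact Nat.mul_le_mul_right M hi
  have b1 : (arrLaw α).real {ω | ¬ 7 * (l : ℤ) ≤ DD ω ((I + 2) * M) l} ≤ e1 := by
    have h5 := ((hW' s l (by rw [hs]; exact Nat.mul_pos (by omega) (by omega))).2.2 ha h34).1
    rw [← he1def] at h5
    rw [← hs]
    refine le_trans (measureReal_mono ?_) h5
    intro ω hω
    have h6 : DD ω s l < 7 * (l : ℤ) := not_le.1 hω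
    have h7 : ((DD ω s l : ℤ) : ℝ) < 7 * (l : ℝ) := by exact_mod_cast h6
    have h8 : (l : ℝ) * 16 ≤ l * m ^ s := mul_le_mul_of_nonneg_left hI2 (by positivity)
    have h9 : (0 : ℝ) ≤ (l : ℝ) := by positivity
    show 2 * ((DD ω s l : ℤ) : ℝ) ≤ l * m ^ s
    linarith
  have b2 : ∀ i ≤ I, (arrLaw α).real {ω | ¬ (q : ℤ) ≤ DD ω (i * M) l} ≤ e1 := by
    intro i hi
    rcases Nat.eq_zero_or_pos i with h | h
    · subst h
      have h6 : {ω : Arr | ¬ (q : ℤ) ≤ DD ω (0 * M) l} = ∅ := by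
        ext ω
        simp only [zero_mul, mem_ofPred_eq, mem_empty_iff_false, iff_false, not_not]
        show (q : ℤ) ≤ l
        omega
      rw [h6]
      simp [he1def, Real.exp_nonneg]
    · have h5 := ((hW' (i * M) l (Nat.mul_pos h (by omega))).2.2 ha h34).1
      rw [← he1def] at h5
      refine le_trans (measureReal_mono ?_) h5
      intro ω hω
      have h6 : DD ω (i * M) l < (q : ℤ) := not_le.1 hω
      have h7 : ((DD ω (i * M) l : ℤ) : ℝ) < (q : ℝ) := by exact_mod_cast h6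
      have h8 : (l : ℝ) * 1 ≤ l * m ^ (i * M) :=
        mul_le_mul_of_nonneg_left (hpow i (by omega)).1 (by positivity)
      have h9 : (60 : ℝ) * q ≤ l := by exact_mod_cast h60
      have h10 : (0 : ℝ) ≤ q := by positivity
      show 2 * ((DD ω (i * M) l : ℤ) : ℝ) ≤ l * m ^ (i * M)
      linarith
  have b3 : ∀ i ≤ I, (arrLaw α).real {ω | ¬ DD ω (i * M) l ≤ ((40 * l : ℕ) : ℤ)} ≤ e1 := by
    intro i hi
    rcases Nat.eq_zero_or_pos i with h | h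
    · subst h
      have h6 : {ω : Arr | ¬ DD ω (0 * M) l ≤ ((40 * l : ℕ) : ℤ)} = ∅ := by
        ext ω
        simp only [zero_mul, mem_ofPred_eq, mem_empty_iff_false, iff_false, not_not]
        show (l : ℤ) ≤ ((40 * l : ℕ) : ℤ)
        push_cast
        omega
      rw [h6]
      simp [he1def, Real.exp_nonneg]
    · have h5 := ((hW' (i * M) l (Nat.mul_pos h (by omega))).2.2 ha h34).2
      rw [← he1def] at h5
      refine le_trans (measureReal_mono ?_) h5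
      intro ω hω
      have h6 : ((40 * l : ℕ) : ℤ) < DD ω (i * M) l := not_le.1 hω
      have h7 : ((40 * l : ℕ) : ℝ) < ((DD ω (i * M) l : ℤ) : ℝ) := by exact_mod_cast h6
      have h8 : (l : ℝ) * m ^ (i * M) ≤ l * 20 :=
        mul_le_mul_of_nonneg_left (hpow i (by omega)).2 (by positivity)
      push_cast at h7
      show 2 * (l : ℝ) * m ^ (i * M) ≤ ((DD ω (i * M) l : ℤ) : ℝ)
      linarith
  have b6 : (arrLaw α).real {ω | 14 * (q : ℤ) < DD ω (2 * M) q} ≤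
      Real.exp (-(2 / 5 * (N : ℝ))) := by
    have hmN : m ^ (2 * M) ≤ 2 := by
      rw [mul_comm, pow_mul]
      have h5 : (m ^ M) ^ 2 ≤ (5 / 4) ^ 2 := pow_le_pow_left₀ (by positivity) hmM 2
      norm_num at h5
      linarith
    have h5 := (hW' (2 * M) q (by omega)).1 (14 * q) hmN
    refine le_trans (le_trans (measureReal_mono ?_) h5) (Real.exp_le_exp.2 ?_)
    · intro ω hω
      have h6 : 14 * (q : ℤ) < DD ω (2 * M) q := hω
      have h7 : 14 * (q : ℝ) < ((DD ω (2 * M) q : ℤ) : ℝ) := by exact_mod_cast h6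
      exact h7.le
    · rw [hqR, ← hNdef]
      rw [div_le_iff₀ hN0]
      nlinarith
  have hv2 : vv α p q N ≤ 1 / 2 := by
    refine hvN.trans ?_
    rw [div_le_div_iff₀ (by positivity) (by norm_num)]
    have : (N : ℝ) ≤ (N : ℝ) ^ 40 := le_self_pow₀ hN1 (by norm_num)
    linarith
  have hvn : 0 ≤ vv α p q N := measureReal_nonneg
  have hun : 0 ≤ uu α p M := measureReal_nonneg
  have hun2 : 0 ≤ uu α p N := measureReal_nonneg
  refine ⟨s, ⟨by omega, by omega, by omega, ?_, ?_, ?_, ?_⟩⟩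
  · rw [hNdef, hs]
    exact Nat.mul_le_mul_right M (by omega)
  · intro A hA
    have hst := start_bound hCI hCD hMe hR hSS h0 h1 p q N (N ^ 10) l hq1 hv2 A hA (by
      have e : 2 * N ^ 10 * (30 * q) + q = 60 * N ^ 10 * q + q := by ring
      rw [e]
      have h5 : N ^ 11 = N * N ^ 10 := by ring
      have h6 : 1 ≤ N ^ 10 := Nat.one_le_pow _ _ (by omega)
      have h7 : 60 * N ^ 10 + 1 ≤ N ^ 11 := by
        rw [h5]
        calc 60 * N ^ 10 + 1 ≤ 60 * N ^ 10 + N ^ 10 := by omega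
          _ = 61 * N ^ 10 := by ring
          _ ≤ N * N ^ 10 := Nat.mul_le_mul_right _ (by omega)
      calc 60 * N ^ 10 * q + q = (60 * N ^ 10 + 1) * q := by ring
        _ ≤ N ^ 11 * q := Nat.mul_le_mul_right q h7
        _ = l := by rw [hlq, mul_comm])
    have hst' : (arrLaw α).real {ω | ¬ (strip p ω).CrossFrom A 0 l (2 * M)} ≤
        Real.exp (-((N : ℝ) ^ 8 / 2)) := by
      rw [← hNdef]
      refine hst.trans ?_
      have h5 : 1 - 1 / (2 * (q : ℝ)) ≤ Real.exp (-(1 / (2 * (q : ℝ)))) := by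
        have := Real.add_one_le_exp (-(1 / (2 * (q : ℝ))))
        linarith
      have hqR1 : (1 : ℝ) ≤ q := by exact_mod_cast hq1
      have h6 : 0 ≤ 1 - 1 / (2 * (q : ℝ)) := by
        rw [sub_nonneg, div_le_one (by positivity)]
        linarith
      refine (pow_le_pow_left₀ h6 h5 _).trans ?_
      rw [← Real.exp_nat_mul]
      refine Real.exp_le_exp.2 (le_of_eq ?_)
      rw [hqR]
      push_cast
      field_simp
    have hg := good_bound hSp hCs hMe hR hSS hCh h0 h1 p A l M I q (40 * l) (by omega) hI1 hq1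
      e1 e1 e1 _ _ b1 b2 b3 b6 hst'
    rw [← hs] at hg
    refine hg.trans ?_
    have hk : ((I + 1 : ℕ) : ℝ) ≤ 7681 * (N : ℝ) ^ 10 := by
      refine le_trans ?_ hsN
      have : I + 1 ≤ s := by
        rw [hs]
        exact le_trans (by omega) (Nat.le_mul_of_pos_right (I + 2) (by omega : 0 < M))
      exact_mod_cast this
    have hfin := num_good hN200 hnum (e1 := e1) (k := ((I + 1 : ℕ) : ℝ))
      (v := vv α p q (2 * M) + uu α p M) (a7 := Real.exp (-((N : ℝ) ^ 8 / 2))) he1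
      (by rw [he1def]; exact Real.exp_nonneg _) hk (by rw [← hNdef]; exact add_nonneg hvn hun) (by
        have e : 2 / (N : ℝ) ^ 40 = 1 / (N : ℝ) ^ 40 + 1 / (N : ℝ) ^ 40 := by ring
        rw [e, ← hNdef]
        exact add_le_add hvN hu1') le_rfl
    have e : (((40 * l : ℕ) : ℕ) : ℝ) = 40 * (N : ℝ) ^ 13 := by
      push_cast
      rw [hlR]
    rw [e]
    exact hfin
  · have h5 := bd_bound hSp hCs hMe hR hSS h0 h1 p l N
    refine h5.trans ?_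
    have h6 : vv α p l N ≤ vv α p q N := (hMo α h0 h1).2.2.1 p q l N (by omega)
    have h7 : (l : ℝ) * uu α p N ≤ (N : ℝ) ^ 13 * (1 / (N : ℝ) ^ 40) := by
      rw [hlR]
      exact mul_le_mul_of_nonneg_left hu2' (by positivity)
    have h8 : (N : ℝ) ^ 13 * (1 / (N : ℝ) ^ 40) = 1 / (N : ℝ) ^ 27 := by
      field_simp
    have h9 : 1 / (N : ℝ) ^ 40 ≤ 1 / (N : ℝ) ^ 27 :=
      one_div_le_one_div_of_le (by positivity) (pow_le_pow_right₀ hN1 (by norm_num))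
    have h10 : 1 / (N : ℝ) ^ 27 ≤ 1 / 200 ^ 27 :=
      one_div_le_one_div_of_le (by positivity) (pow_le_pow_left₀ (by norm_num) hN' 27)
    have h11 : (1 : ℝ) / 200 ^ 27 ≤ 1 / 10 ^ 10 := by norm_num
    have h12 : (2 : ℝ) / 10 ^ 10 + 1 / 10 ^ 10 ≤ 1 / 10 ^ 9 := by norm_num
    rw [h8] at h7
    have h13 : (2 : ℝ) / 10 ^ 10 = 2 * (1 / 10 ^ 10) := by ring
    rw [h13] at h12
    linarith
  · have h5 := hWM' s l
    refine h5.trans ?_
    have hlpos : (0 : ℝ) < l := by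
      rw [hlR]
      positivity
    have h6 : (m ^ s) ^ 2 ≤ 20 ^ 2 := pow_le_pow_left₀ (by positivity) hI3 2
    have h7 : m + 1 ≤ 3 := by linarith
    have h8 : (m + 1) * l * s ≤ 3 * l * (7681 * (N : ℝ) ^ 10) := by gcongr
    have h9 : 2 * (3 * (7681 * (N : ℝ) ^ 10)) ≤ 3 * l := by
      rw [hlR]
      have h10 : (200 : ℝ) ^ 3 ≤ (N : ℝ) ^ 3 := pow_le_pow_left₀ (by norm_num) hN' 3
      have h11 : (N : ℝ) ^ 13 = (N : ℝ) ^ 10 * (N : ℝ) ^ 3 := by ring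
      have h12 : (N : ℝ) ^ 10 * 200 ^ 3 ≤ (N : ℝ) ^ 10 * (N : ℝ) ^ 3 :=
        mul_le_mul_of_nonneg_left h10 (by positivity)
      rw [h11]
      have h13 : (0 : ℝ) ≤ (N : ℝ) ^ 10 := by positivity
      linarith
    have h10 : (l : ℝ) ^ 2 + (m + 1) * l * s ≤ 5 / 2 * (l : ℝ) ^ 2 := by
      have : 3 * l * (7681 * (N : ℝ) ^ 10) ≤ 3 / 2 * (l : ℝ) ^ 2 := by
        have := mul_le_mul_of_nonneg_left h9 hlpos.le
        linarith
      linarith
    calc ((l : ℝ) ^ 2 + (m + 1) * l * s) * (m ^ s) ^ 2 ≤ (5 / 2 * (l : ℝ) ^ 2) * 20 ^ 2 := by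
          apply mul_le_mul h10 h6 (by positivity) (by positivity)
      _ = 1000 * (l : ℝ) ^ 2 := by ring

end SlabAux

/-- P20. -/
theorem slab (hW : WidthStmt) (hWM : WidthMomStmt) (hCh : ChainStmt) (hMo : MonoStmt)
    (hR : RecentreStmt) (hSS : StripShiftStmt) (hCD : ColDepStmt) (hMe : MeasStmt)
    (hCs : CshiftStmt) (hCI : ColIndepStmt) (hSp : SplitStmt) : SlabStmt := by
  obtain ⟨N₀, hN₀⟩ := SlabAux.num_event
  refine ⟨max N₀ 100, ?_⟩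
  intro M α p hM ha hb1 hb2 hv hu1 hu2
  have hM0 : N₀ ≤ M := (le_max_left _ _).trans hM
  have hM1 : 100 ≤ M := (le_max_right _ _).trans hM
  have h2N : ((4 * M : ℕ) : ℝ) = 2 * ((2 * M : ℕ) : ℝ) := by
    push_cast
    ring
  rw [h2N] at hb2
  exact SlabAux.slab_core hW hWM hCh hMo hR hSS hCD hMe hCs hCI hSp M (2 * M) _ _ α p rfl rfl rfl
    hM1 (hN₀ (2 * M) (by omega)) ha hb1 hb2 hv hu1 hu2

end CausalPerc.Neg
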