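import Pool.Agent.Lib.MP_a51368_pr.Neg.SlabProb

/-!
# Recursion over the slabs: covered blocks
-/

open MeasureTheory Set Filter Topology

noncomputable section

namespace CausalPerc.Neg

namespace SlabRec

open MeasAux

variable {α p : ℝ} {l w s N : ℕ}

def CovS (p : ℝ) (l : ℕ) (A : Set ℤ) (F : Finset ℤ) (n : ℕ) : Set Arr :=
  {ω | ∀ v ∈ F, ¬ (strip p ω).CrossFrom A (v * l) ((v + 1) * l) n}

def TopS (p : ℝ) (l : ℕ) (w₀ : ℤ) (n : ℕ) : Set Arr :=
  {ω | ∃ e, w₀ * l ≤ e ∧ e < (w₀ + 1) * l ∧ (strip p ω).DUp univ n e}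

theorem meas_CovS (A : Set ℤ) (F : Finset ℤ) (n : ℕ) : MeasurableSet (CovS p l A F n) :=
  measurableSet_setOfPred.2 (Measurable.forall fun v => Measurable.imp measurable_const
    (m_CrossFrom p A (v * l) ((v + 1) * l) n).not)

theorem cross_shift (hR : RecentreStmt) (hSh : StripShiftStmt) (A : Set ℤ) (v : ℤ) (n : ℕ)
    (ω : Arr) : (strip p (cshift (v * l) ω)).CrossFrom {z | z + v * l ∈ A} 0 l n ↔
      (strip p ω).CrossFrom A (v * l) ((v + 1) * l) n := by
  rw [hSh.1, (hR _ _).2.2.2.2.1]
  have e1 : {z : ℤ | z - v * l ∈ {z | z + v * l ∈ A}} = A := by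
    ext z
    simp
  have e2 : (0 : ℤ) + v * l = v * l := by ring
  have e3 : (l : ℤ) + v * l = (v + 1) * l := by ring
  rw [e1, e2, e3]

theorem rich_shift {A : Set ℤ} {v : ℤ} (h : Rich w A (v * l) ((v + 1) * l)) :
    Rich w {z | z + v * l ∈ A} 0 l := by
  intro c h1 h2
  have e3 : (v + 1) * (l : ℤ) = l + v * l := by ring
  obtain ⟨x, hx, h3, h4⟩ := h (c + v * l) (by omega) (by rw [e3]; omega)
  refine ⟨x - v * l, ?_, by omega, by omega⟩
  show x - v * l + v * l ∈ A
  rw [sub_add_cancel]
  exact hx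

open Classical in
theorem prod_ind (F : Finset ℤ) (P : ℤ → Prop) (f : ℤ → ENNReal) (hf1 : ∀ v ∈ F, P v → f v = 1)
    (hf0 : ∀ v ∈ F, ¬ P v → f v = 0) : ∏ v ∈ F, f v = if (∀ v ∈ F, P v) then 1 else 0 := by
  split_ifs with h
  · exact Finset.prod_eq_one fun v hv => hf1 v hv (h v hv)
  · push Not at h
    obtain ⟨v, hv, hP⟩ := h
    exact Finset.prod_eq_zero hv (hf0 v hv hP)

theorem covB (hCI : ColIndepStmt) (hR : RecentreStmt) (hSh : StripShiftStmt) (h0 : 0 ≤ α)
    (h1 : α < 1) {n : ℕ}
    (hq : ∀ A, Rich w A 0 l →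
      arrLaw α {ω | ¬ (strip p ω).CrossFrom A 0 l n} ≤ ENNReal.ofReal (1 / 2))
    (A : Set ℤ) (F : Finset ℤ) (hA : ∀ v ∈ F, Rich w A (v * l) ((v + 1) * l)) :
    arrLaw α (CovS p l A F n) ≤ ENNReal.ofReal ((1 / 2) ^ F.card) := by
  classical
  let B : ℤ → Set Arr := fun v => {ω | ¬ (strip p ω).CrossFrom {z | z + v * l ∈ A} 0 l n}
  have hB : ∀ v, MeasurableSet (B v) := fun v =>
    measurableSet_setOfPred.2 (m_CrossFrom p {z | z + v * l ∈ A} 0 l n).not
  have h2 : arrLaw α (CovS p l A F n) =
      ∫⁻ ω, ∏ v ∈ F, (B v).indicator 1 (cshift (v * l) ω) ∂arrLaw α := by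
    rw [← lintegral_indicator_one (meas_CovS A F n)]
    refine lintegral_congr fun ω => ?_
    rw [prod_ind F (fun v => ¬ (strip p ω).CrossFrom A (v * l) ((v + 1) * l) n)]
    · by_cases h : ω ∈ CovS p l A F n
      · rw [indicator_of_mem h]
        exact (if_pos h).symm
      · rw [indicator_of_notMem h]
        exact (if_neg h).symm
    · intro v _ hv
      rw [indicator_of_mem]
      · rfl
      · exact fun h => hv ((cross_shift hR hSh A v n ω).1 h)
    · intro v _ hv
      rw [indicator_of_notMem]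
      exact fun h => h ((cross_shift hR hSh A v n ω).2 (not_not.1 hv))
  rw [h2, indep1 hCI h0 h1 n F (fun v => (B v).indicator 1)
    (fun v => measurable_one.indicator (hB v))]
  · rw [ENNReal.ofReal_pow (by norm_num), ← Finset.prod_const]
    refine Finset.prod_le_prod' fun v hv => ?_
    rw [lintegral_indicator_one (hB v)]
    exact hq _ (rich_shift (hA v hv))
  · intro v ω ω' h
    have hl : (0 : ℤ) ≤ l := by positivity
    have key : ω ∈ B v ↔ ω' ∈ B v := by
      constructor
      · exact fun g g2 => g (cross_dep (agrC_symm hl h) le_rfl hl hl le_rfl g2)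
      · exact fun g g2 => g (cross_dep h le_rfl hl hl le_rfl g2)
    by_cases g : ω ∈ B v
    · rw [indicator_of_mem g, indicator_of_mem (key.1 g)]
      rfl
    · rw [indicator_of_notMem g, indicator_of_notMem (fun g2 => g (key.2 g2))]

/-- Blocks on the tops of good columns. -/
theorem exF (hR : RecentreStmt) (hSh : StripShiftStmt) (hl : 1 ≤ l) (A : Set ℤ) (G : Finset ℤ)
    (ω : Arr)
    (hgood : ∀ v ∈ G, Good1 (strip p (cshift (v * l) ω)) {z | z + v * l ∈ A} l w s) :
    ∃ F : Finset ℤ, F.card = 5 * G.card ∧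
      (∀ c ∈ F, Rich w (cl (strip p ω) l A s) (c * l) ((c + 1) * l)) ∧
      ∀ c ∈ F, ∃ v ∈ G, DD ω s (v * l) ≤ c * l ∧ (c + 1) * l ≤ DD ω s ((v + 1) * l) := by
  have hl0 : (0 : ℤ) ≤ l := by positivity
  have hgb : ∀ v ∈ G, GoodB (strip p ω) A (v * l) ((v + 1) * l) l w s := by
    intro v hv
    have h := hgood v hv
    rw [hSh.1] at h
    have h2 := goodB_of_good1 hR h
    have e3 : v * (l : ℤ) + l = (v + 1) * l := by ring
    rw [e3] at h2
    exact h2
  obtain ⟨F, hF1, hF2⟩ := blocks l hl (fun v => DD ω s (v * l))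
    (fun i j hij => DD_mono ω s (mul_le_mul_of_nonneg_right hij hl0)) G (by
      intro v hv
      have h := (hgb v hv).1
      rw [strip_D, strip_D] at h
      exact h)
  refine ⟨F, hF1, ?_, hF2⟩
  intro c hc
  obtain ⟨v, hv, h1, h2⟩ := hF2 c hc
  have h := (hgb v hv).2
  rw [strip_D, strip_D] at h
  exact rich_mono h (fun y hy => ⟨v, hy⟩) h1 h2

theorem fixed_cov (hR : RecentreStmt) (hSh : StripShiftStmt) (hl : 1 ≤ l) {m : ℕ}
    (hCov : ∀ (A : Set ℤ) (F : Finset ℤ), (∀ v ∈ F, Rich w A (v * l) ((v + 1) * l)) →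
      arrLaw α (CovS p l A F m) ≤ ENNReal.ofReal ((1 / 2) ^ F.card))
    (A : Set ℤ) (E G : Finset ℤ) (hG : G ⊆ E) (ω : Arr)
    (hgood : ∀ v ∈ G, Good1 (strip p (cshift (v * l) ω)) {z | z + v * l ∈ A} l w s) :
    arrLaw α {η | (ω, η) ∈ SE p l A s m E} ≤ ENNReal.ofReal ((1 / 2) ^ (5 * G.card)) := by
  obtain ⟨F, hF1, hF2, hF3⟩ := exF hR hSh hl A G ω hgood
  rw [← hF1]
  refine le_trans (measure_mono ?_) (hCov (cl (strip p ω) l A s) F hF2)
  intro η hη c hc
  obtain ⟨v, hv, h1, h2⟩ := hF3 c hc
  exact hη v (hG hv) c h1 h2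

theorem cshift_zero (ω : Arr) : cshift 0 ω = ω := by
  funext t x
  show ω t (x + DD ω t 0) = ω t x
  rw [DD_zero, add_zero]

theorem toE (h0 : 0 ≤ α) (h1 : α < 1) {S : Set Arr} {r : ℝ} (h : (arrLaw α).real S ≤ r) :
    arrLaw α S ≤ ENNReal.ofReal r := by
  have := Adapted.arr_prob h0 h1
  rw [← ofReal_measureReal]
  exact ENNReal.ofReal_le_ofReal h

/-- The first recursion. -/
theorem qBound (hCI : ColIndepStmt) (hR : RecentreStmt) (hSh : StripShiftStmt)
    (hSp : SplitStmt) (h0 : 0 ≤ α) (h1 : α < 1) (h : SlabCrit α p l w s N) (k : ℕ) :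
    ∀ A, Rich w A 0 l →
      arrLaw α {ω | ¬ (strip p ω).CrossFrom A 0 l (k * s)} ≤ ENNReal.ofReal (1 / 2) := by
  have := Adapted.arr_prob h0 h1
  have hw := h.hw
  have hwl := h.hwl
  have hl1 : 1 ≤ l := hw.trans hwl
  have hs1 : 1 ≤ s := h.hN.trans h.hNs
  have hl0 : (0 : ℤ) ≤ l := by positivity
  induction k with
  | zero =>
    intro A hA
    obtain ⟨x, hx, hx0, hxl⟩ := hA 0 le_rfl (by
      have : (w : ℤ) ≤ l := by exact_mod_cast hwl
      omega)
    have : {ω | ¬ (strip p ω).CrossFrom A 0 l (0 * s)} = ∅ := by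
      ext ω
      simp only [mem_ofPred_eq, mem_empty_iff_false, iff_false, not_not]
      refine ⟨x, x, hx, hx0, ?_, ?_⟩
      · have : (w : ℤ) ≤ l := by exact_mod_cast hwl
        omega
      · rw [zero_mul]
        exact Relation.ReflTransGen.refl
    rw [this, measure_empty]
    exact bot_le
  | succ k ih =>
    intro A hA
    have hcov := fun (A : Set ℤ) (F : Finset ℤ) => covB hCI hR hSh h0 h1 ih A F
    have hgood : MeasurableSet {ω | Good1 (strip p ω) A l w s} :=
      measurableSet_setOfPred.2 (m_Good1 A)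
    have hS : MeasurableSet ({q : Arr × Arr | Good1 (strip p q.1) A l w s} ∩
        SE p l A s (k * s) {0}) :=
      (measurable_fst hgood).inter (meas_SE p l A s (k * s) {0})
    have hsub : {ω | ¬ (strip p ω).CrossFrom A 0 l ((k + 1) * s)} ⊆
        {ω | ¬ Good1 (strip p ω) A l w s} ∪ {ω | (ω, post s ω) ∈
          ({q : Arr × Arr | Good1 (strip p q.1) A l w s} ∩ SE p l A s (k * s) {0})} := by
      intro ω hω
      by_cases hg : Good1 (strip p ω) A l w s
      · right
        refine ⟨hg, ?_⟩
        intro v hv c h1 h2 h3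
        rw [Finset.mem_singleton] at hv
        subst hv
        simp only at h1 h2 h3
        rw [hSh.2.1] at h3
        rw [← strip_D p] at h1 h2
        have h4 := cross_block hs1 h1 h2 h3
        apply hω
        have e : (k + 1) * s = s + k * s := by ring
        rw [e]
        rw [zero_mul, zero_add, one_mul] at h4
        exact h4
      · left
        exact hg
    have hA0 : {z : ℤ | z + 0 * (l : ℤ) ∈ A} = A := by
      ext z
      simp
    calc arrLaw α {ω | ¬ (strip p ω).CrossFrom A 0 l ((k + 1) * s)}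
        ≤ arrLaw α {ω | ¬ Good1 (strip p ω) A l w s} + arrLaw α {ω | (ω, post s ω) ∈
          ({q : Arr × Arr | Good1 (strip p q.1) A l w s} ∩ SE p l A s (k * s) {0})} :=
          (measure_mono hsub).trans (measure_union_le _ _)
      _ ≤ ENNReal.ofReal (1 / 10 ^ 9) + ENNReal.ofReal ((1 / 2) ^ 5) := by
          refine add_le_add (toE h0 h1 (h.good A hA)) ?_
          rw [split_set (s := s) hSp h0 h1 hS]
          · calc ∫⁻ ω, arrLaw α {η | (ω, η) ∈ ({q : Arr × Arr | Good1 (strip p q.1) A l w s} ∩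
                  SE p l A s (k * s) {0})} ∂arrLaw α
                ≤ ∫⁻ _, ENNReal.ofReal ((1 / 2) ^ 5) ∂arrLaw α := by
                  refine lintegral_mono fun ω => ?_
                  by_cases hg : Good1 (strip p ω) A l w s
                  · refine (measure_mono (fun η hη => hη.2)).trans ?_
                    have h5 := fixed_cov hR hSh hl1 hcov A {0} {0} subset_rfl ω (by
                      intro v hv
                      rw [Finset.mem_singleton] at hv
                      subst hv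
                      rw [hA0, zero_mul, cshift_zero]
                      exact hg)
                    rw [Finset.card_singleton, mul_one] at h5
                    exact h5
                  · have : {η | (ω, η) ∈ ({q : Arr × Arr | Good1 (strip p q.1) A l w s} ∩
                        SE p l A s (k * s) {0})} = ∅ := by
                      ext η
                      simp only [mem_ofPred_eq, mem_empty_iff_false, iff_false]
                      exact fun hη => hg hη.1
                    rw [this, measure_empty]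
                    exact bot_le
              _ = ENNReal.ofReal ((1 / 2) ^ 5) := by
                  rw [lintegral_const, measure_univ, mul_one]
          · intro ω ω' η hag hq
            refine ⟨?_, SE_dep hag hq.2⟩
            exact good_dep1 (fun t ht x _ _ => by
              show ω t x = ω' t x
              rw [hag t ht]) hq.1
      _ ≤ ENNReal.ofReal (1 / 2) := by
          rw [← ENNReal.ofReal_add (by norm_num) (by norm_num)]
          exact ENNReal.ofReal_le_ofReal (by norm_num)

end SlabRec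

end CausalPerc.Neg
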