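import Pool.Agent.Lib.MP_a51368_pr.Neg.Spec2
import Pool.Agent.Lib.MP_a51368_pr.Neg.ColDep

/-!
# Recursion over the slabs: deterministic part
-/

open Set Relation

namespace CausalPerc.Neg

namespace SlabRec

variable {E : Strip}

/-- Cluster at level `s` of the set `A` inside the column of `[a,b)`. -/
def clus (E : Strip) (A : Set ℤ) (a b : ℤ) (s : ℕ) : Set ℤ :=
  {y | ∃ x ∈ A, a ≤ x ∧ x < b ∧ E.Conn s (E.col a b) (0, x) (s, y)}

/-- Union of the clusters inside the columns of the blocks. -/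
def cl (E : Strip) (l : ℕ) (A : Set ℤ) (s : ℕ) : Set ℤ :=
  {y | ∃ v : ℤ, y ∈ clus E A (v * l) ((v + 1) * l) s}

def GoodB (E : Strip) (A : Set ℤ) (a b : ℤ) (l w s : ℕ) : Prop :=
  7 * (l : ℤ) ≤ E.D s b - E.D s a ∧ Rich w (clus E A a b s) (E.D s a) (E.D s b)

theorem rich_mono {w : ℕ} {A A' : Set ℤ} {a b a' b' : ℤ} (h : Rich w A a b) (hA : A ⊆ A')
    (ha : a ≤ a') (hb : b' ≤ b) : Rich w A' a' b' := by
  intro c h1 h2
  obtain ⟨x, hx, h3, h4⟩ := h c (by omega) (by omega)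
  exact ⟨x, hA hx, h3, h4⟩

theorem clus_mem_col {A : Set ℤ} {a b z : ℤ} {s : ℕ} (hs : 1 ≤ s) (h : z ∈ clus E A a b s) :
    E.D s a ≤ z ∧ z < E.D s b := by
  obtain ⟨x, _, _, _, h4⟩ := h
  rcases ReflTransGen.cases_tail h4 with h | ⟨c, _, h⟩
  · have h5 : (s, z) = ((0 : ℕ), x) := h
    simp only [Prod.mk.injEq] at h5
    omega
  · exact h.2.1

theorem cross_extend {A : Set ℤ} {a b c d : ℤ} {s m : ℕ} (hc : E.D s a ≤ c) (hd : d ≤ E.D s b)
    (h : (E.shift s).CrossFrom (clus E A a b s) c d m) : E.CrossFrom A a b (s + m) := by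
  obtain ⟨z, y', ⟨x, hxA, hax, hxb, hconn⟩, hcz, hzd, hconn2⟩ := h
  refine ⟨x, y', hxA, hax, hxb, (hconn.mono (by omega) subset_rfl).trans ?_⟩
  have h1 := Strip.Conn.of_shift (s := s) (R := E.col a b) ?_ hconn2
  · simpa using h1
  · rintro ⟨t, z'⟩ hv
    rw [← Strip.mem_col_shift]
    have h2 := (E.shift s).D_mono t hc
    have h3 := (E.shift s).D_mono t hd
    rw [Strip.mem_col] at hv ⊢
    exact ⟨h2.trans hv.1, hv.2.trans_le h3⟩

theorem cross_block {l s m : ℕ} (hs : 1 ≤ s) {A : Set ℤ} {v c : ℤ} (hc : E.D s (v * l) ≤ c * l)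
    (hd : (c + 1) * l ≤ E.D s ((v + 1) * l))
    (h : (E.shift s).CrossFrom (cl E l A s) (c * l) ((c + 1) * l) m) :
    E.CrossFrom A (v * l) ((v + 1) * l) (s + m) := by
  obtain ⟨z, y', ⟨v', hv'⟩, hcz, hzd, hconn2⟩ := h
  have h1 := clus_mem_col hs hv'
  have hvv : v' = v := by
    have hl0 : (0 : ℤ) ≤ l := by positivity
    rcases lt_trichotomy v' v with hlt | heq | hlt
    · exfalso
      have h2 : (v' + 1) * (l : ℤ) ≤ v * l := mul_le_mul_of_nonneg_right (by omega) hl0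
      have h3 := E.D_mono s h2
      omega
    · exact heq
    · exfalso
      have h2 : (v + 1) * (l : ℤ) ≤ v' * l := mul_le_mul_of_nonneg_right (by omega) hl0
      have h3 := E.D_mono s h2
      omega
  subst hvv
  exact cross_extend hc hd ⟨z, y', hv', hcz, hzd, hconn2⟩

/-- Five aligned blocks inside the top of every block of `G`. -/
theorem blocks (l : ℕ) (hl : 1 ≤ l) (T : ℤ → ℤ) (hT : Monotone T) (G : Finset ℤ)
    (hG : ∀ v ∈ G, 7 * (l : ℤ) ≤ T (v + 1) - T v) :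
    ∃ F : Finset ℤ, F.card = 5 * G.card ∧
      ∀ c ∈ F, ∃ v ∈ G, T v ≤ c * l ∧ (c + 1) * l ≤ T (v + 1) := by
  classical
  have hl0 : (0 : ℤ) < l := by positivity
  let c₀ : ℤ → ℤ := fun v => (T v + l - 1) / l
  have h1 : ∀ v, T v ≤ c₀ v * l ∧ c₀ v * l < T v + l := by
    intro v
    have h2 := Int.ediv_mul_le (T v + l - 1) hl0.ne'
    have h3 := Int.lt_ediv_add_one_mul_self (T v + l - 1) hl0
    have h4 : ((T v + l - 1) / l + 1) * (l : ℤ) = c₀ v * l + l := by ring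
    rw [h4] at h3
    have h5 : c₀ v * l ≤ T v + l - 1 := h2
    exact ⟨by omega, by omega⟩
  have h2 : ∀ v ∈ G, ∀ i : ℕ, i < 5 → T v ≤ (c₀ v + i) * l ∧ (c₀ v + i + 1) * l ≤ T (v + 1) := by
    intro v hv i hi
    obtain ⟨h3, h4⟩ := h1 v
    have h5 := hG v hv
    have hi' : (i : ℤ) ≤ 4 := by exact_mod_cast Nat.lt_succ_iff.1 hi
    have hi0 : (0 : ℤ) ≤ i := by positivity
    have h6 : (i : ℤ) * l ≤ 4 * l := mul_le_mul_of_nonneg_right hi' hl0.le
    have h7 : (0 : ℤ) ≤ (i : ℤ) * l := by positivity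
    constructor
    · rw [add_mul]
      omega
    · rw [add_mul, add_mul]
      omega
  refine ⟨(G ×ˢ Finset.range 5).image fun q => c₀ q.1 + q.2, ?_, ?_⟩
  · rw [Finset.card_image_of_injOn, Finset.card_product, Finset.card_range, mul_comm]
    rintro ⟨v, i⟩ hq ⟨v', i'⟩ hq' heq
    simp only [Finset.coe_product, mem_prod, Finset.mem_coe, Finset.mem_range] at hq hq'
    simp only at heq
    obtain ⟨h3, h4⟩ := h2 v hq.1 i hq.2
    obtain ⟨h5, h6⟩ := h2 v' hq'.1 i' hq'.2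
    rw [heq] at h3 h4
    have h7 : (c₀ v' + i' + 1) * (l : ℤ) = (c₀ v' + i') * l + l := by ring
    rw [h7] at h4 h6
    have hvv : v = v' := by
      rcases lt_trichotomy v v' with hlt | h | hlt
      · exfalso
        have := hT (show v + 1 ≤ v' by omega)
        omega
      · exact h
      · exfalso
        have := hT (show v' + 1 ≤ v by omega)
        omega
    subst hvv
    simp only [Prod.mk.injEq, true_and]
    omega
  · intro c hc
    rw [Finset.mem_image] at hc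
    obtain ⟨⟨v, i⟩, hq, rfl⟩ := hc
    rw [Finset.mem_product, Finset.mem_range] at hq
    exact ⟨v, hq.1, h2 v hq.1 i hq.2⟩

/-- Discrete intermediate value theorem. -/
theorem exists_step (T : ℤ → ℤ) (y a : ℤ) (n : ℕ) (h1 : T a ≤ y) (h2 : y < T (a + n)) :
    ∃ u, a ≤ u ∧ u < a + n ∧ T u ≤ y ∧ y < T (u + 1) := by
  induction n with
  | zero => simp at h2; omega
  | succ n ih =>
    by_cases h3 : y < T (a + n)
    · obtain ⟨u, h4, h5, h6, h7⟩ := ih h3
      exact ⟨u, h4, by push_cast; omega, h6, h7⟩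
    · refine ⟨a + n, by omega, by push_cast; omega, by omega, ?_⟩
      have h4 : a + ((n + 1 : ℕ) : ℤ) = a + n + 1 := by push_cast; ring
      rw [h4] at h2
      exact h2

theorem step_cases (hB : BlockStmt) (hL : DLastStmt) {l s m : ℕ} {w₀ e : ℤ}
    (hm : 1 ≤ m) (he1 : w₀ * l ≤ e) (he2 : e < (w₀ + 1) * l)
    (hu : E.DUp univ (s + m) e) (n : ℕ) :
    (∃ u ∈ Finset.Icc (w₀ - n) (w₀ + n),
      (∃ y, E.D s (u * l) ≤ y ∧ y < E.D s ((u + 1) * l) ∧ (E.shift s).DUp univ m y) ∧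
      ∀ j, (w₀ < j ∧ j < u ∨ u < j ∧ j < w₀) → ¬ E.Cross (j * l) ((j + 1) * l) (s + m)) ∨
    (∀ j, w₀ < j → j ≤ w₀ + n → ¬ E.Cross (j * l) ((j + 1) * l) (s + m)) ∨
    (∀ j, j < w₀ → w₀ - n ≤ j → ¬ E.Cross (j * l) ((j + 1) * l) (s + m)) := by
  have hl0 : (0 : ℤ) ≤ l := by positivity
  obtain ⟨y, -, hy, hc⟩ := hL E univ s m e hm hu
  have huniv : {v : ℕ × ℤ | (s + v.1, v.2) ∈ (univ : Set (ℕ × ℤ))} = univ := by
    ext v
    simp
  rw [huniv] at hy
  have key := fun (j : ℤ) (hcr : E.Cross (j * l) ((j + 1) * l) (s + m)) =>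
    hB E (s + m) (j * l) ((j + 1) * l) e _ hcr hc (by simp only; omega) hu.1
  simp only at key
  have key1 : ∀ j, w₀ < j → E.Cross (j * l) ((j + 1) * l) (s + m) → y < E.D s ((j + 1) * l) := by
    intro j hj hcr
    refine (key j hcr).1 (he2.trans_le ?_)
    exact mul_le_mul_of_nonneg_right (by omega) hl0
  have key2 : ∀ j, j < w₀ → E.Cross (j * l) ((j + 1) * l) (s + m) → E.D s (j * l) ≤ y := by
    intro j hj hcr
    refine (key j hcr).2 (le_trans ?_ he1)
    exact mul_le_mul_of_nonneg_right (by omega) hl0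
  have hmono : Monotone fun j : ℤ => E.D s (j * l) := by
    intro i j hij
    exact E.D_mono s (mul_le_mul_of_nonneg_right hij hl0)
  by_cases h1 : y < E.D s ((w₀ - n) * l)
  · right; right
    intro j hj hj2 hcr
    have h2 := key2 j hj hcr
    have h3 := hmono hj2
    simp only at h3
    omega
  by_cases h2 : E.D s ((w₀ + n + 1) * l) ≤ y
  · right; left
    intro j hj hj2 hcr
    have h3 := key1 j hj hcr
    have h4 := hmono (show j + 1 ≤ w₀ + n + 1 by omega)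
    simp only at h4
    omega
  left
  obtain ⟨u, h3, h4, h5, h6⟩ := exists_step (fun j : ℤ => E.D s (j * l)) y (w₀ - n) (2 * n + 1)
    (by omega) (by
      have h5 : w₀ - (n : ℤ) + ((2 * n + 1 : ℕ) : ℤ) = w₀ + n + 1 := by push_cast; ring
      rw [h5]
      omega)
  refine ⟨u, ?_, ⟨y, h5, h6, hy⟩, ?_⟩
  · rw [Finset.mem_Icc]
    push_cast at h4
    exact ⟨h3, by omega⟩
  · rintro j (⟨hj1, hj2⟩ | ⟨hj1, hj2⟩) hcr
    · have h7 := key1 j hj1 hcr
      have h8 := hmono (show j + 1 ≤ u by omega)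
      simp only at h8
      omega
    · have h7 := key2 j hj2 hcr
      have h8 := hmono (show u + 1 ≤ j by omega)
      simp only at h8
      omega

theorem bd_of_top (hC : ConfineStmt) (hF : DFirstStmt) (hR : RecentreStmt) {l N M : ℕ}
    {w₀ e : ℤ} (hN : 1 ≤ N) (hNM : N ≤ M) (he1 : w₀ * l ≤ e) (he2 : e < (w₀ + 1) * l)
    (hu : E.DUp univ M e) : BdEv (E.recentre ((w₀ - 1) * l)) l N := by
  obtain ⟨_, _, _, _, hcf, _, _, hdup, _, _⟩ := hR E ((w₀ - 1) * l)
  by_contra hbd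
  unfold BdEv at hbd
  push Not at hbd
  obtain ⟨h1, h2, h3⟩ := hbd
  have e1 : (0 : ℤ) + (w₀ - 1) * l = (w₀ - 1) * l := by ring
  have e2 : (l : ℤ) + (w₀ - 1) * l = w₀ * l := by ring
  have e3 : 2 * (l : ℤ) + (w₀ - 1) * l = (w₀ + 1) * l := by ring
  have e4 : 3 * (l : ℤ) + (w₀ - 1) * l = (w₀ + 2) * l := by ring
  have hset : {z : ℤ | z - (w₀ - 1) * l ∈ (univ : Set ℤ)} = univ := by
    ext z
    simp
  have g1 : E.Cross ((w₀ - 1) * l) (w₀ * l) N := by
    have := (hcf N univ 0 l).1 h1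
    rw [hset, e1, e2] at this
    exact this
  have g2 : E.Cross ((w₀ + 1) * l) ((w₀ + 2) * l) N := by
    have := (hcf N univ (2 * l) (3 * l)).1 h2
    rw [hset, e3, e4] at this
    exact this
  have g3 := hC E N _ _ _ _ e he1 he2 g1 g2 (hF E univ N M e hN hNM hu)
  have g4 := (hdup N 0 (3 * l) (e - (w₀ - 1) * l)).2 (by
    rw [e1, e4, sub_add_cancel]
    exact g3)
  refine h3 (e - (w₀ - 1) * l) ?_ ?_ g4
  · linarith
  · linarith

/-- Translation of `Good1`. -/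
theorem goodB_of_good1 (hR : RecentreStmt) {A : Set ℤ} {a : ℤ} {l w s : ℕ}
    (h : Good1 (E.recentre a) {z | z + a ∈ A} l w s) : GoodB E A a (a + l) l w s := by
  obtain ⟨hD, hcn, _, _, _, _, _, _, _, _⟩ := hR E a
  obtain ⟨h1, h2⟩ := h
  have hD1 : (E.recentre a).D s l = E.D s (a + l) - E.D s a := by
    rw [hD, add_comm]
  refine ⟨by rw [← hD1]; exact h1, ?_⟩
  intro c hc1 hc2
  obtain ⟨y, ⟨x, hx, hx0, hxl, hxc⟩, h3, h4⟩ := h2 (c - E.D s a) (by omega) (by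
    rw [hD1]; omega)
  refine ⟨y + E.D s a, ⟨x + a, hx, by omega, by omega, ?_⟩, by omega, by omega⟩
  have h5 := (hcn s 0 l (0, x) (s, y)).1 hxc
  simp only [Strip.D] at h5
  rw [zero_add, add_comm (l : ℤ) a] at h5
  exact h5

theorem cross_of_good1 {A : Set ℤ} {l w s : ℕ} (hwl : w ≤ l)
    (h : Good1 E A l w s) : E.CrossFrom A 0 l s := by
  obtain ⟨h1, h2⟩ := h
  obtain ⟨y, ⟨x, hx, hx0, hxl, hxc⟩, _, _⟩ := h2 0 le_rfl (by
    have : (w : ℤ) ≤ l := by exact_mod_cast hwl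
    have : (0 : ℤ) ≤ l := by positivity
    omega)
  exact ⟨x, y, hx, hx0, hxl, hxc⟩

end SlabRec

end CausalPerc.Neg
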