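import Pool.Agent.Lib.MP_a51368_pr.Neg.Spec2

/-!
# Module P20, deterministic part: from the good events to `Good1`
-/

open MeasureTheory Set Filter Topology

noncomputable section

namespace CausalPerc.Neg

namespace SlabAux

open Strip

theorem DUp.univ {E : Strip} {R : Set (ℕ × ℤ)} {n : ℕ} {x : ℤ} (h : E.DUp R n x) :
    E.DUp Set.univ n x := by
  obtain ⟨h1, _, t, x', y', h3, h4, h5, h6⟩ := h
  refine ⟨h1, mem_univ _, t, x', y', h3, h4, h5, ?_⟩
  exact Relation.ReflTransGen.mono (fun _ _ hab => ⟨mem_univ _, mem_univ _, hab.2.2⟩) _ _ h6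

theorem conn_last_mem {E : Strip} {n : ℕ} {R : Set (ℕ × ℤ)} {u v : ℕ × ℤ} (h : E.Conn n R u v)
    (hne : u ≠ v) : v ∈ R := by
  rcases Relation.ReflTransGen.cases_tail h with h1 | ⟨c, _, h2⟩
  · exact absurd h1.symm hne
  · exact h2.2.1

/-- The good events imply `Good1`. -/
theorem det_good (hCh : ChainStmt) (E : Strip) (A : Set ℤ) (l M I q : ℕ) (B : ℤ)
    (hM : 1 ≤ M) (hI : 1 ≤ I) (hq : 1 ≤ q) (h0 : ∀ t, E.D t 0 = 0)
    (w1 : 7 * (l : ℤ) ≤ E.D ((I + 2) * M) l)
    (w2 : ∀ i ≤ I, (q : ℤ) ≤ E.D (i * M) l)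
    (w3 : ∀ i ≤ I, E.D (i * M) l ≤ B)
    (x1 : ∀ i ≤ I, ∀ z, 0 ≤ z → z < B → (E.shift (i * M)).Cross z (z + q) (2 * M))
    (x2 : ∀ i ≤ I, ∀ z, 0 ≤ z → z < B → ¬ (E.shift (i * M)).DUp Set.univ M z)
    (x3 : ∀ z, 0 ≤ z → z < B → (E.shift (I * M)).D (2 * M) (z + q) -
      (E.shift (I * M)).D (2 * M) z ≤ 14 * q)
    (x4 : E.CrossFrom A 0 l (2 * M)) :
    Good1 E A l (30 * q) ((I + 2) * M) := by
  refine ⟨w1, ?_⟩
  intro c hc0 hc1
  have hqZ : (1 : ℤ) ≤ q := by exact_mod_cast hq
  have hlev : I * M + 2 * M = (I + 2) * M := by ring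
  set f : ℤ → ℤ := fun z => (E.shift (I * M)).D (2 * M) z with hf
  have hmono : ∀ a b, a ≤ b → f a ≤ f b := fun a b h => (E.shift (I * M)).D_mono _ h
  have hf0 : f 0 = 0 := by
    have h1 := E.D_shift (I * M) (2 * M) 0
    rw [h0, h0] at h1
    exact h1
  have hfl : f (E.D (I * M) l) = E.D ((I + 2) * M) l := by
    have h1 := E.D_shift (I * M) (2 * M) (l : ℤ)
    rw [hlev] at h1
    exact h1
  push_cast at hc1
  -- choice of the interval
  have hz : ∃ z : ℤ, 0 ≤ z ∧ c ≤ f z ∧ f z ≤ c + 14 * q := by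
    have hex : ∃ k : ℕ, c ≤ f k := by
      refine ⟨(E.D (I * M) l).toNat, ?_⟩
      have h1 := w2 I le_rfl
      rw [Int.toNat_of_nonneg (by omega), hfl]
      omega
    classical
    have hs := Nat.find_spec hex
    rcases Nat.eq_zero_or_pos (Nat.find hex) with h | h
    · rw [h] at hs
      refine ⟨0, le_rfl, by simpa using hs, ?_⟩
      rw [hf0]
      omega
    · obtain ⟨k, hk⟩ := Nat.exists_eq_succ_of_ne_zero h.ne'
      have hmin := Nat.find_min hex (m := k) (by omega)
      rw [hk] at hs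
      refine ⟨((k + 1 : ℕ) : ℤ), by omega, hs, ?_⟩
      have h2 : (k : ℤ) < E.D (I * M) l := by
        by_contra hcon
        have h3 := hmono _ _ (not_lt.1 hcon)
        rw [hfl] at h3
        omega
      have h4 := x3 k (by omega) (lt_of_lt_of_le h2 (w3 I le_rfl))
      have h5 : f ((k + 1 : ℕ) : ℤ) ≤ f ((k : ℤ) + q) := hmono _ _ (by push_cast; omega)
      have h6 : f ((k : ℤ) + q) - f k ≤ 14 * q := h4
      omega
  obtain ⟨z, hz0, hz1, hz2⟩ := hz
  have hzD : z < E.D (I * M) l := by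
    by_contra hcon
    have h3 := hmono _ _ (not_lt.1 hcon)
    rw [hfl] at h3
    omega
  have hzB : z < B := lt_of_lt_of_le hzD (w3 I le_rfl)
  have hz3 : f (z + q) - f z ≤ 14 * q := x3 z hz0 hzB
  have hzq : z + q < E.D (I * M) l := by
    by_contra hcon
    have h3 := hmono _ _ (not_lt.1 hcon)
    rw [hfl] at h3
    omega
  obtain ⟨xI, y, -, hx1, hx2, hconn⟩ := x1 I le_rfl z hz0 hzB
  have hy : (2 * M, y) ∈ (E.shift (I * M)).col z (z + q) := by
    refine conn_last_mem hconn ?_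
    intro h
    have := congrArg Prod.fst h
    simp only at this
    omega
  have hy1 : f z ≤ y := hy.1
  have hy2 : y < f (z + q) := hy.2
  obtain ⟨a, ya, haA, ha0, hal, hconna⟩ := x4
  -- the crossings in the middle slabs
  have hmid : ∀ i ≤ I, ∃ x' y', 0 ≤ x' ∧ x' < E.D (i * M) l ∧
      (E.shift (i * M)).Conn (2 * M) ((E.shift (i * M)).col 0 (E.D (i * M) l)) (0, x')
        (2 * M, y') := by
    intro i hi
    have hB0 : 0 < B := by
      have := w2 I le_rfl
      have := w3 I le_rfl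
      omega
    obtain ⟨x', y', -, h1, h2, h3⟩ := x1 i hi 0 le_rfl hB0
    have h4 := w2 i hi
    exact ⟨x', y', h1, by omega, h3.mono le_rfl ((E.shift (i * M)).col_mono le_rfl (by omega))⟩
  choose! xm ym hm using hmid
  have hcolI : (E.shift (I * M)).col z (z + q) ⊆ (E.shift (I * M)).col 0 (E.D (I * M) l) :=
    (E.shift (I * M)).col_mono hz0 hzq.le
  have hchain := hCh E M I 0 l (fun i => if i = 0 then a else if i = I then xI else xm i)
    (fun i => if i = 0 then ya else if i = I then y else ym i) hM ?_ ?_ 0 (Nat.zero_le _) I le_rfl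
  · have hI0 : I ≠ 0 := by omega
    simp only [zero_mul, if_true, hI0, if_false] at hchain
    have h1 := Conn.of_shift (R := E.col 0 l) (fun v hv => by
      have hv' : (v.1, v.2) ∈ (E.shift (I * M)).col (E.D (I * M) 0) (E.D (I * M) l) := by
        rw [h0]
        exact hv
      exact E.mem_col_shift.1 hv') (hconn.mono le_rfl hcolI)
    simp only [add_zero, hlev] at h1
    exact ⟨y, ⟨a, haA, ha0, hal, hchain.trans h1⟩, by omega, by push_cast; omega⟩
  · intro i hi
    by_cases hi0 : i = 0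
    · subst hi0
      simp only [if_true, zero_mul]
      refine ⟨ha0, hal, ?_⟩
      rw [E.shift_zero]
      exact hconna
    · simp only [hi0, if_false]
      rw [h0]
      by_cases hiI : i = I
      · subst hiI
        simp only [if_true]
        exact ⟨by omega, by omega, hconn.mono le_rfl hcolI⟩
      · simp only [hiI, if_false]
        exact hm i hi
  · intro i hi1 hiI z' hcon
    have h1 := hcon.2.1
    rw [h0] at h1
    have h2 : (0 : ℤ) ≤ z' := h1.1
    have h3 : z' < E.D (i * M) l := h1.2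
    exact x2 i hiI z' h2 (lt_of_lt_of_le h3 (w3 i hiI)) (DUp.univ hcon)

end SlabAux

end CausalPerc.Neg
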