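import Pool.Agent.Lib.MP_a51368_pr.Neg.SlabDet
import Pool.Agent.Lib.MP_a51368_pr.Neg.Meas
import Pool.Agent.Lib.MP_a51368_pr.Neg.Adapted

/-!
# Recursion over the slabs: independence and splitting
-/

open MeasureTheory Set Filter Topology

noncomputable section

namespace CausalPerc.Neg

namespace SlabRec

open MeasAux

variable {α p : ℝ} {l w s N : ℕ} {n : ℕ} {ω ω' : Arr}

/-! ### Dependence -/

theorem agrC_symm {b : ℤ} (hb : 0 ≤ b) (h : AgrC b n ω ω') : AgrC b n ω' ω := by
  intro t ht x h0 h1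
  rw [← h.D ht.le hb le_rfl] at h1
  exact (h t ht x h0 h1).symm

theorem agrC_mono {b : ℤ} {m : ℕ} (hm : m ≤ n) (h : AgrC b n ω ω') : AgrC b m ω ω' :=
  fun t ht x h0 h1 => h t (ht.trans_le hm) x h0 h1

theorem cross_dep {b : ℤ} (h : AgrC b n ω ω') {A : Set ℤ} {a c : ℤ} (ha : 0 ≤ a) (hab : a ≤ b)
    (hc0 : 0 ≤ c) (hc : c ≤ b) (hx : (strip p ω).CrossFrom A a c n) :
    (strip p ω').CrossFrom A a c n := by
  obtain ⟨x, y, h1, h2, h3, h4⟩ := hx
  exact ⟨x, y, h1, h2, h3, (h.agr p ha hc).conn (h.col p ha hab hc0 hc) h4⟩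

theorem bd_dep1 (h : AgrC (3 * l) n ω ω') (hN : N ≤ n) (hb : BdEv (strip p ω) l N) :
    BdEv (strip p ω') l N := by
  have hl : (0 : ℤ) ≤ l := by positivity
  have h' := agrC_mono hN h
  have h2 := agrC_symm (by positivity) h'
  rcases hb with hb | hb | ⟨e, he1, he2, he3⟩
  · exact Or.inl fun hx => hb (cross_dep h2 le_rfl (by omega) hl (by omega) hx)
  · exact Or.inr (Or.inl fun hx => hb (cross_dep h2 (by omega) (by omega) (by omega) (by omega) hx))
  · exact Or.inr (Or.inr ⟨e, he1, he2, (h'.agr p le_rfl le_rfl).dup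
      (h'.col p le_rfl (by omega) (by omega) le_rfl) he3⟩)

theorem bd_dep (h : AgrC (3 * l) n ω ω') (hN : N ≤ n) :
    BdEv (strip p ω) l N ↔ BdEv (strip p ω') l N :=
  ⟨bd_dep1 h hN, bd_dep1 (agrC_symm (by positivity) h) hN⟩

theorem good_dep1 {A : Set ℤ} (h : AgrC l s ω ω') (hg : Good1 (strip p ω) A l w s) :
    Good1 (strip p ω') A l w s := by
  have hl : (0 : ℤ) ≤ l := by positivity
  obtain ⟨h1, h2⟩ := hg
  have hD : (strip p ω').D s l = (strip p ω).D s l := by
    rw [strip_D, strip_D, h.D le_rfl hl le_rfl]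
  refine ⟨by rw [hD]; exact h1, ?_⟩
  rw [hD]
  refine rich_mono h2 ?_ le_rfl le_rfl
  rintro y ⟨x, hx, hx0, hxl, hxc⟩
  exact ⟨x, hx, hx0, hxl, (h.agr p le_rfl le_rfl).conn (h.col p le_rfl hl hl le_rfl) hxc⟩

theorem good_dep {A : Set ℤ} (h : AgrC l s ω ω') :
    Good1 (strip p ω) A l w s ↔ Good1 (strip p ω') A l w s :=
  ⟨good_dep1 h, good_dep1 (agrC_symm (by positivity) h)⟩

theorem DD_congr (h : ∀ t < s, ω t = ω' t) (a : ℤ) : ∀ t ≤ s, DD ω t a = DD ω' t a := by
  intro t
  induction t with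
  | zero => intro _; rfl
  | succ t ih =>
    intro ht
    show ps (xi ω t) (DD ω t a) = ps (xi ω' t) (DD ω' t a)
    rw [ih (by omega)]
    unfold xi
    rw [h t (by omega)]

theorem cshift_congr (h : ∀ t < s, ω t = ω' t) (a : ℤ) :
    ∀ t < s, cshift a ω t = cshift a ω' t := by
  intro t ht
  funext x
  show ω t (x + DD ω t a) = ω' t (x + DD ω' t a)
  rw [h t ht, DD_congr h a t ht.le]

theorem agr_univ {m : ℕ} {R : Set (ℕ × ℤ)} {E E' : Strip} (h : Agr m univ E E') : Agr m R E E' :=
  ⟨fun t x ht _ => h.S0 t x ht (mem_univ _), fun t x ht _ => h.S1 t x ht (mem_univ _),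
    fun t x y ht _ => h.vo t x y ht (mem_univ _), fun t x ht _ => h.ho t x ht (mem_univ _)⟩

theorem clus_congr1 (h : ∀ t < s, ω t = ω' t) (A : Set ℤ) (a b : ℤ) :
    clus (strip p ω) A a b s ⊆ clus (strip p ω') A a b s := by
  rintro y ⟨x, hx, hx0, hxl, hxc⟩
  refine ⟨x, hx, hx0, hxl, (agr_univ (row_agr h p)).conn ?_ hxc⟩
  rintro v hv hn
  rw [Strip.mem_col, strip_D, strip_D] at hv ⊢
  rw [← DD_congr h a v.1 hn, ← DD_congr h b v.1 hn]
  exact hv

theorem cl_congr (h : ∀ t < s, ω t = ω' t) (A : Set ℤ) :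
    cl (strip p ω) l A s = cl (strip p ω') l A s := by
  apply Subset.antisymm
  · rintro y ⟨v, hv⟩
    exact ⟨v, clus_congr1 h A _ _ hv⟩
  · rintro y ⟨v, hv⟩
    exact ⟨v, clus_congr1 (fun t ht => (h t ht).symm) A _ _ hv⟩

/-! ### Measurability -/

theorem m_Rich {X : Type*} [MeasurableSpace X] {A : X → Set ℤ} {a b : X → ℤ}
    (hA : ∀ z, Measurable fun x => z ∈ A x) (ha : Measurable a) (hb : Measurable b) (w : ℕ) :
    Measurable fun x => Rich w (A x) (a x) (b x) := by
  show Measurable fun x => ∀ c, a x ≤ c → c + (w : ℤ) ≤ b x → ∃ z, z ∈ A x ∧ c ≤ z ∧ z < c + w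
  refine Measurable.forall fun c => Measurable.imp ?_ (Measurable.imp ?_ ?_)
  · exact measurableSet_setOfPred.1 (measurableSet_le ha measurable_const)
  · exact measurableSet_setOfPred.1 (measurableSet_le measurable_const hb)
  · exact Measurable.exists fun z => (hA z).and (measurable_const.and measurable_const)

theorem m_Good1 (A : Set ℤ) : Measurable fun ω : Arr => Good1 (strip p ω) A l w s := by
  unfold Good1
  refine (mle measurable_const (m_D p s l)).and (m_Rich ?_ measurable_const (m_D p s l) w)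
  intro z
  exact Measurable.exists fun x => mc.and (mc.and (mc.and (m_Conn p (m_col p 0 l) s (0, x) (s, z))))

theorem m_Bd : Measurable fun ω : Arr => BdEv (strip p ω) l N := by
  unfold BdEv
  refine (m_CrossFrom p univ 0 l N).not.or ((m_CrossFrom p univ (2 * l) (3 * l) N).not.or ?_)
  exact Measurable.exists fun e => mc.and (mc.and (m_DUp p (m_col p 0 (3 * l)) N e))

theorem m_cl (A : Set ℤ) (z : ℤ) : Measurable fun ω : Arr => z ∈ cl (strip p ω) l A s :=
  Measurable.exists fun v => Measurable.exists fun x =>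
    mc.and (mc.and (mc.and (m_Conn p (m_col p (v * l) ((v + 1) * l)) s _ _)))

/-- All aligned blocks in the tops of the blocks of `E` are not crossed from the cluster of `A`. -/
def SE (p : ℝ) (l : ℕ) (A : Set ℤ) (s m : ℕ) (E : Finset ℤ) : Set (Arr × Arr) :=
  {q | ∀ v ∈ E, ∀ c : ℤ, DD q.1 s (v * l) ≤ c * l → (c + 1) * l ≤ DD q.1 s ((v + 1) * l) →
    ¬ (strip p q.2).CrossFrom (cl (strip p q.1) l A s) (c * l) ((c + 1) * l) m}

theorem meas_SE (p : ℝ) (l : ℕ) (A : Set ℤ) (s m : ℕ) (E : Finset ℤ) :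
    MeasurableSet (SE p l A s m E) := by
  refine measurableSet_setOfPred.2 ?_
  refine Measurable.forall fun v => Measurable.imp measurable_const ?_
  refine Measurable.forall fun c => Measurable.imp ?_ (Measurable.imp ?_ (Measurable.not ?_))
  · exact (mle (meas_DD s (v * l)) measurable_const).comp measurable_fst
  · exact (mle measurable_const (meas_DD s ((v + 1) * l))).comp measurable_fst
  · refine Measurable.exists fun x => Measurable.exists fun y => Measurable.and ?_
      (measurable_const.and (measurable_const.and ?_))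
    · exact (m_cl A x).comp measurable_fst
    · exact (m_Conn p (m_col p (c * l) ((c + 1) * l)) m _ _).comp measurable_snd

theorem SE_dep {A : Set ℤ} {m : ℕ} {E : Finset ℤ} {η : Arr} (h : ∀ t < s, ω t = ω' t)
    (hq : (ω, η) ∈ SE p l A s m E) : (ω', η) ∈ SE p l A s m E := by
  intro v hv c h1 h2
  simp only at h1 h2 ⊢
  rw [← DD_congr h _ s le_rfl] at h1 h2
  rw [← cl_congr h]
  exact hq v hv c h1 h2

/-! ### Splitting -/

theorem split_set (hSp : SplitStmt) (h0 : 0 ≤ α) (h1 : α < 1) {S : Set (Arr × Arr)}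
    (hS : MeasurableSet S)
    (hdep : ∀ (ω ω' η : Arr), (∀ t < s, ω t = ω' t) → (ω, η) ∈ S → (ω', η) ∈ S) :
    arrLaw α {ω | (ω, post s ω) ∈ S} = ∫⁻ ω, arrLaw α {η | (ω, η) ∈ S} ∂arrLaw α := by
  have key := hSp α h0 h1 s (fun ω η => S.indicator 1 (ω, η)) (by
    have : Function.uncurry (fun (ω η : Arr) => S.indicator (1 : Arr × Arr → ENNReal) (ω, η)) =
        S.indicator 1 := by
      funext q
      rfl
    rw [this]
    exact measurable_one.indicator hS) (by
    intro ω ω' η h
    by_cases hq : (ω, η) ∈ S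
    · rw [indicator_of_mem hq, indicator_of_mem (hdep ω ω' η h hq)]
      rfl
    · rw [indicator_of_notMem hq, indicator_of_notMem]
      exact fun hq' => hq (hdep ω' ω η (fun t ht => (h t ht).symm) hq'))
  have e1 : ∀ ω : Arr, S.indicator (1 : Arr × Arr → ENNReal) (ω, post s ω) =
      ({ω | (ω, post s ω) ∈ S} : Set Arr).indicator 1 ω := by
    intro ω
    by_cases hq : (ω, post s ω) ∈ S
    · rw [indicator_of_mem hq, indicator_of_mem (by exact hq)]
      rfl
    · rw [indicator_of_notMem hq, indicator_of_notMem (by exact hq)]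
  have e2 : ∀ ω η : Arr, S.indicator (1 : Arr × Arr → ENNReal) (ω, η) =
      ({η | (ω, η) ∈ S} : Set Arr).indicator 1 η := by
    intro ω η
    by_cases hq : (ω, η) ∈ S
    · rw [indicator_of_mem hq, indicator_of_mem (by exact hq)]
      rfl
    · rw [indicator_of_notMem hq, indicator_of_notMem (by exact hq)]
  simp only [e1, e2] at key
  rw [lintegral_indicator_one] at key
  · rw [key]
    refine lintegral_congr fun ω => ?_
    rw [lintegral_indicator_one]
    exact (measurable_const.prodMk measurable_id) hS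
  · exact (measurable_id.prodMk (meas_post s)) hS

/-! ### Independence -/

theorem indep1 (hCI : ColIndepStmt) (h0 : 0 ≤ α) (h1 : α < 1) (n : ℕ) (F : Finset ℤ)
    (g : ℤ → Arr → ENNReal) (hg : ∀ v, Measurable (g v))
    (hdep : ∀ v ω ω', AgrC l n ω ω' → g v ω = g v ω') :
    ∫⁻ ω, ∏ v ∈ F, g v (cshift (v * l) ω) ∂arrLaw α = ∏ v ∈ F, ∫⁻ ω, g v ω ∂arrLaw α := by
  have hl0 : (0 : ℤ) ≤ l := by positivity
  have key := hCI α h0 h1 F (fun v => (v : ℤ) * l) (fun v => ((v : ℤ) + 1) * l) n
    (fun v => g v) (fun v => mul_le_mul_of_nonneg_right (by omega) hl0) (by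
      intro v v' hvv
      have h2 : (v : ℤ) ≠ v' := fun h => hvv (Subtype.ext h)
      rcases lt_or_gt_of_ne h2 with h | h
      · left
        exact mul_le_mul_of_nonneg_right (by omega) hl0
      · right
        exact mul_le_mul_of_nonneg_right (by omega) hl0)
    (fun v => hg v) (by
      intro v ω ω' h
      refine hdep v ω ω' ?_
      intro t ht x hx0 hx1
      refine h t ht x hx0 ?_
      have h2 : ((v : ℤ) + 1) * (l : ℤ) - v * l = l := by ring
      rw [h2]
      exact hx1)
  have e1 : ∀ ω : Arr, ∏ v : F, g v (cshift ((v : ℤ) * l) ω) =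
      ∏ v ∈ F, g v (cshift (v * l) ω) := fun ω =>
    Finset.prod_coe_sort F (fun v => g v (cshift (v * l) ω))
  rw [← Finset.prod_coe_sort F (fun v => ∫⁻ ω, g v ω ∂arrLaw α), ← key]
  exact lintegral_congr fun ω => (e1 ω).symm

theorem indep2 (hCI : ColIndepStmt) (h0 : 0 ≤ α) (h1 : α < 1) (n : ℕ) (F : Finset ℤ)
    (g : ℤ → Arr → ENNReal) (hg : ∀ v, Measurable (g v))
    (hdep : ∀ v ω ω', AgrC l n ω ω' → g v ω = g v ω') (w₀ : ℤ) (g0 : Arr → ENNReal)
    (hg0 : Measurable g0) (hdep0 : ∀ ω ω', AgrC (3 * l) n ω ω' → g0 ω = g0 ω')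
    (hF : ∀ v ∈ F, v ≠ w₀ - 1 ∧ v ≠ w₀ ∧ v ≠ w₀ + 1) :
    ∫⁻ ω, g0 (cshift ((w₀ - 1) * l) ω) * ∏ v ∈ F, g v (cshift (v * l) ω) ∂arrLaw α =
      (∫⁻ ω, g0 ω ∂arrLaw α) * ∏ v ∈ F, ∫⁻ ω, g v ω ∂arrLaw α := by
  have hl0 : (0 : ℤ) ≤ l := by positivity
  have key := hCI α h0 h1 (Option F)
    (fun j => j.elim ((w₀ - 1) * l) fun v => (v : ℤ) * l)
    (fun j => j.elim ((w₀ + 2) * l) fun v => ((v : ℤ) + 1) * l) n
    (fun j => j.elim g0 fun v => g v) (by
      rintro (_ | v)
      · exact mul_le_mul_of_nonneg_right (by omega) hl0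
      · exact mul_le_mul_of_nonneg_right (by omega) hl0) (by
      rintro (_ | v) (_ | v') hvv
      · exact absurd rfl hvv
      · obtain ⟨g1, g2, g3⟩ := hF v' v'.2
        rcases lt_or_gt_of_ne g2 with h | h
        · right
          exact mul_le_mul_of_nonneg_right (by omega) hl0
        · left
          exact mul_le_mul_of_nonneg_right (by omega) hl0
      · obtain ⟨g1, g2, g3⟩ := hF v v.2
        rcases lt_or_gt_of_ne g2 with h | h
        · left
          exact mul_le_mul_of_nonneg_right (by omega) hl0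
        · right
          exact mul_le_mul_of_nonneg_right (by omega) hl0
      · have h2 : (v : ℤ) ≠ v' := fun h => hvv (by rw [Subtype.ext h])
        rcases lt_or_gt_of_ne h2 with h | h
        · left
          exact mul_le_mul_of_nonneg_right (by omega) hl0
        · right
          exact mul_le_mul_of_nonneg_right (by omega) hl0)
    (by
      rintro (_ | v)
      · exact hg0
      · exact hg v) (by
      rintro (_ | v) ω ω' h
      · refine hdep0 ω ω' ?_
        intro t ht x hx0 hx1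
        refine h t ht x hx0 ?_
        have h2 : (w₀ + 2) * (l : ℤ) - (w₀ - 1) * l = 3 * l := by ring
        simp only [Option.elim]
        rw [h2]
        exact hx1
      · refine hdep v ω ω' ?_
        intro t ht x hx0 hx1
        refine h t ht x hx0 ?_
        have h2 : ((v : ℤ) + 1) * (l : ℤ) - v * l = l := by ring
        simp only [Option.elim]
        rw [h2]
        exact hx1)
  rw [← Finset.prod_coe_sort F (fun v => ∫⁻ ω, g v ω ∂arrLaw α)]
  rw [Fintype.prod_option] at key
  simp only [Option.elim] at key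
  rw [← key]
  refine lintegral_congr fun ω => ?_
  rw [Fintype.prod_option]
  simp only
  rw [Finset.prod_coe_sort F (fun v => g v (cshift (v * l) ω))]

end SlabRec

end CausalPerc.Neg
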