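import Pool.Agent.Lib.MP_a51368_pr.Neg.SlabDetA
import Pool.Agent.Lib.MP_a51368_pr.Neg.Adapted

/-!
# Module P20, probabilistic part: translations and union bounds
-/

open MeasureTheory Set Filter Topology

noncomputable section

namespace CausalPerc.Neg

namespace SlabAux

open Strip

variable {α : ℝ}

theorem law_post (hSp : SplitStmt) (hMe : MeasStmt) (h0 : 0 ≤ α) (h1 : α < 1) (T : ℕ)
    {F : Set Arr} (hF : MeasurableSet F) : arrLaw α (post T ⁻¹' F) = arrLaw α F := by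
  have := Adapted.arr_prob h0 h1
  have h := hSp α h0 h1 T (fun _ η => F.indicator (fun _ => (1 : ENNReal)) η)
    ((measurable_const.indicator hF).comp measurable_snd) (fun _ _ _ _ => rfl)
  have hm : MeasurableSet (post T ⁻¹' F) := hMe.2.2.1 T hF
  have e1 : ∀ ω : Arr, F.indicator (fun _ => (1 : ENNReal)) (post T ω) =
      (post T ⁻¹' F).indicator (fun _ => (1 : ENNReal)) ω := fun ω => rfl
  simp only [e1] at h
  rw [lintegral_indicator_const hm, lintegral_indicator_const hF, lintegral_const] at h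
  simpa using h

theorem law_trans (hSp : SplitStmt) (hCs : CshiftStmt) (hMe : MeasStmt) (h0 : 0 ≤ α) (h1 : α < 1)
    (T : ℕ) (z : ℤ) {F : Set Arr} (hF : MeasurableSet F) :
    arrLaw α {ω | cshift z (post T ω) ∈ F} = arrLaw α F := by
  have hm : Measurable (cshift z) := hMe.2.1 z
  have e1 : {ω : Arr | cshift z (post T ω) ∈ F} = post T ⁻¹' (cshift z ⁻¹' F) := rfl
  rw [e1, law_post hSp hMe h0 h1 T (hm hF), ← Measure.map_apply hm hF, hCs α h0 h1 z]

theorem law_trans_real (hSp : SplitStmt) (hCs : CshiftStmt) (hMe : MeasStmt) (h0 : 0 ≤ α)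
    (h1 : α < 1) (T : ℕ) (z : ℤ) {F : Set Arr} (hF : MeasurableSet F) :
    (arrLaw α).real {ω | cshift z (post T ω) ∈ F} = (arrLaw α).real F := by
  rw [measureReal_def, measureReal_def, law_trans hSp hCs hMe h0 h1 T z hF]

theorem strip_trans (hSS : StripShiftStmt) (p : ℝ) (T : ℕ) (z : ℤ) (ω : Arr) :
    strip p (cshift z (post T ω)) = ((strip p ω).shift T).recentre z := by
  rw [hSS.1, hSS.2.1]

theorem crossFrom_trans (hR : RecentreStmt) (hSS : StripShiftStmt) (p : ℝ) (T : ℕ) (z : ℤ) (q n : ℕ)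
    (A : Set ℤ) (ω : Arr) :
    (strip p (cshift z (post T ω))).CrossFrom A 0 q n ↔
      ((strip p ω).shift T).CrossFrom {x | x - z ∈ A} z (z + q) n := by
  rw [strip_trans hSS]
  obtain ⟨-, -, -, -, r5, -⟩ := hR ((strip p ω).shift T) z
  rw [r5, zero_add, add_comm (q : ℤ) z]

theorem prob_cross (hSp : SplitStmt) (hCs : CshiftStmt) (hMe : MeasStmt) (hR : RecentreStmt)
    (hSS : StripShiftStmt) (h0 : 0 ≤ α) (h1 : α < 1) (p : ℝ) (T : ℕ) (z : ℤ) (q n : ℕ) :
    (arrLaw α).real {ω | ¬ ((strip p ω).shift T).Cross z (z + q) n} = vv α p q n := by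
  have hm : MeasurableSet {ω | ¬ (strip p ω).Cross 0 q n} :=
    ((hMe.2.2.2 p n 0 q).2.2.2.2.1 Set.univ).compl
  unfold vv
  rw [← law_trans_real hSp hCs hMe h0 h1 T z hm]
  congr 1
  ext ω
  have h := crossFrom_trans hR hSS p T z q n Set.univ ω
  have e : {x : ℤ | x - z ∈ (Set.univ : Set ℤ)} = Set.univ := by ext x; simp
  rw [e] at h
  exact not_congr h.symm

theorem prob_dup (hSp : SplitStmt) (hCs : CshiftStmt) (hMe : MeasStmt) (hR : RecentreStmt)
    (hSS : StripShiftStmt) (h0 : 0 ≤ α) (h1 : α < 1) (p : ℝ) (T : ℕ) (z : ℤ) (n : ℕ) :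
    (arrLaw α).real {ω | ((strip p ω).shift T).DUp Set.univ n z} = uu α p n := by
  have hm : MeasurableSet {ω | (strip p ω).DUp Set.univ n 0} := (hMe.2.2.2 p n 0 0).2.2.2.2.2.2.1 0
  unfold uu
  rw [← law_trans_real hSp hCs hMe h0 h1 T z hm]
  congr 1
  ext ω
  simp only [mem_ofPred_eq]
  rw [strip_trans hSS]
  obtain ⟨-, -, -, -, -, -, r7, -⟩ := hR ((strip p ω).shift T) z
  rw [r7, zero_add]

theorem prob_width (hSp : SplitStmt) (hCs : CshiftStmt) (hMe : MeasStmt)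
    (hSS : StripShiftStmt) (h0 : 0 ≤ α) (h1 : α < 1) (p : ℝ) (T : ℕ) (z : ℤ) (q n : ℕ) (A : ℤ) :
    (arrLaw α).real {ω | A < ((strip p ω).shift T).D n (z + q) - ((strip p ω).shift T).D n z} =
      (arrLaw α).real {ω | A < DD ω n q} := by
  have hm : MeasurableSet {ω | A < DD ω n q} := measurableSet_lt measurable_const (hMe.1 n q)
  rw [← law_trans_real hSp hCs hMe h0 h1 T z hm]
  congr 1
  ext ω
  simp only [mem_ofPred_eq]
  rw [← hSS.2.1, strip_D, strip_D, hSS.2.2.1, add_comm (q : ℤ) z]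

theorem union2 {μ : Measure Arr} [IsProbabilityMeasure μ] {S T U : Set Arr} {a b : ℝ}
    (h : S ⊆ T ∪ U) (hT : μ.real T ≤ a) (hU : μ.real U ≤ b) : μ.real S ≤ a + b := by
  calc μ.real S ≤ μ.real (T ∪ U) := measureReal_mono h
    _ ≤ μ.real T + μ.real U := measureReal_union_le _ _
    _ ≤ a + b := add_le_add hT hU

theorem unionF {ι : Type*} {μ : Measure Arr} [IsProbabilityMeasure μ] (J : Finset ι)
    (T : ι → Set Arr) {a : ℝ} (hT : ∀ i ∈ J, μ.real (T i) ≤ a) :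
    μ.real (⋃ i ∈ J, T i) ≤ J.card * a := by
  calc μ.real (⋃ i ∈ J, T i) ≤ ∑ i ∈ J, μ.real (T i) := measureReal_biUnion_finset_le _ _
    _ ≤ ∑ i ∈ J, a := Finset.sum_le_sum hT
    _ = J.card * a := by simp

/-- The bad event for the middle block. -/
theorem bd_bound (hSp : SplitStmt) (hCs : CshiftStmt) (hMe : MeasStmt) (hR : RecentreStmt)
    (hSS : StripShiftStmt) (h0 : 0 ≤ α) (h1 : α < 1) (p : ℝ) (l N : ℕ) :
    (arrLaw α).real {ω | BdEv (strip p ω) l N} ≤ 2 * vv α p l N + l * uu α p N := by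
  have := Adapted.arr_prob h0 h1
  have e1 := prob_cross hSp hCs hMe hR hSS h0 h1 p 0 0 l N
  have e2 := prob_cross hSp hCs hMe hR hSS h0 h1 p 0 (2 * l) l N
  have e3 := fun z => prob_dup hSp hCs hMe hR hSS h0 h1 p 0 z N
  simp only [shift_zero] at e1 e2 e3
  have hsub : {ω | BdEv (strip p ω) l N} ⊆
      ({ω | ¬ (strip p ω).Cross 0 (0 + l) N} ∪ {ω | ¬ (strip p ω).Cross (2 * l) (2 * l + l) N}) ∪
        ⋃ e ∈ Finset.Ico (l : ℤ) (2 * l), {ω | (strip p ω).DUp Set.univ N e} := by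
    intro ω hω
    rcases hω with h | h | ⟨e, he1, he2, h⟩
    · left; left
      simp only [mem_ofPred_eq, zero_add]
      exact h
    · left; right
      have e4 : (2 * (l : ℤ) + l) = 3 * l := by ring
      simp only [mem_ofPred_eq, e4]
      exact h
    · right
      simp only [mem_iUnion]
      exact ⟨e, Finset.mem_Ico.2 ⟨he1, he2⟩, DUp.univ h⟩
  have h2 : (arrLaw α).real (⋃ e ∈ Finset.Ico (l : ℤ) (2 * l), {ω | (strip p ω).DUp Set.univ N e}) ≤
      (Finset.Ico (l : ℤ) (2 * l)).card * uu α p N := unionF _ _ fun e _ => (e3 e).le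
  have h3 : (Finset.Ico (l : ℤ) (2 * l)).card = l := by
    rw [Int.card_Ico]
    omega
  rw [h3] at h2
  have h4 : (arrLaw α).real ({ω | ¬ (strip p ω).Cross 0 (0 + l) N} ∪
      {ω | ¬ (strip p ω).Cross (2 * l) (2 * l + l) N}) ≤ vv α p l N + vv α p l N :=
    union2 subset_rfl e1.le e2.le
  have h5 := union2 hsub h4 h2
  linarith

/-- The union bound for `Good1`. -/
theorem good_bound (hSp : SplitStmt) (hCs : CshiftStmt) (hMe : MeasStmt) (hR : RecentreStmt)
    (hSS : StripShiftStmt) (hCh : ChainStmt) (h0 : 0 ≤ α) (h1 : α < 1) (p : ℝ)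
    (A : Set ℤ) (l M I q B : ℕ) (hM : 1 ≤ M) (hI : 1 ≤ I) (hq : 1 ≤ q) (a1 a2 a3 a6 a7 : ℝ)
    (b1 : (arrLaw α).real {ω | ¬ 7 * (l : ℤ) ≤ DD ω ((I + 2) * M) l} ≤ a1)
    (b2 : ∀ i ≤ I, (arrLaw α).real {ω | ¬ (q : ℤ) ≤ DD ω (i * M) l} ≤ a2)
    (b3 : ∀ i ≤ I, (arrLaw α).real {ω | ¬ DD ω (i * M) l ≤ (B : ℤ)} ≤ a3)
    (b6 : (arrLaw α).real {ω | 14 * (q : ℤ) < DD ω (2 * M) q} ≤ a6)
    (b7 : (arrLaw α).real {ω | ¬ (strip p ω).CrossFrom A 0 l (2 * M)} ≤ a7) :
    (arrLaw α).real {ω | ¬ Good1 (strip p ω) A l (30 * q) ((I + 2) * M)} ≤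
      a1 + (I + 1 : ℕ) * (a2 + a3) +
        (I + 1 : ℕ) * (B * (vv α p q (2 * M) + uu α p M)) + B * a6 + a7 := by
  have := Adapted.arr_prob h0 h1
  let W1 : Set Arr := {ω | ¬ 7 * (l : ℤ) ≤ DD ω ((I + 2) * M) l}
  let W2 : ℕ → Set Arr := fun i => {ω | ¬ (q : ℤ) ≤ DD ω (i * M) l} ∪
    {ω | ¬ DD ω (i * M) l ≤ (B : ℤ)}
  let X1 : ℕ → ℤ → Set Arr := fun i z =>
    {ω | ¬ ((strip p ω).shift (i * M)).Cross z (z + q) (2 * M)} ∪
      {ω | ((strip p ω).shift (i * M)).DUp Set.univ M z}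
  let X3 : ℤ → Set Arr := fun z => {ω | 14 * (q : ℤ) < ((strip p ω).shift (I * M)).D (2 * M)
    (z + q) - ((strip p ω).shift (I * M)).D (2 * M) z}
  let X4 : Set Arr := {ω | ¬ (strip p ω).CrossFrom A 0 l (2 * M)}
  have hsub : {ω | ¬ Good1 (strip p ω) A l (30 * q) ((I + 2) * M)} ⊆
      (((W1 ∪ ⋃ i ∈ Finset.range (I + 1), W2 i) ∪
        ⋃ i ∈ Finset.range (I + 1), ⋃ z ∈ Finset.Ico (0 : ℤ) B, X1 i z) ∪
          ⋃ z ∈ Finset.Ico (0 : ℤ) B, X3 z) ∪ X4 := by
    intro ω hω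
    by_contra hcon
    apply hω
    simp only [mem_union, not_or, mem_iUnion, not_exists] at hcon
    obtain ⟨⟨⟨⟨c1, c2⟩, c3⟩, c4⟩, c5⟩ := hcon
    have hr : ∀ i ≤ I, i ∈ Finset.range (I + 1) := fun i hi => Finset.mem_range.2 (by omega)
    have d0 : ∀ t, (strip p ω).D t 0 = 0 := by
      intro t
      rw [strip_D]
      induction t with
      | zero => rfl
      | succ t ih =>
        show ps (xi ω t) (DD ω t 0) = 0
        rw [ih]
        exact ps_zero _
    refine det_good hCh (strip p ω) A l M I q B hM hI hq d0 ?_ ?_ ?_ ?_ ?_ ?_ ?_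
    · rw [strip_D]
      exact not_not.1 c1
    · intro i hi
      rw [strip_D]
      exact not_not.1 fun h => c2 i (hr i hi) (Or.inl h)
    · intro i hi
      rw [strip_D]
      exact not_not.1 fun h => c2 i (hr i hi) (Or.inr h)
    · intro i hi z hz0 hzB
      exact not_not.1 fun h => c3 i (hr i hi) z (Finset.mem_Ico.2 ⟨hz0, hzB⟩) (Or.inl h)
    · intro i hi z hz0 hzB h
      exact c3 i (hr i hi) z (Finset.mem_Ico.2 ⟨hz0, hzB⟩) (Or.inr h)
    · intro z hz0 hzB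
      exact not_lt.1 (c4 z (Finset.mem_Ico.2 ⟨hz0, hzB⟩))
    · exact not_not.1 c5
  have hcardB : (Finset.Ico (0 : ℤ) B).card = B := by
    rw [Int.card_Ico]
    omega
  have u2 : (arrLaw α).real (⋃ i ∈ Finset.range (I + 1), W2 i) ≤ (I + 1 : ℕ) * (a2 + a3) := by
    have h := unionF (μ := arrLaw α) (Finset.range (I + 1)) W2 (a := a2 + a3) (fun i hi =>
      union2 subset_rfl (b2 i (by have := Finset.mem_range.1 hi; omega))
        (b3 i (by have := Finset.mem_range.1 hi; omega)))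
    rwa [Finset.card_range] at h
  have u3 : (arrLaw α).real (⋃ i ∈ Finset.range (I + 1), ⋃ z ∈ Finset.Ico (0 : ℤ) B, X1 i z) ≤
      (I + 1 : ℕ) * (B * (vv α p q (2 * M) + uu α p M)) := by
    have h := unionF (μ := arrLaw α) (Finset.range (I + 1))
      (fun i => ⋃ z ∈ Finset.Ico (0 : ℤ) B, X1 i z)
      (a := B * (vv α p q (2 * M) + uu α p M)) (fun i _ => by
        have h' := unionF (μ := arrLaw α) (Finset.Ico (0 : ℤ) B) (X1 i)
          (a := vv α p q (2 * M) + uu α p M) (fun z _ => union2 subset_rfl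
            (prob_cross hSp hCs hMe hR hSS h0 h1 p (i * M) z q (2 * M)).le
            (prob_dup hSp hCs hMe hR hSS h0 h1 p (i * M) z M).le)
        rwa [hcardB] at h')
    rwa [Finset.card_range] at h
  have u4 : (arrLaw α).real (⋃ z ∈ Finset.Ico (0 : ℤ) B, X3 z) ≤ B * a6 := by
    have h' := unionF (μ := arrLaw α) (Finset.Ico (0 : ℤ) B) X3 (a := a6) (fun z _ =>
      (prob_width hSp hCs hMe hSS h0 h1 p (I * M) z q (2 * M) (14 * q)).le.trans b6)
    rwa [hcardB] at h'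
  exact union2 hsub (union2 subset_rfl (union2 subset_rfl (union2 subset_rfl b1 u2) u3) u4) b7

end SlabAux

end CausalPerc.Neg
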