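import Pool.Agent.Lib.MP_a51368_pr.Neg.SlabProbA

/-!
# Module P20, the start: a rich set has an open crossing with high probability
-/

open MeasureTheory Set Filter Topology

noncomputable section

namespace CausalPerc.Neg

namespace SlabAux

open Strip

variable {α : ℝ}

/-- Pigeonhole: there is a good starting point. -/
theorem exists_start (hMe : MeasStmt) (h0 : 0 ≤ α) (h1 : α < 1) (p : ℝ) (q N : ℕ) (hq : 1 ≤ q)
    (hv : vv α p q N ≤ 1 / 2) : ∃ x0 : ℤ, 0 ≤ x0 ∧ x0 < q ∧
      1 / (2 * q) ≤ (arrLaw α).real {ω | (strip p ω).CrossFrom {x0} 0 q N} := by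
  have := Adapted.arr_prob h0 h1
  by_contra hcon
  push Not at hcon
  have hmC : MeasurableSet {ω | (strip p ω).Cross 0 q N} := (hMe.2.2.2 p N 0 q).2.2.2.2.1 Set.univ
  have hq0 : (0 : ℝ) < q := by exact_mod_cast hq
  have hsub : {ω | (strip p ω).Cross 0 q N} ⊆
      ⋃ x ∈ Finset.Ico (0 : ℤ) q, {ω | (strip p ω).CrossFrom {x} 0 q N} := by
    rintro ω ⟨x, y, -, hx0, hx1, hc⟩
    simp only [mem_iUnion]
    exact ⟨x, Finset.mem_Ico.2 ⟨hx0, hx1⟩, x, y, rfl, hx0, hx1, hc⟩
  have hcard : (Finset.Ico (0 : ℤ) q).card = q := by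
    rw [Int.card_Ico]
    omega
  have h2 : (arrLaw α).real {ω | (strip p ω).Cross 0 q N} <
      ∑ x ∈ Finset.Ico (0 : ℤ) q, 1 / (2 * q : ℝ) := by
    refine lt_of_le_of_lt ((measureReal_mono hsub (measure_ne_top _ _)).trans
      (measureReal_biUnion_finset_le _ _)) ?_
    refine Finset.sum_lt_sum_of_nonempty ⟨0, Finset.mem_Ico.2 ⟨le_rfl, by exact_mod_cast hq⟩⟩ ?_
    intro x hx
    obtain ⟨hx0, hx1⟩ := Finset.mem_Ico.1 hx
    exact hcon x hx0 hx1
  rw [Finset.sum_const, hcard, nsmul_eq_mul] at h2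
  have h3 : (q : ℝ) * (1 / (2 * q)) = 1 / 2 := by field_simp
  rw [h3] at h2
  have h4 : vv α p q N = 1 - (arrLaw α).real {ω | (strip p ω).Cross 0 q N} := by
    unfold vv
    have h5 : {ω | ¬ (strip p ω).Cross 0 q N} = {ω | (strip p ω).Cross 0 q N}ᶜ := rfl
    rw [h5, probReal_compl_eq_one_sub hmC]
  linarith

/-- `n` independent trials. -/
theorem start_bound (hCI : ColIndepStmt) (hCD : ColDepStmt) (hMe : MeasStmt) (hR : RecentreStmt)
    (hSS : StripShiftStmt) (h0 : 0 ≤ α) (h1 : α < 1) (p : ℝ) (q N n l : ℕ) (hq : 1 ≤ q)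
    (hv : vv α p q N ≤ 1 / 2) (A : Set ℤ) (hA : Rich (30 * q) A 0 l)
    (hl : 2 * n * (30 * q) + q ≤ l) :
    (arrLaw α).real {ω | ¬ (strip p ω).CrossFrom A 0 l N} ≤ (1 - 1 / (2 * q)) ^ n := by
  have := Adapted.arr_prob h0 h1
  obtain ⟨x0, hx0, hx1, hP⟩ := exists_start hMe h0 h1 p q N hq hv
  set F : Set Arr := {ω | ¬ (strip p ω).CrossFrom {x0} 0 q N} with hF
  have hmF' : MeasurableSet {ω | (strip p ω).CrossFrom {x0} 0 q N} :=
    (hMe.2.2.2 p N 0 q).2.2.2.2.1 {x0}
  have hmF : MeasurableSet F := hmF'.compl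
  have hFr : (arrLaw α).real F ≤ 1 - 1 / (2 * q) := by
    have h5 : F = {ω | (strip p ω).CrossFrom {x0} 0 q N}ᶜ := rfl
    rw [h5, probReal_compl_eq_one_sub hmF']
    linarith
  -- the trial points
  have htr : ∀ j : Fin n, ∃ x ∈ A, (2 * (j : ℤ) + 1) * (30 * q) ≤ x ∧
      x < (2 * (j : ℤ) + 2) * (30 * q) := by
    intro j
    have hj : (j : ℤ) + 1 ≤ n := by exact_mod_cast j.2
    have hqZ : (1 : ℤ) ≤ q := by exact_mod_cast hq
    have hlZ : 2 * (n : ℤ) * (30 * q) + q ≤ l := by exact_mod_cast hl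
    have hj0 : (0 : ℤ) ≤ j := by positivity
    obtain ⟨x, hxA, hx2, hx3⟩ := hA ((2 * (j : ℤ) + 1) * (30 * q)) (by positivity) (by
      push_cast
      nlinarith)
    refine ⟨x, hxA, hx2, ?_⟩
    push_cast at hx3
    linarith
  choose a haA ha1 ha2 using htr
  have hqZ : (1 : ℤ) ≤ q := by exact_mod_cast hq
  have hlZ : 2 * (n : ℤ) * (30 * q) + q ≤ l := by exact_mod_cast hl
  have hc0 : ∀ j, 0 ≤ a j - x0 := by
    intro j
    have hj0 : (0 : ℤ) ≤ (j : ℕ) := by positivity
    have := ha1 j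
    nlinarith
  have hcl : ∀ j, a j - x0 + q ≤ l := by
    intro j
    have hj : ((j : ℕ) : ℤ) + 1 ≤ n := by exact_mod_cast j.2
    have := ha2 j
    nlinarith
  have hdis : ∀ i j : Fin n, i < j → a i - x0 + q ≤ a j - x0 := by
    intro i j hij
    have hij' : ((i : ℕ) : ℤ) + 1 ≤ (j : ℕ) := by exact_mod_cast hij
    have h2 := ha2 i
    have h3 := ha1 j
    nlinarith
  have hind := hCI α h0 h1 (Fin n) (fun j => a j - x0) (fun j => a j - x0 + q) N
    (fun _ => F.indicator fun _ => (1 : ENNReal)) (fun j => by simp)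
    (fun i j hij => by
      rcases lt_or_gt_of_ne hij with h | h
      · left
        exact hdis i j h
      · right
        exact hdis j i h)
    (fun j => measurable_const.indicator hmF)
    (fun j ω ω' h => by
      have e1 : (a j - x0 + q) - (a j - x0) = (q : ℤ) := by ring
      simp only [e1] at h
      have hD := (hCD p N q (by positivity)).2.1 {x0}
      have hD1 : ∀ t, t ≤ N → DD ω t q = DD ω' t q := by
        intro t ht
        exact (hCD p N q (by positivity)).2.2.2.2.2.1 (DD ω N q) |> fun _ => by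
          have hz := (hCD p t q (by positivity)).2.2.2.2.2.1 (DD ω t q)
          exact (hz ω ω' (fun s hs => h s (by omega)) rfl).symm
      have h' : ∀ t < N, ∀ x, 0 ≤ x → x < DD ω' t q → ω' t x = ω t x := by
        intro t ht x hx0 hx1
        rw [← hD1 t ht.le] at hx1
        exact (h t ht x hx0 hx1).symm
      by_cases hm : ω ∈ F
      · have hm' : ω' ∈ F := by
          intro hcon
          exact hm (hD ω' ω h' hcon)
        simp [hm, hm']
      · have hm1 : ω ∈ {ω | (strip p ω).CrossFrom {x0} 0 q N} := not_not.1 hm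
        have hm' : ω' ∉ F := not_not.2 (hD ω ω' h hm1)
        simp [hm, hm'])
  have e2 : (∫⁻ ω, ∏ j : Fin n, (F.indicator fun _ => (1 : ENNReal)) (cshift (a j - x0) ω)
      ∂arrLaw α) = arrLaw α {ω | ∀ j : Fin n, cshift (a j - x0) ω ∈ F} := by
    have hms : MeasurableSet {ω : Arr | ∀ j : Fin n, cshift (a j - x0) ω ∈ F} := by
      have : {ω : Arr | ∀ j : Fin n, cshift (a j - x0) ω ∈ F} =
          ⋂ j : Fin n, cshift (a j - x0) ⁻¹' F := by
        ext ω
        simp
      rw [this]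
      exact MeasurableSet.iInter fun j => hMe.2.1 _ hmF
    rw [← lintegral_indicator_one hms]
    refine lintegral_congr fun ω => ?_
    by_cases h : ω ∈ {ω : Arr | ∀ j : Fin n, cshift (a j - x0) ω ∈ F}
    · rw [indicator_of_mem h]
      simp only [Pi.one_apply]
      refine Finset.prod_eq_one fun j _ => ?_
      rw [indicator_of_mem (h j)]
    · rw [indicator_of_notMem h]
      simp only [mem_ofPred_eq, not_forall] at h
      obtain ⟨j, hj⟩ := h
      exact Finset.prod_eq_zero (Finset.mem_univ j) (indicator_of_notMem hj _)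
  have e3 : ∏ j : Fin n, ∫⁻ ω, (F.indicator fun _ => (1 : ENNReal)) ω ∂arrLaw α =
      (arrLaw α F) ^ n := by
    rw [Finset.prod_const, lintegral_indicator_const hmF]
    simp
  have e4 : (arrLaw α).real {ω | ∀ j : Fin n, cshift (a j - x0) ω ∈ F} =
      ((arrLaw α).real F) ^ n := by
    rw [measureReal_def, ← e2, hind, e3, ENNReal.toReal_pow, measureReal_def]
  have hsub : {ω | ¬ (strip p ω).CrossFrom A 0 l N} ⊆
      {ω | ∀ j : Fin n, cshift (a j - x0) ω ∈ F} := by
    intro ω hω j hcon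
    apply hω
    rw [hSS.1] at hcon
    obtain ⟨-, -, -, -, r5, -⟩ := hR (strip p ω) (a j - x0)
    rw [r5, zero_add] at hcon
    obtain ⟨x, y, hx, hxl, hxr, hc⟩ := hcon
    have hx' : x - (a j - x0) = x0 := hx
    have hx'' : x = a j := by omega
    subst hx''
    refine ⟨a j, y, haA j, ?_, ?_, hc.mono le_rfl ((strip p ω).col_mono (hc0 j) ?_)⟩
    · have := hc0 j
      omega
    · have := hcl j
      omega
    · have := hcl j
      omega
  calc (arrLaw α).real {ω | ¬ (strip p ω).CrossFrom A 0 l N} ≤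
      (arrLaw α).real {ω | ∀ j : Fin n, cshift (a j - x0) ω ∈ F} := measureReal_mono hsub
    _ = ((arrLaw α).real F) ^ n := e4
    _ ≤ _ := pow_le_pow_left₀ measureReal_nonneg hFr n

end SlabAux

end CausalPerc.Neg
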