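import Pool.Agent.Lib.MP_a51368_pr.Neg.SlabCov

/-!
# Recursion over the slabs: one slab
-/

open MeasureTheory Set Filter Topology

noncomputable section

namespace CausalPerc.Neg

namespace SlabRec

open MeasAux

variable {α p : ℝ} {l w s N : ℕ}

theorem card_blocks (hl : 1 ≤ l) {a b : ℤ} (hab : a ≤ b) :
    ((Finset.Icc (a / (l : ℤ)) (b / (l : ℤ))).card : ENNReal) ≤
      ENNReal.ofReal (((b : ℝ) - a) / l + 2) := by
  have hl0 : (0 : ℤ) < l := by positivity
  have hlr : (0 : ℝ) < l := by positivity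
  rw [← ENNReal.ofReal_natCast]
  refine ENNReal.ofReal_le_ofReal ?_
  rw [Int.card_Icc]
  have h1 : a / (l : ℤ) ≤ b / (l : ℤ) := Int.ediv_le_ediv hl0 hab
  have h2 : (((b / (l : ℤ) + 1 - a / (l : ℤ)).toNat : ℕ) : ℝ) =
      (((b / (l : ℤ) + 1 - a / (l : ℤ)) : ℤ) : ℝ) := by
    have : (((b / (l : ℤ) + 1 - a / (l : ℤ)).toNat : ℕ) : ℤ) = b / (l : ℤ) + 1 - a / (l : ℤ) :=
      Int.toNat_of_nonneg (by omega)
    exact_mod_cast this
  rw [h2]
  have h3 : ((b / (l : ℤ) : ℤ) : ℝ) * l ≤ b := by exact_mod_cast Int.ediv_mul_le b hl0.ne'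
  have h4 : (a : ℝ) < (((a / (l : ℤ) : ℤ) : ℝ) + 1) * l := by
    exact_mod_cast Int.lt_ediv_add_one_mul_self a hl0
  push_cast
  rw [div_add' _ _ _ hlr.ne', le_div_iff₀ hlr]
  nlinarith

theorem fixed_top (hR : RecentreStmt) (hSh : StripShiftStmt) (hl : 1 ≤ l) {m k : ℕ}
    (hcl : ∀ (A : Set ℤ) (F : Finset ℤ) (w₀ : ℤ), w₀ ∉ F →
      (∀ v ∈ F, Rich w A (v * l) ((v + 1) * l)) →
      arrLaw α (TopS p l w₀ m ∩ CovS p l A F m) ≤ ENNReal.ofReal ((1 / 2) ^ (F.card + k)))
    (A : Set ℤ) (E G : Finset ℤ) (hG : G ⊆ E) (ω : Arr)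
    (hgood : ∀ v ∈ G, Good1 (strip p (cshift (v * l) ω)) {z | z + v * l ∈ A} l w s)
    (u : ℤ) (hu : u ∉ E) :
    arrLaw α {η | (∃ y, DD ω s (u * l) ≤ y ∧ y < DD ω s ((u + 1) * l) ∧
        (strip p η).DUp univ m y) ∧ (ω, η) ∈ SE p l A s m E} ≤
      ENNReal.ofReal (((DD ω s ((u + 1) * l) : ℝ) - DD ω s (u * l)) / l + 2) *
        ENNReal.ofReal ((1 / 2) ^ (5 * G.card + k)) := by
  classical
  have hl0 : (0 : ℤ) < l := by positivity
  obtain ⟨F, hF1, hF2, hF3⟩ := exF hR hSh hl A G ω hgood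
  let H : ℤ → Set Arr := fun c => {η | c ∉ F ∧
    η ∈ TopS p l c m ∩ CovS p l (cl (strip p ω) l A s) F m}
  have hT : ∀ i j : ℤ, i ≤ j → DD ω s (i * l) ≤ DD ω s (j * l) := fun i j hij =>
    DD_mono ω s (mul_le_mul_of_nonneg_right hij hl0.le)
  have hH : ∀ c, arrLaw α (H c) ≤ ENNReal.ofReal ((1 / 2) ^ (5 * G.card + k)) := by
    intro c
    by_cases hc : c ∈ F
    · have : H c = ∅ := by
        ext η
        simp only [H, mem_ofPred_eq, mem_empty_iff_false, iff_false]
        exact fun h => h.1 hc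
      rw [this, measure_empty]
      exact bot_le
    · rw [← hF1]
      exact (measure_mono (fun η hη => hη.2)).trans (hcl _ F c hc hF2)
  have hsub : {η | (∃ y, DD ω s (u * l) ≤ y ∧ y < DD ω s ((u + 1) * l) ∧
        (strip p η).DUp univ m y) ∧ (ω, η) ∈ SE p l A s m E} ⊆
      ⋃ c ∈ Finset.Icc (DD ω s (u * l) / (l : ℤ)) (DD ω s ((u + 1) * l) / (l : ℤ)), H c := by
    rintro η ⟨⟨y, hy1, hy2, hy3⟩, hη⟩
    have h1 : y / (l : ℤ) * l ≤ y := Int.ediv_mul_le y hl0.ne'
    have h2 : y < (y / (l : ℤ) + 1) * l := Int.lt_ediv_add_one_mul_self y hl0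
    simp only [mem_iUnion]
    refine ⟨y / (l : ℤ), ?_, ?_, ⟨y, h1, h2, hy3⟩, ?_⟩
    · rw [Finset.mem_Icc]
      exact ⟨Int.ediv_le_ediv hl0 hy1, Int.ediv_le_ediv hl0 hy2.le⟩
    · intro hc
      obtain ⟨v, hv, h3, h4⟩ := hF3 _ hc
      have hne : v ≠ u := fun h => hu (h ▸ hG hv)
      rcases lt_or_gt_of_ne hne with h | h
      · have := hT (v + 1) u (by omega)
        omega
      · have := hT (u + 1) v (by omega)
        omega
    · intro c hc
      obtain ⟨v, hv, h3, h4⟩ := hF3 c hc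
      exact hη v (hG hv) c h3 h4
  refine (measure_mono hsub).trans ((measure_biUnion_finset_le _ _).trans ?_)
  refine (Finset.sum_le_sum fun c _ => hH c).trans ?_
  rw [Finset.sum_const, nsmul_eq_mul]
  exact mul_le_mul_left (card_blocks hl (hT u (u + 1) (by omega))) _

/-! ### The functions of the columns -/

def g0 (p : ℝ) (l N : ℕ) (ω : Arr) : ENNReal := {ω | BdEv (strip p ω) l N}.indicator 1 ω

def gv (p : ℝ) (l w s : ℕ) (A : Set ℤ) (v : ℤ) (ω : Arr) : ENNReal :=
  ENNReal.ofReal (1 / 32) + {ω | ¬ Good1 (strip p ω) {z | z + v * l ∈ A} l w s}.indicator 1 ω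

def hh (l s : ℕ) (ω : Arr) : ENNReal := ENNReal.ofReal ((DD ω s l : ℝ) / l + 2)

theorem mBd : MeasurableSet {ω : Arr | BdEv (strip p ω) l N} := measurableSet_setOfPred.2 m_Bd

theorem mGd (A : Set ℤ) : MeasurableSet {ω : Arr | ¬ Good1 (strip p ω) A l w s} :=
  measurableSet_setOfPred.2 (m_Good1 A).not

theorem m_g0 : Measurable (g0 p l N) := measurable_one.indicator mBd

theorem m_gv (A : Set ℤ) (v : ℤ) : Measurable (gv p l w s A v) := by
  have h : Measurable ({ω : Arr | ¬ Good1 (strip p ω) {z | z + v * l ∈ A} l w s}.indicator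
    (1 : Arr → ENNReal)) := measurable_one.indicator (mGd _)
  exact h.const_add _

theorem m_hh : Measurable (hh l s) := by
  unfold hh
  exact ENNReal.measurable_ofReal.comp
    ((((measurable_of_countable (fun z : ℤ => (z : ℝ))).comp (meas_DD s l)).div_const _).add_const _)

theorem dep_g0 (hNs : N ≤ s) (ω ω' : Arr) (h : AgrC (3 * l) s ω ω') :
    g0 p l N ω = g0 p l N ω' := by
  have key := bd_dep (p := p) h hNs
  unfold g0
  by_cases g : BdEv (strip p ω) l N
  · rw [indicator_of_mem (by exact g), indicator_of_mem (by exact key.1 g)]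
    rfl
  · rw [indicator_of_notMem (by exact g), indicator_of_notMem (by exact fun g2 => g (key.2 g2))]

theorem dep_gv (A : Set ℤ) (v : ℤ) (ω ω' : Arr) (h : AgrC l s ω ω') :
    gv p l w s A v ω = gv p l w s A v ω' := by
  have key := good_dep (p := p) (w := w) (A := {z | z + v * l ∈ A}) h
  unfold gv
  congr 1
  by_cases g : Good1 (strip p ω) {z | z + v * l ∈ A} l w s
  · rw [indicator_of_notMem (by exact fun g2 => g2 g),
      indicator_of_notMem (by exact fun g2 => g2 (key.1 g))]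
  · rw [indicator_of_mem (by exact g), indicator_of_mem (by exact fun g2 => g (key.2 g2))]
    rfl

theorem int_g0 (h0 : 0 ≤ α) (h1 : α < 1) (h : SlabCrit α p l w s N) :
    ∫⁻ ω, g0 p l N ω ^ (2 : ℝ) ∂arrLaw α ≤ ENNReal.ofReal (1 / 10 ^ 9) := by
  have e : ∀ ω, g0 p l N ω ^ (2 : ℝ) = {ω | BdEv (strip p ω) l N}.indicator 1 ω := by
    intro ω
    unfold g0
    by_cases g : BdEv (strip p ω) l N
    · rw [indicator_of_mem (by exact g)]
      simp
    · rw [indicator_of_notMem (by exact g)]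
      simp
  simp only [e]
  rw [lintegral_indicator_one mBd]
  exact toE h0 h1 h.bd

theorem int_gv (h0 : 0 ≤ α) (h1 : α < 1) (h : SlabCrit α p l w s N) (A : Set ℤ) (v : ℤ)
    (hA : Rich w A (v * l) ((v + 1) * l)) :
    ∫⁻ ω, gv p l w s A v ω ^ (2 : ℝ) ∂arrLaw α ≤ ENNReal.ofReal (1 / 256) := by
  have := Adapted.arr_prob h0 h1
  have e : ∀ ω, gv p l w s A v ω ^ (2 : ℝ) ≤ ENNReal.ofReal (1 / 1024) +
      ENNReal.ofReal 2 * {ω | ¬ Good1 (strip p ω) {z | z + v * l ∈ A} l w s}.indicator 1 ω := by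
    intro ω
    unfold gv
    by_cases g : Good1 (strip p ω) {z | z + v * l ∈ A} l w s
    · rw [indicator_of_notMem (by exact fun g2 => g2 g), add_zero, mul_zero, add_zero,
        ENNReal.ofReal_rpow_of_nonneg (by norm_num) (by norm_num)]
      refine ENNReal.ofReal_le_ofReal ?_
      norm_num
    · rw [indicator_of_mem (by exact g), Pi.one_apply, mul_one, ← ENNReal.ofReal_one,
        ← ENNReal.ofReal_add (by norm_num) (by norm_num),
        ← ENNReal.ofReal_add (by norm_num) (by norm_num),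
        ENNReal.ofReal_rpow_of_nonneg (by norm_num) (by norm_num)]
      refine ENNReal.ofReal_le_ofReal ?_
      norm_num
  calc ∫⁻ ω, gv p l w s A v ω ^ (2 : ℝ) ∂arrLaw α
      ≤ ∫⁻ ω, (ENNReal.ofReal (1 / 1024) + ENNReal.ofReal 2 *
        {ω | ¬ Good1 (strip p ω) {z | z + v * l ∈ A} l w s}.indicator 1 ω) ∂arrLaw α :=
        lintegral_mono e
    _ = ENNReal.ofReal (1 / 1024) + ENNReal.ofReal 2 *
        arrLaw α {ω | ¬ Good1 (strip p ω) {z | z + v * l ∈ A} l w s} := by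
        rw [lintegral_add_left measurable_const, lintegral_const, measure_univ, mul_one,
          lintegral_const_mul _ (measurable_one.indicator (mGd _)),
          lintegral_indicator_one (mGd _)]
    _ ≤ ENNReal.ofReal (1 / 1024) + ENNReal.ofReal 2 * ENNReal.ofReal (1 / 10 ^ 9) := by
        gcongr
        exact toE h0 h1 (h.good _ (rich_shift hA))
    _ ≤ ENNReal.ofReal (1 / 256) := by
        rw [← ENNReal.ofReal_mul (by norm_num), ← ENNReal.ofReal_add (by norm_num) (by norm_num)]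
        exact ENNReal.ofReal_le_ofReal (by norm_num)

theorem int_hh (hWM : WidthMomStmt) (hCs : CshiftStmt) (h0 : 0 ≤ α) (h1 : α < 1)
    (h : SlabCrit α p l w s N) (a : ℤ) :
    ∫⁻ ω, hh l s (cshift a ω) ^ (2 : ℝ) ∂arrLaw α ≤ ENNReal.ofReal (45 ^ 2) := by
  have := Adapted.arr_prob h0 h1
  have hl1 : 1 ≤ l := h.hw.trans h.hwl
  have hlr : (0 : ℝ) < l := by positivity
  have h2 : ∫⁻ ω, hh l s (cshift a ω) ^ (2 : ℝ) ∂arrLaw α =
      ∫⁻ ω, hh l s ω ^ (2 : ℝ) ∂arrLaw α := by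
    conv_rhs => rw [← hCs α h0 h1 a]
    rw [lintegral_map (m_hh.pow_const _) (meas_cshift a)]
  rw [h2]
  have hint := (hWM α h0 h1 s).2.1 l
  have e : ∀ ω, hh l s ω ^ (2 : ℝ) ≤
      ENNReal.ofReal (2 / (l : ℝ) ^ 2 * ((DD ω s l : ℤ) : ℝ) ^ 2 + 8) := by
    intro ω
    unfold hh
    have hD : (0 : ℝ) ≤ ((DD ω s l : ℤ) : ℝ) := by
      have := DD_mono ω s (show (0 : ℤ) ≤ l by positivity)
      rw [DD_zero] at this
      exact_mod_cast this
    have hpos : (0 : ℝ) ≤ ((DD ω s l : ℤ) : ℝ) / l + 2 := by positivity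
    rw [ENNReal.ofReal_rpow_of_nonneg hpos (by norm_num), Real.rpow_two]
    refine ENNReal.ofReal_le_ofReal ?_
    have e2 : 2 / (l : ℝ) ^ 2 * ((DD ω s l : ℤ) : ℝ) ^ 2 =
        2 * (((DD ω s l : ℤ) : ℝ) / l) ^ 2 := by
      field_simp
    rw [e2]
    nlinarith [sq_nonneg (((DD ω s l : ℤ) : ℝ) / l - 2)]
  refine (lintegral_mono e).trans ?_
  rw [← ofReal_integral_eq_lintegral_ofReal]
  · refine ENNReal.ofReal_le_ofReal ?_
    rw [integral_add (hint.const_mul _) (integrable_const _), integral_const_mul, integral_const]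
    have h3 := h.sq
    have h4 : 2 / (l : ℝ) ^ 2 * ∫ ω, ((DD ω s l : ℤ) : ℝ) ^ 2 ∂arrLaw α ≤
        2 / (l : ℝ) ^ 2 * (1000 * (l : ℝ) ^ 2) := by gcongr
    have h5 : 2 / (l : ℝ) ^ 2 * (1000 * (l : ℝ) ^ 2) = 2000 := by
      field_simp
      norm_num
    rw [h5] at h4
    simp only [probReal_univ, smul_eq_mul, one_mul]
    linarith
  · exact (hint.const_mul _).add (integrable_const _)
  · exact Filter.Eventually.of_forall fun ω => by
      simp only [Pi.zero_apply]
      positivity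

/-- The events of one slab. -/
def SU (p : ℝ) (l N : ℕ) (A : Set ℤ) (s m : ℕ) (E : Finset ℤ) (w₀ u : ℤ) : Set (Arr × Arr) :=
  {q | BdEv (strip p (cshift ((w₀ - 1) * l) q.1)) l N ∧
    (∃ y, DD q.1 s (u * l) ≤ y ∧ y < DD q.1 s ((u + 1) * l) ∧ (strip p q.2).DUp univ m y)} ∩
    SE p l A s m E

theorem meas_SU (A : Set ℤ) (m : ℕ) (E : Finset ℤ) (w₀ u : ℤ) :
    MeasurableSet (SU p l N A s m E w₀ u) := by
  refine MeasurableSet.inter (measurableSet_setOfPred.2 (Measurable.and ?_ ?_)) (meas_SE _ _ _ _ _ _)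
  · exact (m_Bd.comp (meas_cshift _)).comp measurable_fst
  · refine Measurable.exists fun y => Measurable.and ?_ (Measurable.and ?_ ?_)
    · exact (mle (meas_DD s (u * l)) measurable_const).comp measurable_fst
    · exact (mlt measurable_const (meas_DD s ((u + 1) * l))).comp measurable_fst
    · exact (m_DUp p m_univ m y).comp measurable_snd

theorem SU_dep (hNs : N ≤ s) {A : Set ℤ} {m : ℕ} {E : Finset ℤ} {w₀ u : ℤ} {ω ω' η : Arr}
    (h : ∀ t < s, ω t = ω' t) (hq : (ω, η) ∈ SU p l N A s m E w₀ u) :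
    (ω', η) ∈ SU p l N A s m E w₀ u := by
  obtain ⟨⟨h1, y, h2, h3, h4⟩, h5⟩ := hq
  simp only at h1 h2 h3 h4
  refine ⟨⟨?_, y, ?_, ?_, h4⟩, SE_dep h h5⟩
  · refine bd_dep1 (n := s) ?_ hNs h1
    intro t ht x _ _
    rw [cshift_congr h _ t ht]
  · simp only
    rw [← DD_congr h _ s le_rfl]
    exact h2
  · simp only
    rw [← DD_congr h _ s le_rfl]
    exact h3

theorem step_u (hR : RecentreStmt) (hSh : StripShiftStmt) (hCI : ColIndepStmt)
    (hWM : WidthMomStmt) (hCs : CshiftStmt) (hSp : SplitStmt)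
    (h0 : 0 ≤ α) (h1 : α < 1) (h : SlabCrit α p l w s N) {m k : ℕ}
    (hcl : ∀ (A : Set ℤ) (F : Finset ℤ) (w₀ : ℤ), w₀ ∉ F →
      (∀ v ∈ F, Rich w A (v * l) ((v + 1) * l)) →
      arrLaw α (TopS p l w₀ m ∩ CovS p l A F m) ≤ ENNReal.ofReal ((1 / 2) ^ (F.card + k)))
    (A : Set ℤ) (E : Finset ℤ) (w₀ u : ℤ) (hu : u ∉ E)
    (hE : ∀ v ∈ E, v ≠ w₀ - 1 ∧ v ≠ w₀ ∧ v ≠ w₀ + 1)
    (hA : ∀ v ∈ E, Rich w A (v * l) ((v + 1) * l)) :
    arrLaw α {ω | (ω, post s ω) ∈ SU p l N A s m E w₀ u} ≤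
      ENNReal.ofReal ((1 / 2) ^ k * (45 / 30000) * (1 / 16) ^ E.card) := by
  classical
  have := Adapted.arr_prob h0 h1
  have hl1 : 1 ≤ l := h.hw.trans h.hwl
  rw [split_set (s := s) hSp h0 h1 (meas_SU A m E w₀ u) fun ω ω' η hag hq => SU_dep h.hNs hag hq]
  set X : Arr → ENNReal := fun ω => g0 p l N (cshift ((w₀ - 1) * l) ω) *
    ∏ v ∈ E, gv p l w s A v (cshift (v * l) ω) with hX
  have hpt : ∀ ω, arrLaw α {η | (ω, η) ∈ SU p l N A s m E w₀ u} ≤
      (X ω * hh l s (cshift (u * l) ω)) * ENNReal.ofReal ((1 / 2) ^ k) := by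
    intro ω
    by_cases hb : BdEv (strip p (cshift ((w₀ - 1) * l) ω)) l N
    · let G : Finset ℤ := E.filter fun v =>
        Good1 (strip p (cshift (v * l) ω)) {z | z + v * l ∈ A} l w s
      have h2 := fixed_top hR hSh hl1 hcl A E G (Finset.filter_subset _ _) ω
        (fun v hv => (Finset.mem_filter.1 hv).2) u hu
      have hg0 : g0 p l N (cshift ((w₀ - 1) * l) ω) = 1 := by
        unfold g0
        rw [indicator_of_mem (by exact hb)]
        rfl
      have hprod : ENNReal.ofReal ((1 / 2) ^ (5 * G.card)) ≤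
          ∏ v ∈ E, gv p l w s A v (cshift (v * l) ω) := by
        have e1 : ENNReal.ofReal ((1 / 2) ^ (5 * G.card)) = ∏ v ∈ E,
            if Good1 (strip p (cshift (v * l) ω)) {z | z + v * l ∈ A} l w s
              then ENNReal.ofReal (1 / 32) else 1 := by
          rw [← Finset.prod_filter, Finset.prod_const, ← ENNReal.ofReal_pow (by norm_num),
            pow_mul]
          norm_num
          rfl
        rw [e1]
        refine Finset.prod_le_prod' fun v hv => ?_
        split_ifs with hg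
        · exact le_self_add
        · unfold gv
          rw [indicator_of_mem (by exact hg)]
          exact le_add_self
      have hh1 : ENNReal.ofReal (((DD ω s ((u + 1) * l) : ℝ) - DD ω s (u * l)) / l + 2) =
          hh l s (cshift (u * l) ω) := by
        unfold hh
        rw [hSh.2.2.1]
        have e3 : (l : ℤ) + u * l = (u + 1) * l := by ring
        rw [e3]
        push_cast
        rfl
      calc arrLaw α {η | (ω, η) ∈ SU p l N A s m E w₀ u}
          ≤ arrLaw α {η | (∃ y, DD ω s (u * l) ≤ y ∧ y < DD ω s ((u + 1) * l) ∧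
              (strip p η).DUp univ m y) ∧ (ω, η) ∈ SE p l A s m E} :=
            measure_mono fun η hη => ⟨hη.1.2, hη.2⟩
        _ ≤ hh l s (cshift (u * l) ω) * ENNReal.ofReal ((1 / 2) ^ (5 * G.card + k)) := by
            rw [← hh1]
            exact h2
        _ = hh l s (cshift (u * l) ω) * (ENNReal.ofReal ((1 / 2) ^ (5 * G.card)) *
              ENNReal.ofReal ((1 / 2) ^ k)) := by
            rw [pow_add, ENNReal.ofReal_mul (by positivity)]
        _ ≤ hh l s (cshift (u * l) ω) * ((∏ v ∈ E, gv p l w s A v (cshift (v * l) ω)) *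
              ENNReal.ofReal ((1 / 2) ^ k)) := by gcongr
        _ = (X ω * hh l s (cshift (u * l) ω)) * ENNReal.ofReal ((1 / 2) ^ k) := by
            simp only [hX]
            rw [hg0]
            ring
    · have : {η | (ω, η) ∈ SU p l N A s m E w₀ u} = ∅ := by
        ext η
        simp only [mem_ofPred_eq, mem_empty_iff_false, iff_false]
        exact fun hη => hb hη.1.1
      rw [this, measure_empty]
      exact bot_le
  have hXm : Measurable X := (m_g0.comp (meas_cshift _)).mul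
    (Finset.measurable_prod _ fun v _ => (m_gv A v).comp (meas_cshift _))
  have hhm : Measurable fun ω => hh l s (cshift (u * l) ω) := m_hh.comp (meas_cshift _)
  have hX2 : ∫⁻ ω, X ω ^ (2 : ℝ) ∂arrLaw α ≤
      ENNReal.ofReal ((1 / 30000 * (1 / 16) ^ E.card) ^ 2) := by
    have e1 : ∀ ω, X ω ^ (2 : ℝ) = (fun ω => g0 p l N ω ^ (2 : ℝ)) (cshift ((w₀ - 1) * l) ω) *
        ∏ v ∈ E, (fun ω => gv p l w s A v ω ^ (2 : ℝ)) (cshift (v * l) ω) := by
      intro ω
      simp only [hX]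
      rw [ENNReal.mul_rpow_of_nonneg _ _ (by norm_num),
        ENNReal.prod_rpow_of_nonneg (by norm_num)]
    simp only [e1]
    rw [indep2 hCI h0 h1 s E (fun v ω => gv p l w s A v ω ^ (2 : ℝ))
      (fun v => (m_gv A v).pow_const _) (fun v ω ω' hag => by
        rw [dep_gv A v ω ω' hag]) w₀ (fun ω => g0 p l N ω ^ (2 : ℝ)) (m_g0.pow_const _)
      (fun ω ω' hag => by
        rw [dep_g0 h.hNs ω ω' hag]) hE]
    calc (∫⁻ ω, g0 p l N ω ^ (2 : ℝ) ∂arrLaw α) *
          ∏ v ∈ E, ∫⁻ ω, gv p l w s A v ω ^ (2 : ℝ) ∂arrLaw α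
        ≤ ENNReal.ofReal (1 / 10 ^ 9) * ∏ v ∈ E, ENNReal.ofReal (1 / 256) := by
          gcongr with v hv
          · exact int_g0 h0 h1 h
          · exact int_gv h0 h1 h A v (hA v hv)
      _ = ENNReal.ofReal (1 / 10 ^ 9 * (1 / 256) ^ E.card) := by
          rw [Finset.prod_const, ← ENNReal.ofReal_pow (by norm_num),
            ← ENNReal.ofReal_mul (by norm_num)]
      _ ≤ ENNReal.ofReal ((1 / 30000 * (1 / 16) ^ E.card) ^ 2) := by
          refine ENNReal.ofReal_le_ofReal ?_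
          rw [mul_pow, ← pow_mul, mul_comm E.card 2, pow_mul]
          have : ((1 : ℝ) / 16) ^ 2 = 1 / 256 := by norm_num
          rw [this]
          gcongr
          norm_num
  have hroot : ∀ z : ℝ, 0 ≤ z → ENNReal.ofReal (z ^ 2) ^ ((1 : ℝ) / 2) = ENNReal.ofReal z := by
    intro z hz
    rw [ENNReal.ofReal_rpow_of_nonneg (by positivity) (by norm_num), ← Real.sqrt_eq_rpow,
      Real.sqrt_sq hz]
  have hH := ENNReal.lintegral_mul_le_Lp_mul_Lq (arrLaw α) Real.HolderConjugate.two_two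
    hXm.aemeasurable hhm.aemeasurable
  calc ∫⁻ ω, arrLaw α {η | (ω, η) ∈ SU p l N A s m E w₀ u} ∂arrLaw α
      ≤ ∫⁻ ω, (X ω * hh l s (cshift (u * l) ω)) * ENNReal.ofReal ((1 / 2) ^ k) ∂arrLaw α :=
        lintegral_mono hpt
    _ = (∫⁻ ω, X ω * hh l s (cshift (u * l) ω) ∂arrLaw α) * ENNReal.ofReal ((1 / 2) ^ k) :=
        lintegral_mul_const _ (hXm.mul hhm)
    _ ≤ (ENNReal.ofReal (1 / 30000 * (1 / 16) ^ E.card) * ENNReal.ofReal 45) *
          ENNReal.ofReal ((1 / 2) ^ k) := by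
        gcongr
        refine hH.trans ?_
        rw [← hroot (1 / 30000 * (1 / 16) ^ E.card) (by positivity), ← hroot 45 (by norm_num)]
        gcongr
        exact int_hh hWM hCs h0 h1 h (u * l)
    _ = ENNReal.ofReal ((1 / 2) ^ k * (45 / 30000) * (1 / 16) ^ E.card) := by
        rw [← ENNReal.ofReal_mul (by positivity), ← ENNReal.ofReal_mul (by positivity)]
        congr 1
        ring

end SlabRec

end CausalPerc.Neg
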