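import Pool.Agent.Lib.MP_a51368_pr.Neg.Spec1

/-!
# Module statements, part 2: probability in the row model
-/

open MeasureTheory Set Filter Topology

noncomputable section

namespace CausalPerc.Neg

/-! ## Widths of columns -/

/-- Mean and second moment of the width of a column; `m = α/(1-α)`. -/
def WidthMomStmt : Prop :=
  ∀ α : ℝ, 0 ≤ α → α < 1 → ∀ (t : ℕ),
    (∀ b : ℤ, Integrable (fun ω => ((DD ω t b : ℤ) : ℝ)) (arrLaw α) ∧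
      ∫ ω, ((DD ω t b : ℤ) : ℝ) ∂arrLaw α = b * (α / (1 - α)) ^ t) ∧
    (∀ b : ℤ, Integrable (fun ω => ((DD ω t b : ℤ) : ℝ) ^ 2) (arrLaw α)) ∧
    (1 / 2 ≤ α → ∀ b : ℕ, ∫ ω, ((DD ω t b : ℤ) : ℝ) ^ 2 ∂arrLaw α ≤
      (b ^ 2 + (α / (1 - α) + 1) * b * t) * ((α / (1 - α)) ^ t) ^ 2)

/-- Chernoff bounds.  Exact formula: `E[(1-x)^{D_t(b)}] = (1 - 1/y)^b` with
`y = x⁻¹ m^{-t} + ∑_{j<t} m^{-j}` (also for `x < 0` as long as `y < 0`). -/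
def WidthStmt : Prop :=
  ∀ α : ℝ, 1 / 2 ≤ α → α < 1 → ∀ (t b : ℕ), 1 ≤ t →
    (∀ A : ℝ, (α / (1 - α)) ^ t ≤ 2 →
      (arrLaw α).real {ω | A ≤ ((DD ω t b : ℤ) : ℝ)} ≤ Real.exp ((b - A / 10) / t)) ∧
    (arrLaw α).real {ω | 4 * ((DD ω t b : ℤ) : ℝ) ≤ 3 * b} ≤ Real.exp (-(b : ℝ) / (200 * t)) ∧
    (1 / 2 < α → α ≤ 3 / 4 →
      (arrLaw α).real {ω | 2 * ((DD ω t b : ℤ) : ℝ) ≤ b * (α / (1 - α)) ^ t} ≤
        Real.exp (-(b : ℝ) * (2 * α - 1) / 20) ∧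
      (arrLaw α).real {ω | 2 * (b : ℝ) * (α / (1 - α)) ^ t ≤ ((DD ω t b : ℤ) : ℝ)} ≤
        Real.exp (-(b : ℝ) * (2 * α - 1) / 20))

/-! ## Exits of the oriented process -/

/-- An oriented open walk from the left of `0` reaches the line of `b`. -/
def exitR (p : ℝ) (n : ℕ) (b : ℤ) : Set Arr :=
  {ω | ∃ x ≤ 0, ∃ t ≤ n, ∃ z, (strip p ω).OConn n univ (0, x) (t, z) ∧ DD ω t b ≤ z}

/-- An oriented open walk from the right of `0` reaches the line of `-b`. -/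
def exitL (p : ℝ) (n : ℕ) (b : ℤ) : Set Arr :=
  {ω | ∃ x, 0 ≤ x ∧ ∃ t ≤ n, ∃ z, (strip p ω).OConn n univ (0, x) (t, z) ∧ z ≤ DD ω t (-b)}

/-- Exit bounds.  Let `b_t` be the gap between the dominating edge and the line; one step gives
`b_{t+1} = ∑_{b_t - run - 1} ξ`; induction: `P(exit within n steps | gap b) ≤ c_n s_0^b` with
`f(s_{i+1}) = s_i` (`f` = generating function), `c_{n+1} = c_n (1-p)/(s_0 - p)`;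
`1/(1-s_{i+1}) = m (1/(1-s_i) - 1)`. -/
def ExitStmt : Prop :=
  (∀ p : ℝ, 0 ≤ p → p < 1 → ∃ C : ℝ, 0 < C ∧ ∀ n b : ℕ, 1 ≤ n →
    (arrLaw (1 / 2)).real (exitR p n b) ≤ C * Real.exp (-(b : ℝ) / (C * n)) ∧
    (arrLaw (1 / 2)).real (exitL p n b) ≤ C * Real.exp (-(b : ℝ) / (C * n))) ∧
  (∀ α p : ℝ, 1 / 2 < α → α < 1 → 0 ≤ p → p < 1 → ∃ C : ℝ, 0 < C ∧ ∀ n b : ℕ,
    (arrLaw α).real (exitR p n b) ≤ C * Real.exp (-(b : ℝ) / C) ∧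
    (arrLaw α).real (exitL p n b) ≤ C * Real.exp (-(b : ℝ) / C))

/-! ## Edge processes at `α = 1/2` -/

def RR (p : ℝ) (n : ℕ) (ω : Arr) : ℤ := sSup ((strip p ω).OS (Iic 0) n)

def LL (p : ℝ) (n : ℕ) (ω : Arr) : ℤ := sInf ((strip p ω).OS (Ici 0) n)

def RE (p : ℝ) (n : ℕ) (ω : Arr) : ℤ := sSup ((strip p ω).ES (Iic 0) n)

def LE (p : ℝ) (n : ℕ) (ω : Arr) : ℤ := sInf ((strip p ω).ES (Ici 0) n)

/-- `κ_n(p)`, oriented. -/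
def kap (p : ℝ) (n : ℕ) : ℝ := ∫ ω, ((RR p n ω : ℝ) - (LL p n ω : ℝ)) ∂arrLaw (1 / 2)

/-- `κ_n(p)` for the enhanced process. -/
def kapE (p : ℝ) (n : ℕ) : ℝ := ∫ ω, ((RE p n ω : ℝ) - (LE p n ω : ℝ)) ∂arrLaw (1 / 2)

/-- The set processes from half lines are a.s. nonempty and bounded on one side, and their edges are
square integrable; mean of the oriented edges. -/
def EdgeStmt : Prop :=
  ∀ p : ℝ, 0 < p → p < 1 → ∀ n : ℕ,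
    (∀ᵐ ω ∂arrLaw (1 / 2), ∀ a : ℤ,
      ((strip p ω).OS (Iic a) n).Nonempty ∧ BddAbove ((strip p ω).OS (Iic a) n) ∧
      ((strip p ω).OS (Ici a) n).Nonempty ∧ BddBelow ((strip p ω).OS (Ici a) n) ∧
      ((strip p ω).ES (Iic a) n).Nonempty ∧ BddAbove ((strip p ω).ES (Iic a) n) ∧
      ((strip p ω).ES (Ici a) n).Nonempty ∧ BddBelow ((strip p ω).ES (Ici a) n)) ∧
    MemLp (fun ω => (RR p n ω : ℝ)) 2 (arrLaw (1 / 2)) ∧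
    MemLp (fun ω => (LL p n ω : ℝ)) 2 (arrLaw (1 / 2)) ∧
    MemLp (fun ω => (RE p n ω : ℝ)) 2 (arrLaw (1 / 2)) ∧
    MemLp (fun ω => (LE p n ω : ℝ)) 2 (arrLaw (1 / 2)) ∧
    (∀ a : ℤ, ∫ ω, ((sSup ((strip p ω).OS (Iic a) n) : ℤ) : ℝ) ∂arrLaw (1 / 2) =
      a + ∫ ω, (RR p n ω : ℝ) ∂arrLaw (1 / 2)) ∧
    (∀ a : ℤ, ∫ ω, ((sInf ((strip p ω).OS (Ici a) n) : ℤ) : ℝ) ∂arrLaw (1 / 2) =
      a + ∫ ω, (LL p n ω : ℝ) ∂arrLaw (1 / 2)) ∧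
    (∀ a : ℤ, ∫ ω, ((sSup ((strip p ω).ES (Iic a) n) : ℤ) : ℝ) ∂arrLaw (1 / 2) =
      a + ∫ ω, (RE p n ω : ℝ) ∂arrLaw (1 / 2)) ∧
    (∀ a : ℤ, ∫ ω, ((sInf ((strip p ω).ES (Ici a) n) : ℤ) : ℝ) ∂arrLaw (1 / 2) =
      a + ∫ ω, (LE p n ω : ℝ) ∂arrLaw (1 / 2)) ∧
    ∫ ω, (RR p n ω : ℝ) ∂arrLaw (1 / 2) ≤ n / (1 - p) ∧
    -(n : ℝ) / (1 - p) ≤ ∫ ω, (LL p n ω : ℝ) ∂arrLaw (1 / 2)

/-- Monotonicity, right continuity (in the form needed) and negativity for small `p`. -/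
def KapStmt : Prop :=
  (∀ p p' : ℝ, 0 < p → p ≤ p' → p' < 1 → ∀ n, kap p n ≤ kap p' n) ∧
  (∀ p : ℝ, 0 < p → p < 1 → ∀ n, kap p n < 0 → ∃ p', p < p' ∧ p' < 1 ∧ kap p' n < 0) ∧
  ∃ p : ℝ, 0 < p ∧ p < 1 / 2 ∧ kap p 1 < 0

/-- GAIN: the enhanced process gains at least `p³/2` per level on both sides. -/
def GainStmt : Prop :=
  ∀ p : ℝ, 0 < p → p < 1 → ∀ n : ℕ, kap p n + p ^ 3 * n ≤ kapE p n

/-- `P(T > j)`: the enhanced sets from `(-∞,0]` and `[1,∞)` have not met up to level `j`. -/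
def tailT (p : ℝ) (j : ℕ) : ℝ :=
  (arrLaw (1 / 2)).real {ω | ∀ t ≤ j, sSup ((strip p ω).ES (Iic 0) t) <
    sInf ((strip p ω).ES (Ici 1) t)}

/-- RENEWAL inequality: at the meeting time restart both edges from full half lines. -/
def RenewStmt : Prop :=
  ∀ p : ℝ, 0 < p → p < 1 → ∀ ε > 0, ∃ C : ℝ, ∀ n : ℕ,
    kapE p n ≤ C + ε * ∑ j ∈ Finset.range n, tailT p j +
      ∑ j ∈ Finset.range n, (tailT p j - tailT p (j + 1)) * kapE p (n - 1 - j)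

/-- Pure analysis for the renewal inequality. -/
def RenewSeqStmt : Prop :=
  ∀ (a k : ℕ → ℝ) (δ : ℝ), Antitone a → (∀ j, 0 ≤ a j) → (∀ j, a j ≤ 1) → 0 < δ →
    (∀ i : ℕ, δ * i ≤ k i) →
    (∀ ε > 0, ∃ C : ℝ, ∀ n : ℕ, k n ≤ C + ε * ∑ j ∈ Finset.range n, a j +
      ∑ j ∈ Finset.range n, (a j - a (j + 1)) * k (n - 1 - j)) → Summable a

/-- `u_n ≤ P(T > n)`. (from SeparateStmt) -/
def UTailStmt : Prop := ∀ p : ℝ, 0 < p → p < 1 → ∀ n, uu (1 / 2) p n ≤ tailT p n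

/-- BARRIERS: if `κ_n ≥ 0` for all `n`, then columns of width `C n` have an open crossing of height
`n` with probability at least `1/2`. -/
def BarrierStmt : Prop :=
  ∀ p : ℝ, 0 < p → p < 1 → (∀ n, 0 ≤ kap p n) →
    ∃ C : ℕ, 1 ≤ C ∧ ∀ n : ℕ, 1 ≤ n → vv (1 / 2) p (C * n : ℕ) n ≤ 1 / 2

/-! ## Oriented extinction -/

/-- Number of intervals of length `z` needed to cover the set `A`. -/
def cov (z : ℕ) (A : Set ℤ) : ℕ :=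
  open Classical in if A.Nonempty then (sSup A - sInf A).toNat / z + 1 else 0

def covE (α p : ℝ) (z T : ℕ) : ENNReal :=
  ∫⁻ ω, (cov z ((strip p ω).OS (Ico 0 z) T) : ENNReal) ∂arrLaw α

/-- negative drift gives a finite criterion at `α = 1/2` -/
def FiniteCritStmt : Prop :=
  ∀ p : ℝ, 0 < p → p < 1 → ∀ n : ℕ, 1 ≤ n → kap p n < 0 →
    ∃ z T : ℕ, 1 ≤ z ∧ 1 ≤ T ∧ covE (1 / 2) p z T < 1

/-- the criterion is an open condition in `α` -/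
def CritOpenStmt : Prop :=
  ∀ (p : ℝ) (z T : ℕ), 0 ≤ p → p < 1 → 1 ≤ z → covE (1 / 2) p z T < 1 →
    ∃ ε > 0, ∀ α : ℝ, 1 / 2 ≤ α → α < 1 / 2 + ε → covE α p z T < 1

/-- the criterion implies extinction of the oriented process -/
def CritExtinctStmt : Prop :=
  ∀ (α p : ℝ) (z T : ℕ), 0 ≤ α → α < 1 → 1 ≤ z → 1 ≤ T → covE α p z T < 1 → ¬ ColInf α p

/-! ## Recursions -/

/-- Elementary monotonicity. -/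
def MonoStmt : Prop :=
  ∀ α : ℝ, 0 ≤ α → α < 1 →
    (∀ (p p' : ℝ) (b : ℤ) (n : ℕ), p ≤ p' → vv α p' b n ≤ vv α p b n) ∧
    (∀ (p p' : ℝ) (n : ℕ), p ≤ p' → uu α p' n ≤ uu α p n) ∧
    (∀ (p : ℝ) (b b' : ℤ) (n : ℕ), b ≤ b' → vv α p b' n ≤ vv α p b n) ∧
    (∀ (p : ℝ) (b : ℤ) (n n' : ℕ), n ≤ n' → vv α p b n ≤ vv α p b n') ∧
    (∀ (p : ℝ) (n n' : ℕ), 1 ≤ n → n ≤ n' → uu α p n' ≤ uu α p n) ∧
    (∀ (p : ℝ) (b K n : ℕ), vv α p (K * b : ℕ) n ≤ vv α p b n ^ K) ∧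
    (∀ (p p' : ℝ), p ≤ p' → ColInf α p → ColInf α p')

/-- (R2) -/
def R2Stmt : Prop :=
  ∀ (α p : ℝ) (n W K A : ℕ), 0 ≤ α → α < 1 → 1 ≤ n → 1 ≤ W →
    uu α p (2 * n) ≤ 2 * vv α p W (2 * n) ^ K + A * uu α p n ^ 2 +
      (arrLaw α).real {ω | (A : ℤ) ≤ DD ω n (1 + 2 * K * W : ℕ)}

/-- (R1) -/
def R1Stmt : Prop :=
  ∀ (α p : ℝ) (h b A : ℕ), 0 ≤ α → α < 1 → 1 ≤ h → 1 ≤ b →
    vv α p (4 * b : ℕ) (4 * h) ≤ vv α p b (2 * h) ^ 4 + 2 * vv α p b (2 * h) ^ 3 +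
      (arrLaw α).real {ω | DD ω h (4 * b : ℕ) < 3 * b} +
      (arrLaw α).real {ω | DD ω (2 * h) (4 * b : ℕ) < 3 * b} +
      (arrLaw α).real {ω | (A : ℤ) ≤ DD ω h (4 * b : ℕ)} +
      (arrLaw α).real {ω | (A : ℤ) ≤ DD ω (2 * h) (4 * b : ℕ)} + 2 * A * uu α p h

/-- At a parameter with barriers and summable `u_n`: superpolynomial decay. -/
def SuperPolyStmt : Prop :=
  ∀ (p : ℝ) (C : ℕ), 1 ≤ C → (∀ n : ℕ, 1 ≤ n → vv (1 / 2) p (C * n : ℕ) n ≤ 1 / 2) →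
    Summable (fun n => uu (1 / 2) p n) →
    ∀ A : ℕ, ∀ᶠ k : ℕ in atTop, uu (1 / 2) p (2 ^ k) ≤ (1 / 2) ^ (A * k) ∧
      vv (1 / 2) p (4 ^ k) (2 ^ k) ≤ (1 / 2) ^ (A * k)

/-- Induction over the scales. -/
def ScaleStmt : Prop :=
  ∃ k₀ : ℕ, ∀ k₁ ≥ k₀, ∀ p : ℝ, uu (1 / 2) p (2 ^ k₁) ≤ (1 / 2) ^ (100 * (k₁ + 1)) →
    uu (1 / 2) p (2 ^ (k₁ + 1)) ≤ (1 / 2) ^ (100 * (k₁ + 1)) →
    vv (1 / 2) p (4 ^ (k₁ + 1)) (2 ^ (k₁ + 1)) ≤ (1 / 2) ^ (50 * (k₁ + 1)) →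
    ∀ k > k₁, uu (1 / 2) p (2 ^ k) ≤ (1 / 2) ^ (100 * k) ∧
      vv (1 / 2) p (4 ^ k) (2 ^ k) ≤ (1 / 2) ^ (50 * k)

/-- Continuity in `p` from the left (upper bound form). -/
def ContStmt : Prop :=
  ∀ (p : ℝ) (n : ℕ) (b : ℕ) (η : ℝ), 0 < p → p ≤ 1 → 0 < η → ∃ ε > 0, ∀ p' : ℝ, p - ε < p' →
    uu (1 / 2) p' n ≤ uu (1 / 2) p n + η ∧ vv (1 / 2) p' b n ≤ vv (1 / 2) p b n + η

/-- Transfer to `α` slightly above `1/2` (likelihood ratio on a finite box). -/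
def TransferStmt : Prop :=
  ∃ N₁ : ℕ, ∀ (N : ℕ) (α p : ℝ), N₁ ≤ N → 1 / 2 ≤ α → (2 * α - 1) * (N : ℝ) ^ 10 ≤ 1 →
    vv α p (N ^ 2 : ℕ) N ≤ 4 * vv (1 / 2) p (N ^ 2 : ℕ) N + Real.exp (-N) ∧
    ∀ h : ℕ, 1 ≤ h → h ≤ N →
      uu α p h ≤ 4 * uu (1 / 2) p h + 16 * vv (1 / 2) p (N ^ 2 : ℕ) N + 10 * Real.exp (-N)

/-! ## Slab criterion -/

/-- `A` meets every subinterval of length `w` of `[a,b)`. -/
def Rich (w : ℕ) (A : Set ℤ) (a b : ℤ) : Prop :=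
  ∀ c, a ≤ c → c + w ≤ b → ∃ x ∈ A, c ≤ x ∧ x < c + w

/-- The open cluster of `A` inside the column of `[0,l)` is rich at level `s`, and the column is
wide there. -/
def Good1 (E : Strip) (A : Set ℤ) (l w s : ℕ) : Prop :=
  7 * (l : ℤ) ≤ E.D s l ∧
    Rich w {y | ∃ x ∈ A, 0 ≤ x ∧ x < l ∧ E.Conn s (E.col 0 l) (0, x) (s, y)} 0 (E.D s l)

/-- Bad event for the middle one of three consecutive blocks. -/
def BdEv (E : Strip) (l N : ℕ) : Prop :=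
  ¬ E.Cross 0 l N ∨ ¬ E.Cross (2 * l) (3 * l) N ∨
    ∃ e : ℤ, l ≤ e ∧ e < 2 * l ∧ E.DUp (E.col 0 (3 * l)) N e

structure SlabCrit (α p : ℝ) (l w s N : ℕ) : Prop where
  hw : 1 ≤ w
  hwl : w ≤ l
  hN : 1 ≤ N
  hNs : N ≤ s
  good : ∀ A : Set ℤ, Rich w A 0 l →
    (arrLaw α).real {ω | ¬ Good1 (strip p ω) A l w s} ≤ 1 / 10 ^ 9
  bd : (arrLaw α).real {ω | BdEv (strip p ω) l N} ≤ 1 / 10 ^ 9
  sq : ∫ ω, ((DD ω s l : ℤ) : ℝ) ^ 2 ∂arrLaw α ≤ 1000 * (l : ℝ) ^ 2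

/-- The slab criterion holds for `α` slightly above `1/2`. -/
def SlabStmt : Prop :=
  ∃ N₂ : ℕ, ∀ (M : ℕ) (α p : ℝ), N₂ ≤ M → 1 / 2 < α →
    (2 * α - 1) * ((2 * M : ℕ) : ℝ) ^ 10 ≤ 1 → 1 ≤ (2 * α - 1) * ((4 * M : ℕ) : ℝ) ^ 10 →
    vv α p ((2 * M) ^ 2 : ℕ) (2 * M) ≤ 1 / ((2 * M : ℕ) : ℝ) ^ 40 →
    uu α p M ≤ 1 / ((2 * M : ℕ) : ℝ) ^ 40 →
    uu α p (2 * M) ≤ 1 / ((2 * M : ℕ) : ℝ) ^ 40 →
    ∃ s, SlabCrit α p ((2 * M) ^ 13) (30 * (2 * M) ^ 2) s (2 * M)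

/-- Recursion over the slabs. -/
def SlabRecStmt : Prop :=
  ∀ (α p : ℝ) (l w s N : ℕ), 1 / 2 < α → α < 1 → SlabCrit α p l w s N →
    (∀ n, vv α p l n ≤ 1 / 2) ∧ Tendsto (fun n => uu α p n) atTop (𝓝 0)

end CausalPerc.Neg
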